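import Pool.Agent.PBL.B1a
import Pool.Agent.HP89.A2a

/-! Module PBL-B3a (from lists to tuples). `ρ` is a probability measure with `‖x‖ = 1` a.e., so for `ρ^n`-a.e. `X` all `‖X i‖ = 1` and
`(List.ofFn X).map nrm = List.ofFn X`, `wq (List.ofFn X) = wv X`. Use `itr_pi`. `LB wq`: `wq` is bounded by `1`
(`wn_le_prod`, `‖nrm x‖ ≤ 1`) and measurable (`measurable_wn` composed with the measurable map `X ↦ nrm ∘ X`). -/

set_option autoImplicit false

namespace Pool.Agent.PBL
open MeasureTheory ProbabilityTheory Set Filter Topology Metric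
open Pool.Agent.HP89 Pool.Agent.FI75
open scoped RealInnerProductSpace ENNReal

variable {V : Type*} [NormedAddCommGroup V] [InnerProductSpace ℝ V] [FiniteDimensional ℝ V]
  [MeasurableSpace V] [BorelSpace V]

theorem measurable_nrm : Measurable (nrm : V → V) := by
  unfold nrm
  exact measurable_norm.inv.smul measurable_id

omit [FiniteDimensional ℝ V] [MeasurableSpace V] [BorelSpace V] in
theorem norm_nrm_le (x : V) : ‖nrm x‖ ≤ 1 := by
  unfold nrm
  rw [norm_smul, norm_inv, norm_norm]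
  by_cases h : ‖x‖ = 0
  · rw [h, mul_zero]; exact zero_le_one
  · rw [inv_mul_cancel₀ h]

private theorem wq_nonneg (Z : List V) : 0 ≤ wq Z := wn_nonneg _

private theorem wq_le (Z : List V) : wq Z ≤ 1 := by
  unfold wq
  have h := wn_le_prod (Z.map nrm)
  refine h.trans ?_
  rw [List.map_map]
  induction Z with
  | nil => simp
  | cons x Z ih =>
    rw [List.map_cons, List.prod_cons]
    have h1 : 0 ≤ (Z.map ((fun x => ‖x‖) ∘ (nrm : V → V))).prod :=
      List.prod_nonneg fun a ha => by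
        obtain ⟨b, -, rfl⟩ := List.mem_map.1 ha
        exact norm_nonneg _
    exact mul_le_one₀ (norm_nrm_le x) h1 (ih (wn_le_prod _))

theorem lb_wq : LB (wq : List V → ℝ) := by
  refine ⟨fun n => ?_, 1, fun Z => ?_⟩
  · unfold wq
    have h : (fun X : Fin n → V => wn ((List.ofFn X).map nrm)) =
        (fun X : Fin n → V => wn (List.ofFn X)) ∘ (fun X : Fin n → V => fun i => nrm (X i)) := by
      funext X
      simp only [Function.comp_apply, List.map_ofFn]
      rfl
    rw [h]
    refine (measurable_wn n).comp ?_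
    rw [measurable_pi_iff]
    exact fun i => measurable_nrm.comp (measurable_pi_apply i)
  · rw [abs_of_nonneg (wq_nonneg Z)]
    exact wq_le Z

theorem ae_unit {ρ : Measure V} (hρ : US ρ) (n : ℕ) : ∀ᵐ X ∂(pp n ρ), ∀ i, ‖X i‖ = 1 := by
  haveI := hρ.prob
  rw [ae_all_iff]
  intro i
  have h := (measurePreserving_eval (fun _ : Fin n => ρ) i).quasiMeasurePreserving
  exact h.ae hρ.unit

private theorem wq_ofFn {n : ℕ} {X : Fin n → V} (hX : ∀ i, ‖X i‖ = 1) : wq (List.ofFn X) = wv X := by
  unfold wq wv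
  rw [List.map_ofFn]
  congr 2
  funext i
  simp only [Function.comp_apply, nrm, hX i, inv_one, one_smul]

theorem ae_wv_le {ρ : Measure V} (hρ : US ρ) (n : ℕ) : ∀ᵐ X ∂(pp n ρ), 0 ≤ wv X ∧ wv X ≤ 1 := by
  filter_upwards [ae_unit hρ n] with X hX
  rw [← wq_ofFn hX]
  exact ⟨wq_nonneg _, wq_le _⟩

theorem itr_iw {ρ : Measure V} (hρ : US ρ) {F : List V → ℝ} (hF : LB F) (n : ℕ) :
    itr ρ n (fun Z => wq Z * F Z) [] = iw n ρ (fun X => F (List.ofFn X)) := by
  haveI := hρ.prob
  rw [itr_pi (lb_wq.mul hF) n]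
  unfold iw
  refine integral_congr_ae ?_
  filter_upwards [ae_unit hρ n] with X hX
  rw [wq_ofFn hX]

theorem itr_en {ρ : Measure V} (hρ : US ρ) (n : ℕ) : itr ρ n wq [] = en n ρ := by
  haveI := hρ.prob
  rw [itr_pi lb_wq n]
  unfold en
  refine integral_congr_ae ?_
  filter_upwards [ae_unit hρ n] with X hX
  rw [wq_ofFn hX]

end Pool.Agent.PBL
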