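import Pool.Agent.PBL.Defs
import Pool.Agent.FI75.RL
import Pool.Agent.HP89.A4
import Pool.Agent.PBL.B3a

/-! Module PBL-C0: the norm and the direction of the projection of a standard Gaussian vector to a
subspace are independent; the fourth moment of the norm. -/

set_option autoImplicit false

namespace Pool.Agent.PBL
open MeasureTheory ProbabilityTheory Set Filter Topology Metric
open Pool.Agent.HP89 Pool.Agent.FI75
open scoped RealInnerProductSpace ENNReal

variable {V : Type*} [NormedAddCommGroup V] [InnerProductSpace ℝ V] [FiniteDimensional ℝ V]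
  [MeasurableSpace V] [BorelSpace V]

private theorem lint_proj (E : Submodule ℝ V) {F : V → ℝ≥0∞} (hF : Measurable F) :
    ∫⁻ g, F (E.starProjection g) ∂(stdGaussian V) = ∫⁻ x : E, F (x : V) ∂(stdGaussian E) := by
  have h1 : ∫⁻ y, F y ∂((stdGaussian V).map (fun g => E.starProjection g)) =
      ∫⁻ g, F (E.starProjection g) ∂(stdGaussian V) :=
    lintegral_map hF (by fun_prop)
  have h2 : ∫⁻ y, F y ∂((stdGaussian E).map (fun x : E => (x : V))) =
      ∫⁻ x : E, F (x : V) ∂(stdGaussian E) :=
    lintegral_map hF (by fun_prop)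
  rw [← h1, map_starProjection, h2]

omit [FiniteDimensional ℝ V] [MeasurableSpace V] [BorelSpace V] in
private theorem nrm_smul {c : ℝ} (hc : 0 < c) (x : V) : nrm (c • x) = nrm x := by
  unfold nrm
  rw [norm_smul, Real.norm_eq_abs, abs_of_pos hc, smul_smul, mul_inv]
  congr 1
  field_simp

theorem rad_sub (E : Submodule ℝ V) (hE : 1 ≤ Module.finrank ℝ E) {f : ℝ → ℝ≥0∞} (hf : Measurable f) {φ : V → ℝ≥0∞}
    (hφ : Measurable φ) :
    ∫⁻ g, f ‖E.starProjection g‖ * φ (nrm (E.starProjection g)) ∂(stdGaussian V) =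
      (∫⁻ g, f ‖E.starProjection g‖ ∂(stdGaussian V)) * ∫⁻ g, φ (nrm (E.starProjection g)) ∂(stdGaussian V) := by
  have hn : Measurable (nrm : V → V) := measurable_nrm
  rw [lint_proj E (F := fun y => f ‖y‖ * φ (nrm y))
      ((hf.comp measurable_norm).mul (hφ.comp hn)),
    lint_proj E (F := fun y => f ‖y‖) (hf.comp measurable_norm),
    lint_proj E (F := fun y => φ (nrm y)) (hφ.comp hn)]
  exact radial_lintegral hE hf (ψ := fun x : E => φ (nrm (x : V)))
    ((hφ.comp hn).comp measurable_subtype_coe) (fun c hc x => by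
      have h : ((c • x : E) : V) = c • (x : V) := rfl
      rw [h, nrm_smul hc])

private theorem indep_proj (E : Submodule ℝ V) (hE : 1 ≤ Module.finrank ℝ E) :
    IndepFun (fun g : V => ‖E.starProjection g‖) (fun g : V => nrm (E.starProjection g))
      (stdGaussian V) := by
  rw [indepFun_iff_measure_inter_preimage_eq_mul]
  intro s t hs ht
  have hP : Measurable (fun g : V => E.starProjection g) := by fun_prop
  have hn : Measurable (nrm : V → V) := measurable_nrm
  have hX : Measurable (fun g : V => ‖E.starProjection g‖) := measurable_norm.comp hP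
  have hY : Measurable (fun g : V => nrm (E.starProjection g)) := hn.comp hP
  have h1 := rad_sub E hE (f := s.indicator 1) (measurable_one.indicator hs)
    (φ := t.indicator 1) (measurable_one.indicator ht)
  have h2 : ∫⁻ g, s.indicator (1 : ℝ → ℝ≥0∞) ‖E.starProjection g‖ ∂(stdGaussian V) =
      stdGaussian V ((fun g : V => ‖E.starProjection g‖) ⁻¹' s) := by
    rw [← lintegral_indicator_one (hX hs)]
    rfl
  have h3 : ∫⁻ g, t.indicator (1 : V → ℝ≥0∞) (nrm (E.starProjection g)) ∂(stdGaussian V) =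
      stdGaussian V ((fun g : V => nrm (E.starProjection g)) ⁻¹' t) := by
    rw [← lintegral_indicator_one (hY ht)]
    rfl
  have h4 : ∫⁻ g, s.indicator (1 : ℝ → ℝ≥0∞) ‖E.starProjection g‖ *
      t.indicator (1 : V → ℝ≥0∞) (nrm (E.starProjection g)) ∂(stdGaussian V) =
      stdGaussian V ((fun g : V => ‖E.starProjection g‖) ⁻¹' s ∩
        (fun g : V => nrm (E.starProjection g)) ⁻¹' t) := by
    rw [← lintegral_indicator_one ((hX hs).inter (hY ht))]
    apply lintegral_congr
    intro g
    by_cases hg1 : ‖E.starProjection g‖ ∈ s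
    · by_cases hg2 : nrm (E.starProjection g) ∈ t
      · rw [Set.indicator_of_mem hg1, Set.indicator_of_mem hg2,
          Set.indicator_of_mem (show g ∈ _ ∩ _ from ⟨hg1, hg2⟩)]
        simp
      · rw [Set.indicator_of_notMem hg2, mul_zero,
          Set.indicator_of_notMem (fun h => hg2 h.2)]
    · rw [Set.indicator_of_notMem hg1, zero_mul,
        Set.indicator_of_notMem (fun h => hg1 h.1)]
  rw [← h4, h1, h2, h3]

theorem rad_real (E : Submodule ℝ V) (hE : 1 ≤ Module.finrank ℝ E) {f : ℝ → ℝ} (hf : Measurable f)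
    (hfi : Integrable (fun g => f ‖E.starProjection g‖) (stdGaussian V)) {φ : V → ℝ}
    (hφ : Measurable φ) {C : ℝ} (hC : ∀ x, |φ x| ≤ C) :
    ∫ g, f ‖E.starProjection g‖ * φ (nrm (E.starProjection g)) ∂(stdGaussian V) =
      (∫ g, f ‖E.starProjection g‖ ∂(stdGaussian V)) * av E φ := by
  have hP : Measurable (fun g : V => E.starProjection g) := by fun_prop
  have hn : Measurable (nrm : V → V) := measurable_nrm
  have h := (indep_proj E hE).comp hf hφ
  exact h.integral_fun_mul_eq_mul_integral
    ((hf.comp (measurable_norm.comp hP)).aestronglyMeasurable)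
    ((hφ.comp (hn.comp hP)).aestronglyMeasurable)

theorem ae_proj_ne (E : Submodule ℝ V) (hE : 1 ≤ Module.finrank ℝ E) :
    ∀ᵐ g ∂(stdGaussian V), E.starProjection g ≠ 0 := by
  have : Nontrivial E := Module.nontrivial_of_finrank_pos (R := ℝ) (by omega)
  have h0 : (stdGaussian E) {0} = 0 := by
    rw [stdGaussian_density]
    exact withDensity_absolutelyContinuous _ _ (measure_singleton 0)
  have h1 := lint_proj E (F := ({0} : Set V).indicator 1)
    (measurable_one.indicator (measurableSet_singleton 0))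
  have hP : Measurable (fun g : V => E.starProjection g) := by fun_prop
  have h2 : ∫⁻ g, ({0} : Set V).indicator (1 : V → ℝ≥0∞) (E.starProjection g) ∂(stdGaussian V) =
      stdGaussian V ((fun g : V => E.starProjection g) ⁻¹' {0}) := by
    rw [← lintegral_indicator_one (hP (measurableSet_singleton 0))]
    rfl
  have h3 : ∫⁻ x : E, ({0} : Set V).indicator (1 : V → ℝ≥0∞) (x : V) ∂(stdGaussian E) =
      stdGaussian E ((fun x : E => (x : V)) ⁻¹' {0}) := by
    rw [← lintegral_indicator_one (measurable_subtype_coe (measurableSet_singleton 0))]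
    rfl
  have h4 : (fun x : E => (x : V)) ⁻¹' {0} = {0} := by
    ext x
    simp
  rw [h2, h3, h4, h0] at h1
  rw [ae_iff]
  have h5 : {g : V | ¬ E.starProjection g ≠ 0} = (fun g : V => E.starProjection g) ⁻¹' {0} := by
    ext g
    simp
  rw [h5]
  exact h1

private theorem int_pow_four (hd : 1 ≤ Module.finrank ℝ V) :
    ∫ g : V, ‖g‖ ^ 4 ∂(stdGaussian V) =
      (Module.finrank ℝ V : ℝ) * ((Module.finrank ℝ V : ℝ) + 2) := by
  have : Nontrivial V := Module.nontrivial_of_finrank_pos (R := ℝ) (by omega)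
  obtain ⟨n, hn⟩ : ∃ n, Module.finrank ℝ V = n + 1 := ⟨Module.finrank ℝ V - 1, by omega⟩
  obtain ⟨c, hc⟩ : ∃ c : ℝ, c = cG V * ((n + 1 : ℕ) * (volume : Measure V).real (ball 0 1)) :=
    ⟨_, rfl⟩
  have h1 : ∫ g : V, ‖g‖ ^ 4 ∂(stdGaussian V) = c * Irad (n + 4) := by
    rw [HP89.integral_gaussian]
    have h2 := integral_fun_norm_addHaar (volume : Measure V)
      (fun y : ℝ => Real.exp (-(1 / 2) * y ^ 2) * y ^ 4)
    rw [h2, hn, hc, nsmul_eq_mul, smul_eq_mul, Nat.add_sub_cancel]
    have h3 : ∫ y in Ioi (0 : ℝ), y ^ n • (Real.exp (-(1 / 2) * y ^ 2) * y ^ 4) = Irad (n + 4) := by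
      unfold Irad
      refine setIntegral_congr_fun measurableSet_Ioi (fun y _ => ?_)
      rw [smul_eq_mul, pow_add]
      ring
    rw [h3]
    ring
  have h4 : (1 : ℝ) = c * Irad n := by
    have h5 : ∫ g : V, (1 : ℝ) ∂(stdGaussian V) = c * Irad n := by
      rw [HP89.integral_gaussian]
      have h2 := integral_fun_norm_addHaar (volume : Measure V)
        (fun y : ℝ => Real.exp (-(1 / 2) * y ^ 2) * 1)
      rw [h2, hn, hc, nsmul_eq_mul, smul_eq_mul, Nat.add_sub_cancel]
      have h3 : ∫ y in Ioi (0 : ℝ), y ^ n • (Real.exp (-(1 / 2) * y ^ 2) * 1) = Irad n := by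
        unfold Irad
        refine setIntegral_congr_fun measurableSet_Ioi (fun y _ => ?_)
        rw [smul_eq_mul, mul_one]
      rw [h3]
      ring
    rw [← h5, integral_const, smul_eq_mul, mul_one]
    simp
  have h6 : Irad (n + 4) = ((n : ℝ) + 3) * (((n : ℝ) + 1) * Irad n) := by
    have h7 := Irad_succ (n + 2)
    have h8 := Irad_succ n
    rw [h8] at h7
    rw [h7]
    push_cast
    ring
  rw [h1, h6, hn]
  push_cast
  calc c * (((n : ℝ) + 3) * (((n : ℝ) + 1) * Irad n))
      = ((n : ℝ) + 3) * ((n : ℝ) + 1) * (c * Irad n) := by ring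
    _ = ((n : ℝ) + 1) * ((n : ℝ) + 1 + 2) := by rw [← h4]; ring

theorem int_norm_four (E : Submodule ℝ V) :
    Integrable (fun g => ‖E.starProjection g‖ ^ 4) (stdGaussian V) ∧
    ∫ g, ‖E.starProjection g‖ ^ 4 ∂(stdGaussian V) =
      (Module.finrank ℝ E : ℝ) * ((Module.finrank ℝ E : ℝ) + 2) := by
  rcases Nat.eq_zero_or_pos (Module.finrank ℝ E) with h0 | h0
  · have hE : E = ⊥ := Submodule.finrank_eq_zero.mp h0
    have h1 : (fun g : V => ‖E.starProjection g‖ ^ 4) = fun _ => (0 : ℝ) := by
      funext g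
      have h2 : E.starProjection g ∈ E := Submodule.starProjection_apply_mem E g
      have h3 : E.starProjection g = 0 := by
        have h4 : ∀ x ∈ E, x = 0 := by
          intro x hx
          rw [hE] at hx
          exact (Submodule.mem_bot ℝ).mp hx
        exact h4 _ h2
      rw [h3, norm_zero]
      norm_num
    rw [h1, h0]
    refine ⟨integrable_zero _ _ _, ?_⟩
    simp
  · have hval : ∫ g, ‖E.starProjection g‖ ^ 4 ∂(stdGaussian V) =
        (Module.finrank ℝ E : ℝ) * ((Module.finrank ℝ E : ℝ) + 2) := by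
      have h1 : ∫ g, ‖E.starProjection g‖ ^ 4 ∂(stdGaussian V) =
          ∫ x, ‖x‖ ^ 4 ∂((stdGaussian V).map (fun g => E.starProjection g)) := by
        rw [integral_map (by fun_prop) (by fun_prop)]
      have h2 : ∫ x, ‖x‖ ^ 4 ∂((stdGaussian E).map (fun x : E => (x : V))) =
          ∫ x : E, ‖(x : V)‖ ^ 4 ∂(stdGaussian E) := by
        rw [integral_map (by fun_prop) (by fun_prop)]
      rw [h1, map_starProjection, h2, ← int_pow_four (V := E) h0]
      rfl
    refine ⟨Integrable.of_integral_ne_zero ?_, hval⟩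
    rw [hval]
    have h3 : (0 : ℝ) < (Module.finrank ℝ E : ℝ) := by exact_mod_cast h0
    positivity

end Pool.Agent.PBL
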