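import Pool.Agent.PBL.C0
import Pool.Agent.FI75.M1

/-! Module PBL-C3: means of `|⟪x, u⟫|` and of `sign ⟪x, u⟫ ⟪x, v⟫` over the unit sphere of a subspace. -/

set_option autoImplicit false

namespace Pool.Agent.PBL
open MeasureTheory ProbabilityTheory Set Filter Topology Metric
open Pool.Agent.HP89 Pool.Agent.FI75
open scoped RealInnerProductSpace ENNReal

variable {V : Type*} [NormedAddCommGroup V] [InnerProductSpace ℝ V] [FiniteDimensional ℝ V]
  [MeasurableSpace V] [BorelSpace V]

private theorem meas_sgn3 : Measurable Real.sign := by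
  unfold Real.sign
  exact Measurable.ite (measurableSet_lt measurable_id measurable_const) measurable_const
    (Measurable.ite (measurableSet_lt measurable_const measurable_id) measurable_const
      measurable_const)

private theorem abs_sgn3_le (r : ℝ) : |Real.sign r| ≤ 1 := by
  rcases Real.sign_apply_eq r with h | h | h
  · rw [h]; norm_num
  · rw [h]; norm_num
  · rw [h]; norm_num

private theorem sgn_pos_mul {c : ℝ} (hc : 0 < c) (r : ℝ) : Real.sign (c * r) = Real.sign r := by
  rcases lt_trichotomy r 0 with h | h | h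
  · rw [Real.sign_of_neg h, Real.sign_of_neg (mul_neg_of_pos_of_neg hc h)]
  · rw [h, mul_zero]
  · rw [Real.sign_of_pos h, Real.sign_of_pos (mul_pos hc h)]

omit [MeasurableSpace V] [BorelSpace V] in
private theorem proj_inner_self (E : Submodule ℝ V) (u v : V) :
    ⟪E.starProjection u, E.starProjection v⟫ = ⟪E.starProjection u, v⟫ := by
  rw [Submodule.inner_starProjection_left_eq_right, Submodule.inner_starProjection_left_eq_right,
    Submodule.starProjection_eq_self_iff.2 (Submodule.starProjection_apply_mem E v)]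

private theorem int_sgn (a b : V) :
    Integrable (fun g => Real.sign ⟪g, a⟫ * ⟪g, b⟫) (stdGaussian V) := by
  refine Integrable.mono' ((integrable_norm_gaussian (V := V)).mul_const ‖b‖) ?_ ?_
  · exact ((meas_sgn3.comp (measurable_id.inner measurable_const)).mul
      (measurable_id.inner measurable_const)).aestronglyMeasurable
  · refine Filter.Eventually.of_forall fun g => ?_
    rw [norm_mul, Real.norm_eq_abs, Real.norm_eq_abs]
    have h1 := abs_sgn3_le ⟪g, a⟫
    have h2 := abs_real_inner_le_norm g b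
    have h3 : |Real.sign ⟪g, a⟫| * |⟪g, b⟫| ≤ 1 * |⟪g, b⟫| :=
      mul_le_mul_of_nonneg_right h1 (abs_nonneg _)
    linarith

private theorem sgn_orth {a b : V} (hab : ⟪a, b⟫ = 0) :
    ∫ g, Real.sign ⟪g, a⟫ * ⟪g, b⟫ ∂(stdGaussian V) = 0 := by
  have h := map_reflection (V := V) (Submodule.span ℝ {a})
  have hm : Measurable (fun g : V => Real.sign ⟪g, a⟫ * ⟪g, b⟫) :=
    (meas_sgn3.comp (measurable_id.inner measurable_const)).mul
      (measurable_id.inner measurable_const)
  have hR : Measurable (fun g : V => 2 • (Submodule.span ℝ {a}).starProjection g - g) := by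
    fun_prop
  have h1 : ∫ g, Real.sign ⟪g, a⟫ * ⟪g, b⟫ ∂(stdGaussian V) =
      ∫ g, -(Real.sign ⟪g, a⟫ * ⟪g, b⟫) ∂(stdGaussian V) := by
    conv_lhs => rw [← h]
    rw [integral_map hR.aemeasurable hm.aestronglyMeasurable]
    refine integral_congr_ae (Filter.Eventually.of_forall fun g => ?_)
    have h2 : ⟪(Submodule.span ℝ {a}).starProjection g, a⟫ = ⟪g, a⟫ := by
      rw [Submodule.inner_starProjection_left_eq_right,
        Submodule.starProjection_eq_self_iff.2 (Submodule.mem_span_singleton_self a)]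
    have h3 : ⟪(Submodule.span ℝ {a}).starProjection g, b⟫ = 0 := by
      obtain ⟨c, hc⟩ := Submodule.mem_span_singleton.1
        (Submodule.starProjection_apply_mem (Submodule.span ℝ {a}) g)
      rw [← hc, real_inner_smul_left, hab, mul_zero]
    have h4 : ⟪2 • (Submodule.span ℝ {a}).starProjection g - g, a⟫ = ⟪g, a⟫ := by
      rw [inner_sub_left, two_smul, inner_add_left, h2]
      ring
    have h5 : ⟪2 • (Submodule.span ℝ {a}).starProjection g - g, b⟫ = -⟪g, b⟫ := by
      rw [inner_sub_left, two_smul, inner_add_left, h3]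
      ring
    change Real.sign ⟪2 • (Submodule.span ℝ {a}).starProjection g - g, a⟫ *
      ⟪2 • (Submodule.span ℝ {a}).starProjection g - g, b⟫ = -(Real.sign ⟪g, a⟫ * ⟪g, b⟫)
    rw [h4, h5]
    ring
  rw [integral_neg] at h1
  linarith

private theorem sgn_gauss (a b : V) :
    ∫ g, Real.sign ⟪g, a⟫ * ⟪g, b⟫ ∂(stdGaussian V) = √(2 / Real.pi) * ⟪nrm a, b⟫ := by
  by_cases ha : a = 0
  · rw [ha]
    simp [nrm]
  · have hn : ‖a‖ ≠ 0 := norm_ne_zero_iff.2 ha
    have h1 : ⟪a, b - (⟪a, b⟫ / ‖a‖ ^ 2) • a⟫ = 0 := by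
      rw [inner_sub_right, real_inner_smul_right, real_inner_self_eq_norm_sq]
      field_simp
      ring
    have h2 := sgn_orth h1
    have h3 : ∀ g : V, Real.sign ⟪g, a⟫ * ⟪g, b⟫ =
        (⟪a, b⟫ / ‖a‖ ^ 2) * |⟪a, g⟫| +
          Real.sign ⟪g, a⟫ * ⟪g, b - (⟪a, b⟫ / ‖a‖ ^ 2) • a⟫ := by
      intro g
      have h4 : Real.sign ⟪g, a⟫ * ⟪g, a⟫ = |⟪a, g⟫| := by
        rw [real_inner_comm g a]
        rcases lt_trichotomy ⟪g, a⟫ 0 with h | h | h
        · rw [Real.sign_of_neg h, abs_of_neg h]; ring
        · rw [h]; simp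
        · rw [Real.sign_of_pos h, abs_of_pos h]; ring
      rw [inner_sub_right, real_inner_smul_right, ← h4]
      ring
    simp only [h3]
    rw [integral_add _ (int_sgn _ _), h2, add_zero, integral_const_mul, integral_abs_inner, nrm,
      real_inner_smul_left]
    · field_simp
    · refine Integrable.const_mul ?_ _
      refine (int_sgn a a).congr (Filter.Eventually.of_forall fun g => ?_)
      change Real.sign ⟪g, a⟫ * ⟪g, a⟫ = |⟪a, g⟫|
      rw [real_inner_comm g a]
      rcases lt_trichotomy ⟪g, a⟫ 0 with h | h | h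
      · rw [Real.sign_of_neg h, abs_of_neg h]; ring
      · rw [h]; simp
      · rw [Real.sign_of_pos h, abs_of_pos h]; ring

private theorem sgn_main (E : Submodule ℝ V) (hE : 1 ≤ Module.finrank ℝ E) (u v : V) :
    mG (Module.finrank ℝ E) * av E (fun x => Real.sign ⟪x, u⟫ * ⟪x, v⟫) =
      √(2 / Real.pi) * ⟪nrm (E.starProjection u), v⟫ := by
  classical
  have hφ : Measurable (fun x : V => if ‖x‖ ≤ 1 then Real.sign ⟪x, u⟫ * ⟪x, v⟫ else 0) :=
    Measurable.ite (measurableSet_le measurable_norm measurable_const)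
      ((meas_sgn3.comp (measurable_id.inner measurable_const)).mul
        (measurable_id.inner measurable_const)) measurable_const
  have hC : ∀ x : V, |if ‖x‖ ≤ 1 then Real.sign ⟪x, u⟫ * ⟪x, v⟫ else 0| ≤ ‖v‖ := by
    intro x
    split_ifs with hx
    · rw [abs_mul]
      have h1 := abs_sgn3_le ⟪x, u⟫
      have h2 := abs_real_inner_le_norm x v
      have h3 : ‖x‖ * ‖v‖ ≤ 1 * ‖v‖ := mul_le_mul_of_nonneg_right hx (norm_nonneg v)
      have h4 : |Real.sign ⟪x, u⟫| * |⟪x, v⟫| ≤ 1 * |⟪x, v⟫| :=
        mul_le_mul_of_nonneg_right h1 (abs_nonneg _)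
      linarith
    · rw [abs_zero]
      exact norm_nonneg _
  have hint : Integrable (fun g : V => (fun t : ℝ => t) ‖E.starProjection g‖) (stdGaussian V) := by
    refine Integrable.mono' (integrable_norm_gaussian (V := V)) ?_ ?_
    · exact (E.starProjection.continuous.norm).aestronglyMeasurable
    · refine Filter.Eventually.of_forall fun g => ?_
      rw [norm_norm]
      exact Submodule.norm_starProjection_apply_le E g
  have h1 := rad_real E hE (f := fun t : ℝ => t) measurable_id hint hφ hC
  have h2 : av E (fun x => if ‖x‖ ≤ 1 then Real.sign ⟪x, u⟫ * ⟪x, v⟫ else 0) =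
      av E (fun x => Real.sign ⟪x, u⟫ * ⟪x, v⟫) := by
    unfold av
    refine integral_congr_ae (Filter.Eventually.of_forall fun g => ?_)
    simp only
    rw [if_pos (norm_nrm_le _)]
  rw [h2, integral_norm_proj] at h1
  rw [← h1]
  have h3 : ∀ g : V, ‖E.starProjection g‖ * (if ‖nrm (E.starProjection g)‖ ≤ 1 then
      Real.sign ⟪nrm (E.starProjection g), u⟫ * ⟪nrm (E.starProjection g), v⟫ else 0) =
      Real.sign ⟪g, E.starProjection u⟫ * ⟪g, E.starProjection v⟫ := by
    intro g
    rw [if_pos (norm_nrm_le _), ← Submodule.inner_starProjection_left_eq_right,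
      ← Submodule.inner_starProjection_left_eq_right]
    by_cases h0 : E.starProjection g = 0
    · rw [h0]; simp
    · have hn : 0 < ‖E.starProjection g‖ := norm_pos_iff.2 h0
      rw [nrm, real_inner_smul_left, real_inner_smul_left, sgn_pos_mul (inv_pos.2 hn)]
      field_simp
  simp only [h3]
  rw [sgn_gauss, nrm, real_inner_smul_left, real_inner_smul_left, proj_inner_self]

theorem av_abs (E : Submodule ℝ V) (hE : 1 ≤ Module.finrank ℝ E) (u : V) :
    mG (Module.finrank ℝ E) * av E (fun x => |⟪x, u⟫|) = √(2 / Real.pi) * ‖E.starProjection u‖ := by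
  have h := sgn_main E hE u u
  have h1 : ∀ r : ℝ, Real.sign r * r = |r| := fun r => by
    rcases lt_trichotomy r 0 with h | h | h
    · rw [Real.sign_of_neg h, abs_of_neg h]; ring
    · rw [h]; simp
    · rw [Real.sign_of_pos h, abs_of_pos h]; ring
  simp only [h1] at h
  rw [h]
  congr 1
  by_cases h0 : E.starProjection u = 0
  · rw [h0, norm_zero, nrm, smul_zero, inner_zero_left]
  · have h2 : ‖E.starProjection u‖ ≠ 0 := norm_ne_zero_iff.2 h0
    rw [nrm, real_inner_smul_left, ← proj_inner_self E u u, real_inner_self_eq_norm_sq]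
    field_simp


theorem av_sgn (E : Submodule ℝ V) (hE : 1 ≤ Module.finrank ℝ E) (u v : V) :
    mG (Module.finrank ℝ E) * av E (fun x => Real.sign ⟪x, u⟫ * ⟪x, v⟫) =
      √(2 / Real.pi) * ⟪nrm (E.starProjection u), v⟫ := by
  exact sgn_main E hE u v


end Pool.Agent.PBL
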