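import Pool.Agent.PBL.B3a
import Pool.Agent.HP89.A3b

/-! Module PBL-B3b: the trace functions `qF ν Z = ∫ ‖res Z y‖² dν` and their increments. -/

set_option autoImplicit false

namespace Pool.Agent.PBL
open MeasureTheory ProbabilityTheory Set Filter Topology Metric
open Pool.Agent.HP89 Pool.Agent.FI75
open scoped RealInnerProductSpace ENNReal

variable {V : Type*} [NormedAddCommGroup V] [InnerProductSpace ℝ V] [FiniteDimensional ℝ V]
  [MeasurableSpace V] [BorelSpace V]

/-- finite measures with second moments bounded by the identity. -/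
structure Sub1 (ν : Measure V) : Prop where
  fin : IsFiniteMeasure ν
  int : Integrable (fun y => ‖y‖ ^ 2) ν
  le : ∀ u : V, ∫ y, ⟪y, u⟫ ^ 2 ∂ν ≤ ‖u‖ ^ 2

/-- `tr (P_{Z^⊥} ∫ y ⊗ y dν)`. -/
noncomputable def qF (ν : Measure V) (Z : List V) : ℝ := ∫ y, ‖res Z y‖ ^ 2 ∂ν

omit [MeasurableSpace V] [BorelSpace V] in
theorem rv_eq {n : ℕ} (X : Fin n → V) (g : V) : rv X g = (oc X).starProjection g := by
  have h : {x | x ∈ List.ofFn X} = Set.range X := by
    ext x
    simp [List.mem_ofFn]
  unfold rv oc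
  rw [res_eq, h]

theorem qF_eq (ν : Measure V) {n : ℕ} (X : Fin n → V) : qF ν (List.ofFn X) = sW ν (oc X) := by
  unfold qF sW
  refine integral_congr_ae (ae_of_all _ fun y => ?_)
  have h := rv_eq X y
  unfold rv at h
  simp only
  rw [h]

private theorem int_res {ν : Measure V} (hν : Sub1 ν) (Z : List V) :
    Integrable (fun y => ‖res Z y‖ ^ 2) ν := by
  have hc : Continuous (fun y : V => ‖res Z y‖ ^ 2) := (continuous_res Z).norm.pow 2
  refine Integrable.mono' hν.int hc.aestronglyMeasurable (ae_of_all _ fun y => ?_)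
  rw [Real.norm_of_nonneg (by positivity)]
  exact pow_le_pow_left₀ (norm_nonneg _) (norm_res_le Z y) 2

theorem lb_qF {ν : Measure V} (hν : Sub1 ν) : LB (qF ν) := by
  have := hν.fin
  refine ⟨fun n => ?_, ⟨∫ y, ‖y‖ ^ 2 ∂ν, fun Z => ?_⟩⟩
  · have h : StronglyMeasurable (fun p : (Fin n → V) × V => ‖res (List.ofFn p.1) p.2‖ ^ 2) :=
      ((measurable_res n).norm.pow_const 2).stronglyMeasurable
    exact h.integral_prod_right'.measurable
  · unfold qF
    rw [abs_of_nonneg (integral_nonneg fun y => by positivity)]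
    exact integral_mono (int_res hν Z) hν.int fun y =>
      pow_le_pow_left₀ (norm_nonneg _) (norm_res_le Z y) 2

theorem sym_qF (ν : Measure V) : Sym (qF ν) := by
  intro Z Z' h
  unfold qF
  refine integral_congr_ae (ae_of_all _ fun y => ?_)
  simp only
  rw [res_perm h]

omit [MeasurableSpace V] [BorelSpace V] in
private theorem res_idem (Z : List V) (x : V) : res Z (res Z x) = res Z x := by
  rw [res_eq, res_eq]
  exact Submodule.starProjection_eq_self_iff.2 (Submodule.starProjection_apply_mem _ x)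

theorem qF_cons {ν : Measure V} (hν : Sub1 ν) (x : V) (Z : List V) :
    qF ν Z - qF ν (x :: Z) = ∫ y, ⟪nrm (res Z x), y⟫ ^ 2 ∂ν := by
  unfold qF
  rw [← integral_sub (int_res hν Z) (int_res hν (x :: Z))]
  refine integral_congr_ae (ae_of_all _ fun y => ?_)
  simp only
  rw [res_cons, norm_ort_sq, ← inner_res Z (res Z x) y, res_idem]
  unfold nrm
  rw [real_inner_smul_left]
  ring

theorem qF_inc {ν : Measure V} (hν : Sub1 ν) (x : V) (Z : List V) :
    0 ≤ qF ν Z - qF ν (x :: Z) ∧ qF ν Z - qF ν (x :: Z) ≤ 1 := by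
  rw [qF_cons hν]
  refine ⟨integral_nonneg fun y => by positivity, ?_⟩
  have h := hν.le (nrm (res Z x))
  simp_rw [real_inner_comm (nrm (res Z x))] at h
  refine h.trans ?_
  have h1 := norm_nrm_le (res Z x)
  calc ‖nrm (res Z x)‖ ^ 2 ≤ (1 : ℝ) ^ 2 := pow_le_pow_left₀ (norm_nonneg _) h1 2
    _ = 1 := one_pow 2

theorem sub1_dirac {x : V} (hx : ‖x‖ ≤ 1) : Sub1 (Measure.dirac x) := by
  refine ⟨inferInstance, integrable_dirac (by simp), fun u => ?_⟩
  rw [integral_dirac]
  have h := abs_real_inner_le_norm x u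
  have h2 : ‖x‖ * ‖u‖ ≤ ‖u‖ := mul_le_of_le_one_left (norm_nonneg _) hx
  rw [← sq_abs]
  exact pow_le_pow_left₀ (abs_nonneg _) (h.trans h2) 2

theorem sub1_proj (E : Submodule ℝ V) : Sub1 ((stdGaussian V).map (fun g => E.starProjection g)) := by
  have hm : AEMeasurable (fun g : V => E.starProjection g) (stdGaussian V) := by fun_prop
  refine ⟨inferInstance, ?_, fun u => ?_⟩
  · rw [integrable_map_measure (by fun_prop) hm]
    refine Integrable.mono' integrable_norm_sq_gaussian (by fun_prop) (ae_of_all _ fun g => ?_)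
    simp only [Function.comp]
    rw [Real.norm_of_nonneg (by positivity)]
    exact pow_le_pow_left₀ (norm_nonneg _) (E.norm_starProjection_apply_le g) 2
  · rw [integral_map hm (by fun_prop)]
    have h : ∀ g : V, ⟪E.starProjection g, u⟫ ^ 2 = ⟪E.starProjection u, g⟫ ^ 2 := by
      intro g
      rw [Submodule.inner_starProjection_left_eq_right, real_inner_comm]
    simp_rw [h]
    rw [integral_inner_sq]
    exact pow_le_pow_left₀ (norm_nonneg _) (E.norm_starProjection_apply_le u) 2

theorem sW_proj (E W : Submodule ℝ V) : sW ((stdGaussian V).map (fun g => E.starProjection g)) W = tt E W := by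
  unfold sW tt
  rw [integral_map (by fun_prop) (by fun_prop)]

theorem sub1_smul {k : ℝ} (hk : 0 ≤ k) {ρ : Measure V} (hρ : US ρ)
    (h : ∀ u : V, k * ∫ x, ⟪x, u⟫ ^ 2 ∂ρ ≤ ‖u‖ ^ 2) : Sub1 (ENNReal.ofReal k • ρ) := by
  have := hρ.prob
  refine ⟨Measure.smul_finite _ ENNReal.ofReal_ne_top, ?_, fun u => ?_⟩
  · refine Integrable.smul_measure ?_ ENNReal.ofReal_ne_top
    refine Integrable.mono' (integrable_const (1 : ℝ)) (by fun_prop) ?_
    filter_upwards [hρ.unit] with x hx
    rw [hx]
    simp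
  · rw [integral_smul_measure, ENNReal.toReal_ofReal hk, smul_eq_mul]
    exact h u

theorem sW_smul {k : ℝ} (hk : 0 ≤ k) (ρ : Measure V) (W : Submodule ℝ V) : sW (ENNReal.ofReal k • ρ) W = k * sW ρ W := by
  unfold sW
  rw [integral_smul_measure, ENNReal.toReal_ofReal hk, smul_eq_mul]

end Pool.Agent.PBL
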