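import Pool.Agent.PBL.C5
import Pool.Agent.PBL.B3b
import Pool.Agent.FI75.B4

/-! Module PBL-D0a (measurability): the means `av`, `avo` and the functionals `tt`, `sW`, `gW` depend measurably on the vectors
which define the subspaces. -/

set_option autoImplicit false

namespace Pool.Agent.PBL
open MeasureTheory ProbabilityTheory Set Filter Topology Metric
open Pool.Agent.HP89 Pool.Agent.FI75
open scoped RealInnerProductSpace ENNReal

variable {V : Type*} [NormedAddCommGroup V] [InnerProductSpace ℝ V] [FiniteDimensional ℝ V]
  [MeasurableSpace V] [BorelSpace V]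

private theorem d0a_int {β : Type*} [MeasurableSpace β] {ν : Measure V} [SFinite ν] {f : β → V → ℝ}
    (hf : Measurable (Function.uncurry f)) : Measurable (fun b => ∫ x, f b x ∂ν) :=
  (StronglyMeasurable.integral_prod_right hf.stronglyMeasurable).measurable

private theorem d0a_rv {n : ℕ} {β : Type*} [MeasurableSpace β] {f : β → (Fin n → V)} (hf : Measurable f) {x : β → V}
    (hx : Measurable x) : Measurable (fun b => rv (f b) (x b)) :=
  (measurable_rv n).comp (hf.prodMk hx)

private theorem d0a_ort {β : Type*} [MeasurableSpace β] {x y : β → V}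
    (hx : Measurable x) (hy : Measurable y) : Measurable (fun b => ort (x b) (y b)) :=
  measurable_ort.comp (hx.prodMk hy)

private theorem d0a_sub (W : Submodule ℝ V) {β : Type*} [MeasurableSpace β] {x : β → V}
    (hx : Measurable x) : Measurable (fun b => W.starProjection (x b)) :=
  W.starProjection.continuous.measurable.comp hx

theorem meas_av {n : ℕ} {β : Type*} [MeasurableSpace β] {f : β → (Fin n → V)} (hf : Measurable f) {Φ : β → V → ℝ}
    (hΦ : Measurable (Function.uncurry Φ)) : Measurable (fun b => av (oc (f b)) (Φ b)) := by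
  simp only [av, ← rv_eq]
  refine d0a_int ?_
  exact hΦ.comp (measurable_fst.prodMk
    (measurable_nrm.comp (d0a_rv (hf.comp measurable_fst) measurable_snd)))

theorem meas_avo {n : ℕ} {β : Type*} [MeasurableSpace β] {f : β → (Fin n → V)} (hf : Measurable f) {x : β → V}
    (hx : Measurable x) {Φ : β → V → ℝ} (hΦ : Measurable (Function.uncurry Φ)) :
    Measurable (fun b => avo (oc (f b)) (x b) (Φ b)) := by
  simp only [avo, ← rv_eq]
  refine d0a_int ?_
  exact hΦ.comp (measurable_fst.prodMk
    (measurable_nrm.comp (d0a_ort (d0a_rv (hf.comp measurable_fst) (hx.comp measurable_fst))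
      (d0a_rv (hf.comp measurable_fst) measurable_snd))))

/-- subspaces fixed. -/
theorem meas_avo' (W : Submodule ℝ V) {β : Type*} [MeasurableSpace β] {x : β → V}
    (hx : Measurable x) {Φ : β → V → ℝ} (hΦ : Measurable (Function.uncurry Φ)) :
    Measurable (fun b => avo W (x b) (Φ b)) := by
  simp only [avo]
  refine d0a_int ?_
  exact hΦ.comp (measurable_fst.prodMk
    (measurable_nrm.comp (d0a_ort (d0a_sub W (hx.comp measurable_fst)) (d0a_sub W measurable_snd))))

theorem meas_av' (E : Submodule ℝ V) {β : Type*} [MeasurableSpace β] {Φ : β → V → ℝ}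
    (hΦ : Measurable (Function.uncurry Φ)) : Measurable (fun b => av E (Φ b)) := by
  simp only [av]
  refine d0a_int ?_
  exact hΦ.comp (measurable_fst.prodMk (measurable_nrm.comp (d0a_sub E measurable_snd)))

theorem meas_tt {n : ℕ} (E : Submodule ℝ V) : Measurable (fun X : Fin n → V => tt E (oc X)) := by
  simp only [tt, ← rv_eq]
  refine d0a_int ?_
  exact (d0a_rv measurable_fst (d0a_sub E measurable_snd)).norm.pow_const 2

theorem meas_tt2 {n m : ℕ} : Measurable (fun p : (Fin n → V) × (Fin m → V) => tt (oc p.1) (oc p.2)) := by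
  simp only [tt, ← rv_eq]
  refine d0a_int ?_
  exact (d0a_rv (measurable_snd.comp measurable_fst)
    (d0a_rv (measurable_fst.comp measurable_fst) measurable_snd)).norm.pow_const 2

theorem meas_sW {n : ℕ} (ρ : Measure V) [SFinite ρ] : Measurable (fun X : Fin n → V => sW ρ (oc X)) := by
  simp only [sW, ← rv_eq]
  refine d0a_int ?_
  exact (d0a_rv measurable_fst measurable_snd).norm.pow_const 2

theorem meas_gW {n : ℕ} (ρ : Measure V) [SFinite ρ] : Measurable (fun X : Fin n → V => gW ρ (oc X)) := by
  simp only [gW, ← rv_eq]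
  refine d0a_int ?_
  exact (d0a_rv measurable_fst measurable_snd).norm

/-- measurability of `p ↦ ‖P_{oc p.1} p.2‖`. -/
theorem meas_rv {n : ℕ} : Measurable (fun p : (Fin n → V) × V => rv p.1 p.2) :=
  measurable_rv n

end Pool.Agent.PBL
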