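import Pool.Agent.PBL.C1

/-! Module PBL-C5: the subsphere `W ∩ x^⊥` (`sb W x`), its projection, dimension and traces; adding a vector to a tuple. -/

set_option autoImplicit false

namespace Pool.Agent.PBL
open MeasureTheory ProbabilityTheory Set Filter Topology Metric
open Pool.Agent.HP89 Pool.Agent.FI75
open scoped RealInnerProductSpace ENNReal

variable {V : Type*} [NormedAddCommGroup V] [InnerProductSpace ℝ V] [FiniteDimensional ℝ V]
  [MeasurableSpace V] [BorelSpace V]

/-- `W ∩ x^⊥`. -/
noncomputable def sb (W : Submodule ℝ V) (x : V) : Submodule ℝ V := W ⊓ (Submodule.span ℝ {W.starProjection x})ᗮ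

omit [MeasurableSpace V] [BorelSpace V] in
theorem sb_proj (W : Submodule ℝ V) (x g : V) :
    (sb W x).starProjection g = ort (W.starProjection x) (W.starProjection g) := by
  symm
  have hp : W.starProjection x ∈ W := Submodule.starProjection_apply_mem _ _
  have hg : W.starProjection g ∈ W := Submodule.starProjection_apply_mem _ _
  have hmem : ort (W.starProjection x) (W.starProjection g) ∈ sb W x := by
    refine Submodule.mem_inf.mpr ⟨?_, ?_⟩
    · exact W.sub_mem hg (W.smul_mem _ hp)
    · rw [Submodule.mem_orthogonal_singleton_iff_inner_right]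
      exact inner_ort _ _
  refine (Submodule.eq_starProjection_of_mem_orthogonal hmem ?_).symm
  rw [Submodule.mem_orthogonal]
  intro y hy
  obtain ⟨hyW, hyp⟩ := Submodule.mem_inf.mp hy
  rw [Submodule.mem_orthogonal_singleton_iff_inner_left] at hyp
  have h1 : g - ort (W.starProjection x) (W.starProjection g) =
      (g - W.starProjection g) + (⟪W.starProjection x, W.starProjection g⟫ / ‖W.starProjection x‖ ^ 2) •
        W.starProjection x := by
    unfold ort; abel
  rw [h1, inner_add_right, inner_smul_right, hyp, mul_zero, add_zero]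
  have h2 : g - W.starProjection g ∈ Wᗮ := Submodule.sub_starProjection_mem_orthogonal g
  exact (Submodule.mem_orthogonal _ _).mp h2 y hyW

theorem avo_eq (W : Submodule ℝ V) (x : V) (φ : V → ℝ) : avo W x φ = av (sb W x) φ := by
  unfold avo av
  simp_rw [sb_proj]

omit [MeasurableSpace V] [BorelSpace V] in
theorem finrank_sb {W : Submodule ℝ V} {x : V} (h : W.starProjection x ≠ 0) :
    Module.finrank ℝ (sb W x) + 1 = Module.finrank ℝ W := by
  have hp : W.starProjection x ∈ W := Submodule.starProjection_apply_mem _ _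
  have hle : Submodule.span ℝ {W.starProjection x} ≤ W := by
    rw [Submodule.span_singleton_le_iff_mem]; exact hp
  have h1 := Submodule.finrank_add_inf_finrank_orthogonal hle
  rw [finrank_span_singleton h, inf_comm] at h1
  unfold sb
  omega

omit [MeasurableSpace V] [BorelSpace V] in
theorem sb_of_eq_zero {W : Submodule ℝ V} {x : V} (h : W.starProjection x = 0) : sb W x = W := by
  unfold sb
  rw [h, Submodule.span_zero_singleton, Submodule.bot_orthogonal_eq_top, inf_top_eq]

omit [MeasurableSpace V] [BorelSpace V] in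
/-- unit vectors of `sb W x` are orthogonal to `x`. -/
theorem inner_sb {W : Submodule ℝ V} {x y : V} (h : y ∈ sb W x) : ⟪y, x⟫ = 0 := by
  obtain ⟨hyW, hyp⟩ := Submodule.mem_inf.mp h
  rw [Submodule.mem_orthogonal_singleton_iff_inner_left] at hyp
  have h1 : W.starProjection y = y := Submodule.starProjection_eq_self_iff.mpr hyW
  rw [← h1, Submodule.inner_starProjection_left_eq_right]
  exact hyp

omit [MeasurableSpace V] [BorelSpace V] in
private theorem norm_star_le (E : Submodule ℝ V) (g : V) : ‖E.starProjection g‖ ≤ ‖g‖ :=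
  E.norm_starProjection_apply_le g

theorem tt_sb (E W : Submodule ℝ V) (x : V) : tt E W - 1 ≤ tt E (sb W x) ∧ tt E (sb W x) ≤ tt E W := by
  set p := W.starProjection x with hp
  have hpW : W.starProjection p = p :=
    Submodule.starProjection_eq_self_iff.mpr (Submodule.starProjection_apply_mem _ _)
  have e1 : ∀ g : V, ‖(sb W x).starProjection (E.starProjection g)‖ ^ 2 =
      ‖W.starProjection (E.starProjection g)‖ ^ 2 - (‖p‖ ^ 2)⁻¹ * (⟪g, E.starProjection p⟫ * ⟪g, E.starProjection p⟫) := by
    intro g
    rw [sb_proj, norm_ort_sq, ← hp]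
    have h1 : ⟪p, W.starProjection (E.starProjection g)⟫ = ⟪g, E.starProjection p⟫ := by
      rw [← Submodule.inner_starProjection_left_eq_right, hpW, ← Submodule.inner_starProjection_left_eq_right,
        real_inner_comm]
    rw [h1]
    ring
  have i1 : Integrable (fun g : V => ‖W.starProjection (E.starProjection g)‖ ^ 2) (stdGaussian V) := by
    refine Integrable.mono' (integrable_norm_sq_gaussian (V := V)) (by fun_prop) ?_
    filter_upwards with g
    rw [Real.norm_eq_abs, abs_of_nonneg (by positivity)]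
    exact pow_le_pow_left₀ (norm_nonneg _) ((norm_star_le _ _).trans (norm_star_le _ _)) 2
  have i2 : Integrable (fun g : V => (‖p‖ ^ 2)⁻¹ * (⟪g, E.starProjection p⟫ * ⟪g, E.starProjection p⟫))
      (stdGaussian V) := (integrable_inner_mul _ _).const_mul _
  have e2 : tt E (sb W x) = tt E W - (‖p‖ ^ 2)⁻¹ * ‖E.starProjection p‖ ^ 2 := by
    unfold tt
    simp_rw [e1]
    rw [integral_sub i1 i2, integral_const_mul, integral_inner_mul, real_inner_self_eq_norm_sq]
  have h3 : (‖p‖ ^ 2)⁻¹ * ‖E.starProjection p‖ ^ 2 ≤ 1 := by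
    have h4 : ‖E.starProjection p‖ ^ 2 ≤ ‖p‖ ^ 2 := pow_le_pow_left₀ (norm_nonneg _) (norm_star_le _ _) 2
    by_cases h0 : ‖p‖ ^ 2 = 0
    · rw [h0, inv_zero, zero_mul]; exact zero_le_one
    · rw [inv_mul_le_iff₀ (lt_of_le_of_ne (by positivity) (Ne.symm h0)), mul_one]
      exact h4
  have h5 : 0 ≤ (‖p‖ ^ 2)⁻¹ * ‖E.starProjection p‖ ^ 2 := by positivity
  rw [e2]
  constructor <;> linarith

omit [MeasurableSpace V] [BorelSpace V] in
theorem rv_cons {n : ℕ} (x : V) (X : Fin n → V) (g : V) : rv (Fin.cons x X : Fin (n + 1) → V) g = ort (rv X x) (rv X g) := by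
  unfold rv
  rw [List.ofFn_cons]
  rfl

omit [MeasurableSpace V] [BorelSpace V] in
theorem wv_cons {n : ℕ} (x : V) (X : Fin n → V) : wv (Fin.cons x X : Fin (n + 1) → V) = wv X * ‖rv X x‖ := by
  unfold wv rv
  rw [List.ofFn_cons]
  rfl

omit [MeasurableSpace V] [BorelSpace V] in
private theorem oc_proj {n : ℕ} (X : Fin n → V) (g : V) : (oc X).starProjection g = rv X g := by
  unfold rv oc
  rw [res_eq]
  have h1 : {x | x ∈ List.ofFn X} = Set.range X := by
    ext y; simp [List.mem_ofFn]
  simp only [h1]

theorem av_cons {n : ℕ} (x : V) (X : Fin n → V) (φ : V → ℝ) :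
    av (oc (Fin.cons x X : Fin (n + 1) → V)) φ = avo (oc X) x φ := by
  unfold av avo
  simp_rw [oc_proj, rv_cons]

omit [MeasurableSpace V] [BorelSpace V] in
theorem finrank_oc {n : ℕ} {X : Fin n → V} (h : wv X ≠ 0) :
    Module.finrank ℝ (oc X) + n = Module.finrank ℝ V := by
  have h1 := finrank_orth_of_wn_ne_zero (X := List.ofFn X) h
  have h2 := length_le_of_wn_ne_zero (X := List.ofFn X) h
  have h3 : {x | x ∈ List.ofFn X} = Set.range X := by
    ext y; simp [List.mem_ofFn]
  rw [h3, List.length_ofFn] at h1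
  rw [List.length_ofFn] at h2
  unfold oc
  omega

end Pool.Agent.PBL
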