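import Pool.Agent.PBL.B0

/-! Module PBL-B1a (the iterated integrals `itr`: elementary properties, measurability and boundedness,
symmetry, positivity, monotonicity, linearity, congruence on lists of the right length, and the value
`itr ρ n F [] = ∫ F dρ^n`). -/

set_option autoImplicit false

namespace Pool.Agent.PBL
open MeasureTheory ProbabilityTheory Set Filter Topology Metric
open Pool.Agent.HP89 Pool.Agent.FI75
open scoped RealInnerProductSpace ENNReal

variable {α : Type*} [MeasurableSpace α] {ρ : Measure α}

private theorem itr_zero' (F : List α → ℝ) (Y : List α) : itr ρ 0 F Y = F Y := rfl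

private theorem itr_succ' (l : ℕ) (F : List α → ℝ) (Y : List α) :
    itr ρ (l + 1) F Y = ∫ x, itr ρ l F (x :: Y) ∂ρ := rfl

private theorem LB.int_cons [IsProbabilityMeasure ρ] {G : List α → ℝ} (hG : LB G) (Y : List α) :
    Integrable (fun x => G (x :: Y)) ρ := by
  obtain ⟨C, hC⟩ := hG.bdd
  exact Integrable.of_bound (hG.cons Y).aestronglyMeasurable C
    (Filter.Eventually.of_forall fun x => by rw [Real.norm_eq_abs]; exact hC _)

private theorem LB.int1 [IsProbabilityMeasure ρ] {G : List α → ℝ} (hG : LB G) :
    LB (fun Y => ∫ x, G (x :: Y) ∂ρ) := by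
  constructor
  · intro n
    have h1 : Measurable (fun p : (Fin n → α) × α => G (p.2 :: List.ofFn p.1)) := by
      have h2 : (fun p : (Fin n → α) × α => G (p.2 :: List.ofFn p.1)) =
          (fun X : Fin (n + 1) → α => G (List.ofFn X)) ∘
            (fun p : (Fin n → α) × α => (Fin.cons p.2 p.1 : Fin (n + 1) → α)) := by
        funext p
        simp only [Function.comp_apply, List.ofFn_cons]
      rw [h2]
      refine (hG.meas (n + 1)).comp ?_
      rw [measurable_pi_iff]
      intro i
      refine Fin.cases ?_ (fun i => ?_) i
      · simp only [Fin.cons_zero]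
        exact measurable_snd
      · simp only [Fin.cons_succ]
        exact (measurable_pi_apply i).comp measurable_fst
    exact (h1.stronglyMeasurable.integral_prod_right' (ν := ρ)).measurable
  · obtain ⟨C, hC⟩ := hG.bdd
    refine ⟨C, fun Z => ?_⟩
    have h1 := norm_integral_le_of_norm_le_const (μ := ρ) (f := fun x => G (x :: Z)) (C := C)
      (Filter.Eventually.of_forall fun x => by rw [Real.norm_eq_abs]; exact hC _)
    rwa [probReal_univ, mul_one, Real.norm_eq_abs] at h1

private theorem LB.app {F : List α → ℝ} (hF : LB F) (l : ℕ) (Y : List α) :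
    Measurable (fun X : Fin l → α => F (List.ofFn X ++ Y)) := by
  have h2 : (fun X : Fin l → α => F (List.ofFn X ++ Y)) =
      (fun X : Fin (l + Y.length) → α => F (List.ofFn X)) ∘
        (fun X : Fin l → α => Fin.append X Y.get) := by
    funext X
    simp only [Function.comp_apply, List.ofFn_fin_append, List.ofFn_get]
  rw [h2]
  refine (hF.meas _).comp ?_
  rw [measurable_pi_iff]
  intro i
  refine Fin.addCases (fun i => ?_) (fun i => ?_) i
  · simp only [Fin.append_left]
    exact measurable_pi_apply i
  · simp only [Fin.append_right]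
    exact measurable_const

private theorem itr_pi_app [IsProbabilityMeasure ρ] {F : List α → ℝ} (hF : LB F) (l : ℕ)
    (Y : List α) :
    itr ρ l F Y = ∫ X : Fin l → α, F (List.ofFn X ++ Y) ∂(Measure.pi fun _ => ρ) := by
  induction l generalizing Y with
  | zero =>
    rw [itr_zero', integral_unique, probReal_univ, one_smul, List.ofFn_zero, List.nil_append]
  | succ l ih =>
    rw [itr_succ']
    let e := MeasurableEquiv.piFinSuccAbove (fun _ : Fin (l + 1) => α) (Fin.last l)
    have hmp : MeasurePreserving e (Measure.pi fun _ : Fin (l + 1) => ρ)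
        (ρ.prod (Measure.pi fun _ : Fin l => ρ)) :=
      measurePreserving_piFinSuccAbove (fun _ => ρ) (Fin.last l)
    let H : α × (Fin l → α) → ℝ := fun p => F (List.ofFn p.2 ++ p.1 :: Y)
    have hH : ∀ X : Fin (l + 1) → α, F (List.ofFn X ++ Y) = H (e X) := by
      intro X
      have h1 : e X = (X (Fin.last l), fun i => X (Fin.castSucc i)) := by
        show ((MeasurableEquiv.piFinSuccAbove (fun _ : Fin (l + 1) => α) (Fin.last l)) X) = _
        ext1
        · rfl
        · funext i
          simp [MeasurableEquiv.piFinSuccAbove, Fin.init]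
      show F (List.ofFn X ++ Y) = F (List.ofFn (e X).2 ++ (e X).1 :: Y)
      rw [h1, List.ofFn_succ_last, List.append_assoc]
      rfl
    have hHm : Measurable H := by
      have h2 : H = (fun X : Fin (l + 1) → α => F (List.ofFn X ++ Y)) ∘ e.symm := by
        funext p
        show H p = F (List.ofFn (e.symm p) ++ Y)
        rw [hH, e.apply_symm_apply]
      rw [h2]
      exact (hF.app (l + 1) Y).comp e.symm.measurable
    have hHi : Integrable H (ρ.prod (Measure.pi fun _ : Fin l => ρ)) := by
      obtain ⟨C, hC⟩ := hF.bdd
      exact Integrable.of_bound hHm.aestronglyMeasurable C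
        (Filter.Eventually.of_forall fun x => by rw [Real.norm_eq_abs]; exact hC _)
    calc ∫ x, itr ρ l F (x :: Y) ∂ρ
        = ∫ x, ∫ X : Fin l → α, H (x, X) ∂(Measure.pi fun _ => ρ) ∂ρ := by
          refine integral_congr_ae (Filter.Eventually.of_forall fun x => ?_)
          exact ih (x :: Y)
      _ = ∫ p, H p ∂(ρ.prod (Measure.pi fun _ : Fin l => ρ)) := (integral_prod H hHi).symm
      _ = ∫ X : Fin (l + 1) → α, H (e X) ∂(Measure.pi fun _ => ρ) :=
          (hmp.integral_comp' H).symm
      _ = ∫ X : Fin (l + 1) → α, F (List.ofFn X ++ Y) ∂(Measure.pi fun _ => ρ) := by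
          refine integral_congr_ae (Filter.Eventually.of_forall fun X => ?_)
          exact (hH X).symm

theorem LB.itr [IsProbabilityMeasure ρ] {F : List α → ℝ} (hF : LB F) (l : ℕ) : LB (itr ρ l F) := by
  induction l with
  | zero => exact hF
  | succ l ih => exact ih.int1

theorem itr_sym {F : List α → ℝ} (hF : Sym F) (l : ℕ) : Sym (itr ρ l F) := by
  induction l with
  | zero => exact hF
  | succ l ih =>
    intro Z Z' h
    rw [itr_succ', itr_succ']
    refine integral_congr_ae (Filter.Eventually.of_forall fun x => ?_)
    exact ih _ _ (h.cons x)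

theorem itr_nonneg {F : List α → ℝ} (hF : ∀ Z, 0 ≤ F Z) (l : ℕ) (Y : List α) : 0 ≤ itr ρ l F Y := by
  induction l generalizing Y with
  | zero => exact hF Y
  | succ l ih =>
    rw [itr_succ']
    exact integral_nonneg fun x => ih _

theorem itr_mono [IsProbabilityMeasure ρ] {F G : List α → ℝ} (hF : LB F) (hG : LB G) (h : ∀ Z, F Z ≤ G Z) (l : ℕ)
    (Y : List α) : itr ρ l F Y ≤ itr ρ l G Y := by
  induction l generalizing Y with
  | zero => exact h Y
  | succ l ih =>
    rw [itr_succ', itr_succ']
    exact integral_mono ((hF.itr l).int_cons Y) ((hG.itr l).int_cons Y) fun x => ih _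

theorem itr_add [IsProbabilityMeasure ρ] {F G : List α → ℝ} (hF : LB F) (hG : LB G) (l : ℕ) (Y : List α) :
    itr ρ l (fun Z => F Z + G Z) Y = itr ρ l F Y + itr ρ l G Y := by
  induction l generalizing Y with
  | zero => rfl
  | succ l ih =>
    rw [itr_succ', itr_succ', itr_succ',
      ← integral_add ((hF.itr l).int_cons Y) ((hG.itr l).int_cons Y)]
    exact integral_congr_ae (Filter.Eventually.of_forall fun x => ih _)

theorem itr_mul {F : List α → ℝ} (c : ℝ) (l : ℕ) (Y : List α) :
    itr ρ l (fun Z => c * F Z) Y = c * itr ρ l F Y := by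
  induction l generalizing Y with
  | zero => rfl
  | succ l ih =>
    rw [itr_succ', itr_succ', ← integral_const_mul]
    exact integral_congr_ae (Filter.Eventually.of_forall fun x => ih _)

/-- as functions of the starting list `F` and `G` need only agree on lists of the right length. -/
theorem itr_congr {F G : List α → ℝ} (l : ℕ) (Y : List α) (h : ∀ Z, Z.length = Y.length + l → F Z = G Z) :
    itr ρ l F Y = itr ρ l G Y := by
  induction l generalizing Y with
  | zero => exact h Y rfl
  | succ l ih =>
    rw [itr_succ', itr_succ']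
    refine integral_congr_ae (Filter.Eventually.of_forall fun x => ?_)
    exact ih _ fun Z hZ => h Z (by rw [hZ, List.length_cons]; omega)

theorem itr_pi [IsProbabilityMeasure ρ] {F : List α → ℝ} (hF : LB F) (n : ℕ) :
    itr ρ n F [] = ∫ X : Fin n → α, F (List.ofFn X) ∂(Measure.pi fun _ => ρ) := by
  rw [itr_pi_app hF n []]
  simp only [List.append_nil]

end Pool.Agent.PBL
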