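import Pool.Agent.PBL.A5
import Pool.Agent.HP89.A2a

/-! Module PBL-A6: `wq` is a weight for every probability measure. The Alexandrov-Fenchel property follows from `af_simple` by
approximation of `nrm` by simple maps with values in the unit ball and dominated convergence. -/

set_option autoImplicit false
set_option linter.unusedSectionVars false

namespace Pool.Agent.PBL
open MeasureTheory ProbabilityTheory Set Filter Topology Metric
open Pool.Agent.HP89 Pool.Agent.FI75
open scoped RealInnerProductSpace ENNReal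

variable {V : Type*} [NormedAddCommGroup V] [InnerProductSpace ℝ V] [FiniteDimensional ℝ V]
  [MeasurableSpace V] [BorelSpace V]

private theorem norm_nrm_le (x : V) : ‖nrm x‖ ≤ 1 := by
  unfold nrm
  rw [norm_smul, norm_inv, norm_norm]
  by_cases h : ‖x‖ = 0
  · rw [h]
    simp
  · rw [inv_mul_cancel₀ h]

private theorem measurable_nrm : Measurable (nrm : V → V) :=
  measurable_norm.inv.smul measurable_id

private theorem wn_map_le (f : V → V) (hf : ∀ x, ‖f x‖ ≤ 1) (Z : List V) : wn (Z.map f) ≤ 1 := by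
  refine (wn_le_prod _).trans ?_
  rw [List.map_map]
  induction Z with
  | nil => simp
  | cons x Z ih =>
    rw [List.map_cons, List.prod_cons]
    have h1 : 0 ≤ (List.map ((fun x => ‖x‖) ∘ f) Z).prod := by
      refine List.prod_nonneg fun y hy => ?_
      obtain ⟨z, _, rfl⟩ := List.mem_map.1 hy
      exact norm_nonneg _
    calc (((fun x => ‖x‖) ∘ f) x) * (List.map ((fun x => ‖x‖) ∘ f) Z).prod
        ≤ 1 * 1 := mul_le_mul (hf x) ih h1 zero_le_one
      _ = 1 := one_mul 1

private theorem lb_wn_map {f : V → V} (hm : Measurable f) (hf : ∀ x, ‖f x‖ ≤ 1) :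
    LB (fun Z : List V => wn (Z.map f)) := by
  refine ⟨fun n => ?_, 1, fun Z => ?_⟩
  · have h1 : (fun X : Fin n → V => wn ((List.ofFn X).map f)) =
        (fun X : Fin n → V => wn (List.ofFn X)) ∘ fun X i => f (X i) := by
      funext X
      simp only [Function.comp, List.map_ofFn]
      rfl
    rw [h1]
    exact (measurable_wn n).comp (measurable_pi_lambda _ fun i => hm.comp (measurable_pi_apply i))
  · rw [abs_of_nonneg (wn_nonneg _)]
    exact wn_map_le f hf Z

private theorem itr_abs_le {F : List V → ℝ} {C : ℝ} (hF : ∀ Z, |F Z| ≤ C) (ρ : Measure V)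
    [IsProbabilityMeasure ρ] (n : ℕ) (Z : List V) : |itr ρ n F Z| ≤ C := by
  induction n generalizing Z with
  | zero => exact hF Z
  | succ n ih =>
    have h1 := norm_integral_le_of_norm_le_const (μ := ρ) (f := fun x => itr ρ n F (x :: Z)) (C := C)
      (Filter.Eventually.of_forall fun x => ih (x :: Z))
    rw [probReal_univ, mul_one] at h1
    exact h1

private theorem wn_map_tendsto {f : ℕ → V → V} {g : V → V} (h : ∀ x, Tendsto (fun N => f N x) atTop (𝓝 (g x)))
    (Z : List V) : Tendsto (fun N => wn (Z.map (f N))) atTop (𝓝 (wn (Z.map g))) := by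
  have h1 : ∀ k : V → V, wn (Z.map k) = (fun X : Fin Z.length → V => wn (List.ofFn X ++ []))
      (fun i => k (Z.get i)) := by
    intro k
    simp only [List.append_nil]
    congr 1
    conv_lhs => rw [← List.ofFn_get Z]
    rw [List.map_ofFn]
    rfl
  rw [h1 g]
  simp only [h1 (f _)]
  refine ((continuous_wn Z.length []).tendsto _).comp ?_
  exact tendsto_pi_nhds.2 fun i => h _

private theorem itr_tendsto (ρ : Measure V) [IsProbabilityMeasure ρ] {f : ℕ → V → V} {g : V → V}
    (hm : ∀ N, Measurable (f N)) (hf : ∀ N x, ‖f N x‖ ≤ 1)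
    (h : ∀ x, Tendsto (fun N => f N x) atTop (𝓝 (g x))) (n : ℕ) (Z : List V) :
    Tendsto (fun N => itr ρ n (fun Z => wn (Z.map (f N))) Z) atTop
      (𝓝 (itr ρ n (fun Z => wn (Z.map g)) Z)) := by
  induction n generalizing Z with
  | zero => exact wn_map_tendsto h Z
  | succ n ih =>
    refine tendsto_integral_of_dominated_convergence (fun _ => (1 : ℝ)) (fun N => ?_)
      (integrable_const 1) (fun N => Filter.Eventually.of_forall fun x => ?_)
      (Filter.Eventually.of_forall fun x => ih (x :: Z))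
    · exact (((lb_wn_map (hm N) (hf N)).itr (ρ := ρ) n).cons Z).aestronglyMeasurable
    · refine itr_abs_le (C := 1) (fun W => ?_) ρ n (x :: Z)
      rw [abs_of_nonneg (wn_nonneg _)]
      exact wn_map_le _ (hf N) W

private theorem lim2 (ρ : Measure V) [IsProbabilityMeasure ρ] {G : ℕ → V × V → ℝ} {H : V × V → ℝ}
    (hm : ∀ N, Measurable (G N)) {D : ℝ} (hD : ∀ N p, |G N p| ≤ D)
    (hlim : ∀ p, Tendsto (fun N => G N p) atTop (𝓝 (H p))) :
    Tendsto (fun N => ∫ x, ∫ y, G N (x, y) ∂ρ ∂ρ) atTop (𝓝 (∫ x, ∫ y, H (x, y) ∂ρ ∂ρ)) := by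
  refine tendsto_integral_of_dominated_convergence (fun _ => D) (fun N => ?_)
    (integrable_const D) (fun N => Filter.Eventually.of_forall fun x => ?_)
    (Filter.Eventually.of_forall fun x => ?_)
  · exact (hm N).stronglyMeasurable.integral_prod_right'.aestronglyMeasurable
  · have h1 := norm_integral_le_of_norm_le_const (μ := ρ) (f := fun y => G N (x, y)) (C := D)
      (Filter.Eventually.of_forall fun y => hD N (x, y))
    rw [probReal_univ, mul_one] at h1
    exact h1
  · refine tendsto_integral_of_dominated_convergence (fun _ => D) (fun N => ?_)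
      (integrable_const D) (fun N => Filter.Eventually.of_forall fun y => hD N (x, y))
      (Filter.Eventually.of_forall fun y => hlim (x, y))
    exact ((hm N).comp measurable_prodMk_left).aestronglyMeasurable

private theorem af_wq (ρ : Measure V) [IsProbabilityMeasure ρ] (n : ℕ) (Y : List V) (a : V → ℝ)
    (ha : Measurable a) (hb : ∃ C : ℝ, ∀ x, |a x| ≤ C)
    (h0 : ∫ x, a x * itr ρ (n + 1) (wq : List V → ℝ) (x :: Y) ∂ρ = 0) :
    ∫ x, ∫ y, a x * a y * itr ρ n (wq : List V → ℝ) (y :: x :: Y) ∂ρ ∂ρ ≤ 0 := by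
  obtain ⟨C, hC⟩ := hb
  have hC0 : 0 ≤ C := (abs_nonneg _).trans (hC 0)
  have hmem : (0 : V) ∈ closedBall (0 : V) 1 := mem_closedBall_self zero_le_one
  obtain ⟨f, hf⟩ : ∃ f : ℕ → SimpleFunc V V, f = fun N =>
      SimpleFunc.approxOn nrm measurable_nrm (closedBall (0 : V) 1) 0 hmem N := ⟨_, rfl⟩
  have hf1 : ∀ N x, ‖f N x‖ ≤ 1 := by
    intro N x
    have h1 := SimpleFunc.approxOn_mem measurable_nrm hmem N x
    rw [hf]
    exact mem_closedBall_zero_iff.1 h1
  have hf2 : ∀ x, Tendsto (fun N => f N x) atTop (𝓝 (nrm x)) := by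
    intro x
    rw [hf]
    exact SimpleFunc.tendsto_approxOn measurable_nrm hmem
      (subset_closure (mem_closedBall_zero_iff.2 (norm_nrm_le x)))
  have hLB : ∀ N, LB (fun Z : List V => wn (Z.map (f N))) := fun N =>
    lb_wn_map (f N).measurable (hf1 N)
  have hLBq : LB (wq : List V → ℝ) := lb_wn_map measurable_nrm norm_nrm_le
  have hbd : ∀ N Z, |itr ρ n (fun Z : List V => wn (Z.map (f N))) Z| ≤ 1 := fun N Z =>
    itr_abs_le (C := 1) (fun W => by
      rw [abs_of_nonneg (wn_nonneg _)]
      exact wn_map_le _ (hf1 N) W) ρ n Z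
  have hbq : ∀ Z, |itr ρ n (wq : List V → ℝ) Z| ≤ 1 := fun Z =>
    itr_abs_le (C := 1) (fun W => by
      rw [abs_of_nonneg (show 0 ≤ wq W from wn_nonneg _)]
      exact wn_map_le _ norm_nrm_le W) ρ n Z
  have hlim : ∀ Z, Tendsto (fun N => itr ρ n (fun Z : List V => wn (Z.map (f N))) Z) atTop
      (𝓝 (itr ρ n (wq : List V → ℝ) Z)) := fun Z =>
    itr_tendsto ρ (fun N => (f N).measurable) hf1 hf2 n Z
  have hmeas : ∀ N, Measurable (fun p : V × V =>
      itr ρ n (fun Z : List V => wn (Z.map (f N))) (p.2 :: p.1 :: Y)) := fun N =>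
    ((hLB N).itr (ρ := ρ) n).cons2 Y
  have hmq : Measurable (fun p : V × V => itr ρ n (wq : List V → ℝ) (p.2 :: p.1 :: Y)) :=
    (hLBq.itr (ρ := ρ) n).cons2 Y
  -- the three limits
  have l1 := lim2 ρ (G := fun N p => a p.1 * a p.2 *
      itr ρ n (fun Z : List V => wn (Z.map (f N))) (p.2 :: p.1 :: Y))
    (H := fun p => a p.1 * a p.2 * itr ρ n (wq : List V → ℝ) (p.2 :: p.1 :: Y)) (D := C * C * 1)
    (fun N => (((ha.comp measurable_fst).mul (ha.comp measurable_snd)).mul (hmeas N)))
    (fun N p => by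
      rw [abs_mul, abs_mul]
      exact mul_le_mul (mul_le_mul (hC _) (hC _) (abs_nonneg _) hC0) (hbd N _) (abs_nonneg _)
        (mul_nonneg hC0 hC0))
    (fun p => (hlim _).const_mul _)
  have l2 := lim2 ρ (G := fun N p => itr ρ n (fun Z : List V => wn (Z.map (f N))) (p.2 :: p.1 :: Y))
    (H := fun p => itr ρ n (wq : List V → ℝ) (p.2 :: p.1 :: Y)) (D := 1)
    hmeas (fun N p => hbd N _) (fun p => hlim _)
  have l3 := lim2 ρ (G := fun N p => a p.1 *
      itr ρ n (fun Z : List V => wn (Z.map (f N))) (p.2 :: p.1 :: Y))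
    (H := fun p => a p.1 * itr ρ n (wq : List V → ℝ) (p.2 :: p.1 :: Y)) (D := C * 1)
    (fun N => ((ha.comp measurable_fst).mul (hmeas N)))
    (fun N p => by
      rw [abs_mul]
      exact mul_le_mul (hC _) (hbd N _) (abs_nonneg _) hC0)
    (fun p => (hlim _).const_mul _)
  have key := le_of_tendsto_of_tendsto' (l1.mul l2) (l3.pow 2)
    (fun N => af_simple ρ (f N) n Y ha ⟨C, hC⟩)
  simp only at key
  have hR : ∫ x, ∫ y, a x * itr ρ n (wq : List V → ℝ) (y :: x :: Y) ∂ρ ∂ρ = 0 := by
    rw [← h0]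
    refine integral_congr_ae (Filter.Eventually.of_forall fun x => ?_)
    exact integral_const_mul (a x) _
  rw [hR, zero_pow two_ne_zero] at key
  have hnn : ∀ Z, 0 ≤ itr ρ n (wq : List V → ℝ) Z := fun Z =>
    itr_nonneg (fun W => (wn_nonneg _ : 0 ≤ wq W)) n Z
  obtain ⟨Q, hQ⟩ : ∃ Q, Q = ∫ x, ∫ y, itr ρ n (wq : List V → ℝ) (y :: x :: Y) ∂ρ ∂ρ := ⟨_, rfl⟩
  have hQ0 : 0 ≤ Q := by
    rw [hQ]
    exact integral_nonneg fun x => integral_nonneg fun y => hnn _
  have hPQ : ∫ x, ∫ y, a x * a y * itr ρ n (wq : List V → ℝ) (y :: x :: Y) ∂ρ ∂ρ ≤ C * C * Q := by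
    rw [hQ, ← integral_const_mul]
    have hin : ∀ {K : V × V → ℝ}, Measurable K → ∀ {D : ℝ}, (∀ p, |K p| ≤ D) →
        (∀ x, Integrable (fun y => K (x, y)) ρ) ∧ Integrable (fun x => ∫ y, K (x, y) ∂ρ) ρ := by
      intro K hK D hD
      refine ⟨fun x => ?_, ?_⟩
      · exact Integrable.of_bound ((hK.comp measurable_prodMk_left).aestronglyMeasurable) D
          (Filter.Eventually.of_forall fun y => hD (x, y))
      · refine Integrable.of_bound (hK.stronglyMeasurable.integral_prod_right'.aestronglyMeasurable) D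
          (Filter.Eventually.of_forall fun x => ?_)
        have h1 := norm_integral_le_of_norm_le_const (μ := ρ) (f := fun y => K (x, y)) (C := D)
          (Filter.Eventually.of_forall fun y => hD (x, y))
        rw [probReal_univ, mul_one] at h1
        exact h1
    have i1 := hin (K := fun p => a p.1 * a p.2 * itr ρ n (wq : List V → ℝ) (p.2 :: p.1 :: Y))
      (((ha.comp measurable_fst).mul (ha.comp measurable_snd)).mul hmq) (D := C * C * 1)
      (fun p => by
        rw [abs_mul, abs_mul]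
        exact mul_le_mul (mul_le_mul (hC _) (hC _) (abs_nonneg _) hC0) (hbq _) (abs_nonneg _)
          (mul_nonneg hC0 hC0))
    have i2 := hin (K := fun p => itr ρ n (wq : List V → ℝ) (p.2 :: p.1 :: Y)) hmq (D := 1)
      (fun p => hbq _)
    refine integral_mono i1.2 (i2.2.const_mul _) fun x => ?_
    simp only
    rw [← integral_const_mul]
    refine integral_mono (i1.1 x) ((i2.1 x).const_mul _) fun y => ?_
    simp only
    refine mul_le_mul_of_nonneg_right ?_ (hnn _)
    calc a x * a y ≤ |a x * a y| := le_abs_self _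
      _ = |a x| * |a y| := abs_mul _ _
      _ ≤ C * C := mul_le_mul (hC _) (hC _) (abs_nonneg _) hC0
  rw [← hQ] at key
  rcases hQ0.lt_or_eq with h | h
  · by_contra hcon
    push Not at hcon
    exact absurd key (not_le.2 (mul_pos hcon h))
  · rw [← h, mul_zero] at hPQ
    exact hPQ

theorem wt_wq (ρ : Measure V) [IsProbabilityMeasure ρ] : Wt ρ (wq : List V → ℝ) where
  lb := lb_wn_map measurable_nrm norm_nrm_le
  nn := fun _ => wn_nonneg _
  sym := fun _ _ h => wn_perm (h.map _)
  af := fun n Y a ha hb h0 => af_wq ρ n Y a ha hb h0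

end Pool.Agent.PBL
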