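import Pool.Agent.PBL.D0b
import Pool.Agent.FI75.C4a

/-! Module PBL-D0 (leave-one-out): the integrals `iw (n + 1) ρ Φ` with one vector of the tuple integrated separately. The measure
`ρ^(n + 1)` splits at the coordinate `i` (`measurePreserving_piFinSuccAbove`), and `wv (insertNth i x X) = wv X * ‖rv X x‖`. -/

set_option autoImplicit false

namespace Pool.Agent.PBL
open MeasureTheory ProbabilityTheory Set Filter Topology Metric
open Pool.Agent.HP89 Pool.Agent.FI75
open scoped RealInnerProductSpace ENNReal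

variable {V : Type*} [NormedAddCommGroup V] [InnerProductSpace ℝ V] [FiniteDimensional ℝ V]
  [MeasurableSpace V] [BorelSpace V]

private theorem loo {ρ : Measure V} (hρ : US ρ) {n : ℕ} (i : Fin (n + 1)) {Φ : (Fin (n + 1) → V) → ℝ} (hΦ : Measurable Φ)
    {C : ℝ} (hC : ∀ X, |Φ X| ≤ C) :
    iw (n + 1) ρ Φ = iw n ρ (fun X => ∫ x, ‖rv X x‖ * Φ (i.insertNth (α := fun _ => V) x X) ∂ρ) := by
  have := hρ.prob
  have hint : Integrable (fun X : Fin (n + 1) → V => wv X * Φ X) (pp (n + 1) ρ) := by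
    refine Integrable.of_bound (C := C) ((measurable_wv (n + 1)).mul hΦ).aestronglyMeasurable ?_
    filter_upwards [ae_wv_le hρ (n + 1)] with X hX
    rw [Real.norm_eq_abs, abs_mul, abs_of_nonneg hX.1]
    calc wv X * |Φ X| ≤ 1 * |Φ X| := mul_le_mul_of_nonneg_right hX.2 (abs_nonneg _)
      _ = |Φ X| := one_mul _
      _ ≤ C := hC X
  have h1 := measurePreserving_piFinSuccAbove (fun _ : Fin (n + 1) => ρ) i
  have h2 := h1.symm.integral_comp' (g := fun X : Fin (n + 1) → V => wv X * Φ X)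
  have hint2 : Integrable (fun p : V × (Fin n → V) => wv (i.insertNth (α := fun _ => V) p.1 p.2) *
      Φ (i.insertNth (α := fun _ => V) p.1 p.2)) (ρ.prod (pp n ρ)) :=
    h1.symm.integrable_comp_of_integrable hint
  have h3 := integral_prod_symm _ hint2
  have h4 : iw (n + 1) ρ Φ = ∫ X', ∫ x, wv (i.insertNth (α := fun _ => V) x X') *
      Φ (i.insertNth (α := fun _ => V) x X') ∂ρ ∂(pp n ρ) := by
    rw [← h3]
    exact h2.symm
  rw [h4]
  unfold iw
  congr 1
  funext X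
  rw [← integral_const_mul]
  congr 1
  funext x
  rw [wv_insertNth, mul_assoc]

theorem iw_succ {ρ : Measure V} (hρ : US ρ) {n : ℕ} {Φ : (Fin (n + 1) → V) → ℝ} (hΦ : Measurable Φ) {C : ℝ}
    (hC : ∀ X, |Φ X| ≤ C) :
    iw (n + 1) ρ Φ = iw n ρ (fun X => ∫ x, ‖rv X x‖ * Φ (Fin.cons x X) ∂ρ) := by
  rw [loo hρ 0 hΦ hC]
  simp only [Fin.insertNth_zero']

theorem en_succ {ρ : Measure V} (hρ : US ρ) (n : ℕ) : en (n + 1) ρ = iw n ρ (fun X => gW ρ (oc X)) := by
  have h := iw_succ hρ (n := n) (Φ := fun _ => (1 : ℝ)) measurable_const (C := 1) (fun X => by simp)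
  have h1 : en (n + 1) ρ = iw (n + 1) ρ (fun _ => (1 : ℝ)) := by
    unfold en iw
    simp only [mul_one]
  rw [h1, h]
  unfold gW
  simp only [mul_one, rv_eq]

/-- leave-one-out at the coordinate `i`. -/
theorem iw_loo {ρ : Measure V} (hρ : US ρ) {n : ℕ} (i : Fin (n + 1)) {Φ : (Fin (n + 1) → V) → ℝ} (hΦ : Measurable Φ)
    {C : ℝ} (hC : ∀ X, |Φ X| ≤ C) :
    iw (n + 1) ρ Φ = iw n ρ (fun X => ∫ x, ‖rv X x‖ * Φ (i.insertNth (α := fun _ => V) x X) ∂ρ) :=
  loo hρ i hΦ hC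

end Pool.Agent.PBL
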