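import Pool.Agent.PBL.D0a

/-! Module PBL-D0b (monotonicity and linearity of `av` and `iw`). Everything is bounded: `stdGaussian V` is a probability measure, and
`0 ≤ wv X ≤ 1` for `ρ^n`-a.e. `X` (`ae_wv_le`), all `‖X i‖ = 1` a.e. (`ae_unit`). -/

set_option autoImplicit false

namespace Pool.Agent.PBL
open MeasureTheory ProbabilityTheory Set Filter Topology Metric
open Pool.Agent.HP89 Pool.Agent.FI75
open scoped RealInnerProductSpace ENNReal

variable {V : Type*} [NormedAddCommGroup V] [InnerProductSpace ℝ V] [FiniteDimensional ℝ V]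
  [MeasurableSpace V] [BorelSpace V]

private theorem av_int (E : Submodule ℝ V) {φ : V → ℝ} (hφ : Measurable φ) {C : ℝ} (hC : ∀ x, |φ x| ≤ C) :
    Integrable (fun g => φ (nrm (E.starProjection g))) (stdGaussian V) := by
  refine Integrable.of_bound (C := C) ?_ (Eventually.of_forall fun g => ?_)
  · exact (hφ.comp (measurable_nrm.comp E.starProjection.continuous.measurable)).aestronglyMeasurable
  · rw [Real.norm_eq_abs]
    exact hC _

private theorem iw_int {ρ : Measure V} (hρ : US ρ) {n : ℕ} {Φ : (Fin n → V) → ℝ} (hΦ : Measurable Φ)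
    {C : ℝ} (hC : ∀ X, |Φ X| ≤ C) : Integrable (fun X => wv X * Φ X) (pp n ρ) := by
  have := hρ.prob
  refine Integrable.of_bound (C := C) ((measurable_wv n).mul hΦ).aestronglyMeasurable ?_
  filter_upwards [ae_wv_le hρ n] with X hX
  rw [Real.norm_eq_abs, abs_mul, abs_of_nonneg hX.1]
  calc wv X * |Φ X| ≤ 1 * |Φ X| := mul_le_mul_of_nonneg_right hX.2 (abs_nonneg _)
    _ = |Φ X| := one_mul _
    _ ≤ C := hC X

theorem av_mono (E : Submodule ℝ V) {φ ψ : V → ℝ} (hφ : Measurable φ) (hψ : Measurable ψ) {C : ℝ}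
    (hC : ∀ x, |φ x| ≤ C) (hC' : ∀ x, |ψ x| ≤ C) (h : ∀ x, φ x ≤ ψ x) : av E φ ≤ av E ψ :=
  integral_mono (av_int E hφ hC) (av_int E hψ hC') fun g => h _

theorem av_add (E : Submodule ℝ V) {φ ψ : V → ℝ} (hφ : Measurable φ) (hψ : Measurable ψ) {C : ℝ}
    (hC : ∀ x, |φ x| ≤ C) (hC' : ∀ x, |ψ x| ≤ C) : av E (fun x => φ x + ψ x) = av E φ + av E ψ :=
  integral_add (av_int E hφ hC) (av_int E hψ hC')

theorem av_mul (E : Submodule ℝ V) (c : ℝ) (φ : V → ℝ) : av E (fun x => c * φ x) = c * av E φ :=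
  integral_const_mul c _

theorem av_nonneg (E : Submodule ℝ V) {φ : V → ℝ} (h : ∀ x, 0 ≤ φ x) : 0 ≤ av E φ :=
  integral_nonneg fun g => h _

theorem av_le (E : Submodule ℝ V) {φ : V → ℝ} {C : ℝ} (h0 : ∀ x, 0 ≤ φ x) (h : ∀ x, φ x ≤ C) : av E φ ≤ C := by
  have h1 : av E φ ≤ ∫ _g : V, C ∂(stdGaussian V) :=
    integral_mono_of_nonneg (Eventually.of_forall fun g => h0 _) (integrable_const C)
      (Eventually.of_forall fun g => h _)
  simpa using h1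

theorem iw_mono {ρ : Measure V} (hρ : US ρ) {n : ℕ} {Φ Ψ : (Fin n → V) → ℝ} (hΦ : Measurable Φ) (hΨ : Measurable Ψ)
    {C : ℝ} (hC : ∀ X, |Φ X| ≤ C) (hC' : ∀ X, |Ψ X| ≤ C) (h : ∀ X, wv X ≠ 0 → (∀ i, ‖X i‖ = 1) → Φ X ≤ Ψ X) :
    iw n ρ Φ ≤ iw n ρ Ψ := by
  refine integral_mono_ae (iw_int hρ hΦ hC) (iw_int hρ hΨ hC') ?_
  filter_upwards [ae_wv_le hρ n, ae_unit hρ n] with X hX hX1
  rcases eq_or_ne (wv X) 0 with h0 | h0
  · simp [h0]
  · exact mul_le_mul_of_nonneg_left (h X h0 hX1) hX.1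

theorem iw_add {ρ : Measure V} (hρ : US ρ) {n : ℕ} {Φ Ψ : (Fin n → V) → ℝ} (hΦ : Measurable Φ) (hΨ : Measurable Ψ)
    {C : ℝ} (hC : ∀ X, |Φ X| ≤ C) (hC' : ∀ X, |Ψ X| ≤ C) : iw n ρ (fun X => Φ X + Ψ X) = iw n ρ Φ + iw n ρ Ψ := by
  unfold iw
  rw [← integral_add (iw_int hρ hΦ hC) (iw_int hρ hΨ hC')]
  simp only [mul_add]

theorem iw_mul (ρ : Measure V) {n : ℕ} (c : ℝ) (Φ : (Fin n → V) → ℝ) : iw n ρ (fun X => c * Φ X) = c * iw n ρ Φ := by
  unfold iw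
  rw [← integral_const_mul]
  congr 1
  funext X
  ring

theorem iw_const (ρ : Measure V) (n : ℕ) (c : ℝ) : iw n ρ (fun _ => c) = c * en n ρ := by
  unfold iw en
  rw [← integral_const_mul]
  congr 1
  funext X
  ring

theorem iw_congr {ρ : Measure V} (hρ : US ρ) {n : ℕ} {Φ Ψ : (Fin n → V) → ℝ}
    (h : ∀ X, wv X ≠ 0 → (∀ i, ‖X i‖ = 1) → Φ X = Ψ X) : iw n ρ Φ = iw n ρ Ψ := by
  refine integral_congr_ae ?_
  filter_upwards [ae_unit hρ n] with X hX1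
  rcases eq_or_ne (wv X) 0 with h0 | h0
  · simp [h0]
  · simp only [h X h0 hX1]

end Pool.Agent.PBL
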