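import Pool.Agent.PBL.D0

/-! Module PBL-D1 (the measure `Nop j ρ`). `nop_int`: unfold `Nop`: `integral_smul_measure`, `integral_map`, `integral_withDensity...`,
Fubini; `nrm (rv X g)`, `av (oc X) φ = ∫ φ (nrm (rv X g))`; `∫⁻ ofReal (wv X) = ofReal (en j ρ)`. `nop_us`: total mass 1, and for
`wv X ≠ 0` (so `finrank (oc X) = d - j ≥ 1`) `rv X g ≠ 0` a.e. (`ae_proj_ne`), `‖nrm (rv X g)‖ = 1`. The other statements are `nop_int`
with `av_inner_mul`, `av_proj`, `finrank_oc` (`wv X ≠ 0`). For `nop_four` (needed in D2) and functions which are unbounded on `V` (like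
`⟪x,u⟫ ^ 4`) truncate or use that both sides only depend on `φ` on the closed unit ball: state `nop_int` with `C` bounding
`|φ x|` for `‖x‖ ≤ 1`. -/

set_option autoImplicit false

namespace Pool.Agent.PBL
open MeasureTheory ProbabilityTheory Set Filter Topology Metric
open Pool.Agent.HP89 Pool.Agent.FI75
open scoped RealInnerProductSpace ENNReal

variable {V : Type*} [NormedAddCommGroup V] [InnerProductSpace ℝ V] [FiniteDimensional ℝ V]
  [MeasurableSpace V] [BorelSpace V]

private theorem meas_map {j : ℕ} : Measurable (fun p : (Fin j → V) × V => nrm (rv p.1 p.2)) :=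
  measurable_nrm.comp meas_rv

private theorem meas_w {j : ℕ} : Measurable (fun p : (Fin j → V) × V => wv p.1) :=
  (measurable_wv j).comp measurable_fst

private theorem integrable_wv' {ρ : Measure V} (hρ : US ρ) (j : ℕ) : Integrable (fun X => wv X) (pp j ρ) := by
  have := hρ.prob
  refine Integrable.of_bound (measurable_wv j).aestronglyMeasurable 1 ?_
  filter_upwards [ae_wv_le hρ j] with X hX
  rw [Real.norm_eq_abs, abs_of_nonneg hX.1]
  exact hX.2

private theorem lintegral_wv' {ρ : Measure V} (hρ : US ρ) (j : ℕ) :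
    ∫⁻ X, ENNReal.ofReal (wv X) ∂(pp j ρ) = ENNReal.ofReal (en j ρ) := by
  rw [en, ofReal_integral_eq_lintegral_ofReal (integrable_wv' hρ j)]
  exact ae_of_all _ fun X => wn_nonneg _

theorem nop_int {ρ : Measure V} (hρ : US ρ) {j : ℕ} (hj : 0 < en j ρ) {φ : V → ℝ} (hφ : Measurable φ) {C : ℝ}
    (hC : ∀ x, ‖x‖ ≤ 1 → |φ x| ≤ C) :
    en j ρ * ∫ x, φ x ∂(Nop j ρ) = iw j ρ (fun X => av (oc X) φ) := by
  have := hρ.prob
  have h1 : ∫ x, φ x ∂(Nop j ρ) = (en j ρ)⁻¹ * ∫ p, wv p.1 * φ (nrm (rv p.1 p.2)) ∂((pp j ρ).prod (stdGaussian V)) := by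
    rw [Nop, integral_smul_measure, ENNReal.toReal_inv, ENNReal.toReal_ofReal hj.le, smul_eq_mul]
    congr 1
    rw [integral_map meas_map.aemeasurable hφ.aestronglyMeasurable,
      integral_withDensity_eq_integral_toReal_smul meas_w.ennreal_ofReal (ae_of_all _ fun _ => ENNReal.ofReal_lt_top)]
    refine integral_congr_ae (ae_of_all _ fun p => ?_)
    simp only [smul_eq_mul]
    rw [ENNReal.toReal_ofReal (show 0 ≤ wv p.1 from wn_nonneg _)]
  have h2 : Integrable (fun p : (Fin j → V) × V => wv p.1 * φ (nrm (rv p.1 p.2))) ((pp j ρ).prod (stdGaussian V)) := by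
    have h3 : Integrable (fun p : (Fin j → V) × V => wv p.1) ((pp j ρ).prod (stdGaussian V)) :=
      (integrable_wv' hρ j).comp_fst _
    refine h3.mul_bdd (c := C) (hφ.comp meas_map).aestronglyMeasurable (ae_of_all _ fun p => ?_)
    rw [Real.norm_eq_abs]
    exact hC _ (norm_nrm_le _)
  rw [h1, ← mul_assoc, mul_inv_cancel₀ hj.ne', one_mul, integral_prod _ h2, iw]
  refine integral_congr_ae (ae_of_all _ fun X => ?_)
  simp only
  rw [integral_const_mul, av]
  congr 1
  refine integral_congr_ae (ae_of_all _ fun g => ?_)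
  simp only [rv_eq]

theorem nop_us {ρ : Measure V} (hρ : US ρ) {j : ℕ} (hj : 0 < en j ρ) (hjd : j < Module.finrank ℝ V) :
    US (Nop j ρ) := by
  have := hρ.prob
  constructor
  · constructor
    have h0 : ENNReal.ofReal (en j ρ) ≠ 0 := by
      rw [Ne, ENNReal.ofReal_eq_zero, not_le]
      exact hj
    rw [Nop, Measure.smul_apply, Measure.map_apply meas_map MeasurableSet.univ, preimage_univ,
      withDensity_apply _ MeasurableSet.univ, Measure.restrict_univ,
      lintegral_prod _ meas_w.ennreal_ofReal.aemeasurable]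
    simp only [lintegral_const, measure_univ, mul_one]
    rw [lintegral_wv' hρ j, smul_eq_mul, ENNReal.inv_mul_cancel h0 ENNReal.ofReal_ne_top]
  · rw [Nop]
    refine Measure.ae_smul_measure ?_ _
    have hm : MeasurableSet {x : V | ‖x‖ = 1} := measurableSet_eq_fun measurable_norm measurable_const
    rw [ae_map_iff meas_map.aemeasurable hm, ae_withDensity_iff meas_w.ennreal_ofReal]
    have hs : MeasurableSet {p : (Fin j → V) × V | ENNReal.ofReal (wv p.1) ≠ 0 → ‖nrm (rv p.1 p.2)‖ = 1} := by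
      have h1 : MeasurableSet {p : (Fin j → V) × V | ENNReal.ofReal (wv p.1) ≠ 0} :=
        (meas_w.ennreal_ofReal (measurableSet_singleton 0)).compl
      exact h1.imp (meas_map hm)
    rw [Measure.ae_prod_iff_ae_ae hs]
    refine ae_of_all _ fun X => ?_
    by_cases hX : wv X = 0
    · refine ae_of_all _ fun g h => ?_
      exact absurd (by simp only [hX, ENNReal.ofReal_zero]) h
    · have h1 := finrank_oc hX
      filter_upwards [ae_proj_ne (oc X) (by omega)] with g hg _
      rw [← rv_eq] at hg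
      rw [nrm, norm_smul, norm_inv, norm_norm, inv_mul_cancel₀ (norm_ne_zero_iff.2 hg)]

omit [MeasurableSpace V] [BorelSpace V] in
private theorem finrank_oc' {j : ℕ} {X : Fin j → V} (hX : wv X ≠ 0) :
    (Module.finrank ℝ V : ℝ) - j = (Module.finrank ℝ (oc X) : ℝ) := by
  have h1 := finrank_oc hX
  have h2 : (Module.finrank ℝ (oc X) : ℝ) + j = (Module.finrank ℝ V : ℝ) := by exact_mod_cast h1
  linarith

theorem nop_inner {ρ : Measure V} (hρ : US ρ) {j : ℕ} (hj : 0 < en j ρ) (hjd : j < Module.finrank ℝ V) (u w : V) :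
    ((Module.finrank ℝ V : ℝ) - j) * en j ρ * ∫ x, ⟪x, u⟫ * ⟪x, w⟫ ∂(Nop j ρ) = iw j ρ (fun X => ⟪rv X u, w⟫) := by
  have hm : Measurable (fun x : V => ⟪x, u⟫ * ⟪x, w⟫) := by fun_prop
  have hb : ∀ x : V, ‖x‖ ≤ 1 → |⟪x, u⟫ * ⟪x, w⟫| ≤ ‖u‖ * ‖w‖ := by
    intro x hx
    rw [abs_mul]
    refine mul_le_mul ?_ ?_ (abs_nonneg _) (norm_nonneg _)
    · refine (abs_real_inner_le_norm _ _).trans ?_
      exact mul_le_of_le_one_left (norm_nonneg _) hx
    · refine (abs_real_inner_le_norm _ _).trans ?_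
      exact mul_le_of_le_one_left (norm_nonneg _) hx
  rw [mul_assoc, nop_int hρ hj hm hb, ← iw_mul]
  refine iw_congr hρ fun X hX _ => ?_
  have h1 := finrank_oc hX
  rw [finrank_oc' hX, av_inner_mul (oc X) (by omega), rv_eq]

theorem nop_sW {ρ : Measure V} (hρ : US ρ) {j : ℕ} (hj : 0 < en j ρ) (hjd : j < Module.finrank ℝ V)
    (W : Submodule ℝ V) :
    ((Module.finrank ℝ V : ℝ) - j) * en j ρ * sW (Nop j ρ) W = iw j ρ (fun X => tt (oc X) W) := by
  have hm : Measurable (fun x : V => ‖W.starProjection x‖ ^ 2) := by fun_prop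
  have hb : ∀ x : V, ‖x‖ ≤ 1 → |‖W.starProjection x‖ ^ 2| ≤ 1 := by
    intro x hx
    rw [abs_of_nonneg (by positivity)]
    exact pow_le_one₀ (norm_nonneg _) ((W.norm_starProjection_apply_le x).trans hx)
  rw [mul_assoc, sW, nop_int hρ hj hm hb, ← iw_mul]
  refine iw_congr hρ fun X hX _ => ?_
  have h1 := finrank_oc hX
  rw [finrank_oc' hX, av_proj (oc X) W (by omega)]

/-- leave-one-out for the next measure. -/
theorem nop_loo {ρ : Measure V} (hρ : US ρ) {n : ℕ} (hj : 0 < en (n + 1) ρ) {φ : V → ℝ} (hφ : Measurable φ) {C : ℝ}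
    (hC : ∀ x, |φ x| ≤ C) :
    en (n + 1) ρ * ∫ x, φ x ∂(Nop (n + 1) ρ) =
      iw n ρ (fun X => ∫ x, ‖rv X x‖ * avo (oc X) x φ ∂ρ) := by
  rw [nop_int hρ hj hφ fun x _ => hC x]
  have hm : Measurable (fun X : Fin (n + 1) → V => av (oc X) φ) := by
    refine meas_av (f := fun X : Fin (n + 1) → V => X) measurable_id (Φ := fun _ => φ) ?_
    exact hφ.comp measurable_snd
  have hb : ∀ X : Fin (n + 1) → V, |av (oc X) φ| ≤ C := by
    intro X
    rw [av, ← Real.norm_eq_abs]
    refine (norm_integral_le_of_norm_le_const (C := C) (ae_of_all _ fun g => ?_)).trans ?_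
    · rw [Real.norm_eq_abs]
      exact hC _
    · rw [probReal_univ, mul_one]
  rw [iw_succ hρ hm hb]
  simp only [av_cons]

end Pool.Agent.PBL
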