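import Pool.Agent.PBL.E4

/-! Module PBL-E5 (near isotropy, second half). The function `G = 1{v/2 ≤ s X'} β'/s X'` (`X' = Fin.tail X`, `β' = ⟪Tv ρ u, rv X' w⟫`)
differs from `β/v`, `β = ⟪Tv ρ u, rv X w⟫`, by at most `(2/(v² k)) (1/k + |s X - v|)` (`real1`; `s_tail`), plus `1/(k v)` on
`{s X' < v/2}` (`low_tail`), plus `(1/(2 v k)) (⟪η,w⟫² + ⟪η,t⟫²)` where `η = nrm (rv X' (X 0))` and `t` is the direction of
`Tv ρ u` (`rv_diff`). The mean of `⟪η,w⟫²` is `iw_eta` (`two`, `g_bounds`), the variance of `s X` is `iw_var` (`conc_var`), and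
`real2` is the final numerical inequality. `ni_main` adds `ni_first` and `ni_second` and uses `nop_inner`. -/

set_option autoImplicit false

namespace Pool.Agent.PBL
open MeasureTheory ProbabilityTheory Set Filter Topology Metric
open Pool.Agent.HP89 Pool.Agent.FI75
open scoped RealInnerProductSpace ENNReal

variable {V : Type*} [NormedAddCommGroup V] [InnerProductSpace ℝ V] [FiniteDimensional ℝ V]
  [MeasurableSpace V] [BorelSpace V]

private theorem int_bdd {ρ : Measure V} (hρ : US ρ) {E : Type*} [NormedAddCommGroup E] [NormedSpace ℝ E]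
    {f : V → E} (hf : AEStronglyMeasurable f ρ) {C : ℝ} (hC : ∀ x, ‖x‖ = 1 → ‖f x‖ ≤ C) : Integrable f ρ := by
  haveI := hρ.prob
  refine Integrable.of_bound hf C ?_
  filter_upwards [hρ.unit] with x hx using hC x hx

theorem inner_Tv {ρ : Measure V} (hρ : US ρ) (u w : V) : ⟪w, Tv ρ u⟫ = ∫ x, ⟪x, u⟫ * ⟪x, w⟫ ∂ρ := by
  haveI := hρ.prob
  have hi : Integrable (fun x : V => ⟪x, u⟫ • x) ρ := by
    refine int_bdd hρ ?_ (C := ‖u‖) ?_
    · exact (((continuous_id.inner continuous_const).smul continuous_id).measurable).aestronglyMeasurable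
    · intro x hx
      rw [norm_smul, hx, mul_one, Real.norm_eq_abs]
      calc |⟪x, u⟫| ≤ ‖x‖ * ‖u‖ := abs_real_inner_le_norm x u
        _ = ‖u‖ := by rw [hx, one_mul]
  unfold Tv
  rw [← integral_inner hi w]
  refine integral_congr_ae (Filter.Eventually.of_forall fun x => ?_)
  show ⟪w, ⟪x, u⟫ • x⟫ = _
  rw [inner_smul_right, real_inner_comm x w]

private theorem int_sq {ρ : Measure V} (hρ : US ρ) (u : V) : Integrable (fun x : V => ⟪x, u⟫ ^ 2) ρ := by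
  refine int_bdd hρ ?_ (C := ‖u‖ ^ 2) ?_
  · exact ((continuous_id.inner continuous_const).pow 2).measurable.aestronglyMeasurable
  · intro x hx
    rw [Real.norm_eq_abs, abs_pow]
    have h1 : |⟪x, u⟫| ≤ ‖u‖ := by
      calc |⟪x, u⟫| ≤ ‖x‖ * ‖u‖ := abs_real_inner_le_norm x u
        _ = ‖u‖ := by rw [hx, one_mul]
    exact pow_le_pow_left₀ (abs_nonneg _) h1 2

private theorem int_mul {ρ : Measure V} (hρ : US ρ) (u w : V) : Integrable (fun x : V => ⟪x, u⟫ * ⟪x, w⟫) ρ := by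
  refine int_bdd hρ ?_ (C := ‖u‖ * ‖w‖) ?_
  · exact ((continuous_id.inner continuous_const).mul
      (continuous_id.inner continuous_const)).measurable.aestronglyMeasurable
  · intro x hx
    rw [Real.norm_eq_abs, abs_mul]
    have h1 : ∀ z : V, |⟪x, z⟫| ≤ ‖z‖ := fun z => by
      calc |⟪x, z⟫| ≤ ‖x‖ * ‖z‖ := abs_real_inner_le_norm x z
        _ = ‖z‖ := by rw [hx, one_mul]
    exact mul_le_mul (h1 u) (h1 w) (abs_nonneg _) (norm_nonneg _)

private theorem k_pos {n : ℕ} {M : ℝ} (hP : Par (Module.finrank ℝ V) (n + 1) M) :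
    0 < (Module.finrank ℝ V : ℝ) - ((n + 1 : ℕ) : ℝ) := hP.k_pos

private theorem inner_Tv_le {n : ℕ} {M : ℝ} (hP : Par (Module.finrank ℝ V) (n + 1) M) {ρ : Measure V}
    (hN : Nice (n + 1) M ρ) {u w : V} (hu : ‖u‖ = 1) (hw : ‖w‖ = 1) :
    ((Module.finrank ℝ V : ℝ) - ((n + 1 : ℕ) : ℝ)) * ⟪w, Tv ρ u⟫ ≤ 1 := by
  have hk := k_pos hP
  have h1 := hN.n1 u
  have h2 := hN.n1 w
  rw [hu, one_pow] at h1
  rw [hw, one_pow] at h2
  rw [inner_Tv hN.us]
  have h3 : ∫ x, ⟪x, u⟫ * ⟪x, w⟫ ∂ρ ≤ ∫ x, (⟪x, u⟫ ^ 2 + ⟪x, w⟫ ^ 2) / 2 ∂ρ := by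
    refine integral_mono (int_mul hN.us u w) (((int_sq hN.us u).add (int_sq hN.us w)).div_const 2) fun x => ?_
    show ⟪x, u⟫ * ⟪x, w⟫ ≤ (⟪x, u⟫ ^ 2 + ⟪x, w⟫ ^ 2) / 2
    nlinarith [sq_nonneg (⟪x, u⟫ - ⟪x, w⟫)]
  have h4 : ∫ x, (⟪x, u⟫ ^ 2 + ⟪x, w⟫ ^ 2) / 2 ∂ρ = ((∫ x, ⟪x, u⟫ ^ 2 ∂ρ) + ∫ x, ⟪x, w⟫ ^ 2 ∂ρ) / 2 := by
    rw [integral_div, integral_add (int_sq hN.us u) (int_sq hN.us w)]
  rw [h4] at h3
  have h5 := mul_le_mul_of_nonneg_left h3 hk.le
  linarith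

private theorem exists_t {n : ℕ} {M : ℝ} (hP : Par (Module.finrank ℝ V) (n + 1) M) {ρ : Measure V}
    (hN : Nice (n + 1) M ρ) {u : V} (hu : ‖u‖ = 1) :
    ∃ t : V, ∃ a : ℝ, ‖t‖ = 1 ∧ Tv ρ u = a • t ∧ 0 ≤ a ∧
      ((Module.finrank ℝ V : ℝ) - ((n + 1 : ℕ) : ℝ)) * a ≤ 1 := by
  by_cases h : Tv ρ u = 0
  · exact ⟨u, 0, hu, by rw [h, zero_smul], le_rfl, by rw [mul_zero]; exact zero_le_one⟩
  · have h0 : 0 < ‖Tv ρ u‖ := norm_pos_iff.2 h
    have ht : ‖(‖Tv ρ u‖⁻¹ • Tv ρ u)‖ = 1 := by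
      rw [norm_smul, norm_inv, norm_norm, inv_mul_cancel₀ h0.ne']
    refine ⟨‖Tv ρ u‖⁻¹ • Tv ρ u, ‖Tv ρ u‖, ht, ?_, h0.le, ?_⟩
    · rw [smul_smul, mul_inv_cancel₀ h0.ne', one_smul]
    · have h1 := inner_Tv_le hP hN hu ht
      have h2 : ⟪‖Tv ρ u‖⁻¹ • Tv ρ u, Tv ρ u⟫ = ‖Tv ρ u‖ := by
        rw [real_inner_smul_left, real_inner_self_eq_norm_sq]
        field_simp
      rwa [h2] at h1

private theorem norm_Tv {n : ℕ} {M : ℝ} (hP : Par (Module.finrank ℝ V) (n + 1) M) {ρ : Measure V}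
    (hN : Nice (n + 1) M ρ) {u : V} (hu : ‖u‖ = 1) :
    ((Module.finrank ℝ V : ℝ) - ((n + 1 : ℕ) : ℝ)) * ‖Tv ρ u‖ ≤ 1 := by
  obtain ⟨t, a, ht, hT, ha, hka⟩ := exists_t hP hN hu
  rw [hT, norm_smul, ht, mul_one, Real.norm_eq_abs, abs_of_nonneg ha]
  exact hka

/-- the trace of `T` on `oc X` and on `oc (tail X)`. -/
private theorem s_tail {n : ℕ} {M : ℝ} (hP : Par (Module.finrank ℝ V) (n + 1) M) {ρ : Measure V}
    (hN : Nice (n + 1) M ρ) (X : Fin (n + 1) → V) :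
    sW ρ (oc X) ≤ sW ρ (oc (Fin.tail X)) ∧
      ((Module.finrank ℝ V : ℝ) - ((n + 1 : ℕ) : ℝ)) * (sW ρ (oc (Fin.tail X)) - sW ρ (oc X)) ≤ 1 := by
  have hk := k_pos hP
  have hs := sub1_smul hk.le hN.us hN.n1
  have h := qF_inc hs (X 0) (List.ofFn (Fin.tail X))
  have e : X 0 :: List.ofFn (Fin.tail X) = List.ofFn X := by
    rw [List.ofFn_succ]; rfl
  rw [e, qF_eq, qF_eq, sW_smul hk.le, sW_smul hk.le] at h
  constructor
  · nlinarith [h.1]
  · linarith [h.2]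

private theorem sW_nonneg (ρ : Measure V) (W : Submodule ℝ V) : 0 ≤ sW ρ W :=
  integral_nonneg fun _ => sq_nonneg _

private theorem sW_le_one {ρ : Measure V} (hρ : US ρ) (W : Submodule ℝ V) : sW ρ W ≤ 1 := by
  haveI := hρ.prob
  have h : ∫ x, ‖W.starProjection x‖ ^ 2 ∂ρ ≤ ∫ _x, (1 : ℝ) ∂ρ := by
    refine integral_mono_of_nonneg (Filter.Eventually.of_forall fun _ => sq_nonneg _) (integrable_const _) ?_
    filter_upwards [hρ.unit] with x hx
    have h1 : ‖W.starProjection x‖ ≤ 1 := by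
      calc ‖W.starProjection x‖ ≤ ‖x‖ := W.norm_starProjection_apply_le x
        _ = 1 := hx
    exact pow_le_one₀ (norm_nonneg _) h1
  simpa [sW] using h

private theorem norm_rv_le {n : ℕ} (X : Fin n → V) (w : V) : ‖rv X w‖ ≤ ‖w‖ := norm_res_le _ _

/-- the unit vector `η`. -/
private noncomputable def eta {n : ℕ} (X : Fin (n + 1) → V) : V := nrm (rv (Fin.tail X) (X 0))

private theorem meas_tail {n : ℕ} : Measurable (fun X : Fin (n + 1) → V => Fin.tail X) :=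
  measurable_pi_lambda _ fun i => measurable_pi_apply _

private theorem meas_eta {n : ℕ} : Measurable (fun X : Fin (n + 1) → V => eta X) := by
  have h1 : Measurable (fun X : Fin (n + 1) → V => ((Fin.tail X, X 0) : (Fin n → V) × V)) :=
    Measurable.prodMk meas_tail (measurable_pi_apply 0)
  exact measurable_nrm.comp (meas_rv.comp h1)

private theorem meas_inner_eta {n : ℕ} (w : V) : Measurable (fun X : Fin (n + 1) → V => ⟪eta X, w⟫ ^ 2) :=
  ((continuous_id.inner continuous_const).measurable.comp meas_eta).pow_const 2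

private theorem eta_sq_le {n : ℕ} (X : Fin (n + 1) → V) {w : V} (hw : ‖w‖ = 1) : ⟪eta X, w⟫ ^ 2 ≤ 1 := by
  have h1 : |⟪eta X, w⟫| ≤ 1 := by
    calc |⟪eta X, w⟫| ≤ ‖eta X‖ * ‖w‖ := abs_real_inner_le_norm _ _
      _ ≤ 1 * 1 := mul_le_mul (norm_nrm_le _) hw.le (norm_nonneg _) zero_le_one
      _ = 1 := one_mul 1
  rw [← sq_abs]
  exact pow_le_one₀ (abs_nonneg _) h1

private theorem meas_tail_sW {n : ℕ} {ρ : Measure V} (hρ : US ρ) :
    Measurable (fun X : Fin (n + 1) → V => sW ρ (oc (Fin.tail X))) := by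
  haveI := hρ.prob
  exact (meas_sW ρ).comp meas_tail

private theorem gW_bd {ρ : Measure V} (hρ : US ρ) (W : Submodule ℝ V) : 0 ≤ gW ρ W ∧ gW ρ W ≤ 1 := by
  haveI := hρ.prob
  constructor
  · exact integral_nonneg fun _ => norm_nonneg _
  · have h : ∫ x, ‖W.starProjection x‖ ∂ρ ≤ ∫ _x, (1 : ℝ) ∂ρ := by
      refine integral_mono_of_nonneg (Filter.Eventually.of_forall fun _ => norm_nonneg _)
        (integrable_const _) ?_
      filter_upwards [hρ.unit] with x hx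
      calc ‖W.starProjection x‖ ≤ ‖x‖ := W.norm_starProjection_apply_le x
        _ = 1 := hx
    simpa [gW] using h

private theorem vpos {n : ℕ} {M : ℝ} (hP : Par (Module.finrank ℝ V) (n + 1) M) {ρ : Measure V}
    (hv : 1 ≤ M * vv (n + 1) ρ) : 0 < vv (n + 1) ρ := by
  have hM := hP.one
  by_contra hcon
  push Not at hcon
  nlinarith

private theorem nrm_id (y w : V) : ‖y‖ * ⟪nrm y, w⟫ ^ 2 = ⟪w, y⟫ ^ 2 / ‖y‖ := by
  unfold nrm
  rw [real_inner_smul_left, real_inner_comm]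
  by_cases h : ‖y‖ = 0
  · rw [h]; simp
  · field_simp

private theorem le_norm (y : V) {w : V} (hw : ‖w‖ = 1) : ‖y‖ * ⟪nrm y, w⟫ ^ 2 ≤ ‖y‖ := by
  have h1 : |⟪nrm y, w⟫| ≤ 1 := by
    calc |⟪nrm y, w⟫| ≤ ‖nrm y‖ * ‖w‖ := abs_real_inner_le_norm _ _
      _ ≤ 1 * 1 := mul_le_mul (norm_nrm_le _) hw.le (norm_nonneg _) zero_le_one
      _ = 1 := one_mul 1
  have h2 : ⟪nrm y, w⟫ ^ 2 ≤ 1 := by
    rw [← sq_abs]
    exact pow_le_one₀ (abs_nonneg _) h1
  nlinarith [norm_nonneg y]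

/-- (T) for the tail. -/
private theorem low_tail {n : ℕ} {M : ℝ} (hP : Par (Module.finrank ℝ V) (n + 1) M) {ρ : Measure V}
    (hN : Nice (n + 1) M ρ) (hj : 0 < en (n + 1) ρ) (hv : 1 ≤ M * vv (n + 1) ρ) :
    iw (n + 1) ρ ({X : Fin (n + 1) → V | sW ρ (oc (Fin.tail X)) < vv (n + 1) ρ / 2}.indicator (fun _ => (1 : ℝ))) ≤
      pz (Module.finrank ℝ V) * en (n + 1) ρ := by
  haveI := hN.us.prob
  have hk := k_pos hP
  refine le_trans ?_ (low_s hP hN hj hv)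
  have hb : ∀ (S : Set (Fin (n + 1) → V)) (X : Fin (n + 1) → V), |S.indicator (fun _ => (1 : ℝ)) X| ≤ 1 := by
    intro S X
    by_cases h : X ∈ S
    · rw [indicator_of_mem h]; simp
    · rw [indicator_of_notMem h]; simp
  refine iw_mono hN.us ?_ ?_ (hb _) (hb _) fun X _ _ => ?_
  · exact measurable_const.indicator (measurableSet_lt (meas_tail_sW hN.us) measurable_const)
  · exact measurable_const.indicator (measurableSet_lt (meas_sW ρ) measurable_const)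
  · refine indicator_le_indicator_of_subset ?_ (fun _ => zero_le_one) X
    intro Y hY
    have h1 := (s_tail hP hN Y).1
    have h2 : 0 < 1 / ((Module.finrank ℝ V : ℝ) - ((n + 1 : ℕ) : ℝ)) := by positivity
    simp only [mem_setOf_eq] at hY ⊢
    linarith

/-- the mean of `⟪η, w⟫²`. -/
private theorem iw_eta {n : ℕ} {M : ℝ} (hP : Par (Module.finrank ℝ V) (n + 1) M) {ρ : Measure V}
    (hN : Nice (n + 1) M ρ) (hj : 0 < en (n + 1) ρ) (hv : 1 ≤ M * vv (n + 1) ρ) {w : V} (hw : ‖w‖ = 1) :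
    iw (n + 1) ρ (fun X => ⟪eta X, w⟫ ^ 2) ≤
      (6 * M ^ 3 / (Module.finrank ℝ V : ℝ) + pz (Module.finrank ℝ V)) * en (n + 1) ρ := by
  haveI := hN.us.prob
  have hd := hP.d_pos
  have hk := k_pos hP
  have hM := hP.one
  have hv0 := vpos hP hv
  set v := vv (n + 1) ρ with hvdef
  set S : Set (Fin (n + 1) → V) := {X | sW ρ (oc (Fin.tail X)) < v / 2} with hS
  have hSm : MeasurableSet S := measurableSet_lt (meas_tail_sW hN.us) measurable_const
  have hSb : ∀ X, |S.indicator (fun _ => (1 : ℝ)) X| ≤ 1 := by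
    intro X
    by_cases h : X ∈ S
    · rw [indicator_of_mem h]; simp
    · rw [indicator_of_notMem h]; simp
  have hd3 : 0 ≤ 6 * M ^ 3 / (Module.finrank ℝ V : ℝ) := by positivity
  have hmg : Measurable (fun X : Fin n → V => gW ρ (oc X)) := meas_gW ρ
  -- the second comparison term
  have e1 : iw (n + 1) ρ (S.indicator (fun _ => (1 : ℝ))) =
      iw n ρ (fun X => ({X : Fin n → V | sW ρ (oc X) < v / 2}.indicator (fun X => gW ρ (oc X))) X) := by
    rw [iw_succ hN.us (measurable_const.indicator hSm) hSb]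
    refine iw_congr hN.us fun X _ _ => ?_
    by_cases h : sW ρ (oc X) < v / 2
    · rw [indicator_of_mem (show X ∈ {X : Fin n → V | sW ρ (oc X) < v / 2} from h)]
      refine integral_congr_ae (Filter.Eventually.of_forall fun x => ?_)
      show ‖rv X x‖ * S.indicator (fun _ => (1 : ℝ)) (Fin.cons x X) = ‖(oc X).starProjection x‖
      rw [indicator_of_mem (show (Fin.cons x X : Fin (n + 1) → V) ∈ S by
        rw [hS, mem_setOf_eq, Fin.tail_cons]; exact h), mul_one, rv_eq]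
    · rw [indicator_of_notMem (show X ∉ {X : Fin n → V | sW ρ (oc X) < v / 2} from h)]
      have : ∀ x : V, ‖rv X x‖ * S.indicator (fun _ => (1 : ℝ)) (Fin.cons x X) = 0 := fun x => by
        rw [indicator_of_notMem (show (Fin.cons x X : Fin (n + 1) → V) ∉ S by
          rw [hS, mem_setOf_eq, Fin.tail_cons]; exact h), mul_zero]
      simp only [this, integral_zero]
  have hmeas : Measurable (fun X : Fin n → V => ∫ x, ‖rv X x‖ * ⟪nrm (rv X x), w⟫ ^ 2 ∂ρ) := by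
    have h2 : Measurable (fun p : (Fin n → V) × V => ‖rv p.1 p.2‖ * ⟪nrm (rv p.1 p.2), w⟫ ^ 2) :=
      meas_rv.norm.mul (((continuous_id.inner continuous_const).measurable.comp
        (measurable_nrm.comp meas_rv)).pow_const 2)
    exact (h2.stronglyMeasurable.integral_prod_right').measurable
  have hint : ∀ X : Fin n → V, Integrable (fun x => ‖rv X x‖ * ⟪nrm (rv X x), w⟫ ^ 2) ρ := fun X => by
    refine int_bdd hN.us ?_ (C := 1) fun x hx => ?_
    · exact ((meas_rv.comp (measurable_const.prodMk measurable_id)).norm.mul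
        (((continuous_id.inner continuous_const).measurable.comp
        (measurable_nrm.comp (meas_rv.comp (measurable_const.prodMk measurable_id)))).pow_const 2)).aestronglyMeasurable
    · rw [Real.norm_eq_abs, abs_of_nonneg (mul_nonneg (norm_nonneg _) (sq_nonneg _))]
      refine (le_norm _ hw).trans ((norm_rv_le X x).trans hx.le)
  have hint2 : ∀ X : Fin n → V, Integrable (fun x => ‖rv X x‖) ρ := fun X => by
    refine int_bdd hN.us ?_ (C := 1) fun x hx => ?_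
    · exact (meas_rv.comp (measurable_const.prodMk measurable_id)).norm.aestronglyMeasurable
    · rw [norm_norm]; exact (norm_rv_le X x).trans hx.le
  have hg : ∀ X : Fin n → V, gW ρ (oc X) = ∫ x, ‖rv X x‖ ∂ρ := fun X => by
    refine integral_congr_ae (Filter.Eventually.of_forall fun x => ?_)
    show ‖(oc X).starProjection x‖ = ‖rv X x‖
    rw [rv_eq]
  have hle : ∀ X : Fin n → V, ∫ x, ‖rv X x‖ * ⟪nrm (rv X x), w⟫ ^ 2 ∂ρ ≤ gW ρ (oc X) := fun X => by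
    rw [hg]
    exact integral_mono (hint X) (hint2 X) fun x => le_norm _ hw
  -- the comparison function
  have hcmp : iw (n + 1) ρ (fun X => ⟪eta X, w⟫ ^ 2) ≤
      iw n ρ (fun X => 6 * M ^ 3 / (Module.finrank ℝ V : ℝ) * gW ρ (oc X) +
        ({X : Fin n → V | sW ρ (oc X) < v / 2}.indicator (fun X => gW ρ (oc X))) X) := by
    rw [iw_succ hN.us (meas_inner_eta w) (C := 1) (fun X => by
      rw [abs_of_nonneg (sq_nonneg _)]; exact eta_sq_le X hw)]
    have e2 : iw n ρ (fun X => ∫ x, ‖rv X x‖ * ⟪eta (Fin.cons x X : Fin (n + 1) → V), w⟫ ^ 2 ∂ρ) =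
        iw n ρ (fun X => ∫ x, ‖rv X x‖ * ⟪nrm (rv X x), w⟫ ^ 2 ∂ρ) := by
      refine iw_congr hN.us fun X _ _ => ?_
      refine integral_congr_ae (Filter.Eventually.of_forall fun x => ?_)
      show ‖rv X x‖ * ⟪eta (Fin.cons x X : Fin (n + 1) → V), w⟫ ^ 2 = _
      unfold eta
      rw [Fin.tail_cons, Fin.cons_zero]
    rw [e2]
    refine iw_mono hN.us hmeas ?_ (C := 1 + 6 * M ^ 3 / (Module.finrank ℝ V : ℝ) + 1) ?_ ?_ fun X _ _ => ?_
    · exact (hmg.const_mul _).add (hmg.indicator (measurableSet_lt (meas_sW ρ) measurable_const))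
    · intro X
      rw [abs_of_nonneg (integral_nonneg fun x => mul_nonneg (norm_nonneg _) (sq_nonneg _))]
      have := hle X
      have := (gW_bd hN.us (oc X)).2
      linarith
    · intro X
      have hb := gW_bd hN.us (oc X)
      have h1 : |({X : Fin n → V | sW ρ (oc X) < v / 2}.indicator (fun X => gW ρ (oc X))) X| ≤ 1 := by
        by_cases h : X ∈ {X : Fin n → V | sW ρ (oc X) < v / 2}
        · rw [indicator_of_mem h, abs_of_nonneg hb.1]; exact hb.2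
        · rw [indicator_of_notMem h]; simp
      have h2 : |6 * M ^ 3 / (Module.finrank ℝ V : ℝ) * gW ρ (oc X)| ≤ 6 * M ^ 3 / (Module.finrank ℝ V : ℝ) := by
        rw [abs_of_nonneg (mul_nonneg hd3 hb.1)]
        exact mul_le_of_le_one_right hd3 hb.2
      refine (abs_add_le _ _).trans ?_
      linarith
    · by_cases h : sW ρ (oc X) < v / 2
      · rw [indicator_of_mem (show X ∈ {X : Fin n → V | sW ρ (oc X) < v / 2} from h)]
        have h1 := hle X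
        have h2 : 0 ≤ 6 * M ^ 3 / (Module.finrank ℝ V : ℝ) * gW ρ (oc X) := mul_nonneg hd3 (gW_bd hN.us _).1
        linarith
      · rw [indicator_of_notMem (show X ∉ {X : Fin n → V | sW ρ (oc X) < v / 2} from h), add_zero]
        push Not at h
        have hs : 1 ≤ 2 * M * sW ρ (oc X) := by nlinarith
        have h1 := two hP hN hs hw
        have h2 := (g_bounds hP hN hs).2.2
        have e3 : ∫ x, ‖rv X x‖ * ⟪nrm (rv X x), w⟫ ^ 2 ∂ρ =
            ∫ x, ⟪w, (oc X).starProjection x⟫ ^ 2 / ‖(oc X).starProjection x‖ ∂ρ := by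
          refine integral_congr_ae (Filter.Eventually.of_forall fun x => ?_)
          show ‖rv X x‖ * ⟪nrm (rv X x), w⟫ ^ 2 = ⟪w, (oc X).starProjection x⟫ ^ 2 / ‖(oc X).starProjection x‖
          rw [nrm_id, rv_eq]
        rw [e3]
        refine h1.trans ?_
        have h3 : 1 ≤ 2 * M * gW ρ (oc X) := by nlinarith
        have h4 : 3 * M ^ 2 / (Module.finrank ℝ V : ℝ) * 1 ≤
            3 * M ^ 2 / (Module.finrank ℝ V : ℝ) * (2 * M * gW ρ (oc X)) :=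
          mul_le_mul_of_nonneg_left h3 (by positivity)
        calc 3 * M ^ 2 / (Module.finrank ℝ V : ℝ) = 3 * M ^ 2 / (Module.finrank ℝ V : ℝ) * 1 := (mul_one _).symm
          _ ≤ _ := h4
          _ = _ := by ring
  refine hcmp.trans ?_
  have hb1 : ∀ X : Fin n → V, |6 * M ^ 3 / (Module.finrank ℝ V : ℝ) * gW ρ (oc X)| ≤
      6 * M ^ 3 / (Module.finrank ℝ V : ℝ) + 1 := fun X => by
    have hb := gW_bd hN.us (oc X)
    rw [abs_of_nonneg (mul_nonneg hd3 hb.1)]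
    have := mul_le_of_le_one_right hd3 hb.2
    linarith
  have hb2 : ∀ X : Fin n → V, |({X : Fin n → V | sW ρ (oc X) < v / 2}.indicator (fun X => gW ρ (oc X))) X| ≤
      6 * M ^ 3 / (Module.finrank ℝ V : ℝ) + 1 := fun X => by
    have hb := gW_bd hN.us (oc X)
    by_cases h : X ∈ {X : Fin n → V | sW ρ (oc X) < v / 2}
    · rw [indicator_of_mem h, abs_of_nonneg hb.1]; linarith [hb.2]
    · rw [indicator_of_notMem h, abs_zero]; linarith
  rw [iw_add hN.us (hmg.const_mul _) (hmg.indicator (measurableSet_lt (meas_sW ρ) measurable_const)) hb1 hb2,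
    iw_mul, ← en_succ hN.us n, ← e1]
  have := low_tail hP hN hj hv
  linarith [this]

private structure BM {n : ℕ} (Φ : (Fin n → V) → ℝ) : Prop where
  m : Measurable Φ
  b : ∃ C : ℝ, ∀ X, |Φ X| ≤ C

private theorem BM.add {n : ℕ} {Φ Ψ : (Fin n → V) → ℝ} (h : BM Φ) (h' : BM Ψ) : BM (fun X => Φ X + Ψ X) := by
  obtain ⟨C, hC⟩ := h.b
  obtain ⟨D, hD⟩ := h'.b
  exact ⟨h.m.add h'.m, C + D, fun X => (abs_add_le _ _).trans (add_le_add (hC X) (hD X))⟩

private theorem BM.cmul {n : ℕ} {Φ : (Fin n → V) → ℝ} (h : BM Φ) (c : ℝ) : BM (fun X => c * Φ X) := by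
  obtain ⟨C, hC⟩ := h.b
  exact ⟨h.m.const_mul c, |c| * C, fun X => by
    rw [abs_mul]; exact mul_le_mul_of_nonneg_left (hC X) (abs_nonneg c)⟩

private theorem BM.cst {n : ℕ} (c : ℝ) : BM (fun _ : Fin n → V => c) := ⟨measurable_const, |c|, fun _ => le_rfl⟩

private theorem iwa {ρ : Measure V} (hρ : US ρ) {n : ℕ} {Φ Ψ : (Fin n → V) → ℝ} (h : BM Φ) (h' : BM Ψ) :
    iw n ρ (fun X => Φ X + Ψ X) = iw n ρ Φ + iw n ρ Ψ := by
  obtain ⟨C, hC⟩ := h.b
  obtain ⟨D, hD⟩ := h'.b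
  exact iw_add hρ h.m h'.m (C := max C D) (fun X => (hC X).trans (le_max_left _ _))
    (fun X => (hD X).trans (le_max_right _ _))

private theorem iwm {ρ : Measure V} (hρ : US ρ) {n : ℕ} {Φ Ψ : (Fin n → V) → ℝ} (h : BM Φ) (h' : BM Ψ)
    (hle : ∀ X, Φ X ≤ Ψ X) : iw n ρ Φ ≤ iw n ρ Ψ := by
  obtain ⟨C, hC⟩ := h.b
  obtain ⟨D, hD⟩ := h'.b
  exact iw_mono hρ h.m h'.m (C := max C D) (fun X => (hC X).trans (le_max_left _ _))
    (fun X => (hD X).trans (le_max_right _ _)) fun X _ _ => hle X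

/-- the difference of the projections. -/
private theorem rv_diff {n : ℕ} (X : Fin (n + 1) → V) (t w : V) :
    ⟪t, rv (Fin.tail X) w⟫ - ⟪t, rv X w⟫ = ⟪eta X, w⟫ * ⟪eta X, t⟫ := by
  have h1 : rv X w = ort (rv (Fin.tail X) (X 0)) (rv (Fin.tail X) w) := by
    conv_lhs => rw [← Fin.cons_self_tail X]
    exact rv_cons _ _ _
  have h2 : ⟪rv (Fin.tail X) (X 0), rv (Fin.tail X) w⟫ = ⟪rv (Fin.tail X) (X 0), w⟫ := by
    have h3 : ⟪rv (Fin.tail X) (X 0), rv (Fin.tail X) w⟫ = ⟪rv (Fin.tail X) (rv (Fin.tail X) (X 0)), w⟫ :=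
      (inner_res (List.ofFn (Fin.tail X)) (rv (Fin.tail X) (X 0)) w).symm
    rw [h3, rv_eq (Fin.tail X) (rv (Fin.tail X) (X 0)), rv_eq (Fin.tail X) (X 0),
      Submodule.starProjection_eq_self_iff.2 (Submodule.starProjection_apply_mem _ _)]
  rw [h1]
  unfold eta nrm ort
  rw [h2]
  set y := rv (Fin.tail X) (X 0) with hy
  rw [inner_sub_right, real_inner_smul_left, real_inner_smul_left, real_inner_smul_right, real_inner_comm y t]
  by_cases h : ‖y‖ = 0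
  · rw [h]; simp
  · field_simp
    ring

private theorem iw_var {n : ℕ} {M : ℝ} (hP : Par (Module.finrank ℝ V) (n + 1) M) {ρ : Measure V}
    (hN : Nice (n + 1) M ρ) (hj : 0 < en (n + 1) ρ) :
    ((Module.finrank ℝ V : ℝ) - ((n + 1 : ℕ) : ℝ)) ^ 2 *
        iw (n + 1) ρ (fun X => (sW ρ (oc X) - vv (n + 1) ρ) ^ 2) ≤
      (Module.finrank ℝ V : ℝ) / 4 * en (n + 1) ρ := by
  have hk := k_pos hP
  have hs := sub1_smul hk.le hN.us hN.n1
  have h := conc_var hN.us hs hj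
  have hm : mW (n + 1) ρ (ENNReal.ofReal ((Module.finrank ℝ V : ℝ) - ((n + 1 : ℕ) : ℝ)) • ρ) =
      ((Module.finrank ℝ V : ℝ) - ((n + 1 : ℕ) : ℝ)) * vv (n + 1) ρ := by
    unfold mW
    have e : iw (n + 1) ρ (fun X => sW (ENNReal.ofReal ((Module.finrank ℝ V : ℝ) - ((n + 1 : ℕ) : ℝ)) • ρ) (oc X)) =
        iw (n + 1) ρ (fun X => ((Module.finrank ℝ V : ℝ) - ((n + 1 : ℕ) : ℝ)) * sW ρ (oc X)) :=
      iw_congr hN.us fun X _ _ => sW_smul hk.le _ _
    rw [e, iw_mul, mean_s hN.us hj hP.hjd]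
    field_simp
  rw [hm] at h
  have e2 : iw (n + 1) ρ (fun X => (sW (ENNReal.ofReal ((Module.finrank ℝ V : ℝ) - ((n + 1 : ℕ) : ℝ)) • ρ) (oc X) -
      ((Module.finrank ℝ V : ℝ) - ((n + 1 : ℕ) : ℝ)) * vv (n + 1) ρ) ^ 2) =
      iw (n + 1) ρ (fun X => ((Module.finrank ℝ V : ℝ) - ((n + 1 : ℕ) : ℝ)) ^ 2 *
        (sW ρ (oc X) - vv (n + 1) ρ) ^ 2) :=
    iw_congr hN.us fun X _ _ => by rw [sW_smul hk.le]; ring
  rw [e2, iw_mul] at h
  refine h.trans ?_
  have h3 : ((n + 1 : ℕ) : ℝ) ≤ (Module.finrank ℝ V : ℝ) := by exact_mod_cast hP.hjd.le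
  have := hj.le
  gcongr

private theorem amgm {x k D : ℝ} (hk : 0 < k) (hD : 0 < D) : x ≤ k / D * x ^ 2 + D / (4 * k) := by
  have h : k / D * x ^ 2 + D / (4 * k) - x = k / D * (x - D / (2 * k)) ^ 2 := by
    field_simp
    ring
  have h2 : 0 ≤ k / D * (x - D / (2 * k)) ^ 2 := by positivity
  linarith

private theorem real1 {k v s s' b b' a D e1 e2 : ℝ} (hk : 0 < k) (hv : 0 < v) (hD : 0 < D) (hs' : v / 2 ≤ s')
    (h1 : s ≤ s') (h2 : k * (s' - s) ≤ 1) (hb' : k * |b'| ≤ 1) (hd : b' - b = e1 * (a * e2)) (ha : 0 ≤ a)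
    (hka : k * a ≤ 1) :
    |b' / s' - 1 / v * b| ≤ 2 / (v ^ 2 * k) * (1 / k + D / (4 * k)) + 2 / (v ^ 2 * k) * (k / D) * (s - v) ^ 2 +
      (1 / (2 * v * k) * e1 ^ 2 + 1 / (2 * v * k) * e2 ^ 2) := by
  have hs0 : 0 < s' := by linarith
  have hsv : |s' - v| ≤ 1 / k + (k / D * (s - v) ^ 2 + D / (4 * k)) := by
    have h3 : s' - s ≤ 1 / k := by rw [le_div_iff₀ hk]; linarith
    have h4 := amgm (x := |s - v|) hk hD
    rw [sq_abs] at h4
    have h5 : |s' - v| ≤ |s' - s| + |s - v| := by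
      calc |s' - v| = |(s' - s) + (s - v)| := by ring_nf
        _ ≤ _ := abs_add_le _ _
    rw [abs_of_nonneg (sub_nonneg.2 h1)] at h5
    linarith
  have hb1 : |b'| ≤ 1 / k := by rw [le_div_iff₀ hk]; linarith
  have ha1 : a ≤ 1 / k := by rw [le_div_iff₀ hk]; linarith
  have e : b' / s' - 1 / v * b = b' * ((v - s') / (s' * v)) + (b' - b) / v := by
    field_simp
    ring
  rw [e]
  have hA : |b' * ((v - s') / (s' * v))| ≤ 2 / (v ^ 2 * k) * (1 / k + (k / D * (s - v) ^ 2 + D / (4 * k))) := by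
    rw [abs_mul, abs_div, abs_sub_comm v s', abs_of_pos (mul_pos hs0 hv)]
    have h6 : |s' - v| / (s' * v) ≤ |s' - v| * (2 / v ^ 2) := by
      rw [div_eq_mul_inv]
      refine mul_le_mul_of_nonneg_left ?_ (abs_nonneg _)
      rw [inv_eq_one_div, div_le_div_iff₀ (mul_pos hs0 hv) (by positivity)]
      nlinarith
    calc |b'| * (|s' - v| / (s' * v)) ≤ 1 / k * (|s' - v| * (2 / v ^ 2)) := by
          refine mul_le_mul hb1 h6 (by positivity) (by positivity)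
      _ = 2 / (v ^ 2 * k) * |s' - v| := by field_simp
      _ ≤ _ := mul_le_mul_of_nonneg_left hsv (by positivity)
  have hB : |(b' - b) / v| ≤ 1 / (2 * v * k) * e1 ^ 2 + 1 / (2 * v * k) * e2 ^ 2 := by
    rw [hd, abs_div, abs_of_pos hv, abs_mul, abs_mul, abs_of_nonneg ha, div_le_iff₀ hv]
    have h7 : |e1| * (a * |e2|) ≤ a * ((e1 ^ 2 + e2 ^ 2) / 2) := by
      have h8 : |e1| * |e2| ≤ (e1 ^ 2 + e2 ^ 2) / 2 := by
        have := sq_nonneg (|e1| - |e2|)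
        have h9 := sq_abs e1
        have h10 := sq_abs e2
        nlinarith
      calc |e1| * (a * |e2|) = a * (|e1| * |e2|) := by ring
        _ ≤ _ := mul_le_mul_of_nonneg_left h8 ha
    refine h7.trans ?_
    calc a * ((e1 ^ 2 + e2 ^ 2) / 2) ≤ 1 / k * ((e1 ^ 2 + e2 ^ 2) / 2) :=
          mul_le_mul_of_nonneg_right ha1 (by positivity)
      _ = (1 / (2 * v * k) * e1 ^ 2 + 1 / (2 * v * k) * e2 ^ 2) * v := by field_simp
  refine (abs_add_le _ _).trans ?_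
  calc _ ≤ 2 / (v ^ 2 * k) * (1 / k + (k / D * (s - v) ^ 2 + D / (4 * k))) +
        (1 / (2 * v * k) * e1 ^ 2 + 1 / (2 * v * k) * e2 ^ 2) := add_le_add hA hB
    _ = _ := by ring

/-- the final numerical inequality. -/
private theorem real2 {k v d M D e q : ℝ} (hk : 0 < k) (hv : 0 < v) (hD : 2 ≤ D) (hd : d = D ^ 2) (he : 0 < e)
    (hM : 1 ≤ M) (hkd : d ≤ M * k) (hMv : 1 ≤ M * v) (hq0 : 0 ≤ q) (hq : q ≤ 1 / d) {A B C E : ℝ}
    (hA : k ^ 2 * A ≤ d / 4 * e) (hB : B ≤ q * e) (hC : C ≤ (6 * M ^ 3 / d + q) * e)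
    (hE : E ≤ (6 * M ^ 3 / d + q) * e) :
    d * (2 / (v ^ 2 * k) * (1 / k + D / (4 * k)) * e + 2 / (v ^ 2 * k) * (k / D) * A + 1 / (k * v) * B +
      (1 / (2 * v * k) * C + 1 / (2 * v * k) * E)) ≤ 8 * M ^ 5 / D * e := by
  have hD0 : 0 < D := by linarith
  have hd0 : 0 < d := by rw [hd]; positivity
  have hM0 : 0 < M := by linarith
  have hv1 : 1 / v ≤ M := by rw [div_le_iff₀ hv]; linarith
  have hk1 : 1 / k ≤ M / d := by rw [div_le_div_iff₀ hk hd0]; linarith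
  have hvk : 1 / (v * k) ≤ M ^ 2 / d := by
    calc 1 / (v * k) = 1 / v * (1 / k) := by field_simp
      _ ≤ M * (M / d) := mul_le_mul hv1 hk1 (by positivity) hM0.le
      _ = M ^ 2 / d := by ring
  have hvk2 : 1 / (v * k) ^ 2 ≤ M ^ 4 / d ^ 2 := by
    calc 1 / (v * k) ^ 2 = (1 / (v * k)) ^ 2 := by field_simp
      _ ≤ (M ^ 2 / d) ^ 2 := pow_le_pow_left₀ (by positivity) hvk 2
      _ = M ^ 4 / d ^ 2 := by ring
  -- first two terms
  have t2 : 2 / (v ^ 2 * k) * (k / D) * A ≤ 1 / (v * k) ^ 2 * (D / 2 * e) := by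
    have : 2 / (v ^ 2 * k) * (k / D) * A = 1 / (v * k) ^ 2 * (2 / D * (k ^ 2 * A)) := by field_simp
    rw [this]
    refine mul_le_mul_of_nonneg_left ?_ (by positivity)
    calc 2 / D * (k ^ 2 * A) ≤ 2 / D * (d / 4 * e) := mul_le_mul_of_nonneg_left hA (by positivity)
      _ = D / 2 * e := by rw [hd]; field_simp; ring
  have t1 : 2 / (v ^ 2 * k) * (1 / k + D / (4 * k)) * e = 1 / (v * k) ^ 2 * ((2 + D / 2) * e) := by
    field_simp
    ring
  have t12 : 2 / (v ^ 2 * k) * (1 / k + D / (4 * k)) * e + 2 / (v ^ 2 * k) * (k / D) * A ≤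
      M ^ 4 / d ^ 2 * ((2 + D) * e) := by
    rw [t1]
    calc _ ≤ 1 / (v * k) ^ 2 * ((2 + D / 2) * e) + 1 / (v * k) ^ 2 * (D / 2 * e) := by linarith
      _ = 1 / (v * k) ^ 2 * ((2 + D) * e) := by ring
      _ ≤ _ := mul_le_mul_of_nonneg_right hvk2 (by positivity)
  have t3 : 1 / (k * v) * B ≤ M ^ 2 / d * (1 / d * e) := by
    have h1 : B ≤ 1 / d * e := hB.trans (mul_le_mul_of_nonneg_right hq he.le)
    calc 1 / (k * v) * B ≤ 1 / (k * v) * (1 / d * e) := mul_le_mul_of_nonneg_left h1 (by positivity)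
      _ = 1 / (v * k) * (1 / d * e) := by rw [mul_comm k v]
      _ ≤ _ := mul_le_mul_of_nonneg_right hvk (by positivity)
  have t4 : ∀ F : ℝ, F ≤ (6 * M ^ 3 / d + q) * e → 1 / (2 * v * k) * F ≤ M ^ 2 / d * (7 / 2 * M ^ 3 / d * e) := by
    intro F hF
    have h1 : F ≤ 7 * M ^ 3 / d * e := by
      refine hF.trans (mul_le_mul_of_nonneg_right ?_ he.le)
      have h2 : 1 / d ≤ M ^ 3 / d := div_le_div_of_nonneg_right (one_le_pow₀ hM) hd0.le
      calc 6 * M ^ 3 / d + q ≤ 6 * M ^ 3 / d + M ^ 3 / d := by linarith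
        _ = 7 * M ^ 3 / d := by ring
    calc 1 / (2 * v * k) * F ≤ 1 / (2 * v * k) * (7 * M ^ 3 / d * e) := mul_le_mul_of_nonneg_left h1 (by positivity)
      _ = 1 / (v * k) * (7 / 2 * M ^ 3 / d * e) := by field_simp
      _ ≤ _ := mul_le_mul_of_nonneg_right hvk (by positivity)
  have hsum : 2 / (v ^ 2 * k) * (1 / k + D / (4 * k)) * e + 2 / (v ^ 2 * k) * (k / D) * A + 1 / (k * v) * B +
      (1 / (2 * v * k) * C + 1 / (2 * v * k) * E) ≤
      M ^ 4 / d ^ 2 * ((2 + D) * e) + M ^ 2 / d * (1 / d * e) + (M ^ 2 / d * (7 / 2 * M ^ 3 / d * e) +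
        M ^ 2 / d * (7 / 2 * M ^ 3 / d * e)) := by
    have h1 := t4 C hC
    have h2 := t4 E hE
    linarith
  refine (mul_le_mul_of_nonneg_left hsum hd0.le).trans ?_
  have e3 : d * (M ^ 4 / d ^ 2 * ((2 + D) * e) + M ^ 2 / d * (1 / d * e) + (M ^ 2 / d * (7 / 2 * M ^ 3 / d * e) +
        M ^ 2 / d * (7 / 2 * M ^ 3 / d * e))) = (M ^ 4 * (2 + D) + M ^ 2 + 7 * M ^ 5) / d * e := by
    field_simp
    ring
  rw [e3]
  refine mul_le_mul_of_nonneg_right ?_ he.le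
  rw [hd, div_le_div_iff₀ (by positivity) hD0]
  have h45 : M ^ 4 ≤ M ^ 5 := pow_le_pow_right₀ hM (by norm_num)
  have h25 : M ^ 2 ≤ M ^ 5 := pow_le_pow_right₀ hM (by norm_num)
  have hM5 : 0 < M ^ 5 := by positivity
  have h6 : M ^ 4 * (2 + D) + M ^ 2 + 7 * M ^ 5 ≤ 8 * M ^ 5 * D := by nlinarith
  nlinarith [mul_le_mul_of_nonneg_right h6 hD0.le, mul_pos hM5 hD0]

theorem ni_second {n : ℕ} {M : ℝ} (hP : Par (Module.finrank ℝ V) (n + 1) M) {ρ : Measure V} (hN : Nice (n + 1) M ρ)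
    (hj : 0 < en (n + 1) ρ) (hv : 1 ≤ M * vv (n + 1) ρ) {u w : V} (hu : ‖u‖ = 1) (hw : ‖w‖ = 1) :
    |((n : ℝ) + 1) * iw (n + 1) ρ ({X | vv (n + 1) ρ / 2 ≤ sW ρ (oc (Fin.tail X))}.indicator
          (fun X => ⟪Tv ρ u, rv (Fin.tail X) w⟫ / sW ρ (oc (Fin.tail X)))) -
        ((n : ℝ) + 1) / vv (n + 1) ρ * iw (n + 1) ρ (fun X => ⟪Tv ρ u, rv X w⟫)| ≤
      8 * M ^ 5 / √(Module.finrank ℝ V : ℝ) * en (n + 1) ρ := by
  haveI := hN.us.prob
  have hk := k_pos hP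
  have hv0 := vpos hP hv
  have hd0 := hP.d_pos
  have hM := hP.one
  obtain ⟨t, a, ht, hT, ha, hka⟩ := exists_t hP hN hu
  have hTn := norm_Tv hP hN hu
  set k : ℝ := (Module.finrank ℝ V : ℝ) - ((n + 1 : ℕ) : ℝ) with hkdef
  set v := vv (n + 1) ρ with hvdef
  set D := √(Module.finrank ℝ V : ℝ) with hDdef
  have hD2 : 2 ≤ D := by
    have h1 := hP.big
    have h2 : (1 : ℝ) ≤ M ^ 10 := one_le_pow₀ hM
    have h3 : (10 : ℝ) ^ 20 * M ^ 10 ≤ D := h1
    nlinarith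
  have hDd : (Module.finrank ℝ V : ℝ) = D ^ 2 := (Real.sq_sqrt hd0.le).symm
  have hD0 : 0 < D := by linarith
  set G : (Fin (n + 1) → V) → ℝ := {X | v / 2 ≤ sW ρ (oc (Fin.tail X))}.indicator
          (fun X => ⟪Tv ρ u, rv (Fin.tail X) w⟫ / sW ρ (oc (Fin.tail X))) with hG
  set S : Set (Fin (n + 1) → V) := {X | sW ρ (oc (Fin.tail X)) < v / 2} with hS
  have hbT : ∀ {m : ℕ} (X : Fin m → V), k * |⟪Tv ρ u, rv X w⟫| ≤ 1 := fun X => by
    have h1 : |⟪Tv ρ u, rv X w⟫| ≤ ‖Tv ρ u‖ := by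
      calc |⟪Tv ρ u, rv X w⟫| ≤ ‖Tv ρ u‖ * ‖rv X w‖ := abs_real_inner_le_norm _ _
        _ ≤ ‖Tv ρ u‖ * 1 := mul_le_mul_of_nonneg_left ((norm_rv_le X w).trans hw.le) (norm_nonneg _)
        _ = ‖Tv ρ u‖ := mul_one _
    exact (mul_le_mul_of_nonneg_left h1 hk.le).trans hTn
  have hbT' : ∀ {m : ℕ} (X : Fin m → V), |⟪Tv ρ u, rv X w⟫| ≤ 1 / k := fun X => by
    rw [le_div_iff₀ hk, mul_comm]; exact hbT X
  have hmr : ∀ m : ℕ, Measurable (fun X : Fin m → V => rv X w) := fun m =>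
    meas_rv.comp (measurable_id.prodMk measurable_const)
  -- measurability and boundedness
  have bβ : BM (fun X : Fin (n + 1) → V => ⟪Tv ρ u, rv X w⟫) :=
    ⟨(continuous_const.inner continuous_id).measurable.comp (hmr _), 1 / k, hbT'⟩
  have bG : BM G := by
    constructor
    · exact Measurable.indicator (((continuous_const.inner continuous_id).measurable.comp
        ((hmr n).comp meas_tail)).div (meas_tail_sW hN.us))
        (measurableSet_le measurable_const (meas_tail_sW hN.us))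
    · refine ⟨1 / k * (2 / v), fun X => ?_⟩
      by_cases h : X ∈ {X : Fin (n + 1) → V | v / 2 ≤ sW ρ (oc (Fin.tail X))}
      · rw [hG, indicator_of_mem h]
        have h' : v / 2 ≤ sW ρ (oc (Fin.tail X)) := h
        have h0 : 0 < sW ρ (oc (Fin.tail X)) := by linarith
        rw [abs_div, abs_of_pos h0, div_eq_mul_inv]
        refine mul_le_mul (hbT' _) ?_ (by positivity) (by positivity)
        rw [inv_eq_one_div, div_le_div_iff₀ h0 hv0]
        linarith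
      · rw [hG, indicator_of_notMem h, abs_zero]; positivity
  have b1 : BM (fun X : Fin (n + 1) → V => (sW ρ (oc X) - v) ^ 2) := by
    refine ⟨((meas_sW ρ).sub_const v).pow_const 2, (1 + |v|) ^ 2, fun X => ?_⟩
    rw [abs_of_nonneg (sq_nonneg _), ← sq_abs]
    refine pow_le_pow_left₀ (abs_nonneg _) ?_ 2
    refine (abs_sub _ _).trans ?_
    rw [abs_of_nonneg (sW_nonneg ρ _)]
    linarith [sW_le_one hN.us (oc X)]
  have b2 : BM (S.indicator (fun _ => (1 : ℝ))) := by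
    refine ⟨measurable_const.indicator (measurableSet_lt (meas_tail_sW hN.us) measurable_const), 1, fun X => ?_⟩
    by_cases h : X ∈ S
    · rw [indicator_of_mem h]; simp
    · rw [indicator_of_notMem h]; simp
  have b3 : ∀ z : V, ‖z‖ = 1 → BM (fun X : Fin (n + 1) → V => ⟪eta X, z⟫ ^ 2) := fun z hz =>
    ⟨meas_inner_eta z, 1, fun X => by rw [abs_of_nonneg (sq_nonneg _)]; exact eta_sq_le X hz⟩
  -- the error function
  set E : (Fin (n + 1) → V) → ℝ := fun X => (2 / (v ^ 2 * k) * (1 / k + D / (4 * k)) +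
    2 / (v ^ 2 * k) * (k / D) * (sW ρ (oc X) - v) ^ 2 + 1 / (k * v) * S.indicator (fun _ => (1 : ℝ)) X) +
      (1 / (2 * v * k) * ⟪eta X, w⟫ ^ 2 + 1 / (2 * v * k) * ⟪eta X, t⟫ ^ 2) with hE
  have bA := (BM.cst (n := n + 1) (V := V) (2 / (v ^ 2 * k) * (1 / k + D / (4 * k)))).add
    (b1.cmul (2 / (v ^ 2 * k) * (k / D)))
  have bA2 := bA.add (b2.cmul (1 / (k * v)))
  have bB := ((b3 w hw).cmul (1 / (2 * v * k))).add ((b3 t ht).cmul (1 / (2 * v * k)))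
  have bE : BM E := bA2.add bB
  have hpt : ∀ X, |G X - 1 / v * ⟪Tv ρ u, rv X w⟫| ≤ E X := by
    intro X
    have hst := s_tail hP hN X
    have hdiff : ⟪Tv ρ u, rv (Fin.tail X) w⟫ - ⟪Tv ρ u, rv X w⟫ = ⟪eta X, w⟫ * (a * ⟪eta X, t⟫) := by
      rw [rv_diff, hT, inner_smul_right]
    by_cases h : v / 2 ≤ sW ρ (oc (Fin.tail X))
    · have hnS : X ∉ S := fun hS' => absurd h (not_le.2 hS')
      have h1 := real1 (b := ⟪Tv ρ u, rv X w⟫) hk hv0 hD0 h hst.1 hst.2 (hbT (Fin.tail X)) hdiff ha hka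
      rw [hG, indicator_of_mem (show X ∈ {X : Fin (n + 1) → V | v / 2 ≤ sW ρ (oc (Fin.tail X))} from h), hE]
      simp only [indicator_of_notMem hnS, mul_zero, add_zero]
      exact h1
    · have hS' : X ∈ S := not_le.1 h
      rw [hG, indicator_of_notMem (show X ∉ {X : Fin (n + 1) → V | v / 2 ≤ sW ρ (oc (Fin.tail X))} from h), hE]
      simp only [indicator_of_mem hS', mul_one, zero_sub, abs_neg]
      have h1 : |1 / v * ⟪Tv ρ u, rv X w⟫| ≤ 1 / (k * v) := by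
        rw [abs_mul, abs_of_pos (by positivity : (0 : ℝ) < 1 / v)]
        calc 1 / v * |⟪Tv ρ u, rv X w⟫| ≤ 1 / v * (1 / k) :=
              mul_le_mul_of_nonneg_left (hbT' X) (by positivity)
          _ = 1 / (k * v) := by field_simp
      have h2 : 0 ≤ 2 / (v ^ 2 * k) * (1 / k + D / (4 * k)) := by positivity
      have h3 : 0 ≤ 2 / (v ^ 2 * k) * (k / D) * (sW ρ (oc X) - v) ^ 2 := by positivity
      have h4 : 0 ≤ 1 / (2 * v * k) * ⟪eta X, w⟫ ^ 2 := by positivity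
      have h5 : 0 ≤ 1 / (2 * v * k) * ⟪eta X, t⟫ ^ 2 := by positivity
      linarith
  -- integrate
  have iE : iw (n + 1) ρ E = 2 / (v ^ 2 * k) * (1 / k + D / (4 * k)) * en (n + 1) ρ +
      2 / (v ^ 2 * k) * (k / D) * iw (n + 1) ρ (fun X => (sW ρ (oc X) - v) ^ 2) +
      1 / (k * v) * iw (n + 1) ρ (S.indicator (fun _ => (1 : ℝ))) +
      (1 / (2 * v * k) * iw (n + 1) ρ (fun X => ⟪eta X, w⟫ ^ 2) +
        1 / (2 * v * k) * iw (n + 1) ρ (fun X => ⟪eta X, t⟫ ^ 2)) := by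
    rw [hE, iwa hN.us bA2 bB, iwa hN.us bA (b2.cmul _), iwa hN.us (BM.cst _) (b1.cmul _), iw_const, iw_mul, iw_mul,
      iwa hN.us ((b3 w hw).cmul _) ((b3 t ht).cmul _), iw_mul, iw_mul]
  have hup : iw (n + 1) ρ G ≤ 1 / v * iw (n + 1) ρ (fun X => ⟪Tv ρ u, rv X w⟫) + iw (n + 1) ρ E := by
    rw [← iw_mul, ← iwa hN.us (bβ.cmul _) bE]
    exact iwm hN.us bG ((bβ.cmul _).add bE) fun X => by
      have := (abs_le.1 (hpt X)).2
      linarith
  have hlo : 1 / v * iw (n + 1) ρ (fun X => ⟪Tv ρ u, rv X w⟫) ≤ iw (n + 1) ρ G + iw (n + 1) ρ E := by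
    rw [← iw_mul, ← iwa hN.us bG bE]
    exact iwm hN.us (bβ.cmul _) (bG.add bE) fun X => by
      have := (abs_le.1 (hpt X)).1
      linarith
  have habs : |iw (n + 1) ρ G - 1 / v * iw (n + 1) ρ (fun X => ⟪Tv ρ u, rv X w⟫)| ≤ iw (n + 1) ρ E := by
    rw [abs_le]; constructor <;> linarith
  have hn1 : (0 : ℝ) ≤ (n : ℝ) + 1 := by positivity
  have hnd : (n : ℝ) + 1 ≤ (Module.finrank ℝ V : ℝ) := by
    have : n + 1 ≤ Module.finrank ℝ V := hP.hjd.le
    exact_mod_cast this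
  have hEn : 0 ≤ iw (n + 1) ρ E := (abs_nonneg _).trans habs
  have e1 : ((n : ℝ) + 1) * iw (n + 1) ρ G - ((n : ℝ) + 1) / v * iw (n + 1) ρ (fun X => ⟪Tv ρ u, rv X w⟫) =
      ((n : ℝ) + 1) * (iw (n + 1) ρ G - 1 / v * iw (n + 1) ρ (fun X => ⟪Tv ρ u, rv X w⟫)) := by ring
  rw [e1, abs_mul, abs_of_nonneg hn1]
  refine (mul_le_mul hnd habs (abs_nonneg _) hd0.le).trans ?_
  rw [iE]
  have hkd : (Module.finrank ℝ V : ℝ) ≤ M * k := hP.hM
  have hq0 : 0 ≤ pz (Module.finrank ℝ V) := by unfold pz; positivity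
  have hq : pz (Module.finrank ℝ V) ≤ 1 / (Module.finrank ℝ V : ℝ) := by
    unfold pz
    rw [inv_eq_one_div]
    refine one_div_le_one_div_of_le hd0 ?_
    have h1 : (1 : ℝ) ≤ (Module.finrank ℝ V : ℝ) := by rw [hDd]; nlinarith
    calc (Module.finrank ℝ V : ℝ) = (Module.finrank ℝ V : ℝ) ^ 1 := (pow_one _).symm
      _ ≤ (Module.finrank ℝ V : ℝ) ^ 10 := pow_le_pow_right₀ h1 (by norm_num)
  exact real2 hk hv0 hD2 hDd hj hM hkd hv hq0 hq (iw_var hP hN hj) (low_tail hP hN hj hv)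
    (iw_eta hP hN hj hv hw) (iw_eta hP hN hj hv ht)

/-- the leave-one-out equation. -/
theorem ni_main {j : ℕ} {M : ℝ} (hP : Par (Module.finrank ℝ V) j M) {ρ : Measure V} (hN : Nice j M ρ)
    (hj : 0 < en j ρ) (hv : 1 ≤ M * vv j ρ) {u w : V} (hu : ‖u‖ = 1) (hw : ‖w‖ = 1) :
    |⟪u, w⟫ - ((Module.finrank ℝ V : ℝ) - j) * ⟪u, Tv (Nop j ρ) w⟫ -
        j * ((Module.finrank ℝ V : ℝ) - j) / vv j ρ * ⟪Tv ρ u, Tv (Nop j ρ) w⟫| ≤
      50 * M ^ 5 / √(Module.finrank ℝ V : ℝ) := by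
  obtain ⟨n, rfl⟩ : ∃ n, j = n + 1 := ⟨j - 1, by have := hP.hj; omega⟩
  have h1 := ni_first hP hN hj hv hu hw
  have h2 := ni_second hP hN hj hv hu hw
  have hU := nop_us hN.us hj hP.hjd
  have hmr : Measurable (fun X : Fin (n + 1) → V => rv X w) := meas_rv.comp (measurable_id.prodMk measurable_const)
  have hb : ∀ X : Fin (n + 1) → V, ‖rv X w‖ ≤ 1 := fun X => (norm_rv_le X w).trans hw.le
  have e0 : ∀ z : V, ((Module.finrank ℝ V : ℝ) - ((n + 1 : ℕ) : ℝ)) * en (n + 1) ρ * ⟪z, Tv (Nop (n + 1) ρ) w⟫ =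
      iw (n + 1) ρ (fun X => ⟪z, rv X w⟫) := fun z => by
    rw [inner_Tv hU]
    have h := nop_inner hN.us hj hP.hjd w z
    rw [h]
    refine iw_congr hN.us fun X _ _ => ?_
    exact real_inner_comm _ _
  have bm : ∀ z : V, BM (fun X : Fin (n + 1) → V => ⟪z, rv X w⟫) := fun z => by
    refine ⟨(continuous_const.inner continuous_id).measurable.comp hmr, ‖z‖, fun X => ?_⟩
    calc |⟪z, rv X w⟫| ≤ ‖z‖ * ‖rv X w‖ := abs_real_inner_le_norm _ _
      _ ≤ ‖z‖ * 1 := mul_le_mul_of_nonneg_left (hb X) (norm_nonneg _)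
      _ = ‖z‖ := mul_one _
  have e1 : iw (n + 1) ρ (fun X => ⟪u, w - rv X w⟫) =
      ⟪u, w⟫ * en (n + 1) ρ - iw (n + 1) ρ (fun X => ⟪u, rv X w⟫) := by
    have h3 : iw (n + 1) ρ (fun X => ⟪u, w - rv X w⟫) =
        iw (n + 1) ρ (fun X => ⟪u, w⟫ + (-1) * ⟪u, rv X w⟫) :=
      iw_congr hN.us fun X _ _ => by rw [inner_sub_right]; ring
    rw [h3, iwa hN.us (BM.cst _) ((bm u).cmul (-1)), iw_const, iw_mul]
    ring
  rw [e1, ← e0 u] at h1
  rw [← e0 (Tv ρ u)] at h2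
  have h3 := (abs_add_le _ _).trans (add_le_add h1 h2)
  have e2 : ∀ x : ℝ, ⟪u, w⟫ * en (n + 1) ρ -
      ((Module.finrank ℝ V : ℝ) - ((n + 1 : ℕ) : ℝ)) * en (n + 1) ρ * ⟪u, Tv (Nop (n + 1) ρ) w⟫ - x +
      (x - ((n : ℝ) + 1) / vv (n + 1) ρ * (((Module.finrank ℝ V : ℝ) - ((n + 1 : ℕ) : ℝ)) * en (n + 1) ρ *
        ⟪Tv ρ u, Tv (Nop (n + 1) ρ) w⟫)) =
      en (n + 1) ρ * (⟪u, w⟫ - ((Module.finrank ℝ V : ℝ) - ((n + 1 : ℕ) : ℝ)) * ⟪u, Tv (Nop (n + 1) ρ) w⟫ -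
        ((n + 1 : ℕ) : ℝ) * ((Module.finrank ℝ V : ℝ) - ((n + 1 : ℕ) : ℝ)) / vv (n + 1) ρ *
          ⟪Tv ρ u, Tv (Nop (n + 1) ρ) w⟫) := fun x => by
    push_cast
    ring
  rw [e2, abs_mul, abs_of_pos hj] at h3
  have e3 : 42 * M ^ 5 / √(Module.finrank ℝ V : ℝ) * en (n + 1) ρ +
      8 * M ^ 5 / √(Module.finrank ℝ V : ℝ) * en (n + 1) ρ =
      en (n + 1) ρ * (50 * M ^ 5 / √(Module.finrank ℝ V : ℝ)) := by ring
  rw [e3] at h3
  exact le_of_mul_le_mul_left h3 hj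

end Pool.Agent.PBL
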