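import Pool.Agent.PBL.Defs
import Pool.Agent.HP89.A3a
import Pool.Agent.FI75.M1
import Pool.Agent.PBL.E5

/-! Module PBL-E6 (what the support function determines): the function `hf ρ` determines the factor,
the second moments of `ρ` and the gradient `Gr ρ`. -/

set_option autoImplicit false

namespace Pool.Agent.PBL
open MeasureTheory ProbabilityTheory Set Filter Topology Metric
open Pool.Agent.HP89 Pool.Agent.FI75
open scoped RealInnerProductSpace ENNReal

variable {V : Type*} [NormedAddCommGroup V] [InnerProductSpace ℝ V] [FiniteDimensional ℝ V]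
  [MeasurableSpace V] [BorelSpace V]

section real

private theorem int_abs (n : ℕ) (hn : n ≠ 0) : Integrable (fun s : ℝ => |s| ^ n) (gaussianReal 0 1) := by
  have h := (memLp_id_gaussianReal' (μ := 0) (v := 1) (n : ℝ≥0∞) (by simp)).integrable_norm_pow hn
  simpa using h

end real

private theorem int_norm_pow (n : ℕ) (hn : n ≠ 0) :
    Integrable (fun g : V => ‖g‖ ^ n) (stdGaussian V) := by
  have h := (IsGaussian.memLp_id (stdGaussian V) (n : ℝ≥0∞) (by simp)).integrable_norm_pow hn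
  simpa using h

private theorem kap1 {x : V} (hx : ‖x‖ = 1) :
    ∫ s, |s| ∂(gaussianReal 0 1) = √(2 / Real.pi) := by
  have h1 := integral_abs_inner x
  rw [← map_split hx, integral_map (by
    have : Measurable (ort x : V → V) := by unfold ort; fun_prop
    exact ((by fun_prop : Measurable (fun p : ℝ × V => p.1 • x)).add
      (this.comp measurable_snd)).aemeasurable) (by fun_prop)] at h1
  have h2 : ∀ p : ℝ × V, |⟪x, p.1 • x + ort x p.2⟫| = |p.1| := by
    intro p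
    rw [inner_add_right, inner_ort, real_inner_smul_right, real_inner_self_eq_norm_sq, hx]
    simp
  simp_rw [h2] at h1
  rw [integral_fun_fst] at h1
  simpa [hx] using h1

private theorem kap3 {x : V} (hx : ‖x‖ = 1) :
    ∫ s, |s| ^ 3 ∂(gaussianReal 0 1) ≠ ∫ s, |s| ∂(gaussianReal 0 1) := by
  set k1 := ∫ s, |s| ∂(gaussianReal 0 1) with hk1
  set k3 := ∫ s, |s| ^ 3 ∂(gaussianReal 0 1) with hk3
  have hk : k1 = √(2 / Real.pi) := kap1 hx
  have hpos : 0 < k1 := by rw [hk]; positivity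
  have hlt : k1 < 1 := by
    rw [hk, Real.sqrt_lt' one_pos, div_lt_iff₀ Real.pi_pos]
    have := Real.pi_gt_three
    linarith
  have h2 : ∫ s, |s| ^ 2 ∂(gaussianReal 0 1) = 1 := by
    have hv := variance_fun_id_gaussianReal (μ := 0) (v := 1)
    rw [variance_of_integral_eq_zero (by fun_prop) (by simp)] at hv
    simpa using hv
  have i1 : Integrable (fun s : ℝ => |s|) (gaussianReal 0 1) := by
    simpa using int_abs 1 one_ne_zero
  have i2 := int_abs 2 two_ne_zero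
  have i3 := int_abs 3 three_ne_zero
  have h0 : 0 ≤ ∫ s, |s| * (k1 * |s| - 1) ^ 2 ∂(gaussianReal 0 1) :=
    integral_nonneg fun s => by positivity
  have h4 : ∫ s, |s| * (k1 * |s| - 1) ^ 2 ∂(gaussianReal 0 1) = k1 ^ 2 * k3 - 2 * k1 * 1 + k1 := by
    have e : ∀ s : ℝ, |s| * (k1 * |s| - 1) ^ 2 = k1 ^ 2 * |s| ^ 3 - 2 * k1 * |s| ^ 2 + |s| := by
      intro s
      ring
    simp_rw [e]
    rw [integral_add (f := fun s : ℝ => k1 ^ 2 * |s| ^ 3 - 2 * k1 * |s| ^ 2) (g := fun s : ℝ => |s|)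
      ((i3.const_mul _).sub (i2.const_mul _)) i1, integral_sub (i3.const_mul _) (i2.const_mul _),
      integral_const_mul, integral_const_mul, h2]
  rw [h4] at h0
  intro h5
  rw [h5] at h0
  nlinarith [mul_pos hpos hpos, mul_pos (mul_pos hpos hpos) hpos]

private theorem in_ort (x g u : V) : ⟪ort x g, u⟫ = ⟪g, ort x u⟫ := by
  unfold ort
  rw [inner_sub_left, inner_sub_right, real_inner_smul_left, real_inner_smul_right,
    real_inner_comm g x]
  ring

private theorem int_inner_zero (w : V) : ∫ g, ⟪g, w⟫ ∂(stdGaussian V) = 0 := by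
  have h := integral_inner (𝕜 := ℝ) (IsGaussian.integrable_id (μ := stdGaussian V)) w
  simp only [id_eq, integral_id_stdGaussian, inner_zero_right] at h
  rw [← h]
  congr 1
  ext g
  exact real_inner_comm _ _

private theorem inner_core {x : V} (hx : ‖x‖ = 1) (u : V) :
    ∫ g, |⟪x, g⟫| * ⟪g, u⟫ ^ 2 ∂(stdGaussian V) =
      (∫ s, |s| ^ 3 ∂(gaussianReal 0 1) - ∫ s, |s| ∂(gaussianReal 0 1)) * ⟪x, u⟫ ^ 2 +
        (∫ s, |s| ∂(gaussianReal 0 1)) * ‖u‖ ^ 2 := by
  have hm : Measurable (ort x : V → V) := by unfold ort; fun_prop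
  have hm2 : Measurable (fun p : ℝ × V => p.1 • x + ort x p.2) :=
    (by fun_prop : Measurable (fun p : ℝ × V => p.1 • x)).add (hm.comp measurable_snd)
  conv_lhs => rw [← map_split hx]
  rw [integral_map hm2.aemeasurable (by fun_prop)]
  have h2 : ∀ p : ℝ × V, |⟪x, p.1 • x + ort x p.2⟫| * ⟪p.1 • x + ort x p.2, u⟫ ^ 2 =
      |p.1| ^ 3 * ⟪x, u⟫ ^ 2 + (p.1 * |p.1|) * (2 * ⟪x, u⟫ * ⟪p.2, ort x u⟫) +
        |p.1| * (⟪p.2, ort x u⟫ * ⟪p.2, ort x u⟫) := by
    intro p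
    rw [inner_add_right, inner_ort, real_inner_smul_right, real_inner_self_eq_norm_sq, hx,
      inner_add_left, real_inner_smul_left, in_ort]
    have h3 : |p.1| ^ 3 = |p.1| * p.1 ^ 2 := by
      rw [pow_succ' |p.1| 2, sq_abs]
    rw [h3]
    simp only [one_pow, mul_one, add_zero]
    ring
  simp_rw [h2]
  have i1 : Integrable (fun s : ℝ => |s|) (gaussianReal 0 1) := by
    simpa using int_abs 1 one_ne_zero
  have i2 : Integrable (fun s : ℝ => s * |s|) (gaussianReal 0 1) := by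
    refine (int_abs 2 two_ne_zero).mono' (by fun_prop) (Filter.Eventually.of_forall fun s => ?_)
    rw [Real.norm_eq_abs, abs_mul, abs_abs, sq]
  have i3 := int_abs 3 three_ne_zero
  have j0 : Integrable (fun g : V => (⟪x, u⟫ ^ 2 : ℝ)) (stdGaussian V) := integrable_const _
  have j1 : Integrable (fun g : V => 2 * ⟪x, u⟫ * ⟪g, ort x u⟫) (stdGaussian V) := by
    refine Integrable.const_mul ?_ _
    refine ((integrable_norm_gaussian (V := V)).const_mul ‖ort x u‖).mono' (by fun_prop)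
      (Filter.Eventually.of_forall fun g => ?_)
    rw [Real.norm_eq_abs, mul_comm]
    exact abs_real_inner_le_norm g _
  have j2 : Integrable (fun g : V => ⟪g, ort x u⟫ * ⟪g, ort x u⟫) (stdGaussian V) :=
    integrable_inner_mul _ _
  rw [integral_add (f := fun p : ℝ × V => |p.1| ^ 3 * ⟪x, u⟫ ^ 2 +
      (p.1 * |p.1|) * (2 * ⟪x, u⟫ * ⟪p.2, ort x u⟫))
      (g := fun p : ℝ × V => |p.1| * (⟪p.2, ort x u⟫ * ⟪p.2, ort x u⟫))
      ((i3.mul_prod j0).add (i2.mul_prod j1)) (i1.mul_prod j2),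
    integral_add (i3.mul_prod j0) (i2.mul_prod j1),
    integral_prod_mul (fun s : ℝ => |s| ^ 3) (fun _ : V => (⟪x, u⟫ ^ 2 : ℝ)),
    integral_prod_mul (fun s : ℝ => s * |s|) (fun g : V => 2 * ⟪x, u⟫ * ⟪g, ort x u⟫),
    integral_prod_mul (fun s : ℝ => |s|) (fun g : V => ⟪g, ort x u⟫ * ⟪g, ort x u⟫),
    integral_const_mul, int_inner_zero, integral_inner_mul, real_inner_self_eq_norm_sq,
    norm_ort_sq, hx]
  simp only [integral_const, probReal_univ, smul_eq_mul, one_mul, div_one, mul_zero]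
  ring

private theorem hf_smul (ρ : Measure V) (t : ℝ) (u : V) : hf ρ (t • u) = |t| * hf ρ u := by
  unfold hf
  rw [← integral_const_mul]
  congr 1
  ext x
  rw [real_inner_smul_right, abs_mul]

private theorem hf_all {ρ ρ' : Measure V} {c c' : ℝ}
    (h : ∀ u, ‖u‖ = 1 → c * hf ρ u = c' * hf ρ' u) (g : V) : c * hf ρ g = c' * hf ρ' g := by
  by_cases hg : g = 0
  · subst hg
    simp [hf]
  · have h1 := h (‖g‖⁻¹ • g) (by
      rw [norm_smul, norm_inv, norm_norm, inv_mul_cancel₀ (norm_ne_zero_iff.2 hg)])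
    have h2 : g = ‖g‖ • (‖g‖⁻¹ • g) := by
      rw [smul_smul, mul_inv_cancel₀ (norm_ne_zero_iff.2 hg), one_smul]
    have h3 : hf ρ g = |‖g‖| * hf ρ (‖g‖⁻¹ • g) := by rw [← hf_smul, ← h2]
    have h4 : hf ρ' g = |‖g‖| * hf ρ' (‖g‖⁻¹ • g) := by rw [← hf_smul, ← h2]
    rw [h3, h4, mul_left_comm, h1, mul_left_comm]

private theorem fub {ρ : Measure V} (hρ : US ρ) {φ : V → ℝ} (hm : Measurable φ)
    (hi : Integrable (fun g => ‖g‖ * |φ g|) (stdGaussian V)) :
    ∫ g, hf ρ g * φ g ∂(stdGaussian V) = ∫ x, ∫ g, |⟪x, g⟫| * φ g ∂(stdGaussian V) ∂ρ := by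
  haveI := hρ.prob
  have h1 : ∀ g, hf ρ g * φ g = ∫ x, |⟪x, g⟫| * φ g ∂ρ := by
    intro g
    rw [integral_mul_const]
    rfl
  simp_rw [h1]
  refine integral_integral_swap ?_
  have h2 : Integrable (fun p : V × V => ‖p.1‖ * |φ p.1|) ((stdGaussian V).prod ρ) := hi.comp_fst ρ
  refine h2.mono' ?_ ?_
  · refine Measurable.aestronglyMeasurable ?_
    exact (by fun_prop : Measurable (fun p : V × V => |⟪p.2, p.1⟫|)).mul (hm.comp measurable_fst)
  · filter_upwards [Measure.quasiMeasurePreserving_snd.ae hρ.unit] with p hp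
    show ‖|⟪p.2, p.1⟫| * φ p.1‖ ≤ ‖p.1‖ * |φ p.1|
    rw [Real.norm_eq_abs, abs_mul, abs_abs]
    refine mul_le_mul_of_nonneg_right ?_ (abs_nonneg _)
    have h3 := abs_real_inner_le_norm p.2 p.1
    rwa [hp, one_mul] at h3

/-- two generating probability measures of the same function (up to a factor). -/
theorem hf_det {ρ ρ' : Measure V} (hd : 1 ≤ Module.finrank ℝ V) (hρ : US ρ) (hρ' : US ρ') {c c' : ℝ}
    (h : ∀ u, ‖u‖ = 1 → c * hf ρ u = c' * hf ρ' u) : c = c' := by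
  have key : ∀ ρ : Measure V, US ρ → ∫ g, hf ρ g ∂(stdGaussian V) = √(2 / Real.pi) := by
    intro ρ hρ
    haveI := hρ.prob
    have h1 := fub hρ (φ := fun _ => (1 : ℝ)) measurable_const
      (by simpa using integrable_norm_gaussian (V := V))
    simp only [mul_one] at h1
    rw [h1]
    have h2 : ∀ᵐ x ∂ρ, ∫ g, |⟪x, g⟫| ∂(stdGaussian V) = √(2 / Real.pi) := by
      filter_upwards [hρ.unit] with x hx
      rw [integral_abs_inner, hx, mul_one]
    rw [integral_congr_ae h2]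
    simp
  have h3 : c * ∫ g, hf ρ g ∂(stdGaussian V) = c' * ∫ g, hf ρ' g ∂(stdGaussian V) := by
    rw [← integral_const_mul, ← integral_const_mul]
    exact integral_congr_ae (Filter.Eventually.of_forall fun g => hf_all h g)
  rw [key ρ hρ, key ρ' hρ'] at h3
  exact mul_right_cancel₀ (by positivity) h3

private theorem int_sq {ρ : Measure V} (hρ : US ρ) (u : V) : Integrable (fun x => ⟪x, u⟫ ^ 2) ρ := by
  haveI := hρ.prob
  refine Integrable.mono' (integrable_const (‖u‖ ^ 2)) (by fun_prop) ?_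
  filter_upwards [hρ.unit] with x hx
  rw [Real.norm_eq_abs, abs_pow]
  have h3 := abs_real_inner_le_norm x u
  rw [hx, one_mul] at h3
  exact pow_le_pow_left₀ (abs_nonneg _) h3 2

theorem T_det {ρ ρ' : Measure V} (hρ : US ρ) (hρ' : US ρ') (h : ∀ u, ‖u‖ = 1 → hf ρ u = hf ρ' u) (u : V) :
    ∫ x, ⟪x, u⟫ ^ 2 ∂ρ = ∫ x, ⟪x, u⟫ ^ 2 ∂ρ' := by
  have hall : ∀ g, hf ρ g = hf ρ' g := by
    intro g
    simpa using hf_all (c := 1) (c' := 1) (fun u hu => by simpa using h u hu) g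
  set k1 := ∫ s, |s| ∂(gaussianReal 0 1) with hk1
  set k3 := ∫ s, |s| ^ 3 ∂(gaussianReal 0 1) with hk3
  have key : ∀ ρ : Measure V, US ρ → ∫ g, hf ρ g * ⟪g, u⟫ ^ 2 ∂(stdGaussian V) =
      (k3 - k1) * ∫ x, ⟪x, u⟫ ^ 2 ∂ρ + k1 * ‖u‖ ^ 2 := by
    intro ρ hρ
    haveI := hρ.prob
    rw [fub hρ (φ := fun g => ⟪g, u⟫ ^ 2) (by fun_prop)]
    · have h2 : ∀ᵐ x ∂ρ, ∫ g, |⟪x, g⟫| * ⟪g, u⟫ ^ 2 ∂(stdGaussian V) =
          (k3 - k1) * ⟪x, u⟫ ^ 2 + k1 * ‖u‖ ^ 2 := by
        filter_upwards [hρ.unit] with x hx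
        exact inner_core hx u
      rw [integral_congr_ae h2, integral_add ((int_sq hρ u).const_mul _) (integrable_const _),
        integral_const_mul]
      simp
    · refine ((int_norm_pow (V := V) 3 three_ne_zero).mul_const (‖u‖ ^ 2)).mono' (by fun_prop)
        (Filter.Eventually.of_forall fun g => ?_)
      rw [Real.norm_eq_abs, abs_mul, abs_norm, abs_abs, abs_pow]
      have h3 := abs_real_inner_le_norm g u
      calc ‖g‖ * |⟪g, u⟫| ^ 2 ≤ ‖g‖ * (‖g‖ * ‖u‖) ^ 2 := by gcongr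
        _ = ‖g‖ ^ 3 * ‖u‖ ^ 2 := by ring
  obtain ⟨x, hx⟩ : ∃ x : V, ‖x‖ = 1 := by
    haveI := hρ.prob
    exact hρ.unit.exists
  have hne : k3 - k1 ≠ 0 := sub_ne_zero.2 (kap3 hx)
  have h5 := key ρ hρ
  have h6 := key ρ' hρ'
  simp_rw [hall] at h5
  rw [h6] at h5
  have h7 := add_right_cancel h5
  exact (mul_left_cancel₀ hne h7).symm

private theorem meas_sign : Measurable Real.sign := by
  unfold Real.sign
  exact Measurable.ite measurableSet_Iio measurable_const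
    (Measurable.ite measurableSet_Ioi measurable_const measurable_const)

private theorem abs_sign_le (t : ℝ) : |Real.sign t| ≤ 1 := by
  rcases Real.sign_apply_eq t with h | h | h <;> simp [h]

private theorem lim_sign {ρ : Measure V} (hρ : US ρ) (u v : V) :
    Tendsto (fun n : ℕ => (hf ρ (u + ((n : ℝ) + 1)⁻¹ • v) - hf ρ (u - ((n : ℝ) + 1)⁻¹ • v)) *
      ((n : ℝ) + 1) / 2) atTop (𝓝 ⟪v, Gr ρ u⟫) := by
  haveI := hρ.prob
  have hG : ⟪v, Gr ρ u⟫ = ∫ x, Real.sign ⟪x, u⟫ * ⟪x, v⟫ ∂ρ := by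
    unfold Gr
    rw [← integral_inner]
    · congr 1
      ext x
      rw [real_inner_smul_right, real_inner_comm v x]
    · refine Integrable.mono' (integrable_const (1 : ℝ)) ?_ ?_
      · exact ((meas_sign.comp (by fun_prop : Measurable fun x : V => ⟪x, u⟫)).smul
          measurable_id).aestronglyMeasurable
      · filter_upwards [hρ.unit] with x hx
        rw [norm_smul, hx, mul_one]
        exact abs_sign_le _
  have hint : ∀ w : V, Integrable (fun x => |⟪x, w⟫|) ρ := by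
    intro w
    refine Integrable.mono' (integrable_const ‖w‖) (by fun_prop) ?_
    filter_upwards [hρ.unit] with x hx
    have h3 := abs_real_inner_le_norm x w
    rwa [hx, one_mul, ← abs_abs, ← Real.norm_eq_abs] at h3
  have hE : ∀ n : ℕ, (hf ρ (u + ((n : ℝ) + 1)⁻¹ • v) - hf ρ (u - ((n : ℝ) + 1)⁻¹ • v)) *
      ((n : ℝ) + 1) / 2 = ∫ x, (|⟪x, u⟫ + ((n : ℝ) + 1)⁻¹ * ⟪x, v⟫| -
        |⟪x, u⟫ - ((n : ℝ) + 1)⁻¹ * ⟪x, v⟫|) * (((n : ℝ) + 1) / 2) ∂ρ := by
    intro n
    unfold hf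
    rw [integral_mul_const, mul_div_assoc]
    congr 1
    rw [← integral_sub (hint _) (hint _)]
    congr 1
    ext x
    rw [inner_add_right, inner_sub_right, real_inner_smul_right]
  simp_rw [hE]
  rw [hG]
  refine tendsto_integral_of_dominated_convergence (fun x => |⟪x, v⟫|) ?_ (hint v) ?_ ?_
  · intro n
    fun_prop
  · intro n
    refine Filter.Eventually.of_forall fun x => ?_
    have hn : (0 : ℝ) < (n : ℝ) + 1 := by positivity
    rw [Real.norm_eq_abs, abs_mul, abs_of_pos (show (0 : ℝ) < ((n : ℝ) + 1) / 2 by positivity)]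
    have h1 := abs_abs_sub_abs_le (⟪x, u⟫ + ((n : ℝ) + 1)⁻¹ * ⟪x, v⟫)
      (⟪x, u⟫ - ((n : ℝ) + 1)⁻¹ * ⟪x, v⟫)
    have h2 : ⟪x, u⟫ + ((n : ℝ) + 1)⁻¹ * ⟪x, v⟫ - (⟪x, u⟫ - ((n : ℝ) + 1)⁻¹ * ⟪x, v⟫) =
        2 * ((n : ℝ) + 1)⁻¹ * ⟪x, v⟫ := by ring
    rw [h2, abs_mul, abs_of_pos (show (0 : ℝ) < 2 * ((n : ℝ) + 1)⁻¹ by positivity)] at h1
    calc _ ≤ 2 * ((n : ℝ) + 1)⁻¹ * |⟪x, v⟫| * (((n : ℝ) + 1) / 2) :=
          mul_le_mul_of_nonneg_right h1 (by positivity)
      _ = |⟪x, v⟫| := by field_simp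
  · refine Filter.Eventually.of_forall fun x => ?_
    rcases lt_trichotomy ⟪x, u⟫ 0 with hu | hu | hu
    · refine tendsto_const_nhds.congr' ?_
      have ht : Tendsto (fun n : ℕ => ((n : ℝ) + 1)⁻¹ * |⟪x, v⟫|) atTop (𝓝 (0 * |⟪x, v⟫|)) := by
        refine Tendsto.mul_const _ ?_
        have := tendsto_one_div_add_atTop_nhds_zero_nat (𝕜 := ℝ)
        simpa using this
      rw [zero_mul] at ht
      filter_upwards [ht.eventually (gt_mem_nhds (show (0 : ℝ) < -⟪x, u⟫ by linarith))] with n hn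
      have hp : (0 : ℝ) < ((n : ℝ) + 1)⁻¹ := by positivity
      have h5 : |((n : ℝ) + 1)⁻¹ * ⟪x, v⟫| < -⟪x, u⟫ := by rwa [abs_mul, abs_of_pos hp]
      obtain ⟨h6, h7⟩ := abs_lt.1 h5
      rw [abs_of_neg (by linarith), abs_of_neg (by linarith), Real.sign_of_neg hu]
      field_simp
      ring
    · rw [hu]
      simp
    · refine tendsto_const_nhds.congr' ?_
      have ht : Tendsto (fun n : ℕ => ((n : ℝ) + 1)⁻¹ * |⟪x, v⟫|) atTop (𝓝 (0 * |⟪x, v⟫|)) := by
        refine Tendsto.mul_const _ ?_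
        have := tendsto_one_div_add_atTop_nhds_zero_nat (𝕜 := ℝ)
        simpa using this
      rw [zero_mul] at ht
      filter_upwards [ht.eventually (gt_mem_nhds hu)] with n hn
      have hp : (0 : ℝ) < ((n : ℝ) + 1)⁻¹ := by positivity
      have h5 : |((n : ℝ) + 1)⁻¹ * ⟪x, v⟫| < ⟪x, u⟫ := by rwa [abs_mul, abs_of_pos hp]
      obtain ⟨h6, h7⟩ := abs_lt.1 h5
      rw [abs_of_pos (by linarith), abs_of_pos (by linarith), Real.sign_of_pos hu]
      field_simp
      ring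

theorem Gr_det {ρ ρ' : Measure V} (hρ : US ρ) (hρ' : US ρ') (h : ∀ u, ‖u‖ = 1 → hf ρ u = hf ρ' u) (u : V) :
    Gr ρ u = Gr ρ' u := by
  have hall : ∀ g, hf ρ g = hf ρ' g := by
    intro g
    simpa using hf_all (c := 1) (c' := 1) (fun u hu => by simpa using h u hu) g
  refine ext_inner_left ℝ fun v => ?_
  have h1 := lim_sign hρ u v
  have h2 := lim_sign hρ' u v
  simp_rw [hall] at h1
  exact tendsto_nhds_unique h1 h2

end Pool.Agent.PBL
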