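import Pool.Agent.PBL.E5

/-! Module PBL-E7 (near isotropy from the leave-one-out equation, for a fixed quadratic form). `Tv ρ` is linear and symmetric; let `e_i` be an
orthonormal basis of eigenvectors with eigenvalues `l_i = ∫ ⟪x, e_i⟫² dρ ≥ 0`. Then `∑ l_i = 1`, `vv j ρ = k ∑ l_i² ≥ k/d ≥ 1/M` (Cauchy-Schwarz), and
`ni_main` with `u = w = e_i` gives `|1 - k l_i - (j k/v) l_i²| ≤ 50 M^5/√d`. Subtracting two of these equations,
`k |l_i - l_m| ≤ 100 M^5/√d`; the mean of the `l_i` is `1/d`, so `|d l_i - 1| ≤ 100 M^6/√d`, and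
`∫ ⟪x, u⟫² dρ = ∑ l_i ⟪e_i, u⟫²`. -/

set_option autoImplicit false

namespace Pool.Agent.PBL
open MeasureTheory ProbabilityTheory Set Filter Topology Metric
open Pool.Agent.HP89 Pool.Agent.FI75
open scoped RealInnerProductSpace ENNReal

variable {V : Type*} [NormedAddCommGroup V] [InnerProductSpace ℝ V] [FiniteDimensional ℝ V]
  [MeasurableSpace V] [BorelSpace V]

private theorem integ2 {ρ : Measure V} (hρ : US ρ) (u w : V) : Integrable (fun x : V => ⟪x, u⟫ * ⟪x, w⟫) ρ := by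
  haveI := hρ.prob
  refine Integrable.of_bound (C := ‖u‖ * ‖w‖) ?_ ?_
  · exact (Continuous.aestronglyMeasurable (by fun_prop))
  · filter_upwards [hρ.unit] with x hx
    rw [norm_mul]
    have h1 : ‖(⟪x, u⟫ : ℝ)‖ ≤ ‖u‖ := by
      simpa [hx] using norm_inner_le_norm (𝕜 := ℝ) x u
    have h2 : ‖(⟪x, w⟫ : ℝ)‖ ≤ ‖w‖ := by
      simpa [hx] using norm_inner_le_norm (𝕜 := ℝ) x w
    exact mul_le_mul h1 h2 (norm_nonneg _) (norm_nonneg _)

private noncomputable def TL (ρ : Measure V) (hρ : US ρ) : V →ₗ[ℝ] V where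
  toFun := Tv ρ
  map_add' := by
    intro u w
    refine ext_inner_left ℝ fun z => ?_
    rw [inner_add_right, inner_Tv hρ, inner_Tv hρ, inner_Tv hρ, ← integral_add (integ2 hρ _ _) (integ2 hρ _ _)]
    congr 1; ext x
    rw [inner_add_right]; ring
  map_smul' := by
    intro c u
    refine ext_inner_left ℝ fun z => ?_
    rw [RingHom.id_apply, inner_smul_right, inner_Tv hρ, inner_Tv hρ, ← integral_const_mul]
    congr 1; ext x
    rw [inner_smul_right]; ring

private theorem spectral {ρ : Measure V} (hρ : US ρ) :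
    ∃ (e : OrthonormalBasis (Fin (Module.finrank ℝ V)) ℝ V) (l : Fin (Module.finrank ℝ V) → ℝ),
      (∀ i, Tv ρ (e i) = l i • e i) ∧ (∀ i, ∫ x, ⟪x, e i⟫ ^ 2 ∂ρ = l i) ∧ (∀ i, 0 ≤ l i) ∧ ∑ i, l i = 1 ∧
      ∀ u, ∫ x, ⟪x, u⟫ ^ 2 ∂ρ = ∑ i, l i * ⟪e i, u⟫ ^ 2 := by
  haveI := hρ.prob
  have hsym : (TL ρ hρ).IsSymmetric := by
    intro u w
    rw [real_inner_comm]
    show ⟪w, Tv ρ u⟫ = ⟪u, Tv ρ w⟫
    rw [inner_Tv hρ, inner_Tv hρ]; congr 1; ext x; ring
  have hT : ∀ i, Tv ρ (hsym.eigenvectorBasis rfl i) = hsym.eigenvalues rfl i • hsym.eigenvectorBasis rfl i :=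
    fun i => hsym.apply_eigenvectorBasis rfl i
  generalize hsym.eigenvectorBasis rfl = e at hT
  generalize hsym.eigenvalues rfl = l at hT
  have hq : ∀ u : V, ∫ x, ⟪x, u⟫ ^ 2 ∂ρ = ⟪u, Tv ρ u⟫ := by
    intro u
    rw [inner_Tv hρ]
    congr 1; ext x; ring
  have h1 : ∀ i, ∫ x, ⟪x, e i⟫ ^ 2 ∂ρ = l i := by
    intro i
    rw [hq, hT, inner_smul_right, real_inner_self_eq_norm_sq, e.norm_eq_one]
    ring
  refine ⟨e, l, hT, h1, ?_, ?_, ?_⟩
  · intro i
    rw [← h1]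
    exact integral_nonneg fun x => sq_nonneg _
  · have h2 : ∑ i, l i = ∫ x, ∑ i, ⟪x, e i⟫ ^ 2 ∂ρ := by
      rw [integral_finsetSum]
      · exact Finset.sum_congr rfl fun i _ => (h1 i).symm
      · intro i _
        have := integ2 hρ (e i) (e i)
        refine this.congr (Eventually.of_forall fun x => ?_)
        ring
    rw [h2]
    have h3 : (fun x : V => ∑ i, ⟪x, e i⟫ ^ 2) =ᵐ[ρ] fun _ => (1 : ℝ) := by
      filter_upwards [hρ.unit] with x hx
      have h4 := e.sum_inner_mul_inner x x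
      rw [real_inner_self_eq_norm_sq, hx] at h4
      rw [show (1 : ℝ) = 1 ^ 2 by norm_num, ← h4]
      refine Finset.sum_congr rfl fun i _ => ?_
      rw [real_inner_comm x (e i)]
      ring
    rw [integral_congr_ae h3]
    simp
  · intro u
    rw [hq, ← e.sum_inner_mul_inner u (Tv ρ u)]
    refine Finset.sum_congr rfl fun i _ => ?_
    have h5 : ⟪e i, Tv ρ u⟫ = l i * ⟪e i, u⟫ := by
      have h6 : ⟪e i, Tv ρ u⟫ = ⟪u, Tv ρ (e i)⟫ := by
        rw [inner_Tv hρ, inner_Tv hρ]; congr 1; ext x; ring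
      rw [h6, hT, inner_smul_right, real_inner_comm]
    rw [h5, real_inner_comm u (e i)]
    ring

private theorem integ_sq {ρ : Measure V} (hρ : US ρ) (u : V) : Integrable (fun x : V => ⟪x, u⟫ ^ 2) ρ := by
  refine (integ2 hρ u u).congr (Eventually.of_forall fun x => ?_)
  ring

theorem iso_one {j : ℕ} {M : ℝ} (hP : Par (Module.finrank ℝ V) j M) {ρ : Measure V} (hN : Nice j M ρ)
    (hj : 0 < en j ρ) (h : ∀ u : V, ∫ x, ⟪x, u⟫ ^ 2 ∂(Nop j ρ) = ∫ x, ⟪x, u⟫ ^ 2 ∂ρ) : Iso M ρ := by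
  have hρ := hN.us
  have hN' := nop_us hρ hj hP.hjd
  haveI := hρ.prob
  obtain ⟨e, l, hT, hl, hl0, hsum, hq⟩ := spectral hρ
  have hd0 : (0 : ℝ) < (Module.finrank ℝ V : ℝ) := by
    have := hP.hjd
    have : 0 < Module.finrank ℝ V := by omega
    exact_mod_cast this
  have hk0 : 0 < (Module.finrank ℝ V : ℝ) - j := by
    have := hP.hjd
    have : (j : ℝ) < (Module.finrank ℝ V : ℝ) := by exact_mod_cast this
    linarith
  have hM := hP.hM
  have hM1 := hP.one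
  -- the value of `vv`
  have hvv : vv j ρ = ((Module.finrank ℝ V : ℝ) - j) * ∑ i, l i ^ 2 := by
    unfold vv
    congr 1
    have h1 : ∀ x : V, ∫ y, ⟪x, y⟫ ^ 2 ∂(Nop j ρ) = ∑ i, l i * ⟪x, e i⟫ ^ 2 := by
      intro x
      have h2 : ∫ y, ⟪x, y⟫ ^ 2 ∂(Nop j ρ) = ∫ y, ⟪y, x⟫ ^ 2 ∂(Nop j ρ) := by
        congr 1; ext y; rw [real_inner_comm]
      rw [h2, h x, hq x]
      refine Finset.sum_congr rfl fun i _ => ?_
      rw [real_inner_comm]
    simp_rw [h1]
    rw [integral_finsetSum _ (fun i _ => (integ_sq hρ (e i)).const_mul (l i))]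
    refine Finset.sum_congr rfl fun i _ => ?_
    rw [integral_const_mul, hl i]
    ring
  have hcs : 1 ≤ (Module.finrank ℝ V : ℝ) * ∑ i, l i ^ 2 := by
    have := sq_sum_le_card_mul_sum_sq (s := (Finset.univ : Finset (Fin (Module.finrank ℝ V)))) (f := l)
    rw [hsum] at this
    simpa using this
  have hS0 : 0 < ∑ i, l i ^ 2 := by
    by_contra hc
    have : (Module.finrank ℝ V : ℝ) * ∑ i, l i ^ 2 ≤ 0 :=
      mul_nonpos_of_nonneg_of_nonpos hd0.le (not_lt.mp hc)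
    linarith
  have hv0 : 0 < vv j ρ := by rw [hvv]; exact mul_pos hk0 hS0
  have hv1 : 1 ≤ M * vv j ρ := by
    rw [hvv]
    have : (Module.finrank ℝ V : ℝ) * ∑ i, l i ^ 2 ≤ (M * ((Module.finrank ℝ V : ℝ) - j)) * ∑ i, l i ^ 2 :=
      mul_le_mul_of_nonneg_right hM hS0.le
    calc (1 : ℝ) ≤ _ := hcs
      _ ≤ _ := this
      _ = _ := by ring
  -- the equations
  set ε : ℝ := 50 * M ^ 5 / √(Module.finrank ℝ V : ℝ) with hε
  set k : ℝ := (Module.finrank ℝ V : ℝ) - j with hk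
  set θ : ℝ := j * k / vv j ρ with hθ
  have hθ0 : 0 ≤ θ := by rw [hθ]; exact div_nonneg (mul_nonneg (Nat.cast_nonneg _) hk0.le) hv0.le
  have heq : ∀ i, |1 - k * l i - θ * l i ^ 2| ≤ ε := by
    intro i
    have h1 := ni_main hP hN hj hv1 (e.norm_eq_one i) (e.norm_eq_one i)
    have h2 : ⟪e i, Tv (Nop j ρ) (e i)⟫ = l i := by
      rw [inner_Tv hN', ← hl i, ← h (e i)]
      congr 1; ext x; ring
    rw [hT, inner_smul_left, h2, real_inner_self_eq_norm_sq, e.norm_eq_one] at h1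
    have h3 : (starRingEnd ℝ) (l i) = l i := rfl
    rw [h3] at h1
    calc |1 - k * l i - θ * l i ^ 2| = |1 ^ 2 - k * l i - j * k / vv j ρ * (l i * l i)| := by
          rw [hθ]; congr 1; ring
      _ ≤ _ := h1
  have hdiff : ∀ i m, k * |l i - l m| ≤ 2 * ε := by
    intro i m
    have h1 := heq i
    have h2 := heq m
    have h3 : (l i - l m) * (k + θ * (l i + l m)) = (1 - k * l m - θ * l m ^ 2) - (1 - k * l i - θ * l i ^ 2) := by
      ring
    have h4 : 0 ≤ θ * (l i + l m) := mul_nonneg hθ0 (add_nonneg (hl0 i) (hl0 m))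
    have h5 : |l i - l m| * (k + θ * (l i + l m)) ≤ 2 * ε := by
      rw [← abs_of_nonneg (show 0 ≤ k + θ * (l i + l m) by linarith), ← abs_mul, h3]
      calc _ ≤ |1 - k * l m - θ * l m ^ 2| + |1 - k * l i - θ * l i ^ 2| := abs_sub _ _
        _ ≤ 2 * ε := by linarith
    have h6 : 0 ≤ |l i - l m| * (θ * (l i + l m)) := mul_nonneg (abs_nonneg _) h4
    nlinarith
  have hdev : ∀ i, |(Module.finrank ℝ V : ℝ) * l i - 1| ≤ dl (Module.finrank ℝ V) M := by
    intro i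
    have h1 : (Module.finrank ℝ V : ℝ) * l i - 1 = ∑ m, (l i - l m) := by
      rw [Finset.sum_sub_distrib, hsum]
      simp
    have h2 : k * |(Module.finrank ℝ V : ℝ) * l i - 1| ≤ (Module.finrank ℝ V : ℝ) * (2 * ε) := by
      rw [h1]
      calc k * |∑ m, (l i - l m)| ≤ k * ∑ m, |l i - l m| :=
            mul_le_mul_of_nonneg_left (Finset.abs_sum_le_sum_abs _ _) hk0.le
        _ = ∑ m, k * |l i - l m| := by rw [Finset.mul_sum]
        _ ≤ ∑ _m : Fin (Module.finrank ℝ V), 2 * ε := Finset.sum_le_sum fun m _ => hdiff i m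
        _ = _ := by simp
    have hsq : 0 < √(Module.finrank ℝ V : ℝ) := Real.sqrt_pos.mpr hd0
    have hε0 : 0 ≤ ε := by
      rw [hε]
      have : 0 ≤ M := by linarith
      positivity
    have h3 : k * |(Module.finrank ℝ V : ℝ) * l i - 1| ≤ k * (M * (2 * ε)) := by
      calc _ ≤ _ := h2
        _ ≤ (M * k) * (2 * ε) := mul_le_mul_of_nonneg_right hM (by linarith)
        _ = _ := by ring
    have h4 : |(Module.finrank ℝ V : ℝ) * l i - 1| ≤ M * (2 * ε) := le_of_mul_le_mul_left h3 hk0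
    refine h4.trans ?_
    unfold dl
    rw [hε]
    have h5 : M * (2 * (50 * M ^ 5 / √(Module.finrank ℝ V : ℝ))) = 100 * M ^ 6 / √(Module.finrank ℝ V : ℝ) := by
      ring
    rw [h5]
    have h6 : 0 ≤ M ^ 6 := pow_nonneg (by linarith) 6
    exact div_le_div_of_nonneg_right (by linarith) hsq.le
  intro u
  have hu : ‖u‖ ^ 2 = ∑ i, ⟪e i, u⟫ ^ 2 := by
    have h4 := e.sum_inner_mul_inner u u
    rw [real_inner_self_eq_norm_sq] at h4
    rw [← h4]
    refine Finset.sum_congr rfl fun i _ => ?_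
    rw [real_inner_comm u (e i)]
    ring
  rw [hq u, hu]
  constructor
  · rw [Finset.mul_sum, Finset.mul_sum]
    refine Finset.sum_le_sum fun i _ => ?_
    have h1 := (abs_le.mp (hdev i)).1
    have h2 : 0 ≤ ⟪e i, u⟫ ^ 2 := sq_nonneg _
    nlinarith
  · rw [Finset.mul_sum, Finset.mul_sum]
    refine Finset.sum_le_sum fun i _ => ?_
    have h1 := (abs_le.mp (hdev i)).2
    have h2 : 0 ≤ ⟪e i, u⟫ ^ 2 := sq_nonneg _
    nlinarith

end Pool.Agent.PBL
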