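import Pool.Agent.PBL.E5

/-! Module PBL-E8 (near isotropy of cycles). If the quadratic forms of the chain `ρ (n+1) = Nop j (ρ n)` are periodic and
`d ≤ M (d - 2j)` then all forms are nearly isotropic: `vv j (ρ n) ≥ 1/M` (`tt_ge`, `nop_sW`, `mean_s`), the leave-one-out equation
`ni_main` at the extreme eigenvectors gives a contraction for the ratio of the extreme values (`num_fin`), and the trace is `1`. -/

set_option autoImplicit false

namespace Pool.Agent.PBL
open MeasureTheory ProbabilityTheory Set Filter Topology Metric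
open Pool.Agent.HP89 Pool.Agent.FI75
open scoped RealInnerProductSpace ENNReal

variable {V : Type*} [NormedAddCommGroup V] [InnerProductSpace ℝ V] [FiniteDimensional ℝ V]
  [MeasurableSpace V] [BorelSpace V]

private theorem int_sq {ρ : Measure V} (hρ : US ρ) (u w : V) :
    Integrable (fun x => ⟪x, u⟫ * ⟪x, w⟫) ρ := by
  have := hρ.prob
  refine Integrable.of_bound (C := ‖u‖ * ‖w‖) ?_ ?_
  · exact (by fun_prop : Measurable (fun x : V => ⟪x, u⟫ * ⟪x, w⟫)).aestronglyMeasurable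
  · filter_upwards [hρ.unit] with x hx
    rw [norm_mul]
    have h1 := norm_inner_le_norm (𝕜 := ℝ) x u
    have h2 := norm_inner_le_norm (𝕜 := ℝ) x w
    rw [hx, one_mul] at h1 h2
    exact mul_le_mul h1 h2 (norm_nonneg _) (norm_nonneg _)

/-- the linear map `Tv ρ`. -/
private noncomputable def TL {ρ : Measure V} (hρ : US ρ) : V →ₗ[ℝ] V where
  toFun := Tv ρ
  map_add' u v := by
    refine ext_inner_left ℝ fun w => ?_
    rw [inner_add_right, inner_Tv hρ, inner_Tv hρ, inner_Tv hρ, ← integral_add (int_sq hρ _ _) (int_sq hρ _ _)]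
    congr 1
    funext x
    rw [inner_add_right]
    ring
  map_smul' c u := by
    refine ext_inner_left ℝ fun w => ?_
    rw [RingHom.id_apply, inner_smul_right, inner_Tv hρ, inner_Tv hρ, ← integral_const_mul]
    congr 1
    funext x
    rw [inner_smul_right]
    ring

private theorem TL_symm {ρ : Measure V} (hρ : US ρ) : (TL hρ).IsSymmetric := by
  intro u w
  change ⟪Tv ρ u, w⟫ = ⟪u, Tv ρ w⟫
  rw [real_inner_comm, inner_Tv hρ, inner_Tv hρ]
  congr 1
  funext x
  ring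

private theorem q_eq {ρ : Measure V} (hρ : US ρ) (u : V) : ∫ x, ⟪x, u⟫ ^ 2 ∂ρ = ⟪u, Tv ρ u⟫ := by
  rw [inner_Tv hρ]
  congr 1
  funext x
  ring

private theorem ext_eig {ρ : Measure V} (hρ : US ρ) (hd : 0 < Module.finrank ℝ V) :
    ∃ (α β : ℝ) (a b : V), ‖a‖ = 1 ∧ ‖b‖ = 1 ∧ Tv ρ a = α • a ∧ Tv ρ b = β • b ∧
      ∫ x, ⟪x, a⟫ ^ 2 ∂ρ = α ∧ ∫ x, ⟪x, b⟫ ^ 2 ∂ρ = β ∧
      ∀ u, α * ‖u‖ ^ 2 ≤ ∫ x, ⟪x, u⟫ ^ 2 ∂ρ ∧ ∫ x, ⟪x, u⟫ ^ 2 ∂ρ ≤ β * ‖u‖ ^ 2 := by
  have hT := TL_symm hρ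
  set e := hT.eigenvectorBasis rfl with he
  set l := hT.eigenvalues rfl with hl
  have happ : ∀ i, Tv ρ (e i) = l i • e i := fun i => by
    have := hT.apply_eigenvectorBasis rfl i
    exact this
  have : Nonempty (Fin (Module.finrank ℝ V)) := ⟨⟨0, hd⟩⟩
  obtain ⟨i0, -, hi0⟩ := Finset.exists_min_image Finset.univ l ⟨Classical.arbitrary _, Finset.mem_univ _⟩
  obtain ⟨i1, -, hi1⟩ := Finset.exists_max_image Finset.univ l ⟨Classical.arbitrary _, Finset.mem_univ _⟩
  have hnorm : ∀ i, ‖e i‖ = 1 := fun i => e.orthonormal.1 i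
  have hqe : ∀ i, ∫ x, ⟪x, e i⟫ ^ 2 ∂ρ = l i := fun i => by
    rw [q_eq hρ, happ, inner_smul_right, real_inner_self_eq_norm_sq, hnorm]
    ring
  have hq : ∀ u, ∫ x, ⟪x, u⟫ ^ 2 ∂ρ = ∑ i, l i * ⟪e i, u⟫ ^ 2 := fun u => by
    rw [q_eq hρ, ← e.sum_inner_mul_inner]
    refine Finset.sum_congr rfl fun i _ => ?_
    have h1 : ⟪e i, Tv ρ u⟫ = l i * ⟪e i, u⟫ := by
      have h2 : ⟪Tv ρ (e i), u⟫ = ⟪e i, Tv ρ u⟫ := hT (e i) u
      rw [← h2, happ, inner_smul_left]
      rfl
    rw [h1, real_inner_comm]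
    ring
  have hn : ∀ u : V, ‖u‖ ^ 2 = ∑ i, ⟪e i, u⟫ ^ 2 := fun u => by
    rw [← real_inner_self_eq_norm_sq, ← e.sum_inner_mul_inner]
    refine Finset.sum_congr rfl fun i _ => ?_
    rw [real_inner_comm u (e i)]
    ring
  refine ⟨l i0, l i1, e i0, e i1, hnorm _, hnorm _, happ _, happ _, hqe _, hqe _, fun u => ?_⟩
  rw [hq, hn, Finset.mul_sum, Finset.mul_sum]
  constructor
  · exact Finset.sum_le_sum fun i hi => mul_le_mul_of_nonneg_right (hi0 i hi) (sq_nonneg _)
  · exact Finset.sum_le_sum fun i hi => mul_le_mul_of_nonneg_right (hi1 i hi) (sq_nonneg _)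

private theorem trace_one {ρ : Measure V} (hρ : US ρ) :
    ∑ i, ∫ x, ⟪x, stdOrthonormalBasis ℝ V i⟫ ^ 2 ∂ρ = 1 := by
  have := hρ.prob
  rw [← integral_finsetSum]
  · have h : ∀ᵐ x ∂ρ, ∑ i, ⟪x, stdOrthonormalBasis ℝ V i⟫ ^ 2 = 1 := by
      filter_upwards [hρ.unit] with x hx
      have h1 : ‖x‖ ^ 2 = ∑ i, ⟪x, stdOrthonormalBasis ℝ V i⟫ ^ 2 := by
        rw [← real_inner_self_eq_norm_sq, ← (stdOrthonormalBasis ℝ V).sum_inner_mul_inner]
        refine Finset.sum_congr rfl fun i _ => ?_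
        rw [real_inner_comm x (stdOrthonormalBasis ℝ V i)]
        ring
      rw [← h1, hx]
      norm_num
    rw [integral_congr_ae h]
    simp
  · intro i _
    have := int_sq hρ (stdOrthonormalBasis ℝ V i) (stdOrthonormalBasis ℝ V i)
    refine this.congr (Filter.Eventually.of_forall fun x => ?_)
    change ⟪x, _⟫ * ⟪x, _⟫ = ⟪x, _⟫ ^ 2
    ring

private theorem num_fin {m : ℕ} (hm : 1 ≤ m) {A B θ : ℕ → ℝ} {M ε : ℝ} (hM : 1 ≤ M) (hε0 : 0 ≤ ε)
    (hε : 42 * (M * ε) ≤ 1) (hA0 : ∀ n, 0 ≤ A n) (hAB : ∀ n, A n ≤ B n) (hB1 : ∀ n, B n ≤ 1)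
    (hθ0 : ∀ n, 0 ≤ θ n) (hθM : ∀ n, θ n ≤ M)
    (h1 : ∀ n, B (n + 1) * (1 + θ n * A n) ≤ 1 + ε) (h2 : ∀ n, 1 - ε ≤ A (n + 1) * (1 + θ n * B n))
    (pA : ∀ n, A (n + m) = A n) (pB : ∀ n, B (n + m) = B n) (n : ℕ) :
    0 < A n ∧ B n ≤ (1 + 7 * (M * ε)) * A n := by
  have hε1 : ε ≤ 1 / 42 := by nlinarith
  have hApos : ∀ n, 0 < A n := by
    have hs : ∀ n, 0 < A (n + 1) := by
      intro n
      rcases (hA0 (n + 1)).lt_or_eq with h | h
      · exact h
      · have := h2 n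
        rw [← h] at this
        nlinarith
    intro n
    rw [← pA n, show n + m = n + m - 1 + 1 by omega]
    exact hs _
  set R : ℕ → ℝ := fun n => B n / A n with hR
  have hRper : Function.Periodic R m := fun n => by simp only [hR, pA, pB]
  obtain ⟨N, hNm, hNmax⟩ := Finset.exists_max_image (Finset.range m) R
    ⟨0, Finset.mem_range.2 (by omega)⟩
  have hmax : ∀ n, R n ≤ R N := fun n => by
    rw [← hRper.map_mod_nat n]
    exact hNmax _ (Finset.mem_range.2 (Nat.mod_lt _ (by omega)))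
  have hRB : ∀ n, B n = R n * A n := fun n => by
    simp only [hR]
    rw [div_mul_cancel₀ _ (hApos n).ne']
  have hR1 : 1 ≤ R N := by
    simp only [hR]
    rw [one_le_div (hApos N)]
    exact hAB N
  have hN1 : N + m = (N + m - 1) + 1 := by omega
  obtain ⟨K, hK⟩ : ∃ K, K = N + m - 1 := ⟨_, rfl⟩
  have hBK : B (K + 1) = R N * A (K + 1) := by
    rw [hK, ← hN1, pA, pB]
    exact hRB N
  have hBle : B K ≤ R N * A K := by
    rw [hRB K]
    exact mul_le_mul_of_nonneg_right (hmax K) (hA0 K)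
  have e1 := h1 K
  have e2 := h2 K
  have hAK := hApos (K + 1)
  have hθA0 : 0 ≤ θ K * A K := mul_nonneg (hθ0 K) (hA0 K)
  have hA1 : A K ≤ 1 := (hAB K).trans (hB1 K)
  have hθAM : θ K * A K ≤ M := by
    calc θ K * A K ≤ θ K * 1 := mul_le_mul_of_nonneg_left hA1 (hθ0 K)
      _ = θ K := mul_one _
      _ ≤ M := hθM K
  set y := R N - 1 with hy
  have hy0 : 0 ≤ y := by linarith
  have hRN : R N = 1 + y := by linarith
  -- (1 + θ B) ≤ (1 + c y) (1 + θ A), with 2 M c = 2 M - 1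
  set T := θ K * A K with hT
  have e3 : 2 * M * (1 + θ K * B K) ≤ (2 * M + (2 * M - 1) * y) * (1 + T) := by
    have h3 : θ K * B K ≤ (1 + y) * T := by
      calc θ K * B K ≤ θ K * (R N * A K) := mul_le_mul_of_nonneg_left hBle (hθ0 K)
        _ = (1 + y) * T := by rw [hRN, hT]; ring
    have h4 : 2 * M * (y * T) ≤ (2 * M - 1) * y * (1 + T) := by
      have : y * T ≤ y * (2 * M - 1) := mul_le_mul_of_nonneg_left (by linarith) hy0
      nlinarith
    have h5 : 2 * M * (1 + θ K * B K) ≤ 2 * M * (1 + (1 + y) * T) :=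
      mul_le_mul_of_nonneg_left (by linarith) (by linarith)
    nlinarith
  have e4 : B (K + 1) * (1 + T) * (1 - ε) ≤ (1 + ε) * (A (K + 1) * (1 + θ K * B K)) := by
    have h3 : B (K + 1) * (1 + T) * (1 - ε) ≤ (1 + ε) * (1 - ε) :=
      mul_le_mul_of_nonneg_right e1 (by linarith)
    have h4 : (1 + ε) * (1 - ε) ≤ (1 + ε) * (A (K + 1) * (1 + θ K * B K)) :=
      mul_le_mul_of_nonneg_left e2 (by linarith)
    linarith
  have e5 : (1 + y) * (1 - ε) * (2 * M) ≤ (1 + ε) * (2 * M + (2 * M - 1) * y) := by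
    have hpos : 0 < A (K + 1) * (1 + T) := mul_pos hAK (by linarith)
    have h3 : (1 + y) * (1 - ε) * (2 * M) * (A (K + 1) * (1 + T)) ≤
        (1 + ε) * (2 * M + (2 * M - 1) * y) * (A (K + 1) * (1 + T)) := by
      have h4 : 2 * M * (B (K + 1) * (1 + T) * (1 - ε)) ≤
          2 * M * ((1 + ε) * (A (K + 1) * (1 + θ K * B K))) :=
        mul_le_mul_of_nonneg_left e4 (by linarith)
      have h5 : (1 + ε) * A (K + 1) * (2 * M * (1 + θ K * B K)) ≤
          (1 + ε) * A (K + 1) * ((2 * M + (2 * M - 1) * y) * (1 + T)) :=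
        mul_le_mul_of_nonneg_left e3 (mul_nonneg (by linarith) hAK.le)
      rw [hBK, hRN] at h4
      nlinarith
    exact le_of_mul_le_mul_right h3 hpos
  have e6 : y ≤ 7 * (M * ε) := by
    have h3 : y * (1 - 4 * (M * ε)) ≤ 4 * (M * ε) := by
      have : 0 ≤ y * ε := mul_nonneg hy0 hε0
      nlinarith
    have h4 : y * (1 - 4 * (M * ε)) ≥ y * (38 / 42) :=
      mul_le_mul_of_nonneg_left (by linarith) hy0
    have h5 : 0 ≤ M * ε := mul_nonneg (by linarith) hε0
    linarith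
  refine ⟨hApos n, ?_⟩
  rw [hRB n]
  refine mul_le_mul_of_nonneg_right ?_ (hA0 n)
  linarith [hmax n]

private theorem iso_core {j m : ℕ} {M : ℝ} (hP : Par (Module.finrank ℝ V) j M)
    (h2 : (Module.finrank ℝ V : ℝ) ≤ M * ((Module.finrank ℝ V : ℝ) - 2 * j)) (hm : 1 ≤ m)
    {ρ : ℕ → Measure V} (hc : Ch j ρ) (hN : ∀ n, Nice j M (ρ n)) (hv : ∀ n, 1 ≤ M * vv j (ρ n))
    (hper : ∀ n (u : V), ∫ x, ⟪x, u⟫ ^ 2 ∂(ρ (n + m)) = ∫ x, ⟪x, u⟫ ^ 2 ∂(ρ n)) (n : ℕ) : Iso M (ρ n) := by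
  have hM := hP.one
  have hjd := hP.hjd
  have hd : 0 < Module.finrank ℝ V := by omega
  choose α β a b ha hb hTa hTb hqa hqb hq using fun n => ext_eig (hc.us n) hd
  set d : ℝ := (Module.finrank ℝ V : ℝ) with hdd
  have hdpos : 0 < d := by rw [hdd]; exact_mod_cast hd
  have hkpos : 0 < d - j := by
    rw [hdd, sub_pos]
    exact_mod_cast hjd
  set k : ℝ := d - j with hk
  have hjk : (j : ℝ) ≤ k := by
    have : 0 ≤ d - 2 * j := by
      by_contra h
      push Not at h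
      have : M * (d - 2 * j) ≤ 0 := mul_nonpos_of_nonneg_of_nonpos (by linarith) h.le
      linarith
    rw [hk]; linarith
  have hsq : 0 < √d := Real.sqrt_pos.2 hdpos
  set ε : ℝ := 50 * M ^ 5 / √d with hε
  have hM0 : 0 < M := by linarith
  have hε0 : 0 ≤ ε := by positivity
  have hbig := hP.big
  have hε1 : 42 * (M * ε) ≤ 1 := by
    rw [hε, ← mul_div_assoc, ← mul_div_assoc, div_le_one hsq]
    have h3 : M ^ 6 ≤ M ^ 10 := pow_le_pow_right₀ hM (by norm_num)
    nlinarith [pow_pos hM0 10]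
  have hvpos : ∀ n, 0 < vv j (ρ n) := fun n => by
    by_contra h
    push Not at h
    have : M * vv j (ρ n) ≤ 0 := mul_nonpos_of_nonneg_of_nonpos hM0.le h
    linarith [hv n]
  have pα : ∀ n, α (n + m) = α n := fun n => by
    apply le_antisymm
    · have := (hq (n + m) (a n)).1
      rw [ha, hper, hqa] at this
      linarith
    · have := (hq n (a (n + m))).1
      rw [ha, ← hper, hqa] at this
      linarith
  have pβ : ∀ n, β (n + m) = β n := fun n => by
    apply le_antisymm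
    · have := (hq n (b (n + m))).2
      rw [hb, ← hper, hqb] at this
      linarith
    · have := (hq (n + m) (b n)).2
      rw [hb, hper, hqb] at this
      linarith
  have hα0 : ∀ n, 0 ≤ α n := fun n => by
    rw [← hqa n]
    exact integral_nonneg fun x => sq_nonneg _
  have hαβ : ∀ n, α n ≤ β n := fun n => by
    have := (hq n (a n)).2
    rw [ha, hqa] at this
    linarith
  have hβ1 : ∀ n, k * β n ≤ 1 := fun n => by
    have := (hN n).n1 (b n)
    rw [hb, hqb] at this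
    simpa using this
  -- the equation at an eigenvector
  have hmain : ∀ n (l : ℝ) (u : V), ‖u‖ = 1 → Tv (ρ (n + 1)) u = l • u →
      |1 - (k * l) * (1 + j / (k * vv j (ρ n)) * (k * ∫ x, ⟪x, u⟫ ^ 2 ∂(ρ n)))| ≤ ε := by
    intro n l u hu hTu
    have h3 := ni_main hP (hN n) (hc.pos n) (hv n) hu hu
    rw [← hc.step n, hTu, inner_smul_right, inner_smul_right, real_inner_self_eq_norm_sq, hu,
      real_inner_comm, ← q_eq (hc.us n)] at h3
    refine le_trans (le_of_eq ?_) h3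
    congr 1
    have hv' := (hvpos n).ne'
    have hk' := hkpos.ne'
    field_simp
    ring
  have key := num_fin (m := m) hm (A := fun n => k * α n) (B := fun n => k * β n)
    (θ := fun n => j / (k * vv j (ρ n))) (M := M) (ε := ε) hM hε0 hε1
    (fun n => mul_nonneg hkpos.le (hα0 n)) (fun n => mul_le_mul_of_nonneg_left (hαβ n) hkpos.le)
    hβ1 (fun n => by have := hvpos n; positivity)
    (fun n => by
      have hv' := hvpos n
      rw [div_le_iff₀ (by positivity)]
      calc (j : ℝ) ≤ k := hjk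
        _ = k * 1 := (mul_one k).symm
        _ ≤ k * (M * vv j (ρ n)) := mul_le_mul_of_nonneg_left (hv n) hkpos.le
        _ = M * (k * vv j (ρ n)) := by ring)
    (fun n => by
      have h3 := (abs_le.1 (hmain n (β (n + 1)) (b (n + 1)) (hb _) (hTb _))).1
      have h4 := (hq n (b (n + 1))).1
      rw [hb, one_pow, mul_one] at h4
      have hv' := hvpos n
      have h5 : 0 ≤ k * β (n + 1) := mul_nonneg hkpos.le ((hα0 _).trans (hαβ _))
      have h6 : (j : ℝ) / (k * vv j (ρ n)) * (k * α n) ≤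
          j / (k * vv j (ρ n)) * (k * ∫ x, ⟪x, b (n + 1)⟫ ^ 2 ∂(ρ n)) :=
        mul_le_mul_of_nonneg_left (mul_le_mul_of_nonneg_left h4 hkpos.le) (by positivity)
      have h7 := mul_le_mul_of_nonneg_left (add_le_add_right h6 1) h5
      linarith)
    (fun n => by
      have h3 := (abs_le.1 (hmain n (α (n + 1)) (a (n + 1)) (ha _) (hTa _))).2
      have h4 := (hq n (a (n + 1))).2
      rw [ha, one_pow, mul_one] at h4
      have hv' := hvpos n
      have h5 : 0 ≤ k * α (n + 1) := mul_nonneg hkpos.le (hα0 _)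
      have h6 : j / (k * vv j (ρ n)) * (k * ∫ x, ⟪x, a (n + 1)⟫ ^ 2 ∂(ρ n)) ≤
          (j : ℝ) / (k * vv j (ρ n)) * (k * β n) :=
        mul_le_mul_of_nonneg_left (mul_le_mul_of_nonneg_left h4 hkpos.le) (by positivity)
      have h7 := mul_le_mul_of_nonneg_left (add_le_add_right h6 1) h5
      linarith)
    (fun n => by rw [pα]) (fun n => by rw [pβ]) n
  obtain ⟨hApos, hBA⟩ := key

  have htr := trace_one (hc.us n)
  have hαd : α n * d ≤ 1 := by
    rw [← htr]
    have h3 : ∑ i : Fin (Module.finrank ℝ V), α n ≤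
        ∑ i, ∫ x, ⟪x, stdOrthonormalBasis ℝ V i⟫ ^ 2 ∂(ρ n) := by
      refine Finset.sum_le_sum fun i _ => ?_
      have := (hq n (stdOrthonormalBasis ℝ V i)).1
      rwa [(stdOrthonormalBasis ℝ V).orthonormal.1 i, one_pow, mul_one] at this
    rw [Finset.sum_const, Finset.card_univ, Fintype.card_fin, nsmul_eq_mul] at h3
    linarith
  have hβd : 1 ≤ β n * d := by
    rw [← htr]
    have h3 : ∑ i, ∫ x, ⟪x, stdOrthonormalBasis ℝ V i⟫ ^ 2 ∂(ρ n) ≤
        ∑ i : Fin (Module.finrank ℝ V), β n := by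
      refine Finset.sum_le_sum fun i _ => ?_
      have := (hq n (stdOrthonormalBasis ℝ V i)).2
      rwa [(stdOrthonormalBasis ℝ V).orthonormal.1 i, one_pow, mul_one] at this
    rw [Finset.sum_const, Finset.card_univ, Fintype.card_fin, nsmul_eq_mul] at h3
    linarith
  have hβα : β n ≤ (1 + 7 * (M * ε)) * α n := by
    have : k * β n ≤ k * ((1 + 7 * (M * ε)) * α n) := by linarith
    exact le_of_mul_le_mul_left this hkpos
  have hdl : 7 * (M * ε) ≤ dl (Module.finrank ℝ V) M := by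
    rw [dl, ← hdd, hε, ← mul_div_assoc, ← mul_div_assoc]
    refine div_le_div_of_nonneg_right ?_ hsq.le
    nlinarith [pow_pos hM0 6]
  set δ := dl (Module.finrank ℝ V) M with hδ
  have hMε : 0 ≤ M * ε := mul_nonneg hM0.le hε0
  intro u
  have hu0 : 0 ≤ ‖u‖ ^ 2 := sq_nonneg _
  obtain ⟨h3, h4⟩ := hq n u
  constructor
  · -- lower bound
    have h5 : 1 - δ ≤ α n * d := by
      have h6 : 1 ≤ (1 + 7 * (M * ε)) * (α n * d) := by
        have := mul_le_mul_of_nonneg_right hβα hdpos.le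
        linarith
      nlinarith
    calc (1 - δ) * ‖u‖ ^ 2 ≤ (α n * d) * ‖u‖ ^ 2 := mul_le_mul_of_nonneg_right h5 hu0
      _ = d * (α n * ‖u‖ ^ 2) := by ring
      _ ≤ _ := mul_le_mul_of_nonneg_left h3 hdpos.le
  · have h5 : β n * d ≤ 1 + δ := by
      have h6 := mul_le_mul_of_nonneg_right hβα hdpos.le
      have h7 : (1 + 7 * (M * ε)) * (α n * d) ≤ (1 + 7 * (M * ε)) * 1 :=
        mul_le_mul_of_nonneg_left hαd (by linarith)
      linarith
    calc d * ∫ x, ⟪x, u⟫ ^ 2 ∂(ρ n) ≤ d * (β n * ‖u‖ ^ 2) := mul_le_mul_of_nonneg_left h4 hdpos.le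
      _ = (β n * d) * ‖u‖ ^ 2 := by ring
      _ ≤ (1 + δ) * ‖u‖ ^ 2 := mul_le_mul_of_nonneg_right h5 hu0

private theorem sW_bd {ρ : Measure V} (hρ : US ρ) (W : Submodule ℝ V) : 0 ≤ sW ρ W ∧ sW ρ W ≤ 1 := by
  have := hρ.prob
  constructor
  · exact integral_nonneg fun x => sq_nonneg _
  · have h1 : sW ρ W ≤ ∫ _x, (1 : ℝ) ∂ρ := by
      refine integral_mono_ae ?_ (integrable_const _) ?_
      · refine Integrable.of_bound (C := 1) ?_ ?_
        · exact (by fun_prop : Measurable (fun x : V => ‖W.starProjection x‖ ^ 2)).aestronglyMeasurable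
        · filter_upwards [hρ.unit] with x hx
          have h2 := W.norm_starProjection_apply_le x
          rw [hx] at h2
          rw [Real.norm_eq_abs, abs_of_nonneg (sq_nonneg _)]
          nlinarith [norm_nonneg (W.starProjection x)]
      · filter_upwards [hρ.unit] with x hx
        have h2 := W.norm_starProjection_apply_le x
        rw [hx] at h2
        nlinarith [norm_nonneg (W.starProjection x)]
    simpa using h1

private theorem vlow {j : ℕ} {M : ℝ} (hP : Par (Module.finrank ℝ V) j M)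
    (h2 : (Module.finrank ℝ V : ℝ) ≤ M * ((Module.finrank ℝ V : ℝ) - 2 * j))
    {σ : Measure V} (hσ : US σ) (hj : 0 < en j σ) (hj' : 0 < en j (Nop j σ)) :
    1 ≤ M * vv j (Nop j σ) := by
  have hM := hP.one
  have hjd := hP.hjd
  have hU := nop_us hσ hj hjd
  have := hU.prob
  have hkpos : 0 < (Module.finrank ℝ V : ℝ) - j := by
    rw [sub_pos]; exact_mod_cast hjd
  set d : ℝ := (Module.finrank ℝ V : ℝ) with hdd
  have hdpos : 0 < d := by
    have : (0 : ℝ) ≤ j := Nat.cast_nonneg j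
    linarith
  have h3 : ∀ X : Fin j → V, wv X ≠ 0 → (d - 2 * j) / (d - j) ≤ sW (Nop j σ) (oc X) := by
    intro X hX
    have h4 := nop_sW hσ hj hjd (oc X)
    have hfX := finrank_oc hX
    have h5 : iw j σ (fun _ => d - 2 * j) ≤ iw j σ (fun Y => tt (oc Y) (oc X)) := by
      refine iw_mono hσ (C := |d - 2 * j| + d) measurable_const ?_ ?_ ?_ ?_
      · have e : (fun Y : Fin j → V => tt (oc Y) (oc X)) = fun Y => tt (oc X) (oc Y) := by
          funext Y; exact tt_comm _ _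
        rw [e]
        exact meas_tt _
      · intro _
        linarith
      · intro Y
        rw [abs_of_nonneg (tt_nonneg _ _)]
        have h6 := tt_le (oc Y) (oc X)
        have h7 : (Module.finrank ℝ (oc Y) : ℝ) ≤ d := by
          rw [hdd]; exact_mod_cast Submodule.finrank_le _
        linarith [abs_nonneg (d - 2 * j)]
      · intro Y hY _
        have hfY := finrank_oc hY
        have h6 := tt_ge (oc Y) (oc X)
        have h7 : (Module.finrank ℝ (oc X) : ℝ) = d - j := by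
          rw [hdd, ← hfX]; push_cast; ring
        have h8 : (Module.finrank ℝ (oc Y) : ℝ) = d - j := by
          rw [hdd, ← hfY]; push_cast; ring
        rw [h7, h8] at h6
        linarith
    rw [iw_const, ← h4] at h5
    rw [div_le_iff₀ hkpos]
    have h6 : (d - 2 * j) * en j σ ≤ (sW (Nop j σ) (oc X) * (d - j)) * en j σ := by linarith
    exact le_of_mul_le_mul_right h6 hj
  have h4 := mean_s hU hj' hjd
  have h5 : iw j (Nop j σ) (fun _ => (d - 2 * j) / (d - j)) ≤
      iw j (Nop j σ) (fun X => sW (Nop j σ) (oc X)) := by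
    refine iw_mono hU (C := |(d - 2 * j) / (d - j)| + 1) measurable_const (meas_sW _) ?_ ?_ ?_
    · intro _
      linarith
    · intro X
      obtain ⟨h6, h7⟩ := sW_bd hU (oc X)
      rw [abs_of_nonneg h6]
      linarith [abs_nonneg ((d - 2 * j) / (d - j))]
    · intro X hX _
      exact h3 X hX
  rw [iw_const, h4] at h5
  have h6 : (d - 2 * j) / (d - j) ≤ vv j (Nop j σ) := le_of_mul_le_mul_right h5 hj'
  have h7 : 0 ≤ d - 2 * j := by
    by_contra h
    push Not at h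
    have : M * (d - 2 * j) ≤ 0 := mul_nonpos_of_nonneg_of_nonpos (by linarith) h.le
    linarith
  have h8 : (d - 2 * j) / d ≤ (d - 2 * j) / (d - j) := by
    refine div_le_div_of_nonneg_left h7 hkpos ?_
    have : (0 : ℝ) ≤ j := Nat.cast_nonneg j
    linarith
  have h9 : 1 ≤ M * ((d - 2 * j) / d) := by
    rw [← mul_div_assoc, le_div_iff₀ hdpos]
    linarith
  have h10 : M * ((d - 2 * j) / d) ≤ M * vv j (Nop j σ) :=
    mul_le_mul_of_nonneg_left (h8.trans h6) (by linarith)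
  linarith

theorem iso_cyc {j m : ℕ} {M : ℝ} (hP : Par (Module.finrank ℝ V) j M)
    (h2 : (Module.finrank ℝ V : ℝ) ≤ M * ((Module.finrank ℝ V : ℝ) - 2 * j)) (hm : 1 ≤ m)
    {ρ : ℕ → Measure V} (hc : Ch j ρ) (hN : ∀ n, Nice j M (ρ n))
    (hper : ∀ n (u : V), ∫ x, ⟪x, u⟫ ^ 2 ∂(ρ (n + m)) = ∫ x, ⟪x, u⟫ ^ 2 ∂(ρ n)) (n : ℕ) : Iso M (ρ n) := by
  have hc' : Ch j (fun n => ρ (n + 1)) := ⟨fun n => hc.us _, fun n => hc.pos _, fun n => hc.step _⟩
  have hv : ∀ n, 1 ≤ M * vv j (ρ (n + 1)) := fun n => by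
    rw [hc.step n]
    refine vlow hP h2 (hc.us n) (hc.pos n) ?_
    rw [← hc.step n]
    exact hc.pos _
  have hper' : ∀ n (u : V), ∫ x, ⟪x, u⟫ ^ 2 ∂(ρ (n + m + 1)) = ∫ x, ⟪x, u⟫ ^ 2 ∂(ρ (n + 1)) :=
    fun n u => by rw [show n + m + 1 = n + 1 + m by ring]; exact hper _ _
  have hcore : ∀ n, Iso M (ρ (n + 1)) := fun n =>
    iso_core hP h2 hm hc' (fun n => hN _) hv hper' n
  intro u
  have h3 := hcore (n + m - 1) u
  rw [show n + m - 1 + 1 = n + m by omega, hper] at h3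
  exact h3

end Pool.Agent.PBL
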