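import Pool.Agent.PBL.F9

/-! Module PBL-H1 (the gradient field of a periodic chain vanishes). The supremum of `‖UU (ρ n) u‖²` over all `n` and unit
`u` is by contraction and smoothing at most half of itself. -/

set_option autoImplicit false

namespace Pool.Agent.PBL
open MeasureTheory ProbabilityTheory Set Filter Topology Metric
open Pool.Agent.HP89 Pool.Agent.FI75
open scoped RealInnerProductSpace ENNReal

variable {V : Type*} [NormedAddCommGroup V] [InnerProductSpace ℝ V] [FiniteDimensional ℝ V]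
  [MeasurableSpace V] [BorelSpace V]

private theorem h1_num {d j : ℕ} {M : ℝ} (hP : Par d j M) :
    32 * (d : ℝ) ^ 2 * M ^ 2 * ((pz d + 2 * M * (8 * (d : ℝ) * M * pz d)) + pz d) ≤ 1 / 2 := by
  have hM := hP.one
  have hbig := hP.big
  have hM10 : (1 : ℝ) ≤ M ^ 10 := one_le_pow₀ hM
  have hM2 : M ^ 2 ≤ M ^ 10 := pow_le_pow_right₀ hM (by norm_num)
  have hs20 : (10 : ℝ) ^ 20 ≤ √(d : ℝ) := by nlinarith
  have hd0 : (0 : ℝ) ≤ d := Nat.cast_nonneg d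
  have hsd : √(d : ℝ) * √(d : ℝ) = d := Real.mul_self_sqrt hd0
  have hs1 : (1 : ℝ) ≤ √(d : ℝ) := by
    refine le_trans ?_ hs20
    norm_num
  have hd20 : (10 : ℝ) ^ 20 ≤ d := by nlinarith
  have hMd : M ^ 2 ≤ d := by nlinarith
  have hd1 : (1 : ℝ) ≤ d := le_trans (by norm_num) hd20
  have hdpos : (0 : ℝ) < d := by linarith
  have hp : pz d * (d : ℝ) ^ 10 = 1 := by
    unfold pz
    exact inv_mul_cancel₀ (by positivity)
  have hp0 : 0 ≤ pz d := by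
    unfold pz
    positivity
  have e1 : 32 * (d : ℝ) ^ 2 * M ^ 2 * ((pz d + 2 * M * (8 * (d : ℝ) * M * pz d)) + pz d) =
      (32 * (d : ℝ) ^ 2 * (M ^ 2 * (2 + 16 * d * M ^ 2))) * pz d := by ring
  have h1 : M ^ 2 * (2 + 16 * d * M ^ 2) ≤ d * (2 + 16 * d * d) := by
    refine mul_le_mul hMd ?_ (by positivity) hd0
    have : 16 * (d : ℝ) * M ^ 2 ≤ 16 * d * d := mul_le_mul_of_nonneg_left hMd (by positivity)
    linarith
  have h2 : d * (2 + 16 * (d : ℝ) * d) ≤ 18 * (d : ℝ) ^ 3 := by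
    have : (1 : ℝ) ≤ (d : ℝ) ^ 2 := one_le_pow₀ hd1
    nlinarith
  have h3 : 32 * (d : ℝ) ^ 2 * (M ^ 2 * (2 + 16 * d * M ^ 2)) ≤ 576 * (d : ℝ) ^ 5 := by
    have := mul_le_mul_of_nonneg_left (h1.trans h2) (by positivity : (0 : ℝ) ≤ 32 * (d : ℝ) ^ 2)
    refine this.trans (le_of_eq ?_)
    ring
  have h4 : 576 * (d : ℝ) ^ 5 ≤ 1 / 2 * (d : ℝ) ^ 10 := by
    have h5 : (1152 : ℝ) ≤ (d : ℝ) ^ 5 := by
      have h6 : (d : ℝ) ≤ (d : ℝ) ^ 5 := le_self_pow₀ hd1 (by norm_num)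
      refine le_trans ?_ h6
      refine le_trans ?_ hd20
      norm_num
    have h7 : (d : ℝ) ^ 10 = (d : ℝ) ^ 5 * (d : ℝ) ^ 5 := by ring
    rw [h7]
    have h8 : 0 ≤ (d : ℝ) ^ 5 := by positivity
    nlinarith
  rw [e1]
  calc (32 * (d : ℝ) ^ 2 * (M ^ 2 * (2 + 16 * d * M ^ 2))) * pz d
      ≤ (1 / 2 * (d : ℝ) ^ 10) * pz d := mul_le_mul_of_nonneg_right (h3.trans h4) hp0
    _ = 1 / 2 * (pz d * (d : ℝ) ^ 10) := by ring
    _ = 1 / 2 := by rw [hp, mul_one]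

omit [InnerProductSpace ℝ V] [FiniteDimensional ℝ V] [BorelSpace V] in
private theorem h1_int {ρ : Measure V} (hρ : US ρ) {f : V → ℝ} (h0 : ∀ x, 0 ≤ f x) {S : ℝ}
    (hS : ∀ y, ‖y‖ = 1 → f y ≤ S) : ∫ u, f u ∂ρ ≤ S := by
  have := hρ.prob
  have h1 : ∫ u, f u ∂ρ ≤ ∫ _u, S ∂ρ := by
    refine integral_mono_of_nonneg (Eventually.of_forall h0) (integrable_const S) ?_
    filter_upwards [hρ.unit] with u hu
    exact hS u hu
  simpa using h1

theorem UU_zero {j m : ℕ} {M : ℝ} (hP : Par (Module.finrank ℝ V) j M) (hm : 1 ≤ m) {ρ : ℕ → Measure V} (hc : Ch j ρ)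
    (hN : ∀ n, Nice j M (ρ n)) (hI : ∀ n, Iso M (ρ n)) (hper : ∀ n u, UU (ρ (n + m)) u = UU (ρ n) u) (n : ℕ) {u : V}
    (hu : ‖u‖ = 1) : UU (ρ n) u = 0 := by
  set A : Set ℝ := {s | ∃ (n : ℕ) (u : V), ‖u‖ = 1 ∧ s = ‖UU (ρ n) u‖ ^ 2} with hA
  have hbdd : BddAbove A := by
    refine ⟨1, ?_⟩
    rintro s ⟨n, u, _, rfl⟩
    exact pow_le_one₀ (norm_nonneg _) (norm_UU_le (hc.us n) u)
  have hne : A.Nonempty := ⟨_, n, u, hu, rfl⟩
  set S : ℝ := sSup A with hSdef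
  have hS : ∀ (n : ℕ) (y : V), ‖y‖ = 1 → ‖UU (ρ n) y‖ ^ 2 ≤ S := fun n y hy =>
    le_csSup hbdd ⟨n, y, hy, rfl⟩
  have hS0 : 0 ≤ S := (sq_nonneg _).trans (hS n u hu)
  have hM := hP.one
  have hMpos : (0 : ℝ) < M := by linarith
  set d : ℕ := Module.finrank ℝ V with hd
  set θ : ℝ := 1 - 1 / (2 * M) with hθ
  have hθ0 : 0 ≤ θ := by
    rw [hθ, sub_nonneg, div_le_one (by positivity)]
    linarith
  have hθ1 : θ < 1 := by
    rw [hθ, sub_lt_self_iff]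
    positivity
  set a : ℝ := 8 * (d : ℝ) * M * pz d with ha
  have hY : ∀ n, ∫ u, ‖UU (ρ (n + 1)) u‖ ^ 2 ∂(ρ (n + 2)) ≤ (θ ^ n + 2 * M * a) * S := by
    intro n
    induction n with
    | zero =>
      have h1 : ∫ u, ‖UU (ρ (0 + 1)) u‖ ^ 2 ∂(ρ (0 + 2)) ≤ S :=
        h1_int (hc.us _) (fun _ => sq_nonneg _) (hS _)
      refine h1.trans ?_
      rw [pow_zero]
      have h2 : 0 ≤ 2 * M * a * S := by
        rw [ha]
        have : 0 ≤ pz d := by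
          unfold pz
          positivity
        positivity
      linarith
    | succ n ih =>
      have h1 := contr hP hc hN hI n (hS (n + 1))
      have h2 : ∫ u, ‖UU (ρ (n + 1 + 1)) u‖ ^ 2 ∂(ρ (n + 1 + 2)) ≤
          θ * (∫ u, ‖UU (ρ (n + 1)) u‖ ^ 2 ∂(ρ (n + 2))) + a * S := h1
      refine h2.trans ?_
      have h3 := mul_le_mul_of_nonneg_left ih hθ0
      have h4 : θ * (2 * M * a) + a = 2 * M * a := by
        rw [hθ]
        field_simp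
        ring
      calc θ * (∫ u, ‖UU (ρ (n + 1)) u‖ ^ 2 ∂(ρ (n + 2))) + a * S
          ≤ θ * ((θ ^ n + 2 * M * a) * S) + a * S := by linarith
        _ = (θ ^ (n + 1) + (θ * (2 * M * a) + a)) * S := by ring
        _ = (θ ^ (n + 1) + 2 * M * a) * S := by rw [h4]
  have hp0 : 0 < pz d := by
    unfold pz
    have : (0 : ℝ) < (d : ℝ) := by
      have h1 := hP.hjd
      exact_mod_cast (by omega : 0 < d)
    positivity
  obtain ⟨N0, hN0⟩ := (((tendsto_pow_atTop_nhds_zero_of_lt_one hθ0 hθ1).eventually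
    (gt_mem_nhds hp0)).exists_forall_of_atTop)
  have hhalf : ∀ (l : ℕ), N0 ≤ l → ∀ y : V, ‖y‖ = 1 → ‖UU (ρ (l + 3)) y‖ ^ 2 ≤ 1 / 2 * S := by
    intro l hl y hy
    have h1 := smooth hP hc hN hI l (hS (l + 1)) hy
    have h2 := hY l
    have h3 : θ ^ l ≤ pz d := (hN0 l hl).le
    have h4 : (∫ u, ‖UU (ρ (l + 1)) u‖ ^ 2 ∂(ρ (l + 2))) + pz d * S ≤
        ((pz d + 2 * M * a) + pz d) * S := by
      have h5 : (θ ^ l + 2 * M * a) * S ≤ (pz d + 2 * M * a) * S :=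
        mul_le_mul_of_nonneg_right (by linarith) hS0
      calc (∫ u, ‖UU (ρ (l + 1)) u‖ ^ 2 ∂(ρ (l + 2))) + pz d * S
          ≤ (pz d + 2 * M * a) * S + pz d * S := by linarith
        _ = _ := by ring
    refine h1.trans ?_
    calc 32 * (d : ℝ) ^ 2 * M ^ 2 * ((∫ u, ‖UU (ρ (l + 1)) u‖ ^ 2 ∂(ρ (l + 2))) + pz d * S)
        ≤ 32 * (d : ℝ) ^ 2 * M ^ 2 * (((pz d + 2 * M * a) + pz d) * S) :=
          mul_le_mul_of_nonneg_left h4 (by positivity)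
      _ = (32 * (d : ℝ) ^ 2 * M ^ 2 * ((pz d + 2 * M * a) + pz d)) * S := by ring
      _ ≤ 1 / 2 * S := mul_le_mul_of_nonneg_right (h1_num hP) hS0
  have hperl : ∀ (l n : ℕ) (y : V), UU (ρ (n + l * m)) y = UU (ρ n) y := by
    intro l
    induction l with
    | zero => intro n y; rw [Nat.zero_mul, Nat.add_zero]
    | succ l ih =>
      intro n y
      have h1 : n + (l + 1) * m = (n + l * m) + m := by ring
      rw [h1, hper, ih]
  have hall : ∀ (n : ℕ) (y : V), ‖y‖ = 1 → ‖UU (ρ n) y‖ ^ 2 ≤ 1 / 2 * S := by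
    intro n y hy
    have h1 : N0 + 3 ≤ (N0 + 3) * m := Nat.le_mul_of_pos_right _ hm
    obtain ⟨l, hl⟩ : ∃ l, n + (N0 + 3) * m = l + 3 := ⟨n + (N0 + 3) * m - 3, by omega⟩
    rw [← hperl (N0 + 3) n y, hl]
    exact hhalf l (by omega) y hy
  have hSle : S ≤ 1 / 2 * S := by
    refine csSup_le hne ?_
    rintro s ⟨n, y, hy, rfl⟩
    exact hall n y hy
  have hfin := hS n u hu
  have h9 : ‖UU (ρ n) u‖ ^ 2 = 0 := le_antisymm (by linarith) (sq_nonneg _)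
  exact norm_eq_zero.1 (pow_eq_zero_iff (two_ne_zero)|>.1 h9)

end Pool.Agent.PBL
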