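import Pool.Agent.PBL.Defs
import Pool.Agent.HP89.A1a

/-! Module PBL-H2: if the tangential gradient vanishes, the support function is constant on the sphere. -/

set_option autoImplicit false

namespace Pool.Agent.PBL
open MeasureTheory ProbabilityTheory Set Filter Topology Metric
open Pool.Agent.HP89 Pool.Agent.FI75
open scoped RealInnerProductSpace ENNReal

variable {V : Type*} [NormedAddCommGroup V] [InnerProductSpace ℝ V] [FiniteDimensional ℝ V]
  [MeasurableSpace V] [BorelSpace V]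

private theorem meas_sign (u : V) : Measurable (fun x : V => Real.sign ⟪x, u⟫) := by
  have h1 : Measurable Real.sign := by
    unfold Real.sign
    refine Measurable.ite (measurableSet_lt measurable_id measurable_const) measurable_const ?_
    exact Measurable.ite (measurableSet_lt measurable_const measurable_id) measurable_const measurable_const
  exact h1.comp (by fun_prop)

private theorem abs_sign_le (t : ℝ) : |Real.sign t| ≤ 1 := by
  rcases Real.sign_apply_eq t with h | h | h <;> rw [h] <;> norm_num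

private theorem int_Gr {ρ : Measure V} (hρ : US ρ) (u : V) : Integrable (fun x => Real.sign ⟪x, u⟫ • x) ρ := by
  have := hρ.prob
  refine Integrable.of_bound (C := 1) ((meas_sign u).smul measurable_id).aestronglyMeasurable ?_
  filter_upwards [hρ.unit] with x hx
  rw [norm_smul, hx, mul_one, Real.norm_eq_abs]
  exact abs_sign_le _

private theorem int_abs {ρ : Measure V} (hρ : US ρ) (u : V) : Integrable (fun x : V => |⟪x, u⟫|) ρ := by
  have := hρ.prob
  refine Integrable.of_bound (C := ‖u‖) (by fun_prop) ?_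
  filter_upwards [hρ.unit] with x hx
  rw [Real.norm_eq_abs, abs_abs]
  refine (abs_real_inner_le_norm _ _).trans ?_
  rw [hx, one_mul]

private theorem sq_eq_one_iff_of_two {t : ℝ} (h : t ^ 2 = 1) : t = 1 ∨ t = -1 := by
  have h1 : (t - 1) * (t + 1) = 0 := by linarith [h, sq t]
  rcases mul_eq_zero.1 h1 with h2 | h2
  · left; linarith
  · right; linarith

private theorem step {ρ : Measure V} (hρ : US ρ) (h : ∀ u, ‖u‖ = 1 → UU ρ u = 0) {u v : V} (hu : ‖u‖ = 1) :
    hf ρ u * ⟪u, v⟫ ≤ hf ρ v := by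
  have h1 : ∀ w, ⟪Gr ρ u, w⟫ = ∫ x, Real.sign ⟪x, u⟫ * ⟪x, w⟫ ∂ρ := by
    intro w
    have h2 : ⟪Gr ρ u, w⟫ = ∫ x, ⟪w, Real.sign ⟪x, u⟫ • x⟫ ∂ρ := by
      rw [real_inner_comm]
      exact (integral_inner (int_Gr hρ u) w).symm
    rw [h2]
    congr 1
    funext x
    rw [inner_smul_right, real_inner_comm w x]
  have h2 : ⟪Gr ρ u, u⟫ = hf ρ u := by
    rw [h1 u]
    unfold hf
    congr 1
    funext x
    rcases lt_trichotomy ⟪x, u⟫ 0 with h3 | h3 | h3
    · rw [Real.sign_of_neg h3, abs_of_neg h3]; ring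
    · rw [h3]; simp
    · rw [Real.sign_of_pos h3, abs_of_pos h3]; ring
  have h3 : Gr ρ u = hf ρ u • u := by
    have h4 := h u hu
    unfold UU ort at h4
    rw [hu, real_inner_comm, h2] at h4
    simp only [one_pow, div_one] at h4
    exact sub_eq_zero.1 h4
  have h4 : hf ρ u * ⟪u, v⟫ = ⟪Gr ρ u, v⟫ := by
    rw [h3, real_inner_smul_left]
  rw [h4, h1 v]
  unfold hf
  have := hρ.prob
  refine integral_mono ?_ (int_abs hρ v) fun x => ?_
  · refine (int_abs hρ v).mono' ((meas_sign u).mul (by fun_prop)).aestronglyMeasurable ?_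
    refine Eventually.of_forall fun x => ?_
    rw [Real.norm_eq_abs, abs_mul]
    calc |Real.sign ⟪x, u⟫| * |⟪x, v⟫| ≤ 1 * |⟪x, v⟫| := mul_le_mul_of_nonneg_right (abs_sign_le _) (abs_nonneg _)
      _ = |⟪x, v⟫| := one_mul _
  · calc Real.sign ⟪x, u⟫ * ⟪x, v⟫ ≤ |Real.sign ⟪x, u⟫ * ⟪x, v⟫| := le_abs_self _
      _ = |Real.sign ⟪x, u⟫| * |⟪x, v⟫| := abs_mul _ _
      _ ≤ 1 * |⟪x, v⟫| := mul_le_mul_of_nonneg_right (abs_sign_le _) (abs_nonneg _)
      _ = |⟪x, v⟫| := one_mul _

private theorem le_of_step {f : V → ℝ} (hf0 : ∀ u, 0 ≤ f u) (hneg : ∀ u, f (-u) = f u)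
    (hs : ∀ u v : V, ‖u‖ = 1 → ‖v‖ = 1 → f u * ⟪u, v⟫ ≤ f v) {u v : V} (hu : ‖u‖ = 1) (hv : ‖v‖ = 1) : f u ≤ f v := by
  by_cases h1 : v = u
  · rw [h1]
  by_cases h2 : v = -u
  · rw [h2, hneg]
  set c : ℝ := ⟪u, v⟫ with hc
  have hc1 : c < 1 := by
    rw [hc]
    refine lt_of_le_of_ne ?_ ?_
    · have := real_inner_le_norm u v
      rwa [hu, hv, one_mul] at this
    · intro h3
      exact h1 ((inner_eq_one_iff_of_norm_eq_one hu hv).1 h3).symm
  have hc2 : -1 < c := by
    rw [hc]
    refine lt_of_le_of_ne ?_ ?_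
    · have := neg_le_of_abs_le (abs_real_inner_le_norm u v)
      rwa [hu, hv, one_mul] at this
    · intro h3
      apply h2
      have h4 : ⟪-u, v⟫ = 1 := by rw [inner_neg_left, ← h3, neg_neg]
      exact ((inner_eq_one_iff_of_norm_eq_one (by rw [norm_neg]; exact hu) hv).1 h4).symm
  set φ : ℝ := Real.arccos c with hφ
  have hcos : Real.cos φ = c := Real.cos_arccos hc2.le hc1.le
  have hφ0 : 0 ≤ φ := Real.arccos_nonneg c
  have hφπ : φ ≤ Real.pi := Real.arccos_le_pi c
  have hsin2 : Real.sin φ ^ 2 = 1 - c ^ 2 := by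
    have := Real.sin_sq_add_cos_sq φ
    rw [hcos] at this
    linarith
  have hsin0 : Real.sin φ ≠ 0 := by
    intro h3
    rw [h3] at hsin2
    nlinarith
  set e : V := (Real.sin φ)⁻¹ • (v - c • u) with he
  have hue : ⟪u, e⟫ = 0 := by
    rw [he, inner_smul_right, inner_sub_right, inner_smul_right, real_inner_self_eq_norm_sq, hu, ← hc]
    ring
  have hee : ‖e‖ = 1 := by
    have h3 : ‖v - c • u‖ ^ 2 = 1 - c ^ 2 := by
      rw [norm_sub_sq_real, norm_smul, inner_smul_right, real_inner_comm, ← hc, hu, hv, Real.norm_eq_abs, mul_one,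
        sq_abs]
      ring
    have h4 : ‖e‖ ^ 2 = 1 := by
      rw [he, norm_smul, mul_pow, h3, ← hsin2, norm_inv, Real.norm_eq_abs, inv_pow, sq_abs]
      exact inv_mul_cancel₀ (pow_ne_zero 2 hsin0)
    have h5 : ‖e‖ = 1 ∨ ‖e‖ = -1 := sq_eq_one_iff_of_two h4
    rcases h5 with h6 | h6
    · exact h6
    · have := norm_nonneg e
      rw [h6] at this
      linarith
  set w : ℝ → V := fun t => Real.cos t • u + Real.sin t • e with hw
  have hinn : ∀ s t, ⟪w s, w t⟫ = Real.cos (t - s) := by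
    intro s t
    simp only [hw, inner_add_left, inner_add_right, inner_smul_left, inner_smul_right, real_inner_self_eq_norm_sq, hu,
      hee, hue, real_inner_comm u e, Real.cos_sub]
    simp
  have hwn : ∀ t, ‖w t‖ = 1 := by
    intro t
    have h3 := hinn t t
    rw [sub_self, Real.cos_zero, real_inner_self_eq_norm_sq] at h3
    have h5 : ‖w t‖ = 1 ∨ ‖w t‖ = -1 := sq_eq_one_iff_of_two h3
    rcases h5 with h6 | h6
    · exact h6
    · have := norm_nonneg (w t)
      rw [h6] at this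
      linarith
  have hw0 : w 0 = u := by simp [hw]
  have hwφ : w φ = v := by
    simp only [hw, hcos, he, smul_smul, mul_inv_cancel₀ hsin0, one_smul]
    abel
  have hN : ∀ N : ℕ, 2 ≤ N → f u * (1 - φ ^ 2 / (2 * N)) ≤ f v := by
    intro N hN2
    have hNr : (2 : ℝ) ≤ N := by exact_mod_cast hN2
    have hN0 : (0 : ℝ) < N := by linarith
    have hcN : 0 ≤ Real.cos (φ / N) := by
      apply Real.cos_nonneg_of_mem_Icc
      constructor
      · have : 0 ≤ φ / N := by positivity
        have := Real.pi_pos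
        linarith
      · calc φ / N ≤ Real.pi / 2 := by
              apply div_le_div₀ Real.pi_pos.le hφπ (by norm_num) hNr
          _ = Real.pi / 2 := rfl
    have hind : ∀ i : ℕ, f u * Real.cos (φ / N) ^ i ≤ f (w (i * (φ / N))) := by
      intro i
      induction i with
      | zero => simp [hw0]
      | succ i ih =>
        have h3 := hs (w (i * (φ / N))) (w ((i + 1 : ℕ) * (φ / N))) (hwn _) (hwn _)
        rw [hinn] at h3
        have h4 : ((i + 1 : ℕ) : ℝ) * (φ / N) - i * (φ / N) = φ / N := by push_cast; ring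
        rw [h4] at h3
        calc f u * Real.cos (φ / N) ^ (i + 1) = f u * Real.cos (φ / N) ^ i * Real.cos (φ / N) := by ring
          _ ≤ f (w (i * (φ / N))) * Real.cos (φ / N) := mul_le_mul_of_nonneg_right ih hcN
          _ ≤ _ := h3
    have h5 := hind N
    have h6 : (N : ℝ) * (φ / N) = φ := by field_simp
    rw [h6, hwφ] at h5
    refine le_trans (mul_le_mul_of_nonneg_left ?_ (hf0 u)) h5
    have h7 : 1 - (φ / N) ^ 2 / 2 ≤ Real.cos (φ / N) := Real.one_sub_sq_div_two_le_cos
    have h8 : (φ / N) ^ 2 / 2 ≤ 2 := by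
      have h9 : φ / N ≤ 2 := by
        rw [div_le_iff₀ hN0]
        have := Real.pi_le_four
        linarith
      have h10 : 0 ≤ φ / N := by positivity
      nlinarith
    have h11 := one_add_mul_le_pow (a := -((φ / N) ^ 2 / 2)) (by linarith) N
    by_cases h12 : 0 ≤ 1 - (φ / N) ^ 2 / 2
    · calc 1 - φ ^ 2 / (2 * N) = 1 + (N : ℝ) * (-((φ / N) ^ 2 / 2)) := by field_simp; ring
        _ ≤ (1 + -((φ / N) ^ 2 / 2)) ^ N := h11
        _ ≤ Real.cos (φ / N) ^ N := by
            apply pow_le_pow_left₀ (by linarith)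
            linarith
    · push Not at h12
      refine le_trans ?_ (pow_nonneg hcN N)
      have h13 : φ ^ 2 / (2 * N) = N * ((φ / N) ^ 2 / 2) := by field_simp
      rw [h13]
      nlinarith
  have hlim : Tendsto (fun N : ℕ => f u * (1 - φ ^ 2 / (2 * N))) atTop (𝓝 (f u * (1 - 0))) := by
    refine Tendsto.const_mul _ (Tendsto.const_sub _ ?_)
    refine Tendsto.div_atTop tendsto_const_nhds ?_
    exact Tendsto.const_mul_atTop (by norm_num) tendsto_natCast_atTop_atTop
  rw [sub_zero, mul_one] at hlim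
  exact le_of_tendsto hlim (eventually_atTop.2 ⟨2, hN⟩)

theorem hf_const {ρ : Measure V} (hρ : US ρ) (h : ∀ u, ‖u‖ = 1 → UU ρ u = 0) {u v : V} (hu : ‖u‖ = 1) (hv : ‖v‖ = 1) :
    hf ρ u = hf ρ v := by
  have h0 : ∀ u, 0 ≤ hf ρ u := fun u => integral_nonneg fun x => abs_nonneg _
  have hneg : ∀ u, hf ρ (-u) = hf ρ u := by
    intro u
    unfold hf
    congr 1
    funext x
    rw [inner_neg_right, abs_neg]
  have hs : ∀ u v : V, ‖u‖ = 1 → ‖v‖ = 1 → hf ρ u * ⟪u, v⟫ ≤ hf ρ v := fun u v hu _ => step hρ h hu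
  exact le_antisymm (le_of_step h0 hneg hs hu hv) (le_of_step h0 hneg hs hv hu)

end Pool.Agent.PBL
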