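import Pool.Agent.PBL.R1
import Pool.Agent.PBL.H1
import Pool.Agent.PBL.H2
import Pool.Agent.PBL.E6
import Pool.Agent.PBL.E7
import Pool.Agent.PBL.E8
import Pool.Agent.FI75.E5

/-! Module PBL-R2 (the support functions of a periodic chain of bodies are constant on the sphere). -/

set_option autoImplicit false

namespace Pool.Agent.PBL
open MeasureTheory ProbabilityTheory Set Filter Topology Metric
open Pool.Agent.HP89 Pool.Agent.FI75
open Pool.Agent.Helper82.Proj1 (supp shadow kappa)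
open scoped RealInnerProductSpace ENNReal Pointwise

variable {V : Type*} [NormedAddCommGroup V] [InnerProductSpace ℝ V] [FiniteDimensional ℝ V]
  [MeasurableSpace V] [BorelSpace V]

/-- the measures on the sphere which belong to a chain of bodies. -/
theorem chain_measures {j m : ℕ} (hj : 1 ≤ j) (hjd : j < Module.finrank ℝ V) (hm : 1 ≤ m)
    (D : ℕ → Set V) (hD : ∀ n, CC (D n)) (hper : ∀ n, D (n + m) = D n)
    (s : ℕ → ℝ) (hs : ∀ n, 0 < s n) (hpb : ∀ n, IsPB j (D n) (s n • D (n + 1)))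
    (hne : ∀ n, ∃ u, ‖u‖ = 1 ∧ supp (D n) u ≠ 0) :
    ∃ ρ : ℕ → Measure V, Ch j ρ ∧ (∀ n, ∃ τ : Measure V, US τ ∧ 0 < en j τ ∧ ρ n = Nop j τ) ∧
      ∀ n, ∃ c : ℝ, 0 < c ∧ ∀ u, ‖u‖ = 1 → supp (D n) u = c * hf (ρ n) u := by
  have hstep : ∀ n (μ : Measure V), IsFiniteMeasure μ → Integrable (fun x => ‖x‖) μ → GenC (supp (D n)) μ →
      GenC (supp (D (n + 1))) (nuw j μ) ∧ iter μ j ew [] ≠ 0 := by
    intro n μ h1 h3 h4
    exact gen_next hjd (hD n) (hD (n + 1)) (hs n) (hpb n) (hne (n + 1)) h3 h4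
  -- a generating measure of `D 0`
  obtain ⟨q, hq⟩ : ∃ q, q + 1 = m := ⟨m - 1, by omega⟩
  have hzon : Zon (supp (D (q + 1))) := by
    have h1 := (geoI hjd (hD q) (hpb q)).smul (inv_nonneg.2 (hs q).le)
    refine h1.congr ?_
    intro u hu
    rw [supp_smul_left (hD (q + 1)) (hs q).le]
    have := (hs q).ne'
    field_simp
  obtain ⟨μ0, hfin0, hint0, hμ0⟩ := hzon
  have hDm : D (q + 1) = D 0 := by
    rw [hq]
    have := hper 0
    rwa [zero_add] at this
  rw [hDm] at hμ0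
  have g0 : GenC (supp (D 0)) μ0 := ⟨1, one_pos, fun u hu => by rw [one_mul]; exact hμ0 u hu⟩
  set μ : ℕ → Measure V := fun n => (nuw j)^[n] μ0 with hμ
  have hμs : ∀ n, μ (n + 1) = nuw j (μ n) := by
    intro n
    simp only [hμ]
    rw [Function.iterate_succ_apply']
  have hall : ∀ n, IsFiniteMeasure (μ n) ∧ Integrable (fun x => ‖x‖) (μ n) ∧ GenC (supp (D n)) (μ n) := by
    intro n
    induction n with
    | zero => exact ⟨hfin0, hint0, g0⟩
    | succ n ih =>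
      obtain ⟨h1, h2, h3⟩ := ih
      rw [hμs]
      exact ⟨nuw_finite j _ h2, nuw_integrable j _ h2, (hstep n _ h1 h2 h3).1⟩
  have hit : ∀ n, iter (μ n) j ew [] ≠ 0 := fun n => (hstep n _ (hall n).1 (hall n).2.1 (hall n).2.2).2
  have hpos : ∀ n, 0 < (∫ x, ‖x‖ ∂(μ n)) ∧ 0 < en j (sph (μ n)) := by
    intro n
    have := (hall n).1
    exact sph_pos (hall n).2.1 hj (hit n)
  have hus : ∀ n, US (sph (μ n)) := by
    intro n
    have := (hall n).1
    exact sph_us (hall n).2.1 (hpos n).1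
  have hnop : ∀ n, sph (μ (n + 1)) = Nop j (sph (μ n)) := by
    intro n
    have := (hall n).1
    rw [hμs]
    exact sph_nuw (hall n).2.1 hj hjd (hit n)
  refine ⟨fun n => sph (μ (n + m)), ⟨fun n => hus _, fun n => (hpos _).2, fun n => ?_⟩, fun n => ?_, fun n => ?_⟩
  · have h1 : n + 1 + m = n + m + 1 := by ring
    simp only [h1]
    exact hnop _
  · refine ⟨sph (μ (n + q)), hus _, (hpos _).2, ?_⟩
    have h1 : n + m = n + q + 1 := by omega
    simp only [h1]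
    exact hnop _
  · obtain ⟨h1, h2, c, hc, h3⟩ := hall (n + m)
    refine ⟨c * ∫ x, ‖x‖ ∂(μ (n + m)), mul_pos hc (hpos _).1, fun u hu => ?_⟩
    have h4 := h3 u hu
    rw [hper n] at h4
    rw [h4, sph_hf h2 (hpos _).1 u]
    ring

/-- the support functions are constant on the sphere. -/
theorem chain_const {j m : ℕ} {M : ℝ} (hP : Par (Module.finrank ℝ V) j M) (hm : 1 ≤ m)
    (hcase : m = 1 ∨ (Module.finrank ℝ V : ℝ) ≤ M * ((Module.finrank ℝ V : ℝ) - 2 * j))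
    (D : ℕ → Set V) (hD : ∀ n, CC (D n)) (hper : ∀ n, D (n + m) = D n)
    (s : ℕ → ℝ) (hs : ∀ n, 0 < s n) (hpb : ∀ n, IsPB j (D n) (s n • D (n + 1)))
    (hne : ∀ n, ∃ u, ‖u‖ = 1 ∧ supp (D n) u ≠ 0) (n : ℕ) (u v : V) (hu : ‖u‖ = 1) (hv : ‖v‖ = 1) :
    supp (D n) u = supp (D n) v := by
  have hjd := hP.hjd
  have hd1 : 1 ≤ Module.finrank ℝ V := by omega
  obtain ⟨ρ, hc, hτ, hgen⟩ := chain_measures hP.hj hjd hm D hD hper s hs hpb hne
  have hN : ∀ n, Nice j M (ρ n) := by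
    intro n
    obtain ⟨τ, h1, h2, h3⟩ := hτ n
    rw [h3]
    exact nice_nop hP h1 h2
  -- equal support functions
  have hhf : ∀ n u, ‖u‖ = 1 → hf (ρ (n + m)) u = hf (ρ n) u := by
    intro n
    obtain ⟨c, hc0, h1⟩ := hgen n
    obtain ⟨c', hc0', h2⟩ := hgen (n + m)
    have h3 : ∀ u, ‖u‖ = 1 → c' * hf (ρ (n + m)) u = c * hf (ρ n) u := by
      intro u hu
      rw [← h1 u hu, ← h2 u hu, hper n]
    have h4 : c' = c := hf_det hd1 (hc.us _) (hc.us _) h3
    subst h4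
    intro u hu
    exact mul_left_cancel₀ hc0.ne' (h3 u hu)
  have hT : ∀ n (u : V), ∫ x, ⟪x, u⟫ ^ 2 ∂(ρ (n + m)) = ∫ x, ⟪x, u⟫ ^ 2 ∂(ρ n) :=
    fun n u => T_det (hc.us _) (hc.us _) (hhf n) u
  have hU : ∀ n u, UU (ρ (n + m)) u = UU (ρ n) u := by
    intro n u
    unfold UU
    rw [Gr_det (hc.us _) (hc.us _) (hhf n) u]
  have hI : ∀ n, Iso M (ρ n) := by
    intro n
    rcases hcase with h1 | h2
    · subst h1
      refine iso_one hP (hN n) (hc.pos n) fun u => ?_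
      rw [← hc.step n]
      exact hT n u
    · exact iso_cyc hP h2 hm hc hN hT n
  have h0 : ∀ u, ‖u‖ = 1 → UU (ρ n) u = 0 := fun u hu => UU_zero hP hm hc hN hI hU n hu
  obtain ⟨c, hc0, h1⟩ := hgen n
  rw [h1 u hu, h1 v hv, hf_const (hc.us n) h0 hu hv]

end Pool.Agent.PBL
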