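import Pool.Agent.PBL.Defs
import Pool.Agent.HP89.A1a

/-! Module PBL-A1 (base case of the Alexandrov-Fenchel inequality: two vectors).
The kernel `1 - √(1 - c²)` is the increasing limit of the kernels `K 0 = 0`, `K (r+1) = (c² + K r ²)/2`, which are
positive semidefinite by the Schur product theorem; so `(p, q) ↦ wn [p, q]` is negative on the hyperplane. -/

set_option autoImplicit false

namespace Pool.Agent.PBL
open MeasureTheory ProbabilityTheory Set Filter Topology Metric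
open Pool.Agent.HP89 Pool.Agent.FI75
open scoped RealInnerProductSpace ENNReal

variable {V : Type*} [NormedAddCommGroup V] [InnerProductSpace ℝ V]

/-- the recursion for `1 - √(1 - x)`. -/
private noncomputable def kk (x : ℝ) : ℕ → ℝ
  | 0 => 0
  | r + 1 => (x + kk x r ^ 2) / 2

private theorem kk_nonneg {x : ℝ} (hx : 0 ≤ x) (r : ℕ) : 0 ≤ kk x r := by
  cases r with
  | zero => exact le_rfl
  | succ r => rw [kk]; positivity

private theorem kk_le {x : ℝ} (hx : 0 ≤ x) (hx1 : x ≤ 1) (r : ℕ) : kk x r ≤ 1 - √(1 - x) := by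
  have hs : √(1 - x) ^ 2 = 1 - x := Real.sq_sqrt (by linarith)
  have hs1 : √(1 - x) ≤ 1 := by
    rw [Real.sqrt_le_one]
    linarith
  have hs0 : 0 ≤ √(1 - x) := Real.sqrt_nonneg _
  induction r with
  | zero => rw [kk]; linarith
  | succ r ih =>
    rw [kk]
    have h0 := kk_nonneg hx r
    have h1 : kk x r ^ 2 ≤ (1 - √(1 - x)) ^ 2 := by
      apply pow_le_pow_left₀ h0 ih
    nlinarith

private theorem kk_mono {x : ℝ} (hx : 0 ≤ x) : Monotone (kk x) := by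
  apply monotone_nat_of_le_succ
  intro r
  induction r with
  | zero =>
    rw [kk]
    exact kk_nonneg hx 1
  | succ r ih =>
    have h0 := kk_nonneg hx r
    have h1 : kk x r ^ 2 ≤ kk x (r + 1) ^ 2 := pow_le_pow_left₀ h0 ih 2
    have e1 : kk x (r + 1) = (x + kk x r ^ 2) / 2 := rfl
    have e2 : kk x (r + 1 + 1) = (x + kk x (r + 1) ^ 2) / 2 := rfl
    rw [e2]
    rw [e1] at h1 ⊢
    linarith

private theorem kk_tendsto {x : ℝ} (hx : 0 ≤ x) (hx1 : x ≤ 1) :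
    Tendsto (kk x) atTop (𝓝 (1 - √(1 - x))) := by
  have hb : BddAbove (Set.range (kk x)) := by
    refine ⟨1 - √(1 - x), ?_⟩
    rintro _ ⟨r, rfl⟩
    exact kk_le hx hx1 r
  have h1 := tendsto_atTop_ciSup (kk_mono hx) hb
  set L := ⨆ r, kk x r with hL
  have h2 : Tendsto (fun r => kk x (r + 1)) atTop (𝓝 L) := h1.comp (tendsto_add_atTop_nat 1)
  have h3 : Tendsto (fun r => kk x (r + 1)) atTop (𝓝 ((x + L ^ 2) / 2)) := by
    have : (fun r => kk x (r + 1)) = fun r => (x + kk x r ^ 2) / 2 := rfl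
    rw [this]
    exact ((h1.pow 2).const_add x).div_const 2
  have h4 : L = (x + L ^ 2) / 2 := tendsto_nhds_unique h2 h3
  have h5 : L ≤ 1 - √(1 - x) := le_of_tendsto' h1 (kk_le hx hx1)
  have hs0 : 0 ≤ √(1 - x) := Real.sqrt_nonneg _
  have h6 : √(1 - x) = 1 - L := by
    rw [Real.sqrt_eq_iff_eq_sq (by linarith) (by linarith)]
    linarith
  have h7 : L = 1 - √(1 - x) := by linarith
  rw [← h7]
  exact h1

private theorem kk_pos {ι : Type*} [Fintype ι] (q : ι → V) (r : ℕ) :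
    (Matrix.of fun i l => kk (⟪q i, q l⟫ ^ 2) r : Matrix ι ι ℝ).PosSemidef := by
  induction r with
  | zero =>
    have : (Matrix.of fun i l => kk (⟪q i, q l⟫ ^ 2) 0 : Matrix ι ι ℝ) = 0 := by
      ext i l
      rfl
    rw [this]
    exact Matrix.PosSemidef.zero
  | succ r ih =>
    have hg : (Matrix.gram ℝ q).PosSemidef := Matrix.posSemidef_gram ℝ q
    have h1 := (hg.hadamard hg).add (ih.hadamard ih)
    have h2 := h1.smul (show (0 : ℝ) ≤ 1 / 2 by norm_num)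
    have e : (Matrix.of fun i l => kk (⟪q i, q l⟫ ^ 2) (r + 1) : Matrix ι ι ℝ) =
        (1 / 2 : ℝ) • ((Matrix.gram ℝ q).hadamard (Matrix.gram ℝ q) +
          (Matrix.of fun i l => kk (⟪q i, q l⟫ ^ 2) r : Matrix ι ι ℝ).hadamard
            (Matrix.of fun i l => kk (⟪q i, q l⟫ ^ 2) r)) := by
      ext i l
      simp only [Matrix.of_apply, Matrix.smul_apply, Matrix.add_apply, Matrix.hadamard_apply,
        Matrix.gram_apply, kk, smul_eq_mul]
      ring
    rw [e]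
    exact h2

private theorem sum_sqrt_neg {ι : Type*} [Fintype ι] (q : ι → V) (hq : ∀ i, ‖q i‖ ≤ 1) (b : ι → ℝ)
    (h : ∑ i, b i = 0) : ∑ i, ∑ l, b i * b l * √(1 - ⟪q i, q l⟫ ^ 2) ≤ 0 := by
  have hx : ∀ i l, ⟪q i, q l⟫ ^ 2 ≤ 1 := by
    intro i l
    have h1 : |⟪q i, q l⟫| ≤ 1 := by
      refine (abs_real_inner_le_norm _ _).trans ?_
      exact mul_le_one₀ (hq i) (norm_nonneg _) (hq l)
    rw [← sq_abs]
    exact pow_le_one₀ (abs_nonneg _) h1
  have h1 : Tendsto (fun r => ∑ i, ∑ l, b i * b l * kk (⟪q i, q l⟫ ^ 2) r) atTop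
      (𝓝 (∑ i, ∑ l, b i * b l * (1 - √(1 - ⟪q i, q l⟫ ^ 2)))) := by
    refine tendsto_finsetSum _ fun i _ => tendsto_finsetSum _ fun l _ => ?_
    exact (kk_tendsto (sq_nonneg _) (hx i l)).const_mul _
  have h2 : ∀ r, 0 ≤ ∑ i, ∑ l, b i * b l * kk (⟪q i, q l⟫ ^ 2) r := by
    intro r
    have h3 := (kk_pos q r).dotProduct_mulVec_nonneg b
    refine h3.trans (le_of_eq ?_)
    rw [dotProduct]
    refine Finset.sum_congr rfl fun i _ => ?_
    have e : star b i = b i := rfl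
    rw [e, Matrix.mulVec, dotProduct, Finset.mul_sum]
    refine Finset.sum_congr rfl fun l _ => ?_
    rw [Matrix.of_apply]
    ring
  have h3 : 0 ≤ ∑ i, ∑ l, b i * b l * (1 - √(1 - ⟪q i, q l⟫ ^ 2)) := ge_of_tendsto' h1 h2
  have h4 : ∑ i, ∑ l, b i * b l * (1 - √(1 - ⟪q i, q l⟫ ^ 2)) =
      (∑ i, b i) * (∑ l, b l) - ∑ i, ∑ l, b i * b l * √(1 - ⟪q i, q l⟫ ^ 2) := by
    rw [Finset.sum_mul_sum, ← Finset.sum_sub_distrib]
    refine Finset.sum_congr rfl fun i _ => ?_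
    rw [← Finset.sum_sub_distrib]
    exact Finset.sum_congr rfl fun l _ => by ring
  rw [h4, h] at h3
  linarith

theorem base_neg {ι : Type*} [Fintype ι] (p : ι → V) (a : ι → ℝ) (h : ∑ i, a i * ‖p i‖ = 0) :
    ∑ i, ∑ l, a i * a l * wn [p i, p l] ≤ 0 := by
  have hq : ∀ i, ‖(‖p i‖⁻¹ • p i)‖ ≤ 1 := by
    intro i
    rw [norm_smul, norm_inv, norm_norm]
    exact inv_mul_le_one
  have hp : ∀ i, p i = ‖p i‖ • (‖p i‖⁻¹ • p i) := by
    intro i
    by_cases h0 : p i = 0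
    · simp [h0]
    · rw [smul_smul, mul_inv_cancel₀ (norm_ne_zero_iff.2 h0), one_smul]
  have hw : ∀ i l, wn [p i, p l] =
      ‖p i‖ * ‖p l‖ * √(1 - ⟪‖p i‖⁻¹ • p i, ‖p l‖⁻¹ • p l⟫ ^ 2) := by
    intro i l
    have h1 : wn [p i, p l] = ‖p l‖ * ‖ort (p l) (p i)‖ := by
      rw [wn_cons, wn_singleton, res_cons, res_nil, res_nil]
    have h2 := norm_mul_norm_ort (p l) (p i)
    have h3 : ⟪p l, p i⟫ = ‖p i‖ * ‖p l‖ * ⟪‖p i‖⁻¹ • p i, ‖p l‖⁻¹ • p l⟫ := by
      conv_lhs => rw [hp l, hp i]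
      rw [real_inner_smul_left, real_inner_smul_right, real_inner_comm]
      ring
    have hc : ⟪‖p i‖⁻¹ • p i, ‖p l‖⁻¹ • p l⟫ ^ 2 ≤ 1 := by
      have h5 : |⟪‖p i‖⁻¹ • p i, ‖p l‖⁻¹ • p l⟫| ≤ 1 := by
        refine (abs_real_inner_le_norm _ _).trans ?_
        exact mul_le_one₀ (hq i) (norm_nonneg _) (hq l)
      rw [← sq_abs]
      exact pow_le_one₀ (abs_nonneg _) h5
    have h4 : (‖p l‖ * ‖ort (p l) (p i)‖) ^ 2 =
        (‖p i‖ * ‖p l‖ * √(1 - ⟪‖p i‖⁻¹ • p i, ‖p l‖⁻¹ • p l⟫ ^ 2)) ^ 2 := by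
      rw [h2, mul_pow, Real.sq_sqrt (by linarith), h3]
      ring
    rw [h1]
    exact (sq_eq_sq₀ (by positivity) (by positivity)).1 h4
  have key := sum_sqrt_neg (fun i => ‖p i‖⁻¹ • p i) hq (fun i => a i * ‖p i‖) h
  refine le_trans (le_of_eq ?_) key
  refine Finset.sum_congr rfl fun i _ => Finset.sum_congr rfl fun l _ => ?_
  rw [hw]
  ring

end Pool.Agent.PBL
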