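import Pool.Agent.PBL.Defs

/-! Module PBL-A2 (trickling down, finite linear algebra): a symmetric nonnegative matrix `K` with `K ≤ K ω⁻¹ K` (`ω` the row
sums) and connected graph has at most one positive eigenvalue relative to `ω`. -/

set_option autoImplicit false

namespace Pool.Agent.PBL
open MeasureTheory ProbabilityTheory Set Filter Topology Metric
open Pool.Agent.HP89 Pool.Agent.FI75
open scoped RealInnerProductSpace ENNReal

private theorem lin_zero {A B : ℝ} (h : ∀ t : ℝ, 2 * t * A ≤ t ^ 2 * B) : A = 0 := by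
  have hB : 0 ≤ B := by
    have h1 := h 1
    have h2 := h (-1)
    nlinarith
  by_contra hA
  have hpos : 0 < A ^ 2 := by positivity
  have h1 := h (A / (B + 1))
  have hB1 : 0 < B + 1 := by linarith
  have h2 : 2 * (A / (B + 1)) * A = 2 * A ^ 2 / (B + 1) := by ring
  have h3 : (A / (B + 1)) ^ 2 * B = A ^ 2 * B / (B + 1) ^ 2 := by rw [div_pow]; ring
  rw [h2, h3, div_le_div_iff₀ hB1 (by positivity)] at h1
  have h4 : 2 * A ^ 2 * (B + 1) ^ 2 ≤ A ^ 2 * B * (B + 1) := h1
  have h5 : 0 < A ^ 2 * (B + 1) := by positivity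
  nlinarith [mul_pos hpos hB1, mul_nonneg (mul_nonneg hpos.le hB1.le) hB]

private theorem td_aux {ι : Type*} [Fintype ι] (K : ι → ι → ℝ) (hK0 : ∀ i l, 0 ≤ K i l) (hsym : ∀ i l, K i l = K l i)
    (hconn : ∀ a : ι → ℝ, (∀ i l, K i l ≠ 0 → a i = a l) →
      ∀ i l, (∑ r, K i r) ≠ 0 → (∑ r, K l r) ≠ 0 → a i = a l)
    (h : ∀ a : ι → ℝ, ∑ i, ∑ l, a i * K i l * a l ≤ ∑ i, (∑ l, K i l * a l) ^ 2 / (∑ l, K i l))
    (b : ι → ℝ) (hb : ∑ i, (∑ l, K i l) * b i = 0) :
    ∑ i, ∑ l, b i * K i l * b l ≤ 0 := by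
  set ω : ι → ℝ := fun i => ∑ l, K i l with hω
  have hω0 : ∀ i, 0 ≤ ω i := fun i => Finset.sum_nonneg fun l _ => hK0 i l
  have hrow : ∀ i, ω i = 0 → ∀ l, K i l = 0 := by
    intro i hi l
    exact (Finset.sum_eq_zero_iff_of_nonneg (fun l _ => hK0 i l)).1 hi l (Finset.mem_univ l)
  have hcol : ∀ l, ω l = 0 → ∀ i, K i l = 0 := fun l hl i => by rw [hsym]; exact hrow l hl i
  set Q : (ι → ℝ) → ℝ := fun a => ∑ i, ∑ l, a i * K i l * a l with hQ
  set N : (ι → ℝ) → ℝ := fun a => ∑ i, ω i * a i ^ 2 with hN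
  by_contra hcon
  push Not at hcon
  change 0 < Q b at hcon
  -- restriction to the support
  set res : (ι → ℝ) → (ι → ℝ) := fun a i => if ω i = 0 then 0 else a i with hres
  have hQres : ∀ a, Q (res a) = Q a := by
    intro a
    simp only [hQ]
    refine Finset.sum_congr rfl fun i _ => Finset.sum_congr rfl fun l _ => ?_
    by_cases hi : ω i = 0
    · rw [hrow i hi l]; ring
    · by_cases hl : ω l = 0
      · rw [hcol l hl i]; ring
      · simp only [hres, hi, hl, if_false]
  have hNres : ∀ a, N (res a) = N a := by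
    intro a
    simp only [hN]
    refine Finset.sum_congr rfl fun i _ => ?_
    by_cases hi : ω i = 0
    · rw [hi]; ring
    · simp only [hres, hi, if_false]
  have hLres : ∀ a, ∑ i, ω i * res a i = ∑ i, ω i * a i := by
    intro a
    refine Finset.sum_congr rfl fun i _ => ?_
    by_cases hi : ω i = 0
    · rw [hi]; ring
    · simp only [hres, hi, if_false]
  have hQN : ∀ a, N a = 0 → Q a = 0 := by
    intro a ha
    have h1 : ∀ i, ω i * a i ^ 2 = 0 := fun i =>
      (Finset.sum_eq_zero_iff_of_nonneg (fun i _ => mul_nonneg (hω0 i) (sq_nonneg _))).1 ha i (Finset.mem_univ i)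
    rw [← hQres]
    have h2 : res a = 0 := by
      funext i
      simp only [hres, Pi.zero_apply]
      split_ifs with hi
      · rfl
      · rcases mul_eq_zero.1 (h1 i) with h3 | h3
        · exact absurd h3 hi
        · exact pow_eq_zero_iff (two_ne_zero) |>.1 h3
    rw [h2]
    simp [hQ]
  have hN0 : ∀ a, 0 ≤ N a := fun a => Finset.sum_nonneg fun i _ => mul_nonneg (hω0 i) (sq_nonneg _)
  have hQsm : ∀ (c : ℝ) a, Q (fun i => c * a i) = c ^ 2 * Q a := by
    intro c a
    simp only [hQ, Finset.mul_sum]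
    refine Finset.sum_congr rfl fun i _ => Finset.sum_congr rfl fun l _ => ?_
    ring
  have hNsm : ∀ (c : ℝ) a, N (fun i => c * a i) = c ^ 2 * N a := by
    intro c a
    simp only [hN, Finset.mul_sum]
    refine Finset.sum_congr rfl fun i _ => ?_
    ring
  set C : Set (ι → ℝ) := {x | (∀ i, ω i = 0 → x i = 0) ∧ ∑ i, ω i * x i = 0 ∧ N x = 1} with hC
  have hNc : Continuous N := by
    simp only [hN]
    fun_prop
  have hQc : Continuous Q := by
    simp only [hQ]
    fun_prop
  have hCcl : IsClosed C := by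
    have h1 : C = (⋂ i, {x : ι → ℝ | ω i = 0 → x i = 0}) ∩ ({x | ∑ i, ω i * x i = 0} ∩ {x | N x = 1}) := by
      ext x
      simp only [hC, Set.mem_ofPred_eq, Set.mem_inter_iff, Set.mem_iInter]
    rw [h1]
    refine IsClosed.inter (isClosed_iInter fun i => ?_) (IsClosed.inter ?_ ?_)
    · by_cases hi : ω i = 0
      · have : {x : ι → ℝ | ω i = 0 → x i = 0} = {x | x i = 0} := by
          ext x; simp [hi]
        rw [this]
        exact isClosed_eq (continuous_apply i) continuous_const
      · have : {x : ι → ℝ | ω i = 0 → x i = 0} = Set.univ := by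
          ext x; simp [hi]
        rw [this]
        exact isClosed_univ
    · exact isClosed_eq (by fun_prop) continuous_const
    · exact isClosed_eq hNc continuous_const
  have hCb : Bornology.IsBounded C := by
    have hmono : C ⊆ Set.pi Set.univ (fun i => Set.Icc (-(1 + 1 / ω i)) (1 + 1 / ω i)) := by
      intro x hx i _
      obtain ⟨h1, h2, h3⟩ := hx
      by_cases hi : ω i = 0
      · show x i ∈ Set.Icc (-(1 + 1 / ω i)) (1 + 1 / ω i)
        rw [h1 i hi, hi]; norm_num
      · have hpos : 0 < ω i := lt_of_le_of_ne (hω0 i) (Ne.symm hi)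
        have h4 : ω i * x i ^ 2 ≤ 1 := by
          rw [← h3]
          exact Finset.single_le_sum (f := fun i => ω i * x i ^ 2)
            (fun i _ => mul_nonneg (hω0 i) (sq_nonneg _)) (Finset.mem_univ i)
        have h5 : x i ^ 2 ≤ 1 / ω i := by
          rw [le_div_iff₀ hpos]; linarith
        have h6 : 0 ≤ 1 / ω i := by positivity
        have h7 : x i ^ 2 ≤ (1 + 1 / ω i) ^ 2 := by nlinarith
        exact abs_le.1 (abs_le_of_sq_le_sq h7 (by linarith))
    exact (isCompact_univ_pi fun i => isCompact_Icc).isBounded.subset hmono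
  have hCcomp : IsCompact C := Metric.isCompact_of_isClosed_isBounded hCcl hCb
  have hNb : 0 < N b := by
    rcases (hN0 b).lt_or_eq with h1 | h1
    · exact h1
    · rw [hQN b h1.symm] at hcon
      exact absurd hcon (lt_irrefl _)
  have hnorm : ∀ a, ∑ i, ω i * a i = 0 → 0 < N a → (fun i => (√(N a))⁻¹ * res a i) ∈ C ∧
      Q (fun i => (√(N a))⁻¹ * res a i) = Q a / N a := by
    intro a ha hNa
    have hs : (√(N a))⁻¹ ^ 2 = (N a)⁻¹ := by
      rw [inv_pow, Real.sq_sqrt hNa.le]
    refine ⟨⟨fun i hi => ?_, ?_, ?_⟩, ?_⟩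
    · simp only [hres, hi, if_true, mul_zero]
    · have h1 : ∑ i, ω i * ((√(N a))⁻¹ * res a i) = (√(N a))⁻¹ * ∑ i, ω i * res a i := by
        rw [Finset.mul_sum]
        refine Finset.sum_congr rfl fun i _ => ?_
        ring
      rw [h1, hLres, ha, mul_zero]
    · rw [hNsm, hNres, hs, inv_mul_cancel₀ hNa.ne']
    · rw [hQsm, hQres, hs]
      field_simp
  obtain ⟨x, hxC, hxmax⟩ := hCcomp.exists_isMaxOn ⟨_, (hnorm b hb hNb).1⟩ hQc.continuousOn
  obtain ⟨hx1, hx2, hx3⟩ := hxC
  set lam : ℝ := Q x with hlam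
  have hmax : ∀ a, ∑ i, ω i * a i = 0 → Q a ≤ lam * N a := by
    intro a ha
    rcases (hN0 a).lt_or_eq with h1 | h1
    · have h2 := hxmax (hnorm a ha h1).1
      simp only [Set.mem_ofPred_eq] at h2
      rw [(hnorm a ha h1).2, div_le_iff₀ h1] at h2
      exact h2
    · rw [hQN a h1.symm, ← h1, mul_zero]
  have hlpos : 0 < lam := by
    have h1 := hmax b hb
    by_contra h2
    push Not at h2
    nlinarith
  -- the eigenvector equation
  have hopt : ∀ y : ι → ℝ, ∑ i, ω i * y i = 0 → ∑ i, ((∑ l, K i l * x l) - lam * (ω i * x i)) * y i = 0 := by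
    intro y hy
    refine lin_zero (B := lam * N y - Q y) fun t => ?_
    have h1 : ∑ i, ω i * (x i + t * y i) = 0 := by
      have : ∑ i, ω i * (x i + t * y i) = (∑ i, ω i * x i) + t * ∑ i, ω i * y i := by
        rw [Finset.mul_sum, ← Finset.sum_add_distrib]
        refine Finset.sum_congr rfl fun i _ => ?_
        ring
      rw [this, hx2, hy]; ring
    have h2 := hmax (fun i => x i + t * y i) h1
    have h3 : Q (fun i => x i + t * y i) = Q x + 2 * t * (∑ i, (∑ l, K i l * x l) * y i) + t ^ 2 * Q y := by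
      have e1 : ∑ i, ∑ l, x i * K i l * y l = ∑ i, (∑ l, K i l * x l) * y i := by
        rw [Finset.sum_comm]
        refine Finset.sum_congr rfl fun i _ => ?_
        rw [Finset.sum_mul]
        refine Finset.sum_congr rfl fun l _ => ?_
        rw [hsym i l]; ring
      have e2 : ∑ i, ∑ l, y i * K i l * x l = ∑ i, (∑ l, K i l * x l) * y i := by
        refine Finset.sum_congr rfl fun i _ => ?_
        rw [Finset.sum_mul]
        refine Finset.sum_congr rfl fun l _ => ?_
        ring
      have e3 : Q (fun i => x i + t * y i) = Q x + t * (∑ i, ∑ l, x i * K i l * y l) +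
          t * (∑ i, ∑ l, y i * K i l * x l) + t ^ 2 * Q y := by
        simp only [hQ, Finset.mul_sum, ← Finset.sum_add_distrib]
        refine Finset.sum_congr rfl fun i _ => Finset.sum_congr rfl fun l _ => ?_
        ring
      rw [e3, e1, e2]; ring
    have h4 : N (fun i => x i + t * y i) = N x + 2 * t * (∑ i, ω i * x i * y i) + t ^ 2 * N y := by
      simp only [hN, Finset.mul_sum, ← Finset.sum_add_distrib]
      refine Finset.sum_congr rfl fun i _ => ?_
      ring
    have h5 : ∑ i, ((∑ l, K i l * x l) - lam * (ω i * x i)) * y i =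
        (∑ i, (∑ l, K i l * x l) * y i) - lam * ∑ i, ω i * x i * y i := by
      rw [Finset.mul_sum, ← Finset.sum_sub_distrib]
      refine Finset.sum_congr rfl fun i _ => ?_
      ring
    rw [h3, h4, hx3, ← hlam] at h2
    rw [h5]
    linarith
  set r : ι → ℝ := fun i => (∑ l, K i l * x l) - lam * (ω i * x i) with hr
  have hr0 : ∀ i, ω i = 0 → r i = 0 := by
    intro i hi
    simp only [hr]
    rw [hi]
    have : ∑ l, K i l * x l = 0 := Finset.sum_eq_zero fun l _ => by rw [hrow i hi l, zero_mul]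
    rw [this]; ring
  have hsumr : ∑ i, r i = 0 := by
    simp only [hr]
    rw [Finset.sum_sub_distrib, ← Finset.mul_sum, hx2, mul_zero, sub_zero, Finset.sum_comm]
    rw [← hx2]
    refine Finset.sum_congr rfl fun l _ => ?_
    simp only [hω]
    rw [Finset.sum_mul]
    refine Finset.sum_congr rfl fun i _ => ?_
    rw [hsym]
  have hsq : ∑ i, r i * (r i / ω i) = 0 := by
    refine hopt (fun i => r i / ω i) ?_
    rw [← hsumr]
    refine Finset.sum_congr rfl fun i _ => ?_
    by_cases hi : ω i = 0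
    · rw [hr0 i hi]; simp
    · field_simp
  have hrz : ∀ i, r i = 0 := by
    intro i
    by_cases hi : ω i = 0
    · exact hr0 i hi
    · have h1 : r i * (r i / ω i) = 0 := by
        refine (Finset.sum_eq_zero_iff_of_nonneg (fun i _ => ?_)).1 hsq i (Finset.mem_univ i)
        have : r i * (r i / ω i) = r i ^ 2 / ω i := by ring
        rw [this]
        exact div_nonneg (sq_nonneg _) (hω0 i)
      rcases mul_eq_zero.1 h1 with h2 | h2
      · exact h2
      · rcases div_eq_zero_iff.1 h2 with h3 | h3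
        · exact h3
        · exact absurd h3 hi
  have heig : ∀ i, ∑ l, K i l * x l = lam * (ω i * x i) := fun i => by
    have := hrz i
    simp only [hr] at this
    linarith
  -- `lam ≥ 1`
  have hl1 : 1 ≤ lam := by
    have h1 := h x
    change Q x ≤ _ at h1
    have h2 : ∑ i, (∑ l, K i l * x l) ^ 2 / (∑ l, K i l) = lam ^ 2 * N x := by
      simp only [hN]
      rw [Finset.mul_sum]
      refine Finset.sum_congr rfl fun i _ => ?_
      rw [heig i]
      change (lam * (ω i * x i)) ^ 2 / ω i = _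
      by_cases hi : ω i = 0
      · rw [hi]; simp
      · field_simp
    rw [h2, hx3, ← hlam] at h1
    by_contra hlt
    push Not at hlt
    nlinarith
  have hE : ∑ i, ∑ l, K i l * (x i - x l) ^ 2 = 2 * N x - 2 * Q x := by
    have e1 : ∑ i, ∑ l, K i l * x i ^ 2 = N x := by
      simp only [hN, hω]
      refine Finset.sum_congr rfl fun i _ => ?_
      rw [Finset.sum_mul]
    have e2 : ∑ i, ∑ l, K i l * x l ^ 2 = N x := by
      rw [Finset.sum_comm, ← e1]
      refine Finset.sum_congr rfl fun i _ => Finset.sum_congr rfl fun l _ => ?_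
      rw [hsym]
    have e3 : ∑ i, ∑ l, K i l * (x i - x l) ^ 2 =
        (∑ i, ∑ l, K i l * x i ^ 2) + (∑ i, ∑ l, K i l * x l ^ 2) - 2 * Q x := by
      simp only [hQ, Finset.mul_sum, ← Finset.sum_add_distrib, ← Finset.sum_sub_distrib]
      refine Finset.sum_congr rfl fun i _ => Finset.sum_congr rfl fun l _ => ?_
      ring
    rw [e3, e1, e2]; ring
  have hz : ∀ i l, K i l ≠ 0 → x i = x l := by
    intro i l hil
    have h1 : ∑ i, ∑ l, K i l * (x i - x l) ^ 2 ≤ 0 := by
      rw [hE, hx3, ← hlam]; linarith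
    have hnn : ∀ i l, 0 ≤ K i l * (x i - x l) ^ 2 := fun i l => mul_nonneg (hK0 i l) (sq_nonneg _)
    have h2 : K i l * (x i - x l) ^ 2 ≤ 0 := by
      refine le_trans ?_ h1
      refine le_trans (Finset.single_le_sum (f := fun l => K i l * (x i - x l) ^ 2) (fun l _ => hnn i l)
        (Finset.mem_univ l)) ?_
      exact Finset.single_le_sum (f := fun i => ∑ l, K i l * (x i - x l) ^ 2)
        (fun i _ => Finset.sum_nonneg fun l _ => hnn i l) (Finset.mem_univ i)
    have h3 : K i l * (x i - x l) ^ 2 = 0 := le_antisymm h2 (hnn i l)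
    rcases mul_eq_zero.1 h3 with h4 | h4
    · exact absurd h4 hil
    · have := pow_eq_zero_iff (two_ne_zero) |>.1 h4
      linarith
  have hcst := hconn x hz
  -- contradiction
  have hex : ∃ i, ω i ≠ 0 := by
    by_contra hne
    push Not at hne
    have : N x = 0 := by
      simp only [hN]
      exact Finset.sum_eq_zero fun i _ => by rw [hne i, zero_mul]
    rw [this] at hx3
    exact zero_ne_one hx3
  obtain ⟨i0, hi0⟩ := hex
  have hW : 0 < ∑ i, ω i :=
    lt_of_lt_of_le (lt_of_le_of_ne (hω0 i0) (Ne.symm hi0))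
      (Finset.single_le_sum (f := ω) (fun i _ => hω0 i) (Finset.mem_univ i0))
  have h1 : ∑ i, ω i * x i = x i0 * ∑ i, ω i := by
    rw [Finset.mul_sum]
    refine Finset.sum_congr rfl fun i _ => ?_
    by_cases hi : ω i = 0
    · rw [hi]; ring
    · rw [hcst i i0 hi hi0]; ring
  rw [hx2] at h1
  have h2 : x i0 = 0 := by
    rcases mul_eq_zero.1 h1.symm with h3 | h3
    · exact h3
    · exact absurd h3 hW.ne'
  have h3 : N x = 0 := by
    simp only [hN]
    refine Finset.sum_eq_zero fun i _ => ?_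
    by_cases hi : ω i = 0
    · rw [hi, zero_mul]
    · rw [hcst i i0 hi hi0, h2]; ring
  rw [h3] at hx3
  exact zero_ne_one hx3

theorem td {ι : Type*} [Fintype ι] (K : ι → ι → ℝ) (hK0 : ∀ i l, 0 ≤ K i l) (hsym : ∀ i l, K i l = K l i)
    (hconn : ∀ a : ι → ℝ, (∀ i l, K i l ≠ 0 → a i = a l) →
      ∀ i l, (∑ r, K i r) ≠ 0 → (∑ r, K l r) ≠ 0 → a i = a l)
    (h : ∀ a : ι → ℝ, ∑ i, ∑ l, a i * K i l * a l ≤ ∑ i, (∑ l, K i l * a l) ^ 2 / (∑ l, K i l))
    (a : ι → ℝ) :
    (∑ i, ∑ l, a i * K i l * a l) * (∑ i, ∑ l, K i l) ≤ (∑ i, ∑ l, K i l * a l) ^ 2 := by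
  set W : ℝ := ∑ i, ∑ l, K i l with hW
  have hW0 : 0 ≤ W := Finset.sum_nonneg fun i _ => Finset.sum_nonneg fun l _ => hK0 i l
  rcases hW0.lt_or_eq with hpos | h0
  · set L : ℝ := ∑ i, ∑ l, K i l * a l with hL
    have hLe : L = ∑ i, (∑ l, K i l) * a i := by
      rw [hL, Finset.sum_comm]
      refine Finset.sum_congr rfl fun i _ => ?_
      rw [Finset.sum_mul]
      refine Finset.sum_congr rfl fun l _ => ?_
      rw [hsym]
    have hL2 : ∑ i, ∑ l, a i * K i l = L := by
      rw [hLe]
      refine Finset.sum_congr rfl fun i _ => ?_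
      rw [Finset.sum_mul]
      refine Finset.sum_congr rfl fun l _ => ?_
      ring
    set c : ℝ := L / W with hc
    have hcW : c * W = L := div_mul_cancel₀ _ hpos.ne'
    have h1 := td_aux K hK0 hsym hconn h (fun i => a i - c) (by
      have : ∑ i, (∑ l, K i l) * (a i - c) = (∑ i, (∑ l, K i l) * a i) - c * ∑ i, ∑ l, K i l := by
        rw [Finset.mul_sum, ← Finset.sum_sub_distrib]
        refine Finset.sum_congr rfl fun i _ => ?_
        ring
      rw [this, ← hLe, ← hW, hcW, sub_self])
    have h2 : ∑ i, ∑ l, (a i - c) * K i l * (a l - c) =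
        (∑ i, ∑ l, a i * K i l * a l) - c * (∑ i, ∑ l, a i * K i l) - c * (∑ i, ∑ l, K i l * a l) + c ^ 2 * W := by
      rw [hW]
      simp only [Finset.mul_sum, ← Finset.sum_add_distrib, ← Finset.sum_sub_distrib]
      refine Finset.sum_congr rfl fun i _ => Finset.sum_congr rfl fun l _ => ?_
      ring
    rw [h2, hL2, ← hL] at h1
    have h3 : (∑ i, ∑ l, a i * K i l * a l) ≤ c * L := by
      have : c ^ 2 * W = c * L := by rw [← hcW]; ring
      linarith
    calc (∑ i, ∑ l, a i * K i l * a l) * W ≤ c * L * W := mul_le_mul_of_nonneg_right h3 hpos.le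
      _ = L ^ 2 := by rw [← hcW]; ring
  · rw [← h0, mul_zero]
    exact sq_nonneg _

end Pool.Agent.PBL
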