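import Pool.Agent.PBL.Defs
import Pool.Agent.HP89.A1c

/-! Module PBL-A3 (connectivity of the kernel): the kernel `kf m p n [p i, p l]` is nonzero iff `p i, p l` can be
completed to an independent list of `n + 2` vectors of the family; a function `a` which is constant on the pairs with
nonzero kernel is constant on the vectors which occur. -/

set_option autoImplicit false

namespace Pool.Agent.PBL
open MeasureTheory ProbabilityTheory Set Filter Topology Metric
open Pool.Agent.HP89 Pool.Agent.FI75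
open scoped RealInnerProductSpace ENNReal

variable {V : Type*} [NormedAddCommGroup V] [InnerProductSpace ℝ V] [FiniteDimensional ℝ V]

omit [FiniteDimensional ℝ V] in
private theorem kf_nonneg {ι : Type*} [Fintype ι] {m : ι → ℝ} (hm : ∀ i, 0 < m i) (p : ι → V) (n : ℕ) :
    ∀ Y : List V, 0 ≤ kf m p n Y := by
  induction n with
  | zero => exact fun Y => wn_nonneg Y
  | succ n ih => exact fun Y => Finset.sum_nonneg fun r _ => mul_nonneg (hm r).le (ih _)

omit [FiniteDimensional ℝ V] in
private theorem kf_succ_ne {ι : Type*} [Fintype ι] {m : ι → ℝ} (hm : ∀ i, 0 < m i) (p : ι → V) (n : ℕ)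
    (Y : List V) : kf m p (n + 1) Y ≠ 0 ↔ ∃ r, kf m p n (p r :: Y) ≠ 0 := by
  constructor
  · intro h
    by_contra hc
    push Not at hc
    exact h (Finset.sum_eq_zero fun r _ => by rw [hc r, mul_zero])
  · rintro ⟨r, hr⟩
    have h1 : 0 < m r * kf m p n (p r :: Y) :=
      mul_pos (hm r) (lt_of_le_of_ne (kf_nonneg hm p n _) (Ne.symm hr))
    have h2 : m r * kf m p n (p r :: Y) ≤ kf m p (n + 1) Y :=
      Finset.single_le_sum (f := fun r => m r * kf m p n (p r :: Y))
        (fun r _ => mul_nonneg (hm r).le (kf_nonneg hm p n _)) (Finset.mem_univ r)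
    exact (lt_of_lt_of_le h1 h2).ne'

private theorem wn_cons_ne (x : V) (Z : List V) :
    wn (x :: Z) ≠ 0 ↔ wn Z ≠ 0 ∧ x ∉ Submodule.span ℝ {z | z ∈ Z} := by
  have h : res Z x = 0 ↔ x ∈ Submodule.span ℝ {z | z ∈ Z} := by
    rw [res_eq, Submodule.starProjection_apply_eq_zero_iff, Submodule.orthogonal_orthogonal]
  rw [wn_cons, mul_ne_zero_iff, norm_ne_zero_iff]
  exact and_congr_right fun _ => not_congr h

private theorem kf_wn {ι : Type*} [Fintype ι] {m : ι → ℝ} (hm : ∀ i, 0 < m i) (p : ι → V) (n : ℕ) :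
    ∀ Y : List V, kf m p n Y ≠ 0 → wn Y ≠ 0 := by
  induction n with
  | zero => exact fun Y h => h
  | succ n ih =>
    intro Y h
    obtain ⟨r, hr⟩ := (kf_succ_ne hm p n Y).1 h
    exact ((wn_cons_ne _ _).1 (ih _ hr)).1

private theorem ext_ne {ι : Type*} [Fintype ι] {m : ι → ℝ} (hm : ∀ i, 0 < m i) (p : ι → V) (n : ℕ) :
    ∀ Y : List V, wn Y ≠ 0 → Y.length + n ≤ Module.finrank ℝ (Submodule.span ℝ (Set.range p)) →
      kf m p n Y ≠ 0 := by
  induction n with
  | zero => exact fun Y h _ => h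
  | succ n ih =>
    intro Y h hlen
    rw [kf_succ_ne hm p n Y]
    have h1 : ∃ r, p r ∉ Submodule.span ℝ {z | z ∈ Y} := by
      by_contra hc
      push Not at hc
      have h2 : Submodule.span ℝ (Set.range p) ≤ Submodule.span ℝ {z | z ∈ Y} := by
        rw [Submodule.span_le]
        rintro _ ⟨r, rfl⟩
        exact hc r
      have h3 := Submodule.finrank_mono h2
      rw [finrank_span_of_wn_ne_zero h] at h3
      omega
    obtain ⟨r, hr⟩ := h1
    refine ⟨r, ih _ ((wn_cons_ne _ _).2 ⟨h, hr⟩) ?_⟩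
    rw [List.length_cons]
    omega

private theorem len_le {ι : Type*} [Fintype ι] {m : ι → ℝ} (hm : ∀ i, 0 < m i) (p : ι → V) (n : ℕ) :
    ∀ Y : List V, (∀ y ∈ Y, y ∈ Submodule.span ℝ (Set.range p)) → kf m p n Y ≠ 0 →
      Y.length + n ≤ Module.finrank ℝ (Submodule.span ℝ (Set.range p)) := by
  induction n with
  | zero =>
    intro Y hY h
    have h1 := finrank_span_of_wn_ne_zero (X := Y) h
    have h2 : Submodule.span ℝ {z | z ∈ Y} ≤ Submodule.span ℝ (Set.range p) := by
      rw [Submodule.span_le]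
      exact hY
    have h3 := Submodule.finrank_mono h2
    omega
  | succ n ih =>
    intro Y hY h
    obtain ⟨r, hr⟩ := (kf_succ_ne hm p n Y).1 h
    have h1 := ih (p r :: Y) (by
      intro y hy
      rcases List.mem_cons.1 hy with rfl | hy
      · exact Submodule.subset_span ⟨r, rfl⟩
      · exact hY y hy) hr
    rw [List.length_cons] at h1
    omega

omit [FiniteDimensional ℝ V] in
private theorem mem_span_one (x y : V) (h : x ∈ Submodule.span ℝ {z | z ∈ [y]}) : ∃ c : ℝ, x = c • y := by
  have h1 : {z : V | z ∈ [y]} = {y} := by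
    ext z
    simp
  rw [h1, Submodule.mem_span_singleton] at h
  obtain ⟨c, hc⟩ := h
  exact ⟨c, hc.symm⟩

omit [FiniteDimensional ℝ V] in
private theorem smul_mem_one (c : ℝ) (y : V) : c • y ∈ Submodule.span ℝ {z | z ∈ [y]} := by
  exact Submodule.smul_mem _ _ (Submodule.subset_span (by simp))

theorem conn {ι : Type*} [Fintype ι] {m : ι → ℝ} (hm : ∀ i, 0 < m i) (p : ι → V) (n : ℕ) (a : ι → ℝ)
    (h : ∀ i l, kf m p n [p i, p l] ≠ 0 → a i = a l) (i l : ι)
    (hi : kf m p (n + 1) [p i] ≠ 0) (hl : kf m p (n + 1) [p l] ≠ 0) : a i = a l := by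
  have hrk : n + 2 ≤ Module.finrank ℝ (Submodule.span ℝ (Set.range p)) := by
    have h1 := len_le hm p (n + 1) [p i] (by
      intro y hy
      rw [List.mem_singleton] at hy
      subst hy
      exact Submodule.subset_span ⟨i, rfl⟩) hi
    simp only [List.length_cons, List.length_nil] at h1
    omega
  have hpair : ∀ r s, wn [p r, p s] ≠ 0 → a r = a s := by
    intro r s hrs
    refine h r s (ext_ne hm p n _ hrs ?_)
    simp only [List.length_cons, List.length_nil]
    omega
  by_cases hil : wn [p i, p l] ≠ 0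
  · exact hpair i l hil
  · have hwl : wn [p l] ≠ 0 := kf_wn hm p (n + 1) _ hl
    have hwi : wn [p i] ≠ 0 := kf_wn hm p (n + 1) _ hi
    have hmem : p i ∈ Submodule.span ℝ {z | z ∈ [p l]} := by
      by_contra hc
      exact hil ((wn_cons_ne _ _).2 ⟨hwl, hc⟩)
    obtain ⟨c, hc⟩ := mem_span_one _ _ hmem
    have hc0 : c ≠ 0 := by
      rintro rfl
      rw [zero_smul] at hc
      rw [wn_singleton, hc, norm_zero] at hwi
      exact hwi rfl
    obtain ⟨r, hr⟩ := (kf_succ_ne hm p n [p i]).1 hi
    have hri : wn [p r, p i] ≠ 0 := kf_wn hm p n _ hr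
    have hir : wn [p i, p r] ≠ 0 := by
      rw [wn_perm (List.Perm.swap (p r) (p i) [])]
      exact hri
    have hrl : wn [p r, p l] ≠ 0 := by
      refine (wn_cons_ne _ _).2 ⟨hwl, fun hm' => ?_⟩
      obtain ⟨c', hc'⟩ := mem_span_one _ _ hm'
      have h2 : p r = (c' * c⁻¹) • p i := by
        rw [hc, smul_smul, mul_assoc, inv_mul_cancel₀ hc0, mul_one, hc']
      apply ((wn_cons_ne _ _).1 hri).2
      rw [h2]
      exact smul_mem_one _ _
    exact (hpair i r hir).trans (hpair r l hrl)

end Pool.Agent.PBL
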