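import Pool.Agent.PBL.A1
import Pool.Agent.PBL.A2
import Pool.Agent.PBL.A3

/-! Module PBL-A4 (Alexandrov-Fenchel inequality for discrete zonoids, by trickling down).
Induction on the number `n` of the vectors which are summed over: `base_neg` for `n = 0`, `td` and `conn` for the step; the
inequality for the links is the induction hypothesis for the family projected to the orthogonal complement of one vector.
Arbitrary lists `Y` by projection, weights `m i ≥ 0` by continuity. -/

set_option autoImplicit false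

namespace Pool.Agent.PBL
open MeasureTheory ProbabilityTheory Set Filter Topology Metric
open Pool.Agent.HP89 Pool.Agent.FI75
open scoped RealInnerProductSpace ENNReal

variable {V : Type*} [NormedAddCommGroup V] [InnerProductSpace ℝ V] [FiniteDimensional ℝ V]

omit [FiniteDimensional ℝ V] in
private theorem kf_succ {ι : Type*} [Fintype ι] (m : ι → ℝ) (p : ι → V) (n : ℕ) (Y : List V) :
    kf m p (n + 1) Y = ∑ r, m r * kf m p n (p r :: Y) := rfl

omit [FiniteDimensional ℝ V] in
private theorem kf_nonneg' {ι : Type*} [Fintype ι] {m : ι → ℝ} (hm : ∀ i, 0 ≤ m i) (p : ι → V) (n : ℕ)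
    (Y : List V) : 0 ≤ kf m p n Y := by
  induction n generalizing Y with
  | zero => exact wn_nonneg Y
  | succ n ih => exact Finset.sum_nonneg fun r _ => mul_nonneg (hm r) (ih _)

private theorem kf_perm' {ι : Type*} [Fintype ι] (m : ι → ℝ) (p : ι → V) (n : ℕ) {Y Y' : List V}
    (h : Y.Perm Y') : kf m p n Y = kf m p n Y' := by
  induction n generalizing Y Y' with
  | zero => exact wn_perm h
  | succ n ih =>
    rw [kf_succ, kf_succ]
    exact Finset.sum_congr rfl fun r _ => by rw [ih (h.cons (p r))]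

omit [FiniteDimensional ℝ V] in
private theorem res_append' (X Y : List V) (g : V) :
    res (X ++ Y) g = res (X.map (res Y)) (res Y g) := by
  induction X generalizing g with
  | nil => rfl
  | cons x X ih =>
    rw [List.cons_append, res_cons, List.map_cons, res_cons, ih, ih]

omit [FiniteDimensional ℝ V] in
private theorem wn_append' (X Y : List V) : wn (X ++ Y) = wn Y * wn (X.map (res Y)) := by
  induction X with
  | nil => simp
  | cons x X ih =>
    rw [List.cons_append, wn_cons, List.map_cons, wn_cons, ih, res_append']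
    ring

omit [FiniteDimensional ℝ V] in
private theorem kf_append' {ι : Type*} [Fintype ι] (m : ι → ℝ) (p : ι → V) (n : ℕ) (Z Y : List V) :
    kf m p n (Z ++ Y) = wn Y * kf m (fun i => res Y (p i)) n (Z.map (res Y)) := by
  induction n generalizing Z with
  | zero => exact wn_append' Z Y
  | succ n ih =>
    show (∑ r, m r * kf m p n (p r :: (Z ++ Y))) =
      wn Y * ∑ r, m r * kf m (fun i => res Y (p i)) n (res Y (p r) :: Z.map (res Y))
    rw [Finset.mul_sum]
    refine Finset.sum_congr rfl fun r _ => ?_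
    have h := ih (p r :: Z)
    rw [List.cons_append, List.map_cons] at h
    rw [h]
    ring

private theorem scale' {ι : Type*} [Fintype ι] {a m : ι → ℝ} (c : ℝ) {w w' : ι → ι → ℝ}
    (h : ∀ i l, w i l = c * w' i l)
    (H : (∑ i, ∑ l, a i * a l * w' i l) * (∑ i, ∑ l, m i * m l * w' i l) ≤
      (∑ i, ∑ l, a i * m l * w' i l) ^ 2) :
    (∑ i, ∑ l, a i * a l * w i l) * (∑ i, ∑ l, m i * m l * w i l) ≤
      (∑ i, ∑ l, a i * m l * w i l) ^ 2 := by
  have e : ∀ b d : ι → ℝ, (∑ i, ∑ l, b i * d l * w i l) = c * ∑ i, ∑ l, b i * d l * w' i l := by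
    intro b d
    rw [Finset.mul_sum]
    refine Finset.sum_congr rfl fun i _ => ?_
    rw [Finset.mul_sum]
    refine Finset.sum_congr rfl fun l _ => ?_
    rw [h]
    ring
  rw [e, e, e]
  have h1 := mul_le_mul_of_nonneg_left H (sq_nonneg c)
  calc _ = c ^ 2 * ((∑ i, ∑ l, a i * a l * w' i l) * (∑ i, ∑ l, m i * m l * w' i l)) := by ring
    _ ≤ _ := h1
    _ = _ := by ring

private theorem sym_sum {ι : Type*} [Fintype ι] (a m : ι → ℝ) {w : ι → ι → ℝ}
    (hs : ∀ i l, w i l = w l i) :
    (∑ i, ∑ l, m i * a l * w i l) = ∑ i, ∑ l, a i * m l * w i l := by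
  rw [Finset.sum_comm]
  refine Finset.sum_congr rfl fun i _ => Finset.sum_congr rfl fun l _ => ?_
  rw [hs l i]
  ring

private theorem quad {ι : Type*} [Fintype ι] (a m : ι → ℝ) (t : ℝ) {w : ι → ι → ℝ}
    (hs : ∀ i l, w i l = w l i) :
    (∑ i, ∑ l, (a i - t * m i) * (a l - t * m l) * w i l) =
      (∑ i, ∑ l, a i * a l * w i l) - 2 * t * (∑ i, ∑ l, a i * m l * w i l) +
        t ^ 2 * ∑ i, ∑ l, m i * m l * w i l := by
  have e : ∀ i l, (a i - t * m i) * (a l - t * m l) * w i l = a i * a l * w i l -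
      t * (a i * m l * w i l) - t * (m i * a l * w i l) + t ^ 2 * (m i * m l * w i l) := by
    intro i l
    ring
  simp only [e, Finset.sum_add_distrib, Finset.sum_sub_distrib, ← Finset.mul_sum]
  rw [sym_sum a m hs]
  ring

private theorem af_zero' {ι : Type*} [Fintype ι] {m : ι → ℝ} (hm : ∀ i, 0 < m i) (p : ι → V)
    (a : ι → ℝ) :
    (∑ i, ∑ l, a i * a l * wn [p i, p l]) * (∑ i, ∑ l, m i * m l * wn [p i, p l]) ≤
      (∑ i, ∑ l, a i * m l * wn [p i, p l]) ^ 2 := by
  have hs : ∀ i l, wn [p i, p l] = wn [p l, p i] := fun i l => wn_perm (List.Perm.swap _ _ _)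
  have hM : 0 ≤ ∑ i, ∑ l, m i * m l * wn [p i, p l] :=
    Finset.sum_nonneg fun i _ => Finset.sum_nonneg fun l _ =>
      mul_nonneg (mul_nonneg (hm i).le (hm l).le) (wn_nonneg _)
  by_cases hS : (∑ i, m i * ‖p i‖) = 0
  · have h0 : ∀ i, p i = 0 := by
      intro i
      have h1 := (Finset.sum_eq_zero_iff_of_nonneg
        (fun i _ => mul_nonneg (hm i).le (norm_nonneg (p i)))).1 hS i (Finset.mem_univ i)
      exact norm_eq_zero.1 ((mul_eq_zero.1 h1).resolve_left (hm i).ne')
    have h1 : (∑ i, ∑ l, m i * m l * wn [p i, p l]) = 0 := by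
      refine Finset.sum_eq_zero fun i _ => Finset.sum_eq_zero fun l _ => ?_
      rw [wn_zero_mem (X := [p i, p l]) (by rw [h0 i]; exact List.mem_cons_self), mul_zero]
    rw [h1, mul_zero]
    exact sq_nonneg _
  · have h1 := base_neg p (fun i => a i - ((∑ i, a i * ‖p i‖) / (∑ i, m i * ‖p i‖)) * m i) (by
      have e : ∀ i, (a i - ((∑ i, a i * ‖p i‖) / (∑ i, m i * ‖p i‖)) * m i) * ‖p i‖ =
          a i * ‖p i‖ - ((∑ i, a i * ‖p i‖) / (∑ i, m i * ‖p i‖)) * (m i * ‖p i‖) := by
        intro i
        ring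
      simp only [e, Finset.sum_sub_distrib, ← Finset.mul_sum]
      rw [div_mul_cancel₀ _ hS, sub_self])
    rw [quad a m _ hs] at h1
    generalize (∑ i, a i * ‖p i‖) / (∑ i, m i * ‖p i‖) = t at h1
    generalize (∑ i, ∑ l, a i * a l * wn [p i, p l]) = A at h1 ⊢
    generalize (∑ i, ∑ l, a i * m l * wn [p i, p l]) = B at h1 ⊢
    generalize (∑ i, ∑ l, m i * m l * wn [p i, p l]) = M at h1 hM ⊢
    nlinarith [mul_le_mul_of_nonneg_right h1 hM, sq_nonneg (B - t * M)]

private theorem af_succ' {ι : Type*} [Fintype ι] {m : ι → ℝ} (hm : ∀ i, 0 < m i) (n : ℕ)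
    (IH : ∀ (p : ι → V) (a : ι → ℝ),
      (∑ i, ∑ l, a i * a l * kf m p n [p i, p l]) * (∑ i, ∑ l, m i * m l * kf m p n [p i, p l]) ≤
        (∑ i, ∑ l, a i * m l * kf m p n [p i, p l]) ^ 2) (p : ι → V) (a : ι → ℝ) :
    (∑ i, ∑ l, a i * a l * kf m p (n + 1) [p i, p l]) *
        (∑ i, ∑ l, m i * m l * kf m p (n + 1) [p i, p l]) ≤
      (∑ i, ∑ l, a i * m l * kf m p (n + 1) [p i, p l]) ^ 2 := by
  have hm0 : ∀ i, 0 ≤ m i := fun i => (hm i).le
  have hne : ∀ i, m i ≠ 0 := fun i => (hm i).ne'
  have hs : ∀ i l, kf m p (n + 1) [p i, p l] = kf m p (n + 1) [p l, p i] :=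
    fun i l => kf_perm' m p _ (List.Perm.swap _ _ _)
  obtain ⟨κ, hκ⟩ : ∃ κ : ι → ι → ι → ℝ, ∀ r i l, κ r i l = kf m p n [p i, p l, p r] :=
    ⟨_, fun _ _ _ => rfl⟩
  have hκ0 : ∀ r i l, 0 ≤ κ r i l := fun r i l => by
    rw [hκ]
    exact kf_nonneg' hm0 p n _
  have e1 : ∀ i l, kf m p (n + 1) [p i, p l] = ∑ r, m r * κ r i l := by
    intro i l
    rw [kf_succ]
    refine Finset.sum_congr rfl fun r _ => ?_
    rw [hκ]
    congr 1
    exact kf_perm' m p n ((List.Perm.swap _ _ _).trans ((List.Perm.swap _ _ _).cons _))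
  have e2 : ∀ r i, kf m p (n + 1) [p i, p r] = ∑ l, m l * κ r i l := by
    intro r i
    rw [kf_succ]
    refine Finset.sum_congr rfl fun l _ => ?_
    rw [hκ]
    congr 1
    exact kf_perm' m p n (List.Perm.swap _ _ _)
  have hlink : ∀ (r : ι) (b : ι → ℝ), (∑ i, ∑ l, b i * b l * κ r i l) *
      (∑ i, ∑ l, m i * m l * κ r i l) ≤ (∑ i, ∑ l, b i * m l * κ r i l) ^ 2 := by
    intro r b
    refine scale' (w := κ r) (wn [p r]) (fun i l => ?_) (IH (fun i => res [p r] (p i)) b)
    rw [hκ]
    exact kf_append' m p n [p i, p l] [p r]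
  have key := td (fun i l => m i * m l * kf m p (n + 1) [p i, p l])
    (fun i l => mul_nonneg (mul_nonneg (hm0 i) (hm0 l)) (kf_nonneg' hm0 p _ _))
    (fun i l => by
      show m i * m l * kf m p (n + 1) [p i, p l] = m l * m i * kf m p (n + 1) [p l, p i]
      rw [hs i l]
      ring)
    (fun α hα i l hi hl => by
      have hrow : ∀ i, (∑ r, m i * m r * kf m p (n + 1) [p i, p r]) = m i * kf m p (n + 2) [p i] := by
        intro i
        rw [kf_succ m p (n + 1), Finset.mul_sum]
        refine Finset.sum_congr rfl fun r _ => ?_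
        rw [hs i r]
        ring
      refine conn hm p (n + 1) α (fun i l h => hα i l (mul_ne_zero (mul_ne_zero (hne i) (hne l)) h))
        i l ?_ ?_
      · intro h0
        refine hi ?_
        have := hrow i
        rw [show n + 1 + 1 = n + 2 from rfl] at h0
        rw [h0, mul_zero] at this
        exact this
      · intro h0
        refine hl ?_
        have := hrow l
        rw [show n + 1 + 1 = n + 2 from rfl] at h0
        rw [h0, mul_zero] at this
        exact this)
    (fun α => by
      have h1 : (∑ i, ∑ l, α i * (m i * m l * kf m p (n + 1) [p i, p l]) * α l) =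
          ∑ r, m r * ∑ i, ∑ l, (m i * α i) * (m l * α l) * κ r i l := by
        have h2 : ∀ i l, α i * (m i * m l * kf m p (n + 1) [p i, p l]) * α l =
            ∑ r, m r * ((m i * α i) * (m l * α l) * κ r i l) := by
          intro i l
          rw [e1, Finset.mul_sum, Finset.mul_sum, Finset.sum_mul]
          refine Finset.sum_congr rfl fun r _ => ?_
          ring
        simp only [h2]
        have h3 : ∀ i, (∑ l, ∑ r, m r * ((m i * α i) * (m l * α l) * κ r i l)) =
            ∑ r, ∑ l, m r * ((m i * α i) * (m l * α l) * κ r i l) := fun i => Finset.sum_comm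
        simp only [h3]
        rw [Finset.sum_comm]
        refine Finset.sum_congr rfl fun r _ => ?_
        rw [Finset.mul_sum]
        refine Finset.sum_congr rfl fun i _ => ?_
        rw [Finset.mul_sum]
      show (∑ i, ∑ l, α i * (m i * m l * kf m p (n + 1) [p i, p l]) * α l) ≤
        ∑ i, (∑ l, (m i * m l * kf m p (n + 1) [p i, p l]) * α l) ^ 2 /
          (∑ l, m i * m l * kf m p (n + 1) [p i, p l])
      rw [h1]
      refine Finset.sum_le_sum fun r _ => ?_
      have hB : (∑ l, (m r * m l * kf m p (n + 1) [p r, p l]) * α l) =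
          m r * ∑ i, ∑ l, (m i * α i) * m l * κ r i l := by
        rw [Finset.mul_sum]
        refine Finset.sum_congr rfl fun i _ => ?_
        rw [hs r i, e2 r i, Finset.mul_sum, Finset.mul_sum, Finset.sum_mul]
        refine Finset.sum_congr rfl fun l _ => ?_
        ring
      have hW : (∑ l, m r * m l * kf m p (n + 1) [p r, p l]) =
          m r * ∑ i, ∑ l, m i * m l * κ r i l := by
        rw [Finset.mul_sum]
        refine Finset.sum_congr rfl fun i _ => ?_
        rw [hs r i, e2 r i, Finset.mul_sum, Finset.mul_sum]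
        refine Finset.sum_congr rfl fun l _ => ?_
        ring
      rw [hB, hW]
      have hl := hlink r fun i => m i * α i
      have hW0 : 0 ≤ ∑ i, ∑ l, m i * m l * κ r i l :=
        Finset.sum_nonneg fun i _ => Finset.sum_nonneg fun l _ =>
          mul_nonneg (mul_nonneg (hm0 i) (hm0 l)) (hκ0 r i l)
      rcases hW0.eq_or_lt with h0 | h0
      · have hz : ∀ i l, κ r i l = 0 := by
          intro i l
          have h4 := (Finset.sum_eq_zero_iff_of_nonneg (fun i _ => Finset.sum_nonneg fun l _ =>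
            mul_nonneg (mul_nonneg (hm0 i) (hm0 l)) (hκ0 r i l))).1 h0.symm i (Finset.mem_univ i)
          have h5 := (Finset.sum_eq_zero_iff_of_nonneg (fun l _ =>
            mul_nonneg (mul_nonneg (hm0 i) (hm0 l)) (hκ0 r i l))).1 h4 l (Finset.mem_univ l)
          exact (mul_eq_zero.1 h5).resolve_left (mul_ne_zero (hne i) (hne l))
        rw [← h0, mul_zero, div_zero]
        simp only [hz, mul_zero, Finset.sum_const_zero]
        exact le_refl _
      · rw [le_div_iff₀ (mul_pos (hm r) h0)]
        have h6 := mul_le_mul_of_nonneg_left hl (sq_nonneg (m r))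
        calc _ = m r ^ 2 * ((∑ i, ∑ l, (m i * α i) * (m l * α l) * κ r i l) *
              (∑ i, ∑ l, m i * m l * κ r i l)) := by ring
          _ ≤ _ := h6
          _ = _ := by ring)
    (fun i => a i / m i)
  have k1 : (∑ i, ∑ l, a i / m i * (m i * m l * kf m p (n + 1) [p i, p l]) * (a l / m l)) =
      ∑ i, ∑ l, a i * a l * kf m p (n + 1) [p i, p l] := by
    refine Finset.sum_congr rfl fun i _ => Finset.sum_congr rfl fun l _ => ?_
    have h1 := hne i
    have h2 := hne l
    field_simp
  have k2 : (∑ i, ∑ l, (m i * m l * kf m p (n + 1) [p i, p l]) * (a l / m l)) =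
      ∑ i, ∑ l, a i * m l * kf m p (n + 1) [p i, p l] := by
    rw [← sym_sum a m hs]
    refine Finset.sum_congr rfl fun i _ => Finset.sum_congr rfl fun l _ => ?_
    have h2 := hne l
    field_simp
  simp only [k1, k2] at key
  exact key

private theorem af_pos' {ι : Type*} [Fintype ι] {m : ι → ℝ} (hm : ∀ i, 0 < m i) (n : ℕ)
    (p : ι → V) (a : ι → ℝ) :
    (∑ i, ∑ l, a i * a l * kf m p n [p i, p l]) * (∑ i, ∑ l, m i * m l * kf m p n [p i, p l]) ≤
      (∑ i, ∑ l, a i * m l * kf m p n [p i, p l]) ^ 2 := by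
  induction n generalizing p a with
  | zero => exact af_zero' hm p a
  | succ n ih => exact af_succ' hm n ih p a

private theorem af_posY {ι : Type*} [Fintype ι] {m : ι → ℝ} (hm : ∀ i, 0 < m i) (p : ι → V)
    (n : ℕ) (Y : List V) (a : ι → ℝ) :
    (∑ i, ∑ l, a i * a l * kf m p n (p i :: p l :: Y)) *
        (∑ i, ∑ l, m i * m l * kf m p n (p i :: p l :: Y)) ≤
      (∑ i, ∑ l, a i * m l * kf m p n (p i :: p l :: Y)) ^ 2 :=
  scale' (w := fun i l => kf m p n (p i :: p l :: Y)) (wn Y)
    (fun i l => kf_append' m p n [p i, p l] Y) (af_pos' hm n (fun i => res Y (p i)) a)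

omit [FiniteDimensional ℝ V] in
private theorem kf_cont' {ι : Type*} [Fintype ι] (m : ι → ℝ) (p : ι → V) (n : ℕ) (Y : List V) :
    Continuous fun ε : ℝ => kf (fun i => m i + ε) p n Y := by
  induction n generalizing Y with
  | zero => exact continuous_const
  | succ n ih =>
    show Continuous fun ε : ℝ => ∑ r, (m r + ε) * kf (fun i => m i + ε) p n (p r :: Y)
    exact continuous_finsetSum _ fun r _ => (continuous_const.add continuous_id).mul (ih _)

theorem af_fin {ι : Type*} [Fintype ι] {m : ι → ℝ} (hm : ∀ i, 0 ≤ m i) (p : ι → V) (n : ℕ) (Y : List V)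
    (a : ι → ℝ) :
    (∑ i, ∑ l, a i * a l * kf m p n (p i :: p l :: Y)) * (∑ i, ∑ l, m i * m l * kf m p n (p i :: p l :: Y)) ≤
      (∑ i, ∑ l, a i * m l * kf m p n (p i :: p l :: Y)) ^ 2 := by
  have hc := fun Z => kf_cont' m p n Z
  have c1 : Continuous fun ε : ℝ => ∑ i, ∑ l, a i * a l * kf (fun i => m i + ε) p n (p i :: p l :: Y) :=
    continuous_finsetSum _ fun i _ => continuous_finsetSum _ fun l _ => continuous_const.mul (hc _)
  have c2 : Continuous fun ε : ℝ =>
      ∑ i, ∑ l, (m i + ε) * (m l + ε) * kf (fun i => m i + ε) p n (p i :: p l :: Y) :=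
    continuous_finsetSum _ fun i _ => continuous_finsetSum _ fun l _ =>
      ((continuous_const.add continuous_id).mul (continuous_const.add continuous_id)).mul (hc _)
  have c3 : Continuous fun ε : ℝ =>
      ∑ i, ∑ l, a i * (m l + ε) * kf (fun i => m i + ε) p n (p i :: p l :: Y) :=
    continuous_finsetSum _ fun i _ => continuous_finsetSum _ fun l _ =>
      (continuous_const.mul (continuous_const.add continuous_id)).mul (hc _)
  have h := le_of_tendsto_of_tendsto (((c1.mul c2).tendsto 0).mono_left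
    (nhdsWithin_le_nhds (s := Ioi (0 : ℝ)))) (((c3.pow 2).tendsto 0).mono_left
    (nhdsWithin_le_nhds (s := Ioi (0 : ℝ)))) (by
      filter_upwards [self_mem_nhdsWithin] with ε hε
      exact af_posY (m := fun i => m i + ε) (fun i => add_pos_of_nonneg_of_pos (hm i) hε) p n Y a)
  simpa only [Pi.mul_apply, Pi.pow_apply, add_zero] using h

end Pool.Agent.PBL
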