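import Pool.Agent.PBL.Defs

/-! Module PBL-B0: measurable bounded functions of lists (`LB`), closure properties. -/

set_option autoImplicit false

namespace Pool.Agent.PBL
open MeasureTheory ProbabilityTheory Set Filter Topology Metric
open Pool.Agent.HP89 Pool.Agent.FI75
open scoped RealInnerProductSpace ENNReal

variable {α : Type*} [MeasurableSpace α] {ρ : Measure α}

theorem LB.cons {F : List α → ℝ} (hF : LB F) (Y : List α) : Measurable (fun x => F (x :: Y)) := by
  have h : (fun x => F (x :: Y)) =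
      (fun X : Fin (Y.length + 1) → α => F (List.ofFn X)) ∘ (fun x => Fin.cons x Y.get) := by
    funext x
    simp [Function.comp]
  rw [h]
  refine (hF.meas _).comp ?_
  rw [measurable_pi_iff]
  intro i
  refine Fin.cases ?_ (fun j => ?_) i
  · simp only [Fin.cons_zero]; exact measurable_id
  · simp only [Fin.cons_succ]; exact measurable_const

theorem LB.cons2 {F : List α → ℝ} (hF : LB F) (Y : List α) : Measurable (fun p : α × α => F (p.2 :: p.1 :: Y)) := by
  have h : (fun p : α × α => F (p.2 :: p.1 :: Y)) =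
      (fun X : Fin (Y.length + 1 + 1) → α => F (List.ofFn X)) ∘
        (fun p : α × α => Fin.cons p.2 (Fin.cons p.1 Y.get : Fin (Y.length + 1) → α)) := by
    funext p
    simp [Function.comp]
  rw [h]
  refine (hF.meas _).comp ?_
  rw [measurable_pi_iff]
  intro i
  refine Fin.cases ?_ (fun j => ?_) i
  · simp only [Fin.cons_zero]; exact measurable_snd
  · simp only [Fin.cons_succ]
    refine Fin.cases ?_ (fun l => ?_) j
    · simp only [Fin.cons_zero]; exact measurable_fst
    · simp only [Fin.cons_succ]; exact measurable_const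

theorem LB.const (c : ℝ) : LB (fun _ : List α => c) :=
  ⟨fun _ => measurable_const, ⟨|c|, fun _ => le_rfl⟩⟩

theorem LB.add {F G : List α → ℝ} (hF : LB F) (hG : LB G) : LB (fun Z => F Z + G Z) := by
  obtain ⟨C, hC⟩ := hF.bdd
  obtain ⟨D, hD⟩ := hG.bdd
  exact ⟨fun n => (hF.meas n).add (hG.meas n),
    ⟨C + D, fun Z => (abs_add_le _ _).trans (add_le_add (hC Z) (hD Z))⟩⟩

theorem LB.sub {F G : List α → ℝ} (hF : LB F) (hG : LB G) : LB (fun Z => F Z - G Z) := by
  obtain ⟨C, hC⟩ := hF.bdd
  obtain ⟨D, hD⟩ := hG.bdd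
  exact ⟨fun n => (hF.meas n).sub (hG.meas n),
    ⟨C + D, fun Z => (abs_sub _ _).trans (add_le_add (hC Z) (hD Z))⟩⟩

theorem LB.mul {F G : List α → ℝ} (hF : LB F) (hG : LB G) : LB (fun Z => F Z * G Z) := by
  obtain ⟨C, hC⟩ := hF.bdd
  obtain ⟨D, hD⟩ := hG.bdd
  refine ⟨fun n => (hF.meas n).mul (hG.meas n), ⟨C * D, fun Z => ?_⟩⟩
  rw [abs_mul]
  exact mul_le_mul (hC Z) (hD Z) (abs_nonneg _) ((abs_nonneg _).trans (hC Z))

/-- composition with a measurable function which is bounded on bounded sets. -/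
theorem LB.comp {F : List α → ℝ} (hF : LB F) {g : ℝ → ℝ} (hg : Measurable g)
    (hb : ∀ C : ℝ, ∃ D : ℝ, ∀ t, |t| ≤ C → |g t| ≤ D) : LB (fun Z => g (F Z)) := by
  obtain ⟨C, hC⟩ := hF.bdd
  obtain ⟨D, hD⟩ := hb C
  exact ⟨fun n => hg.comp (hF.meas n), ⟨D, fun Z => hD _ (hC Z)⟩⟩

theorem LB.tail {F : List α → ℝ} (hF : LB F) : LB (fun Z => F Z.tail) := by
  obtain ⟨C, hC⟩ := hF.bdd
  refine ⟨fun n => ?_, ⟨C, fun Z => hC _⟩⟩
  cases n with
  | zero =>
    simp only [List.ofFn_zero]
    exact measurable_const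
  | succ n =>
    have h : (fun X : Fin (n + 1) → α => F (List.ofFn X).tail) =
        (fun X : Fin n → α => F (List.ofFn X)) ∘ (fun X : Fin (n + 1) → α => fun i => X i.succ) := by
      funext X
      simp [Function.comp, List.ofFn_succ]
    rw [h]
    refine (hF.meas n).comp ?_
    rw [measurable_pi_iff]
    intro i
    exact measurable_pi_apply _

end Pool.Agent.PBL
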