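import Pool.Agent.PBL.B1a

/-! Module PBL-B1b (two-point inequality: an Alexandrov-Fenchel weight makes the weighted means `(∫ w F)² / ∫ w` convex in
the number of integrations; `LB.qq`: these quotients are measurable and bounded). -/

set_option autoImplicit false

namespace Pool.Agent.PBL
open MeasureTheory ProbabilityTheory Set Filter Topology Metric
open Pool.Agent.HP89 Pool.Agent.FI75
open scoped RealInnerProductSpace ENNReal

variable {α : Type*} [MeasurableSpace α] {ρ : Measure α}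

/-- `(∫ w F)² / ∫ w`. -/
noncomputable def qq (ρ : Measure α) (w F : List α → ℝ) (l : ℕ) (Z : List α) : ℝ :=
  (itr ρ l (fun Z => w Z * F Z) Z) ^ 2 / itr ρ l w Z

private noncomputable def rr (ρ : Measure α) (w F : List α → ℝ) (l : ℕ) (Z : List α) : ℝ :=
  itr ρ l (fun Z => w Z * F Z) Z / itr ρ l w Z

private theorem abs_itr_le [IsProbabilityMeasure ρ] {w F : List α → ℝ} (hw : Wt ρ w) (hF : LB F)
    {C : ℝ} (hC : ∀ Z, |F Z| ≤ C) (l : ℕ) (Z : List α) :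
    |itr ρ l (fun Z => w Z * F Z) Z| ≤ C * itr ρ l w Z := by
  have h1 : itr ρ l (fun Z => w Z * F Z) Z ≤ itr ρ l (fun Z => C * w Z) Z :=
    itr_mono (hw.lb.mul hF) ((LB.const C).mul hw.lb) (fun Z => by
      have h := (abs_le.1 (hC Z)).2
      nlinarith [hw.nn Z]) l Z
  have h2 : itr ρ l (fun Z => (-C) * w Z) Z ≤ itr ρ l (fun Z => w Z * F Z) Z :=
    itr_mono ((LB.const (-C)).mul hw.lb) (hw.lb.mul hF) (fun Z => by
      have h := (abs_le.1 (hC Z)).1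
      nlinarith [hw.nn Z]) l Z
  rw [itr_mul] at h1 h2
  exact abs_le.2 ⟨by linarith, h1⟩

private theorem rr_abs [IsProbabilityMeasure ρ] {w F : List α → ℝ} (hw : Wt ρ w) (hF : LB F)
    {C : ℝ} (hC : ∀ Z, |F Z| ≤ C) (l : ℕ) (Z : List α) : |rr ρ w F l Z| ≤ C := by
  have h := abs_itr_le hw hF hC l Z
  have h0 : 0 ≤ C := (abs_nonneg _).trans (hC [])
  have hN : 0 ≤ itr ρ l w Z := itr_nonneg hw.nn l Z
  rw [rr, abs_div, abs_of_nonneg hN]
  exact div_le_of_le_mul₀ hN h0 h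

private theorem itr_eq [IsProbabilityMeasure ρ] {w F : List α → ℝ} (hw : Wt ρ w) (hF : LB F)
    (l : ℕ) (Z : List α) :
    itr ρ l (fun Z => w Z * F Z) Z = itr ρ l w Z * rr ρ w F l Z := by
  obtain ⟨C, hC⟩ := hF.bdd
  have h := abs_itr_le hw hF hC l Z
  rw [rr]
  by_cases h0 : itr ρ l w Z = 0
  · rw [h0, mul_zero] at h
    rw [h0, zero_mul]
    exact abs_eq_zero.1 (le_antisymm h (abs_nonneg _))
  · rw [mul_div_cancel₀ _ h0]

private theorem qq_eq [IsProbabilityMeasure ρ] {w F : List α → ℝ} (hw : Wt ρ w) (hF : LB F)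
    (l : ℕ) (Z : List α) : qq ρ w F l Z = itr ρ l w Z * rr ρ w F l Z ^ 2 := by
  rw [qq, itr_eq hw hF]
  by_cases h0 : itr ρ l w Z = 0
  · rw [h0]
    simp
  · field_simp

private theorem rr_lb [IsProbabilityMeasure ρ] {w F : List α → ℝ} (hw : Wt ρ w) (hF : LB F)
    (l : ℕ) : LB (rr ρ w F l) := by
  obtain ⟨C, hC⟩ := hF.bdd
  exact ⟨fun n => (((hw.lb.mul hF).itr l).meas n).div ((hw.lb.itr l).meas n),
    C, fun Z => rr_abs hw hF hC l Z⟩

private theorem qq_lb [IsProbabilityMeasure ρ] {w F : List α → ℝ} (hw : Wt ρ w) (hF : LB F)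
    (l : ℕ) : LB (qq ρ w F l) := by
  have h : qq ρ w F l = fun Z => itr ρ l w Z * (rr ρ w F l Z * rr ρ w F l Z) := by
    funext Z
    rw [qq_eq hw hF, sq]
  rw [h]
  exact (hw.lb.itr l).mul ((rr_lb hw hF l).mul (rr_lb hw hF l))

theorem LB.qq [IsProbabilityMeasure ρ] {w F : List α → ℝ} (hw : Wt ρ w) (hF : LB F) (l : ℕ) : LB (qq ρ w F l) :=
  qq_lb hw hF l

private structure BM (f : α × α → ℝ) : Prop where
  m : Measurable f
  b : ∃ C : ℝ, ∀ p, |f p| ≤ C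

private theorem BM.mul {f g : α × α → ℝ} (hf : BM f) (hg : BM g) : BM (fun p => f p * g p) := by
  obtain ⟨C, hC⟩ := hf.b
  obtain ⟨D, hD⟩ := hg.b
  refine ⟨hf.m.mul hg.m, C * D, fun p => ?_⟩
  rw [abs_mul]
  exact mul_le_mul (hC p) (hD p) (abs_nonneg _) ((abs_nonneg _).trans (hC p))

private theorem BM.int [IsProbabilityMeasure ρ] {f : α × α → ℝ} (hf : BM f) :
    Integrable f (ρ.prod ρ) := by
  obtain ⟨C, hC⟩ := hf.b
  exact Integrable.of_bound hf.m.aestronglyMeasurable C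
    (Filter.Eventually.of_forall fun x => by rw [Real.norm_eq_abs]; exact hC _)

private theorem LB.bm {F : List α → ℝ} (hF : LB F) (Y : List α) :
    BM (fun p : α × α => F (p.2 :: p.1 :: Y)) := by
  obtain ⟨C, hC⟩ := hF.bdd
  exact ⟨hF.cons2 Y, C, fun p => hC _⟩

private theorem LB.bm1 {F : List α → ℝ} (hF : LB F) (Y : List α) :
    BM (fun p : α × α => F (p.1 :: Y)) := by
  obtain ⟨C, hC⟩ := hF.bdd
  exact ⟨(hF.cons Y).comp measurable_fst, C, fun p => hC _⟩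

private theorem LB.bm2 {F : List α → ℝ} (hF : LB F) (Y : List α) :
    BM (fun p : α × α => F (p.2 :: Y)) := by
  obtain ⟨C, hC⟩ := hF.bdd
  exact ⟨(hF.cons Y).comp measurable_snd, C, fun p => hC _⟩

private theorem LB.ii [IsProbabilityMeasure ρ] {G : List α → ℝ} (hG : LB G) (Y : List α) :
    Integrable (fun x => G (x :: Y)) ρ := by
  obtain ⟨C, hC⟩ := hG.bdd
  exact Integrable.of_bound (hG.cons Y).aestronglyMeasurable C
    (Filter.Eventually.of_forall fun x => by rw [Real.norm_eq_abs]; exact hC _)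

/-- a function of `x` times an iterated integral. -/
private theorem fub [IsProbabilityMeasure ρ] {G g : List α → ℝ} (hG : LB G) (hg : LB g) (l : ℕ)
    (Y : List α) :
    ∫ p : α × α, itr ρ l G (p.2 :: p.1 :: Y) * g (p.1 :: Y) ∂(ρ.prod ρ) =
      ∫ x, itr ρ (l + 1) G (x :: Y) * g (x :: Y) ∂ρ := by
  rw [integral_prod _ (BM.int (((hG.itr l).bm Y).mul (hg.bm1 Y)))]
  refine integral_congr_ae (Filter.Eventually.of_forall fun x => ?_)
  show ∫ y, itr ρ l G (y :: x :: Y) * g (x :: Y) ∂ρ = (∫ y, itr ρ l G (y :: x :: Y) ∂ρ) * g (x :: Y)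
  exact integral_mul_const _ _

private theorem fub2 [IsProbabilityMeasure ρ] {G g : List α → ℝ} (hG : LB G) (hs : Sym G)
    (hg : LB g) (l : ℕ) (Y : List α) :
    ∫ p : α × α, itr ρ l G (p.2 :: p.1 :: Y) * g (p.2 :: Y) ∂(ρ.prod ρ) =
      ∫ x, itr ρ (l + 1) G (x :: Y) * g (x :: Y) ∂ρ := by
  rw [← fub hG hg l Y, ← integral_prod_swap]
  refine integral_congr_ae (Filter.Eventually.of_forall fun p => ?_)
  show itr ρ l G (p.1 :: p.2 :: Y) * g (p.1 :: Y) = itr ρ l G (p.2 :: p.1 :: Y) * g (p.1 :: Y)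
  rw [itr_sym hs l _ _ (List.Perm.swap p.2 p.1 Y)]

theorem two_point [IsProbabilityMeasure ρ] {w F : List α → ℝ} (hw : Wt ρ w) (hF : LB F) (hs : Sym F) (l : ℕ)
    (Y : List α) :
    2 * ∫ x, qq ρ w F (l + 1) (x :: Y) ∂ρ ≤
      (∫ x, ∫ y, qq ρ w F l (y :: x :: Y) ∂ρ ∂ρ) + qq ρ w F (l + 2) Y := by
  have hwF : LB (fun Z => w Z * F Z) := hw.lb.mul hF
  have hwFs : Sym (fun Z => w Z * F Z) := fun Z Z' h => by
    show w Z * F Z = w Z' * F Z'
    rw [hw.sym Z Z' h, hs Z Z' h]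
  obtain ⟨C, hC⟩ := hF.bdd
  set c : ℝ := rr ρ w F (l + 2) Y with hc
  set N2 : ℝ := itr ρ (l + 2) w Y with hN2
  have hr : LB (rr ρ w F (l + 1)) := rr_lb hw hF (l + 1)
  have hR : LB (rr ρ w F l) := rr_lb hw hF l
  set ψ : List α → ℝ := fun Z => rr ρ w F (l + 1) Z - c with hψ
  have hψL : LB ψ := hr.sub (LB.const c)
  have hψψ : LB (fun Z => ψ Z * ψ Z) := hψL.mul hψL
  -- one dimensional integrals
  have e0 : ∫ x, itr ρ (l + 1) w (x :: Y) ∂ρ = N2 := rfl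
  have e1 : ∫ x, itr ρ (l + 1) (fun Z => w Z * F Z) (x :: Y) ∂ρ = N2 * c := itr_eq hw hF (l + 2) Y
  have i0 : Integrable (fun x => itr ρ (l + 1) w (x :: Y)) ρ := (hw.lb.itr (l + 1)).ii Y
  have i1 : Integrable (fun x => itr ρ (l + 1) (fun Z => w Z * F Z) (x :: Y)) ρ :=
    (hwF.itr (l + 1)).ii Y
  have iψ : Integrable (fun x => itr ρ (l + 1) w (x :: Y) * ψ (x :: Y)) ρ :=
    ((hw.lb.itr (l + 1)).mul hψL).ii Y
  have iψψ : Integrable (fun x => itr ρ (l + 1) w (x :: Y) * (ψ (x :: Y) * ψ (x :: Y))) ρ :=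
    ((hw.lb.itr (l + 1)).mul hψψ).ii Y
  have e2 : ∫ x, itr ρ (l + 1) w (x :: Y) * ψ (x :: Y) ∂ρ = 0 := by
    have h : ∀ x, itr ρ (l + 1) w (x :: Y) * ψ (x :: Y) =
        itr ρ (l + 1) (fun Z => w Z * F Z) (x :: Y) - itr ρ (l + 1) w (x :: Y) * c := fun x => by
      rw [itr_eq hw hF, hψ]
      ring
    simp_rw [h]
    rw [integral_sub i1 (i0.mul_const c), integral_mul_const, e0, e1, sub_self]
  set S : ℝ := ∫ x, itr ρ (l + 1) w (x :: Y) * (ψ (x :: Y) * ψ (x :: Y)) ∂ρ with hS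
  have e3 : ∫ x, qq ρ w F (l + 1) (x :: Y) ∂ρ = S + c ^ 2 * N2 := by
    have h : ∀ x, qq ρ w F (l + 1) (x :: Y) =
        itr ρ (l + 1) w (x :: Y) * (ψ (x :: Y) * ψ (x :: Y)) +
          (2 * c) * (itr ρ (l + 1) w (x :: Y) * ψ (x :: Y)) +
          c ^ 2 * itr ρ (l + 1) w (x :: Y) := fun x => by
      rw [qq_eq hw hF, hψ]
      ring
    simp_rw [h]
    rw [integral_add, integral_add, integral_const_mul, integral_const_mul, e0, e2]
    · ring
    · exact iψψ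
    · exact iψ.const_mul _
    · exact iψψ.add (iψ.const_mul _)
    · exact i0.const_mul _
  have e4 : ∫ x, itr ρ (l + 1) (fun Z => w Z * F Z) (x :: Y) * ψ (x :: Y) ∂ρ = S := by
    have h : ∀ x, itr ρ (l + 1) (fun Z => w Z * F Z) (x :: Y) * ψ (x :: Y) =
        itr ρ (l + 1) w (x :: Y) * (ψ (x :: Y) * ψ (x :: Y)) +
          c * (itr ρ (l + 1) w (x :: Y) * ψ (x :: Y)) := fun x => by
      rw [itr_eq hw hF, hψ]
      ring
    simp_rw [h]
    rw [integral_add iψψ (iψ.const_mul _), integral_const_mul, e2]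
    ring
  -- two dimensional integrals
  have hK := (hw.lb.itr (ρ := ρ) l).bm Y
  have hB := (hwF.itr (ρ := ρ) l).bm Y
  have h1 := hψL.bm1 Y
  have h2 := hψL.bm2 Y
  have hq : BM (fun p : α × α => qq ρ w F l (p.2 :: p.1 :: Y)) := (qq_lb hw hF l).bm Y
  have a1 : ∫ p : α × α, qq ρ w F l (p.2 :: p.1 :: Y) ∂(ρ.prod ρ) =
      ∫ x, ∫ y, qq ρ w F l (y :: x :: Y) ∂ρ ∂ρ := integral_prod _ (hq.int (ρ := ρ))
  have a2 : ∫ p : α × α, itr ρ l w (p.2 :: p.1 :: Y) ∂(ρ.prod ρ) = N2 := integral_prod _ (hK.int (ρ := ρ))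
  have a3 : ∫ p : α × α, itr ρ l w (p.2 :: p.1 :: Y) * (ψ (p.1 :: Y) * ψ (p.1 :: Y)) ∂(ρ.prod ρ) = S :=
    fub hw.lb hψψ l Y
  have a4 : ∫ p : α × α, itr ρ l w (p.2 :: p.1 :: Y) * (ψ (p.2 :: Y) * ψ (p.2 :: Y)) ∂(ρ.prod ρ) = S :=
    fub2 hw.lb hw.sym hψψ l Y
  have a5 : ∫ p : α × α, itr ρ l (fun Z => w Z * F Z) (p.2 :: p.1 :: Y) ∂(ρ.prod ρ) = N2 * c := by
    rw [integral_prod _ (hB.int (ρ := ρ))]
    exact itr_eq hw hF (l + 2) Y
  have a6 : ∫ p : α × α, itr ρ l (fun Z => w Z * F Z) (p.2 :: p.1 :: Y) * ψ (p.1 :: Y) ∂(ρ.prod ρ) = S := by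
    rw [← e4]
    exact fub hwF hψL l Y
  have a7 : ∫ p : α × α, itr ρ l (fun Z => w Z * F Z) (p.2 :: p.1 :: Y) * ψ (p.2 :: Y) ∂(ρ.prod ρ) = S := by
    rw [← e4]
    exact fub2 hwF hwFs hψL l Y
  have a8 : ∫ p : α × α, itr ρ l w (p.2 :: p.1 :: Y) * ψ (p.1 :: Y) ∂(ρ.prod ρ) = 0 := by
    rw [← e2]
    exact fub hw.lb hψL l Y
  have a9 : ∫ p : α × α, itr ρ l w (p.2 :: p.1 :: Y) * ψ (p.2 :: Y) ∂(ρ.prod ρ) = 0 := by
    rw [← e2]
    exact fub2 hw.lb hw.sym hψL l Y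
  have a10 : ∫ p : α × α, itr ρ l w (p.2 :: p.1 :: Y) * (ψ (p.1 :: Y) * ψ (p.2 :: Y)) ∂(ρ.prod ρ) ≤ 0 := by
    rw [integral_prod _ ((hK.mul (h1.mul h2)).int (ρ := ρ))]
    have h := hw.af l Y (fun x => ψ (x :: Y)) (hψL.cons Y)
      (by obtain ⟨D, hD⟩ := hψL.bdd; exact ⟨D, fun x => hD _⟩)
      (by rw [← e2]; exact integral_congr_ae (Filter.Eventually.of_forall fun x => mul_comm _ _))
    refine le_trans (le_of_eq ?_) h
    refine integral_congr_ae (Filter.Eventually.of_forall fun x => ?_)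
    refine integral_congr_ae (Filter.Eventually.of_forall fun y => ?_)
    show itr ρ l w (y :: x :: Y) * (ψ (x :: Y) * ψ (y :: Y)) = _
    ring
  -- the square
  have hsq : 0 ≤ ∫ p : α × α, (qq ρ w F l (p.2 :: p.1 :: Y) +
      c ^ 2 * itr ρ l w (p.2 :: p.1 :: Y) +
      itr ρ l w (p.2 :: p.1 :: Y) * (ψ (p.1 :: Y) * ψ (p.1 :: Y)) +
      itr ρ l w (p.2 :: p.1 :: Y) * (ψ (p.2 :: Y) * ψ (p.2 :: Y)) +
      (-(2 * c)) * itr ρ l (fun Z => w Z * F Z) (p.2 :: p.1 :: Y) +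
      (-2) * (itr ρ l (fun Z => w Z * F Z) (p.2 :: p.1 :: Y) * ψ (p.1 :: Y)) +
      (-2) * (itr ρ l (fun Z => w Z * F Z) (p.2 :: p.1 :: Y) * ψ (p.2 :: Y)) +
      (2 * c) * (itr ρ l w (p.2 :: p.1 :: Y) * ψ (p.1 :: Y)) +
      (2 * c) * (itr ρ l w (p.2 :: p.1 :: Y) * ψ (p.2 :: Y)) +
      2 * (itr ρ l w (p.2 :: p.1 :: Y) * (ψ (p.1 :: Y) * ψ (p.2 :: Y)))) ∂(ρ.prod ρ) := by
    refine integral_nonneg fun p => ?_
    show (0 : ℝ) ≤ _
    rw [qq_eq hw hF, itr_eq hw hF]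
    have hnn : 0 ≤ itr ρ l w (p.2 :: p.1 :: Y) := itr_nonneg hw.nn l _
    have := mul_nonneg hnn (sq_nonneg (rr ρ w F l (p.2 :: p.1 :: Y) - c - ψ (p.1 :: Y) - ψ (p.2 :: Y)))
    refine this.trans (le_of_eq ?_)
    ring
  have j1 := hq.int (ρ := ρ)
  have j2 := (hK.int (ρ := ρ)).const_mul (c ^ 2)
  have j3 := (hK.mul (h1.mul h1)).int (ρ := ρ)
  have j4 := (hK.mul (h2.mul h2)).int (ρ := ρ)
  have j5 := (hB.int (ρ := ρ)).const_mul (-(2 * c))
  have j6 := ((hB.mul h1).int (ρ := ρ)).const_mul (-2)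
  have j7 := ((hB.mul h2).int (ρ := ρ)).const_mul (-2)
  have j8 := ((hK.mul h1).int (ρ := ρ)).const_mul (2 * c)
  have j9 := ((hK.mul h2).int (ρ := ρ)).const_mul (2 * c)
  have j10 := ((hK.mul (h1.mul h2)).int (ρ := ρ)).const_mul 2
  rw [integral_add, integral_add, integral_add, integral_add, integral_add, integral_add,
    integral_add, integral_add, integral_add, integral_const_mul, integral_const_mul,
    integral_const_mul, integral_const_mul, integral_const_mul, integral_const_mul,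
    integral_const_mul, a1, a2, a3, a4, a5, a6, a7, a8, a9] at hsq
  rotate_left
  · exact j1
  · exact j2
  · exact j1.add j2
  · exact j3
  · exact (j1.add j2).add j3
  · exact j4
  · exact ((j1.add j2).add j3).add j4
  · exact j5
  · exact (((j1.add j2).add j3).add j4).add j5
  · exact j6
  · exact ((((j1.add j2).add j3).add j4).add j5).add j6
  · exact j7
  · exact (((((j1.add j2).add j3).add j4).add j5).add j6).add j7
  · exact j8
  · exact ((((((j1.add j2).add j3).add j4).add j5).add j6).add j7).add j8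
  · exact j9
  · exact (((((((j1.add j2).add j3).add j4).add j5).add j6).add j7).add j8).add j9
  · exact j10
  have e5 : qq ρ w F (l + 2) Y = N2 * c ^ 2 := qq_eq hw hF (l + 2) Y
  rw [e3, e5]
  nlinarith [hsq, a10]

end Pool.Agent.PBL
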