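import Pool.Agent.PBL.B1b

/-! Module PBL-B1c: the Poincare inequality for weights with the Alexandrov-Fenchel property, by induction from the
two-point inequality. -/

set_option autoImplicit false

namespace Pool.Agent.PBL
open MeasureTheory ProbabilityTheory Set Filter Topology Metric
open Pool.Agent.HP89 Pool.Agent.FI75
open scoped RealInnerProductSpace ENNReal

variable {α : Type*} [MeasurableSpace α] {ρ : Measure α}

private theorem int_cons [IsProbabilityMeasure ρ] {F : List α → ℝ} (hF : LB F) (Y : List α) :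
    Integrable (fun x => F (x :: Y)) ρ := by
  obtain ⟨C, hC⟩ := hF.bdd
  refine Integrable.of_bound (hF.cons Y).aestronglyMeasurable C ?_
  exact Filter.Eventually.of_forall fun x => by rw [Real.norm_eq_abs]; exact hC _

private theorem abs_le_mul [IsProbabilityMeasure ρ] {w F : List α → ℝ} (hw : Wt ρ w) (hF : LB F) {C : ℝ}
    (hC : ∀ Z, |F Z| ≤ C) (l : ℕ) (Y : List α) :
    |itr ρ l (fun Z => w Z * F Z) Y| ≤ C * itr ρ l w Y := by
  have h1 : itr ρ l (fun Z => w Z * F Z) Y ≤ itr ρ l (fun Z => C * w Z) Y :=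
    itr_mono (hw.lb.mul hF) ((LB.const C).mul hw.lb) (fun Z => by
      have h2 := (abs_le.mp (hC Z)).2
      have h3 := hw.nn Z
      nlinarith) l Y
  have h2 : itr ρ l (fun Z => (-C) * w Z) Y ≤ itr ρ l (fun Z => w Z * F Z) Y :=
    itr_mono ((LB.const (-C)).mul hw.lb) (hw.lb.mul hF) (fun Z => by
      have h2 := (abs_le.mp (hC Z)).1
      have h3 := hw.nn Z
      nlinarith) l Y
  rw [itr_mul] at h1 h2
  rw [abs_le]
  constructor <;> linarith

private theorem qq_zero [IsProbabilityMeasure ρ] {w F : List α → ℝ} (Z : List α) :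
    qq ρ w F 0 Z = w Z * F Z ^ 2 := by
  unfold qq
  simp only [itr]
  by_cases h : w Z = 0
  · simp [h]
  · field_simp

private theorem qq_mul [IsProbabilityMeasure ρ] {w F : List α → ℝ} (hw : Wt ρ w) (hF : LB F) (l : ℕ) (Y : List α) :
    qq ρ w F l Y * itr ρ l w Y = (itr ρ l (fun Z => w Z * F Z) Y) ^ 2 := by
  obtain ⟨C, hC⟩ := hF.bdd
  unfold qq
  by_cases h : itr ρ l w Y = 0
  · have h1 := abs_le_mul hw hF hC l Y
    rw [h, mul_zero] at h1
    have h2 : itr ρ l (fun Z => w Z * F Z) Y = 0 := abs_eq_zero.mp (le_antisymm h1 (abs_nonneg _))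
    rw [h2, h]; simp
  · field_simp

private theorem Dlb {w F F0 : List α → ℝ} (hw : Wt ρ w) (hF : LB F) (hF0 : LB F0) :
    LB (fun Z => w Z * (F Z - F0 Z.tail) ^ 2) := by
  have h1 : LB (fun Z => F Z - F0 Z.tail) := hF.sub hF0.tail
  have h2 := hw.lb.mul (h1.mul h1)
  have h3 : (fun Z => w Z * (F Z - F0 Z.tail) ^ 2) = (fun Z => w Z * ((F Z - F0 Z.tail) * (F Z - F0 Z.tail))) := by
    funext Z; ring
  rw [h3]; exact h2

private theorem F2lb {w F : List α → ℝ} (hw : Wt ρ w) (hF : LB F) :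
    LB (fun Z => w Z * F Z ^ 2) := by
  have h2 := hw.lb.mul (hF.mul hF)
  have h3 : (fun Z => w Z * F Z ^ 2) = (fun Z => w Z * (F Z * F Z)) := by
    funext Z; ring
  rw [h3]; exact h2

private theorem Cstep [IsProbabilityMeasure ρ] {w F F0 : List α → ℝ} (hw : Wt ρ w) (hF : LB F) (hs : Sym F)
    (hF0 : LB F0) (l : ℕ) : ∀ Y : List α,
    (∫ x, qq ρ w F l (x :: Y) ∂ρ) - qq ρ w F (l + 1) Y ≤
      itr ρ (l + 1) (fun Z => w Z * (F Z - F0 Z.tail) ^ 2) Y := by
  induction l with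
  | zero =>
    intro Y
    have e1 : ∀ x : α, qq ρ w F 0 (x :: Y) = w (x :: Y) * F (x :: Y) ^ 2 := fun x => qq_zero _
    simp only [e1]
    have e2 : itr ρ (0 + 1) (fun Z => w Z * (F Z - F0 Z.tail) ^ 2) Y =
        ∫ x, w (x :: Y) * (F (x :: Y) - F0 Y) ^ 2 ∂ρ := rfl
    rw [e2]
    have i1 : Integrable (fun x => w (x :: Y) * F (x :: Y) ^ 2) ρ := int_cons (F2lb hw hF) Y
    have i2 : Integrable (fun x => w (x :: Y) * F (x :: Y)) ρ := int_cons (hw.lb.mul hF) Y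
    have i3 : Integrable (fun x => w (x :: Y)) ρ := int_cons hw.lb Y
    have e3 : ∫ x, w (x :: Y) * (F (x :: Y) - F0 Y) ^ 2 ∂ρ =
        (∫ x, w (x :: Y) * F (x :: Y) ^ 2 ∂ρ) - 2 * F0 Y * (∫ x, w (x :: Y) * F (x :: Y) ∂ρ)
          + F0 Y ^ 2 * ∫ x, w (x :: Y) ∂ρ := by
      have i4 : Integrable (fun x => w (x :: Y) * F (x :: Y) ^ 2 - 2 * F0 Y * (w (x :: Y) * F (x :: Y))) ρ :=
        i1.sub (i2.const_mul _)
      rw [← integral_const_mul, ← integral_const_mul, ← integral_sub i1 (i2.const_mul _),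
        ← integral_add i4 (i3.const_mul _)]
      refine integral_congr_ae (Filter.Eventually.of_forall fun x => ?_)
      simp only
      ring
    rw [e3]
    have hq := qq_mul hw hF (0 + 1) Y
    have hB : itr ρ (0 + 1) (fun Z => w Z * F Z) Y = ∫ x, w (x :: Y) * F (x :: Y) ∂ρ := rfl
    have hN : itr ρ (0 + 1) w Y = ∫ x, w (x :: Y) ∂ρ := rfl
    obtain ⟨C, hC⟩ := hF.bdd
    have hb := abs_le_mul hw hF hC (0 + 1) Y
    rw [hB, hN] at hq hb
    have hN0 : 0 ≤ ∫ x, w (x :: Y) ∂ρ := integral_nonneg fun x => hw.nn _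
    set N := ∫ x, w (x :: Y) ∂ρ
    set B := ∫ x, w (x :: Y) * F (x :: Y) ∂ρ
    set q := qq ρ w F (0 + 1) Y with hqd
    rcases hN0.eq_or_lt with h0 | hpos
    · have hB0 : B = 0 := by
        rw [← h0, mul_zero] at hb
        exact abs_eq_zero.mp (le_antisymm hb (abs_nonneg _))
      have hq0 : q = 0 := by
        rw [hqd]; unfold qq
        rw [hN, ← h0]; simp
      rw [hq0, hB0, ← h0]; simp
    · have hq1 : q = B ^ 2 / N := by field_simp; linarith
      have key : 0 ≤ (B - F0 Y * N) ^ 2 / N := by positivity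
      have key2 : (B - F0 Y * N) ^ 2 / N = B ^ 2 / N - 2 * F0 Y * B + F0 Y ^ 2 * N := by
        field_simp; ring
      rw [hq1]; linarith
  | succ l ih =>
    intro Y
    have h1 := two_point hw hF hs l Y
    have hlb : LB (qq ρ w F (l + 1)) := LB.qq hw hF (l + 1)
    have hlb0 : LB (itr ρ 1 (qq ρ w F l)) := (LB.qq hw hF l).itr 1
    have i1 : Integrable (fun x => ∫ y, qq ρ w F l (y :: x :: Y) ∂ρ) ρ := int_cons hlb0 Y
    have i2 : Integrable (fun x => qq ρ w F (l + 1) (x :: Y)) ρ := int_cons hlb Y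
    have i3 : Integrable (fun x => itr ρ (l + 1) (fun Z => w Z * (F Z - F0 Z.tail) ^ 2) (x :: Y)) ρ :=
      int_cons ((Dlb hw hF hF0).itr (l + 1)) Y
    have h2 : ∫ x, ((∫ y, qq ρ w F l (y :: x :: Y) ∂ρ) - qq ρ w F (l + 1) (x :: Y)) ∂ρ ≤
        ∫ x, itr ρ (l + 1) (fun Z => w Z * (F Z - F0 Z.tail) ^ 2) (x :: Y) ∂ρ :=
      integral_mono (i1.sub i2) i3 (fun x => ih (x :: Y))
    rw [integral_sub i1 i2] at h2
    have e2 : itr ρ (l + 1 + 1) (fun Z => w Z * (F Z - F0 Z.tail) ^ 2) Y =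
        ∫ x, itr ρ (l + 1) (fun Z => w Z * (F Z - F0 Z.tail) ^ 2) (x :: Y) ∂ρ := rfl
    rw [e2]
    have e3 : qq ρ w F (l + 1 + 1) Y = qq ρ w F (l + 2) Y := rfl
    rw [e3]
    linarith

private theorem Pstep [IsProbabilityMeasure ρ] {w F F0 : List α → ℝ} (hw : Wt ρ w) (hF : LB F) (hs : Sym F)
    (hF0 : LB F0) (l : ℕ) : ∀ Y : List α,
    itr ρ l (fun Z => w Z * F Z ^ 2) Y - qq ρ w F l Y ≤
      l * itr ρ l (fun Z => w Z * (F Z - F0 Z.tail) ^ 2) Y := by
  induction l with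
  | zero =>
    intro Y
    rw [qq_zero]
    simp [itr]
  | succ l ih =>
    intro Y
    have i1 : Integrable (fun x => itr ρ l (fun Z => w Z * F Z ^ 2) (x :: Y)) ρ :=
      int_cons ((F2lb hw hF).itr l) Y
    have i2 : Integrable (fun x => qq ρ w F l (x :: Y)) ρ := int_cons (LB.qq hw hF l) Y
    have i3 : Integrable (fun x => itr ρ l (fun Z => w Z * (F Z - F0 Z.tail) ^ 2) (x :: Y)) ρ :=
      int_cons ((Dlb hw hF hF0).itr l) Y
    have h2 : ∫ x, (itr ρ l (fun Z => w Z * F Z ^ 2) (x :: Y) - qq ρ w F l (x :: Y)) ∂ρ ≤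
        ∫ x, l * itr ρ l (fun Z => w Z * (F Z - F0 Z.tail) ^ 2) (x :: Y) ∂ρ :=
      integral_mono (i1.sub i2) (i3.const_mul _) (fun x => ih (x :: Y))
    rw [integral_sub i1 i2, integral_const_mul] at h2
    have h3 := Cstep hw hF hs hF0 l Y
    have e1 : itr ρ (l + 1) (fun Z => w Z * F Z ^ 2) Y = ∫ x, itr ρ l (fun Z => w Z * F Z ^ 2) (x :: Y) ∂ρ := rfl
    have e2 : itr ρ (l + 1) (fun Z => w Z * (F Z - F0 Z.tail) ^ 2) Y =
        ∫ x, itr ρ l (fun Z => w Z * (F Z - F0 Z.tail) ^ 2) (x :: Y) ∂ρ := rfl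
    rw [e1, e2]
    rw [e2] at h3
    push_cast
    linarith

theorem poincare [IsProbabilityMeasure ρ] {w F F0 : List α → ℝ} (hw : Wt ρ w) (hF : LB F) (hs : Sym F) (hF0 : LB F0)
    (l : ℕ) (Y : List α) :
    itr ρ l (fun Z => w Z * F Z ^ 2) Y * itr ρ l w Y - (itr ρ l (fun Z => w Z * F Z) Y) ^ 2 ≤
      l * itr ρ l (fun Z => w Z * (F Z - F0 Z.tail) ^ 2) Y * itr ρ l w Y := by
  have h1 := Pstep hw hF hs hF0 l Y
  have h2 := qq_mul hw hF l Y
  have h3 : 0 ≤ itr ρ l w Y := itr_nonneg hw.nn l Y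
  have h4 := mul_le_mul_of_nonneg_right h1 h3
  rw [sub_mul, h2] at h4
  exact h4

end Pool.Agent.PBL
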