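import Pool.Agent.PBL.B1c

/-! Module PBL-B2 (exponential moments, from the Poincare inequality). With `N = itr ρ l w []`, `m` the mean of `F`, `G = F - m` and
`Z s = itr ρ l (w exp (s G)) []`, the Poincare inequality for `exp (s G / 2)` gives `Z s * N * (1 - 9 l s² / 16) ≤ Z (s / 2)²`;
induction on `r` gives `Z s ≤ N exp (K s² + C² s² / 2^r)` for `|s| C ≤ 2^r`, `K = 36 l / 23`, and `r → ∞`. -/

set_option autoImplicit false

namespace Pool.Agent.PBL
open MeasureTheory ProbabilityTheory Set Filter Topology Metric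
open Pool.Agent.HP89 Pool.Agent.FI75
open scoped RealInnerProductSpace ENNReal

variable {α : Type*} [MeasurableSpace α] {ρ : Measure α}

private theorem lbexp {G : List α → ℝ} (hG : LB G) (t : ℝ) : LB (fun Z => Real.exp (t * G Z)) := by
  refine hG.comp (g := fun x => Real.exp (t * x)) (by fun_prop) ?_
  intro C
  refine ⟨Real.exp (|t| * C), fun x hx => ?_⟩
  rw [abs_of_pos (Real.exp_pos _)]
  apply Real.exp_le_exp.mpr
  calc t * x ≤ |t * x| := le_abs_self _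
    _ = |t| * |x| := abs_mul _ _
    _ ≤ |t| * C := by gcongr

/-- the pointwise bound. -/
private theorem pw {s a b : ℝ} (hs1 : 2 * s ^ 2 ≤ 1) (h0 : 0 ≤ b - a) (h1 : b - a ≤ 1) :
    (Real.exp (s / 2 * a) - Real.exp (s / 2 * b)) ^ 2 ≤ 9 / 16 * s ^ 2 * Real.exp (s * a) := by
  have hsabs : |s| ≤ 1 := by
    rw [← sq_le_one_iff_abs_le_one]
    nlinarith [sq_nonneg s]
  obtain ⟨x, hx⟩ : ∃ x, x = s / 2 * (b - a) := ⟨_, rfl⟩
  have hxs : |x| ≤ |s| / 2 := by
    rw [hx, abs_mul, abs_div, abs_of_nonneg h0, abs_of_pos (by norm_num : (0 : ℝ) < 2)]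
    exact mul_le_of_le_one_right (by positivity) h1
  have hx0 := abs_nonneg x
  have hxe := Real.abs_exp_sub_one_sub_id_le (x := x) (by linarith)
  have h2 : |1 - Real.exp x| ≤ 3 / 4 * |s| := by
    have h3 : |1 - Real.exp x| ≤ |x| + x ^ 2 := by
      have := abs_le.mp hxe
      have := neg_abs_le x
      have := le_abs_self x
      rw [abs_le]
      constructor <;> linarith
    have h4 : x ^ 2 ≤ 1 / 2 * |x| := by
      rw [← sq_abs]
      nlinarith
    linarith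
  have h3 : Real.exp (s / 2 * a) - Real.exp (s / 2 * b) = Real.exp (s / 2 * a) * (1 - Real.exp x) := by
    rw [mul_sub, ← Real.exp_add, hx]
    ring_nf
  have h4 : Real.exp (s * a) = Real.exp (s / 2 * a) ^ 2 := by
    rw [← Real.exp_nat_mul]
    push_cast
    ring_nf
  have h5 : (1 - Real.exp x) ^ 2 ≤ 9 / 16 * s ^ 2 := by
    rw [← sq_abs (1 - Real.exp x), ← sq_abs s]
    have := abs_nonneg (1 - Real.exp x)
    nlinarith
  rw [h3, h4, mul_pow]
  have := sq_nonneg (Real.exp (s / 2 * a))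
  nlinarith

private theorem step [IsProbabilityMeasure ρ] {w G : List α → ℝ} (hw : Wt ρ w) (hG : LB G) (hs : Sym G)
    (h0 : ∀ x Z, 0 ≤ G Z - G (x :: Z)) (h1 : ∀ x Z, G Z - G (x :: Z) ≤ 1) (l : ℕ)
    (s : ℝ) (hs1 : 2 * s ^ 2 ≤ 1) :
    itr ρ l (fun Z => w Z * Real.exp (s * G Z)) [] * itr ρ l w [] * (1 - 9 / 16 * l * s ^ 2) ≤
      (itr ρ l (fun Z => w Z * Real.exp (s / 2 * G Z)) []) ^ 2 := by
  have hE := lbexp hG (s / 2)
  have hP := poincare hw (F := fun Z => Real.exp (s / 2 * G Z)) (F0 := fun Z => Real.exp (s / 2 * G Z)) hE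
    (fun Z Z' h => by simp only [hs Z Z' h]) hE l []
  have e1 : (fun Z => w Z * Real.exp (s / 2 * G Z) ^ 2) = fun Z => w Z * Real.exp (s * G Z) := by
    funext Z
    rw [← Real.exp_nat_mul]
    push_cast
    ring_nf
  rw [e1] at hP
  have e2 : itr ρ l (fun Z => w Z * (Real.exp (s / 2 * G Z) - Real.exp (s / 2 * G Z.tail)) ^ 2) [] ≤
      itr ρ l (fun Z => 9 / 16 * s ^ 2 * (w Z * Real.exp (s * G Z))) [] := by
    apply itr_mono
    · have hT : LB (fun Z => Real.exp (s / 2 * G Z.tail)) := hE.tail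
      have hD := hE.sub hT
      have hD2 := hD.mul hD
      have := hw.lb.mul hD2
      simpa only [sq] using this
    · exact (LB.const (9 / 16 * s ^ 2)).mul (hw.lb.mul (lbexp hG s))
    · intro Z
      have : (Real.exp (s / 2 * G Z) - Real.exp (s / 2 * G Z.tail)) ^ 2 ≤ 9 / 16 * s ^ 2 * Real.exp (s * G Z) := by
        apply pw hs1
        · cases Z with
          | nil => simp
          | cons x Z => exact h0 x Z
        · cases Z with
          | nil => simp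
          | cons x Z => exact h1 x Z
      have := mul_le_mul_of_nonneg_left this (hw.nn Z)
      linarith
  rw [itr_mul] at e2
  have hN : 0 ≤ itr ρ l w [] := itr_nonneg hw.nn l []
  have hl : (0 : ℝ) ≤ l := Nat.cast_nonneg l
  have e3 := mul_le_mul_of_nonneg_left (mul_le_mul_of_nonneg_right e2 hN) hl
  linarith

private theorem base [IsProbabilityMeasure ρ] {w G : List α → ℝ} (hw : Wt ρ w) (hG : LB G) {C : ℝ}
    (hC : ∀ Z, |G Z| ≤ C) (l : ℕ) (hm : itr ρ l (fun Z => w Z * G Z) [] = 0)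
    (s : ℝ) (hsC : |s| * C ≤ 1) :
    itr ρ l (fun Z => w Z * Real.exp (s * G Z)) [] ≤ itr ρ l w [] * (1 + C ^ 2 * s ^ 2) := by
  have e2 : itr ρ l (fun Z => w Z * Real.exp (s * G Z)) [] ≤
      itr ρ l (fun Z => (1 + C ^ 2 * s ^ 2) * w Z + s * (w Z * G Z)) [] := by
    apply itr_mono
    · exact hw.lb.mul (lbexp hG s)
    · exact ((LB.const _).mul hw.lb).add ((LB.const s).mul (hw.lb.mul hG))
    · intro Z
      have hC0 : 0 ≤ C := (abs_nonneg _).trans (hC Z)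
      have h3 : |s * G Z| ≤ |s| * C := by
        rw [abs_mul]
        exact mul_le_mul_of_nonneg_left (hC Z) (abs_nonneg s)
      have h4 := (abs_le.mp (Real.abs_exp_sub_one_sub_id_le (x := s * G Z) (h3.trans hsC))).2
      have h5 : (s * G Z) ^ 2 ≤ C ^ 2 * s ^ 2 := by
        rw [← sq_abs (s * G Z), ← sq_abs s]
        have := abs_nonneg (s * G Z)
        nlinarith
      have h6 : Real.exp (s * G Z) ≤ 1 + C ^ 2 * s ^ 2 + s * G Z := by linarith
      have := mul_le_mul_of_nonneg_left h6 (hw.nn Z)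
      linarith
  rw [itr_add ((LB.const _).mul hw.lb) ((LB.const s).mul (hw.lb.mul hG)), itr_mul, itr_mul, hm] at e2
  linarith

private theorem iter [IsProbabilityMeasure ρ] {w G : List α → ℝ} (hw : Wt ρ w) (hG : LB G) (hs : Sym G)
    (h0 : ∀ x Z, 0 ≤ G Z - G (x :: Z)) (h1 : ∀ x Z, G Z - G (x :: Z) ≤ 1) {C : ℝ}
    (hC : ∀ Z, |G Z| ≤ C) (l : ℕ) (hm : itr ρ l (fun Z => w Z * G Z) [] = 0) (hpos : 0 < itr ρ l w []) (r : ℕ) :
    ∀ s : ℝ, 2 * l * s ^ 2 ≤ 1 → 2 * s ^ 2 ≤ 1 → |s| * C ≤ 2 ^ r →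
    itr ρ l (fun Z => w Z * Real.exp (s * G Z)) [] ≤
      itr ρ l w [] * Real.exp (36 / 23 * l * s ^ 2 + C ^ 2 * s ^ 2 * (1 / 2) ^ r) := by
  induction r with
  | zero =>
    intro s hsl hs1 hsC
    have hb := base hw hG hC l hm s (by simpa using hsC)
    refine hb.trans ?_
    apply mul_le_mul_of_nonneg_left _ hpos.le
    have h2 := Real.add_one_le_exp (C ^ 2 * s ^ 2)
    have h3 : Real.exp (C ^ 2 * s ^ 2) ≤ Real.exp (36 / 23 * l * s ^ 2 + C ^ 2 * s ^ 2 * (1 / 2) ^ 0) := by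
      apply Real.exp_le_exp.mpr
      have : 0 ≤ 36 / 23 * l * s ^ 2 := by positivity
      simp only [pow_zero, mul_one]
      linarith
    linarith
  | succ r ih =>
    intro s hsl hs1 hsC
    have hst := step hw hG hs h0 h1 l s hs1
    have hs2 := sq_nonneg s
    have hl : (0 : ℝ) ≤ l := Nat.cast_nonneg l
    have hls : 0 ≤ l * s ^ 2 := mul_nonneg hl hs2
    have hi := ih (s / 2) (by rw [div_pow]; linarith) (by rw [div_pow]; linarith)
      (by rw [abs_div, abs_of_pos (by norm_num : (0 : ℝ) < 2)]; rw [pow_succ] at hsC; linarith)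
    obtain ⟨N, hN⟩ : ∃ N, N = itr ρ l w [] := ⟨_, rfl⟩
    obtain ⟨Z1, hZ1⟩ : ∃ Z1, Z1 = itr ρ l (fun Z => w Z * Real.exp (s * G Z)) [] := ⟨_, rfl⟩
    obtain ⟨Z2, hZ2⟩ : ∃ Z2, Z2 = itr ρ l (fun Z => w Z * Real.exp (s / 2 * G Z)) [] := ⟨_, rfl⟩
    have hZ20 : 0 ≤ Z2 := by
      rw [hZ2]
      exact itr_nonneg (fun Z => mul_nonneg (hw.nn Z) (Real.exp_pos _).le) l []
    rw [← hN] at hst hi hpos ⊢
    rw [← hZ1, ← hZ2] at hst
    rw [← hZ2] at hi
    rw [← hZ1]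
    obtain ⟨x, hx⟩ : ∃ x, x = 9 / 16 * l * s ^ 2 := ⟨_, rfl⟩
    rw [← hx] at hst
    have hx0 : 0 ≤ x := by rw [hx]; positivity
    have hx1 : x ≤ 9 / 32 := by rw [hx]; linarith
    -- the inverse of `1 - x`
    have hinv : 1 ≤ (1 - x) * Real.exp (32 / 23 * x) := by
      have h2 := Real.add_one_le_exp (32 / 23 * x)
      have h3 : 1 ≤ (1 - x) * (32 / 23 * x + 1) := by nlinarith
      exact h3.trans (mul_le_mul_of_nonneg_left h2 (by linarith))
    obtain ⟨e, he⟩ : ∃ e, e = 36 / 23 * l * (s / 2) ^ 2 + C ^ 2 * (s / 2) ^ 2 * (1 / 2) ^ r := ⟨_, rfl⟩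
    rw [← he] at hi
    have h5 : Z2 ^ 2 ≤ N ^ 2 * Real.exp (2 * e) := by
      have : Z2 ^ 2 ≤ (N * Real.exp e) ^ 2 := pow_le_pow_left₀ hZ20 hi 2
      rw [mul_pow, ← Real.exp_nat_mul] at this
      exact_mod_cast this
    have h6 : Z1 * (1 - x) ≤ N * Real.exp (2 * e) := by
      have h7 : N * (Z1 * (1 - x)) ≤ N * (N * Real.exp (2 * e)) := by
        have : Z1 * N * (1 - x) ≤ N ^ 2 * Real.exp (2 * e) := hst.trans h5
        linarith
      exact le_of_mul_le_mul_left h7 hpos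
    have h8 : 36 / 23 * l * s ^ 2 + C ^ 2 * s ^ 2 * (1 / 2) ^ (r + 1) = 32 / 23 * x + 2 * e := by
      rw [hx, he, pow_succ]
      ring
    rw [h8, Real.exp_add]
    have hZ10 : 0 ≤ Z1 := by
      rw [hZ1]
      exact itr_nonneg (fun Z => mul_nonneg (hw.nn Z) (Real.exp_pos _).le) l []
    calc Z1 ≤ Z1 * ((1 - x) * Real.exp (32 / 23 * x)) := le_mul_of_one_le_right hZ10 hinv
      _ = Z1 * (1 - x) * Real.exp (32 / 23 * x) := by ring
      _ ≤ N * Real.exp (2 * e) * Real.exp (32 / 23 * x) := mul_le_mul_of_nonneg_right h6 (Real.exp_pos _).le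
      _ = N * (Real.exp (32 / 23 * x) * Real.exp (2 * e)) := by ring

theorem expo [IsProbabilityMeasure ρ] {w F : List α → ℝ} (hw : Wt ρ w) (hF : LB F) (hs : Sym F)
    (h0 : ∀ x Z, 0 ≤ F Z - F (x :: Z)) (h1 : ∀ x Z, F Z - F (x :: Z) ≤ 1) (l : ℕ) (hpos : 0 < itr ρ l w [])
    (s : ℝ) (hsl : 2 * l * s ^ 2 ≤ 1) (hs1 : 2 * s ^ 2 ≤ 1) :
    itr ρ l (fun Z => w Z * Real.exp (s * (F Z - itr ρ l (fun Z => w Z * F Z) [] / itr ρ l w []))) [] ≤
      3 * itr ρ l w [] := by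
  obtain ⟨m, hm⟩ : ∃ m, m = itr ρ l (fun Z => w Z * F Z) [] / itr ρ l w [] := ⟨_, rfl⟩
  rw [← hm]
  have hG : LB (fun Z => F Z - m) := hF.sub (LB.const m)
  obtain ⟨C, hC⟩ := hG.bdd
  have hGm : itr ρ l (fun Z => w Z * (F Z - m)) [] = 0 := by
    have e1 : (fun Z => w Z * (F Z - m)) = fun Z => w Z * F Z + (-m) * w Z := by
      funext Z
      ring
    rw [e1, itr_add (hw.lb.mul hF) ((LB.const (-m)).mul hw.lb), itr_mul, hm]
    field_simp
    ring
  have hb : ∀ᶠ r : ℕ in atTop, itr ρ l (fun Z => w Z * Real.exp (s * (F Z - m))) [] ≤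
      itr ρ l w [] * Real.exp (36 / 23 * l * s ^ 2 + C ^ 2 * s ^ 2 * (1 / 2) ^ r) := by
    have ht : Tendsto (fun r : ℕ => (2 : ℝ) ^ r) atTop atTop := tendsto_pow_atTop_atTop_of_one_lt (by norm_num)
    filter_upwards [ht.eventually_ge_atTop (|s| * C)] with r hr
    exact iter hw hG (fun Z Z' h => by simp only [hs Z Z' h]) (fun x Z => by simpa using h0 x Z)
      (fun x Z => by simpa using h1 x Z) hC l hGm hpos r s hsl hs1 hr
  have hlim : Tendsto (fun r : ℕ => itr ρ l w [] * Real.exp (36 / 23 * l * s ^ 2 + C ^ 2 * s ^ 2 * (1 / 2) ^ r)) atTop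
      (𝓝 (itr ρ l w [] * Real.exp (36 / 23 * l * s ^ 2 + C ^ 2 * s ^ 2 * 0))) := by
    have h2 : Tendsto (fun r : ℕ => ((1 : ℝ) / 2) ^ r) atTop (𝓝 0) :=
      tendsto_pow_atTop_nhds_zero_of_lt_one (by norm_num) (by norm_num)
    exact ((Real.continuous_exp.tendsto _).comp ((h2.const_mul _).const_add _)).const_mul _
  have h3 := ge_of_tendsto hlim hb
  refine h3.trans ?_
  rw [mul_comm]
  apply mul_le_mul_of_nonneg_right _ hpos.le
  have h4 : Real.exp (36 / 23 * l * s ^ 2 + C ^ 2 * s ^ 2 * 0) ≤ Real.exp 1 := by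
    apply Real.exp_le_exp.mpr
    linarith
  have h5 := Real.exp_one_lt_d9
  linarith

end Pool.Agent.PBL
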