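import Pool.Agent.PBL.B2
import Pool.Agent.PBL.A6
import Pool.Agent.PBL.B3b

/-! Module PBL-B3c (concentration of the trace functions): Poincare and exponential moment inequalities for the
functions `qF ν` of lists with the weight `wq`, converted into statements on tuples with the density `wv`. -/

set_option autoImplicit false

namespace Pool.Agent.PBL
open MeasureTheory ProbabilityTheory Set Filter Topology Metric
open Pool.Agent.HP89 Pool.Agent.FI75
open scoped RealInnerProductSpace ENNReal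

variable {V : Type*} [NormedAddCommGroup V] [InnerProductSpace ℝ V] [FiniteDimensional ℝ V]
  [MeasurableSpace V] [BorelSpace V]

/-- the mean of `sW ν (oc X)`. -/
noncomputable def mW (n : ℕ) (ρ ν : Measure V) : ℝ := (en n ρ)⁻¹ * iw n ρ (fun X => sW ν (oc X))

private theorem lb_sq {α : Type*} [MeasurableSpace α] {F : List α → ℝ} (hF : LB F) (m : ℝ) :
    LB (fun Z => (F Z - m) ^ 2) := by
  have h1 := (hF.sub (LB.const (α := α) m)).mul (hF.sub (LB.const (α := α) m))
  have h2 : (fun Z : List α => (F Z - m) ^ 2) = fun Z => (F Z - m) * (F Z - m) := by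
    funext Z
    rw [pow_two]
  rw [h2]
  exact h1

private theorem lb_exp {α : Type*} [MeasurableSpace α] {F : List α → ℝ} (hF : LB F) (s m : ℝ) :
    LB (fun Z => Real.exp (s * (F Z - m))) := by
  refine hF.comp (g := fun t => Real.exp (s * (t - m))) (by fun_prop) fun C => ?_
  refine ⟨Real.exp (|s| * (C + |m|)), fun t ht => ?_⟩
  rw [abs_of_pos (Real.exp_pos _)]
  refine Real.exp_le_exp.2 ((le_abs_self _).trans ?_)
  rw [abs_mul]
  refine mul_le_mul_of_nonneg_left ?_ (abs_nonneg s)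
  have h1 := abs_sub t m
  linarith

private theorem en_pos_itr {ρ : Measure V} (hρ : US ρ) {n : ℕ} (hn : 0 < en n ρ) :
    0 < itr ρ n wq [] := by
  rw [itr_en hρ]
  exact hn

/-- variance identity and the Poincare inequality. -/
private theorem var_gen {ρ : Measure V} (hρ : US ρ) {F F0 : List V → ℝ} (hF : LB F) (hs : Sym F)
    (hF0 : LB F0) {n : ℕ} (hn : 0 < en n ρ) :
    iw n ρ (fun X => (F (List.ofFn X) - (en n ρ)⁻¹ * iw n ρ (fun X => F (List.ofFn X))) ^ 2) ≤
      n * itr ρ n (fun Z => wq Z * (F Z - F0 Z.tail) ^ 2) [] := by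
  have := hρ.prob
  have hw : Wt ρ (wq : List V → ℝ) := wt_wq ρ
  have hwq : LB (wq : List V → ℝ) := hw.lb
  have hB := itr_iw hρ hF n
  have hN := itr_en hρ n
  set N := en n ρ with hNdef
  set B := iw n ρ (fun X => F (List.ofFn X)) with hBdef
  set m := N⁻¹ * B with hm
  have hV := itr_iw hρ (lb_sq hF m) n
  rw [← hV]
  have hwF : LB (fun Z => wq Z * F Z) := hwq.mul hF
  have hF2 : LB (fun Z => F Z ^ 2) := by
    have h1 := lb_sq hF 0
    simpa using h1
  have hwF2 : LB (fun Z => wq Z * F Z ^ 2) := hwq.mul hF2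
  have hexp : itr ρ n (fun Z => wq Z * (F Z - m) ^ 2) [] =
      itr ρ n (fun Z => wq Z * F Z ^ 2) [] + ((-(2 * m)) * B + m ^ 2 * N) := by
    have h1 : (fun Z : List V => wq Z * (F Z - m) ^ 2) =
        fun Z => (fun Z : List V => wq Z * F Z ^ 2) Z +
          (fun Z : List V => (fun Z : List V => (-(2 * m)) * (wq Z * F Z)) Z +
            (fun Z : List V => m ^ 2 * wq Z) Z) Z := by
      funext Z
      simp only []
      ring
    have hL1 : LB (fun Z : List V => (-(2 * m)) * (wq Z * F Z)) :=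
      (LB.const (α := V) (-(2 * m))).mul hwF
    have hL2 : LB (fun Z : List V => m ^ 2 * wq Z) := (LB.const (α := V) (m ^ 2)).mul hwq
    rw [h1, itr_add hwF2 (hL1.add hL2), itr_add hL1 hL2, itr_mul, itr_mul, hB, hN]
  have hp := poincare hw hF hs hF0 n []
  rw [hB, hN] at hp
  rw [hexp]
  generalize itr ρ n (fun Z => wq Z * F Z ^ 2) [] = A at hp
  generalize itr ρ n (fun Z => wq Z * (F Z - F0 Z.tail) ^ 2) [] = D at hp
  have hmN : m * N = B := by
    rw [hm, mul_comm (N⁻¹) B, mul_assoc, inv_mul_cancel₀ hn.ne', mul_one]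
  have h2 : (A + ((-(2 * m)) * B + m ^ 2 * N)) * N = A * N - B ^ 2 := by
    rw [← hmN]
    ring
  have h3 : (A + ((-(2 * m)) * B + m ^ 2 * N)) * N ≤ (n * D) * N := by
    rw [h2]
    exact hp
  exact le_of_mul_le_mul_right h3 hn

private theorem sW_fun (ν : Measure V) (n : ℕ) :
    (fun X : Fin n → V => sW ν (oc X)) = fun X => qF ν (List.ofFn X) := by
  funext X
  rw [qF_eq]

theorem conc_var {ρ ν : Measure V} (hρ : US ρ) (hν : Sub1 ν) {n : ℕ} (hn : 0 < en n ρ) :
    iw n ρ (fun X => (sW ν (oc X) - mW n ρ ν) ^ 2) ≤ n / 4 * en n ρ := by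
  have := hρ.prob
  have hF : LB (qF ν) := lb_qF hν
  have hF0 : LB (fun Z => qF ν Z - 1 / 2) := hF.sub (LB.const (α := V) (1 / 2))
  have h1 := var_gen hρ hF (sym_qF ν) hF0 hn
  have h2 : (fun X : Fin n → V => (sW ν (oc X) - mW n ρ ν) ^ 2) =
      fun X => (qF ν (List.ofFn X) -
        (en n ρ)⁻¹ * iw n ρ (fun X => qF ν (List.ofFn X))) ^ 2 := by
    funext X
    unfold mW
    rw [sW_fun, qF_eq]
  rw [h2]
  refine h1.trans ?_
  have hwq : LB (wq : List V → ℝ) := (wt_wq ρ).lb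
  have hT : LB (fun Z : List V => (qF ν Z - (fun Z => qF ν Z - 1 / 2) Z.tail) ^ 2) := by
    have h3 := hF.sub hF0.tail
    have h4 := lb_sq h3 0
    simpa using h4
  have h3 : itr ρ n (fun Z => wq Z * (qF ν Z - (fun Z => qF ν Z - 1 / 2) Z.tail) ^ 2) [] ≤
      itr ρ n (fun Z => 1 / 4 * wq Z) [] := by
    refine itr_mono (hwq.mul hT) ((LB.const (α := V) (1 / 4)).mul hwq) (fun Z => ?_) n []
    rw [mul_comm (1 / 4 : ℝ) (wq Z)]
    refine mul_le_mul_of_nonneg_left ?_ ((wt_wq ρ).nn Z)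
    cases Z with
    | nil =>
      simp only [List.tail_nil]
      norm_num
    | cons x Z =>
      simp only [List.tail_cons]
      obtain ⟨h5, h6⟩ := qF_inc hν x Z
      nlinarith
  rw [itr_mul, itr_en hρ] at h3
  calc (n : ℝ) * itr ρ n (fun Z => wq Z * (qF ν Z - (fun Z => qF ν Z - 1 / 2) Z.tail) ^ 2) []
      ≤ n * (1 / 4 * en n ρ) := mul_le_mul_of_nonneg_left h3 (Nat.cast_nonneg n)
    _ = n / 4 * en n ρ := by ring

private theorem int_wv {ρ : Measure V} (hρ : US ρ) {G : List V → ℝ} (hG : LB G) (n : ℕ) :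
    Integrable (fun X : Fin n → V => wv X * G (List.ofFn X)) (pp n ρ) := by
  have := hρ.prob
  obtain ⟨C, hC⟩ := hG.bdd
  have hm : Measurable (fun X : Fin n → V => wv X * G (List.ofFn X)) :=
    (measurable_wn n).mul (hG.meas n)
  refine Integrable.of_bound hm.aestronglyMeasurable (1 * C) ?_
  filter_upwards [ae_wv_le hρ n] with X hX
  rw [Real.norm_eq_abs, abs_mul, abs_of_nonneg hX.1]
  exact mul_le_mul hX.2 (hC _) (abs_nonneg _) zero_le_one

omit [BorelSpace V] in
private theorem en_le_finrank {ρ : Measure V} {n : ℕ} (hn : 0 < en n ρ) :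
    n ≤ Module.finrank ℝ V := by
  by_contra h
  have h0 : en n ρ = 0 := by
    unfold en
    have h1 : (fun X : Fin n → V => wv X) = fun _ => (0 : ℝ) := by
      funext X
      unfold wv
      refine wn_eq_zero_of_lt ?_
      rw [List.length_ofFn]
      omega
    rw [h1, integral_zero]
  exact hn.ne' h0

theorem conc_tail {ρ ν : Measure V} (hρ : US ρ) (hν : Sub1 ν) {n : ℕ} (hn : 0 < en n ρ) (t : ℝ) :
    iw n ρ ({X : Fin n → V | t ≤ |sW ν (oc X) - mW n ρ ν|}.indicator (fun _ => 1)) ≤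
      6 * Real.exp (-t / √(2 * (Module.finrank ℝ V : ℝ))) * en n ρ := by
  have := hρ.prob
  have hF : LB (qF ν) := lb_qF hν
  have hnd := en_le_finrank hn
  set d : ℝ := (Module.finrank ℝ V : ℝ) with hd
  have hnd' : (n : ℝ) ≤ d := by
    rw [hd]
    exact_mod_cast hnd
  have hd0 : 0 ≤ d := Nat.cast_nonneg _
  set s : ℝ := 1 / √(2 * d) with hs
  have hs2 : s ^ 2 = 1 / (2 * d) := by
    rw [hs, div_pow, one_pow, Real.sq_sqrt (by positivity)]
  have hds : 2 * d * s ^ 2 ≤ 1 := by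
    rw [hs2, mul_one_div]
    exact div_self_le_one _
  have hsn : 2 * (n : ℝ) * s ^ 2 ≤ 1 := by
    have h1 : 2 * (n : ℝ) * s ^ 2 ≤ 2 * d * s ^ 2 :=
      mul_le_mul_of_nonneg_right (by linarith) (sq_nonneg s)
    exact h1.trans hds
  have hs1 : 2 * s ^ 2 ≤ 1 := by
    rcases Nat.eq_zero_or_pos (Module.finrank ℝ V) with h0 | h0
    · have h1 : d = 0 := by rw [hd, h0, Nat.cast_zero]
      rw [hs2, h1]
      norm_num
    · have h1 : (1 : ℝ) ≤ d := by
        rw [hd]
        exact_mod_cast h0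
      have h2 : 2 * s ^ 2 ≤ 2 * d * s ^ 2 := by
        have := mul_le_mul_of_nonneg_right h1 (sq_nonneg s)
        nlinarith
      exact h2.trans hds
  have hmW : mW n ρ ν = itr ρ n (fun Z => wq Z * qF ν Z) [] / itr ρ n wq [] := by
    unfold mW
    rw [itr_iw hρ hF n, itr_en hρ, sW_fun, div_eq_inv_mul]
  have hinc : ∀ x Z, 0 ≤ qF ν Z - qF ν (x :: Z) := fun x Z => (qF_inc hν x Z).1
  have hinc1 : ∀ x Z, qF ν Z - qF ν (x :: Z) ≤ 1 := fun x Z => (qF_inc hν x Z).2
  have e1 := expo (wt_wq ρ) hF (sym_qF ν) hinc hinc1 n (en_pos_itr hρ hn) s hsn hs1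
  have e2 := expo (wt_wq ρ) hF (sym_qF ν) hinc hinc1 n (en_pos_itr hρ hn) (-s)
    (by rw [neg_sq]; exact hsn) (by rw [neg_sq]; exact hs1)
  rw [← hmW] at e1 e2
  set m := mW n ρ ν with hm
  rw [itr_iw hρ (lb_exp hF s m) n, itr_en hρ] at e1
  rw [itr_iw hρ (lb_exp hF (-s) m) n, itr_en hρ] at e2
  have hi1 := int_wv hρ (lb_exp hF s m) n
  have hi2 := int_wv hρ (lb_exp hF (-s) m) n
  have hst : -t / √(2 * d) = -(s * t) := by
    rw [hs]
    ring
  have key : iw n ρ ({X : Fin n → V | t ≤ |sW ν (oc X) - m|}.indicator (fun _ => 1)) ≤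
      ∫ X, Real.exp (-(s * t)) * (wv X * Real.exp (s * (qF ν (List.ofFn X) - m)) +
        wv X * Real.exp (-s * (qF ν (List.ofFn X) - m))) ∂(pp n ρ) := by
    unfold iw
    refine integral_mono_of_nonneg ?_ ((hi1.add hi2).const_mul _) ?_
    · filter_upwards [ae_wv_le hρ n] with X hX
      exact mul_nonneg hX.1 (Set.indicator_nonneg (fun _ _ => zero_le_one) _)
    · filter_upwards [ae_wv_le hρ n] with X hX
      have h1 : ({X : Fin n → V | t ≤ |sW ν (oc X) - m|}.indicator (fun _ => (1 : ℝ))) X ≤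
          Real.exp (-(s * t)) * (Real.exp (s * (qF ν (List.ofFn X) - m)) +
            Real.exp (-s * (qF ν (List.ofFn X) - m))) := by
        rw [qF_eq]
        by_cases hX2 : X ∈ {X : Fin n → V | t ≤ |sW ν (oc X) - m|}
        · rw [Set.indicator_of_mem hX2, mul_add, ← Real.exp_add, ← Real.exp_add]
          have hX3 : t ≤ |sW ν (oc X) - m| := hX2
          have hspos : 0 ≤ s := by rw [hs]; positivity
          rcases abs_cases (sW ν (oc X) - m) with ⟨h2, _⟩ | ⟨h2, _⟩
          · rw [h2] at hX3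
            have h3 : (1 : ℝ) ≤ Real.exp (-(s * t) + s * (sW ν (oc X) - m)) := by
              refine Real.one_le_exp ?_
              nlinarith
            have h4 := Real.exp_pos (-(s * t) + -s * (sW ν (oc X) - m))
            linarith
          · rw [h2] at hX3
            have h3 : (1 : ℝ) ≤ Real.exp (-(s * t) + -s * (sW ν (oc X) - m)) := by
              refine Real.one_le_exp ?_
              nlinarith
            have h4 := Real.exp_pos (-(s * t) + s * (sW ν (oc X) - m))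
            linarith
        · rw [Set.indicator_of_notMem hX2]
          positivity
      calc wv X * ({X : Fin n → V | t ≤ |sW ν (oc X) - m|}.indicator (fun _ => (1 : ℝ))) X
          ≤ wv X * (Real.exp (-(s * t)) * (Real.exp (s * (qF ν (List.ofFn X) - m)) +
            Real.exp (-s * (qF ν (List.ofFn X) - m)))) := mul_le_mul_of_nonneg_left h1 hX.1
        _ = _ := by ring
  refine key.trans ?_
  rw [integral_const_mul, integral_add hi1 hi2, hst]
  have h5 : (∫ X, wv X * Real.exp (s * (qF ν (List.ofFn X) - m)) ∂(pp n ρ)) ≤ 3 * en n ρ := e1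
  have h6 : (∫ X, wv X * Real.exp (-s * (qF ν (List.ofFn X) - m)) ∂(pp n ρ)) ≤ 3 * en n ρ := e2
  calc Real.exp (-(s * t)) * ((∫ X, wv X * Real.exp (s * (qF ν (List.ofFn X) - m)) ∂(pp n ρ)) +
        ∫ X, wv X * Real.exp (-s * (qF ν (List.ofFn X) - m)) ∂(pp n ρ))
      ≤ Real.exp (-(s * t)) * (3 * en n ρ + 3 * en n ρ) :=
        mul_le_mul_of_nonneg_left (add_le_add h5 h6) (Real.exp_pos _).le
    _ = 6 * Real.exp (-(s * t)) * en n ρ := by ring

theorem conc_pt {ρ : Measure V} (hρ : US ρ) {n : ℕ} (hn : 0 < en (n + 1) ρ) {x0 : V} (hx0 : ‖x0‖ ≤ 1) :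
    iw (n + 1) ρ (fun X => (‖rv X x0‖ ^ 2 - (en (n + 1) ρ)⁻¹ * iw (n + 1) ρ (fun X => ‖rv X x0‖ ^ 2)) ^ 2) ≤
      ((n : ℝ) + 1) * iw (n + 1) ρ (fun X => ⟪nrm (rv (Fin.tail X) (X 0)), x0⟫ ^ 4) := by
  have := hρ.prob
  have hν : Sub1 (Measure.dirac x0) := sub1_dirac hx0
  have hF : LB (qF (Measure.dirac x0)) := lb_qF hν
  have hFe : ∀ Z : List V, qF (Measure.dirac x0) Z = ‖res Z x0‖ ^ 2 := by
    intro Z
    unfold qF
    rw [integral_dirac]
  have h1 := var_gen hρ hF (sym_qF _) hF hn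
  have h2 : (fun X : Fin (n + 1) → V => qF (Measure.dirac x0) (List.ofFn X)) =
      fun X => ‖rv X x0‖ ^ 2 := by
    funext X
    rw [hFe]
    rfl
  have hT : LB (fun Z : List V => (qF (Measure.dirac x0) Z - qF (Measure.dirac x0) Z.tail) ^ 2) := by
    have h3 := hF.sub hF.tail
    have h4 := lb_sq h3 0
    simpa using h4
  rw [itr_iw hρ hT (n + 1)] at h1
  have h3 : (fun X : Fin (n + 1) → V => (qF (Measure.dirac x0) (List.ofFn X) -
      qF (Measure.dirac x0) (List.ofFn X).tail) ^ 2) =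
      fun X => ⟪nrm (rv (Fin.tail X) (X 0)), x0⟫ ^ 4 := by
    funext X
    have h4 : List.ofFn X = X 0 :: List.ofFn (Fin.tail X) := List.ofFn_succ
    rw [h4, List.tail_cons]
    have h5 := qF_cons hν (X 0) (List.ofFn (Fin.tail X))
    rw [integral_dirac, real_inner_comm] at h5
    have h6 : (qF (Measure.dirac x0) (X 0 :: List.ofFn (Fin.tail X)) -
        qF (Measure.dirac x0) (List.ofFn (Fin.tail X))) ^ 2 =
        (qF (Measure.dirac x0) (List.ofFn (Fin.tail X)) -
        qF (Measure.dirac x0) (X 0 :: List.ofFn (Fin.tail X))) ^ 2 := by ring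
    rw [h6, h5, real_inner_comm]
    change (⟪nrm (rv (Fin.tail X) (X 0)), x0⟫ ^ 2) ^ 2 = _
    ring
  rw [h3, h2] at h1
  have h7 : (fun X : Fin (n + 1) → V => (qF (Measure.dirac x0) (List.ofFn X) -
      (en (n + 1) ρ)⁻¹ * iw (n + 1) ρ (fun X => ‖rv X x0‖ ^ 2)) ^ 2) =
      fun X => (‖rv X x0‖ ^ 2 - (en (n + 1) ρ)⁻¹ * iw (n + 1) ρ (fun X => ‖rv X x0‖ ^ 2)) ^ 2 := by
    funext X
    have h8 : qF (Measure.dirac x0) (List.ofFn X) = ‖rv X x0‖ ^ 2 := congrFun h2 X
    rw [h8]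
  rw [h7] at h1
  push_cast at h1
  exact h1

end Pool.Agent.PBL
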