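import Pool.Agent.PBL.C0
import Pool.Agent.FI75.M1

/-!
# Moments of the uniform law on the unit sphere of a subspace

Homogeneous functions of degree 2 and 4 are compared with Gaussian moments (`hom_av`); the Gaussian moments
come from the polarisation of `E ⟪g,a⟫⁴ = 3‖a‖⁴` and an orthonormal basis.
-/

set_option autoImplicit false

namespace Pool.Agent.PBL
open MeasureTheory ProbabilityTheory Set Filter Topology Metric
open Pool.Agent.HP89 Pool.Agent.FI75
open scoped RealInnerProductSpace ENNReal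

variable {V : Type*} [NormedAddCommGroup V] [InnerProductSpace ℝ V] [FiniteDimensional ℝ V]
  [MeasurableSpace V] [BorelSpace V]

omit [FiniteDimensional ℝ V] in
private theorem measurable_nrm' : Measurable (nrm : V → V) :=
  measurable_norm.inv.smul measurable_id

omit [FiniteDimensional ℝ V] [MeasurableSpace V] [BorelSpace V] in
private theorem nnl (x : V) : ‖nrm x‖ ≤ 1 := by
  unfold nrm
  rw [norm_smul, norm_inv, norm_norm]
  exact inv_mul_le_one

omit [FiniteDimensional ℝ V] [MeasurableSpace V] [BorelSpace V] in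
private theorem nrm_nrm (x : V) : nrm (nrm x) = nrm x := by
  by_cases hx : x = 0
  · simp [nrm, hx]
  · have h1 : ‖nrm x‖ = 1 := by
      unfold nrm
      rw [norm_smul, norm_inv, norm_norm, inv_mul_cancel₀ (norm_ne_zero_iff.2 hx)]
    calc nrm (nrm x) = ‖nrm x‖⁻¹ • nrm x := rfl
      _ = nrm x := by rw [h1, inv_one, one_smul]

/-- homogeneous functions: the mean over the sphere and the Gaussian mean. -/
private theorem hom_av (E : Submodule ℝ V) (hE : 1 ≤ Module.finrank ℝ E) {φ : V → ℝ} (hφ : Measurable φ)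
    {m : ℕ} (hm : 1 ≤ m) (hhom : ∀ (c : ℝ) (x : V), φ (c • x) = c ^ m * φ x) {C : ℝ}
    (hC : ∀ x, ‖x‖ ≤ 1 → |φ x| ≤ C)
    (hint : Integrable (fun g => ‖E.starProjection g‖ ^ m) (stdGaussian V)) :
    ∫ g, φ (E.starProjection g) ∂(stdGaussian V) =
      (∫ g, ‖E.starProjection g‖ ^ m ∂(stdGaussian V)) * av E φ := by
  have h1 := rad_real E hE (f := fun t => t ^ m) (by fun_prop) hint (φ := fun x => φ (nrm x))
    (hφ.comp measurable_nrm') (C := C) (fun x => hC _ (nnl x))
  have h2 : av E (fun x => φ (nrm x)) = av E φ := by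
    unfold av
    simp only [nrm_nrm]
  rw [h2] at h1
  rw [← h1]
  refine integral_congr_ae (Filter.Eventually.of_forall fun g => ?_)
  simp only [nrm_nrm]
  set y := E.starProjection g with hy
  by_cases h0 : y = 0
  · have h3 : φ (0 : V) = 0 := by
      have := hhom 0 0
      rw [zero_smul, zero_pow (by omega), zero_mul] at this
      exact this
    rw [h0, norm_zero, zero_pow (by omega), zero_mul, h3]
  · unfold nrm
    rw [hhom, ← mul_assoc, ← mul_pow, mul_inv_cancel₀ (norm_ne_zero_iff.2 h0), one_pow, one_mul]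

private theorem inner_four (a : V) : Integrable (fun g => ⟪g, a⟫ ^ 4) (stdGaussian V) ∧
    ∫ g, ⟪g, a⟫ ^ 4 ∂(stdGaussian V) = 3 * ‖a‖ ^ 4 := by
  by_cases ha : a = 0
  · subst ha
    simp
  · have hn : ‖a‖ ≠ 0 := norm_ne_zero_iff.2 ha
    have h1 : ∀ g : V, ⟪g, a⟫ ^ 4 = ‖a‖ ^ 4 * ‖(ℝ ∙ a).starProjection g‖ ^ 4 := by
      intro g
      rw [Submodule.starProjection_singleton, norm_smul, real_inner_comm, mul_pow, Real.norm_eq_abs]
      have h2 : |⟪a, g⟫ / ((‖a‖ ^ 2 : ℝ) : ℝ)| ^ 4 = ⟪a, g⟫ ^ 4 / ‖a‖ ^ 8 := by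
        rw [Even.pow_abs (by decide), div_pow, ← pow_mul]
      have h3 : |⟪a, g⟫ / (RCLike.ofReal (‖a‖ ^ 2) : ℝ)| ^ 4 = ⟪a, g⟫ ^ 4 / ‖a‖ ^ 8 := h2
      rw [h3]
      field_simp
    obtain ⟨h4, h5⟩ := int_norm_four (V := V) (ℝ ∙ a)
    rw [finrank_span_singleton ha] at h5
    simp_rw [h1]
    refine ⟨h4.const_mul _, ?_⟩
    rw [integral_const_mul, h5]
    push_cast
    ring

private theorem inner_two_two (a b : V) : Integrable (fun g => ⟪g, a⟫ ^ 2 * ⟪g, b⟫ ^ 2) (stdGaussian V) ∧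
    ∫ g, ⟪g, a⟫ ^ 2 * ⟪g, b⟫ ^ 2 ∂(stdGaussian V) = ‖a‖ ^ 2 * ‖b‖ ^ 2 + 2 * ⟪a, b⟫ ^ 2 := by
  have h1 : ∀ g : V, ⟪g, a⟫ ^ 2 * ⟪g, b⟫ ^ 2 =
      (⟪g, a + b⟫ ^ 4 + ⟪g, a - b⟫ ^ 4 - (2 * ⟪g, a⟫ ^ 4 + 2 * ⟪g, b⟫ ^ 4)) / 12 := fun g => by
    rw [inner_add_right, inner_sub_right]
    ring
  obtain ⟨i1, e1⟩ := inner_four (a + b)
  obtain ⟨i2, e2⟩ := inner_four (a - b)
  obtain ⟨i3, e3⟩ := inner_four a
  obtain ⟨i4, e4⟩ := inner_four b
  have i12 : Integrable (fun g => ⟪g, a + b⟫ ^ 4 + ⟪g, a - b⟫ ^ 4) (stdGaussian V) := i1.add i2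
  have i34 : Integrable (fun g => 2 * ⟪g, a⟫ ^ 4 + 2 * ⟪g, b⟫ ^ 4) (stdGaussian V) :=
    (i3.const_mul 2).add (i4.const_mul 2)
  simp_rw [h1]
  refine ⟨(i12.sub i34).div_const 12, ?_⟩
  rw [integral_div, integral_sub i12 i34, integral_add i1 i2,
    integral_add (i3.const_mul 2) (i4.const_mul 2), integral_const_mul, integral_const_mul, e1, e2, e3, e4]
  have h2 : ‖a + b‖ ^ 4 = (‖a‖ ^ 2 + 2 * ⟪a, b⟫ + ‖b‖ ^ 2) ^ 2 := by
    rw [← norm_add_sq_real]
    ring
  have h3 : ‖a - b‖ ^ 4 = (‖a‖ ^ 2 - 2 * ⟪a, b⟫ + ‖b‖ ^ 2) ^ 2 := by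
    rw [← norm_sub_sq_real]
    ring
  rw [h2, h3]
  ring

private theorem inner_sq_int (a : V) : Integrable (fun g => ⟪g, a⟫ ^ 2) (stdGaussian V) ∧
    ∫ g, ⟪g, a⟫ ^ 2 ∂(stdGaussian V) = ‖a‖ ^ 2 := by
  have h1 : ∀ g : V, ⟪g, a⟫ ^ 2 = ⟪g, a⟫ * ⟪g, a⟫ := fun g => sq _
  simp_rw [h1]
  refine ⟨integrable_inner_mul a a, ?_⟩
  rw [integral_inner_mul, real_inner_self_eq_norm_sq]

/-- the vectors `P_E P_W e_i`. -/
private noncomputable def av' (E W : Submodule ℝ V) (i : Fin (Module.finrank ℝ V)) : V :=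
  E.starProjection (W.starProjection (stdOrthonormalBasis ℝ V i))

omit [MeasurableSpace V] [BorelSpace V] in
private theorem norm_proj_sum (E W : Submodule ℝ V) (g : V) :
    ‖W.starProjection (E.starProjection g)‖ ^ 2 = ∑ i, ⟪g, av' E W i⟫ ^ 2 := by
  rw [← (stdOrthonormalBasis ℝ V).sum_sq_norm_inner_left]
  refine Finset.sum_congr rfl fun i _ => ?_
  rw [Real.norm_eq_abs, sq_abs, Submodule.inner_starProjection_left_eq_right,
    Submodule.inner_starProjection_left_eq_right]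
  rfl

private theorem tt_eq (E W : Submodule ℝ V) : tt E W = ∑ i, ‖av' E W i‖ ^ 2 := by
  unfold tt
  simp_rw [norm_proj_sum]
  rw [integral_finsetSum _ fun i _ => (inner_sq_int _).1]
  exact Finset.sum_congr rfl fun i _ => (inner_sq_int _).2

omit [MeasurableSpace V] [BorelSpace V] in
private theorem pp_le (E W : Submodule ℝ V) (g : V) :
    ‖W.starProjection (E.starProjection g)‖ ^ 2 ≤ ‖g‖ ^ 2 :=
  pow_le_pow_left₀ (norm_nonneg _)
    ((Submodule.norm_starProjection_apply_le _ _).trans (Submodule.norm_starProjection_apply_le _ _)) 2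

private theorem int_two (E : Submodule ℝ V) :
    Integrable (fun g => ‖E.starProjection g‖ ^ 2) (stdGaussian V) := by
  refine Integrable.mono' (integrable_norm_sq_gaussian (V := V)) (by fun_prop) ?_
  filter_upwards with g
  rw [norm_pow, norm_norm]
  exact pow_le_pow_left₀ (norm_nonneg _) (Submodule.norm_starProjection_apply_le _ _) 2

omit [MeasurableSpace V] [BorelSpace V] in
private theorem proj_idem (E : Submodule ℝ V) (x : V) :
    E.starProjection (E.starProjection x) = E.starProjection x :=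
  Submodule.starProjection_eq_self_iff.2 (Submodule.starProjection_apply_mem _ _)

theorem av_inner_mul (E : Submodule ℝ V) (hE : 1 ≤ Module.finrank ℝ E) (u w : V) :
    (Module.finrank ℝ E : ℝ) * av E (fun x => ⟪x, u⟫ * ⟪x, w⟫) = ⟪E.starProjection u, w⟫ := by
  have h1 := hom_av E hE (φ := fun x => ⟪x, u⟫ * ⟪x, w⟫) (by fun_prop) (m := 2) (by norm_num)
    (fun c x => by rw [real_inner_smul_left, real_inner_smul_left]; ring) (C := ‖u‖ * ‖w‖)
    (fun x hx => by
      rw [abs_mul]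
      have h2 : |⟪x, u⟫| ≤ 1 * ‖u‖ := (abs_real_inner_le_norm x u).trans
        (mul_le_mul_of_nonneg_right hx (norm_nonneg _))
      have h3 : |⟪x, w⟫| ≤ 1 * ‖w‖ := (abs_real_inner_le_norm x w).trans
        (mul_le_mul_of_nonneg_right hx (norm_nonneg _))
      rw [one_mul] at h2 h3
      exact mul_le_mul h2 h3 (abs_nonneg _) (norm_nonneg _)) (int_two E)
  rw [integral_norm_sq_proj] at h1
  rw [← h1]
  simp_rw [Submodule.inner_starProjection_left_eq_right E]
  rw [integral_inner_mul, ← Submodule.inner_starProjection_left_eq_right, proj_idem,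
    Submodule.inner_starProjection_left_eq_right]

theorem av_four (E : Submodule ℝ V) (hE : 1 ≤ Module.finrank ℝ E) (u : V) :
    (Module.finrank ℝ E : ℝ) * ((Module.finrank ℝ E : ℝ) + 2) * av E (fun x => ⟪x, u⟫ ^ 4) =
      3 * ‖E.starProjection u‖ ^ 4 := by
  have h1 := hom_av E hE (φ := fun x => ⟪x, u⟫ ^ 4) (by fun_prop) (m := 4) (by norm_num)
    (fun c x => by rw [real_inner_smul_left]; ring) (C := ‖u‖ ^ 4)
    (fun x hx => by
      rw [abs_pow]
      have h2 : |⟪x, u⟫| ≤ 1 * ‖u‖ := (abs_real_inner_le_norm x u).trans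
        (mul_le_mul_of_nonneg_right hx (norm_nonneg _))
      rw [one_mul] at h2
      exact pow_le_pow_left₀ (abs_nonneg _) h2 4) (int_norm_four E).1
  rw [(int_norm_four E).2] at h1
  rw [← h1]
  simp_rw [Submodule.inner_starProjection_left_eq_right E]
  exact (inner_four _).2

theorem av_proj (E W : Submodule ℝ V) (hE : 1 ≤ Module.finrank ℝ E) :
    (Module.finrank ℝ E : ℝ) * av E (fun x => ‖W.starProjection x‖ ^ 2) = tt E W := by
  have h1 := hom_av E hE (φ := fun x => ‖W.starProjection x‖ ^ 2) (by fun_prop) (m := 2) (by norm_num)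
    (fun c x => by rw [map_smul, norm_smul, mul_pow, Real.norm_eq_abs, sq_abs]) (C := 1)
    (fun x hx => by
      rw [abs_of_nonneg (by positivity)]
      exact pow_le_one₀ (norm_nonneg _) ((Submodule.norm_starProjection_apply_le _ _).trans hx)) (int_two E)
  rw [integral_norm_sq_proj] at h1
  exact h1.symm

theorem tt_nonneg (E W : Submodule ℝ V) : 0 ≤ tt E W :=
  integral_nonneg fun g => by positivity

private theorem av_proj_mul_eq (E W : Submodule ℝ V) (hE : 1 ≤ Module.finrank ℝ E) (w : V) :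
    (Module.finrank ℝ E : ℝ) * ((Module.finrank ℝ E : ℝ) + 2) *
      av E (fun x => ‖W.starProjection x‖ ^ 2 * ⟪x, w⟫ ^ 2) =
        tt E W * ‖E.starProjection w‖ ^ 2 + 2 * ‖W.starProjection (E.starProjection w)‖ ^ 2 := by
  have h1 := hom_av E hE (φ := fun x => ‖W.starProjection x‖ ^ 2 * ⟪x, w⟫ ^ 2) (by fun_prop) (m := 4)
    (by norm_num)
    (fun c x => by
      rw [map_smul, norm_smul, mul_pow, Real.norm_eq_abs, sq_abs, real_inner_smul_left]; ring)
    (C := ‖w‖ ^ 2)
    (fun x hx => by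
      rw [abs_of_nonneg (by positivity)]
      have h2 : ‖W.starProjection x‖ ^ 2 ≤ 1 :=
        pow_le_one₀ (norm_nonneg _) ((Submodule.norm_starProjection_apply_le _ _).trans hx)
      have h3 : |⟪x, w⟫| ≤ 1 * ‖w‖ := (abs_real_inner_le_norm x w).trans
        (mul_le_mul_of_nonneg_right hx (norm_nonneg _))
      rw [one_mul] at h3
      have h4 : ⟪x, w⟫ ^ 2 ≤ ‖w‖ ^ 2 := by
        rw [← sq_abs]
        exact pow_le_pow_left₀ (abs_nonneg _) h3 2
      calc ‖W.starProjection x‖ ^ 2 * ⟪x, w⟫ ^ 2 ≤ 1 * ‖w‖ ^ 2 :=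
            mul_le_mul h2 h4 (by positivity) (by norm_num)
        _ = ‖w‖ ^ 2 := one_mul _) (int_norm_four E).1
  rw [(int_norm_four E).2] at h1
  rw [← h1]
  have h5 : ∀ g : V, ‖W.starProjection (E.starProjection g)‖ ^ 2 * ⟪E.starProjection g, w⟫ ^ 2 =
      ∑ i, ⟪g, av' E W i⟫ ^ 2 * ⟪g, E.starProjection w⟫ ^ 2 := fun g => by
    rw [norm_proj_sum, Finset.sum_mul, Submodule.inner_starProjection_left_eq_right]
  simp_rw [h5]
  rw [integral_finsetSum _ fun i _ => (inner_two_two _ _).1]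
  simp_rw [(inner_two_two _ _).2]
  rw [Finset.sum_add_distrib, ← Finset.sum_mul, ← tt_eq, ← Finset.mul_sum]
  have h6 : ∑ i, ⟪av' E W i, E.starProjection w⟫ ^ 2 = ‖W.starProjection (E.starProjection w)‖ ^ 2 := by
    rw [← proj_idem E w, norm_proj_sum]
    exact Finset.sum_congr rfl fun i _ => by rw [real_inner_comm, proj_idem]
  rw [h6]

theorem av_proj_mul (E W : Submodule ℝ V) (hE : 1 ≤ Module.finrank ℝ E) (w : V) :
    (Module.finrank ℝ E : ℝ) * ((Module.finrank ℝ E : ℝ) + 2) *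
      av E (fun x => ‖W.starProjection x‖ ^ 2 * ⟪x, w⟫ ^ 2) ≤ (tt E W + 2) * ‖E.starProjection w‖ ^ 2 := by
  rw [av_proj_mul_eq E W hE w]
  have h1 : ‖W.starProjection (E.starProjection w)‖ ^ 2 ≤ ‖E.starProjection w‖ ^ 2 :=
    pow_le_pow_left₀ (norm_nonneg _) (Submodule.norm_starProjection_apply_le _ _) 2
  nlinarith [h1]

theorem tt_comm (E W : Submodule ℝ V) : tt E W = tt W E := by
  rw [tt_eq, tt_eq]
  have h1 : ∀ (E W : Submodule ℝ V) (i : Fin (Module.finrank ℝ V)), ‖av' E W i‖ ^ 2 =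
      ∑ l, ⟪stdOrthonormalBasis ℝ V i, av' W E l⟫ ^ 2 := fun E W i => norm_proj_sum W E _
  simp_rw [h1 E W]
  rw [Finset.sum_comm]
  refine Finset.sum_congr rfl fun l _ => ?_
  rw [← (stdOrthonormalBasis ℝ V).sum_sq_norm_inner_right]
  exact Finset.sum_congr rfl fun i _ => by rw [Real.norm_eq_abs, sq_abs]

theorem tt_le (E W : Submodule ℝ V) : tt E W ≤ Module.finrank ℝ E := by
  rw [← integral_norm_sq_proj E]
  refine integral_mono_of_nonneg (Filter.Eventually.of_forall fun g => by positivity) (int_two E)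
    (Filter.Eventually.of_forall fun g => ?_)
  exact pow_le_pow_left₀ (norm_nonneg _) (Submodule.norm_starProjection_apply_le _ _) 2

theorem tt_ge (E W : Submodule ℝ V) :
    (Module.finrank ℝ E : ℝ) + Module.finrank ℝ W - Module.finrank ℝ V ≤ tt E W :=
  integral_norm_sq_proj_proj E W

private theorem av_proj_four (E W : Submodule ℝ V) (hE : 1 ≤ Module.finrank ℝ E) :
    (Module.finrank ℝ E : ℝ) * ((Module.finrank ℝ E : ℝ) + 2) *
      av E (fun x => ‖W.starProjection x‖ ^ 4) ≤ tt E W ^ 2 + 2 * tt E W := by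
  have h1 := hom_av E hE (φ := fun x => ‖W.starProjection x‖ ^ 4) (by fun_prop) (m := 4)
    (by norm_num)
    (fun c x => by
      rw [map_smul, norm_smul, mul_pow, Real.norm_eq_abs, Even.pow_abs (by decide)])
    (C := 1)
    (fun x hx => by
      rw [abs_of_nonneg (by positivity)]
      exact pow_le_one₀ (norm_nonneg _) ((Submodule.norm_starProjection_apply_le _ _).trans hx))
    (int_norm_four E).1
  rw [(int_norm_four E).2] at h1
  rw [← h1]
  have h5 : ∀ g : V, ‖W.starProjection (E.starProjection g)‖ ^ 4 =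
      ∑ i, ∑ l, ⟪g, av' E W i⟫ ^ 2 * ⟪g, av' E W l⟫ ^ 2 := fun g => by
    rw [show (4 : ℕ) = 2 * 2 from rfl, pow_mul, norm_proj_sum, sq, Finset.sum_mul_sum]
  simp_rw [h5]
  rw [integral_finsetSum _ fun i _ => integrable_finsetSum _ fun l _ => (inner_two_two _ _).1]
  simp_rw [integral_finsetSum Finset.univ fun l _ => (inner_two_two (av' E W _) (av' E W l)).1,
    (inner_two_two _ _).2]
  have h6 : ∀ i, ∑ l, (‖av' E W i‖ ^ 2 * ‖av' E W l‖ ^ 2 + 2 * ⟪av' E W i, av' E W l⟫ ^ 2) ≤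
      ‖av' E W i‖ ^ 2 * tt E W + 2 * ‖av' E W i‖ ^ 2 := fun i => by
    rw [Finset.sum_add_distrib, ← Finset.mul_sum, ← tt_eq, ← Finset.mul_sum, ← norm_proj_sum]
    have := pp_le E W (av' E W i)
    linarith
  refine (Finset.sum_le_sum fun i _ => h6 i).trans (le_of_eq ?_)
  rw [Finset.sum_add_distrib, ← Finset.sum_mul, ← Finset.mul_sum, ← tt_eq]
  ring

private theorem int_av (E : Submodule ℝ V) {φ : V → ℝ} (hφ : Measurable φ) {C : ℝ}
    (hC : ∀ x, ‖x‖ ≤ 1 → |φ x| ≤ C) :
    Integrable (fun g => φ (nrm (E.starProjection g))) (stdGaussian V) := by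
  refine Integrable.mono' (integrable_const C) ?_ (Filter.Eventually.of_forall fun g => ?_)
  · exact ((hφ.comp measurable_nrm').comp (by fun_prop)).aestronglyMeasurable
  · exact hC _ (nnl _)

theorem av_var (E W : Submodule ℝ V) (hE : 1 ≤ Module.finrank ℝ E) :
    av E (fun x => (‖W.starProjection x‖ ^ 2 - tt E W / Module.finrank ℝ E) ^ 2) ≤
      2 / ((Module.finrank ℝ E : ℝ) + 2) := by
  set k : ℝ := (Module.finrank ℝ E : ℝ) with hk
  have hk1 : (1 : ℝ) ≤ k := by rw [hk]; exact_mod_cast hE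
  have hk0 : 0 < k := by linarith
  set t := tt E W with ht
  have ht0 : 0 ≤ t := tt_nonneg E W
  have htk : t ≤ k := tt_le E W
  have h2 := av_proj E W hE
  have h4 := av_proj_four E W hE
  rw [← hk, ← ht] at h2 h4
  have i4 := int_av E (φ := fun x => ‖W.starProjection x‖ ^ 4) (by fun_prop) (C := 1) (fun x hx => by
      rw [abs_of_nonneg (by positivity)]
      exact pow_le_one₀ (norm_nonneg _) ((Submodule.norm_starProjection_apply_le _ _).trans hx))
  have i2 := int_av E (φ := fun x => ‖W.starProjection x‖ ^ 2) (by fun_prop) (C := 1) (fun x hx => by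
      rw [abs_of_nonneg (by positivity)]
      exact pow_le_one₀ (norm_nonneg _) ((Submodule.norm_starProjection_apply_le _ _).trans hx))
  have h5 : av E (fun x => (‖W.starProjection x‖ ^ 2 - t / k) ^ 2) =
      av E (fun x => ‖W.starProjection x‖ ^ 4) - 2 * (t / k) * av E (fun x => ‖W.starProjection x‖ ^ 2) +
        (t / k) ^ 2 := by
    unfold av
    have h6 : ∀ g : V, (‖W.starProjection (nrm (E.starProjection g))‖ ^ 2 - t / k) ^ 2 =
        (‖W.starProjection (nrm (E.starProjection g))‖ ^ 4 -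
          2 * (t / k) * ‖W.starProjection (nrm (E.starProjection g))‖ ^ 2) + (t / k) ^ 2 := fun g => by ring
    have i5 : Integrable (fun g => ‖W.starProjection (nrm (E.starProjection g))‖ ^ 4 -
        2 * (t / k) * ‖W.starProjection (nrm (E.starProjection g))‖ ^ 2) (stdGaussian V) :=
      i4.sub (i2.const_mul _)
    simp_rw [h6]
    rw [integral_add i5 (integrable_const _), integral_sub i4 (i2.const_mul _),
      integral_const_mul, integral_const, probReal_univ, one_smul]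
  rw [h5]
  set a4 := av E (fun x => ‖W.starProjection x‖ ^ 4)
  set a2 := av E (fun x => ‖W.starProjection x‖ ^ 2)
  have h7 : a2 = t / k := by
    rw [eq_div_iff hk0.ne', mul_comm]
    exact h2
  rw [h7]
  have h8 : a4 ≤ (t ^ 2 + 2 * t) / (k * (k + 2)) := by
    rw [le_div_iff₀ (by positivity), mul_comm]
    exact h4
  have h9 : (t ^ 2 + 2 * t) / (k * (k + 2)) - 2 * (t / k) * (t / k) + (t / k) ^ 2 ≤ 2 / (k + 2) := by
    have h10 : (t ^ 2 + 2 * t) / (k * (k + 2)) - 2 * (t / k) * (t / k) + (t / k) ^ 2 =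
        (t ^ 2 * k + 2 * t * k - t ^ 2 * (k + 2)) / (k ^ 2 * (k + 2)) := by
      field_simp
      ring
    rw [h10, div_le_div_iff₀ (by positivity) (by positivity)]
    have h11 : t ^ 2 * k + 2 * t * k - t ^ 2 * (k + 2) ≤ 2 * k ^ 2 := by nlinarith
    nlinarith [h11, hk0]
  linarith

/-- `tr (P_E P_W)` as a sum over an orthonormal basis. -/
theorem tt_sum (E W : Submodule ℝ V) {ι : Type*} [Fintype ι] (b : OrthonormalBasis ι ℝ E) :
    tt E W = ∑ i, ‖W.starProjection (b i : V)‖ ^ 2 := by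
  rw [tt_comm]
  unfold tt
  have h1 : ∀ g : V, ‖E.starProjection (W.starProjection g)‖ ^ 2 =
      ∑ i, ⟪g, W.starProjection (b i : V)⟫ ^ 2 := fun g => by
    have h2 : ‖E.starProjection (W.starProjection g)‖ =
        ‖E.orthogonalProjectionOnto (W.starProjection g)‖ := by
      rw [Submodule.starProjection_apply]
      rfl
    rw [h2, ← b.sum_sq_norm_inner_left]
    refine Finset.sum_congr rfl fun i _ => ?_
    rw [Real.norm_eq_abs, sq_abs]
    congr 1
    rw [Submodule.coe_inner, ← Submodule.starProjection_apply,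
      Submodule.inner_starProjection_left_eq_right, Submodule.starProjection_eq_self_iff.2 (b i).2,
      Submodule.inner_starProjection_left_eq_right]
  simp_rw [h1]
  rw [integral_finsetSum _ fun i _ => (inner_sq_int _).1]
  exact Finset.sum_congr rfl fun i _ => (inner_sq_int _).2

end Pool.Agent.PBL
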