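import Pool.Agent.PBL.C0

/-! Module PBL-C2: tails of `‖P_W x‖²` for `x` uniform on the unit sphere of `E`, by the exponential moments of Gaussian
quadratic forms (diagonalised in an orthonormal basis of eigenvectors) and Markov's inequality. -/

set_option autoImplicit false

namespace Pool.Agent.PBL
open MeasureTheory ProbabilityTheory Set Filter Topology Metric
open Pool.Agent.HP89 Pool.Agent.FI75
open scoped RealInnerProductSpace ENNReal

variable {V : Type*} [NormedAddCommGroup V] [InnerProductSpace ℝ V] [FiniteDimensional ℝ V]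
  [MeasurableSpace V] [BorelSpace V]

private theorem one_le_mul_exp {y : ℝ} (h1 : -(1 / 2) ≤ y) (h2 : y ≤ 1 / 2) :
    1 ≤ (1 - y) * Real.exp (y + y ^ 2) := by
  have h3 : 0 < 1 - y := by linarith
  rcases le_total 0 y with h | h
  · have h4 := Real.quadratic_le_exp_of_nonneg (x := y + y ^ 2) (by positivity)
    have h5 : 1 ≤ (1 - y) * (1 + (y + y ^ 2) + (y + y ^ 2) ^ 2 / 2) := by
      have h6 : (1 - y) * (1 + (y + y ^ 2) + (y + y ^ 2) ^ 2 / 2) - 1 =
          y ^ 2 * (1 - y - y ^ 2 - y ^ 3) / 2 := by ring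
      have h7 : 0 ≤ 1 - y - y ^ 2 - y ^ 3 := by nlinarith [mul_nonneg h h, mul_nonneg (mul_nonneg h h) h]
      have h8 : 0 ≤ y ^ 2 * (1 - y - y ^ 2 - y ^ 3) / 2 := by positivity
      linarith
    exact h5.trans (mul_le_mul_of_nonneg_left h4 h3.le)
  · have h4 := Real.add_one_le_exp (y + y ^ 2)
    have h5 : 1 ≤ (1 - y) * (y + y ^ 2 + 1) := by
      have h6 : (1 - y) * (y + y ^ 2 + 1) - 1 = (-y) ^ 3 := by ring
      have h7 : 0 ≤ (-y) ^ 3 := pow_nonneg (by linarith) 3
      linarith
    exact h5.trans (mul_le_mul_of_nonneg_left h4 h3.le)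

private theorem inv_sqrt_le {y : ℝ} (h1 : -(1 / 2) ≤ y) (h2 : y ≤ 1 / 2) :
    (√(1 - y))⁻¹ ≤ Real.exp ((y + y ^ 2) / 2) := by
  have h3 : 0 < 1 - y := by linarith
  have h4 : 0 < √(1 - y) := Real.sqrt_pos.2 h3
  have h5 : 1 ≤ √(1 - y) * Real.exp ((y + y ^ 2) / 2) := by
    rw [← one_le_sq_iff₀ (by positivity), mul_pow, Real.sq_sqrt h3.le, ← Real.exp_nat_mul]
    have := one_le_mul_exp h1 h2
    refine this.trans (le_of_eq ?_)
    congr 2
    push_cast
    ring
  rw [inv_le_iff_one_le_mul₀ h4, mul_comm]
  exact h5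

private theorem int_exp_sq {a : ℝ} (ha : a < 1 / 2) :
    Integrable (fun x : ℝ => Real.exp (a * x ^ 2)) (gaussianReal 0 1) ∧
      ∫ x, Real.exp (a * x ^ 2) ∂(gaussianReal 0 1) = (√(1 - 2 * a))⁻¹ := by
  have hb : 0 < 1 / 2 - a := by linarith
  have h1 : ∀ x : ℝ, gaussianPDFReal 0 1 x * Real.exp (a * x ^ 2) =
      (√(2 * Real.pi))⁻¹ * Real.exp (-(1 / 2 - a) * x ^ 2) := by
    intro x
    rw [gaussianPDFReal]
    rw [mul_assoc, ← Real.exp_add]
    congr 2
    · simp
    · simp
      ring
  constructor
  · rw [gaussianReal_of_var_ne_zero 0 one_ne_zero]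
    rw [integrable_withDensity_iff_integrable_smul' (measurable_gaussianPDF 0 1)
      (ae_of_all _ fun x => gaussianPDF_lt_top)]
    have h2 : (fun x : ℝ => (gaussianPDF 0 1 x).toReal • Real.exp (a * x ^ 2)) =
        fun x => (√(2 * Real.pi))⁻¹ * Real.exp (-(1 / 2 - a) * x ^ 2) := by
      funext x
      rw [toReal_gaussianPDF, smul_eq_mul, h1]
    rw [h2]
    exact (integrable_exp_neg_mul_sq hb).const_mul _
  · rw [integral_gaussianReal_eq_integral_smul one_ne_zero]
    simp_rw [smul_eq_mul, h1]
    rw [integral_const_mul, integral_gaussian]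
    rw [← Real.sqrt_inv, ← Real.sqrt_inv, ← Real.sqrt_mul (by positivity)]
    congr 1
    have : Real.pi ≠ 0 := Real.pi_ne_zero
    have h3 : (1 / 2 - a) ≠ 0 := hb.ne'
    have h4 : (1 - 2 * a) ≠ 0 := by
      intro h; apply h3; linarith
    field_simp

private theorem int_nsq : Integrable (fun g : V => ‖g‖ ^ 2) (stdGaussian V) := integrable_norm_sq_gaussian

private theorem int_nsq_comp (L : V →L[ℝ] V) : Integrable (fun g => ‖L g‖ ^ 2) (stdGaussian V) := by
  refine Integrable.mono' (int_nsq.const_mul (‖L‖ ^ 2)) (by fun_prop) ?_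
  filter_upwards with g
  rw [Real.norm_of_nonneg (by positivity), ← mul_pow]
  exact pow_le_pow_left₀ (norm_nonneg _) (L.le_opNorm g) 2

private theorem int_isq (y : V) : Integrable (fun g => ⟪y, g⟫ ^ 2) (stdGaussian V) := by
  refine Integrable.mono' (int_nsq.const_mul (‖y‖ ^ 2)) (by fun_prop) ?_
  filter_upwards with g
  rw [Real.norm_of_nonneg (by positivity), ← mul_pow, ← sq_abs]
  exact pow_le_pow_left₀ (abs_nonneg _) (abs_real_inner_le_norm y g) 2

private theorem sum_proj_sq {ι : Type*} [Fintype ι] (b : OrthonormalBasis ι ℝ V) (E : Submodule ℝ V) :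
    ∑ i, ‖E.starProjection (b i)‖ ^ 2 = Module.finrank ℝ E := by
  rw [← integral_norm_sq_proj E]
  have h : ∀ g : V, ‖E.starProjection g‖ ^ 2 = ∑ i, ⟪E.starProjection (b i), g⟫ ^ 2 := by
    intro g
    rw [← b.sum_sq_inner_right (E.starProjection g)]
    refine Finset.sum_congr rfl fun i _ => ?_
    rw [Submodule.inner_starProjection_left_eq_right]
  have h' : ∫ g, ‖E.starProjection g‖ ^ 2 ∂(stdGaussian V) =
      ∫ g, ∑ i, ⟪E.starProjection (b i), g⟫ ^ 2 ∂(stdGaussian V) :=
    integral_congr_ae (ae_of_all _ h)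
  rw [h', integral_finsetSum _ (fun i _ => int_isq _)]
  refine Finset.sum_congr rfl fun i _ => ?_
  rw [integral_inner_sq]

private theorem quad_exp {A : V →ₗ[ℝ] V} (hA : A.IsSymmetric) (E : Submodule ℝ V)
    (h2 : ∀ x, ‖A x‖ ≤ 2 * ‖E.starProjection x‖) {l : ℝ} (hl : 0 ≤ l) (hl' : l ≤ 1 / 16) :
    Integrable (fun g => Real.exp (l * ⟪g, A g⟫)) (stdGaussian V) ∧
      ∫ g, Real.exp (l * ⟪g, A g⟫) ∂(stdGaussian V) ≤
        Real.exp (l * (∫ g, ⟪g, A g⟫ ∂(stdGaussian V)) + 8 * l ^ 2 * Module.finrank ℝ E) := by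
  obtain ⟨n, hn⟩ : ∃ n, Module.finrank ℝ V = n := ⟨_, rfl⟩
  set b := hA.eigenvectorBasis hn with hbdef
  set s := hA.eigenvalues hn with hsdef
  have hb : ∀ i, A (b i) = s i • b i := fun i => hA.apply_eigenvectorBasis hn i
  have hb1 : ∀ i, ‖b i‖ = 1 := fun i => b.orthonormal.1 i
  have hs2 : ∀ i, s i ^ 2 ≤ 4 * ‖E.starProjection (b i)‖ ^ 2 := by
    intro i
    have h := h2 (b i)
    rw [hb, norm_smul, hb1, mul_one, Real.norm_eq_abs] at h
    rw [← sq_abs]
    calc |s i| ^ 2 ≤ (2 * ‖E.starProjection (b i)‖) ^ 2 := pow_le_pow_left₀ (abs_nonneg _) h 2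
      _ = _ := by ring
  have hsabs : ∀ i, |s i| ≤ 2 := by
    intro i
    have h := h2 (b i)
    rw [hb, norm_smul, hb1, mul_one, Real.norm_eq_abs] at h
    have h' : ‖E.starProjection (b i)‖ ≤ 1 := by
      rw [← hb1 i]; exact E.norm_starProjection_apply_le (b i)
    linarith
  have hq : ∀ g : V, ⟪g, A g⟫ = ∑ i, s i * ⟪b i, g⟫ ^ 2 := by
    intro g
    rw [← b.sum_inner_mul_inner g (A g)]
    refine Finset.sum_congr rfl fun i _ => ?_
    rw [← hA (b i) g, hb, real_inner_smul_left, real_inner_comm]
    ring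
  have hsum : ∫ g, ⟪g, A g⟫ ∂(stdGaussian V) = ∑ i, s i := by
    simp_rw [hq]
    rw [integral_finsetSum _ (fun i _ => (int_isq _).const_mul _)]
    refine Finset.sum_congr rfl fun i _ => ?_
    rw [integral_const_mul, integral_inner_sq, hb1]
    ring
  have hsum2 : ∑ i, s i ^ 2 ≤ 4 * Module.finrank ℝ E := by
    rw [← sum_proj_sq b E, Finset.mul_sum]
    exact Finset.sum_le_sum fun i _ => hs2 i
  have hsub : ∀ i, l * s i < 1 / 2 := by
    intro i
    have h := abs_le.1 (hsabs i)
    nlinarith [h.1, h.2]
  have hco : ∀ x : Fin n → ℝ, Real.exp (l * ⟪∑ i, x i • b i, A (∑ i, x i • b i)⟫) =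
      ∏ i, Real.exp (l * s i * x i ^ 2) := by
    intro x
    rw [hq, ← Real.exp_sum, Finset.mul_sum]
    congr 1
    refine Finset.sum_congr rfl fun i _ => ?_
    have : ⟪b i, ∑ j, x j • b j⟫ = x i := by
      rw [inner_sum]
      simp_rw [real_inner_smul_right]
      rw [Finset.sum_eq_single i]
      · rw [real_inner_self_eq_norm_sq, hb1]; ring
      · intro j _ hj
        rw [b.orthonormal.2 (Ne.symm hj), mul_zero]
      · intro h; exact absurd (Finset.mem_univ i) h
    rw [this]
    ring
  have hmap := stdGaussian_eq_map_pi_orthonormalBasis b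
  have hm : Measurable (fun x : Fin n → ℝ => ∑ i, x i • b i) := by fun_prop
  have hcont : Continuous (fun g : V => Real.exp (l * ⟪g, A g⟫)) := by
    have : Continuous (A : V → V) := A.continuous_of_finiteDimensional
    fun_prop
  have hint : Integrable (fun x : Fin n → ℝ => ∏ i, Real.exp (l * s i * x i ^ 2))
      (Measure.pi fun _ : Fin n => gaussianReal 0 1) :=
    Integrable.fintype_prod (f := fun i (y : ℝ) => Real.exp (l * s i * y ^ 2)) fun i =>
      (int_exp_sq (hsub i)).1
  constructor
  · rw [hmap, integrable_map_measure hcont.aestronglyMeasurable hm.aemeasurable]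
    refine hint.congr (ae_of_all _ fun x => ?_)
    exact (hco x).symm
  · rw [hsum, hmap, integral_map hm.aemeasurable hcont.aestronglyMeasurable]
    simp_rw [hco]
    rw [integral_fintype_prod_eq_prod (f := fun i (y : ℝ) => Real.exp (l * s i * y ^ 2))]
    calc ∏ i, ∫ x, Real.exp (l * s i * x ^ 2) ∂(gaussianReal 0 1)
        ≤ ∏ i, Real.exp (l * s i + 2 * l ^ 2 * s i ^ 2) := by
          refine Finset.prod_le_prod (fun i _ => integral_nonneg fun x => (Real.exp_pos _).le) ?_
          intro i _
          rw [(int_exp_sq (hsub i)).2]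
          have h := abs_le.1 (hsabs i)
          have h3 := inv_sqrt_le (y := 2 * (l * s i)) (by nlinarith [h.1, h.2])
            (by nlinarith [h.1, h.2])
          refine h3.trans (le_of_eq ?_)
          congr 1
          ring
      _ = Real.exp (l * ∑ i, s i + 2 * l ^ 2 * ∑ i, s i ^ 2) := by
          rw [← Real.exp_sum, Finset.sum_add_distrib, Finset.mul_sum, Finset.mul_sum]
      _ ≤ _ := by
          apply Real.exp_le_exp.2
          have : 2 * l ^ 2 * ∑ i, s i ^ 2 ≤ 2 * l ^ 2 * (4 * Module.finrank ℝ E) :=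
            mul_le_mul_of_nonneg_left hsum2 (by positivity)
          linarith

private theorem one_side (E W : Submodule ℝ V) {c σ : ℝ} (hc1 : |σ * (1 - c)| ≤ 2)
    (hc2 : |σ * (0 - c)| ≤ 2) {l : ℝ} (hl : 0 ≤ l) (hl' : l ≤ 1 / 16) :
    Integrable (fun g => Real.exp (l * (σ * (‖W.starProjection (E.starProjection g)‖ ^ 2 -
        c * ‖E.starProjection g‖ ^ 2)))) (stdGaussian V) ∧
      ∫ g, Real.exp (l * (σ * (‖W.starProjection (E.starProjection g)‖ ^ 2 -
        c * ‖E.starProjection g‖ ^ 2))) ∂(stdGaussian V) ≤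
        Real.exp (l * (σ * (tt E W - c * Module.finrank ℝ E)) + 8 * l ^ 2 * Module.finrank ℝ E) := by
  let A : V →L[ℝ] V := σ • (E.starProjection.comp (W.starProjection.comp E.starProjection) -
    c • E.starProjection)
  have hAapp : ∀ g, A g = σ • (E.starProjection (W.starProjection (E.starProjection g)) -
      c • E.starProjection g) := fun g => rfl
  have hself : ∀ (F : Submodule ℝ V) (x : V), F.starProjection (F.starProjection x) =
      F.starProjection x := fun F x =>
    Submodule.starProjection_eq_self_iff.2 (Submodule.starProjection_apply_mem F x)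
  have hi : ∀ (F : Submodule ℝ V) (x y : V), ⟪F.starProjection x, y⟫ = ⟪x, F.starProjection y⟫ :=
    fun F x y => Submodule.inner_starProjection_left_eq_right F x y
  have hAs : (A : V →ₗ[ℝ] V).IsSymmetric := by
    intro x y
    change ⟪A x, y⟫ = ⟪x, A y⟫
    rw [hAapp, hAapp, real_inner_smul_left, real_inner_smul_right, inner_sub_left, inner_sub_right,
      real_inner_smul_left, real_inner_smul_right, hi, hi, hi, hi]
  have hform : ∀ g, ⟪g, A g⟫ = σ * (‖W.starProjection (E.starProjection g)‖ ^ 2 -
        c * ‖E.starProjection g‖ ^ 2) := by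
    intro g
    rw [hAapp, real_inner_smul_right, inner_sub_right, real_inner_smul_right]
    congr 2
    · rw [← hi, ← real_inner_self_eq_norm_sq, hi W, hself]
    · rw [← real_inner_self_eq_norm_sq, hi E, hself]
  have hA2 : ∀ x, ‖A x‖ ≤ 2 * ‖E.starProjection x‖ := by
    intro x
    set y := E.starProjection x with hy
    have h1 : A x = E.starProjection (σ • (W.starProjection y - c • y)) := by
      rw [hAapp, map_smul, map_sub, map_smul, hy, hself]
    rw [h1]
    refine (E.norm_starProjection_apply_le _).trans ?_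
    have h2 : ‖σ • (W.starProjection y - c • y)‖ ^ 2 ≤ (2 * ‖y‖) ^ 2 := by
      have h3 : y = W.starProjection y + (y - W.starProjection y) := by abel
      have hor : ⟪W.starProjection y, y - W.starProjection y⟫ = 0 := by
        rw [inner_sub_right, hi W y y, hi W y (W.starProjection y), hself, sub_self]
      have h4 : ‖y‖ ^ 2 = ‖W.starProjection y‖ ^ 2 + ‖y - W.starProjection y‖ ^ 2 := by
        conv_lhs => rw [h3]
        rw [norm_add_sq_real, hor]
        ring
      have h5 : σ • (W.starProjection y - c • y) =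
          (σ * (1 - c)) • W.starProjection y + (σ * (0 - c)) • (y - W.starProjection y) := by
        module
      rw [h5, norm_add_sq_real, real_inner_smul_left, real_inner_smul_right, hor, norm_smul,
        norm_smul, Real.norm_eq_abs, Real.norm_eq_abs]
      have h6 : |σ * (1 - c)| ^ 2 ≤ 4 := by nlinarith [abs_nonneg (σ * (1 - c))]
      have h7 : |σ * (0 - c)| ^ 2 ≤ 4 := by nlinarith [abs_nonneg (σ * (0 - c))]
      have h8 : |σ * (1 - c)| ^ 2 * ‖W.starProjection y‖ ^ 2 ≤ 4 * ‖W.starProjection y‖ ^ 2 :=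
        mul_le_mul_of_nonneg_right h6 (by positivity)
      have h9 : |σ * (0 - c)| ^ 2 * ‖y - W.starProjection y‖ ^ 2 ≤ 4 * ‖y - W.starProjection y‖ ^ 2 :=
        mul_le_mul_of_nonneg_right h7 (by positivity)
      nlinarith
    exact abs_le_of_sq_le_sq' h2 (by positivity) |>.2
  have h := quad_exp hAs E hA2 hl hl'
  have hA' : ∀ g : V, ⟪g, (A : V →ₗ[ℝ] V) g⟫ = σ * (‖W.starProjection (E.starProjection g)‖ ^ 2 -
        c * ‖E.starProjection g‖ ^ 2) := hform
  simp_rw [hA'] at h
  have hI : ∫ g, σ * (‖W.starProjection (E.starProjection g)‖ ^ 2 -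
        c * ‖E.starProjection g‖ ^ 2) ∂(stdGaussian V) = σ * (tt E W - c * Module.finrank ℝ E) := by
    have i1 : Integrable (fun g => ‖W.starProjection (E.starProjection g)‖ ^ 2) (stdGaussian V) :=
      int_nsq_comp (W.starProjection.comp E.starProjection)
    have i2 : Integrable (fun g => c * ‖E.starProjection g‖ ^ 2) (stdGaussian V) :=
      (int_nsq_comp E.starProjection).const_mul c
    rw [integral_const_mul, integral_sub i1 i2, integral_const_mul, integral_norm_sq_proj]
    rfl
  rw [hI] at h
  exact h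

theorem av_tail (E W : Submodule ℝ V) (hE : 1 ≤ Module.finrank ℝ E) {t : ℝ} (ht : 0 ≤ t) :
    av E ({x | t ≤ |‖W.starProjection x‖ ^ 2 - tt E W / Module.finrank ℝ E|}.indicator (fun _ => 1)) ≤
      2 * Real.exp (-(Module.finrank ℝ E : ℝ) * t ^ 2 / 32) := by
  have hk : (0 : ℝ) < Module.finrank ℝ E := by exact_mod_cast hE
  set k : ℝ := (Module.finrank ℝ E : ℝ) with hkdef
  set q : ℝ := tt E W / k with hqdef
  have htt0 : 0 ≤ tt E W := integral_nonneg fun g => by positivity
  have httk : tt E W ≤ k := by
    rw [hkdef, ← integral_norm_sq_proj E]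
    refine integral_mono (int_nsq_comp (W.starProjection.comp E.starProjection))
      (int_nsq_comp E.starProjection) fun g => ?_
    exact pow_le_pow_left₀ (norm_nonneg _) (W.norm_starProjection_apply_le _) 2
  have hq0 : 0 ≤ q := div_nonneg htt0 hk.le
  have hq1 : q ≤ 1 := (div_le_one hk).2 httk
  have hqk : tt E W = q * k := by rw [hqdef]; field_simp
  have hP : ∀ g : V, 0 ≤ ‖W.starProjection (nrm (E.starProjection g))‖ ^ 2 ∧
      ‖W.starProjection (nrm (E.starProjection g))‖ ^ 2 ≤ 1 := by
    intro g
    refine ⟨by positivity, ?_⟩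
    have h1 := (W.norm_starProjection_apply_le (nrm (E.starProjection g))).trans (norm_nrm_le _)
    calc _ ≤ (1 : ℝ) ^ 2 := pow_le_pow_left₀ (norm_nonneg _) h1 2
      _ = 1 := one_pow 2
  unfold av
  rcases lt_or_ge 1 t with h1 | h1
  · have h0 : ∀ g : V, ({x | t ≤ |‖W.starProjection x‖ ^ 2 - q|}.indicator (fun _ => (1 : ℝ)))
        (nrm (E.starProjection g)) = 0 := by
      intro g
      refine Set.indicator_of_notMem ?_ _
      intro hcon
      have hcon' : t ≤ |‖W.starProjection (nrm (E.starProjection g))‖ ^ 2 - q| := hcon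
      have h2 : |‖W.starProjection (nrm (E.starProjection g))‖ ^ 2 - q| ≤ 1 := by
        rw [abs_le]
        have := hP g
        constructor <;> linarith [this.1, this.2]
      linarith
    simp_rw [h0]
    simp only [integral_zero]
    positivity
  · have hl : 0 ≤ t / 16 := by positivity
    have hl' : t / 16 ≤ 1 / 16 := by linarith
    have hu := one_side E W (c := q + t) (σ := 1)
      (by rw [one_mul, abs_le]; constructor <;> linarith)
      (by rw [one_mul, abs_le]; constructor <;> linarith) hl hl'
    have hd := one_side E W (c := q - t) (σ := -1)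
      (by rw [abs_le]; constructor <;> linarith)
      (by rw [abs_le]; constructor <;> linarith) hl hl'
    have hnr : ∀ g : V, ‖W.starProjection (E.starProjection g)‖ ^ 2 =
        ‖E.starProjection g‖ ^ 2 * ‖W.starProjection (nrm (E.starProjection g))‖ ^ 2 := by
      intro g
      by_cases h0 : E.starProjection g = 0
      · rw [h0]; simp
      · have h2 : ‖E.starProjection g‖ ≠ 0 := norm_ne_zero_iff.2 h0
        unfold nrm
        rw [map_smul, norm_smul, norm_inv, norm_norm]
        field_simp
    calc ∫ g, ({x | t ≤ |‖W.starProjection x‖ ^ 2 - q|}.indicator (fun _ => (1 : ℝ)))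
          (nrm (E.starProjection g)) ∂(stdGaussian V)
        ≤ ∫ g, (Real.exp (t / 16 * (1 * (‖W.starProjection (E.starProjection g)‖ ^ 2 -
              (q + t) * ‖E.starProjection g‖ ^ 2))) +
            Real.exp (t / 16 * (-1 * (‖W.starProjection (E.starProjection g)‖ ^ 2 -
              (q - t) * ‖E.starProjection g‖ ^ 2)))) ∂(stdGaussian V) := by
          refine integral_mono_of_nonneg (ae_of_all _ fun g => ?_) (hu.1.add hd.1)
            (ae_of_all _ fun g => ?_)
          · exact Set.indicator_nonneg (fun _ _ => zero_le_one) _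
          · by_cases hg : nrm (E.starProjection g) ∈ {x | t ≤ |‖W.starProjection x‖ ^ 2 - q|}
            · simp only
              rw [Set.indicator_of_mem hg]
              have hg' : t ≤ |‖W.starProjection (nrm (E.starProjection g))‖ ^ 2 - q| := hg
              rw [hnr]
              have hE2 : 0 ≤ ‖E.starProjection g‖ ^ 2 := by positivity
              set z := ‖W.starProjection (nrm (E.starProjection g))‖ ^ 2 with hz
              rcases le_abs.1 hg' with h3 | h3
              · have h4 : 0 ≤ t / 16 * (1 * (‖E.starProjection g‖ ^ 2 * z -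
                    (q + t) * ‖E.starProjection g‖ ^ 2)) := by
                  have : ‖E.starProjection g‖ ^ 2 * z - (q + t) * ‖E.starProjection g‖ ^ 2 =
                    ‖E.starProjection g‖ ^ 2 * (z - (q + t)) := by ring
                  rw [this, one_mul]
                  exact mul_nonneg hl (mul_nonneg hE2 (by linarith))
                have h5 := Real.one_le_exp h4
                have h6 := (Real.exp_pos (t / 16 * (-1 * (‖E.starProjection g‖ ^ 2 * z -
                    (q - t) * ‖E.starProjection g‖ ^ 2)))).le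
                linarith
              · have h4 : 0 ≤ t / 16 * (-1 * (‖E.starProjection g‖ ^ 2 * z -
                    (q - t) * ‖E.starProjection g‖ ^ 2)) := by
                  have : -1 * (‖E.starProjection g‖ ^ 2 * z - (q - t) * ‖E.starProjection g‖ ^ 2) =
                    ‖E.starProjection g‖ ^ 2 * ((q - t) - z) := by ring
                  rw [this]
                  exact mul_nonneg hl (mul_nonneg hE2 (by linarith))
                have h5 := Real.one_le_exp h4
                have h6 := (Real.exp_pos (t / 16 * (1 * (‖E.starProjection g‖ ^ 2 * z -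
                    (q + t) * ‖E.starProjection g‖ ^ 2)))).le
                linarith
            · simp only
              rw [Set.indicator_of_notMem hg]
              positivity
      _ ≤ Real.exp (-k * t ^ 2 / 32) + Real.exp (-k * t ^ 2 / 32) := by
          rw [integral_add hu.1 hd.1]
          refine add_le_add (hu.2.trans (le_of_eq ?_)) (hd.2.trans (le_of_eq ?_))
          · congr 1
            rw [hqk]
            ring
          · congr 1
            rw [hqk]
            ring
      _ = _ := by ring

end Pool.Agent.PBL
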