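import Pool.Agent.FI75.G2
import Pool.Agent.PBL.C1

/-! Module PBL-C4a (the symmetric change of variables without the dimension condition). The proofs of FI75.G1 and FI75.G2 are
repeated with the hypothesis `1 < tt E F`: for `G = (ker P_F P_E)^⊥` one has `tt E F ≤ tt E G ≤ finrank G`, hence `finrank G ≥ 2`,
and `‖P_G ξ‖ ≤ K ‖P_F P_E ξ‖` because `P_F P_E` is injective on `G`. -/

set_option autoImplicit false

namespace Pool.Agent.PBL
open MeasureTheory ProbabilityTheory Set Filter Topology Metric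
open Pool.Agent.HP89 Pool.Agent.FI75
open scoped RealInnerProductSpace ENNReal

variable {V : Type*} [NormedAddCommGroup V] [InnerProductSpace ℝ V] [FiniteDimensional ℝ V]
  [MeasurableSpace V] [BorelSpace V]

private theorem ae_proj_ne_zero (W : Submodule ℝ V) (hW : 1 ≤ Module.finrank ℝ W) :
    ∀ᵐ ξ ∂(stdGaussian V), W.starProjection ξ ≠ 0 := by
  have hne : Wᗮ ≠ ⊤ := by
    intro h
    have : W = ⊥ := by
      rw [← Submodule.orthogonal_orthogonal W, h, Submodule.top_orthogonal_eq_bot]
    rw [this, finrank_bot] at hW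
    omega
  have h0 : (volume : Measure V) (Wᗮ : Submodule ℝ V) = 0 := Measure.addHaar_submodule volume Wᗮ hne
  have hac : (stdGaussian V) ≪ (volume : Measure V) := by
    rw [stdGaussian_density]
    exact withDensity_absolutelyContinuous _ _
  have h1 : (stdGaussian V) (Wᗮ : Submodule ℝ V) = 0 := hac h0
  rw [ae_iff]
  refine measure_mono_null ?_ h1
  intro ξ hξ
  simp only [ne_eq, not_not, Set.mem_ofPred_eq] at hξ
  exact (Submodule.starProjection_apply_eq_zero_iff (K := W)).1 hξ

private theorem exists_low (E F : Submodule ℝ V) (h : 1 < tt E F) :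
    ∃ (G : Submodule ℝ V) (K : ℝ), 2 ≤ Module.finrank ℝ G ∧ 0 < K ∧
      ∀ ξ : V, ‖G.starProjection ξ‖ ≤ K * ‖F.starProjection (E.starProjection ξ)‖ := by
  obtain ⟨A, hA⟩ : ∃ A : V →ₗ[ℝ] V, ∀ x, A x = F.starProjection (E.starProjection x) :=
    ⟨((F.starProjection : V →L[ℝ] V).comp (E.starProjection : V →L[ℝ] V) : V →L[ℝ] V), fun _ => rfl⟩
  have hAG : ∀ x, A ((LinearMap.ker A)ᗮ.starProjection x) = A x := by
    intro x
    have h1 : x - (LinearMap.ker A)ᗮ.starProjection x ∈ LinearMap.ker A := by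
      have h2 := Submodule.sub_starProjection_mem_orthogonal (K := (LinearMap.ker A)ᗮ) x
      rwa [Submodule.orthogonal_orthogonal] at h2
    have h3 : A (x - (LinearMap.ker A)ᗮ.starProjection x) = 0 := h1
    rw [map_sub, sub_eq_zero] at h3
    exact h3.symm
  have hAle : ∀ x, ‖A x‖ ≤ ‖(LinearMap.ker A)ᗮ.starProjection x‖ := by
    intro x
    rw [← hAG x, hA]
    exact (Submodule.norm_starProjection_apply_le _ _).trans (Submodule.norm_starProjection_apply_le _ _)
  have hdim : 2 ≤ Module.finrank ℝ ((LinearMap.ker A)ᗮ : Submodule ℝ V) := by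
    have h1 := tt_sum E F (stdOrthonormalBasis ℝ E)
    have h2 := tt_sum E (LinearMap.ker A)ᗮ (stdOrthonormalBasis ℝ E)
    have h3 : tt E F ≤ tt E (LinearMap.ker A)ᗮ := by
      rw [h1, h2]
      refine Finset.sum_le_sum fun i _ => ?_
      have h4 := hAle (stdOrthonormalBasis ℝ E i : V)
      rw [hA, Submodule.starProjection_eq_self_iff.2 (Submodule.coe_mem _)] at h4
      exact pow_le_pow_left₀ (norm_nonneg _) h4 2
    have h5 := tt_le (LinearMap.ker A)ᗮ E
    rw [tt_comm] at h5
    have h6 : (1 : ℝ) < Module.finrank ℝ ((LinearMap.ker A)ᗮ : Submodule ℝ V) := by linarith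
    exact_mod_cast h6
  have hker : LinearMap.ker (A.domRestrict (LinearMap.ker A)ᗮ) = ⊥ := by
    rw [LinearMap.ker_eq_bot']
    intro x hx
    have h1 : (x : V) ∈ LinearMap.ker A := hx
    have h2 : ⟪(x : V), (x : V)⟫ = 0 := Submodule.inner_right_of_mem_orthogonal h1 x.2
    have h3 : (x : V) = 0 := inner_self_eq_zero.1 h2
    exact Subtype.ext h3
  obtain ⟨K, hK, hL⟩ := (A.domRestrict (LinearMap.ker A)ᗮ).exists_antilipschitzWith hker
  refine ⟨(LinearMap.ker A)ᗮ, K, hdim, by exact_mod_cast hK, fun ξ => ?_⟩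
  have h1 := hL.le_mul_norm_sub ⟨(LinearMap.ker A)ᗮ.starProjection ξ,
    Submodule.starProjection_apply_mem _ _⟩ 0
  rw [map_zero, add_zero, add_zero, norm_neg, norm_neg] at h1
  have h2 : A.domRestrict (LinearMap.ker A)ᗮ ⟨(LinearMap.ker A)ᗮ.starProjection ξ,
    Submodule.starProjection_apply_mem _ _⟩ = F.starProjection (E.starProjection ξ) := by
    rw [LinearMap.domRestrict_apply]
    rw [hAG, hA]
  rw [h2] at h1
  exact h1

private theorem ae_ne' (E F : Submodule ℝ V) (h : 1 < tt E F) :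
    ∀ᵐ ξ ∂(stdGaussian V), F.starProjection (E.starProjection ξ) ≠ 0 := by
  obtain ⟨G, K, hG, hK, hb⟩ := exists_low E F h
  filter_upwards [ae_proj_ne_zero G (by omega)] with ξ hξ h0
  have h1 := hb ξ
  rw [h0, norm_zero, mul_zero] at h1
  exact hξ (norm_le_zero_iff.1 h1)

private theorem ni_lt_top' (E F : Submodule ℝ V) (h : 1 < tt E F) :
    ∫⁻ ξ, ni (F.starProjection (E.starProjection ξ)) ∂(stdGaussian V) < ⊤ := by
  obtain ⟨G, K, hG, hK, hb⟩ := exists_low E F h
  obtain ⟨C, hC, hm⟩ := nmom_proj (V := V) 1 0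
  have h2 := lt_of_le_of_lt (hm G (by omega)) hC.lt_top
  have h3 : ∫⁻ ξ, ENNReal.ofReal K * ENNReal.ofReal (‖G.starProjection ξ‖⁻¹) ∂(stdGaussian V) < ⊤ := by
    rw [lintegral_const_mul' _ _ ENNReal.ofReal_ne_top]
    refine ENNReal.mul_lt_top ENNReal.ofReal_lt_top ?_
    simpa only [pow_zero, pow_one, one_mul] using h2
  refine lt_of_le_of_lt (lintegral_mono_ae ?_) h3
  filter_upwards [ae_proj_ne_zero G (by omega)] with ξ hξ
  unfold ni
  rw [← ENNReal.ofReal_mul hK.le]
  apply ENNReal.ofReal_le_ofReal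
  have h0 : 0 < ‖G.starProjection ξ‖ := norm_pos_iff.2 hξ
  have h4 := hb ξ
  have h5 : 0 < ‖F.starProjection (E.starProjection ξ)‖ := by
    rcases (norm_nonneg (F.starProjection (E.starProjection ξ))).lt_or_eq with h6 | h6
    · exact h6
    · rw [← h6, mul_zero] at h4
      linarith
  rw [← div_eq_mul_inv, inv_le_comm₀ h5 (by positivity), inv_div, div_le_iff₀ hK, mul_comm]
  exact h4

/-- the tilted integrand. -/
private noncomputable def kk (Ψ : V → V → ℝ≥0∞) (ε : ℝ) (x y w : V) : ℝ≥0∞ :=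
  ENNReal.ofReal (√(ε ^ 2 + ‖y‖ ^ 2))⁻¹ *
    Ψ x (ort y w + (ε / √(ε ^ 2 + ‖y‖ ^ 2) * (⟪y, w⟫ / ‖y‖ ^ 2)) • y)

omit [FiniteDimensional ℝ V] [MeasurableSpace V] [BorelSpace V] in
private theorem kk_le {Ψ : V → V → ℝ≥0∞} {C : NNReal} (hC : ∀ x y, Ψ x y ≤ C) {ε : ℝ}
    (x : V) {y : V} (hy : y ≠ 0) (w : V) : kk Ψ ε x y w ≤ ni y * C := by
  unfold kk ni
  have hyn : 0 < ‖y‖ := norm_pos_iff.2 hy
  have h1 : ENNReal.ofReal (√(ε ^ 2 + ‖y‖ ^ 2))⁻¹ ≤ ENNReal.ofReal ‖y‖⁻¹ := by
    apply ENNReal.ofReal_le_ofReal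
    refine inv_anti₀ hyn ?_
    exact Real.le_sqrt_of_sq_le (by nlinarith [sq_nonneg ε])
  exact mul_le_mul' h1 (hC _ _)

private theorem kk_meas {Ψ : V → V → ℝ≥0∞} (hΨ : Continuous (Function.uncurry Ψ)) (ε : ℝ) (L M N : V → V)
    (hL : Measurable L) (hM : Measurable M) (hN : Measurable N) :
    Measurable (fun p : V × V => kk Ψ ε (L p.1) (M p.1) (N p.2)) := by
  unfold kk
  have h1 : Measurable (fun p : V × V => ort (M p.1) (N p.2)) :=
    measurable_ort.comp ((hM.comp measurable_fst).prodMk (hN.comp measurable_snd))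
  have h2 : Measurable (fun p : V × V => ‖M p.1‖) := (hM.comp measurable_fst).norm
  have h3 : Measurable (fun p : V × V => ⟪M p.1, N p.2⟫) :=
    (hM.comp measurable_fst).inner (hN.comp measurable_snd)
  have h4 : Measurable (fun p : V × V => √(ε ^ 2 + ‖M p.1‖ ^ 2)) :=
    (measurable_const.add (h2.pow_const 2)).sqrt
  refine (h4.inv.ennreal_ofReal).mul ?_
  refine hΨ.measurable.comp ((hL.comp measurable_fst).prodMk ?_)
  refine h1.add ?_
  refine Measurable.smul ?_ (hM.comp measurable_fst)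
  exact (measurable_const.div h4).mul (h3.div (h2.pow_const 2))

omit [FiniteDimensional ℝ V] [MeasurableSpace V] [BorelSpace V] in
private theorem kk_tendsto {Ψ : V → V → ℝ≥0∞} (hΨ : Continuous (Function.uncurry Ψ)) {C : NNReal}
    (hC : ∀ x y, Ψ x y ≤ C) (x : V) {y : V} (hy : y ≠ 0) (w : V) :
    Tendsto (fun n : ℕ => kk Ψ (1 / ((n : ℝ) + 1)) x y w) atTop (𝓝 (ni y * Ψ x (ort y w))) := by
  have hyn : 0 < ‖y‖ := norm_pos_iff.2 hy
  have h0 : Tendsto (fun n : ℕ => 1 / ((n : ℝ) + 1)) atTop (𝓝 0) := tendsto_one_div_add_atTop_nhds_zero_nat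
  have hsq : ContinuousAt (fun ε : ℝ => √(ε ^ 2 + ‖y‖ ^ 2)) 0 := by fun_prop
  have hne : √((0 : ℝ) ^ 2 + ‖y‖ ^ 2) ≠ 0 := by
    rw [zero_pow two_ne_zero, zero_add, Real.sqrt_sq hyn.le]; exact hyn.ne'
  have hcont1 : ContinuousAt (fun ε : ℝ => ENNReal.ofReal (√(ε ^ 2 + ‖y‖ ^ 2))⁻¹) 0 :=
    ENNReal.continuous_ofReal.continuousAt.comp (hsq.inv₀ hne)
  have hcont2 : ContinuousAt (fun ε : ℝ =>
      Ψ x (ort y w + (ε / √(ε ^ 2 + ‖y‖ ^ 2) * (⟪y, w⟫ / ‖y‖ ^ 2)) • y)) 0 := by
    have h1 : ContinuousAt (fun ε : ℝ =>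
        (x, ort y w + (ε / √(ε ^ 2 + ‖y‖ ^ 2) * (⟪y, w⟫ / ‖y‖ ^ 2)) • y)) 0 := by
      refine continuousAt_const.prodMk (continuousAt_const.add ?_)
      exact ((continuousAt_id.div hsq hne).mul continuousAt_const).smul continuousAt_const
    exact ContinuousAt.comp (f := fun ε : ℝ =>
        (x, ort y w + (ε / √(ε ^ 2 + ‖y‖ ^ 2) * (⟪y, w⟫ / ‖y‖ ^ 2)) • y)) hΨ.continuousAt h1
  have h1 := hcont1.tendsto.comp h0
  have h2 := hcont2.tendsto.comp h0
  have hv1 : √((0 : ℝ) ^ 2 + ‖y‖ ^ 2) = ‖y‖ := by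
    rw [zero_pow two_ne_zero, zero_add, Real.sqrt_sq hyn.le]
  rw [hv1] at h1
  have hv2 : ort y w + ((0 : ℝ) / √(0 ^ 2 + ‖y‖ ^ 2) * (⟪y, w⟫ / ‖y‖ ^ 2)) • y = ort y w := by
    rw [zero_div, zero_mul, zero_smul, add_zero]
  rw [hv2] at h2
  have := ENNReal.Tendsto.mul h1 (Or.inr (ne_top_of_le_ne_top ENNReal.coe_ne_top (hC _ _))) h2
    (Or.inr ENNReal.ofReal_ne_top)
  exact this

private theorem inner_eq (E F : Submodule ℝ V) {Ψ : V → V → ℝ≥0∞} (hΨ : Continuous (Function.uncurry Ψ))
    (n : ℕ) (ξ : V) :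
    ∫⁻ g, ENNReal.ofReal (((n : ℝ) + 1) *
        Real.exp (-⟪E.starProjection ξ, F.starProjection g⟫ ^ 2 / (2 * (1 / ((n : ℝ) + 1)) ^ 2))) *
        Ψ (E.starProjection ξ) (F.starProjection g) ∂(stdGaussian V) =
    ∫⁻ g, kk Ψ (1 / ((n : ℝ) + 1)) (E.starProjection ξ) (F.starProjection (E.starProjection ξ))
      (F.starProjection g) ∂(stdGaussian V) := by
  set ε : ℝ := 1 / ((n : ℝ) + 1) with hεd
  have hε : 0 < ε := by rw [hεd]; positivity
  have hεi : (n : ℝ) + 1 = ε⁻¹ := by rw [hεd, one_div, inv_inv]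
  set x : V := E.starProjection ξ with hx
  obtain ⟨y, hy⟩ : ∃ y, y = F.starProjection x := ⟨_, rfl⟩
  have hyF : y ∈ F := by rw [hy]; exact Submodule.starProjection_apply_mem _ _
  have hin : ∀ g : V, ⟪x, F.starProjection g⟫ = ⟪y, F.starProjection g⟫ := by
    intro g
    rw [hy, Submodule.inner_starProjection_left_eq_right F x (F.starProjection g),
      Submodule.starProjection_eq_self_iff.2 (Submodule.starProjection_apply_mem F g)]
  rw [← hy]
  have hΦ : Measurable (fun v : V => ENNReal.ofReal ε⁻¹ * Ψ x v) :=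
    (hΨ.measurable.comp (measurable_const.prodMk measurable_id)).const_mul _
  have h1 := tilt F hyF hε hΦ
  have h2 : ∀ g : V, ENNReal.ofReal (((n : ℝ) + 1) *
        Real.exp (-⟪x, F.starProjection g⟫ ^ 2 / (2 * ε ^ 2))) * Ψ x (F.starProjection g) =
      ENNReal.ofReal (Real.exp (-⟪y, F.starProjection g⟫ ^ 2 / (2 * ε ^ 2))) *
        (ENNReal.ofReal ε⁻¹ * Ψ x (F.starProjection g)) := by
    intro g
    rw [hin g, hεi, mul_comm ε⁻¹, ENNReal.ofReal_mul (Real.exp_pos _).le, mul_assoc]
  simp_rw [h2]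
  rw [h1, ← lintegral_const_mul' _ _ ENNReal.ofReal_ne_top]
  refine lintegral_congr fun g => ?_
  unfold kk
  rw [← mul_assoc, ← ENNReal.ofReal_mul (by positivity)]
  congr 2
  field_simp

private theorem gsym_tendsto' (E F : Submodule ℝ V) (h : 1 < tt E F)
    {Ψ : V → V → ℝ≥0∞} (hΨ : Continuous (Function.uncurry Ψ)) {C : NNReal} (hC : ∀ x y, Ψ x y ≤ C) :
    Tendsto (fun n : ℕ => ∫⁻ ξ, ∫⁻ g, ENNReal.ofReal (((n : ℝ) + 1) *
        Real.exp (-⟪E.starProjection ξ, F.starProjection g⟫ ^ 2 / (2 * (1 / ((n : ℝ) + 1)) ^ 2))) *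
        Ψ (E.starProjection ξ) (F.starProjection g) ∂(stdGaussian V) ∂(stdGaussian V)) atTop
      (𝓝 (∫⁻ ξ, ni (F.starProjection (E.starProjection ξ)) *
        ∫⁻ g, Ψ (E.starProjection ξ) (ort (F.starProjection (E.starProjection ξ)) (F.starProjection g))
          ∂(stdGaussian V) ∂(stdGaussian V))) := by
  have hJ : (fun n : ℕ => ∫⁻ ξ, ∫⁻ g, ENNReal.ofReal (((n : ℝ) + 1) *
        Real.exp (-⟪E.starProjection ξ, F.starProjection g⟫ ^ 2 / (2 * (1 / ((n : ℝ) + 1)) ^ 2))) *
        Ψ (E.starProjection ξ) (F.starProjection g) ∂(stdGaussian V) ∂(stdGaussian V)) =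
      fun n : ℕ => ∫⁻ ξ, ∫⁻ g, kk Ψ (1 / ((n : ℝ) + 1)) (E.starProjection ξ)
        (F.starProjection (E.starProjection ξ)) (F.starProjection g) ∂(stdGaussian V) ∂(stdGaussian V) := by
    funext n
    exact lintegral_congr fun ξ => inner_eq E F hΨ n ξ
  rw [hJ]
  have hFm : Measurable (fun g : V => F.starProjection g) := F.starProjection.continuous.measurable
  have hEm : Measurable (fun g : V => E.starProjection g) := E.starProjection.continuous.measurable
  have hFEm : Measurable (fun g : V => F.starProjection (E.starProjection g)) :=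
    (F.starProjection.continuous.comp E.starProjection.continuous).measurable
  have hne := ae_ne' E F h
  have hmeas : ∀ n : ℕ, Measurable (fun p : V × V => kk Ψ (1 / ((n : ℝ) + 1)) (E.starProjection p.1)
      (F.starProjection (E.starProjection p.1)) (F.starProjection p.2)) :=
    fun n => kk_meas hΨ (1 / ((n : ℝ) + 1)) (fun g => E.starProjection g)
      (fun g => F.starProjection (E.starProjection g)) (fun g => F.starProjection g) hEm hFEm hFm
  refine tendsto_lintegral_of_dominated_convergence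
    (fun ξ => ni (F.starProjection (E.starProjection ξ)) * C)
    (fun n => (hmeas n).lintegral_prod_right') (fun n => ?_) ?_ ?_
  · filter_upwards [hne] with ξ hξ
    calc ∫⁻ g, kk Ψ (1 / ((n : ℝ) + 1)) (E.starProjection ξ)
          (F.starProjection (E.starProjection ξ)) (F.starProjection g) ∂(stdGaussian V)
        ≤ ∫⁻ _g, ni (F.starProjection (E.starProjection ξ)) * C ∂(stdGaussian V) :=
          lintegral_mono fun g => kk_le hC _ hξ _
      _ = _ := by rw [lintegral_const, measure_univ, mul_one]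
  · rw [lintegral_mul_const' _ _ ENNReal.coe_ne_top]
    exact ENNReal.mul_ne_top (ni_lt_top' E F h).ne ENNReal.coe_ne_top
  · filter_upwards [hne] with ξ hξ
    have hm' : ∀ n : ℕ, Measurable (fun g : V => kk Ψ (1 / ((n : ℝ) + 1)) (E.starProjection ξ)
        (F.starProjection (E.starProjection ξ)) (F.starProjection g)) := by
      intro n
      have := (hmeas n).comp (measurable_prodMk_left (x := ξ))
      exact this
    have hnt : ni (F.starProjection (E.starProjection ξ)) ≠ ⊤ := by
      unfold ni; exact ENNReal.ofReal_ne_top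
    rw [← lintegral_const_mul' _ _ hnt]
    refine tendsto_lintegral_of_dominated_convergence
      (fun _ => ni (F.starProjection (E.starProjection ξ)) * C) hm'
      (fun n => Eventually.of_forall fun g => kk_le hC _ hξ _) ?_
      (Eventually.of_forall fun g => kk_tendsto hΨ hC _ hξ _)
    rw [lintegral_const, measure_univ, mul_one]
    exact ENNReal.mul_ne_top hnt ENNReal.coe_ne_top

/-- the measure belonging to the left side -/
private noncomputable def mlft (E F : Submodule ℝ V) : Measure (V × V) :=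
  (((stdGaussian V).prod (stdGaussian V)).withDensity
    (fun p => ni (F.starProjection (E.starProjection p.1)))).map
    (fun p => (E.starProjection p.1, ort (F.starProjection (E.starProjection p.1)) (F.starProjection p.2)))

private theorem lint_mlft (E F : Submodule ℝ V) {φ : V × V → ℝ≥0∞} (hφ : Measurable φ) :
    ∫⁻ q, φ q ∂(mlft E F) =
      ∫⁻ ξ, ni (F.starProjection (E.starProjection ξ)) *
        ∫⁻ g, φ (E.starProjection ξ, ort (F.starProjection (E.starProjection ξ)) (F.starProjection g))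
          ∂(stdGaussian V) ∂(stdGaussian V) := by
  have hE : Measurable fun x : V => E.starProjection x := E.starProjection.continuous.measurable
  have hF : Measurable fun x : V => F.starProjection x := F.starProjection.continuous.measurable
  have hFE : Measurable fun x : V => F.starProjection (E.starProjection x) := hF.comp hE
  have hm : Measurable fun p : V × V => (E.starProjection p.1,
      ort (F.starProjection (E.starProjection p.1)) (F.starProjection p.2)) :=
    (hE.comp measurable_fst).prodMk (measurable_ort.comp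
      ((hFE.comp measurable_fst).prodMk (hF.comp measurable_snd)))
  have hn : Measurable fun p : V × V => ni (F.starProjection (E.starProjection p.1)) :=
    g2_ni.comp (hFE.comp measurable_fst)
  have hφm : Measurable fun p : V × V => φ (E.starProjection p.1,
      ort (F.starProjection (E.starProjection p.1)) (F.starProjection p.2)) := hφ.comp hm
  unfold mlft
  rw [lintegral_map hφ hm, lintegral_withDensity_eq_lintegral_mul _ hn hφm,
    lintegral_prod _ (hn.mul hφm).aemeasurable]
  refine lintegral_congr fun ξ => ?_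
  have h1 : Measurable fun g : V => φ (E.starProjection ξ,
      ort (F.starProjection (E.starProjection ξ)) (F.starProjection g)) :=
    (hφ.comp hm).comp (measurable_const.prodMk measurable_id)
  rw [← lintegral_const_mul _ h1]
  rfl

private theorem mlft_finite (E F : Submodule ℝ V)
    (h : 1 < tt E F) :
    IsFiniteMeasure (mlft E F) := by
  refine ⟨?_⟩
  have h1 := lint_mlft E F (φ := fun _ => 1) measurable_const
  simp only [lintegral_one, measure_univ, mul_one] at h1
  rw [h1]
  exact ni_lt_top' E F h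

private theorem mlft_swap (E F : Submodule ℝ V)
    (h : 1 < tt E F) :
    mlft E F = (mlft F E).map Prod.swap := by
  haveI := mlft_finite E F h
  refine ext_of_forall_lintegral_eq_of_IsFiniteMeasure fun f => ?_
  have hf : Continuous f := f.continuous
  have hm : Measurable fun q : V × V => (f q : ℝ≥0∞) := hf.measurable.coe_nnreal_ennreal
  have hms : Measurable fun q : V × V => (f q.swap : ℝ≥0∞) := hm.comp measurable_swap
  rw [lintegral_map hm measurable_swap, lint_mlft E F hm, lint_mlft F E hms]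
  have hb : ∀ q, (f q : ℝ≥0∞) ≤ ((nndist f 0 : NNReal) : ℝ≥0∞) := by
    intro q
    have h1 : nndist (f q) ((0 : BoundedContinuousFunction (V × V) NNReal) q) ≤ nndist f 0 :=
      BoundedContinuousFunction.nndist_coe_le_nndist q
    have h2 : f q ≤ nndist f 0 := by
      rw [BoundedContinuousFunction.coe_zero, Pi.zero_apply, NNReal.nndist_zero_eq_val'] at h1
      exact h1
    exact_mod_cast h2
  have hce : Continuous fun q : V × V => (f q : ℝ≥0∞) := ENNReal.continuous_coe.comp hf
  have t1 := gsym_tendsto' E F h (Ψ := fun x y => (f (x, y) : ℝ≥0∞)) hce (C := nndist f 0)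
    (fun x y => hb _)
  have t2 := gsym_tendsto' F E (by rw [tt_comm]; exact h) (Ψ := fun x y => (f (y, x) : ℝ≥0∞))
    (hce.comp continuous_swap) (C := nndist f 0) (fun x y => hb _)
  refine tendsto_nhds_unique t1 ?_
  refine t2.congr fun n => ?_
  have hE : Measurable fun x : V => E.starProjection x := E.starProjection.continuous.measurable
  have hF : Measurable fun x : V => F.starProjection x := F.starProjection.continuous.measurable
  rw [lintegral_lintegral_swap]
  · refine lintegral_congr fun ξ => lintegral_congr fun g => ?_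
    rw [real_inner_comm]
  · have h3 : Measurable fun p : V × V => ENNReal.ofReal (((n : ℝ) + 1) *
        Real.exp (-⟪F.starProjection p.1, E.starProjection p.2⟫ ^ 2 / (2 * (1 / ((n : ℝ) + 1)) ^ 2))) := by
      refine ENNReal.measurable_ofReal.comp (measurable_const.mul (Real.measurable_exp.comp ?_))
      exact (((hF.comp measurable_fst).inner (hE.comp measurable_snd)).pow_const 2).neg.div_const _
    have h4 : Measurable fun p : V × V => (f (E.starProjection p.2, F.starProjection p.1) : ℝ≥0∞) :=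
      hm.comp ((hE.comp measurable_snd).prodMk (hF.comp measurable_fst))
    exact (h3.mul h4).aemeasurable

theorem gsym' (E F : Submodule ℝ V) (h : 1 < tt E F) {ψ : V → V → ℝ≥0∞} (hψ : Measurable (Function.uncurry ψ)) :
    ∫⁻ ξ, ni (F.starProjection (E.starProjection ξ)) *
        ∫⁻ g, ψ (E.starProjection ξ) (ort (F.starProjection (E.starProjection ξ)) (F.starProjection g))
          ∂(stdGaussian V) ∂(stdGaussian V) =
      ∫⁻ g, ni (E.starProjection (F.starProjection g)) *
        ∫⁻ ξ, ψ (ort (E.starProjection (F.starProjection g)) (E.starProjection ξ)) (F.starProjection g)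
          ∂(stdGaussian V) ∂(stdGaussian V) := by
  have h1 := lint_mlft E F hψ
  have h2 := lint_mlft F E (hψ.comp measurable_swap)
  rw [mlft_swap E F h, lintegral_map hψ measurable_swap] at h1
  exact h1.symm.trans h2

/-- `‖P_F P_E ξ‖⁻¹` is integrable. -/
theorem ni_lt_top (E F : Submodule ℝ V) (h : 1 < tt E F) :
    ∫⁻ ξ, ni (F.starProjection (E.starProjection ξ)) ∂(stdGaussian V) < ⊤ :=
  ni_lt_top' E F h

theorem ae_ne (E F : Submodule ℝ V) (h : 1 < tt E F) :
    ∀ᵐ ξ ∂(stdGaussian V), F.starProjection (E.starProjection ξ) ≠ 0 :=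
  ae_ne' E F h

end Pool.Agent.PBL
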