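import Pool.Agent.PBL.C4a
import Pool.Agent.PBL.C5

/-! Module PBL-C4b (change of order, spherical form). `gsym'` (`F = W`) is applied to
`ψ x y = ofReal (‖P_W x‖²) * ofReal ‖y‖ * Φ (nrm x) (nrm y)`; on both sides the norms and the directions of the
projections are independent (`rad_sub`), which gives the constants `mG k ^ 2` and `k - 1`. -/

set_option autoImplicit false

namespace Pool.Agent.PBL
open MeasureTheory ProbabilityTheory Set Filter Topology Metric
open Pool.Agent.HP89 Pool.Agent.FI75
open scoped RealInnerProductSpace ENNReal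

variable {V : Type*} [NormedAddCommGroup V] [InnerProductSpace ℝ V] [FiniteDimensional ℝ V]
  [MeasurableSpace V] [BorelSpace V]

private theorem c4b_lint_norm (E : Submodule ℝ V) :
    ∫⁻ g, ENNReal.ofReal ‖E.starProjection g‖ ∂(stdGaussian V) = ENNReal.ofReal (mG (Module.finrank ℝ E)) := by
  rw [← integral_norm_proj E, ofReal_integral_eq_lintegral_ofReal]
  · refine Integrable.mono' (integrable_norm_gaussian (V := V)) (by fun_prop) ?_
    filter_upwards with g
    rw [norm_norm]
    exact Submodule.norm_starProjection_apply_le _ _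
  · filter_upwards with g using norm_nonneg _

private theorem c4b_lint_sq (E : Submodule ℝ V) :
    ∫⁻ g, ENNReal.ofReal (‖E.starProjection g‖ ^ 2) ∂(stdGaussian V) =
      ENNReal.ofReal (Module.finrank ℝ E : ℝ) := by
  rw [← integral_norm_sq_proj E, ofReal_integral_eq_lintegral_ofReal]
  · refine Integrable.mono' (integrable_norm_sq_gaussian (V := V)) (by fun_prop) ?_
    filter_upwards with g
    rw [norm_pow, norm_norm]
    exact pow_le_pow_left₀ (norm_nonneg _) (Submodule.norm_starProjection_apply_le _ _) 2
  · filter_upwards with g using by positivity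

omit [FiniteDimensional ℝ V] [MeasurableSpace V] [BorelSpace V] in
private theorem c4b_smul_nrm (x : V) : ‖x‖ • nrm x = x := by
  unfold nrm
  by_cases h : x = 0
  · simp [h]
  · rw [smul_smul, mul_inv_cancel₀ (norm_ne_zero_iff.2 h), one_smul]

omit [MeasurableSpace V] [BorelSpace V] in
/-- `‖P_W x‖ = ‖x‖ ‖P_W (nrm x)‖`. -/
private theorem c4b_norm_proj (W : Submodule ℝ V) (x : V) :
    ‖W.starProjection x‖ = ‖x‖ * ‖W.starProjection (nrm x)‖ := by
  have h : W.starProjection x = ‖x‖ • W.starProjection (nrm x) := by
    rw [← map_smul, c4b_smul_nrm]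
  rw [h, norm_smul, norm_norm]

omit [MeasurableSpace V] [BorelSpace V] in
private theorem c4b_ort (W : Submodule ℝ V) {x : V} (hx : x ≠ 0) (z : V) :
    ort (W.starProjection x) z = ort (W.starProjection (nrm x)) z := by
  have h : W.starProjection x = ‖x‖ • W.starProjection (nrm x) := by
    rw [← map_smul, c4b_smul_nrm]
  rw [h, ort_smul_left (norm_ne_zero_iff.2 hx)]

omit [MeasurableSpace V] [BorelSpace V] in
private theorem c4b_ni_sq (y : V) : ni y * ENNReal.ofReal (‖y‖ ^ 2) = ENNReal.ofReal ‖y‖ := by
  unfold ni
  rw [← ENNReal.ofReal_mul (by positivity)]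
  congr 1
  by_cases h : y = 0
  · simp [h]
  · have := norm_ne_zero_iff.2 h
    field_simp

/-- the inner integral on the left side. -/
private theorem c4b_inner (W : Submodule ℝ V) {m : ℕ} (hW : Module.finrank ℝ W = m + 1) (hm : 1 ≤ m) {θ : V}
    (hθ : W.starProjection θ ≠ 0) {f : ℝ → ℝ≥0∞} (hf : Measurable f) {φ : V → ℝ≥0∞} (hφ : Measurable φ) :
    ∫⁻ g, f ‖ort (W.starProjection θ) (W.starProjection g)‖ *
        φ (nrm (ort (W.starProjection θ) (W.starProjection g))) ∂(stdGaussian V) =
      (∫⁻ g, f ‖(sb W θ).starProjection g‖ ∂(stdGaussian V)) *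
        ∫⁻ g, φ (nrm (ort (W.starProjection θ) (W.starProjection g))) ∂(stdGaussian V) := by
  have h1 : Module.finrank ℝ (sb W θ) + 1 = Module.finrank ℝ W := finrank_sb hθ
  have h2 := rad_sub (sb W θ) (by omega) hf hφ
  simp_rw [sb_proj] at h2
  simp_rw [sb_proj]
  exact h2

private theorem c4b_meas_ort (W : Submodule ℝ V) :
    Measurable (fun p : V × V => ort (W.starProjection p.1) (W.starProjection p.2)) := by
  have hW : Measurable fun x : V => W.starProjection x := W.starProjection.continuous.measurable
  exact measurable_ort.comp ((hW.comp measurable_fst).prodMk (hW.comp measurable_snd))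

theorem coi_eq (E W : Submodule ℝ V) {k : ℕ} (hE : Module.finrank ℝ E = k) (hW : Module.finrank ℝ W = k + 1)
    (hk : 2 ≤ k) (h : 1 < tt E W) {Φ : V → V → ℝ≥0∞} (hΦ : Measurable (Function.uncurry Φ)) :
    ENNReal.ofReal (mG k ^ 2) * ∫⁻ ξ, ENNReal.ofReal ‖W.starProjection (nrm (E.starProjection ξ))‖ *
        ∫⁻ g, Φ (nrm (E.starProjection ξ))
          (nrm (ort (W.starProjection (nrm (E.starProjection ξ))) (W.starProjection g)))
          ∂(stdGaussian V) ∂(stdGaussian V) =
      ENNReal.ofReal ((k : ℝ) - 1) * ∫⁻ g, ni (E.starProjection (nrm (W.starProjection g))) *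
        ∫⁻ ξ, ENNReal.ofReal (‖W.starProjection
            (nrm (ort (E.starProjection (nrm (W.starProjection g))) (E.starProjection ξ)))‖ ^ 2) *
          Φ (nrm (ort (E.starProjection (nrm (W.starProjection g))) (E.starProjection ξ)))
            (nrm (W.starProjection g)) ∂(stdGaussian V) ∂(stdGaussian V) := by
  have hn : Measurable (nrm : V → V) := measurable_nrm
  have hEm : Measurable fun x : V => E.starProjection x := E.starProjection.continuous.measurable
  have hWm : Measurable fun x : V => W.starProjection x := W.starProjection.continuous.measurable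
  have hψ : Measurable (Function.uncurry (fun x y : V =>
      ENNReal.ofReal (‖W.starProjection x‖ ^ 2) * ENNReal.ofReal ‖y‖ * Φ (nrm x) (nrm y))) := by
    have h1 : Measurable fun p : V × V => ENNReal.ofReal (‖W.starProjection p.1‖ ^ 2) :=
      ((hWm.comp measurable_fst).norm.pow_const 2).ennreal_ofReal
    have h2 : Measurable fun p : V × V => ENNReal.ofReal ‖p.2‖ := measurable_snd.norm.ennreal_ofReal
    have h3 : Measurable fun p : V × V => Φ (nrm p.1) (nrm p.2) :=
      hΦ.comp ((hn.comp measurable_fst).prodMk (hn.comp measurable_snd))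
    exact (h1.mul h2).mul h3
  have key := gsym' E W h hψ
  have hneE := ae_proj_ne (V := V) E (by omega)
  have hneW := ae_proj_ne (V := V) W (by omega)
  have hneWE := ae_ne E W h
  have hneEW := ae_ne W E (by rw [tt_comm]; exact h)
  -- left side
  have hL : ∫⁻ ξ, ni (W.starProjection (E.starProjection ξ)) *
        ∫⁻ g, ENNReal.ofReal (‖W.starProjection (E.starProjection ξ)‖ ^ 2) *
          ENNReal.ofReal ‖ort (W.starProjection (E.starProjection ξ)) (W.starProjection g)‖ *
          Φ (nrm (E.starProjection ξ)) (nrm (ort (W.starProjection (E.starProjection ξ)) (W.starProjection g)))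
          ∂(stdGaussian V) ∂(stdGaussian V) =
      ENNReal.ofReal (mG k ^ 2) * ∫⁻ ξ, ENNReal.ofReal ‖W.starProjection (nrm (E.starProjection ξ))‖ *
        ∫⁻ g, Φ (nrm (E.starProjection ξ))
          (nrm (ort (W.starProjection (nrm (E.starProjection ξ))) (W.starProjection g)))
          ∂(stdGaussian V) ∂(stdGaussian V) := by
    have hφm : Measurable (fun θ : V => ENNReal.ofReal ‖W.starProjection θ‖ *
        ∫⁻ g, Φ θ (nrm (ort (W.starProjection θ) (W.starProjection g))) ∂(stdGaussian V)) := by
      refine (hWm.norm.ennreal_ofReal).mul ?_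
      have h1 : Measurable (fun p : V × V => Φ p.1 (nrm (ort (W.starProjection p.1) (W.starProjection p.2)))) :=
        hΦ.comp (measurable_fst.prodMk (hn.comp (c4b_meas_ort W)))
      exact h1.lintegral_prod_right'
    have h2 := rad_sub E (by omega) (f := fun t => ENNReal.ofReal t) ENNReal.measurable_ofReal hφm
    rw [c4b_lint_norm, hE] at h2
    have h3 : ENNReal.ofReal (mG k ^ 2) = ENNReal.ofReal (mG k) * ENNReal.ofReal (mG k) := by
      rw [← ENNReal.ofReal_mul (mG_nonneg k), sq]
    rw [h3, mul_assoc, ← h2, ← lintegral_const_mul' _ _ ENNReal.ofReal_ne_top]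
    refine lintegral_congr_ae ?_
    filter_upwards [hneE, hneWE] with ξ hξ hξW
    set x : V := E.starProjection ξ with hx
    have hθ : W.starProjection (nrm x) ≠ 0 := by
      intro h0
      have h4 := c4b_norm_proj W x
      rw [h0, norm_zero, mul_zero, norm_eq_zero] at h4
      exact hξW h4
    simp_rw [c4b_ort W hξ]
    have h5 : ∫⁻ g, ENNReal.ofReal (‖W.starProjection x‖ ^ 2) *
          ENNReal.ofReal ‖ort (W.starProjection (nrm x)) (W.starProjection g)‖ *
          Φ (nrm x) (nrm (ort (W.starProjection (nrm x)) (W.starProjection g))) ∂(stdGaussian V) =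
        ENNReal.ofReal (‖W.starProjection x‖ ^ 2) * (ENNReal.ofReal (mG k) *
          ∫⁻ g, Φ (nrm x) (nrm (ort (W.starProjection (nrm x)) (W.starProjection g))) ∂(stdGaussian V)) := by
      have h6 := c4b_inner W hW (by omega) hθ (f := fun t => ENNReal.ofReal t) ENNReal.measurable_ofReal
        (φ := fun z => Φ (nrm x) z) (hΦ.comp (measurable_const.prodMk measurable_id))
      rw [c4b_lint_norm] at h6
      have h7 : Module.finrank ℝ (sb W (nrm x)) = k := by
        have := finrank_sb hθ
        omega
      rw [h7] at h6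
      rw [← h6, ← lintegral_const_mul' _ _ ENNReal.ofReal_ne_top]
      refine lintegral_congr fun g => ?_
      rw [mul_assoc]
    rw [h5, ← mul_assoc, c4b_ni_sq, c4b_norm_proj W x, ENNReal.ofReal_mul (norm_nonneg _)]
    ring
  -- right side
  have hR : ∫⁻ g, ni (E.starProjection (W.starProjection g)) *
        ∫⁻ ξ, ENNReal.ofReal (‖W.starProjection (ort (E.starProjection (W.starProjection g))
            (E.starProjection ξ))‖ ^ 2) * ENNReal.ofReal ‖W.starProjection g‖ *
          Φ (nrm (ort (E.starProjection (W.starProjection g)) (E.starProjection ξ))) (nrm (W.starProjection g))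
          ∂(stdGaussian V) ∂(stdGaussian V) =
      ENNReal.ofReal ((k : ℝ) - 1) * ∫⁻ g, ni (E.starProjection (nrm (W.starProjection g))) *
        ∫⁻ ξ, ENNReal.ofReal (‖W.starProjection
            (nrm (ort (E.starProjection (nrm (W.starProjection g))) (E.starProjection ξ)))‖ ^ 2) *
          Φ (nrm (ort (E.starProjection (nrm (W.starProjection g))) (E.starProjection ξ)))
            (nrm (W.starProjection g)) ∂(stdGaussian V) ∂(stdGaussian V) := by
    rw [← lintegral_const_mul' _ _ ENNReal.ofReal_ne_top]
    refine lintegral_congr_ae ?_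
    filter_upwards [hneW, hneEW] with g hg hgE
    set y : V := W.starProjection g with hy
    have hη : E.starProjection (nrm y) ≠ 0 := by
      intro h0
      have h4 := c4b_norm_proj E y
      rw [h0, norm_zero, mul_zero, norm_eq_zero] at h4
      exact hgE h4
    simp_rw [c4b_ort E hg]
    have hφm : Measurable (fun z : V => ENNReal.ofReal (‖W.starProjection z‖ ^ 2) * Φ z (nrm y)) :=
      ((hWm.norm.pow_const 2).ennreal_ofReal).mul (hΦ.comp (measurable_id.prodMk measurable_const))
    have h5 : ∫⁻ ξ, ENNReal.ofReal (‖W.starProjection (ort (E.starProjection (nrm y))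
            (E.starProjection ξ))‖ ^ 2) * ENNReal.ofReal ‖y‖ *
          Φ (nrm (ort (E.starProjection (nrm y)) (E.starProjection ξ))) (nrm y) ∂(stdGaussian V) =
        ENNReal.ofReal ‖y‖ * (ENNReal.ofReal ((k : ℝ) - 1) *
          ∫⁻ ξ, ENNReal.ofReal (‖W.starProjection
            (nrm (ort (E.starProjection (nrm y)) (E.starProjection ξ)))‖ ^ 2) *
          Φ (nrm (ort (E.starProjection (nrm y)) (E.starProjection ξ))) (nrm y) ∂(stdGaussian V)) := by
      have h6 := c4b_inner E (m := k - 1) (by omega) (by omega) hη (f := fun t => ENNReal.ofReal (t ^ 2))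
        (by fun_prop) hφm
      rw [c4b_lint_sq] at h6
      have h7 : (Module.finrank ℝ (sb E (nrm y)) : ℝ) = (k : ℝ) - 1 := by
        have h8 := finrank_sb hη
        rw [hE] at h8
        rw [← h8]
        push_cast
        ring
      rw [h7] at h6
      rw [← h6, ← lintegral_const_mul' _ _ ENNReal.ofReal_ne_top]
      refine lintegral_congr fun ξ => ?_
      rw [c4b_norm_proj W (ort (E.starProjection (nrm y)) (E.starProjection ξ)), mul_pow,
        ENNReal.ofReal_mul (by positivity)]
      ring
    rw [h5]
    have h9 : ni (E.starProjection y) * ENNReal.ofReal ‖y‖ = ni (E.starProjection (nrm y)) := by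
      unfold ni
      rw [← ENNReal.ofReal_mul (by positivity), c4b_norm_proj E y]
      congr 1
      have h10 : ‖y‖ ≠ 0 := norm_ne_zero_iff.2 hg
      have h11 : ‖E.starProjection (nrm y)‖ ≠ 0 := norm_ne_zero_iff.2 hη
      field_simp
    rw [← mul_assoc, h9]
    ring
  rw [← hL, ← hR]
  exact key

end Pool.Agent.PBL
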