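import Pool.Agent.PBL.C4b
import Pool.Agent.PBL.C5

/-! Module PBL-C4c (upper and lower form of the change of order): the identity `coi_eq` in terms of real integrals of bounded functions;
`mG k ^ 2 ≤ k`, `k - 1 ≤ mG k ^ 2`; tangent of the function `a ↦ a^(-1/2)` at `b`. -/

set_option autoImplicit false

namespace Pool.Agent.PBL
open MeasureTheory ProbabilityTheory Set Filter Topology Metric
open Pool.Agent.HP89 Pool.Agent.FI75
open scoped RealInnerProductSpace ENNReal

variable {V : Type*} [NormedAddCommGroup V] [InnerProductSpace ℝ V] [FiniteDimensional ℝ V]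
  [MeasurableSpace V] [BorelSpace V]

private theorem c_oi {f : V → ℝ} (hf : Measurable f) (h0 : ∀ x, 0 ≤ f x) {C : ℝ} (hC : ∀ x, f x ≤ C) :
    ENNReal.ofReal (∫ x, f x ∂(stdGaussian V)) = ∫⁻ x, ENNReal.ofReal (f x) ∂(stdGaussian V) := by
  apply ofReal_integral_eq_lintegral_ofReal
  · refine Integrable.of_bound hf.aestronglyMeasurable C (Eventually.of_forall fun x => ?_)
    rw [Real.norm_eq_abs, abs_of_nonneg (h0 x)]
    exact hC x
  · exact Eventually.of_forall h0

private theorem c_proj (E : Submodule ℝ V) : Measurable (fun x : V => E.starProjection x) :=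
  E.starProjection.continuous.measurable

private theorem c_sq (W : Submodule ℝ V) : Measurable (fun x : V => ‖W.starProjection x‖ ^ 2) :=
  (c_proj W).norm.pow_const 2

private theorem c_x (E : Submodule ℝ V) : Measurable (fun ξ : V => nrm (E.starProjection ξ)) :=
  measurable_nrm.comp (c_proj E)

private theorem c_y (W : Submodule ℝ V) :
    Measurable (fun p : V × V => nrm (ort (W.starProjection p.1) (W.starProjection p.2))) :=
  measurable_nrm.comp (Pool.Agent.HP89.measurable_ort.comp
    (((c_proj W).comp measurable_fst).prodMk ((c_proj W).comp measurable_snd)))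

private theorem c_y1 (W : Submodule ℝ V) (x : V) :
    Measurable (fun g : V => nrm (ort (W.starProjection x) (W.starProjection g))) :=
  measurable_nrm.comp (Pool.Agent.HP89.measurable_ort.comp (measurable_const.prodMk (c_proj W)))

private theorem c_H (W : Submodule ℝ V) {Φ : V → V → ℝ} (hΦ : Measurable (Function.uncurry Φ)) :
    Measurable (fun p : V × V => Φ p.1 (nrm (ort (W.starProjection p.1) (W.starProjection p.2)))) :=
  hΦ.comp (measurable_fst.prodMk (c_y W))

private theorem c_avo (W : Submodule ℝ V) {Φ : V → V → ℝ} (hΦ : Measurable (Function.uncurry Φ)) :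
    Measurable (fun x => avo W x (Φ x)) := by
  have h := (c_H W hΦ).stronglyMeasurable.integral_prod_right' (ν := stdGaussian V)
  exact h.measurable

omit [BorelSpace V] in
private theorem c_avo_nonneg (W : Submodule ℝ V) {φ : V → ℝ} (h0 : ∀ x, 0 ≤ φ x) (x : V) : 0 ≤ avo W x φ :=
  integral_nonneg fun _ => h0 _

private theorem c_bint {f : V → ℝ} (hf : Measurable f) {C : ℝ} (hC : ∀ x, |f x| ≤ C) :
    Integrable f (stdGaussian V) :=
  Integrable.of_bound hf.aestronglyMeasurable C (Eventually.of_forall fun x => by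
    rw [Real.norm_eq_abs]
    exact hC x)

private theorem c_avo_le (W : Submodule ℝ V) {φ : V → ℝ} (hφ : Measurable φ) (h0 : ∀ x, 0 ≤ φ x) {C : ℝ} (hC : ∀ x, φ x ≤ C)
    (x : V) : avo W x φ ≤ C := by
  have hm : Measurable (fun g => φ (nrm (ort (W.starProjection x) (W.starProjection g)))) :=
    hφ.comp (c_y1 W x)
  have h1 : Integrable (fun g => φ (nrm (ort (W.starProjection x) (W.starProjection g)))) (stdGaussian V) :=
    c_bint hm (C := C) (fun g => by rw [abs_of_nonneg (h0 _)]; exact hC _)
  have h2 := integral_mono h1 (integrable_const C) (fun g => hC _)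
  simpa [avo] using h2

/-- the left side of `coi_eq` -/
private theorem c_lhs (E W : Submodule ℝ V) {Φ : V → V → ℝ} (hΦ : Measurable (Function.uncurry Φ)) (h0 : ∀ x y, 0 ≤ Φ x y)
    {C : ℝ} (hC : ∀ x y, Φ x y ≤ C) :
    ENNReal.ofReal (av E (fun x => ‖W.starProjection x‖ * avo W x (Φ x))) =
      ∫⁻ ξ, ENNReal.ofReal ‖W.starProjection (nrm (E.starProjection ξ))‖ *
        ∫⁻ g, ENNReal.ofReal (Φ (nrm (E.starProjection ξ))
          (nrm (ort (W.starProjection (nrm (E.starProjection ξ))) (W.starProjection g))))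
          ∂(stdGaussian V) ∂(stdGaussian V) := by
  have hC0 : 0 ≤ C := (h0 0 0).trans (hC 0 0)
  have hm : Measurable (fun x => ‖W.starProjection x‖ * avo W x (Φ x)) :=
    (c_proj W).norm.mul (c_avo W hΦ)
  have hΦx : ∀ x, Measurable (Φ x) := fun x => hΦ.comp (measurable_const.prodMk measurable_id)
  have hb : ∀ ξ : V, ‖W.starProjection (nrm (E.starProjection ξ))‖ *
      avo W (nrm (E.starProjection ξ)) (Φ (nrm (E.starProjection ξ))) ≤ C := by
    intro ξ
    have h1 : ‖W.starProjection (nrm (E.starProjection ξ))‖ ≤ 1 :=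
      (Submodule.norm_starProjection_apply_le _ _).trans (norm_nrm_le _)
    have h2 := c_avo_le W (hΦx (nrm (E.starProjection ξ))) (h0 _) (hC _) (nrm (E.starProjection ξ))
    have h3 := c_avo_nonneg W (h0 (nrm (E.starProjection ξ))) (nrm (E.starProjection ξ))
    calc _ ≤ 1 * avo W (nrm (E.starProjection ξ)) (Φ (nrm (E.starProjection ξ))) :=
          mul_le_mul_of_nonneg_right h1 h3
      _ ≤ C := by rw [one_mul]; exact h2
  have hm' : Measurable (fun ξ : V => ‖W.starProjection (nrm (E.starProjection ξ))‖ *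
      avo W (nrm (E.starProjection ξ)) (Φ (nrm (E.starProjection ξ)))) := hm.comp (c_x E)
  have e1 := c_oi hm' (fun ξ => mul_nonneg (norm_nonneg _) (c_avo_nonneg W (h0 _) _)) hb
  have e2 : av E (fun x => ‖W.starProjection x‖ * avo W x (Φ x)) =
      ∫ ξ, ‖W.starProjection (nrm (E.starProjection ξ))‖ *
        avo W (nrm (E.starProjection ξ)) (Φ (nrm (E.starProjection ξ))) ∂(stdGaussian V) := rfl
  rw [e2, e1]
  apply lintegral_congr
  intro ξ
  have e3 : ENNReal.ofReal (avo W (nrm (E.starProjection ξ)) (Φ (nrm (E.starProjection ξ)))) =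
      ∫⁻ g, ENNReal.ofReal (Φ (nrm (E.starProjection ξ))
          (nrm (ort (W.starProjection (nrm (E.starProjection ξ))) (W.starProjection g)))) ∂(stdGaussian V) :=
    c_oi ((hΦx (nrm (E.starProjection ξ))).comp (c_y1 W (nrm (E.starProjection ξ)))) (fun g => h0 _ _) (fun g => hC _ _)
  rw [ENNReal.ofReal_mul (norm_nonneg _), e3]

private theorem c_mG {k : ℕ} (hk : 2 ≤ k) : (k : ℝ) - 1 ≤ mG k ^ 2 := by
  obtain ⟨n, rfl⟩ : ∃ n, k = n + 1 := ⟨k - 1, by omega⟩
  have h1 := mG_mul n
  have h2 := mG_le_succ n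
  have h3 := mG_nonneg (n + 1)
  push_cast
  nlinarith

/-- the inner integral on the right side of `coi_eq` -/
private theorem c_inner (E W : Submodule ℝ V) {ψ : V → ℝ} (hψ : Measurable ψ) (h0 : ∀ x, 0 ≤ ψ x) {C : ℝ}
    (hC : ∀ x, ψ x ≤ C) (y : V) :
    ∫⁻ ξ, ENNReal.ofReal (‖W.starProjection (nrm (ort (E.starProjection y) (E.starProjection ξ)))‖ ^ 2) *
        ENNReal.ofReal (ψ (nrm (ort (E.starProjection y) (E.starProjection ξ)))) ∂(stdGaussian V) =
      ENNReal.ofReal (avo E y (fun x => ‖W.starProjection x‖ ^ 2 * ψ x)) := by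
  have hC0 : 0 ≤ C := (h0 0).trans (hC 0)
  have hn := c_y1 E y
  have h1 : Measurable (fun x : V => ‖W.starProjection x‖ ^ 2 * ψ x) := (c_sq W).mul hψ
  have h2 : Measurable (fun ξ : V => ‖W.starProjection (nrm (ort (E.starProjection y) (E.starProjection ξ)))‖ ^ 2 *
      ψ (nrm (ort (E.starProjection y) (E.starProjection ξ)))) := h1.comp hn
  have h3 : ∀ ξ : V, ‖W.starProjection (nrm (ort (E.starProjection y) (E.starProjection ξ)))‖ ^ 2 *
      ψ (nrm (ort (E.starProjection y) (E.starProjection ξ))) ≤ C := by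
    intro ξ
    have h1 : ‖W.starProjection (nrm (ort (E.starProjection y) (E.starProjection ξ)))‖ ≤ 1 :=
      (Submodule.norm_starProjection_apply_le _ _).trans (norm_nrm_le _)
    have h2 : ‖W.starProjection (nrm (ort (E.starProjection y) (E.starProjection ξ)))‖ ^ 2 ≤ 1 :=
      pow_le_one₀ (norm_nonneg _) h1
    exact (mul_le_of_le_one_left (h0 _) h2).trans (hC _)
  have e1 := c_oi h2 (fun ξ => mul_nonneg (by positivity) (h0 _)) h3
  have e2 : avo E y (fun x => ‖W.starProjection x‖ ^ 2 * ψ x) =
      ∫ ξ, ‖W.starProjection (nrm (ort (E.starProjection y) (E.starProjection ξ)))‖ ^ 2 *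
      ψ (nrm (ort (E.starProjection y) (E.starProjection ξ))) ∂(stdGaussian V) := rfl
  rw [e2, e1]
  apply lintegral_congr
  intro ξ
  rw [ENNReal.ofReal_mul (by positivity)]

theorem coi_upper (E W : Submodule ℝ V) {k : ℕ} (hE : Module.finrank ℝ E = k) (hW : Module.finrank ℝ W = k + 1)
    (hk : 2 ≤ k) (h : 1 < tt E W) {Φ : V → V → ℝ} (hΦ : Measurable (Function.uncurry Φ)) (h0 : ∀ x y, 0 ≤ Φ x y) {C : ℝ}
    (hC : ∀ x y, Φ x y ≤ C) {c : ℝ} (hc : 0 < c) :
    av E (fun x => ‖W.starProjection x‖ *
        avo W x ({y | c ≤ ‖E.starProjection y‖ ^ 2}.indicator (fun y => Φ x y))) ≤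
      (√c)⁻¹ * av W ({y | c ≤ ‖E.starProjection y‖ ^ 2}.indicator
        (fun y => avo E y (fun x => ‖W.starProjection x‖ ^ 2 * Φ x y))) := by
  have hC0 : 0 ≤ C := (h0 0 0).trans (hC 0 0)
  set S : Set V := {y | c ≤ ‖E.starProjection y‖ ^ 2} with hS
  have hSm : MeasurableSet S := measurableSet_le measurable_const (c_sq E)
  set Ψ : V → V → ℝ := fun x => S.indicator (fun y => Φ x y) with hΨ
  have hΨ0 : ∀ x y, 0 ≤ Ψ x y := fun x y => indicator_nonneg (fun y _ => h0 x y) y
  have hΨC : ∀ x y, Ψ x y ≤ C := by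
    intro x y
    simp only [hΨ]
    by_cases hy : y ∈ S
    · rw [indicator_of_mem hy]
      exact hC x y
    · rw [indicator_of_notMem hy]
      exact hC0
  have hΨm : Measurable (Function.uncurry Ψ) := by
    have h1 : Function.uncurry Ψ = (Prod.snd ⁻¹' S).indicator (Function.uncurry Φ) := by
      funext p
      by_cases hy : p.2 ∈ S
      · have h2 : p ∈ Prod.snd ⁻¹' S := hy
        rw [indicator_of_mem h2]
        simp only [Function.uncurry, hΨ]
        rw [indicator_of_mem hy]
      · have h2 : p ∉ Prod.snd ⁻¹' S := hy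
        rw [indicator_of_notMem h2]
        simp only [Function.uncurry, hΨ]
        rw [indicator_of_notMem hy]
    rw [h1]
    exact hΦ.indicator (measurable_snd hSm)
  set L := av E (fun x => ‖W.starProjection x‖ * avo W x (Ψ x)) with hL
  set R := av W (S.indicator (fun y => avo E y (fun x => ‖W.starProjection x‖ ^ 2 * Φ x y))) with hR
  have hL0 : 0 ≤ L := integral_nonneg fun ξ => mul_nonneg (norm_nonneg _) (c_avo_nonneg W (hΨ0 _) _)
  have hR1 : ∀ y, 0 ≤ S.indicator (fun y => avo E y (fun x => ‖W.starProjection x‖ ^ 2 * Φ x y)) y := fun y =>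
    indicator_nonneg (fun y _ => c_avo_nonneg E (fun x => mul_nonneg (by positivity) (h0 x y)) y) y
  have hR0 : 0 ≤ R := integral_nonneg fun ξ => hR1 _
  have hΦy : ∀ y, Measurable (fun x => Φ x y) := fun y => hΦ.comp (measurable_id.prodMk measurable_const)
  have hvm : Measurable (fun y => avo E y (fun x => ‖W.starProjection x‖ ^ 2 * Φ x y)) := by
    have h2 : Measurable (fun p : V × V => ‖W.starProjection p.2‖ ^ 2) := (c_sq W).comp measurable_snd
    have h3 : Measurable (fun p : V × V => Φ p.2 p.1) := hΦ.comp measurable_swap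
    have h1 : Measurable (fun p : V × V => ‖W.starProjection p.2‖ ^ 2 * Φ p.2 p.1) := h2.mul h3
    exact c_avo E (Φ := fun y x => ‖W.starProjection x‖ ^ 2 * Φ x y) h1
  have hvle : ∀ y, avo E y (fun x => ‖W.starProjection x‖ ^ 2 * Φ x y) ≤ C := by
    intro y
    have e : avo E y (fun x => ‖W.starProjection x‖ ^ 2 * Φ x y) ≤ avo E y (fun x => Φ x y) := by
      unfold avo
      have hn := c_y1 E y
      have hb : ∀ ξ, ‖W.starProjection (nrm (ort (E.starProjection y) (E.starProjection ξ)))‖ ^ 2 *
          Φ (nrm (ort (E.starProjection y) (E.starProjection ξ))) y ≤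
          Φ (nrm (ort (E.starProjection y) (E.starProjection ξ))) y := by
        intro ξ
        have h2 : ‖W.starProjection (nrm (ort (E.starProjection y) (E.starProjection ξ)))‖ ^ 2 ≤ 1 :=
          pow_le_one₀ (norm_nonneg _) ((Submodule.norm_starProjection_apply_le _ _).trans (norm_nrm_le _))
        exact mul_le_of_le_one_left (h0 _ _) h2
      have hm1 : Measurable (fun x : V => ‖W.starProjection x‖ ^ 2 * Φ x y) := (c_sq W).mul (hΦy y)
      have hm2 : Measurable (fun ξ : V => ‖W.starProjection (nrm (ort (E.starProjection y) (E.starProjection ξ)))‖ ^ 2 *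
          Φ (nrm (ort (E.starProjection y) (E.starProjection ξ))) y) := hm1.comp hn
      have hm3 : Measurable (fun ξ : V => Φ (nrm (ort (E.starProjection y) (E.starProjection ξ))) y) :=
        (hΦy y).comp hn
      have hi2 := c_bint hm2 (C := C) (fun ξ => by
        rw [abs_of_nonneg (mul_nonneg (by positivity) (h0 _ _))]
        exact (hb ξ).trans (hC _ _))
      have hi3 := c_bint hm3 (C := C) (fun ξ => by
        rw [abs_of_nonneg (h0 _ _)]
        exact hC _ _)
      exact integral_mono hi2 hi3 hb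
    exact e.trans (c_avo_le E (hΦy y) (fun x => h0 x y) (fun x => hC x y) y)
  -- the identity
  have hid := coi_eq E W hE hW hk h (Φ := fun x y => ENNReal.ofReal (Ψ x y)) (ENNReal.measurable_ofReal.comp hΨm)
  rw [← c_lhs E W hΨm hΨ0 hΨC, ← hL] at hid
  have hk1 : (0 : ℝ) < (k : ℝ) - 1 := by
    have : (2 : ℝ) ≤ k := by exact_mod_cast hk
    linarith
  have hsc : 0 < √c := Real.sqrt_pos.2 hc
  have hup : ∫⁻ g, ni (E.starProjection (nrm (W.starProjection g))) *
        ∫⁻ ξ, ENNReal.ofReal (‖W.starProjection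
            (nrm (ort (E.starProjection (nrm (W.starProjection g))) (E.starProjection ξ)))‖ ^ 2) *
          ENNReal.ofReal (Ψ (nrm (ort (E.starProjection (nrm (W.starProjection g))) (E.starProjection ξ)))
            (nrm (W.starProjection g))) ∂(stdGaussian V) ∂(stdGaussian V) ≤
      ENNReal.ofReal ((√c)⁻¹ * R) := by
    have hrm : Measurable (fun g : V => S.indicator (fun y => avo E y (fun x => ‖W.starProjection x‖ ^ 2 * Φ x y))
        (nrm (W.starProjection g))) := (hvm.indicator hSm).comp (c_x W)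
    have hrb : ∀ g : V, S.indicator (fun y => avo E y (fun x => ‖W.starProjection x‖ ^ 2 * Φ x y))
        (nrm (W.starProjection g)) ≤ C := by
      intro g
      by_cases hyS : nrm (W.starProjection g) ∈ S
      · rw [indicator_of_mem hyS]
        exact hvle _
      · rw [indicator_of_notMem hyS]
        exact hC0
    have hre := c_oi hrm (fun g => hR1 _) hrb
    have hRe : R = ∫ g, S.indicator (fun y => avo E y (fun x => ‖W.starProjection x‖ ^ 2 * Φ x y))
        (nrm (W.starProjection g)) ∂(stdGaussian V) := rfl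
    rw [ENNReal.ofReal_mul (by positivity), hRe, hre, ← lintegral_const_mul' _ _ ENNReal.ofReal_ne_top]
    apply lintegral_mono
    intro g
    simp only
    set y := nrm (W.starProjection g) with hy
    by_cases hyS : y ∈ S
    · rw [indicator_of_mem hyS]
      have e1 : ∀ x, Ψ x y = Φ x y := fun x => indicator_of_mem hyS _
      simp_rw [e1]
      rw [c_inner E W (hΦy y) (fun x => h0 x y) (fun x => hC x y) y]
      gcongr
      unfold ni
      apply ENNReal.ofReal_le_ofReal
      apply inv_anti₀ hsc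
      have h3 : c ≤ ‖E.starProjection y‖ ^ 2 := hyS
      calc √c ≤ √(‖E.starProjection y‖ ^ 2) := Real.sqrt_le_sqrt h3
        _ = _ := Real.sqrt_sq (norm_nonneg _)
    · have e1 : ∀ x, Ψ x y = 0 := fun x => indicator_of_notMem hyS _
      simp_rw [e1]
      simp
  have h4 : ENNReal.ofReal (mG k ^ 2 * L) ≤ ENNReal.ofReal (((k : ℝ) - 1) * ((√c)⁻¹ * R)) := by
    rw [ENNReal.ofReal_mul (by positivity), hid, ENNReal.ofReal_mul hk1.le]
    gcongr
  have h5 : mG k ^ 2 * L ≤ ((k : ℝ) - 1) * ((√c)⁻¹ * R) := by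
    rwa [ENNReal.ofReal_le_ofReal_iff (by positivity)] at h4
  have h6 : ((k : ℝ) - 1) * L ≤ ((k : ℝ) - 1) * ((√c)⁻¹ * R) :=
    (mul_le_mul_of_nonneg_right (c_mG hk) hL0).trans h5
  exact le_of_mul_le_mul_left h6 hk1

private theorem c_tangent {a b : ℝ} (ha : 0 < a) (hb : 0 < b) : (3 / 2 - a ^ 2 / (2 * b)) / √b ≤ a⁻¹ := by
  have hs : 0 < √b := Real.sqrt_pos.2 hb
  have hsq : √b ^ 2 = b := Real.sq_sqrt hb.le
  set s := √b with hs'
  rw [← hsq, div_le_iff₀ hs]
  have h1 : a⁻¹ * s - (3 / 2 - a ^ 2 / (2 * s ^ 2)) = (a - s) ^ 2 * (a + 2 * s) / (2 * s ^ 2 * a) := by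
    field_simp
    ring
  have h2 : 0 ≤ (a - s) ^ 2 * (a + 2 * s) / (2 * s ^ 2 * a) := by positivity
  linarith

theorem coi_lower (E W : Submodule ℝ V) {k : ℕ} (hE : Module.finrank ℝ E = k) (hW : Module.finrank ℝ W = k + 1)
    (hk : 2 ≤ k) {φ : V → ℝ} (hφ : Measurable φ) (h0 : ∀ y, 0 ≤ φ y) {C : ℝ} (hC : ∀ y, φ y ≤ C) {b : ℝ} (hb : 0 < b) :
    (tt E W - 1) * av W (fun y => (3 / 2 - ‖E.starProjection y‖ ^ 2 / (2 * b)) / √b * φ y) -
        (if tt E W ≤ 1 then 1 else 0) * (1 / (2 * b * √b)) * av W φ ≤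
      k * av E (fun x => ‖W.starProjection x‖ * avo W x φ) := by
  have hC0 : 0 ≤ C := (h0 0).trans (hC 0)
  have hsb : 0 < √b := Real.sqrt_pos.2 hb
  set L := av E (fun x => ‖W.starProjection x‖ * avo W x φ) with hL
  have hL0 : 0 ≤ L := integral_nonneg fun ξ => mul_nonneg (norm_nonneg _) (c_avo_nonneg W h0 _)
  have hφm : Measurable (fun g => φ (nrm (W.starProjection g))) := hφ.comp (c_x W)
  have hφi : Integrable (fun g => φ (nrm (W.starProjection g))) (stdGaussian V) :=
    c_bint hφm (C := C) (fun g => by rw [abs_of_nonneg (h0 _)]; exact hC _)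
  have hEle : ∀ g, ‖E.starProjection (nrm (W.starProjection g))‖ ^ 2 ≤ 1 := fun g =>
    pow_le_one₀ (norm_nonneg _) ((Submodule.norm_starProjection_apply_le _ _).trans (norm_nrm_le _))
  have hGm : Measurable (fun g => (3 / 2 - ‖E.starProjection (nrm (W.starProjection g))‖ ^ 2 / (2 * b)) / √b *
      φ (nrm (W.starProjection g))) := by
    have h1 : Measurable (fun g => ‖E.starProjection (nrm (W.starProjection g))‖ ^ 2) :=
      (c_sq E).comp (c_x W)
    exact ((measurable_const.sub (h1.div_const _)).div_const _).mul hφm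
  have hGi : Integrable (fun g => (3 / 2 - ‖E.starProjection (nrm (W.starProjection g))‖ ^ 2 / (2 * b)) / √b *
      φ (nrm (W.starProjection g))) (stdGaussian V) := by
    refine c_bint hGm (C := (3 / 2 + 1 / (2 * b)) / √b * C) (fun g => ?_)
    rw [abs_mul, abs_of_nonneg (h0 _)]
    apply mul_le_mul _ (hC _) (h0 _) (by positivity)
    rw [abs_div, abs_of_pos hsb]
    apply div_le_div_of_nonneg_right _ hsb.le
    have h1 : 0 ≤ ‖E.starProjection (nrm (W.starProjection g))‖ ^ 2 / (2 * b) := by positivity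
    have h2 : ‖E.starProjection (nrm (W.starProjection g))‖ ^ 2 / (2 * b) ≤ 1 / (2 * b) :=
      div_le_div_of_nonneg_right (hEle g) (by positivity)
    rw [abs_le]
    constructor <;> linarith
  split_ifs with ht
  · -- the trivial case
    have hk0 : (0 : ℝ) ≤ k := Nat.cast_nonneg k
    refine le_trans ?_ (mul_nonneg hk0 hL0)
    have ht0 := tt_nonneg E W
    have h1 : (tt E W - 1) * av W (fun y => (3 / 2 - ‖E.starProjection y‖ ^ 2 / (2 * b)) / √b * φ y) ≤
        1 / (2 * b * √b) * av W φ := by
      unfold av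
      rw [← integral_const_mul, ← integral_const_mul]
      refine integral_mono (hGi.const_mul _) (hφi.const_mul _) (fun g => ?_)
      simp only
      have h2 := hEle g
      have h3 := h0 (nrm (W.starProjection g))
      set a := ‖E.starProjection (nrm (W.starProjection g))‖ ^ 2 with ha
      set p := φ (nrm (W.starProjection g)) with hp
      have h4 : (tt E W - 1) * ((3 / 2 - a / (2 * b)) / √b) ≤ 1 / (2 * b * √b) := by
        have h5 : (tt E W - 1) * ((3 / 2 - a / (2 * b)) / √b) = (1 - tt E W) * (a - 3 * b) / (2 * b * √b) := by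
          field_simp
          ring
        rw [h5]
        apply div_le_div_of_nonneg_right _ (by positivity)
        nlinarith
      calc (tt E W - 1) * ((3 / 2 - a / (2 * b)) / √b * p) = (tt E W - 1) * ((3 / 2 - a / (2 * b)) / √b) * p := by ring
        _ ≤ _ := mul_le_mul_of_nonneg_right h4 h3
    linarith
  · push Not at ht
    rw [zero_mul, zero_mul, sub_zero]
    have hΦ : Measurable (Function.uncurry fun (_ : V) (y : V) => φ y) := hφ.comp measurable_snd
    have hid := coi_eq E W hE hW hk ht (Φ := fun _ y => ENNReal.ofReal (φ y)) (ENNReal.measurable_ofReal.comp hΦ)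
    have hl := c_lhs E W hΦ (fun _ y => h0 y) (fun _ y => hC y)
    rw [← hl] at hid
    have hk1 : (0 : ℝ) < (k : ℝ) - 1 := by
      have : (2 : ℝ) ≤ k := by exact_mod_cast hk
      linarith
    set T := (tt E W - 1) * av W (fun y => (3 / 2 - ‖E.starProjection y‖ ^ 2 / (2 * b)) / √b * φ y) with hT
    have hae := ae_ne W E (by rw [← tt_comm]; exact ht)
    -- lower bound of the right side
    have hlow : ∫⁻ g, ENNReal.ofReal ((tt E W - 1) * ((3 / 2 - ‖E.starProjection (nrm (W.starProjection g))‖ ^ 2 / (2 * b)) / √b *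
        φ (nrm (W.starProjection g)))) ∂(stdGaussian V) ≤ ENNReal.ofReal (mG k ^ 2 * L) := by
      rw [ENNReal.ofReal_mul (by positivity), hid, ← lintegral_const_mul' _ _ ENNReal.ofReal_ne_top]
      apply lintegral_mono_ae
      filter_upwards [hae] with g hg
      have hWg : W.starProjection g ≠ 0 := by
        intro h
        rw [h] at hg
        exact hg (map_zero _)
      have hWn : 0 < ‖W.starProjection g‖ := norm_pos_iff.2 hWg
      set y := nrm (W.starProjection g) with hy
      have hPy : E.starProjection y ≠ 0 := by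
        rw [hy, nrm, map_smul]
        exact smul_ne_zero (inv_ne_zero hWn.ne') hg
      have hPn : 0 < ‖E.starProjection y‖ := norm_pos_iff.2 hPy
      have e1 : ∫⁻ ξ, ENNReal.ofReal (‖W.starProjection
            (nrm (ort (E.starProjection y) (E.starProjection ξ)))‖ ^ 2) * ENNReal.ofReal (φ y) ∂(stdGaussian V) =
          ENNReal.ofReal (avo E y (fun x => ‖W.starProjection x‖ ^ 2) * φ y) := by
        have h1 := c_inner E W (ψ := fun _ => φ y) measurable_const (fun _ => h0 y) (fun _ => hC y) y
        rw [h1]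
        congr 1
        unfold avo
        rw [← integral_mul_const]
      rw [e1]
      unfold ni
      rw [← ENNReal.ofReal_mul (by positivity), ← ENNReal.ofReal_mul hk1.le]
      apply ENNReal.ofReal_le_ofReal
      have hfr := finrank_sb (W := E) (x := y) hPy
      have hav := av_proj (sb E y) W (by omega)
      have hfr' : ((Module.finrank ℝ (sb E y) : ℕ) : ℝ) = (k : ℝ) - 1 := by
        have : Module.finrank ℝ (sb E y) + 1 = k := by rw [hfr, hE]
        have h2 : ((Module.finrank ℝ (sb E y) : ℕ) : ℝ) + 1 = k := by exact_mod_cast this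
        linarith
      have htt : tt E W - 1 ≤ tt (sb E y) W := by
        have := (tt_sb W E y).1
        rw [tt_comm E W, tt_comm (sb E y) W]
        exact this
      rw [hfr', ← avo_eq] at hav
      have h3 := c_tangent hPn hb
      have h4 : 0 ≤ (tt E W - 1) * φ y := mul_nonneg (by linarith) (h0 y)
      have h5 : (tt E W - 1) * ((3 / 2 - ‖E.starProjection y‖ ^ 2 / (2 * b)) / √b * φ y) ≤
          ‖E.starProjection y‖⁻¹ * ((tt E W - 1) * φ y) := by
        calc _ = (3 / 2 - ‖E.starProjection y‖ ^ 2 / (2 * b)) / √b * ((tt E W - 1) * φ y) := by ring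
          _ ≤ _ := mul_le_mul_of_nonneg_right h3 h4
      refine h5.trans ?_
      have h6 : (tt E W - 1) * φ y ≤ (((k : ℝ) - 1) * avo E y (fun x => ‖W.starProjection x‖ ^ 2)) * φ y := by
        rw [hav]
        exact mul_le_mul_of_nonneg_right htt (h0 y)
      calc ‖E.starProjection y‖⁻¹ * ((tt E W - 1) * φ y) ≤
          ‖E.starProjection y‖⁻¹ * ((((k : ℝ) - 1) * avo E y (fun x => ‖W.starProjection x‖ ^ 2)) * φ y) :=
            mul_le_mul_of_nonneg_left h6 (by positivity)
        _ = _ := by ring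
    have hTi : T = ∫ g, (tt E W - 1) * ((3 / 2 - ‖E.starProjection (nrm (W.starProjection g))‖ ^ 2 / (2 * b)) / √b *
        φ (nrm (W.starProjection g))) ∂(stdGaussian V) := by
      rw [hT, integral_const_mul]
      rfl
    have h7 : T ≤ mG k ^ 2 * L := by
      rw [hTi, integral_eq_lintegral_pos_part_sub_lintegral_neg_part (hGi.const_mul _)]
      have h8 := ENNReal.toReal_mono ENNReal.ofReal_ne_top hlow
      rw [ENNReal.toReal_ofReal (by positivity)] at h8
      have h9 : 0 ≤ (∫⁻ g, ENNReal.ofReal (-((tt E W - 1) * ((3 / 2 - ‖E.starProjection (nrm (W.starProjection g))‖ ^ 2 / (2 * b)) / √b *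
        φ (nrm (W.starProjection g))))) ∂(stdGaussian V)).toReal := ENNReal.toReal_nonneg
      linarith
    exact h7.trans (mul_le_mul_of_nonneg_right (mG_sq_le k) hL0)

end Pool.Agent.PBL
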