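import Pool.Agent.PBL.Defs

/-! Module PBL-Num: numerical inequalities for the parameters. -/

set_option autoImplicit false

namespace Pool.Agent.PBL
open MeasureTheory ProbabilityTheory Set Filter Topology Metric
open Pool.Agent.HP89 Pool.Agent.FI75
open scoped RealInnerProductSpace ENNReal

theorem Par.d_pos {d j : ℕ} {M : ℝ} (h : Par d j M) : (0 : ℝ) < d := by
  have h1 : 0 < d := lt_of_le_of_lt (Nat.zero_le j) h.hjd
  exact_mod_cast h1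

theorem Par.k_pos {d j : ℕ} {M : ℝ} (h : Par d j M) : (0 : ℝ) < (d : ℝ) - j := by
  have h1 : (j : ℝ) < (d : ℝ) := by
    exact_mod_cast h.hjd
  linarith

private theorem yfacts {d j : ℕ} {M : ℝ} (h : Par d j M) :
    √(√(d : ℝ)) ^ 2 = √(d : ℝ) ∧ √(√(d : ℝ)) ^ 4 = (d : ℝ) ∧ 10 ^ 10 * M ^ 5 ≤ √(√(d : ℝ)) := by
  have hM : 1 ≤ M := h.one
  have h1 : √(√(d : ℝ)) ^ 2 = √(d : ℝ) := Real.sq_sqrt (Real.sqrt_nonneg _)
  have h2 : √(d : ℝ) ^ 2 = (d : ℝ) := Real.sq_sqrt (Nat.cast_nonneg d)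
  refine ⟨h1, ?_, ?_⟩
  · calc √(√(d : ℝ)) ^ 4 = (√(√(d : ℝ)) ^ 2) ^ 2 := by ring
      _ = (d : ℝ) := by rw [h1, h2]
  · refine Real.le_sqrt_of_sq_le ?_
    calc (10 ^ 10 * M ^ 5) ^ 2 = 10 ^ 20 * M ^ 10 := by ring
      _ ≤ √(d : ℝ) := h.big

theorem pz_small {d j : ℕ} {M : ℝ} (h : Par d j M) : 6 * Real.exp (-√(√(d : ℝ))) ≤ pz d / 8 := by
  obtain ⟨-, h4, h5⟩ := yfacts h
  have hM : 1 ≤ M := h.one
  obtain ⟨y, hy⟩ : ∃ y, y = √(√(d : ℝ)) := ⟨_, rfl⟩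
  rw [← hy] at h4 h5 ⊢
  have hM5 : 1 ≤ M ^ 5 := one_le_pow₀ hM
  have hy1 : (10 : ℝ) ^ 10 ≤ y := by
    refine le_trans ?_ h5
    exact le_mul_of_one_le_right (by positivity) hM5
  have hy0 : 0 < y := lt_of_lt_of_le (by positivity) hy1
  have h6 : y ^ 60 / (Nat.factorial 60 : ℝ) ≤ Real.exp y := Real.pow_div_factorial_le_exp y hy0.le 60
  have h7 : 48 * y ^ 40 ≤ Real.exp y := by
    refine le_trans ?_ h6
    have h8 : (48 : ℝ) * (Nat.factorial 60 : ℝ) ≤ ((10 : ℝ) ^ 10) ^ 20 := by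
      norm_num [Nat.factorial]
    have h9 : ((10 : ℝ) ^ 10) ^ 20 ≤ y ^ 20 := pow_le_pow_left₀ (by positivity) hy1 20
    rw [le_div_iff₀ (by positivity)]
    calc 48 * y ^ 40 * (Nat.factorial 60 : ℝ) = (48 * (Nat.factorial 60 : ℝ)) * y ^ 40 := by ring
      _ ≤ y ^ 20 * y ^ 40 := mul_le_mul_of_nonneg_right (h8.trans h9) (by positivity)
      _ = y ^ 60 := by ring
  have h10 : pz d = (y ^ 40)⁻¹ := by
    unfold pz
    rw [← h4]
    congr 1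
    ring
  rw [h10, Real.exp_neg]
  have h11 : (Real.exp y)⁻¹ ≤ (48 * y ^ 40)⁻¹ := inv_anti₀ (by positivity) h7
  calc 6 * (Real.exp y)⁻¹ ≤ 6 * (48 * y ^ 40)⁻¹ := mul_le_mul_of_nonneg_left h11 (by norm_num)
    _ = (y ^ 40)⁻¹ / 8 := by
        rw [mul_inv]
        ring

theorem num1 {d j : ℕ} {M : ℝ} (h : Par d j M) {t : ℝ} (ht : (d : ℝ) ≤ 200 * M ^ 4 * t) :
    6 * Real.exp (-t / √(2 * (d : ℝ))) ≤ pz d / 8 := by
  refine le_trans ?_ (pz_small h)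
  refine mul_le_mul_of_nonneg_left (Real.exp_le_exp.2 ?_) (by norm_num)
  obtain ⟨-, h4, h5⟩ := yfacts h
  have hM : 1 ≤ M := h.one
  obtain ⟨y, hy⟩ : ∃ y, y = √(√(d : ℝ)) := ⟨_, rfl⟩
  rw [← hy] at h4 h5 ⊢
  have hM4 : 0 < M ^ 4 := by positivity
  have hM45 : M ^ 4 ≤ M ^ 5 := pow_le_pow_right₀ hM (by norm_num)
  have hy0 : 0 < y := lt_of_lt_of_le (by positivity) h5
  have hd := h.d_pos
  have hs : 0 < √(2 * (d : ℝ)) := Real.sqrt_pos.2 (by positivity)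
  have hs2 : √(2 * (d : ℝ)) ≤ 2 * y ^ 2 := by
    refine Real.sqrt_le_iff.2 ⟨by positivity, ?_⟩
    calc 2 * (d : ℝ) ≤ 4 * (d : ℝ) := by linarith
      _ = (2 * y ^ 2) ^ 2 := by
          rw [← h4]
          ring
  have hy400 : 400 * M ^ 4 ≤ y := by
    refine le_trans ?_ h5
    have : (400 : ℝ) * M ^ 4 ≤ 10 ^ 10 * M ^ 4 := mul_le_mul_of_nonneg_right (by norm_num) hM4.le
    exact this.trans (mul_le_mul_of_nonneg_left hM45 (by positivity))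
  have ht2 : 2 * y ^ 3 ≤ t := by
    have h8 : 200 * M ^ 4 * (2 * y ^ 3) ≤ 200 * M ^ 4 * t := by
      refine le_trans ?_ ht
      calc 200 * M ^ 4 * (2 * y ^ 3) = (400 * M ^ 4) * y ^ 3 := by ring
        _ ≤ y * y ^ 3 := mul_le_mul_of_nonneg_right hy400 (by positivity)
        _ = y ^ 4 := by ring
        _ = (d : ℝ) := h4
    exact le_of_mul_le_mul_left h8 (by positivity)
  rw [div_le_iff₀ hs]
  have h9 : y * √(2 * (d : ℝ)) ≤ t := by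
    calc y * √(2 * (d : ℝ)) ≤ y * (2 * y ^ 2) := mul_le_mul_of_nonneg_left hs2 hy0.le
      _ = 2 * y ^ 3 := by ring
      _ ≤ t := ht2
  linarith

theorem num2 {d j : ℕ} {M : ℝ} (h : Par d j M) {t : ℝ} (ht0 : 0 ≤ t) (ht : 1 ≤ 200 * M ^ 3 * t) :
    2 * Real.exp (-((d : ℝ) - j) * t ^ 2 / 32) ≤ pz d / 8 := by
  refine le_trans ?_ (pz_small h)
  have hk := h.k_pos
  obtain ⟨-, h4, h5⟩ := yfacts h
  have hM : 1 ≤ M := h.one
  obtain ⟨y, hy⟩ : ∃ y, y = √(√(d : ℝ)) := ⟨_, rfl⟩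
  rw [← hy] at h4 h5 ⊢
  have hy0 : 0 < y := lt_of_lt_of_le (by positivity) h5
  have h6 : -((d : ℝ) - j) * t ^ 2 / 32 ≤ -y := by
    have h7 : 1 ≤ 40000 * M ^ 6 * t ^ 2 := by
      calc (1 : ℝ) = 1 ^ 2 := by norm_num
        _ ≤ (200 * M ^ 3 * t) ^ 2 := pow_le_pow_left₀ zero_le_one ht 2
        _ = 40000 * M ^ 6 * t ^ 2 := by ring
    have h8 : (d : ℝ) ≤ 40000 * M ^ 7 * (((d : ℝ) - j) * t ^ 2) := by
      calc (d : ℝ) ≤ M * ((d : ℝ) - j) := h.hM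
        _ = M * ((d : ℝ) - j) * 1 := by ring
        _ ≤ M * ((d : ℝ) - j) * (40000 * M ^ 6 * t ^ 2) :=
            mul_le_mul_of_nonneg_left h7 (mul_nonneg (by linarith) hk.le)
        _ = 40000 * M ^ 7 * (((d : ℝ) - j) * t ^ 2) := by ring
    have h9 : 1280000 * M ^ 7 ≤ y ^ 3 := by
      calc 1280000 * M ^ 7 ≤ 10 ^ 30 * M ^ 7 := mul_le_mul_of_nonneg_right (by norm_num) (by positivity)
        _ ≤ 10 ^ 30 * M ^ 15 :=
            mul_le_mul_of_nonneg_left (pow_le_pow_right₀ hM (by norm_num)) (by positivity)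
        _ = (10 ^ 10 * M ^ 5) ^ 3 := by ring
        _ ≤ y ^ 3 := pow_le_pow_left₀ (by positivity) h5 3
    have h10 : 40000 * M ^ 7 * (32 * y) ≤ 40000 * M ^ 7 * (((d : ℝ) - j) * t ^ 2) := by
      refine le_trans ?_ h8
      calc 40000 * M ^ 7 * (32 * y) = (1280000 * M ^ 7) * y := by ring
        _ ≤ y ^ 3 * y := mul_le_mul_of_nonneg_right h9 hy0.le
        _ = y ^ 4 := by ring
        _ = (d : ℝ) := h4
    have h11 : 32 * y ≤ ((d : ℝ) - j) * t ^ 2 := le_of_mul_le_mul_left h10 (by positivity)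
    rw [div_le_iff₀ (by norm_num)]
    linarith
  calc 2 * Real.exp (-((d : ℝ) - j) * t ^ 2 / 32) ≤ 2 * Real.exp (-y) :=
        mul_le_mul_of_nonneg_left (Real.exp_le_exp.2 h6) (by norm_num)
    _ ≤ 6 * Real.exp (-y) := mul_le_mul_of_nonneg_right (by norm_num) (Real.exp_pos _).le

end Pool.Agent.PBL
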