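import Pool.Agent.PBL.D1
import Pool.Agent.PBL.B3c
import Pool.Agent.PBL.C2
import Pool.Agent.PBL.Num

/-! Module PBL-D2: the measures `Nop j ρ` are nice: second and fourth moments from the uniform law on the spheres of the
complements, the variance and the tails of `‖P_W x‖²` from those on the spheres and from the concentration of the traces. -/

set_option autoImplicit false

namespace Pool.Agent.PBL
open MeasureTheory ProbabilityTheory Set Filter Topology Metric
open Pool.Agent.HP89 Pool.Agent.FI75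
open scoped RealInnerProductSpace ENNReal

variable {V : Type*} [NormedAddCommGroup V] [InnerProductSpace ℝ V] [FiniteDimensional ℝ V]
  [MeasurableSpace V] [BorelSpace V]

omit [MeasurableSpace V] [BorelSpace V] in
private theorem d2_fin {j : ℕ} {X : Fin j → V} (hX : wv X ≠ 0) :
    (Module.finrank ℝ (oc X) : ℝ) = (Module.finrank ℝ V : ℝ) - j := by
  have h1 := finrank_oc hX
  have h2 : (Module.finrank ℝ (oc X) : ℝ) + j = (Module.finrank ℝ V : ℝ) := by exact_mod_cast h1
  linarith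

private theorem d2_abs_av (E : Submodule ℝ V) {φ : V → ℝ} {C : ℝ} (hC : ∀ x, ‖x‖ ≤ 1 → |φ x| ≤ C) :
    |av E φ| ≤ C := by
  rw [av, ← Real.norm_eq_abs]
  refine (norm_integral_le_of_norm_le_const (C := C) (ae_of_all _ fun g => ?_)).trans ?_
  · rw [Real.norm_eq_abs]
    exact hC _ (norm_nrm_le _)
  · rw [probReal_univ, mul_one]

private theorem d2_meas_av {j : ℕ} {φ : V → ℝ} (hφ : Measurable φ) :
    Measurable (fun X : Fin j → V => av (oc X) φ) := by
  refine meas_av (f := fun X : Fin j → V => X) measurable_id (Φ := fun _ => φ) ?_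
  exact hφ.comp measurable_snd

omit [MeasurableSpace V] [BorelSpace V] in
private theorem d2_proj_le (W : Submodule ℝ V) {x : V} (hx : ‖x‖ ≤ 1) : ‖W.starProjection x‖ ^ 2 ≤ 1 :=
  pow_le_one₀ (norm_nonneg _) ((W.norm_starProjection_apply_le x).trans hx)

/-- decomposition of the variance. -/
private theorem d2_sq (E W : Submodule ℝ V) (hE : 1 ≤ Module.finrank ℝ E) (s : ℝ) :
    av E (fun x => (‖W.starProjection x‖ ^ 2 - s) ^ 2) =
      av E (fun x => (‖W.starProjection x‖ ^ 2 - tt E W / Module.finrank ℝ E) ^ 2) +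
        (tt E W / Module.finrank ℝ E - s) ^ 2 := by
  have hk : (0 : ℝ) < Module.finrank ℝ E := by exact_mod_cast hE
  have h1 : av E (fun x => ‖W.starProjection x‖ ^ 2) = tt E W / Module.finrank ℝ E := by
    rw [eq_div_iff hk.ne', mul_comm]
    exact av_proj E W hE
  obtain ⟨c, hc⟩ : ∃ c, c = tt E W / Module.finrank ℝ E := ⟨_, rfl⟩
  rw [← hc] at h1 ⊢
  have hmf : Measurable (fun g => ‖W.starProjection (nrm (E.starProjection g))‖ ^ 2) := by
    have : Measurable (fun g : V => nrm (E.starProjection g)) :=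
      measurable_nrm.comp E.starProjection.continuous.measurable
    exact ((W.starProjection.continuous.measurable.comp this).norm).pow_const 2
  have hb : ∀ g : V, 0 ≤ ‖W.starProjection (nrm (E.starProjection g))‖ ^ 2 ∧
      ‖W.starProjection (nrm (E.starProjection g))‖ ^ 2 ≤ 1 := fun g =>
    ⟨by positivity, d2_proj_le W (norm_nrm_le _)⟩
  have hif : Integrable (fun g => ‖W.starProjection (nrm (E.starProjection g))‖ ^ 2) (stdGaussian V) := by
    refine Integrable.of_bound (C := 1) hmf.aestronglyMeasurable (ae_of_all _ fun g => ?_)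
    rw [Real.norm_eq_abs, abs_of_nonneg (hb g).1]
    exact (hb g).2
  have hi2 : Integrable (fun g => (‖W.starProjection (nrm (E.starProjection g))‖ ^ 2 - c) ^ 2)
      (stdGaussian V) := by
    refine Integrable.of_bound (C := (1 + |c|) ^ 2) ((hmf.sub_const c).pow_const 2).aestronglyMeasurable
      (ae_of_all _ fun g => ?_)
    rw [Real.norm_eq_abs, abs_of_nonneg (by positivity), ← sq_abs]
    refine pow_le_pow_left₀ (abs_nonneg _) ((abs_sub _ _).trans ?_) 2
    rw [abs_of_nonneg (hb g).1]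
    linarith [(hb g).2]
  have h2 : av E (fun x => (‖W.starProjection x‖ ^ 2 - s) ^ 2) =
      ∫ g, ((‖W.starProjection (nrm (E.starProjection g))‖ ^ 2 - c) ^ 2 +
        (2 * (c - s) * ‖W.starProjection (nrm (E.starProjection g))‖ ^ 2 +
          ((c - s) ^ 2 - 2 * (c - s) * c))) ∂(stdGaussian V) := by
    unfold av
    congr 1
    funext g
    ring
  have hi3 : Integrable (fun g => 2 * (c - s) * ‖W.starProjection (nrm (E.starProjection g))‖ ^ 2)
      (stdGaussian V) := hif.const_mul _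
  have hi4 : Integrable (fun g => 2 * (c - s) * ‖W.starProjection (nrm (E.starProjection g))‖ ^ 2 +
      ((c - s) ^ 2 - 2 * (c - s) * c)) (stdGaussian V) := hi3.add (integrable_const _)
  rw [h2, integral_add hi2 hi4, integral_add hi3 (integrable_const _), integral_const_mul, integral_const]
  have h3 : ∫ g, ‖W.starProjection (nrm (E.starProjection g))‖ ^ 2 ∂(stdGaussian V) = c := h1
  rw [h3]
  simp only [probReal_univ, smul_eq_mul, one_mul]
  unfold av
  ring

private theorem d2_n1 {j : ℕ} {M : ℝ} (hP : Par (Module.finrank ℝ V) j M) {ρ : Measure V} (hρ : US ρ) (hj : 0 < en j ρ)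
    (u : V) : ((Module.finrank ℝ V : ℝ) - j) * ∫ x, ⟪x, u⟫ ^ 2 ∂(Nop j ρ) ≤ ‖u‖ ^ 2 := by
  have h1 := nop_inner hρ hj hP.hjd u u
  have h2 : ∀ X : Fin j → V, ⟪rv X u, u⟫ = ‖rv X u‖ ^ 2 := by
    intro X
    rw [rv_eq, ← real_inner_self_eq_norm_sq]
    have := (oc X).inner_starProjection_left_eq_right ((oc X).starProjection u) u
    rw [← this]
    congr 1
    exact ((oc X).starProjection_eq_self_iff.2 ((oc X).starProjection_apply_mem u)).symm
  have h3 : ∀ X : Fin j → V, ‖rv X u‖ ^ 2 ≤ ‖u‖ ^ 2 := by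
    intro X
    rw [rv_eq]
    exact pow_le_pow_left₀ (norm_nonneg _) ((oc X).norm_starProjection_apply_le u) 2
  have hm : Measurable (fun X : Fin j → V => ‖rv X u‖ ^ 2) :=
    ((meas_rv.comp (measurable_id.prodMk measurable_const)).norm).pow_const 2
  simp only [h2] at h1
  have h4 : iw j ρ (fun X => ‖rv X u‖ ^ 2) ≤ iw j ρ (fun _ => ‖u‖ ^ 2) := by
    refine iw_mono hρ hm measurable_const (C := ‖u‖ ^ 2) (fun X => ?_) (fun X => ?_) fun X _ _ => h3 X
    · rw [abs_of_nonneg (by positivity)]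
      exact h3 X
    · rw [abs_of_nonneg (by positivity)]
  rw [iw_const, ← h1] at h4
  have h5 : ∫ x, ⟪x, u⟫ ^ 2 ∂(Nop j ρ) = ∫ x, ⟪x, u⟫ * ⟪x, u⟫ ∂(Nop j ρ) := by
    congr 1
    funext x
    ring
  rw [h5]
  refine le_of_mul_le_mul_right ?_ hj
  calc ((Module.finrank ℝ V : ℝ) - j) * (∫ x, ⟪x, u⟫ * ⟪x, u⟫ ∂(Nop j ρ)) * en j ρ
      = ((Module.finrank ℝ V : ℝ) - j) * en j ρ * ∫ x, ⟪x, u⟫ * ⟪x, u⟫ ∂(Nop j ρ) := by ring
    _ ≤ ‖u‖ ^ 2 * en j ρ := h4

private theorem d2_n2 {j : ℕ} {M : ℝ} (hP : Par (Module.finrank ℝ V) j M) {ρ : Measure V} (hρ : US ρ) (hj : 0 < en j ρ)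
    (u : V) : ((Module.finrank ℝ V : ℝ) - j) ^ 2 * ∫ x, ⟪x, u⟫ ^ 4 ∂(Nop j ρ) ≤ 3 * ‖u‖ ^ 4 := by
  have hk := hP.k_pos
  have hm : Measurable (fun x : V => ⟪x, u⟫ ^ 4) := by fun_prop
  have hb : ∀ x : V, ‖x‖ ≤ 1 → |⟪x, u⟫ ^ 4| ≤ ‖u‖ ^ 4 := by
    intro x hx
    rw [abs_pow]
    refine pow_le_pow_left₀ (abs_nonneg _) ?_ 4
    refine (abs_real_inner_le_norm _ _).trans ?_
    exact mul_le_of_le_one_left (norm_nonneg _) hx
  have h1 := nop_int hρ hj hm hb
  have h2 : iw j ρ (fun X => ((Module.finrank ℝ V : ℝ) - j) ^ 2 * av (oc X) (fun x => ⟪x, u⟫ ^ 4)) ≤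
      iw j ρ (fun _ => 3 * ‖u‖ ^ 4) := by
    refine iw_mono hρ ((d2_meas_av hm).const_mul _) measurable_const
      (C := max (((Module.finrank ℝ V : ℝ) - j) ^ 2 * ‖u‖ ^ 4) (3 * ‖u‖ ^ 4)) (fun X => ?_) (fun X => ?_)
      fun X hX _ => ?_
    · refine le_trans ?_ (le_max_left _ _)
      rw [abs_mul, abs_of_nonneg (by positivity)]
      exact mul_le_mul_of_nonneg_left (d2_abs_av _ hb) (by positivity)
    · refine le_trans (le_of_eq ?_) (le_max_right _ _)
      exact abs_of_nonneg (by positivity)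
    · have h3 := finrank_oc hX
      have h4 := av_four (oc X) (by have := hP.hjd; omega) u
      rw [d2_fin hX] at h4
      have h5 : 0 ≤ av (oc X) (fun x => ⟪x, u⟫ ^ 4) := av_nonneg _ fun x => by positivity
      have h6 : ‖(oc X).starProjection u‖ ^ 4 ≤ ‖u‖ ^ 4 :=
        pow_le_pow_left₀ (norm_nonneg _) ((oc X).norm_starProjection_apply_le u) 4
      have h7 : 0 ≤ 2 * ((Module.finrank ℝ V : ℝ) - j) * av (oc X) (fun x => ⟪x, u⟫ ^ 4) := by
        have := hk.le
        positivity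
      nlinarith [h4, h6, h7]
  rw [iw_mul, ← h1, iw_const] at h2
  refine le_of_mul_le_mul_right ?_ hj
  calc ((Module.finrank ℝ V : ℝ) - j) ^ 2 * (∫ x, ⟪x, u⟫ ^ 4 ∂(Nop j ρ)) * en j ρ
      = ((Module.finrank ℝ V : ℝ) - j) ^ 2 * (en j ρ * ∫ x, ⟪x, u⟫ ^ 4 ∂(Nop j ρ)) := by ring
    _ ≤ 3 * ‖u‖ ^ 4 * en j ρ := h2

/-- the law of `P_W g`. -/
private noncomputable def d2nu (W : Submodule ℝ V) : Measure V :=
  (stdGaussian V).map (fun g => W.starProjection g)

private theorem d2nu_sub1 (W : Submodule ℝ V) : Sub1 (d2nu W) := sub1_proj W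

private theorem d2nu_sW (W : Submodule ℝ V) {j : ℕ} (X : Fin j → V) : sW (d2nu W) (oc X) = tt (oc X) W := by
  rw [d2nu, sW_proj, tt_comm]

private theorem d2_mean {j : ℕ} {M : ℝ} (hP : Par (Module.finrank ℝ V) j M) {ρ : Measure V} (hρ : US ρ)
    (hj : 0 < en j ρ) (W : Submodule ℝ V) :
    mW j ρ (d2nu W) = ((Module.finrank ℝ V : ℝ) - j) * sW (Nop j ρ) W := by
  have h1 := nop_sW hρ hj hP.hjd W
  unfold mW
  simp only [d2nu_sW]
  rw [← h1]
  field_simp

private theorem d2_tt (W : Submodule ℝ V) {j : ℕ} : Measurable (fun X : Fin j → V => tt (oc X) W) := by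
  have h := meas_tt (n := j) W
  have h2 : (fun X : Fin j → V => tt (oc X) W) = fun X : Fin j → V => tt W (oc X) := by
    funext X
    exact tt_comm _ _
  rw [h2]
  exact h

private theorem d2_tt_le (W : Submodule ℝ V) {j : ℕ} (X : Fin j → V) :
    |tt (oc X) W| ≤ Module.finrank ℝ V := by
  rw [abs_of_nonneg (tt_nonneg _ _)]
  refine (tt_le _ _).trans ?_
  exact_mod_cast (oc X).finrank_le

private theorem d2_n3 {j : ℕ} {M : ℝ} (hP : Par (Module.finrank ℝ V) j M) {ρ : Measure V} (hρ : US ρ) (hj : 0 < en j ρ)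
    (W : Submodule ℝ V) : (Module.finrank ℝ V : ℝ) * ∫ x, (‖W.starProjection x‖ ^ 2 - sW (Nop j ρ) W) ^ 2 ∂(Nop j ρ) ≤
      3 * M ^ 2 := by
  have hk := hP.k_pos
  have hd := hP.d_pos
  have hmean := d2_mean hP hρ hj W
  have hvar := conc_var hρ (d2nu_sub1 W) hj
  simp only [d2nu_sW] at hvar
  obtain ⟨s, hs⟩ : ∃ s, s = sW (Nop j ρ) W := ⟨_, rfl⟩
  obtain ⟨k, hkk⟩ : ∃ k, k = (Module.finrank ℝ V : ℝ) - j := ⟨_, rfl⟩
  rw [hmean] at hvar
  rw [← hs] at hvar ⊢
  rw [← hkk] at hvar hk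
  have hm : Measurable (fun x : V => (‖W.starProjection x‖ ^ 2 - s) ^ 2) := by fun_prop
  have hb : ∀ x : V, ‖x‖ ≤ 1 → |(‖W.starProjection x‖ ^ 2 - s) ^ 2| ≤ (1 + |s|) ^ 2 := by
    intro x hx
    rw [abs_of_nonneg (by positivity), ← sq_abs]
    refine pow_le_pow_left₀ (abs_nonneg _) ((abs_sub _ _).trans ?_) 2
    rw [abs_of_nonneg (by positivity : (0 : ℝ) ≤ ‖W.starProjection x‖ ^ 2)]
    linarith [d2_proj_le W hx]
  have h1 := nop_int hρ hj hm hb
  have hmt : Measurable (fun X : Fin j → V => (tt (oc X) W - k * s) ^ 2) := ((d2_tt W).sub_const _).pow_const 2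
  have hbt : ∀ X : Fin j → V, |(tt (oc X) W - k * s) ^ 2| ≤ (Module.finrank ℝ V + |k * s|) ^ 2 := by
    intro X
    rw [abs_of_nonneg (by positivity), ← sq_abs]
    refine pow_le_pow_left₀ (abs_nonneg _) ((abs_sub _ _).trans ?_) 2
    linarith [d2_tt_le W X]
  have h2 : iw j ρ (fun X => av (oc X) (fun x => (‖W.starProjection x‖ ^ 2 - s) ^ 2)) ≤
      iw j ρ (fun X => 2 / (k + 2) + (k ^ 2)⁻¹ * (tt (oc X) W - k * s) ^ 2) := by
    refine iw_mono hρ (d2_meas_av hm) ((hmt.const_mul _).const_add _)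
      (C := (1 + |s|) ^ 2 + (2 / (k + 2) + (k ^ 2)⁻¹ * (Module.finrank ℝ V + |k * s|) ^ 2))
      (fun X => ?_) (fun X => ?_) fun X hX _ => ?_
    · refine (d2_abs_av _ hb).trans ?_
      have : 0 ≤ 2 / (k + 2) + (k ^ 2)⁻¹ * (Module.finrank ℝ V + |k * s|) ^ 2 := by positivity
      linarith
    · have h3 : |2 / (k + 2) + (k ^ 2)⁻¹ * (tt (oc X) W - k * s) ^ 2| ≤
          2 / (k + 2) + (k ^ 2)⁻¹ * (Module.finrank ℝ V + |k * s|) ^ 2 := by
        rw [abs_of_nonneg (by positivity)]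
        have h4 := (le_abs_self _).trans (hbt X)
        have h5 := mul_le_mul_of_nonneg_left h4 (by positivity : 0 ≤ (k ^ 2)⁻¹)
        linarith
      have : 0 ≤ (1 + |s|) ^ 2 := by positivity
      linarith
    · have h3 := finrank_oc hX
      have h4 : 1 ≤ Module.finrank ℝ (oc X) := by have := hP.hjd; omega
      rw [d2_sq (oc X) W h4 s]
      refine add_le_add ?_ (le_of_eq ?_)
      · have h5 := av_var (oc X) W h4
        rw [d2_fin hX, ← hkk] at h5 ⊢
        exact h5
      · rw [d2_fin hX, ← hkk]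
        field_simp
  rw [← h1, iw_add hρ (C := 2 / (k + 2) + (k ^ 2)⁻¹ * (Module.finrank ℝ V + |k * s|) ^ 2) measurable_const
    (hmt.const_mul _) ?_ ?_, iw_mul, iw_const] at h2
  · have h6 : ∫ x, (‖W.starProjection x‖ ^ 2 - s) ^ 2 ∂(Nop j ρ) ≤ 2 / (k + 2) + (k ^ 2)⁻¹ * (j / 4) := by
      refine le_of_mul_le_mul_left ?_ hj
      refine h2.trans ?_
      have h7 := mul_le_mul_of_nonneg_left hvar (by positivity : 0 ≤ (k ^ 2)⁻¹)
      calc 2 / (k + 2) * en j ρ + (k ^ 2)⁻¹ * iw j ρ (fun X => (tt (oc X) W - k * s) ^ 2)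
          ≤ 2 / (k + 2) * en j ρ + (k ^ 2)⁻¹ * (j / 4 * en j ρ) := by linarith
        _ = en j ρ * (2 / (k + 2) + (k ^ 2)⁻¹ * (j / 4)) := by ring
    refine (mul_le_mul_of_nonneg_left h6 hd.le).trans ?_
    have hM := hP.one
    have hMk : (Module.finrank ℝ V : ℝ) ≤ M * k := by rw [hkk]; exact hP.hM
    have hjd' : (j : ℝ) ≤ Module.finrank ℝ V := by exact_mod_cast hP.hjd.le
    have h8 : (Module.finrank ℝ V : ℝ) * (2 / (k + 2)) ≤ 2 * M := by
      rw [mul_div_assoc', div_le_iff₀ (by positivity)]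
      nlinarith
    have h9 : (Module.finrank ℝ V : ℝ) * ((k ^ 2)⁻¹ * (j / 4)) ≤ M ^ 2 / 4 := by
      have h10 : (Module.finrank ℝ V : ℝ) * j ≤ (M * k) * (M * k) :=
        mul_le_mul hMk (hjd'.trans hMk) (Nat.cast_nonneg _) (by positivity)
      have h11 : (Module.finrank ℝ V : ℝ) * ((k ^ 2)⁻¹ * (j / 4)) = (Module.finrank ℝ V : ℝ) * j / (4 * k ^ 2) := by
        field_simp
      rw [h11, div_le_iff₀ (by positivity)]
      nlinarith
    have h12 : 1 * M ≤ M * M := mul_le_mul_of_nonneg_right hM (by linarith)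
    nlinarith [h8, h9, h12]
  · intro X
    rw [abs_of_nonneg (by positivity)]
    have : 0 ≤ (k ^ 2)⁻¹ * (Module.finrank ℝ V + |k * s|) ^ 2 := by positivity
    linarith
  · intro X
    rw [abs_of_nonneg (by positivity)]
    have h4 := (le_abs_self _).trans (hbt X)
    have h5 := mul_le_mul_of_nonneg_left h4 (by positivity : 0 ≤ (k ^ 2)⁻¹)
    have : 0 ≤ 2 / (k + 2) := by positivity
    linarith

private theorem d2_ind_abs {α : Type*} (A : Set α) (x : α) : |A.indicator (fun _ => (1 : ℝ)) x| ≤ 1 := by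
  by_cases h : x ∈ A
  · rw [indicator_of_mem h, abs_one]
  · rw [indicator_of_notMem h, abs_zero]
    exact zero_le_one

private theorem d2_ind_nn {α : Type*} (A : Set α) (x : α) : 0 ≤ A.indicator (fun _ => (1 : ℝ)) x := by
  by_cases h : x ∈ A
  · rw [indicator_of_mem h]
    exact zero_le_one
  · rw [indicator_of_notMem h]

private theorem d2_n4 {j : ℕ} {M : ℝ} (hP : Par (Module.finrank ℝ V) j M) {ρ : Measure V} (hρ : US ρ) (hj : 0 < en j ρ)
    (W : Submodule ℝ V) (t : ℝ) (ht : 1 ≤ 100 * M ^ 3 * t) :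
    (Nop j ρ).real {x | t ≤ |‖W.starProjection x‖ ^ 2 - sW (Nop j ρ) W|} ≤ pz (Module.finrank ℝ V) := by
  have hk := hP.k_pos
  have hd := hP.d_pos
  have hM := hP.one
  have hmean := d2_mean hP hρ hj W
  have ht0 : 0 < t := by
    by_contra h
    have h' : t ≤ 0 := not_lt.1 h
    have : 100 * M ^ 3 * t ≤ 0 := mul_nonpos_of_nonneg_of_nonpos (by positivity) h'
    linarith
  obtain ⟨s, hs⟩ : ∃ s, s = sW (Nop j ρ) W := ⟨_, rfl⟩
  obtain ⟨k, hkk⟩ : ∃ k, k = (Module.finrank ℝ V : ℝ) - j := ⟨_, rfl⟩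
  have htail := conc_tail hρ (d2nu_sub1 W) hj (k * t / 2)
  simp only [d2nu_sW] at htail
  rw [hmean] at htail
  rw [← hs] at htail ⊢
  rw [← hkk] at htail hk
  have hA : MeasurableSet {x : V | t ≤ |‖W.starProjection x‖ ^ 2 - s|} :=
    measurableSet_le measurable_const (by fun_prop)
  have hm : Measurable ({x : V | t ≤ |‖W.starProjection x‖ ^ 2 - s|}.indicator (fun _ => (1 : ℝ))) :=
    measurable_const.indicator hA
  have h1 := nop_int hρ hj hm (C := 1) fun x _ => d2_ind_abs _ x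
  rw [integral_indicator_const _ hA, smul_eq_mul, mul_one] at h1
  have hB : MeasurableSet {X : Fin j → V | k * t / 2 ≤ |tt (oc X) W - k * s|} :=
    measurableSet_le measurable_const (((d2_tt W).sub_const _).abs)
  have hmB : Measurable ({X : Fin j → V | k * t / 2 ≤ |tt (oc X) W - k * s|}.indicator (fun _ => (1 : ℝ))) :=
    measurable_const.indicator hB
  have hpz : 0 ≤ pz (Module.finrank ℝ V) := by
    unfold pz
    positivity
  have hnum2 := num2 hP (t := t / 2) (by linarith) (by linarith)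
  rw [← hkk] at hnum2
  have h2 : iw j ρ (fun X => av (oc X) ({x : V | t ≤ |‖W.starProjection x‖ ^ 2 - s|}.indicator (fun _ => (1 : ℝ)))) ≤
      iw j ρ (fun X => pz (Module.finrank ℝ V) / 8 +
        {X : Fin j → V | k * t / 2 ≤ |tt (oc X) W - k * s|}.indicator (fun _ => (1 : ℝ)) X) := by
    refine iw_mono hρ (d2_meas_av hm) (hmB.const_add _) (C := 1 + pz (Module.finrank ℝ V) / 8)
      (fun X => ?_) (fun X => ?_) fun X hX _ => ?_
    · refine (d2_abs_av _ (C := 1) fun x _ => d2_ind_abs _ x).trans ?_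
      linarith
    · refine (abs_add_le _ _).trans ?_
      rw [abs_of_nonneg (by positivity)]
      linarith [d2_ind_abs {X : Fin j → V | k * t / 2 ≤ |tt (oc X) W - k * s|} X]
    · have h3 := finrank_oc hX
      have h4 : 1 ≤ Module.finrank ℝ (oc X) := by have := hP.hjd; omega
      by_cases hXB : k * t / 2 ≤ |tt (oc X) W - k * s|
      · rw [indicator_of_mem (show X ∈ {X : Fin j → V | k * t / 2 ≤ |tt (oc X) W - k * s|} from hXB)]
        have h5 := (le_abs_self _).trans (d2_abs_av (oc X) (C := 1)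
          fun x _ => d2_ind_abs {x : V | t ≤ |‖W.starProjection x‖ ^ 2 - s|} x)
        linarith
      · rw [indicator_of_notMem (show X ∉ {X : Fin j → V | k * t / 2 ≤ |tt (oc X) W - k * s|} from hXB), add_zero]
        refine le_trans ?_ hnum2
        have h5 := av_tail (oc X) W h4 (t := t / 2) (by linarith)
        rw [d2_fin hX, ← hkk] at h5
        refine le_trans ?_ h5
        have hA2 : MeasurableSet {x : V | t / 2 ≤ |‖W.starProjection x‖ ^ 2 - tt (oc X) W / k|} :=
          measurableSet_le measurable_const (by fun_prop)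
        refine av_mono (oc X) hm (measurable_const.indicator hA2) (fun x => d2_ind_abs _ x)
          (fun x => d2_ind_abs _ x) fun x => ?_
        by_cases hx : t ≤ |‖W.starProjection x‖ ^ 2 - s|
        · have hx2 : t / 2 ≤ |‖W.starProjection x‖ ^ 2 - tt (oc X) W / k| := by
            have h6 : |tt (oc X) W / k - s| < t / 2 := by
              have h7 : tt (oc X) W / k - s = (tt (oc X) W - k * s) / k := by
                field_simp
              rw [h7, abs_div, abs_of_pos hk, div_lt_iff₀ hk]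
              have := not_le.1 hXB
              linarith
            have h8 : |‖W.starProjection x‖ ^ 2 - s| ≤
                |‖W.starProjection x‖ ^ 2 - tt (oc X) W / k| + |tt (oc X) W / k - s| := abs_sub_le _ _ _
            linarith
          rw [indicator_of_mem (show x ∈ {x : V | t ≤ |‖W.starProjection x‖ ^ 2 - s|} from hx),
            indicator_of_mem (show x ∈ {x : V | t / 2 ≤ |‖W.starProjection x‖ ^ 2 - tt (oc X) W / k|} from hx2)]
        · rw [indicator_of_notMem (show x ∉ {x : V | t ≤ |‖W.starProjection x‖ ^ 2 - s|} from hx)]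
          exact d2_ind_nn _ _
  rw [← h1, iw_add hρ (C := 1 + pz (Module.finrank ℝ V) / 8) measurable_const hmB
    (fun X => by rw [abs_of_nonneg (by positivity)]; linarith)
    (fun X => (d2_ind_abs _ X).trans (by linarith)), iw_const] at h2
  have hMk : (Module.finrank ℝ V : ℝ) ≤ M * k := by rw [hkk]; exact hP.hM
  have hnum1 := num1 hP (t := k * t / 2) (by
    have h6 : 0 ≤ M * k := by positivity
    have h7 := mul_le_mul_of_nonneg_left ht h6
    calc (Module.finrank ℝ V : ℝ) ≤ M * k := hMk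
      _ ≤ M * k * (100 * M ^ 3 * t) := by linarith
      _ = 200 * M ^ 4 * (k * t / 2) := by ring)
  refine le_of_mul_le_mul_left ?_ hj
  refine h2.trans ?_
  have h9 : iw j ρ ({X : Fin j → V | k * t / 2 ≤ |tt (oc X) W - k * s|}.indicator (fun _ => (1 : ℝ))) ≤
      pz (Module.finrank ℝ V) / 8 * en j ρ := htail.trans (mul_le_mul_of_nonneg_right hnum1 hj.le)
  have h10 : 0 ≤ pz (Module.finrank ℝ V) * en j ρ := mul_nonneg hpz hj.le
  have h11 : iw j ρ (fun X => {X : Fin j → V | k * t / 2 ≤ |tt (oc X) W - k * s|}.indicator (fun _ => (1 : ℝ)) X) ≤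
      pz (Module.finrank ℝ V) / 8 * en j ρ := h9
  linarith

theorem nice_nop {j : ℕ} {M : ℝ} (hP : Par (Module.finrank ℝ V) j M) {ρ : Measure V} (hρ : US ρ) (hj : 0 < en j ρ) :
    Nice j M (Nop j ρ) :=
  ⟨nop_us hρ hj hP.hjd, d2_n1 hP hρ hj, d2_n2 hP hρ hj, d2_n3 hP hρ hj, d2_n4 hP hρ hj⟩

end Pool.Agent.PBL
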