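import Pool.Agent.FI75.Defs

/-!
# Project PBL (MP_33e5ad_gt): projection bodies of all orders in large dimensions

`V` Euclidean of dimension `d = finrank ℝ V`, `γ = stdGaussian V`, `k = d - j`.

`ρ` is a probability measure on the unit sphere of `V`. `wv X` (FI75) is the volume of the parallelepiped spanned by
the vectors `X i`, `rv X g` (FI75) the projection of `g` to the orthogonal complement `oc X` of the vectors `X i`.
`Nop j ρ` is the law of a uniform unit vector of `oc X`, where `X` has the density `wv X / en j ρ` with respect to `ρ^j`.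
-/

set_option autoImplicit false

namespace Pool.Agent.PBL

open MeasureTheory ProbabilityTheory Set Filter Topology Metric
open Pool.Agent.HP89 Pool.Agent.FI75
open scoped RealInnerProductSpace ENNReal

section abs
variable {α : Type*}

/-- functions of lists which are invariant under permutations. -/
def Sym (F : List α → ℝ) : Prop := ∀ Z Z' : List α, Z.Perm Z' → F Z = F Z'

variable [MeasurableSpace α]

/-- iterated integral: `itr ρ l F Y = ∫ ... ∫ F (x_l :: ... :: x_1 :: Y) dρ(x_l) ... dρ(x_1)`. -/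
noncomputable def itr (ρ : Measure α) : ℕ → (List α → ℝ) → List α → ℝ
  | 0, F, Y => F Y
  | l + 1, F, Y => ∫ x, itr ρ l F (x :: Y) ∂ρ

/-- measurable bounded functions of lists. -/
structure LB (F : List α → ℝ) : Prop where
  meas : ∀ n : ℕ, Measurable (fun X : Fin n → α => F (List.ofFn X))
  bdd : ∃ C : ℝ, ∀ Z, |F Z| ≤ C

/-- weights with the Alexandrov-Fenchel property. -/
structure Wt (ρ : Measure α) (w : List α → ℝ) : Prop where
  lb : LB w
  nn : ∀ Z, 0 ≤ w Z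
  sym : Sym w
  af : ∀ (n : ℕ) (Y : List α) (a : α → ℝ), Measurable a → (∃ C : ℝ, ∀ x, |a x| ≤ C) →
    ∫ x, a x * itr ρ (n + 1) w (x :: Y) ∂ρ = 0 →
    ∫ x, ∫ y, a x * a y * itr ρ n w (y :: x :: Y) ∂ρ ∂ρ ≤ 0

end abs

section lin
variable {V : Type*} [NormedAddCommGroup V] [InnerProductSpace ℝ V]

/-- `x / ‖x‖` (`= 0` if `x = 0`). -/
noncomputable def nrm (x : V) : V := ‖x‖⁻¹ • x

/-- volume of the parallelepiped spanned by the normalised vectors. -/
noncomputable def wq (Z : List V) : ℝ := wn (Z.map nrm)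

/-- weighted sums over tuples of vectors: the discrete version of `itr`. -/
noncomputable def kf {ι : Type*} [Fintype ι] (m : ι → ℝ) (p : ι → V) : ℕ → List V → ℝ
  | 0, Y => wn Y
  | n + 1, Y => ∑ r, m r * kf m p n (p r :: Y)

/-- the orthogonal complement of the vectors `X i`. -/
noncomputable def oc {n : ℕ} (X : Fin n → V) : Submodule ℝ V := (Submodule.span ℝ (Set.range X))ᗮ

end lin

section meas
variable {V : Type*} [NormedAddCommGroup V] [InnerProductSpace ℝ V] [FiniteDimensional ℝ V]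
  [MeasurableSpace V] [BorelSpace V]

/-- probability measures on the unit sphere. -/
structure US (ρ : Measure V) : Prop where
  prob : IsProbabilityMeasure ρ
  unit : ∀ᵐ x ∂ρ, ‖x‖ = 1

/-- the product measure `ρ^n`. -/
noncomputable abbrev pp (n : ℕ) (ρ : Measure V) : Measure (Fin n → V) := Measure.pi fun _ : Fin n => ρ

/-- `e_n = ∫ |X| dρ^n`. -/
noncomputable def en (n : ℕ) (ρ : Measure V) : ℝ := ∫ X, wv X ∂(pp n ρ)

/-- `∫ |X| Φ(X) dρ^n`. -/
noncomputable def iw (n : ℕ) (ρ : Measure V) (Φ : (Fin n → V) → ℝ) : ℝ := ∫ X, wv X * Φ X ∂(pp n ρ)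

/-- the mean of `φ` over the unit sphere of `E`. -/
noncomputable def av (E : Submodule ℝ V) (φ : V → ℝ) : ℝ := ∫ g, φ (nrm (E.starProjection g)) ∂(stdGaussian V)

/-- the mean of `φ` over the unit sphere of `W ∩ x^⊥`. -/
noncomputable def avo (W : Submodule ℝ V) (x : V) (φ : V → ℝ) : ℝ :=
  ∫ g, φ (nrm (ort (W.starProjection x) (W.starProjection g))) ∂(stdGaussian V)

/-- `∫ |P_E x|² dρ(x) = tr (P_E T)`. -/
noncomputable def sW (ρ : Measure V) (E : Submodule ℝ V) : ℝ := ∫ x, ‖E.starProjection x‖ ^ 2 ∂ρ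

/-- `∫ |P_E x| dρ(x)`. -/
noncomputable def gW (ρ : Measure V) (E : Submodule ℝ V) : ℝ := ∫ x, ‖E.starProjection x‖ ∂ρ

/-- `tr (P_E P_W)`. -/
noncomputable def tt (E W : Submodule ℝ V) : ℝ :=
  ∫ g, ‖W.starProjection (E.starProjection g)‖ ^ 2 ∂(stdGaussian V)

/-- the operator `T = ∫ x ⊗ x dρ`. -/
noncomputable def Tv (ρ : Measure V) (u : V) : V := ∫ x, ⟪x, u⟫ • x ∂ρ

/-- the support function generated by `ρ`. -/
noncomputable def hf (ρ : Measure V) (u : V) : ℝ := ∫ x, |⟪x, u⟫| ∂ρ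

/-- its gradient. -/
noncomputable def Gr (ρ : Measure V) (u : V) : V := ∫ x, Real.sign ⟪x, u⟫ • x ∂ρ

/-- the tangential part of the gradient. -/
noncomputable def UU (ρ : Measure V) (u : V) : V := ort u (Gr ρ u)

/-- the law of a uniform unit vector of `oc X`, `X` with density `wv X / en j ρ` with respect to `ρ^j`. -/
noncomputable def Nop (j : ℕ) (ρ : Measure V) : Measure V :=
  (ENNReal.ofReal (en j ρ))⁻¹ • (((((pp j ρ).prod (stdGaussian V)).withDensity
    (fun p => ENNReal.ofReal (wv p.1))).map (fun p => nrm (rv p.1 p.2))))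

/-- the radial projection (with weight `‖x‖`) of a measure to the unit sphere, normalised. -/
noncomputable def sph (μ : Measure V) : Measure V :=
  (∫⁻ x, ENNReal.ofReal ‖x‖ ∂μ)⁻¹ • ((μ.withDensity (fun x => ENNReal.ofReal ‖x‖)).map nrm)

/-- chains of measures. -/
structure Ch (j : ℕ) (ρ : ℕ → Measure V) : Prop where
  us : ∀ n, US (ρ n)
  pos : ∀ n, 0 < en j (ρ n)
  step : ∀ n, ρ (n + 1) = Nop j (ρ n)

end meas

/-- the standing assumptions on the parameters. -/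
structure Par (d j : ℕ) (M : ℝ) : Prop where
  hj : 1 ≤ j
  hjd : j < d
  one : 1 ≤ M
  hM : (d : ℝ) ≤ M * ((d : ℝ) - j)
  big : 10 ^ 20 * M ^ 10 ≤ √(d : ℝ)

/-- tiny probability. -/
noncomputable def pz (d : ℕ) : ℝ := ((d : ℝ) ^ 10)⁻¹

/-- error of the isotropy. -/
noncomputable def dl (d : ℕ) (M : ℝ) : ℝ := 1000 * M ^ 6 / √(d : ℝ)

section nice
variable {V : Type*} [NormedAddCommGroup V] [InnerProductSpace ℝ V] [FiniteDimensional ℝ V]
  [MeasurableSpace V] [BorelSpace V]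

/-- quantitative properties of the measures `Nop j ρ`. -/
structure Nice (j : ℕ) (M : ℝ) (ρ : Measure V) : Prop where
  us : US ρ
  n1 : ∀ u : V, ((Module.finrank ℝ V : ℝ) - j) * ∫ x, ⟪x, u⟫ ^ 2 ∂ρ ≤ ‖u‖ ^ 2
  n2 : ∀ u : V, ((Module.finrank ℝ V : ℝ) - j) ^ 2 * ∫ x, ⟪x, u⟫ ^ 4 ∂ρ ≤ 3 * ‖u‖ ^ 4
  n3 : ∀ W : Submodule ℝ V,
    (Module.finrank ℝ V : ℝ) * ∫ x, (‖W.starProjection x‖ ^ 2 - sW ρ W) ^ 2 ∂ρ ≤ 3 * M ^ 2
  n4 : ∀ (W : Submodule ℝ V) (t : ℝ), 1 ≤ 100 * M ^ 3 * t →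
    ρ.real {x | t ≤ |‖W.starProjection x‖ ^ 2 - sW ρ W|} ≤ pz (Module.finrank ℝ V)

/-- near isotropy. -/
def Iso (M : ℝ) (ρ : Measure V) : Prop := ∀ u : V,
  (1 - dl (Module.finrank ℝ V) M) * ‖u‖ ^ 2 ≤ (Module.finrank ℝ V : ℝ) * ∫ x, ⟪x, u⟫ ^ 2 ∂ρ ∧
    (Module.finrank ℝ V : ℝ) * ∫ x, ⟪x, u⟫ ^ 2 ∂ρ ≤ (1 + dl (Module.finrank ℝ V) M) * ‖u‖ ^ 2

end nice

end Pool.Agent.PBL
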