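import Pool.Agent.PBL.C5
import Pool.Agent.PBL.B3b
import Pool.Agent.HP89.A1c

/-! Module PBL-E1 (expansion of the projection to the span): `w - rv X w` is written as a combination of the vectors
`X i` and paired with the dual vectors `rv (X∖i) (X i)`. -/

set_option autoImplicit false

namespace Pool.Agent.PBL
open MeasureTheory ProbabilityTheory Set Filter Topology Metric
open Pool.Agent.HP89 Pool.Agent.FI75
open scoped RealInnerProductSpace ENNReal

variable {V : Type*} [NormedAddCommGroup V] [InnerProductSpace ℝ V] [FiniteDimensional ℝ V]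

theorem proj_expand {n : ℕ} {X : Fin (n + 1) → V} (hX : wv X ≠ 0) (u w : V) :
    ⟪u, w - rv X w⟫ = ∑ i, ⟪u, X i⟫ * ⟪w, rv (fun m => X (i.succAbove m)) (X i)⟫ /
      ‖rv (fun m => X (i.succAbove m)) (X i)‖ ^ 2 := by
  obtain ⟨c, hc⟩ : ∃ c : Fin (n + 1) → ℝ, ∑ i, c i • X i = w - rv X w := by
    have h1 : w - rv X w ∈ Submodule.span ℝ (Set.range X) := by
      have h2 : w - (oc X).starProjection w ∈ (oc X)ᗮ := Submodule.sub_starProjection_mem_orthogonal w
      rw [oc, Submodule.orthogonal_orthogonal] at h2
      rw [rv_eq]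
      exact h2
    exact (Submodule.mem_span_range_iff_exists_fun ℝ).1 h1
  have hli : LinearIndependent ℝ X := by
    rw [linearIndependent_iff_card_eq_finrank_span, Fintype.card_fin]
    have h1 := finrank_span_of_wn_ne_zero (X := List.ofFn X) hX
    have h2 : {x | x ∈ List.ofFn X} = Set.range X := by
      ext x
      exact List.mem_ofFn' X x
    rw [h2, List.length_ofFn] at h1
    exact h1.symm
  have hsub : ∀ i : Fin (n + 1), Submodule.span ℝ (Set.range fun m => X (i.succAbove m)) ≤
      Submodule.span ℝ (Set.range X) := by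
    intro i
    apply Submodule.span_mono
    rintro _ ⟨m, rfl⟩
    exact ⟨_, rfl⟩
  have hr : ∀ i : Fin (n + 1), rv (fun m => X (i.succAbove m)) (X i) ∈
      oc (fun m => X (i.succAbove m)) := by
    intro i
    rw [rv_eq]
    exact Submodule.starProjection_apply_mem _ _
  have hd : ∀ i : Fin (n + 1), X i - rv (fun m => X (i.succAbove m)) (X i) ∈
      Submodule.span ℝ (Set.range fun m => X (i.succAbove m)) := by
    intro i
    have h2 : X i - (oc fun m => X (i.succAbove m)).starProjection (X i) ∈
        (oc fun m => X (i.succAbove m))ᗮ := Submodule.sub_starProjection_mem_orthogonal _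
    rw [oc, Submodule.orthogonal_orthogonal] at h2
    rw [rv_eq]
    exact h2
  have hrs : ∀ i : Fin (n + 1), rv (fun m => X (i.succAbove m)) (X i) ∈
      Submodule.span ℝ (Set.range X) := by
    intro i
    have h1 : X i ∈ Submodule.span ℝ (Set.range X) := Submodule.subset_span ⟨i, rfl⟩
    have h2 := Submodule.sub_mem _ h1 (hsub i (hd i))
    rwa [sub_sub_cancel] at h2
  have hne : ∀ i : Fin (n + 1), ‖rv (fun m => X (i.succAbove m)) (X i)‖ ^ 2 ≠ 0 := by
    intro i h0
    have h1 : rv (fun m => X (i.succAbove m)) (X i) = 0 := norm_eq_zero.1 (pow_eq_zero_iff two_ne_zero |>.1 h0)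
    have h2 := hd i
    rw [h1, sub_zero] at h2
    have h3 : i ∉ Set.range i.succAbove := by
      rintro ⟨m, hm⟩
      exact Fin.succAbove_ne i m hm
    have h4 := hli.notMem_span_image h3
    rw [← Set.range_comp] at h4
    exact h4 h2
  have hii : ∀ i : Fin (n + 1), ⟪X i, rv (fun m => X (i.succAbove m)) (X i)⟫ =
      ‖rv (fun m => X (i.succAbove m)) (X i)‖ ^ 2 := by
    intro i
    have h1 : ⟪X i - rv (fun m => X (i.succAbove m)) (X i), rv (fun m => X (i.succAbove m)) (X i)⟫ = 0 :=
      Submodule.inner_right_of_mem_orthogonal (hd i) (hr i)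
    rw [inner_sub_left, real_inner_self_eq_norm_sq, sub_eq_zero] at h1
    exact h1
  have hil : ∀ i l : Fin (n + 1), l ≠ i → ⟪X l, rv (fun m => X (i.succAbove m)) (X i)⟫ = 0 := by
    intro i l hl
    obtain ⟨m, hm⟩ := Fin.exists_succAbove_eq hl
    refine Submodule.inner_right_of_mem_orthogonal (K := Submodule.span ℝ
      (Set.range fun m => X (i.succAbove m))) (Submodule.subset_span ⟨m, ?_⟩) (hr i)
    simp only [hm]
  have hcw : ∀ i : Fin (n + 1), ⟪w, rv (fun m => X (i.succAbove m)) (X i)⟫ =
      c i * ‖rv (fun m => X (i.succAbove m)) (X i)‖ ^ 2 := by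
    intro i
    have h1 : ⟪rv X w, rv (fun m => X (i.succAbove m)) (X i)⟫ = 0 := by
      refine Submodule.inner_left_of_mem_orthogonal (hrs i) ?_
      rw [rv_eq]
      exact Submodule.starProjection_apply_mem _ _
    have h2 : ⟪w - rv X w, rv (fun m => X (i.succAbove m)) (X i)⟫ =
        c i * ‖rv (fun m => X (i.succAbove m)) (X i)‖ ^ 2 := by
      rw [← hc, sum_inner, Finset.sum_eq_single i]
      · rw [real_inner_smul_left, hii]
      · intro l _ hl
        rw [real_inner_smul_left, hil i l hl, mul_zero]
      · intro h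
        exact absurd (Finset.mem_univ _) h
    rw [inner_sub_left, h1, sub_zero] at h2
    exact h2
  rw [← hc, inner_sum]
  refine Finset.sum_congr rfl fun i _ => ?_
  rw [real_inner_smul_right, hcw, ← mul_assoc, mul_div_cancel_right₀ _ (hne i), mul_comm]

end Pool.Agent.PBL
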