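import Pool.Agent.PBL.E1
import Pool.Agent.PBL.D0

/-! Module PBL-E2 (leave-one-out formula for the projection). By `proj_expand` and `wv X = wv (X∖i) ‖rv (X∖i) (X i)‖` the integrand on the
left is the sum over `i` of `wv (X∖i) (G X ⟪u, X i⟫ ⟪w, rv (X∖i) (X i)⟫ / ‖rv (X∖i) (X i)‖)`; these functions are bounded almost
everywhere, and Fubini for the coordinate `i` gives the integral on the right. -/

set_option autoImplicit false

namespace Pool.Agent.PBL
open MeasureTheory ProbabilityTheory Set Filter Topology Metric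
open Pool.Agent.HP89 Pool.Agent.FI75
open scoped RealInnerProductSpace ENNReal

variable {V : Type*} [NormedAddCommGroup V] [InnerProductSpace ℝ V] [FiniteDimensional ℝ V]
  [MeasurableSpace V] [BorelSpace V]

omit [InnerProductSpace ℝ V] [FiniteDimensional ℝ V] [MeasurableSpace V] [BorelSpace V] in
private theorem perm_ins {n : ℕ} (l : Fin (n + 1)) (y : V) (x : Fin n → V) :
    (List.ofFn (l.insertNth (α := fun _ => V) y x)).Perm (y :: List.ofFn x) := by
  rw [← Multiset.coe_eq_coe, ← Multiset.cons_coe, ← Fin.univ_val_map, ← Fin.univ_val_map, Fin.univ_succAbove n l,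
    Finset.cons_val, Multiset.map_cons, Fin.insertNth_apply_same]
  congr 1
  rw [Finset.map_val, Multiset.map_map]
  refine Multiset.map_congr rfl fun m _ => ?_
  exact Fin.insertNth_apply_succAbove _ _ _ _

omit [MeasurableSpace V] [BorelSpace V] in
private theorem wv_split {n : ℕ} (i : Fin (n + 1)) (X : Fin (n + 1) → V) :
    wv X = wv (fun m => X (i.succAbove m)) * ‖rv (fun m => X (i.succAbove m)) (X i)‖ := by
  have h1 : i.insertNth (α := fun _ => V) (X i) (fun m => X (i.succAbove m)) = X :=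
    Fin.insertNth_self_removeNth i X
  have h2 : wv (i.insertNth (α := fun _ => V) (X i) (fun m => X (i.succAbove m))) =
      wv (fun m => X (i.succAbove m)) * ‖rv (fun m => X (i.succAbove m)) (X i)‖ := by
    unfold wv rv
    rw [wn_perm (perm_ins i (X i) (fun m => X (i.succAbove m))), wn_cons]
  rw [h1] at h2
  exact h2

/-- the summands. -/
private noncomputable def hh {n : ℕ} (G : (Fin (n + 1) → V) → ℝ) (u w : V) (i : Fin (n + 1))
    (X : Fin (n + 1) → V) : ℝ :=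
  wv (fun m => X (i.succAbove m)) * (G X * (⟪u, X i⟫ * ⟪w, rv (fun m => X (i.succAbove m)) (X i)⟫ /
    ‖rv (fun m => X (i.succAbove m)) (X i)‖))

omit [MeasurableSpace V] [BorelSpace V] in
private theorem hh_eq {n : ℕ} (G : (Fin (n + 1) → V) → ℝ) (u w : V) (i : Fin (n + 1))
    (X : Fin (n + 1) → V) :
    hh G u w i X = wv X * (G X * (⟪u, X i⟫ * ⟪w, rv (fun m => X (i.succAbove m)) (X i)⟫ /
      ‖rv (fun m => X (i.succAbove m)) (X i)‖ ^ 2)) := by
  unfold hh
  rw [wv_split i X]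
  obtain ⟨r, hr⟩ : ∃ r, r = rv (fun m => X (i.succAbove m)) (X i) := ⟨_, rfl⟩
  rw [← hr]
  by_cases h0 : ‖r‖ = 0
  · have h1 : r = 0 := norm_eq_zero.1 h0
    rw [h1, inner_zero_right, norm_zero]
    ring
  · field_simp

omit [MeasurableSpace V] [BorelSpace V] in
private theorem pt_eq {n : ℕ} (G : (Fin (n + 1) → V) → ℝ) (u w : V) (X : Fin (n + 1) → V) :
    wv X * (G X * ⟪u, w - rv X w⟫) = ∑ i, hh G u w i X := by
  simp_rw [hh_eq]
  rw [← Finset.mul_sum]
  by_cases hX : wv X = 0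
  · rw [hX, zero_mul, zero_mul]
  · rw [proj_expand hX u w, Finset.mul_sum _ _ (G X)]

private theorem hh_meas {n : ℕ} {G : (Fin (n + 1) → V) → ℝ} (hG : Measurable G) (u w : V) (i : Fin (n + 1)) :
    Measurable (hh G u w i) := by
  have h1 : Measurable fun X : Fin (n + 1) → V => (fun m => X (i.succAbove m)) :=
    measurable_pi_lambda _ fun m => measurable_pi_apply _
  have h2 : Measurable fun X : Fin (n + 1) → V => X i := measurable_pi_apply i
  have h3 : Measurable fun X : Fin (n + 1) → V => rv (fun m => X (i.succAbove m)) (X i) :=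
    (measurable_rv n).comp (h1.prodMk h2)
  have h4 := (measurable_wv (V := V) n).comp h1
  unfold hh
  exact h4.mul (hG.mul (((measurable_const.inner h2).mul (measurable_const.inner h3)).div h3.norm))

omit [MeasurableSpace V] [BorelSpace V] in
private theorem hh_bd {n : ℕ} {G : (Fin (n + 1) → V) → ℝ} {C : ℝ} (hC : ∀ X, |G X| ≤ C) (u w : V)
    (i : Fin (n + 1)) {X : Fin (n + 1) → V} (hX : ∀ i, ‖X i‖ = 1) : ‖hh G u w i X‖ ≤ C * (‖u‖ * ‖w‖) := by
  have hC0 : 0 ≤ C := (abs_nonneg _).trans (hC X)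
  have h1 : 0 ≤ wv (fun m => X (i.succAbove m)) := wn_nonneg _
  have h2 : wv (fun m => X (i.succAbove m)) ≤ 1 := by
    refine (wn_le_prod _).trans ?_
    refine le_of_eq ?_
    rw [List.map_ofFn, List.prod_ofFn]
    exact Finset.prod_eq_one fun m _ => hX _
  unfold hh
  obtain ⟨r, hr⟩ : ∃ r, r = rv (fun m => X (i.succAbove m)) (X i) := ⟨_, rfl⟩
  rw [← hr, Real.norm_eq_abs, abs_mul, abs_mul, abs_div, abs_mul, abs_of_nonneg h1, abs_of_nonneg (norm_nonneg r)]
  have h3 : |⟪u, X i⟫| ≤ ‖u‖ := by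
    have := abs_real_inner_le_norm u (X i)
    rwa [hX i, mul_one] at this
  have h4 : |⟪w, r⟫| ≤ ‖w‖ * ‖r‖ := abs_real_inner_le_norm w r
  have h5 : |⟪u, X i⟫| * |⟪w, r⟫| / ‖r‖ ≤ ‖u‖ * ‖w‖ := by
    refine div_le_of_le_mul₀ (norm_nonneg r) (by positivity) ?_
    calc |⟪u, X i⟫| * |⟪w, r⟫| ≤ ‖u‖ * (‖w‖ * ‖r‖) := mul_le_mul h3 h4 (abs_nonneg _) (norm_nonneg _)
      _ = ‖u‖ * ‖w‖ * ‖r‖ := by ring
  have h6 : |G X| * (|⟪u, X i⟫| * |⟪w, r⟫| / ‖r‖) ≤ C * (‖u‖ * ‖w‖) :=
    mul_le_mul (hC X) h5 (by positivity) hC0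
  calc wv (fun m => X (i.succAbove m)) * (|G X| * (|⟪u, X i⟫| * |⟪w, r⟫| / ‖r‖))
      ≤ 1 * (C * (‖u‖ * ‖w‖)) := mul_le_mul h2 h6 (by positivity) zero_le_one
    _ = C * (‖u‖ * ‖w‖) := one_mul _

private theorem hh_int {ρ : Measure V} (hρ : US ρ) {n : ℕ} {G : (Fin (n + 1) → V) → ℝ} (hG : Measurable G)
    {C : ℝ} (hC : ∀ X, |G X| ≤ C) (u w : V) (i : Fin (n + 1)) : Integrable (hh G u w i) (pp (n + 1) ρ) := by
  have := hρ.prob
  refine Integrable.of_bound (hh_meas hG u w i).aestronglyMeasurable (C * (‖u‖ * ‖w‖)) ?_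
  filter_upwards [ae_unit hρ (n + 1)] with X hX
  exact hh_bd hC u w i hX

private theorem fub {ρ : Measure V} (hρ : US ρ) {n : ℕ} (l : Fin (n + 1)) {f : (Fin (n + 1) → V) → ℝ}
    (hf : Integrable f (pp (n + 1) ρ)) :
    ∫ x, f x ∂(pp (n + 1) ρ) = ∫ x', ∫ y, f (l.insertNth (α := fun _ => V) y x') ∂ρ ∂(pp n ρ) := by
  have := hρ.prob
  have h1 := measurePreserving_piFinSuccAbove (fun _ : Fin (n + 1) => ρ) l
  have h2 := h1.symm.integral_comp' (g := f)
  have h3 : Integrable (fun p : V × (Fin n → V) => f (l.insertNth (α := fun _ => V) p.1 p.2))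
      (ρ.prod (pp n ρ)) := h1.symm.integrable_comp_of_integrable hf
  have h4 := integral_prod_symm _ h3
  rw [← h4]
  exact h2.symm

theorem loo_sym {ρ : Measure V} (hρ : US ρ) {n : ℕ} {G : (Fin (n + 1) → V) → ℝ} (hG : Measurable G) {C : ℝ}
    (hC : ∀ X, |G X| ≤ C)
    (hs : ∀ (i : Fin (n + 1)) (x : V) (X : Fin n → V), G (i.insertNth (α := fun _ => V) x X) = G (Fin.cons x X))
    (u w : V) :
    iw (n + 1) ρ (fun X => G X * ⟪u, w - rv X w⟫) =
      ((n : ℝ) + 1) * iw n ρ (fun X => ∫ x, G (Fin.cons x X) * (⟪u, x⟫ * ⟪w, rv X x⟫ / ‖rv X x‖) ∂ρ) := by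
  have h1 : iw (n + 1) ρ (fun X => G X * ⟪u, w - rv X w⟫) = ∑ i, ∫ X, hh G u w i X ∂(pp (n + 1) ρ) := by
    unfold iw
    rw [← integral_finsetSum _ fun i _ => hh_int hρ hG hC u w i]
    exact integral_congr_ae (Eventually.of_forall fun X => pt_eq G u w X)
  have h2 : ∀ i : Fin (n + 1), ∫ X, hh G u w i X ∂(pp (n + 1) ρ) =
      iw n ρ (fun X => ∫ x, G (Fin.cons x X) * (⟪u, x⟫ * ⟪w, rv X x⟫ / ‖rv X x‖) ∂ρ) := by
    intro i
    rw [fub hρ i (hh_int hρ hG hC u w i)]
    unfold iw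
    refine integral_congr_ae (Eventually.of_forall fun X => ?_)
    show ∫ y, hh G u w i (i.insertNth (α := fun _ => V) y X) ∂ρ =
      wv X * ∫ x, G (Fin.cons x X) * (⟪u, x⟫ * ⟪w, rv X x⟫ / ‖rv X x‖) ∂ρ
    rw [← integral_const_mul]
    refine integral_congr_ae (Eventually.of_forall fun x => ?_)
    show hh G u w i (i.insertNth (α := fun _ => V) x X) =
      wv X * (G (Fin.cons x X) * (⟪u, x⟫ * ⟪w, rv X x⟫ / ‖rv X x‖))
    unfold hh
    rw [hs i x X]
    simp only [Fin.insertNth_apply_same, Fin.insertNth_apply_succAbove]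
  rw [h1, Finset.sum_congr rfl fun i _ => h2 i, Finset.sum_const, Finset.card_univ, Fintype.card_fin, nsmul_eq_mul]
  push_cast
  rfl

end Pool.Agent.PBL
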