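import Pool.Agent.PBL.Num
import Pool.Agent.PBL.C5

/-! Module PBL-E3 (key estimates for one subspace). `q = ‖P_W x‖²`, `s = sW ρ W = ∫ q ≥ 1/(2M)`, `g = gW ρ W = ∫ √q`: `g` is close to `√s`
(`g_bounds`), and the division by `√q = ‖P_W x‖` may be replaced by the multiplication by `g / s` (`key`); `two` and `four` are moment bounds.
The set where `q < s/4` has probability at most `pz d`. -/

set_option autoImplicit false

namespace Pool.Agent.PBL
open MeasureTheory ProbabilityTheory Set Filter Topology Metric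
open Pool.Agent.HP89 Pool.Agent.FI75
open scoped RealInnerProductSpace ENNReal

variable {V : Type*} [NormedAddCommGroup V] [InnerProductSpace ℝ V] [FiniteDimensional ℝ V]
  [MeasurableSpace V] [BorelSpace V]

section aux
variable {α : Type*} [MeasurableSpace α]

private theorem intg {ρ : Measure α} [IsProbabilityMeasure ρ] {f : α → ℝ} (hf : Measurable f) {C : ℝ}
    (hb : ∀ᵐ x ∂ρ, |f x| ≤ C) : Integrable f ρ :=
  Integrable.of_bound hf.aestronglyMeasurable C (by simpa [Real.norm_eq_abs] using hb)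

private theorem quad {ρ : Measure α} [IsProbabilityMeasure ρ] {f h : α → ℝ} (hf : Integrable f ρ) (hh : Integrable h ρ)
    (a b c : ℝ) : ∫ x, (a * f x + b * h x + c) ∂ρ = a * ∫ x, f x ∂ρ + b * ∫ x, h x ∂ρ + c := by
  have h1 : Integrable (fun x => a * f x) ρ := hf.const_mul a
  have h2 : Integrable (fun x => b * h x) ρ := hh.const_mul b
  have h12 : Integrable (fun x => a * f x + b * h x) ρ := h1.add h2
  have e : ∫ x, (a * f x + b * h x + c) ∂ρ = (∫ x, (a * f x + b * h x) ∂ρ) + ∫ _, c ∂ρ :=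
    integral_add h12 (integrable_const c)
  rw [e, integral_add h1 h2, integral_const_mul, integral_const_mul, integral_const]
  simp

private theorem g_abs {ρ : Measure α} [IsProbabilityMeasure ρ] {y : α → ℝ} (hy : Measurable y) (h0 : ∀ x, 0 ≤ y x)
    (h1 : ∀ᵐ x ∂ρ, y x ≤ 1) {s V0 : ℝ} (hs : 0 < s) (hse : ∫ x, y x ^ 2 ∂ρ = s)
    (hV : ∫ x, (y x ^ 2 - s) ^ 2 ∂ρ ≤ V0) :
    √s * (1 - V0 / (2 * s ^ 2)) ≤ ∫ x, y x ∂ρ ∧ (∫ x, y x ∂ρ) ^ 2 ≤ s ∧ s ≤ ∫ x, y x ∂ρ := by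
  have i1 : Integrable y ρ := intg (C := 1) hy (by
    filter_upwards [h1] with x hx
    rw [abs_of_nonneg (h0 x)]; exact hx)
  have i2 : Integrable (fun x => y x ^ 2) ρ := intg (C := 1) (hy.pow_const 2) (by
    filter_upwards [h1] with x hx
    rw [abs_of_nonneg (pow_nonneg (h0 x) 2)]; exact pow_le_one₀ (h0 x) hx)
  have i4 : Integrable (fun x => y x ^ 4) ρ := intg (C := 1) (hy.pow_const 4) (by
    filter_upwards [h1] with x hx
    rw [abs_of_nonneg (pow_nonneg (h0 x) 4)]; exact pow_le_one₀ (h0 x) hx)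
  have e4 : ∫ x, (y x ^ 2 - s) ^ 2 ∂ρ = (∫ x, y x ^ 4 ∂ρ) - s ^ 2 := by
    have : ∀ x, (y x ^ 2 - s) ^ 2 = 1 * y x ^ 4 + (-(2 * s)) * y x ^ 2 + s ^ 2 := fun x => by ring
    simp_rw [this]
    rw [quad i4 i2, hse]
    ring
  refine ⟨?_, ?_, ?_⟩
  · set r := √s with hr
    have hr0 : 0 < r := Real.sqrt_pos.2 hs
    have hrs : r ^ 2 = s := Real.sq_sqrt hs.le
    have hpt : ∀ x, r * ((3 / 2) / s * y x ^ 2 - 1 / (2 * s ^ 2) * y x ^ 4) ≤ y x := by
      intro x
      obtain ⟨z, hz⟩ : ∃ z, y x = r * z := ⟨y x / r, by field_simp⟩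
      have hz0 : 0 ≤ z := by
        by_contra hc
        push Not at hc
        have := h0 x
        rw [hz] at this
        nlinarith [mul_neg_of_pos_of_neg hr0 hc]
      have e : r * z - r * ((3 / 2) / s * (r * z) ^ 2 - 1 / (2 * s ^ 2) * (r * z) ^ 4) =
          r * (z * ((z - 1) ^ 2 * (z + 2)) / 2) := by
        rw [← hrs]; field_simp; ring
      have e' : 0 ≤ r * (z * ((z - 1) ^ 2 * (z + 2)) / 2) := by positivity
      rw [hz]; linarith
    have i5 : Integrable (fun x => r * ((3 / 2) / s * y x ^ 2 - 1 / (2 * s ^ 2) * y x ^ 4)) ρ :=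
      ((i2.const_mul _).sub (i4.const_mul _)).const_mul _
    have h5 := integral_mono i5 i1 hpt
    rw [integral_const_mul, integral_sub (i2.const_mul _) (i4.const_mul _), integral_const_mul,
      integral_const_mul, hse] at h5
    have h6 : ∫ x, y x ^ 4 ∂ρ ≤ V0 + s ^ 2 := by linarith
    refine le_trans ?_ h5
    apply mul_le_mul_of_nonneg_left _ hr0.le
    have h7 : 1 / (2 * s ^ 2) * ∫ x, y x ^ 4 ∂ρ ≤ 1 / (2 * s ^ 2) * (V0 + s ^ 2) :=
      mul_le_mul_of_nonneg_left h6 (by positivity)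
    have h8 : 3 / 2 / s * s - 1 / (2 * s ^ 2) * (V0 + s ^ 2) = 1 - V0 / (2 * s ^ 2) := by
      field_simp; ring
    linarith
  · set g := ∫ x, y x ∂ρ with hg
    have h2 : 0 ≤ ∫ x, (y x - g) ^ 2 ∂ρ := integral_nonneg fun x => sq_nonneg _
    have e2 : ∫ x, (y x - g) ^ 2 ∂ρ = s - g ^ 2 := by
      have : ∀ x, (y x - g) ^ 2 = 1 * y x ^ 2 + (-(2 * g)) * y x + g ^ 2 := fun x => by ring
      simp_rw [this]
      rw [quad i2 i1, hse, ← hg]
      ring
    linarith
  · rw [← hse]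
    apply integral_mono_ae i2 i1
    filter_upwards [h1] with x hx
    show y x ^ 2 ≤ y x
    nlinarith [h0 x]

private theorem key_abs {ρ : Measure α} [IsProbabilityMeasure ρ] {y a : α → ℝ} (hy : Measurable y) (ha : Measurable a)
    (h0 : ∀ x, 0 ≤ y x) (h1 : ∀ᵐ x ∂ρ, y x ≤ 1) (hay : ∀ᵐ x ∂ρ, |a x| ≤ y x) {s g A B L : ℝ} (hs : 0 < s)
    (hse : ∫ x, y x ^ 2 ∂ρ = s) (hg : ∫ x, y x ∂ρ = g) (hA : ∫ x, (a x / y x) ^ 2 ∂ρ ≤ A)
    (hB : s - g ^ 2 ≤ s * B) (hL : 0 < L) :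
    |(∫ x, a x / y x ∂ρ) - g / s * ∫ x, a x ∂ρ| ≤ (L * A + B / L) / 2 := by
  have i1 : Integrable y ρ := intg (C := 1) hy (by
    filter_upwards [h1] with x hx
    rw [abs_of_nonneg (h0 x)]; exact hx)
  have i2 : Integrable (fun x => y x ^ 2) ρ := intg (C := 1) (hy.pow_const 2) (by
    filter_upwards [h1] with x hx
    rw [abs_of_nonneg (pow_nonneg (h0 x) 2)]; exact pow_le_one₀ (h0 x) hx)
  have ia : Integrable a ρ := intg (C := 1) ha (by
    filter_upwards [h1, hay] with x hx hx'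
    exact hx'.trans hx)
  have hq : ∀ᵐ x ∂ρ, |a x / y x| ≤ 1 := by
    filter_upwards [hay] with x hx
    rw [abs_div, abs_of_nonneg (h0 x)]
    exact div_le_one_of_le₀ hx (h0 x)
  have iq : Integrable (fun x => a x / y x) ρ := intg (C := 1) (ha.div hy) hq
  have iq2 : Integrable (fun x => (a x / y x) ^ 2) ρ := intg (C := 1) ((ha.div hy).pow_const 2) (by
    filter_upwards [hq] with x hx
    rw [abs_pow]; exact pow_le_one₀ (abs_nonneg _) hx)
  have ih2 : Integrable (fun x => (1 - g / s * y x) ^ 2) ρ := by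
    have : ∀ x, (1 - g / s * y x) ^ 2 = 1 - (2 * (g / s)) * y x + (g / s) ^ 2 * y x ^ 2 := fun x => by ring
    simp_rw [this]
    exact ((integrable_const _).sub (i1.const_mul _)).add (i2.const_mul _)
  have eh2 : ∫ x, (1 - g / s * y x) ^ 2 ∂ρ = 1 - g ^ 2 / s := by
    have : ∀ x, (1 - g / s * y x) ^ 2 = (-(2 * (g / s))) * y x + (g / s) ^ 2 * y x ^ 2 + 1 := fun x => by ring
    simp_rw [this]
    rw [quad i1 i2, hse, hg]
    field_simp
    ring
  have hB' : 1 - g ^ 2 / s ≤ B := by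
    have : 1 - g ^ 2 / s = (s - g ^ 2) / s := by field_simp
    rw [this, div_le_iff₀ hs]; linarith
  have e : (∫ x, a x / y x ∂ρ) - g / s * ∫ x, a x ∂ρ = ∫ x, a x / y x * (1 - g / s * y x) ∂ρ := by
    rw [← integral_const_mul, ← integral_sub iq (ia.const_mul _)]
    apply integral_congr_ae
    filter_upwards [hay] with x hx
    rcases eq_or_lt_of_le (h0 x) with h | h
    · rw [← h] at hx
      have : a x = 0 := abs_eq_zero.1 (le_antisymm hx (abs_nonneg _))
      simp [this]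
    · field_simp
  rw [e]
  have hpt : ∀ x, |a x / y x * (1 - g / s * y x)| ≤ (L * (a x / y x) ^ 2 + 1 / L * (1 - g / s * y x) ^ 2) / 2 := by
    intro x
    set p := a x / y x
    set h := 1 - g / s * y x
    rw [abs_mul, le_div_iff₀ (by norm_num : (0 : ℝ) < 2)]
    have e1 : L * p ^ 2 + 1 / L * h ^ 2 - |p| * |h| * 2 = (L * |p| - |h|) ^ 2 / L := by
      field_simp
      rw [← sq_abs p, ← sq_abs h]
      ring
    have e2 : 0 ≤ (L * |p| - |h|) ^ 2 / L := by positivity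
    linarith
  have iR : Integrable (fun x => (L * (a x / y x) ^ 2 + 1 / L * (1 - g / s * y x) ^ 2) / 2) ρ :=
    ((iq2.const_mul _).add (ih2.const_mul _)).div_const _
  calc |∫ x, a x / y x * (1 - g / s * y x) ∂ρ| ≤ ∫ x, |a x / y x * (1 - g / s * y x)| ∂ρ :=
        abs_integral_le_integral_abs
    _ ≤ ∫ x, (L * (a x / y x) ^ 2 + 1 / L * (1 - g / s * y x) ^ 2) / 2 ∂ρ :=
        integral_mono_of_nonneg (Filter.Eventually.of_forall fun x => abs_nonneg _) iR
          (Filter.Eventually.of_forall hpt)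
    _ = (L * (∫ x, (a x / y x) ^ 2 ∂ρ) + 1 / L * (1 - g ^ 2 / s)) / 2 := by
        rw [integral_div, integral_add (iq2.const_mul _) (ih2.const_mul _), integral_const_mul,
          integral_const_mul, eh2]
    _ ≤ (L * A + B / L) / 2 := by
        have h3 : L * (∫ x, (a x / y x) ^ 2 ∂ρ) ≤ L * A := mul_le_mul_of_nonneg_left hA hL.le
        have h4 : 1 / L * (1 - g ^ 2 / s) ≤ B / L := by
          rw [div_mul_eq_mul_div, one_mul]
          exact div_le_div_of_nonneg_right hB' hL.le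
        linarith

end aux

private theorem s_pos {M s : ℝ} (hM : 1 ≤ M) (hs : 1 ≤ 2 * M * s) : 0 < s := by
  by_contra hc
  push Not at hc
  nlinarith

private theorem inv_s {M s : ℝ} (hM : 1 ≤ M) (hs : 1 ≤ 2 * M * s) : 1 / s ≤ 2 * M := by
  rw [div_le_iff₀ (s_pos hM hs)]; linarith

private theorem inv_sqrt_s {M s : ℝ} (hM : 1 ≤ M) (hs : 1 ≤ 2 * M * s) : 1 / √s ≤ 283 / 200 * M := by
  have h0 := s_pos hM hs
  have hr : 0 < √s := Real.sqrt_pos.2 h0
  rw [div_le_iff₀ hr]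
  have h1 : √s ^ 2 = s := Real.sq_sqrt h0.le
  by_contra hc
  push Not at hc
  have h2 : (283 / 200 * M * √s) ^ 2 < 1 := by
    have : 0 ≤ 283 / 200 * M * √s := by positivity
    nlinarith
  have h3 : (283 / 200 * M * √s) ^ 2 = (283 / 200) ^ 2 * (M * (M * s)) := by
    rw [mul_pow, mul_pow, h1]; ring
  have h4 : M * s ≤ M * (M * s) := by
    have : 0 ≤ M * s := by positivity
    nlinarith
  rw [h3] at h2
  nlinarith

private theorem d_big {d j : ℕ} {M : ℝ} (hP : Par d j M) : (10 : ℝ) ^ 6 ≤ d := by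
  have h1 : (1 : ℝ) ≤ M ^ 10 := one_le_pow₀ hP.one
  have h2 : (10 : ℝ) ^ 20 ≤ √(d : ℝ) := le_trans (by nlinarith) hP.big
  have h3 : √(d : ℝ) ^ 2 = d := Real.sq_sqrt (Nat.cast_nonneg d)
  rw [← h3]
  calc (10 : ℝ) ^ 6 ≤ ((10 : ℝ) ^ 20) ^ 2 := by norm_num
    _ ≤ √(d : ℝ) ^ 2 := pow_le_pow_left₀ (by positivity) h2 2

private theorem pz_le {d j : ℕ} {M : ℝ} (hP : Par d j M) : pz d ≤ 1 / (d : ℝ) ^ 2 := by
  have h := d_big hP
  have hd : (1 : ℝ) ≤ d := le_trans (by norm_num) h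
  rw [pz, ← one_div]
  exact one_div_le_one_div_of_le (by positivity) (pow_le_pow_right₀ hd (by norm_num))

private theorem inv_k {d j : ℕ} {M : ℝ} (hP : Par d j M) : 1 / ((d : ℝ) - j) ≤ M / d := by
  rw [div_le_div_iff₀ hP.k_pos hP.d_pos]; linarith [hP.hM]

private theorem P_meas (W : Submodule ℝ V) : Measurable fun x : V => ‖W.starProjection x‖ :=
  (continuous_norm.comp W.starProjection.continuous).measurable

private theorem P_le {ρ : Measure V} (h : US ρ) (W : Submodule ℝ V) : ∀ᵐ x ∂ρ, ‖W.starProjection x‖ ≤ 1 := by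
  filter_upwards [h.unit] with x hx
  rw [← hx]
  exact W.norm_starProjection_apply_le x

private theorem in_meas (w : V) (W : Submodule ℝ V) : Measurable fun x : V => ⟪w, W.starProjection x⟫ :=
  (continuous_const.inner W.starProjection.continuous).measurable

private theorem in_le {w : V} (hw : ‖w‖ = 1) (W : Submodule ℝ V) (x : V) :
    |⟪w, W.starProjection x⟫| ≤ ‖W.starProjection x‖ := by
  have := abs_real_inner_le_norm w (W.starProjection x)
  rwa [hw, one_mul] at this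

private theorem in_eq (w : V) (W : Submodule ℝ V) (x : V) : ⟪w, W.starProjection x⟫ = ⟪x, W.starProjection w⟫ := by
  rw [← Submodule.inner_starProjection_left_eq_right, real_inner_comm]

private theorem tail {j : ℕ} {M : ℝ} (hP : Par (Module.finrank ℝ V) j M) {ρ : Measure V} (hN : Nice j M ρ)
    {W : Submodule ℝ V} (hs : 1 ≤ 2 * M * sW ρ W) {F G : V → ℝ} (hF : Integrable F ρ) (hG : Integrable G ρ)
    (h1 : ∀ᵐ x ∂ρ, F x ≤ G x + 1)
    (h2 : ∀ᵐ x ∂ρ, sW ρ W ≤ 4 * ‖W.starProjection x‖ ^ 2 → F x ≤ G x) :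
    ∫ x, F x ∂ρ ≤ (∫ x, G x ∂ρ) + pz (Module.finrank ℝ V) := by
  have := hN.us.prob
  have hs0 := s_pos hP.one hs
  set s := sW ρ W with hsd
  set B : Set V := {x | 3 / 4 * s ≤ |‖W.starProjection x‖ ^ 2 - s|} with hB
  have hBm : MeasurableSet B :=
    measurableSet_le measurable_const ((((P_meas W).pow_const 2).sub measurable_const).abs)
  have hp : ρ.real B ≤ pz (Module.finrank ℝ V) := by
    apply hN.n4 W (3 / 4 * s)
    have hM := hP.one
    have h3 : M ≤ M ^ 3 := by nlinarith [mul_nonneg (sub_nonneg.2 hM) (sub_nonneg.2 hM), sq_nonneg M]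
    have h4 : 0 ≤ s * (M ^ 3 - M) := mul_nonneg hs0.le (by linarith)
    nlinarith
  have hle : ∀ᵐ x ∂ρ, F x ≤ G x + B.indicator (fun _ => (1 : ℝ)) x := by
    filter_upwards [h1, h2] with x hx1 hx2
    by_cases hx : x ∈ B
    · rw [indicator_of_mem hx]; exact hx1
    · rw [indicator_of_notMem hx, add_zero]
      apply hx2
      simp only [hB, mem_setOf_eq, not_le] at hx
      have := (abs_lt.1 hx).1
      linarith
  have iB : Integrable (B.indicator (fun _ => (1 : ℝ))) ρ := (integrable_const _).indicator hBm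
  calc ∫ x, F x ∂ρ ≤ ∫ x, (G x + B.indicator (fun _ => (1 : ℝ)) x) ∂ρ := integral_mono_ae hF (hG.add iB) hle
    _ = (∫ x, G x ∂ρ) + ρ.real B := by
        rw [integral_add hG iB, integral_indicator_const _ hBm]; simp
    _ ≤ _ := by linarith

private theorem half {s y : ℝ} (hs : 0 < s) (hy : 0 ≤ y) (h : s ≤ 4 * y ^ 2) : √s / 2 ≤ y := by
  have h1 : √s ^ 2 = s := Real.sq_sqrt hs.le
  have h2 : (√s / 2) ^ 2 ≤ y ^ 2 := by rw [div_pow, h1]; linarith
  exact le_of_sq_le_sq h2 hy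

private theorem fourth {j : ℕ} {M : ℝ} (hP : Par (Module.finrank ℝ V) j M) {ρ : Measure V} (hN : Nice j M ρ)
    {u : V} (hu : ‖u‖ ≤ 1) : ∫ x, ⟪x, u⟫ ^ 4 ∂ρ ≤ 3 * (M / (Module.finrank ℝ V : ℝ)) ^ 2 := by
  have h := hN.n2 u
  have hk := hP.k_pos
  have hd := hP.d_pos
  have h1 : ‖u‖ ^ 4 ≤ 1 := pow_le_one₀ (norm_nonneg _) hu
  have h2 : ∫ x, ⟪x, u⟫ ^ 4 ∂ρ ≤ 3 / ((Module.finrank ℝ V : ℝ) - j) ^ 2 := by
    rw [le_div_iff₀ (by positivity)]; linarith
  have h3 := inv_k hP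
  have h4 : (1 / ((Module.finrank ℝ V : ℝ) - j)) ^ 2 ≤ (M / (Module.finrank ℝ V : ℝ)) ^ 2 :=
    pow_le_pow_left₀ (by positivity) h3 2
  have h5 : (3 : ℝ) / ((Module.finrank ℝ V : ℝ) - j) ^ 2 = 3 * (1 / ((Module.finrank ℝ V : ℝ) - j)) ^ 2 := by
    rw [div_pow, one_pow]; ring
  linarith

private theorem second {j : ℕ} {M : ℝ} (hP : Par (Module.finrank ℝ V) j M) {ρ : Measure V} (hN : Nice j M ρ)
    {u : V} (hu : ‖u‖ ≤ 1) : ∫ x, ⟪x, u⟫ ^ 2 ∂ρ ≤ M / (Module.finrank ℝ V : ℝ) := by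
  have h := hN.n1 u
  have hk := hP.k_pos
  have h1 : ‖u‖ ^ 2 ≤ 1 := pow_le_one₀ (norm_nonneg _) hu
  have h2 : ∫ x, ⟪x, u⟫ ^ 2 ∂ρ ≤ 1 / ((Module.finrank ℝ V : ℝ) - j) := by
    rw [le_div_iff₀ hk]; linarith
  exact h2.trans (inv_k hP)

private theorem intp {ρ : Measure V} (h : US ρ) {u : V} (hu : ‖u‖ ≤ 1) (n : ℕ) :
    Integrable (fun x : V => ⟪x, u⟫ ^ n) ρ := by
  have := h.prob
  refine intg (C := 1) ((continuous_id.inner continuous_const).measurable.pow_const n) ?_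
  filter_upwards [h.unit] with x hx
  rw [abs_pow]
  refine pow_le_one₀ (abs_nonneg _) ((abs_real_inner_le_norm _ _).trans ?_)
  rw [hx, one_mul]; exact hu

private theorem Pw_le {w : V} (hw : ‖w‖ = 1) (W : Submodule ℝ V) : ‖W.starProjection w‖ ≤ 1 := by
  rw [← hw]; exact W.norm_starProjection_apply_le w

/-- `g` is between `√s (1 - 6 M⁴/d)` and `√s`, and at least `s`. -/
theorem g_bounds {j : ℕ} {M : ℝ} (hP : Par (Module.finrank ℝ V) j M) {ρ : Measure V} (hN : Nice j M ρ)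
    {W : Submodule ℝ V} (hs : 1 ≤ 2 * M * sW ρ W) :
    √(sW ρ W) * (1 - 6 * M ^ 4 / (Module.finrank ℝ V : ℝ)) ≤ gW ρ W ∧ gW ρ W ≤ √(sW ρ W) ∧ sW ρ W ≤ gW ρ W := by
  have := hN.us.prob
  have hM := hP.one
  have hs0 := s_pos hM hs
  have hd := hP.d_pos
  set d : ℝ := (Module.finrank ℝ V : ℝ) with hdd
  have hV : ∫ x, (‖W.starProjection x‖ ^ 2 - sW ρ W) ^ 2 ∂ρ ≤ 3 * M ^ 2 / d := by
    have := hN.n3 W
    rw [le_div_iff₀ hd]; linarith
  obtain ⟨h1, h2, h3⟩ := g_abs (P_meas W) (fun x => norm_nonneg _) (P_le hN.us W) hs0 rfl hV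
  refine ⟨?_, ?_, h3⟩
  · refine le_trans ?_ h1
    apply mul_le_mul_of_nonneg_left _ (Real.sqrt_nonneg _)
    have h4 : (1 / sW ρ W) ^ 2 ≤ (2 * M) ^ 2 := pow_le_pow_left₀ (by positivity) (inv_s hM hs) 2
    have h5 : 3 * M ^ 2 / d / (2 * sW ρ W ^ 2) = (3 / 2) * M ^ 2 / d * (1 / sW ρ W) ^ 2 := by
      field_simp
    have h6 : (3 / 2) * M ^ 2 / d * (1 / sW ρ W) ^ 2 ≤ (3 / 2) * M ^ 2 / d * (2 * M) ^ 2 :=
      mul_le_mul_of_nonneg_left h4 (by positivity)
    have h7 : (3 / 2) * M ^ 2 / d * (2 * M) ^ 2 = 6 * M ^ 4 / d := by ring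
    linarith
  · exact Real.le_sqrt_of_sq_le h2

theorem key {j : ℕ} {M : ℝ} (hP : Par (Module.finrank ℝ V) j M) {ρ : Measure V} (hN : Nice j M ρ)
    {W : Submodule ℝ V} (hs : 1 ≤ 2 * M * sW ρ W) {u w : V} (hu : ‖u‖ = 1) (hw : ‖w‖ = 1) :
    |(∫ x, ⟪u, x⟫ * ⟪w, W.starProjection x⟫ / ‖W.starProjection x‖ ∂ρ) -
        gW ρ W / sW ρ W * ∫ x, ⟪u, x⟫ * ⟪w, W.starProjection x⟫ ∂ρ| ≤
      20 * M ^ 4 / ((Module.finrank ℝ V : ℝ) * √(Module.finrank ℝ V : ℝ)) := by
  have := hN.us.prob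
  have hM := hP.one
  have hs0 := s_pos hM hs
  have hd := hP.d_pos
  obtain ⟨hg1, hg2, hg3⟩ := g_bounds hP hN hs
  have hpz := pz_le hP
  have hbig := d_big hP
  have hPw := Pw_le hw W
  set d : ℝ := (Module.finrank ℝ V : ℝ) with hdd
  set s := sW ρ W with hsd
  set g := gW ρ W with hgd
  have hr0 : 0 < √s := Real.sqrt_pos.2 hs0
  have hrs : √s ^ 2 = s := Real.sq_sqrt hs0.le
  -- the size of `s - g²`
  have hB : s - g ^ 2 ≤ s * (12 * M ^ 4 / d) := by
    by_cases ht : 6 * M ^ 4 / d ≤ 1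
    · have h1 : (√s * (1 - 6 * M ^ 4 / d)) ^ 2 ≤ g ^ 2 :=
        pow_le_pow_left₀ (mul_nonneg hr0.le (by linarith)) hg1 2
      rw [mul_pow, hrs] at h1
      have h2 : 12 * M ^ 4 / d = 2 * (6 * M ^ 4 / d) := by ring
      rw [h2]
      nlinarith [mul_nonneg hs0.le (sq_nonneg (6 * M ^ 4 / d))]
    · push Not at ht
      have h2 : 12 * M ^ 4 / d = 2 * (6 * M ^ 4 / d) := by ring
      rw [h2]
      nlinarith [sq_nonneg g, mul_pos hs0 (sub_pos.2 ht)]
  -- the function `a`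
  have ham : Measurable fun x : V => ⟪u, x⟫ * ⟪w, W.starProjection x⟫ :=
    (continuous_const.inner continuous_id).measurable.mul (in_meas w W)
  have hu1 : ∀ᵐ x ∂ρ, |⟪u, x⟫| ≤ 1 := by
    filter_upwards [hN.us.unit] with x hx
    have := abs_real_inner_le_norm u x
    rwa [hu, hx, one_mul] at this
  have hay : ∀ᵐ x ∂ρ, |⟪u, x⟫ * ⟪w, W.starProjection x⟫| ≤ ‖W.starProjection x‖ := by
    filter_upwards [hu1] with x hx
    rw [abs_mul]
    have h2 := in_le hw W x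
    have h3 := abs_nonneg ⟪w, W.starProjection x⟫
    nlinarith
  have hq1 : ∀ᵐ x ∂ρ, (⟪u, x⟫ * ⟪w, W.starProjection x⟫ / ‖W.starProjection x‖) ^ 2 ≤ 1 := by
    filter_upwards [hay] with x hx
    rw [← sq_abs, abs_div, abs_of_nonneg (norm_nonneg (W.starProjection x))]
    exact pow_le_one₀ (by positivity) (div_le_one_of_le₀ hx (norm_nonneg _))
  -- the second moment of `a / y`
  have hA : ∫ x, (⟪u, x⟫ * ⟪w, W.starProjection x⟫ / ‖W.starProjection x‖) ^ 2 ∂ρ ≤ 25 * M ^ 4 / d ^ 2 := by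
    have hF : Integrable (fun x : V => (⟪u, x⟫ * ⟪w, W.starProjection x⟫ / ‖W.starProjection x‖) ^ 2) ρ :=
      intg (C := 1) ((ham.div (P_meas W)).pow_const 2) (by
        filter_upwards [hq1] with x hx
        rw [abs_of_nonneg (sq_nonneg _)]; exact hx)
    have hG : Integrable (fun x : V => 2 / s * (⟪x, u⟫ ^ 4 + ⟪x, W.starProjection w⟫ ^ 4)) ρ :=
      ((intp hN.us hu.le 4).add (intp hN.us hPw 4)).const_mul _
    have h := tail hP hN hs hF hG (by
        filter_upwards [hq1] with x hx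
        have : 0 ≤ 2 / s * (⟪x, u⟫ ^ 4 + ⟪x, W.starProjection w⟫ ^ 4) := by positivity
        linarith) (by
        refine Filter.Eventually.of_forall fun x hx => ?_
        have hy0 := norm_nonneg (W.starProjection x)
        have hy2 : 0 < ‖W.starProjection x‖ ^ 2 := by
          have : 0 < 4 * ‖W.starProjection x‖ ^ 2 := lt_of_lt_of_le hs0 hx
          linarith
        rw [← in_eq w W x, real_inner_comm u x, div_pow, div_le_iff₀ hy2]
        set p := ⟪u, x⟫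
        set r := ⟪w, W.starProjection x⟫
        have h1 : (p * r) ^ 2 ≤ (p ^ 4 + r ^ 4) / 2 := by nlinarith [sq_nonneg (p ^ 2 - r ^ 2)]
        have h2 : 0 ≤ p ^ 4 + r ^ 4 := by positivity
        have h3 : 2 / s * (p ^ 4 + r ^ 4) * ‖W.starProjection x‖ ^ 2 =
            (p ^ 4 + r ^ 4) / 2 * (4 * ‖W.starProjection x‖ ^ 2 / s) := by field_simp; ring
        rw [h3]
        have h4 : 1 ≤ 4 * ‖W.starProjection x‖ ^ 2 / s := by rw [le_div_iff₀ hs0]; linarith
        nlinarith)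
    rw [integral_const_mul, integral_add (intp hN.us hu.le 4) (intp hN.us hPw 4)] at h
    have f1 := fourth hP hN hu.le
    have f2 := fourth hP hN hPw
    rw [← hdd] at f1 f2
    have h6 : 2 / s * ((∫ x, ⟪x, u⟫ ^ 4 ∂ρ) + ∫ x, ⟪x, W.starProjection w⟫ ^ 4 ∂ρ) ≤
        2 / s * (6 * (M / d) ^ 2) := mul_le_mul_of_nonneg_left (by linarith) (by positivity)
    have h7 : 2 / s * (6 * (M / d) ^ 2) = 12 * (M ^ 2 / d ^ 2) * (1 / s) := by ring
    have h8 : 12 * (M ^ 2 / d ^ 2) * (1 / s) ≤ 12 * (M ^ 2 / d ^ 2) * (2 * M) :=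
      mul_le_mul_of_nonneg_left (inv_s hM hs) (by positivity)
    have h9 : 12 * (M ^ 2 / d ^ 2) * (2 * M) + 1 / d ^ 2 ≤ 25 * M ^ 4 / d ^ 2 := by
      have e1 : 12 * (M ^ 2 / d ^ 2) * (2 * M) + 1 / d ^ 2 = (24 * M ^ 3 + 1) / d ^ 2 := by ring
      rw [e1]
      apply div_le_div_of_nonneg_right _ (by positivity)
      have m3 : (1 : ℝ) ≤ M ^ 3 := one_le_pow₀ hM
      nlinarith
    linarith
  have hD : 0 < √d := Real.sqrt_pos.2 hd
  have hDD : √d ^ 2 = d := Real.sq_sqrt hd.le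
  have h := key_abs (P_meas W) ham (fun x => norm_nonneg _) (P_le hN.us W) hay hs0 rfl rfl hA hB hD
  refine h.trans ?_
  have e1 : (√d * (25 * M ^ 4 / d ^ 2) + 12 * M ^ 4 / d / √d) / 2 = (37 / 2) * M ^ 4 / (d * √d) := by
    have : d ^ 2 = d * √d ^ 2 := by rw [hDD]; ring
    rw [this]
    field_simp
    ring
  rw [e1]
  apply div_le_div_of_nonneg_right _ (by positivity)
  have : 0 ≤ M ^ 4 := by positivity
  linarith

theorem two {j : ℕ} {M : ℝ} (hP : Par (Module.finrank ℝ V) j M) {ρ : Measure V} (hN : Nice j M ρ)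
    {W : Submodule ℝ V} (hs : 1 ≤ 2 * M * sW ρ W) {w : V} (hw : ‖w‖ = 1) :
    ∫ x, ⟪w, W.starProjection x⟫ ^ 2 / ‖W.starProjection x‖ ∂ρ ≤ 3 * M ^ 2 / (Module.finrank ℝ V : ℝ) := by
  have := hN.us.prob
  have hM := hP.one
  have hs0 := s_pos hM hs
  have hd := hP.d_pos
  have hpz := pz_le hP
  have hbig := d_big hP
  have hPw := Pw_le hw W
  have f1 := second hP hN hPw
  have hi := inv_sqrt_s hM hs
  set d : ℝ := (Module.finrank ℝ V : ℝ) with hdd
  set s := sW ρ W with hsd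
  have hr0 : 0 < √s := Real.sqrt_pos.2 hs0
  have hy : ∀ x : V, ⟪w, W.starProjection x⟫ ^ 2 / ‖W.starProjection x‖ ≤ ‖W.starProjection x‖ := by
    intro x
    rcases eq_or_lt_of_le (norm_nonneg (W.starProjection x)) with h | h
    · rw [← h]; simp
    · rw [div_le_iff₀ h, ← sq_abs]
      have := in_le hw W x
      nlinarith [abs_nonneg ⟪w, W.starProjection x⟫]
  have hF : Integrable (fun x : V => ⟪w, W.starProjection x⟫ ^ 2 / ‖W.starProjection x‖) ρ :=
    intg (C := 1) (((in_meas w W).pow_const 2).div (P_meas W)) (by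
      filter_upwards [P_le hN.us W] with x hx
      rw [abs_of_nonneg (by positivity)]
      exact (hy x).trans hx)
  have hG : Integrable (fun x : V => 2 / √s * ⟪x, W.starProjection w⟫ ^ 2) ρ := (intp hN.us hPw 2).const_mul _
  have h := tail hP hN hs hF hG (by
      filter_upwards [P_le hN.us W] with x hx
      have h0 : 0 ≤ 2 / √s * ⟪x, W.starProjection w⟫ ^ 2 := by positivity
      linarith [hy x]) (by
      refine Filter.Eventually.of_forall fun x hx => ?_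
      have hy1 := half hs0 (norm_nonneg _) hx
      have hy0 : 0 < ‖W.starProjection x‖ := lt_of_lt_of_le (by positivity) hy1
      rw [← in_eq w W x, div_le_iff₀ hy0]
      have e1 : 2 / √s * ⟪w, W.starProjection x⟫ ^ 2 * ‖W.starProjection x‖ =
          ⟪w, W.starProjection x⟫ ^ 2 * (2 * ‖W.starProjection x‖ / √s) := by ring
      rw [e1]
      have h4 : 1 ≤ 2 * ‖W.starProjection x‖ / √s := by rw [le_div_iff₀ hr0]; linarith
      nlinarith [sq_nonneg ⟪w, W.starProjection x⟫])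
  rw [integral_const_mul] at h
  have h6 : 2 / √s * ∫ x, ⟪x, W.starProjection w⟫ ^ 2 ∂ρ ≤ 2 / √s * (M / d) :=
    mul_le_mul_of_nonneg_left f1 (by positivity)
  have h7 : 2 / √s * (M / d) = 2 * (M / d) * (1 / √s) := by ring
  have h8 : 2 * (M / d) * (1 / √s) ≤ 2 * (M / d) * (283 / 200 * M) :=
    mul_le_mul_of_nonneg_left hi (by positivity)
  have h9 : 2 * (M / d) * (283 / 200 * M) + 1 / d ^ 2 ≤ 3 * M ^ 2 / d := by
    have e1 : 3 * M ^ 2 / d - (2 * (M / d) * (283 / 200 * M) + 1 / d ^ 2) = (17 / 100 * M ^ 2 * d - 1) / d ^ 2 := by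
      field_simp; ring
    have m2 : (1 : ℝ) ≤ M ^ 2 := one_le_pow₀ hM
    have : 0 ≤ (17 / 100 * M ^ 2 * d - 1) / d ^ 2 := by
      apply div_nonneg _ (by positivity)
      nlinarith
    linarith
  linarith

theorem four {j : ℕ} {M : ℝ} (hP : Par (Module.finrank ℝ V) j M) {ρ : Measure V} (hN : Nice j M ρ)
    {W : Submodule ℝ V} (hs : 1 ≤ 2 * M * sW ρ W) {w : V} (hw : ‖w‖ = 1) :
    ∫ x, ⟪w, W.starProjection x⟫ ^ 4 / ‖W.starProjection x‖ ^ 3 ∂ρ ≤
      70 * M ^ 4 / (Module.finrank ℝ V : ℝ) ^ 2 := by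
  have := hN.us.prob
  have hM := hP.one
  have hs0 := s_pos hM hs
  have hd := hP.d_pos
  have hpz := pz_le hP
  have hbig := d_big hP
  have hPw := Pw_le hw W
  have f1 := fourth hP hN hPw
  have hi := inv_sqrt_s hM hs
  have hi' := inv_s hM hs
  set d : ℝ := (Module.finrank ℝ V : ℝ) with hdd
  set s := sW ρ W with hsd
  have hr0 : 0 < √s := Real.sqrt_pos.2 hs0
  have hrs : √s ^ 2 = s := Real.sq_sqrt hs0.le
  have hy : ∀ x : V, ⟪w, W.starProjection x⟫ ^ 4 / ‖W.starProjection x‖ ^ 3 ≤ ‖W.starProjection x‖ := by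
    intro x
    rcases eq_or_lt_of_le (norm_nonneg (W.starProjection x)) with h | h
    · rw [← h]; simp
    · rw [div_le_iff₀ (by positivity), ← pow_succ']
      have h1 := pow_le_pow_left₀ (abs_nonneg _) (in_le hw W x) 4
      rwa [Even.pow_abs (by decide)] at h1
  have hF : Integrable (fun x : V => ⟪w, W.starProjection x⟫ ^ 4 / ‖W.starProjection x‖ ^ 3) ρ :=
    intg (C := 1) (((in_meas w W).pow_const 4).div ((P_meas W).pow_const 3)) (by
      filter_upwards [P_le hN.us W] with x hx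
      rw [abs_of_nonneg (by positivity)]
      exact (hy x).trans hx)
  have hG : Integrable (fun x : V => 8 / (s * √s) * ⟪x, W.starProjection w⟫ ^ 4) ρ := (intp hN.us hPw 4).const_mul _
  have h := tail hP hN hs hF hG (by
      filter_upwards [P_le hN.us W] with x hx
      have h0 : 0 ≤ 8 / (s * √s) * ⟪x, W.starProjection w⟫ ^ 4 := by positivity
      linarith [hy x]) (by
      refine Filter.Eventually.of_forall fun x hx => ?_
      have hy1 := half hs0 (norm_nonneg _) hx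
      have hy0 : 0 < ‖W.starProjection x‖ := lt_of_lt_of_le (by positivity) hy1
      rw [← in_eq w W x, div_le_iff₀ (by positivity)]
      have e1 : 8 / (s * √s) * ⟪w, W.starProjection x⟫ ^ 4 * ‖W.starProjection x‖ ^ 3 =
          ⟪w, W.starProjection x⟫ ^ 4 * ((‖W.starProjection x‖ / (√s / 2)) ^ 3) := by
        have : s * √s = √s ^ 3 := by rw [← hrs]; rw [Real.sqrt_sq (Real.sqrt_nonneg s)]; ring
        rw [this]
        field_simp
        ring
      rw [e1]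
      have h4 : 1 ≤ (‖W.starProjection x‖ / (√s / 2)) ^ 3 :=
        one_le_pow₀ (by rw [le_div_iff₀ (by positivity)]; linarith)
      have h5 : 0 ≤ ⟪w, W.starProjection x⟫ ^ 4 := by positivity
      nlinarith)
  rw [integral_const_mul] at h
  have h6 : 8 / (s * √s) * ∫ x, ⟪x, W.starProjection w⟫ ^ 4 ∂ρ ≤ 8 / (s * √s) * (3 * (M / d) ^ 2) :=
    mul_le_mul_of_nonneg_left f1 (by positivity)
  have h7 : 8 / (s * √s) * (3 * (M / d) ^ 2) = 24 * (M ^ 2 / d ^ 2) * ((1 / s) * (1 / √s)) := by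
    field_simp; ring
  have h8 : (1 / s) * (1 / √s) ≤ (2 * M) * (283 / 200 * M) :=
    mul_le_mul hi' hi (by positivity) (by positivity)
  have h8' : 24 * (M ^ 2 / d ^ 2) * ((1 / s) * (1 / √s)) ≤ 24 * (M ^ 2 / d ^ 2) * ((2 * M) * (283 / 200 * M)) :=
    mul_le_mul_of_nonneg_left h8 (by positivity)
  have h9 : 24 * (M ^ 2 / d ^ 2) * ((2 * M) * (283 / 200 * M)) + 1 / d ^ 2 ≤ 70 * M ^ 4 / d ^ 2 := by
    have e1 : 24 * (M ^ 2 / d ^ 2) * ((2 * M) * (283 / 200 * M)) + 1 / d ^ 2 = (1698 / 25 * M ^ 4 + 1) / d ^ 2 := by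
      ring
    rw [e1]
    apply div_le_div_of_nonneg_right _ (by positivity)
    have m4 : (1 : ℝ) ≤ M ^ 4 := one_le_pow₀ hM
    linarith
  linarith

end Pool.Agent.PBL
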