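import Pool.Agent.PBL.E2
import Pool.Agent.PBL.E3
import Pool.Agent.PBL.D2

/-! Module PBL-E4 (near isotropy, first half). `j = n + 1`, `k = d - j`, `s X = sW ρ (oc X)`, `g X = gW ρ (oc X)`.
`mean_s`: Fubini and `nop_inner`. `low_s`: `conc_tail` for `k ρ`. `ni_first`: (a) restrict to `v/2 ≤ s X` (`low_s`), (b) leave one out
(`loo_sym`) and replace the indicator of `v/2 ≤ s X` by the one of `v/2 ≤ s (tail X)` (`step_b`), (c) `key` for the subspace `oc X'`
(`step_c`), (d) back to `iw (n + 1)` (`iw_gW`); the errors are added in `fin_num`. -/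

set_option autoImplicit false

namespace Pool.Agent.PBL
open MeasureTheory ProbabilityTheory Set Filter Topology Metric
open Pool.Agent.HP89 Pool.Agent.FI75
open scoped RealInnerProductSpace ENNReal

variable {V : Type*} [NormedAddCommGroup V] [InnerProductSpace ℝ V] [FiniteDimensional ℝ V]
  [MeasurableSpace V] [BorelSpace V]

/-- the parameter `v`. -/
noncomputable def vv (j : ℕ) (ρ : Measure V) : ℝ :=
  ((Module.finrank ℝ V : ℝ) - j) * ∫ x, ∫ y, ⟪x, y⟫ ^ 2 ∂(Nop j ρ) ∂ρ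

omit [MeasurableSpace V] [BorelSpace V] in
private theorem norm_rv_le {n : ℕ} (X : Fin n → V) (x : V) : ‖rv X x‖ ≤ ‖x‖ := by
  rw [rv_eq]; exact Submodule.norm_starProjection_apply_le _ _

omit [MeasurableSpace V] [BorelSpace V] in
private theorem norm_sub_rv_le {n : ℕ} (X : Fin n → V) (x : V) : ‖x - rv X x‖ ≤ ‖x‖ := by
  have h := Submodule.norm_sq_eq_add_norm_sq_starProjection x (oc X)
  have e : (oc X)ᗮ.starProjection x = x - rv X x := by
    rw [rv_eq]
    have := (oc X).starProjection_add_starProjection_orthogonal x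
    rw [← this]; simp
  rw [e] at h
  have h2 : ‖x - rv X x‖ ^ 2 ≤ ‖x‖ ^ 2 := by nlinarith [sq_nonneg ‖(oc X).starProjection x‖]
  exact le_of_sq_le_sq h2 (norm_nonneg _)

omit [MeasurableSpace V] [BorelSpace V] in
private theorem sq_rv {n : ℕ} (X : Fin n → V) (x : V) : ⟪rv X x, x⟫ = ‖(oc X).starProjection x‖ ^ 2 := by
  rw [rv_eq]
  exact (oc X).re_inner_starProjection_eq_normSq x

omit [MeasurableSpace V] [BorelSpace V] in
private theorem inner_rv_comm {n : ℕ} (X : Fin n → V) (x y : V) : ⟪rv X x, y⟫ = ⟪x, rv X y⟫ := by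
  rw [rv_eq, rv_eq]
  exact Submodule.inner_starProjection_left_eq_right _ _ _

theorem mean_s {j : ℕ} {ρ : Measure V} (hρ : US ρ) (hj : 0 < en j ρ) (hjd : j < Module.finrank ℝ V) :
    iw j ρ (fun X => sW ρ (oc X)) = vv j ρ * en j ρ := by
  have := hρ.prob
  have h1 : ∀ x : V, ((Module.finrank ℝ V : ℝ) - j) * en j ρ * ∫ y, ⟪x, y⟫ ^ 2 ∂(Nop j ρ) =
      ∫ X, wv X * ‖(oc X).starProjection x‖ ^ 2 ∂(pp j ρ) := by
    intro x
    have h := nop_inner hρ hj hjd x x
    have e : (fun y : V => ⟪x, y⟫ ^ 2) = fun y => ⟪y, x⟫ * ⟪y, x⟫ := by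
      funext y; rw [real_inner_comm]; ring
    rw [e, h]
    unfold iw
    refine integral_congr_ae (Eventually.of_forall fun X => ?_)
    simp only [sq_rv]
  have hint : Integrable (Function.uncurry fun (X : Fin j → V) (x : V) => wv X * ‖(oc X).starProjection x‖ ^ 2)
      ((pp j ρ).prod ρ) := by
    refine Integrable.of_bound (C := 1) ?_ ?_
    · refine Measurable.aestronglyMeasurable ?_
      have e : (Function.uncurry fun (X : Fin j → V) (x : V) => wv X * ‖(oc X).starProjection x‖ ^ 2) =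
          fun p : (Fin j → V) × V => wv p.1 * ‖rv p.1 p.2‖ ^ 2 := by
        funext p; simp only [Function.uncurry, rv_eq]
      rw [e]
      exact ((measurable_wv j).comp measurable_fst).mul (meas_rv.norm.pow_const 2)
    · have a1 := Measure.quasiMeasurePreserving_fst (μ := pp j ρ) (ν := ρ) |>.ae (ae_wv_le hρ j)
      have a2 := Measure.quasiMeasurePreserving_snd (μ := pp j ρ) (ν := ρ) |>.ae hρ.unit
      filter_upwards [a1, a2] with p h1 h2
      simp only [Function.uncurry]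
      rw [norm_mul, Real.norm_eq_abs, abs_of_nonneg h1.1, norm_pow, norm_norm]
      have h3 : ‖(oc p.1).starProjection p.2‖ ≤ 1 := by
        rw [← h2]; exact Submodule.norm_starProjection_apply_le _ _
      have h4 : ‖(oc p.1).starProjection p.2‖ ^ 2 ≤ 1 := pow_le_one₀ (norm_nonneg _) h3
      calc wv p.1 * ‖(oc p.1).starProjection p.2‖ ^ 2 ≤ 1 * 1 :=
            mul_le_mul h1.2 h4 (by positivity) zero_le_one
        _ = 1 := one_mul 1
  calc iw j ρ (fun X => sW ρ (oc X)) = ∫ X, ∫ x, wv X * ‖(oc X).starProjection x‖ ^ 2 ∂ρ ∂(pp j ρ) := by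
        unfold iw sW
        refine integral_congr_ae (Eventually.of_forall fun X => ?_)
        simp only [integral_const_mul]
    _ = ∫ x, ∫ X, wv X * ‖(oc X).starProjection x‖ ^ 2 ∂(pp j ρ) ∂ρ := integral_integral_swap hint
    _ = ∫ x, ((Module.finrank ℝ V : ℝ) - j) * en j ρ * ∫ y, ⟪x, y⟫ ^ 2 ∂(Nop j ρ) ∂ρ := by
        refine integral_congr_ae (Eventually.of_forall fun x => ?_)
        simp only [h1 x]
    _ = vv j ρ * en j ρ := by rw [integral_const_mul]; unfold vv; ring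

/-- (T). -/
theorem low_s {j : ℕ} {M : ℝ} (hP : Par (Module.finrank ℝ V) j M) {ρ : Measure V} (hN : Nice j M ρ)
    (hj : 0 < en j ρ) (hv : 1 ≤ M * vv j ρ) :
    iw j ρ ({X : Fin j → V | sW ρ (oc X) < vv j ρ / 2 + 1 / ((Module.finrank ℝ V : ℝ) - j)}.indicator (fun _ => 1)) ≤
      pz (Module.finrank ℝ V) * en j ρ := by
  have hk := hP.k_pos
  have hd := hP.d_pos
  have := hN.us.prob
  have hν := sub1_smul hk.le hN.us hN.n1
  set k : ℝ := (Module.finrank ℝ V : ℝ) - j with hkdef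
  have hM := hP.one
  have hM0 : 0 < M := lt_of_lt_of_le one_pos hM
  have hmW : mW j ρ (ENNReal.ofReal k • ρ) = k * vv j ρ := by
    unfold mW
    have e : (fun X : Fin j → V => sW (ENNReal.ofReal k • ρ) (oc X)) = fun X => k * sW ρ (oc X) := by
      funext X; exact sW_smul hk.le ρ _
    rw [e, iw_mul, mean_s hN.us hj hP.hjd]; field_simp
  have hc := conc_tail hN.us hν hj (k * vv j ρ / 2 - 1)
  rw [hmW] at hc
  -- the numerical bound
  have hkv : (Module.finrank ℝ V : ℝ) ≤ M ^ 2 * (k * vv j ρ) := by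
    have h1 := hP.hM
    calc (Module.finrank ℝ V : ℝ) ≤ M * k := h1
      _ = M * k * 1 := by ring
      _ ≤ M * k * (M * vv j ρ) := mul_le_mul_of_nonneg_left hv (by positivity)
      _ = M ^ 2 * (k * vv j ρ) := by ring
  have hD : 10 ^ 20 * M ^ 10 ≤ √(Module.finrank ℝ V : ℝ) := hP.big
  have hDd : (Module.finrank ℝ V : ℝ) = √(Module.finrank ℝ V : ℝ) ^ 2 := (Real.sq_sqrt hd.le).symm
  have hbig : 200 * M ^ 4 ≤ (Module.finrank ℝ V : ℝ) := by
    have h1 : (1 : ℝ) ≤ √(Module.finrank ℝ V : ℝ) := by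
      have : (1 : ℝ) ≤ M ^ 10 := one_le_pow₀ hM
      linarith
    have h2 : √(Module.finrank ℝ V : ℝ) ≤ (Module.finrank ℝ V : ℝ) := by
      rw [hDd] ; nlinarith [Real.sqrt_nonneg (√(Module.finrank ℝ V : ℝ) ^ 2), Real.sqrt_sq (le_trans zero_le_one h1)]
    have h3 : M ^ 4 ≤ M ^ 10 := pow_le_pow_right₀ hM (by norm_num)
    have h4 : 0 < M ^ 4 := by positivity
    nlinarith
  have hnum := num1 hP (t := k * vv j ρ / 2 - 1) (by
    have h2 : M ^ 2 * (Module.finrank ℝ V : ℝ) ≤ M ^ 4 * (k * vv j ρ) := by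
      calc M ^ 2 * (Module.finrank ℝ V : ℝ) ≤ M ^ 2 * (M ^ 2 * (k * vv j ρ)) :=
            mul_le_mul_of_nonneg_left hkv (by positivity)
        _ = M ^ 4 * (k * vv j ρ) := by ring
    have h3 : (Module.finrank ℝ V : ℝ) ≤ M ^ 2 * (Module.finrank ℝ V : ℝ) := by
      have : (1 : ℝ) ≤ M ^ 2 := one_le_pow₀ hM
      nlinarith
    nlinarith)
  have hpz : 0 < pz (Module.finrank ℝ V) := by unfold pz; positivity
  refine le_trans ?_ (le_trans hc ?_)
  · refine iw_mono hN.us (C := 1) ?_ ?_ ?_ ?_ ?_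
    · exact measurable_const.indicator (measurableSet_lt (meas_sW ρ) measurable_const)
    · refine measurable_const.indicator (measurableSet_le measurable_const ?_)
      have e : (fun X : Fin j → V => |sW (ENNReal.ofReal k • ρ) (oc X) - k * vv j ρ|) =
          fun X => |k * sW ρ (oc X) - k * vv j ρ| := by
        funext X; rw [sW_smul hk.le]
      rw [e]
      exact (((meas_sW ρ).const_mul k).sub_const _).abs
    · intro X; by_cases h : X ∈ {X : Fin j → V | sW ρ (oc X) < vv j ρ / 2 + 1 / k}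
      · rw [indicator_of_mem h]; simp
      · rw [indicator_of_notMem h]; simp
    · intro X; by_cases h : X ∈ {X : Fin j → V | k * vv j ρ / 2 - 1 ≤ |sW (ENNReal.ofReal k • ρ) (oc X) - k * vv j ρ|}
      · rw [indicator_of_mem h]; simp
      · rw [indicator_of_notMem h]; simp
    · intro X _ _
      refine indicator_le_indicator_of_subset ?_ (fun _ => zero_le_one) X
      intro Y hY
      have hY' : sW ρ (oc Y) < vv j ρ / 2 + 1 / k := hY
      change k * vv j ρ / 2 - 1 ≤ |sW (ENNReal.ofReal k • ρ) (oc Y) - k * vv j ρ|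
      rw [sW_smul hk.le]
      have h1 : k * sW ρ (oc Y) < k * vv j ρ / 2 + 1 := by
        have := mul_lt_mul_of_pos_left hY' hk
        have e : k * (vv j ρ / 2 + 1 / k) = k * vv j ρ / 2 + 1 := by field_simp
        rw [e] at this; exact this
      have h2 : k * vv j ρ - k * sW ρ (oc Y) ≤ |k * sW ρ (oc Y) - k * vv j ρ| := by
        rw [abs_sub_comm]; exact le_abs_self _
      linarith
  · exact mul_le_mul_of_nonneg_right (le_trans hnum (by linarith)) hj.le

private theorem gs_bounds {ρ : Measure V} (hρ : US ρ) (W : Submodule ℝ V) :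
    0 ≤ sW ρ W ∧ sW ρ W ≤ gW ρ W ∧ 0 ≤ gW ρ W ∧ gW ρ W ≤ 1 := by
  have := hρ.prob
  have hm : Measurable (fun x : V => ‖W.starProjection x‖) := (W.starProjection.continuous.measurable).norm
  have hle : ∀ᵐ x ∂ρ, ‖W.starProjection x‖ ≤ 1 := by
    filter_upwards [hρ.unit] with x hx
    rw [← hx]; exact Submodule.norm_starProjection_apply_le _ _
  have i1 : Integrable (fun x : V => ‖W.starProjection x‖) ρ := by
    refine Integrable.of_bound hm.aestronglyMeasurable 1 ?_
    filter_upwards [hle] with x hx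
    rw [norm_norm]; exact hx
  have i2 : Integrable (fun x : V => ‖W.starProjection x‖ ^ 2) ρ := by
    refine Integrable.of_bound (hm.pow_const 2).aestronglyMeasurable 1 ?_
    filter_upwards [hle] with x hx
    rw [norm_pow, norm_norm]; exact pow_le_one₀ (norm_nonneg _) hx
  refine ⟨integral_nonneg fun _ => by positivity, ?_, integral_nonneg fun _ => norm_nonneg _, ?_⟩
  · refine integral_mono_ae i2 i1 ?_
    filter_upwards [hle] with x hx
    have h0 := norm_nonneg (W.starProjection x)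
    nlinarith
  · have h1 : ∫ x, ‖W.starProjection x‖ ∂ρ ≤ ∫ _x, (1 : ℝ) ∂ρ := integral_mono_ae i1 (integrable_const _) hle
    simpa [gW] using h1

private theorem sW_cons {j : ℕ} {M : ℝ} {ρ : Measure V} (hk : 0 < (Module.finrank ℝ V : ℝ) - j) (hN : Nice j M ρ)
    {n : ℕ} (x : V) (X : Fin n → V) :
    sW ρ (oc (Fin.cons x X : Fin (n + 1) → V)) ≤ sW ρ (oc X) ∧
      sW ρ (oc X) ≤ sW ρ (oc (Fin.cons x X : Fin (n + 1) → V)) + 1 / ((Module.finrank ℝ V : ℝ) - j) := by
  have hν := sub1_smul hk.le hN.us hN.n1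
  have h := qF_inc hν x (List.ofFn X)
  have e : x :: List.ofFn X = List.ofFn (Fin.cons x X : Fin (n + 1) → V) := by
    rw [List.ofFn_cons]
  rw [e, qF_eq, qF_eq, sW_smul hk.le, sW_smul hk.le] at h
  set k : ℝ := (Module.finrank ℝ V : ℝ) - j
  have h1 : k * sW ρ (oc (Fin.cons x X : Fin (n + 1) → V)) ≤ k * sW ρ (oc X) := by linarith [h.1]
  have h2 : k * sW ρ (oc X) ≤ k * (sW ρ (oc (Fin.cons x X : Fin (n + 1) → V)) + 1 / k) := by
    have e2 : k * (sW ρ (oc (Fin.cons x X : Fin (n + 1) → V)) + 1 / k) =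
      k * sW ρ (oc (Fin.cons x X : Fin (n + 1) → V)) + 1 := by field_simp
    rw [e2]; linarith [h.2]
  exact ⟨le_of_mul_le_mul_left h1 hk, le_of_mul_le_mul_left h2 hk⟩

omit [FiniteDimensional ℝ V] [MeasurableSpace V] [BorelSpace V] in
private theorem oc_insertNth {n : ℕ} (i : Fin (n + 1)) (x : V) (X : Fin n → V) :
    oc (i.insertNth (α := fun _ => V) x X) = oc (Fin.cons x X : Fin (n + 1) → V) := by
  unfold oc
  have h : Set.range (i.insertNth (α := fun _ => V) x X) = Set.range (Fin.cons x X : Fin (n + 1) → V) := by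
    rw [Fin.range_cons]
    ext y
    simp only [Set.mem_range, Set.mem_insert_iff]
    rw [Fin.exists_iff_succAbove (p := i)]
    simp [eq_comm]
  rw [h]

private theorem Tv_inner {ρ : Measure V} (hρ : US ρ) (u w : V) : ⟪Tv ρ u, w⟫ = ∫ x, ⟪u, x⟫ * ⟪w, x⟫ ∂ρ := by
  have := hρ.prob
  have hi : Integrable (fun x : V => ⟪x, u⟫ • x) ρ := by
    refine Integrable.of_bound (C := ‖u‖) ?_ ?_
    · refine Continuous.aestronglyMeasurable ?_
      fun_prop
    · filter_upwards [hρ.unit] with x hx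
      rw [norm_smul, hx, mul_one]
      calc ‖⟪x, u⟫‖ ≤ ‖x‖ * ‖u‖ := norm_inner_le_norm x u
        _ = ‖u‖ := by rw [hx, one_mul]
  unfold Tv
  rw [real_inner_comm, ← integral_inner hi w]
  refine integral_congr_ae (Eventually.of_forall fun x => ?_)
  simp only [inner_smul_right]
  rw [real_inner_comm]

omit [FiniteDimensional ℝ V] [BorelSpace V] in
private theorem norm_Tv_le {ρ : Measure V} (hρ : US ρ) (u : V) : ‖Tv ρ u‖ ≤ ‖u‖ := by
  have := hρ.prob
  unfold Tv
  have h := norm_integral_le_of_norm_le_const (μ := ρ) (f := fun x : V => ⟪x, u⟫ • x) (C := ‖u‖) (by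
    filter_upwards [hρ.unit] with x hx
    rw [norm_smul, hx, mul_one]
    calc ‖⟪x, u⟫‖ ≤ ‖x‖ * ‖u‖ := norm_inner_le_norm x u
      _ = ‖u‖ := by rw [hx, one_mul])
  simpa using h

private theorem iw_diff {ρ : Measure V} (hρ : US ρ) {n : ℕ} {Φ Φ' Ψ : (Fin n → V) → ℝ} (hΦ : Measurable Φ)
    (hΦ' : Measurable Φ') (hΨ : Measurable Ψ) {C : ℝ} (hC : ∀ X, |Φ X| ≤ C) (hC' : ∀ X, |Φ' X| ≤ C)
    (hC'' : ∀ X, |Ψ X| ≤ C) (h : ∀ X, |Φ X - Φ' X| ≤ Ψ X) :
    |iw n ρ Φ - iw n ρ Φ'| ≤ iw n ρ Ψ := by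
  have hC0 : ∀ X, |Φ X| ≤ 2 * C := fun X => le_trans (hC X) (by linarith [le_trans (abs_nonneg _) (hC X)])
  have hC1 : ∀ X, |Φ' X| ≤ 2 * C := fun X => le_trans (hC' X) (by linarith [le_trans (abs_nonneg _) (hC X)])
  have hs : ∀ (A B : (Fin n → V) → ℝ), Measurable A → Measurable B → (∀ X, |A X| ≤ C) → (∀ X, |B X| ≤ C) →
      ∀ X, |A X + B X| ≤ 2 * C := fun A B _ _ hA hB X => le_trans (abs_add_le _ _) (by linarith [hA X, hB X])
  rw [abs_le]
  constructor
  · have h1 := iw_mono hρ (Ψ := fun X => Φ X + Ψ X) hΦ' (hΦ.add hΨ) (C := 2 * C) hC1 (hs _ _ hΦ hΨ hC hC'')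
      (fun X _ _ => by have := (abs_le.mp (h X)).1; linarith)
    rw [iw_add hρ hΦ hΨ hC hC''] at h1
    linarith
  · have h1 := iw_mono hρ (Ψ := fun X => Φ' X + Ψ X) hΦ (hΦ'.add hΨ) (C := 2 * C) hC0 (hs _ _ hΦ' hΨ hC' hC'')
      (fun X _ _ => by have := (abs_le.mp (h X)).2; linarith)
    rw [iw_add hρ hΦ' hΨ hC' hC''] at h1
    linarith

omit [NormedAddCommGroup V] [InnerProductSpace ℝ V] [FiniteDimensional ℝ V] [BorelSpace V] in
private theorem meas_tail {n : ℕ} : Measurable (fun X : Fin (n + 1) → V => (Fin.tail X : Fin n → V)) :=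
  measurable_pi_lambda _ fun i => measurable_pi_apply i.succ

omit [NormedAddCommGroup V] [InnerProductSpace ℝ V] [FiniteDimensional ℝ V] [BorelSpace V] in
private theorem meas_cons {n : ℕ} :
    Measurable (fun p : (Fin n → V) × V => (Fin.cons p.2 p.1 : Fin (n + 1) → V)) := by
  refine measurable_pi_lambda _ fun i => ?_
  refine Fin.cases ?_ (fun i => ?_) i
  · simpa using measurable_snd
  · simp only [Fin.cons_succ]
    exact (measurable_pi_apply i).comp measurable_fst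

/-- the indicator of `v ≤ s X`. -/
private noncomputable def gi (ρ : Measure V) (v : ℝ) (n : ℕ) : (Fin n → V) → ℝ :=
  {X : Fin n → V | v ≤ sW ρ (oc X)}.indicator (fun _ => 1)

omit [BorelSpace V] in
private theorem gi_of_le {ρ : Measure V} {v : ℝ} {n : ℕ} {X : Fin n → V} (h : v ≤ sW ρ (oc X)) : gi ρ v n X = 1 := by
  unfold gi
  exact indicator_of_mem (show X ∈ {X : Fin n → V | v ≤ sW ρ (oc X)} from h) _

omit [BorelSpace V] in
private theorem gi_of_lt {ρ : Measure V} {v : ℝ} {n : ℕ} {X : Fin n → V} (h : sW ρ (oc X) < v) : gi ρ v n X = 0 :=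
  indicator_of_notMem (by simpa using h) _

omit [BorelSpace V] in
private theorem gi_abs (ρ : Measure V) (v : ℝ) {n : ℕ} (X : Fin n → V) : |gi ρ v n X| ≤ 1 := by
  rcases le_or_gt v (sW ρ (oc X)) with h | h
  · rw [gi_of_le h]; simp
  · rw [gi_of_lt h]; simp

private theorem gi_meas (ρ : Measure V) [SFinite ρ] (v : ℝ) (n : ℕ) : Measurable (gi ρ v n) :=
  measurable_const.indicator (measurableSet_le measurable_const (meas_sW ρ))

/-- the integrand of the leave-one-out formula. -/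
private noncomputable def fq (u w : V) {n : ℕ} (X : Fin n → V) (x : V) : ℝ := ⟪u, x⟫ * ⟪w, rv X x⟫ / ‖rv X x‖

omit [FiniteDimensional ℝ V] [MeasurableSpace V] [BorelSpace V] in
private theorem fq_le {u w : V} (hu : ‖u‖ = 1) (hw : ‖w‖ = 1) {n : ℕ} (X : Fin n → V) {x : V} (hx : ‖x‖ = 1) :
    |fq u w X x| ≤ 1 := by
  unfold fq
  rw [abs_div, abs_mul, abs_norm]
  have h1 : |⟪u, x⟫| ≤ 1 := by
    have := abs_real_inner_le_norm u x
    rwa [hu, hx, one_mul] at this
  have h2 : |⟪w, rv X x⟫| ≤ ‖rv X x‖ := by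
    have := abs_real_inner_le_norm w (rv X x)
    rwa [hw, one_mul] at this
  refine div_le_one_of_le₀ ?_ (norm_nonneg _)
  calc |⟪u, x⟫| * |⟪w, rv X x⟫| ≤ 1 * ‖rv X x‖ := mul_le_mul h1 h2 (abs_nonneg _) zero_le_one
    _ = ‖rv X x‖ := one_mul _

private theorem meas_fq (u w : V) {n : ℕ} : Measurable (fun p : (Fin n → V) × V => fq u w p.1 p.2) := by
  unfold fq
  have h1 : Measurable (fun p : (Fin n → V) × V => ⟪u, p.2⟫) :=
    (continuous_const.inner continuous_id).measurable.comp measurable_snd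
  have h2 : Measurable (fun p : (Fin n → V) × V => ⟪w, rv p.1 p.2⟫) :=
    (continuous_const.inner continuous_id).measurable.comp meas_rv
  exact (h1.mul h2).div meas_rv.norm

/-- step (b), second half: pointwise. -/
private theorem step_b {j : ℕ} {M : ℝ} {ρ : Measure V} (hk : 0 < (Module.finrank ℝ V : ℝ) - j) (hN : Nice j M ρ)
    {u w : V} (hu : ‖u‖ = 1) (hw : ‖w‖ = 1) {v : ℝ} (hv : 0 < v) {n : ℕ} (X : Fin n → V) :
    |(∫ x, gi ρ (v / 2) (n + 1) (Fin.cons x X) * fq u w X x ∂ρ) - gi ρ (v / 2) n X * ∫ x, fq u w X x ∂ρ| ≤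
      4 / v * (gW ρ (oc X) * ({X : Fin n → V | sW ρ (oc X) < v / 2 + 1 / ((Module.finrank ℝ V : ℝ) - j)}.indicator
        (fun _ => 1) X)) := by
  have hp := hN.us.prob
  obtain ⟨g1, g2, g3, g4⟩ := gs_bounds hN.us (oc X)
  set k : ℝ := (Module.finrank ℝ V : ℝ) - j with hkdef
  have hr : 0 ≤ 4 / v * (gW ρ (oc X) * ({X : Fin n → V | sW ρ (oc X) < v / 2 + 1 / k}.indicator
        (fun _ => 1) X)) := by
    have : 0 ≤ ({X : Fin n → V | sW ρ (oc X) < v / 2 + 1 / k}.indicator (fun _ => (1 : ℝ)) X) :=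
      indicator_nonneg (fun _ _ => zero_le_one) _
    positivity
  rcases lt_or_ge (sW ρ (oc X)) (v / 2) with h | h
  · have e1 : ∀ x, gi ρ (v / 2) (n + 1) (Fin.cons x X) = 0 := fun x =>
      gi_of_lt (lt_of_le_of_lt (sW_cons hk hN x X).1 h)
    simp only [e1, gi_of_lt h, zero_mul, integral_zero, sub_zero, abs_zero]
    exact hr
  · rcases lt_or_ge (sW ρ (oc X)) (v / 2 + 1 / k) with h' | h'
    · have b1 : |∫ x, gi ρ (v / 2) (n + 1) (Fin.cons x X) * fq u w X x ∂ρ| ≤ 1 := by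
        have := norm_integral_le_of_norm_le_const (μ := ρ)
          (f := fun x => gi ρ (v / 2) (n + 1) (Fin.cons x X) * fq u w X x) (C := 1) (by
            filter_upwards [hN.us.unit] with x hx
            rw [norm_mul, Real.norm_eq_abs, Real.norm_eq_abs]
            calc |gi ρ (v / 2) (n + 1) (Fin.cons x X)| * |fq u w X x| ≤ 1 * 1 :=
                  mul_le_mul (gi_abs _ _ _) (fq_le hu hw X hx) (abs_nonneg _) zero_le_one
              _ = 1 := one_mul 1)
        simpa using this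
      have b2 : |∫ x, fq u w X x ∂ρ| ≤ 1 := by
        have := norm_integral_le_of_norm_le_const (μ := ρ) (f := fun x => fq u w X x) (C := 1) (by
            filter_upwards [hN.us.unit] with x hx
            rw [Real.norm_eq_abs]
            exact fq_le hu hw X hx)
        simpa using this
      rw [gi_of_le h, one_mul, indicator_of_mem (by exact h'), mul_one]
      have b3 : 2 ≤ 4 / v * gW ρ (oc X) := by
        have : v / 2 ≤ gW ρ (oc X) := le_trans h g2
        calc (2 : ℝ) = 4 / v * (v / 2) := by field_simp; norm_num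
          _ ≤ 4 / v * gW ρ (oc X) := mul_le_mul_of_nonneg_left this (by positivity)
      calc _ ≤ |∫ x, gi ρ (v / 2) (n + 1) (Fin.cons x X) * fq u w X x ∂ρ| + |∫ x, fq u w X x ∂ρ| := abs_sub _ _
        _ ≤ 1 + 1 := add_le_add b1 b2
        _ ≤ _ := by linarith
    · have e1 : ∀ x, gi ρ (v / 2) (n + 1) (Fin.cons x X) = 1 := fun x =>
        gi_of_le (by have := (sW_cons hk hN x X).2; linarith)
      simp only [e1, gi_of_le h, one_mul, sub_self, abs_zero]
      exact hr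

/-- step (c), pointwise. -/
private theorem step_c {j : ℕ} {M : ℝ} (hP : Par (Module.finrank ℝ V) j M) {ρ : Measure V} (hN : Nice j M ρ)
    {u w : V} (hu : ‖u‖ = 1) (hw : ‖w‖ = 1) {v : ℝ} (hv0 : 0 < v) (hv : 1 ≤ M * v) {n : ℕ} (X : Fin n → V) :
    |gi ρ (v / 2) n X * (∫ x, fq u w X x ∂ρ) -
        gi ρ (v / 2) n X * (gW ρ (oc X) / sW ρ (oc X) * ⟪Tv ρ u, rv X w⟫)| ≤
      20 * M ^ 4 / ((Module.finrank ℝ V : ℝ) * √(Module.finrank ℝ V : ℝ)) * (2 / v * gW ρ (oc X)) := by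
  have hd := hP.d_pos
  have hM := hP.one
  have hM0 : 0 < M := lt_of_lt_of_le one_pos hM
  obtain ⟨g1, g2, g3, g4⟩ := gs_bounds hN.us (oc X)
  have hc0 : 0 ≤ 20 * M ^ 4 / ((Module.finrank ℝ V : ℝ) * √(Module.finrank ℝ V : ℝ)) := by positivity
  rcases lt_or_ge (sW ρ (oc X)) (v / 2) with h | h
  · rw [gi_of_lt h, zero_mul, zero_mul, sub_zero, abs_zero]
    positivity
  · have hs : 1 ≤ 2 * M * sW ρ (oc X) := by
      have := mul_le_mul_of_nonneg_left h (by positivity : 0 ≤ 2 * M)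
      linarith
    have hk := key hP hN hs hu hw
    have e1 : (∫ x, ⟪u, x⟫ * ⟪w, (oc X).starProjection x⟫ / ‖(oc X).starProjection x‖ ∂ρ) = ∫ x, fq u w X x ∂ρ := by
      refine integral_congr_ae (Eventually.of_forall fun x => ?_)
      simp only [fq, rv_eq]
    have e2 : (∫ x, ⟪u, x⟫ * ⟪w, (oc X).starProjection x⟫ ∂ρ) = ⟪Tv ρ u, rv X w⟫ := by
      rw [Tv_inner hN.us]
      refine integral_congr_ae (Eventually.of_forall fun x => ?_)
      simp only [← rv_eq, inner_rv_comm]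
    rw [e1, e2] at hk
    rw [gi_of_le h, one_mul, one_mul]
    refine le_trans hk (le_mul_of_one_le_right hc0 ?_)
    have : v / 2 ≤ gW ρ (oc X) := le_trans h g2
    calc (1 : ℝ) = 2 / v * (v / 2) := by field_simp
      _ ≤ 2 / v * gW ρ (oc X) := mul_le_mul_of_nonneg_left this (by positivity)

private theorem ind_abs {α : Type*} (S : Set α) (x : α) : |S.indicator (fun _ => (1 : ℝ)) x| ≤ 1 := by
  by_cases h : x ∈ S
  · rw [indicator_of_mem h]; simp
  · rw [indicator_of_notMem h]; simp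

private theorem ind_nonneg {α : Type*} (S : Set α) (x : α) : 0 ≤ S.indicator (fun _ => (1 : ℝ)) x :=
  indicator_nonneg (fun _ _ => zero_le_one) _

/-- the value of `iw n` of a function times `gW`. -/
private theorem iw_gW {ρ : Measure V} (hρ : US ρ) {n : ℕ} {Φ : (Fin n → V) → ℝ} (hΦ : Measurable Φ) {C : ℝ}
    (hC : ∀ X, |Φ X| ≤ C) :
    iw n ρ (fun X => gW ρ (oc X) * Φ X) = iw (n + 1) ρ (fun X => Φ (Fin.tail X)) := by
  rw [iw_succ hρ (Φ := fun X => Φ (Fin.tail X)) (hΦ.comp meas_tail) (C := C) (fun X => hC _)]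
  congr 1
  funext X
  simp only [Fin.tail_cons]
  rw [integral_mul_const]
  congr 1
  unfold gW
  refine integral_congr_ae (Eventually.of_forall fun x => ?_)
  simp only [rv_eq]

/-- the final count. -/
private theorem fin_num {d M m iv E p A0 I1 I2 I3 : ℝ} (hd : 0 < d) (hM : 1 ≤ M) (hbig : 10 ^ 20 * M ^ 10 ≤ √d)
    (hm0 : 0 ≤ m) (hm : m ≤ d) (hiv0 : 0 ≤ iv) (hiv : iv ≤ M) (hE : 0 ≤ E) (hp : (d ^ 10)⁻¹ = p)
    (h1 : |A0 - m * I1| ≤ p * E) (h2 : |I1 - I2| ≤ 4 * iv * (p * E))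
    (h3 : |I2 - I3| ≤ 20 * M ^ 4 / (d * √d) * (2 * iv * E)) :
    |A0 - m * I3| ≤ 42 * M ^ 5 / √d * E := by
  have hM0 : 0 < M := lt_of_lt_of_le one_pos hM
  have hD : 10 ^ 20 ≤ √d := by
    have : (1 : ℝ) ≤ M ^ 10 := one_le_pow₀ hM
    linarith
  have hD0 : 0 < √d := lt_of_lt_of_le (by norm_num) hD
  have hdD : d = √d * √d := (Real.mul_self_sqrt hd.le).symm
  have hd1 : 1 ≤ d := by rw [hdD]; nlinarith
  have hp0 : 0 ≤ p := by rw [← hp]; positivity
  have hp2 : p ≤ 1 / d ^ 2 := by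
    rw [← hp, one_div]
    exact inv_anti₀ (by positivity) (pow_le_pow_right₀ hd1 (by norm_num))
  have e1 : |A0 - m * I3| ≤ p * E + m * (4 * iv * (p * E)) + m * (20 * M ^ 4 / (d * √d) * (2 * iv * E)) := by
    have e : A0 - m * I3 = (A0 - m * I1) + m * (I1 - I2) + m * (I2 - I3) := by ring
    rw [e]
    refine le_trans (abs_add_le _ _) (add_le_add (le_trans (abs_add_le _ _) (add_le_add h1 ?_)) ?_)
    · rw [abs_mul, abs_of_nonneg hm0]; exact mul_le_mul_of_nonneg_left h2 hm0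
    · rw [abs_mul, abs_of_nonneg hm0]; exact mul_le_mul_of_nonneg_left h3 hm0
  have hmi : m * iv ≤ d * M := mul_le_mul hm hiv hiv0 hd.le
  have e2 : m * (20 * M ^ 4 / (d * √d) * (2 * iv * E)) ≤ 40 * M ^ 5 / √d * E := by
    calc m * (20 * M ^ 4 / (d * √d) * (2 * iv * E)) = (m * iv) * (40 * M ^ 4 / (d * √d) * E) := by ring
      _ ≤ (d * M) * (40 * M ^ 4 / (d * √d) * E) := mul_le_mul_of_nonneg_right hmi (by positivity)
      _ = 40 * M ^ 5 / √d * E := by field_simp
  have e3 : p * E + m * (4 * iv * (p * E)) ≤ 2 * M ^ 5 / √d * E := by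
    have h4 : 1 + 4 * (m * iv) ≤ 5 * (d * M) := by
      have : 1 ≤ d * M := one_le_mul_of_one_le_of_one_le hd1 hM
      linarith
    calc p * E + m * (4 * iv * (p * E)) = (1 + 4 * (m * iv)) * p * E := by ring
      _ ≤ (5 * (d * M)) * (1 / d ^ 2) * E := by
          refine mul_le_mul_of_nonneg_right (mul_le_mul h4 hp2 hp0 (by positivity)) hE
      _ = 5 * M / d * E := by field_simp
      _ ≤ 2 * M ^ 5 / √d * E := by
          refine mul_le_mul_of_nonneg_right ?_ hE
          rw [div_le_div_iff₀ hd hD0]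
          have h5 : M ≤ M ^ 5 := le_self_pow₀ hM (by norm_num)
          have h6 : 5 * √d ≤ 2 * d := by
            rw [hdD]
            have : √(√d * √d) = √d := by rw [← hdD]
            rw [this]; nlinarith
          calc 5 * M * √d = M * (5 * √d) := by ring
            _ ≤ M ^ 5 * (2 * d) := mul_le_mul h5 h6 (by positivity) (by positivity)
            _ = 2 * M ^ 5 * d := by ring
  calc |A0 - m * I3| ≤ 2 * M ^ 5 / √d * E + 40 * M ^ 5 / √d * E := le_trans e1 (add_le_add e3 e2)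
    _ = 42 * M ^ 5 / √d * E := by ring

theorem ni_first {n : ℕ} {M : ℝ} (hP : Par (Module.finrank ℝ V) (n + 1) M) {ρ : Measure V} (hN : Nice (n + 1) M ρ)
    (hj : 0 < en (n + 1) ρ) (hv : 1 ≤ M * vv (n + 1) ρ) {u w : V} (hu : ‖u‖ = 1) (hw : ‖w‖ = 1) :
    |iw (n + 1) ρ (fun X => ⟪u, w - rv X w⟫) -
        ((n : ℝ) + 1) * iw (n + 1) ρ ({X | vv (n + 1) ρ / 2 ≤ sW ρ (oc (Fin.tail X))}.indicator
          (fun X => ⟪Tv ρ u, rv (Fin.tail X) w⟫ / sW ρ (oc (Fin.tail X))))| ≤
      42 * M ^ 5 / √(Module.finrank ℝ V : ℝ) * en (n + 1) ρ := by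
  have hρ := hN.us
  have hp := hρ.prob
  have hd := hP.d_pos
  have hk := hP.k_pos
  have hM := hP.one
  have hM0 : 0 < M := lt_of_lt_of_le one_pos hM
  have hT := low_s hP hN hj hv
  set v : ℝ := vv (n + 1) ρ with hvdef
  have hv0 : 0 < v := by
    by_contra hneg
    have : M * v ≤ 0 := mul_nonpos_of_nonneg_of_nonpos hM0.le (not_lt.mp hneg)
    linarith
  have hvM : 1 / v ≤ M := by
    rw [div_le_iff₀ hv0]; exact hv
  set d : ℝ := (Module.finrank ℝ V : ℝ) with hddef
  set k : ℝ := d - ((n + 1 : ℕ) : ℝ) with hkdef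
  set E : ℝ := en (n + 1) ρ with hE
  have mg : ∀ m : ℕ, Measurable (gi ρ (v / 2) m) := fun m => gi_meas ρ _ _
  have mS : MeasurableSet {X : Fin (n + 1) → V | sW ρ (oc X) < v / 2 + 1 / k} :=
    measurableSet_lt (meas_sW ρ) measurable_const
  have mS' : MeasurableSet {X : Fin n → V | sW ρ (oc X) < v / 2 + 1 / k} :=
    measurableSet_lt (meas_sW ρ) measurable_const
  have mproj : Measurable (fun X : Fin (n + 1) → V => ⟪u, w - rv X w⟫) := by
    have h1 : Measurable (fun X : Fin (n + 1) → V => rv X w) := meas_rv.comp (measurable_id.prodMk measurable_const)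
    exact (continuous_const.inner continuous_id).measurable.comp (measurable_const.sub h1)
  have bproj : ∀ X : Fin (n + 1) → V, |⟪u, w - rv X w⟫| ≤ 1 := by
    intro X
    calc |⟪u, w - rv X w⟫| ≤ ‖u‖ * ‖w - rv X w‖ := abs_real_inner_le_norm _ _
      _ ≤ 1 * ‖w‖ := mul_le_mul hu.le (norm_sub_rv_le X w) (norm_nonneg _) zero_le_one
      _ = 1 := by rw [hw, one_mul]
  -- step (a)
  have Sa : |iw (n + 1) ρ (fun X => ⟪u, w - rv X w⟫) -
      iw (n + 1) ρ (fun X => gi ρ (v / 2) (n + 1) X * ⟪u, w - rv X w⟫)| ≤ pz (Module.finrank ℝ V) * E := by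
    refine le_trans (iw_diff hρ (C := 1) mproj ((mg _).mul mproj) (measurable_const.indicator mS) bproj ?_
      (fun X => ind_abs _ X) ?_) hT
    · intro X
      rw [abs_mul]
      calc |gi ρ (v / 2) (n + 1) X| * |⟪u, w - rv X w⟫| ≤ 1 * 1 :=
            mul_le_mul (gi_abs _ _ _) (bproj X) (abs_nonneg _) zero_le_one
        _ = 1 := one_mul 1
    · intro X
      rcases lt_or_ge (sW ρ (oc X)) (v / 2) with h | h
      · rw [gi_of_lt h, zero_mul, sub_zero]
        have hmem : X ∈ {X : Fin (n + 1) → V | sW ρ (oc X) < v / 2 + 1 / k} := by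
          change sW ρ (oc X) < v / 2 + 1 / k
          have : 0 < 1 / k := by positivity
          linarith
        rw [indicator_of_mem hmem]
        exact bproj X
      · rw [gi_of_le h, one_mul, sub_self, abs_zero]
        exact ind_nonneg _ _
  -- step (b)
  have Sb1 : iw (n + 1) ρ (fun X => gi ρ (v / 2) (n + 1) X * ⟪u, w - rv X w⟫) =
      ((n : ℝ) + 1) * iw n ρ (fun X => ∫ x, gi ρ (v / 2) (n + 1) (Fin.cons x X) * fq u w X x ∂ρ) := by
    have := loo_sym hρ (mg (n + 1)) (C := 1) (gi_abs ρ (v / 2)) (fun i x X => by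
      unfold gi
      simp only [indicator, Set.mem_ofPred_eq, oc_insertNth]) u w
    rw [this]
    rfl
  have mfq : Measurable (fun X : Fin n → V => ∫ x, fq u w X x ∂ρ) :=
    (StronglyMeasurable.integral_prod_right (f := fun (X : Fin n → V) (x : V) => fq u w X x)
      (meas_fq u w).stronglyMeasurable).measurable
  have mgfq : Measurable (fun X : Fin n → V => ∫ x, gi ρ (v / 2) (n + 1) (Fin.cons x X) * fq u w X x ∂ρ) :=
    (StronglyMeasurable.integral_prod_right
      (f := fun (X : Fin n → V) (x : V) => gi ρ (v / 2) (n + 1) (Fin.cons x X) * fq u w X x)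
      (((mg (n + 1)).comp meas_cons).mul (meas_fq u w)).stronglyMeasurable).measurable
  have bfq : ∀ X : Fin n → V, |∫ x, fq u w X x ∂ρ| ≤ 1 := by
    intro X
    have := norm_integral_le_of_norm_le_const (μ := ρ) (f := fun x => fq u w X x) (C := 1) (by
        filter_upwards [hρ.unit] with x hx
        rw [Real.norm_eq_abs]
        exact fq_le hu hw X hx)
    simpa using this
  have bgfq : ∀ X : Fin n → V, |∫ x, gi ρ (v / 2) (n + 1) (Fin.cons x X) * fq u w X x ∂ρ| ≤ 1 := by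
    intro X
    have := norm_integral_le_of_norm_le_const (μ := ρ)
      (f := fun x => gi ρ (v / 2) (n + 1) (Fin.cons x X) * fq u w X x) (C := 1) (by
        filter_upwards [hρ.unit] with x hx
        rw [norm_mul, Real.norm_eq_abs, Real.norm_eq_abs]
        calc |gi ρ (v / 2) (n + 1) (Fin.cons x X)| * |fq u w X x| ≤ 1 * 1 :=
              mul_le_mul (gi_abs _ _ _) (fq_le hu hw X hx) (abs_nonneg _) zero_le_one
          _ = 1 := one_mul 1)
    simpa using this
  have bmul : ∀ (a : ℝ) (X : Fin n → V), |a| ≤ 1 → |gi ρ (v / 2) n X * a| ≤ 1 := by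
    intro a X ha
    rw [abs_mul]
    calc |gi ρ (v / 2) n X| * |a| ≤ 1 * 1 := mul_le_mul (gi_abs _ _ _) ha (abs_nonneg _) zero_le_one
      _ = 1 := one_mul 1
  have mgW : Measurable (fun X : Fin n → V => gW ρ (oc X)) := meas_gW ρ
  have msW : Measurable (fun X : Fin n → V => sW ρ (oc X)) := meas_sW ρ
  have hgT : iw n ρ (fun X => gW ρ (oc X) * ({X : Fin n → V | sW ρ (oc X) < v / 2 + 1 / k}.indicator
        (fun _ => (1 : ℝ)) X)) ≤ pz (Module.finrank ℝ V) * E := by
    rw [iw_gW hρ (measurable_const.indicator mS') (C := 1) (fun X => ind_abs _ X)]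
    refine le_trans (iw_mono hρ (C := 1) ?_ (measurable_const.indicator mS) (fun X => ind_abs _ _)
      (fun X => ind_abs _ X) ?_) hT
    · exact (measurable_const.indicator mS').comp meas_tail
    · intro X _ _
      have hc := (sW_cons (j := n + 1) hk hN (X 0) (Fin.tail X)).1
      rw [Fin.cons_self_tail] at hc
      by_cases h : sW ρ (oc (Fin.tail X)) < v / 2 + 1 / k
      · have h1 : X ∈ {X : Fin (n + 1) → V | sW ρ (oc X) < v / 2 + 1 / k} := lt_of_le_of_lt hc h
        rw [indicator_of_mem h1]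
        exact le_trans (le_abs_self _) (ind_abs _ _)
      · have h1 : Fin.tail X ∉ {X : Fin n → V | sW ρ (oc X) < v / 2 + 1 / k} := h
        rw [indicator_of_notMem h1]
        exact ind_nonneg _ _
  have Sb2 : |iw n ρ (fun X => ∫ x, gi ρ (v / 2) (n + 1) (Fin.cons x X) * fq u w X x ∂ρ) -
      iw n ρ (fun X => gi ρ (v / 2) n X * ∫ x, fq u w X x ∂ρ)| ≤ 4 / v * (pz (Module.finrank ℝ V) * E) := by
    have hvv : 0 ≤ 4 / v := by positivity
    refine le_trans (iw_diff hρ (C := max 1 (4 / v)) mgfq ((mg n).mul mfq)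
      (Ψ := fun X => 4 / v * (gW ρ (oc X) * ({X : Fin n → V | sW ρ (oc X) < v / 2 + 1 / k}.indicator
        (fun _ => 1) X))) ?_ (fun X => le_trans (bgfq X) (le_max_left _ _))
      (fun X => le_trans (bmul _ X (bfq X)) (le_max_left _ _)) ?_ (fun X => step_b hk hN hu hw hv0 X)) ?_
    · exact (mgW.mul (measurable_const.indicator mS')).const_mul _
    · intro X
      obtain ⟨g1, g2, g3, g4⟩ := gs_bounds hρ (oc X)
      rw [abs_mul, abs_of_nonneg hvv, abs_mul, abs_of_nonneg g3]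
      refine le_trans ?_ (le_max_right _ _)
      have h1 : gW ρ (oc X) * |{X : Fin n → V | sW ρ (oc X) < v / 2 + 1 / k}.indicator (fun _ => (1 : ℝ)) X| ≤ 1 * 1 :=
        mul_le_mul g4 (ind_abs _ _) (abs_nonneg _) zero_le_one
      calc 4 / v * (gW ρ (oc X) * |{X : Fin n → V | sW ρ (oc X) < v / 2 + 1 / k}.indicator (fun _ => (1 : ℝ)) X|)
          ≤ 4 / v * (1 * 1) := mul_le_mul_of_nonneg_left h1 hvv
        _ = 4 / v := by ring
    · rw [iw_mul]
      exact mul_le_mul_of_nonneg_left hgT hvv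
  -- step (c)
  have mβ : Measurable (fun X : Fin n → V => ⟪Tv ρ u, rv X w⟫) := by
    have h1 : Measurable (fun X : Fin n → V => rv X w) := meas_rv.comp (measurable_id.prodMk measurable_const)
    exact (continuous_const.inner continuous_id).measurable.comp h1
  have bβ : ∀ X : Fin n → V, |⟪Tv ρ u, rv X w⟫| ≤ 1 := by
    intro X
    calc |⟪Tv ρ u, rv X w⟫| ≤ ‖Tv ρ u‖ * ‖rv X w‖ := abs_real_inner_le_norm _ _
      _ ≤ 1 * 1 := mul_le_mul (by rw [← hu]; exact norm_Tv_le hρ u) (by rw [← hw]; exact norm_rv_le X w)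
            (norm_nonneg _) zero_le_one
      _ = 1 := one_mul 1
  have bgs : ∀ X : Fin n → V, |gi ρ (v / 2) n X * (⟪Tv ρ u, rv X w⟫ / sW ρ (oc X))| ≤ 2 / v := by
    intro X
    obtain ⟨g1, g2, g3, g4⟩ := gs_bounds hρ (oc X)
    rcases lt_or_ge (sW ρ (oc X)) (v / 2) with h | h
    · rw [gi_of_lt h, zero_mul, abs_zero]; positivity
    · rw [gi_of_le h, one_mul, abs_div, abs_of_nonneg g1]
      have hs0 : 0 < sW ρ (oc X) := lt_of_lt_of_le (by positivity) h
      rw [div_le_iff₀ hs0]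
      calc |⟪Tv ρ u, rv X w⟫| ≤ 1 := bβ X
        _ = 2 / v * (v / 2) := by field_simp
        _ ≤ 2 / v * sW ρ (oc X) := mul_le_mul_of_nonneg_left h (by positivity)
  have egs : ∀ X : Fin n → V, gi ρ (v / 2) n X * (gW ρ (oc X) / sW ρ (oc X) * ⟪Tv ρ u, rv X w⟫) =
      gW ρ (oc X) * (gi ρ (v / 2) n X * (⟪Tv ρ u, rv X w⟫ / sW ρ (oc X))) := fun X => by ring
  have Sc : |iw n ρ (fun X => gi ρ (v / 2) n X * ∫ x, fq u w X x ∂ρ) -
      iw n ρ (fun X => gi ρ (v / 2) n X * (gW ρ (oc X) / sW ρ (oc X) * ⟪Tv ρ u, rv X w⟫))| ≤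
      20 * M ^ 4 / (d * √d) * (2 / v * E) := by
    have hc0 : 0 ≤ 20 * M ^ 4 / (d * √d) := by positivity
    have hv2 : 0 ≤ 2 / v := by positivity
    refine le_trans (iw_diff hρ (C := 1 + 2 / v + 20 * M ^ 4 / (d * √d) * (2 / v)) ((mg n).mul mfq)
      (Φ' := fun X => gi ρ (v / 2) n X * (gW ρ (oc X) / sW ρ (oc X) * ⟪Tv ρ u, rv X w⟫))
      (Ψ := fun X => 20 * M ^ 4 / (d * √d) * (2 / v * gW ρ (oc X)))
      ((mg n).mul ((mgW.div msW).mul mβ)) ((mgW.const_mul _).const_mul _) ?_ ?_ ?_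
      (fun X => step_c hP hN hu hw hv0 hv X)) ?_
    · intro X
      refine le_trans (bmul _ X (bfq X)) ?_
      have : 0 ≤ 20 * M ^ 4 / (d * √d) * (2 / v) := mul_nonneg hc0 hv2
      linarith
    · intro X
      obtain ⟨g1, g2, g3, g4⟩ := gs_bounds hρ (oc X)
      rw [egs, abs_mul, abs_of_nonneg g3]
      have h1 : gW ρ (oc X) * |gi ρ (v / 2) n X * (⟪Tv ρ u, rv X w⟫ / sW ρ (oc X))| ≤ 1 * (2 / v) :=
        mul_le_mul g4 (bgs X) (abs_nonneg _) zero_le_one
      have : 0 ≤ 20 * M ^ 4 / (d * √d) * (2 / v) := mul_nonneg hc0 hv2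
      linarith
    · intro X
      obtain ⟨g1, g2, g3, g4⟩ := gs_bounds hρ (oc X)
      rw [abs_of_nonneg (by positivity)]
      have h1 : 20 * M ^ 4 / (d * √d) * (2 / v * gW ρ (oc X)) ≤ 20 * M ^ 4 / (d * √d) * (2 / v * 1) :=
        mul_le_mul_of_nonneg_left (mul_le_mul_of_nonneg_left g4 hv2) hc0
      linarith
    · rw [iw_mul, iw_mul, ← en_succ hρ n]
  -- step (d)
  have Sd : iw n ρ (fun X => gi ρ (v / 2) n X * (gW ρ (oc X) / sW ρ (oc X) * ⟪Tv ρ u, rv X w⟫)) =
      iw (n + 1) ρ ({X | v / 2 ≤ sW ρ (oc (Fin.tail X))}.indicator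
          (fun X => ⟪Tv ρ u, rv (Fin.tail X) w⟫ / sW ρ (oc (Fin.tail X)))) := by
    simp only [egs]
    rw [iw_gW hρ (Φ := fun X => gi ρ (v / 2) n X * (⟪Tv ρ u, rv X w⟫ / sW ρ (oc X))) ((mg n).mul (mβ.div msW)) bgs]
    congr 1
    funext X
    by_cases h : v / 2 ≤ sW ρ (oc (Fin.tail X))
    · have h1 : X ∈ {X : Fin (n + 1) → V | v / 2 ≤ sW ρ (oc (Fin.tail X))} := h
      rw [indicator_of_mem h1, gi_of_le h, one_mul]
    · have h1 : X ∉ {X : Fin (n + 1) → V | v / 2 ≤ sW ρ (oc (Fin.tail X))} := h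
      rw [indicator_of_notMem h1, gi_of_lt (not_le.mp h), zero_mul]
  rw [← Sd]
  rw [Sb1] at Sa
  have hnd : (n : ℝ) + 1 ≤ d := by
    have := hP.hjd
    have h1 : ((n + 1 : ℕ) : ℝ) ≤ d := by rw [hddef]; exact_mod_cast this.le
    push_cast at h1
    exact h1
  have e4 : 4 / v = 4 * (1 / v) := by ring
  have e2 : 2 / v = 2 * (1 / v) := by ring
  rw [e4] at Sb2
  rw [e2] at Sc
  exact fin_num (iv := 1 / v) hd hM hP.big (by positivity) hnd (by positivity) hvM hj.le rfl Sa Sb2 Sc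

end Pool.Agent.PBL
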