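import Pool.Agent.PBL.E3
import Pool.Agent.PBL.D0

/-! Module PBL-F1 (consequences of isotropy). `sW ρ W` is the sum of the second moments over an orthonormal basis of `W`, hence
`(1 - δ) r / d ≤ sW ρ W ≤ (1 + δ) r / d`, `r = finrank W`, `δ = dl d M`; with `g_bounds` this gives `gW ρ W = (1 ± 2δ) √((d - j)/d)` for
`r = d - j + 1`, and the ratio of `en (n + 1) ρ` and `en n ρ`. -/

set_option autoImplicit false

namespace Pool.Agent.PBL
open MeasureTheory ProbabilityTheory Set Filter Topology Metric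
open Pool.Agent.HP89 Pool.Agent.FI75
open scoped RealInnerProductSpace ENNReal

variable {V : Type*} [NormedAddCommGroup V] [InnerProductSpace ℝ V] [FiniteDimensional ℝ V]
  [MeasurableSpace V] [BorelSpace V]

/-- numerical facts about `δ`. -/
theorem dl_small {d j : ℕ} {M : ℝ} (hP : Par d j M) :
    0 < dl d M ∧ dl d M * M ^ 4 ≤ 1 / 10 ^ 16 ∧ M ^ 6 / (d : ℝ) ≤ dl d M / 10 ^ 22 := by
  have hM := hP.one
  have hbig := hP.big
  have hM10 : (1 : ℝ) ≤ M ^ 10 := one_le_pow₀ hM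
  have hD0 : (0 : ℝ) < √(d : ℝ) := by
    have : (0 : ℝ) < 10 ^ 20 * M ^ 10 := by positivity
    linarith
  have hDD : √(d : ℝ) * √(d : ℝ) = d := Real.mul_self_sqrt (Nat.cast_nonneg d)
  have hM0 : (0 : ℝ) < M := by linarith
  refine ⟨?_, ?_, ?_⟩
  · unfold dl
    positivity
  · unfold dl
    rw [div_mul_eq_mul_div, div_le_div_iff₀ hD0 (by positivity)]
    nlinarith [hbig]
  · unfold dl
    have h1 : (10 : ℝ) ^ 20 ≤ √(d : ℝ) := by nlinarith
    have h4 : M ^ 6 / (d : ℝ) = M ^ 6 / (√(d : ℝ) * √(d : ℝ)) := by rw [hDD]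
    rw [h4, div_div, div_le_div_iff₀ (by positivity) (by positivity)]
    have h2 : (0 : ℝ) ≤ M ^ 6 * √(d : ℝ) := by positivity
    have h3 : M ^ 6 * √(d : ℝ) * 10 ^ 20 ≤ M ^ 6 * √(d : ℝ) * √(d : ℝ) :=
      mul_le_mul_of_nonneg_left h1 h2
    nlinarith [h2, h3]

omit [MeasurableSpace V] [BorelSpace V] in
private theorem f1_sum (W : Submodule ℝ V) (x : V) :
    ‖W.starProjection x‖ ^ 2 = ∑ i, ⟪x, ((stdOrthonormalBasis ℝ W i : W) : V)⟫ ^ 2 := by
  have h1 := (stdOrthonormalBasis ℝ W).sum_sq_inner_left (W.orthogonalProjectionOnto x)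
  have h2 : ‖W.starProjection x‖ = ‖W.orthogonalProjectionOnto x‖ := rfl
  rw [h2, ← h1]
  refine Finset.sum_congr rfl fun i _ => ?_
  congr 1
  have h3 : ⟪W.orthogonalProjectionOnto x, stdOrthonormalBasis ℝ W i⟫ =
      ⟪W.starProjection x, ((stdOrthonormalBasis ℝ W i : W) : V)⟫ := rfl
  rw [h3, Submodule.inner_starProjection_left_eq_right,
    Submodule.starProjection_eq_self_iff.2 (stdOrthonormalBasis ℝ W i).2]

private theorem f1_int {ρ : Measure V} (hρ : US ρ) (u : V) : Integrable (fun x => ⟪x, u⟫ ^ 2) ρ := by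
  have := hρ.prob
  have hm : Measurable (fun x : V => ⟪x, u⟫ ^ 2) := by fun_prop
  refine Integrable.of_bound hm.aestronglyMeasurable (‖u‖ ^ 2) ?_
  filter_upwards [hρ.unit] with x hx
  have h1 : |⟪x, u⟫| ≤ ‖x‖ * ‖u‖ := abs_real_inner_le_norm x u
  rw [hx, one_mul] at h1
  rw [Real.norm_eq_abs, abs_pow]
  exact pow_le_pow_left₀ (abs_nonneg _) h1 2

theorem sW_bds {M : ℝ} {ρ : Measure V} (hρ : US ρ) (hI : Iso M ρ) (W : Submodule ℝ V) :
    (1 - dl (Module.finrank ℝ V) M) * Module.finrank ℝ W ≤ (Module.finrank ℝ V : ℝ) * sW ρ W ∧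
      (Module.finrank ℝ V : ℝ) * sW ρ W ≤ (1 + dl (Module.finrank ℝ V) M) * Module.finrank ℝ W := by
  have h1 : sW ρ W = ∑ i, ∫ x, ⟪x, ((stdOrthonormalBasis ℝ W i : W) : V)⟫ ^ 2 ∂ρ := by
    unfold sW
    simp_rw [f1_sum W]
    exact integral_finsetSum _ fun i _ => f1_int hρ _
  have hn : ∀ i, ‖((stdOrthonormalBasis ℝ W i : W) : V)‖ = 1 := by
    intro i
    have h2 : ‖((stdOrthonormalBasis ℝ W i : W) : V)‖ = ‖stdOrthonormalBasis ℝ W i‖ := rfl
    rw [h2, (stdOrthonormalBasis ℝ W).norm_eq_one i]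
  rw [h1, Finset.mul_sum]
  constructor
  · have h3 : (1 - dl (Module.finrank ℝ V) M) * (Module.finrank ℝ W : ℝ) =
        ∑ _i : Fin (Module.finrank ℝ W), (1 - dl (Module.finrank ℝ V) M) := by
      rw [Finset.sum_const, Finset.card_univ, Fintype.card_fin, nsmul_eq_mul, mul_comm]
    rw [h3]
    refine Finset.sum_le_sum fun i _ => ?_
    have h4 := (hI ((stdOrthonormalBasis ℝ W i : W) : V)).1
    rw [hn i, one_pow, mul_one] at h4
    exact h4
  · have h3 : (1 + dl (Module.finrank ℝ V) M) * (Module.finrank ℝ W : ℝ) =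
        ∑ _i : Fin (Module.finrank ℝ W), (1 + dl (Module.finrank ℝ V) M) := by
      rw [Finset.sum_const, Finset.card_univ, Fintype.card_fin, nsmul_eq_mul, mul_comm]
    rw [h3]
    refine Finset.sum_le_sum fun i _ => ?_
    have h4 := (hI ((stdOrthonormalBasis ℝ W i : W) : V)).2
    rw [hn i, one_pow, mul_one] at h4
    exact h4

/-- `δ ≤ 1/10^16`, `M/d ≤ δ/10^22`. -/
private theorem f1_dl {d j : ℕ} {M : ℝ} (hP : Par d j M) :
    0 < dl d M ∧ dl d M ≤ 1 / 10 ^ 16 ∧ M / (d : ℝ) ≤ dl d M / 10 ^ 22 ∧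
      M ^ 4 / (d : ℝ) ≤ dl d M / 10 ^ 22 := by
  obtain ⟨h1, h2, h3⟩ := dl_small hP
  have hM := hP.one
  have hd := hP.d_pos
  have hM4 : (1 : ℝ) ≤ M ^ 4 := one_le_pow₀ hM
  refine ⟨h1, ?_, ?_, ?_⟩
  · nlinarith
  · refine le_trans ?_ h3
    gcongr
    exact le_self_pow₀ hM (by norm_num)
  · refine le_trans ?_ h3
    gcongr
    · norm_num

theorem sW_half {j : ℕ} {M : ℝ} (hP : Par (Module.finrank ℝ V) j M) {ρ : Measure V} (hρ : US ρ) (hI : Iso M ρ)
    {W : Submodule ℝ V} (hW : Module.finrank ℝ V ≤ Module.finrank ℝ W + j) : 1 ≤ 2 * M * sW ρ W := by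
  obtain ⟨h1, h2, -, -⟩ := f1_dl hP
  have h3 := (sW_bds hρ hI W).1
  have hd := hP.d_pos
  have hM := hP.one
  have hdM := hP.hM
  have h4 : (Module.finrank ℝ V : ℝ) ≤ Module.finrank ℝ W + j := by exact_mod_cast hW
  set D := (Module.finrank ℝ V : ℝ) with hD
  set r := (Module.finrank ℝ W : ℝ) with hr
  have h5 : D ≤ M * r := by
    refine le_trans hdM ?_
    apply mul_le_mul_of_nonneg_left _ (by linarith)
    linarith
  have h6 : (1 / 2 : ℝ) ≤ 1 - dl (Module.finrank ℝ V) M := by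
    have : (1 : ℝ) / 10 ^ 16 ≤ 1 / 2 := by norm_num
    linarith
  have hr0 : 0 ≤ r := by positivity
  have h7 : 1 / 2 * r ≤ D * sW ρ W := le_trans (mul_le_mul_of_nonneg_right h6 hr0) h3
  have h8 : D * 1 ≤ D * (2 * M * sW ρ W) := by
    have h9 : M * (1 / 2 * r) ≤ M * (D * sW ρ W) := mul_le_mul_of_nonneg_left h7 (by linarith)
    nlinarith
  exact le_of_mul_le_mul_left h8 hd

theorem gW_bds {j : ℕ} {M : ℝ} (hP : Par (Module.finrank ℝ V) j M) {ρ : Measure V} (hN : Nice j M ρ) (hI : Iso M ρ)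
    {W : Submodule ℝ V} (hW : Module.finrank ℝ W + j = Module.finrank ℝ V + 1) :
    (1 - 2 * dl (Module.finrank ℝ V) M) * √(((Module.finrank ℝ V : ℝ) - j) / (Module.finrank ℝ V : ℝ)) ≤ gW ρ W ∧
      gW ρ W ≤ (1 + 2 * dl (Module.finrank ℝ V) M) * √(((Module.finrank ℝ V : ℝ) - j) / (Module.finrank ℝ V : ℝ)) := by
  obtain ⟨h1, h2, h3, h4⟩ := f1_dl hP
  have hd := hP.d_pos
  have hk := hP.k_pos
  have hM := hP.one
  have hdM := hP.hM
  have hs := sW_half hP hN.us hI (W := W) (by omega)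
  obtain ⟨hg1, hg2, -⟩ := g_bounds hP hN hs
  obtain ⟨hs1, hs2⟩ := sW_bds hN.us hI W
  have hr : (Module.finrank ℝ W : ℝ) = (Module.finrank ℝ V : ℝ) - j + 1 := by
    have : (Module.finrank ℝ W : ℝ) + j = (Module.finrank ℝ V : ℝ) + 1 := by exact_mod_cast hW
    linarith
  rw [hr] at hs1 hs2
  set δ := dl (Module.finrank ℝ V) M with hδ
  set D := (Module.finrank ℝ V : ℝ) with hD
  set k := D - (j : ℝ) with hkd
  have hδ1 : δ ≤ 1 / 4 := by
    have : (1 : ℝ) / 10 ^ 16 ≤ 1 / 4 := by norm_num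
    linarith
  -- `1 ≤ (δ / 10^22) * k`
  have hk1 : 1 ≤ δ / 10 ^ 22 * k := by
    have e1 : D / D ≤ M * k / D := by gcongr
    rw [div_self hd.ne'] at e1
    have e2 : M * k / D = M / D * k := by ring
    rw [e2] at e1
    exact e1.trans (mul_le_mul_of_nonneg_right h3 hk.le)
  have hk2 : δ / 10 ^ 22 * k ≤ δ * k := by
    apply mul_le_mul_of_nonneg_right _ hk.le
    exact div_le_self h1.le (by norm_num)
  constructor
  · refine le_trans ?_ hg1
    have e1 : (1 - δ) ^ 2 * (k / D) ≤ sW ρ W := by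
      have e2 : (1 - δ) ^ 2 * k ≤ D * sW ρ W := by
        refine le_trans ?_ hs1
        have : (1 - δ) ^ 2 ≤ 1 - δ := by nlinarith
        have e3 : (1 - δ) ^ 2 * k ≤ (1 - δ) * k := mul_le_mul_of_nonneg_right this hk.le
        nlinarith
      rw [← mul_div_assoc, div_le_iff₀ hd]
      linarith
    have e4 : (1 - δ) * √(k / D) ≤ √(sW ρ W) := by
      have e5 : √((1 - δ) ^ 2 * (k / D)) = (1 - δ) * √(k / D) := by
        rw [Real.sqrt_mul (by positivity), Real.sqrt_sq (by linarith)]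
      rw [← e5]
      exact Real.sqrt_le_sqrt e1
    have e6 : 1 - δ ≤ 1 - 6 * M ^ 4 / D := by
      have e7 : 6 * M ^ 4 / D = 6 * (M ^ 4 / D) := by ring
      rw [e7]
      have e8 : 6 * (δ / 10 ^ 22) ≤ δ := by
        have : 6 * (δ / 10 ^ 22) = δ * (6 / 10 ^ 22) := by ring
        rw [this]
        have : (6 : ℝ) / 10 ^ 22 ≤ 1 := by norm_num
        nlinarith
      linarith
    have e9 : (1 - δ) * √(k / D) * (1 - δ) ≤ √(sW ρ W) * (1 - 6 * M ^ 4 / D) := by
      apply mul_le_mul e4 e6 (by linarith) (Real.sqrt_nonneg _)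
    refine le_trans ?_ e9
    have e10 : 0 ≤ √(k / D) := Real.sqrt_nonneg _
    have e11 : 1 - 2 * δ ≤ (1 - δ) * (1 - δ) := by nlinarith
    calc (1 - 2 * δ) * √(k / D) ≤ (1 - δ) * (1 - δ) * √(k / D) := mul_le_mul_of_nonneg_right e11 e10
      _ = (1 - δ) * √(k / D) * (1 - δ) := by ring
  · refine le_trans hg2 ?_
    have e1 : sW ρ W ≤ (1 + 2 * δ) ^ 2 * (k / D) := by
      have e2 : D * sW ρ W ≤ (1 + 2 * δ) ^ 2 * k := by
        refine le_trans hs2 ?_
        have e3 : (1 + δ) * (k + 1) ≤ (1 + δ) * (k + δ * k) :=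
          mul_le_mul_of_nonneg_left (by linarith) (by linarith)
        have e4 : (1 + δ) * (k + δ * k) ≤ (1 + 2 * δ) ^ 2 * k := by
          have e5 : 0 ≤ δ * k := by positivity
          have e6 : 0 ≤ δ ^ 2 * k := by positivity
          nlinarith
        exact e3.trans e4
      rw [← mul_div_assoc, le_div_iff₀ hd]
      linarith
    have e5 : √((1 + 2 * δ) ^ 2 * (k / D)) = (1 + 2 * δ) * √(k / D) := by
      rw [Real.sqrt_mul (by positivity), Real.sqrt_sq (by linarith)]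
    rw [← e5]
    exact Real.sqrt_le_sqrt e1

private theorem f1_gW {ρ : Measure V} (hρ : US ρ) (W : Submodule ℝ V) : |gW ρ W| ≤ 1 := by
  have := hρ.prob
  have h0 : 0 ≤ gW ρ W := integral_nonneg fun x => norm_nonneg _
  rw [abs_of_nonneg h0]
  unfold gW
  have h1 : ∫ x, ‖W.starProjection x‖ ∂ρ ≤ ∫ _x, (1 : ℝ) ∂ρ := by
    apply integral_mono_of_nonneg (Filter.Eventually.of_forall fun x => norm_nonneg _) (integrable_const _)
    filter_upwards [hρ.unit] with x hx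
    rw [← hx]
    exact Submodule.norm_starProjection_apply_le W x
  simpa using h1

theorem en_ratio {n : ℕ} {M : ℝ} (hP : Par (Module.finrank ℝ V) (n + 1) M) {ρ : Measure V} (hN : Nice (n + 1) M ρ)
    (hI : Iso M ρ) :
    (1 - 2 * dl (Module.finrank ℝ V) M) * √(((Module.finrank ℝ V : ℝ) - (n + 1 : ℕ)) / (Module.finrank ℝ V : ℝ)) * en n ρ ≤
        en (n + 1) ρ ∧
      en (n + 1) ρ ≤ (1 + 2 * dl (Module.finrank ℝ V) M) *
        √(((Module.finrank ℝ V : ℝ) - (n + 1 : ℕ)) / (Module.finrank ℝ V : ℝ)) * en n ρ := by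
  have := hN.us.prob
  have hm := meas_gW (n := n) ρ
  rw [en_succ hN.us n, ← iw_const, ← iw_const]
  set a := (1 - 2 * dl (Module.finrank ℝ V) M) *
    √(((Module.finrank ℝ V : ℝ) - (n + 1 : ℕ)) / (Module.finrank ℝ V : ℝ)) with ha
  set b := (1 + 2 * dl (Module.finrank ℝ V) M) *
    √(((Module.finrank ℝ V : ℝ) - (n + 1 : ℕ)) / (Module.finrank ℝ V : ℝ)) with hb
  have hW : ∀ X : Fin n → V, wv X ≠ 0 →
      Module.finrank ℝ (oc X) + (n + 1) = Module.finrank ℝ V + 1 := by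
    intro X hX
    have := finrank_oc hX
    omega
  constructor
  · refine iw_mono hN.us measurable_const hm (C := 1 + |a|) (fun X => ?_) (fun X => ?_) fun X hX _ => ?_
    · linarith [abs_nonneg a]
    · linarith [f1_gW hN.us (oc X), abs_nonneg a]
    · exact (gW_bds hP hN hI (hW X hX)).1
  · refine iw_mono hN.us hm measurable_const (C := 1 + |b|) (fun X => ?_) (fun X => ?_) fun X hX _ => ?_
    · linarith [f1_gW hN.us (oc X), abs_nonneg b]
    · linarith [abs_nonneg b]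
    · exact (gW_bds hP hN hI (hW X hX)).2

end Pool.Agent.PBL
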