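import Pool.Agent.PBL.F1
import Pool.Agent.PBL.B3c

/-! Module PBL-F2: moments of the increments of `‖P_{X^⊥} x0‖²` and its variance. -/

set_option autoImplicit false
set_option linter.unusedSectionVars false

namespace Pool.Agent.PBL
open MeasureTheory ProbabilityTheory Set Filter Topology Metric
open Pool.Agent.HP89 Pool.Agent.FI75
open scoped RealInnerProductSpace ENNReal

variable {V : Type*} [NormedAddCommGroup V] [InnerProductSpace ℝ V] [FiniteDimensional ℝ V]
  [MeasurableSpace V] [BorelSpace V]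

private theorem nrm_le (x : V) : ‖nrm x‖ ≤ 1 := by
  unfold nrm
  rw [norm_smul, norm_inv, norm_norm]
  by_cases h : ‖x‖ = 0
  · rw [h]
    simp
  · rw [inv_mul_cancel₀ h]

private theorem meas_nrm : Measurable (nrm : V → V) := measurable_norm.inv.smul measurable_id

private theorem abs_inner_le (x : V) {x0 : V} (hx0 : ‖x0‖ = 1) : |⟪nrm x, x0⟫| ≤ 1 := by
  refine (abs_real_inner_le_norm _ _).trans ?_
  rw [hx0, mul_one]
  exact nrm_le x

private theorem abs_pow_inner_le (x : V) {x0 : V} (hx0 : ‖x0‖ = 1) (p : ℕ) : |⟪nrm x, x0⟫ ^ p| ≤ 1 := by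
  rw [abs_pow]
  exact pow_le_one₀ (abs_nonneg _) (abs_inner_le x hx0)

private theorem meas_phi {n : ℕ} (x0 : V) (p : ℕ) :
    Measurable (fun X : Fin (n + 1) → V => ⟪nrm (rv (Fin.tail X) (X 0)), x0⟫ ^ p) := by
  have h1 : Measurable (fun X : Fin (n + 1) → V => (Fin.tail X, X 0)) :=
    (measurable_pi_lambda _ fun i => measurable_pi_apply i.succ).prodMk (measurable_pi_apply 0)
  exact ((meas_nrm.comp (meas_rv.comp h1)).inner measurable_const).pow_const p

/-- `en n ρ ≤ 2 M en (n + 1) ρ`. -/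
private theorem en_le {j : ℕ} {M : ℝ} (hP : Par (Module.finrank ℝ V) j M) {ρ : Measure V} (hN : Nice j M ρ)
    (hI : Iso M ρ) {n : ℕ} (hn : n + 1 ≤ j) : en n ρ ≤ 2 * M * en (n + 1) ρ := by
  have := hN.us.prob
  rw [en_succ hN.us n, ← iw_mul]
  have h1 : en n ρ = iw n ρ (fun _ => 1) := by
    rw [iw_const, one_mul]
  rw [h1]
  have hM : 1 ≤ M := hP.one
  have hg0 : ∀ W : Submodule ℝ V, 0 ≤ gW ρ W ∧ gW ρ W ≤ 1 := by
    intro W
    refine ⟨integral_nonneg fun x => norm_nonneg _, ?_⟩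
    have h2 := norm_integral_le_of_norm_le_const (μ := ρ) (f := fun x => ‖W.starProjection x‖) (C := 1)
      (by
        filter_upwards [hN.us.unit] with x hx
        rw [norm_norm, ← hx]
        exact W.norm_starProjection_apply_le x)
    rw [probReal_univ, mul_one] at h2
    exact (le_abs_self _).trans h2
  refine iw_mono hN.us measurable_const (measurable_const.mul (meas_gW ρ)) (C := 2 * M) (fun X => ?_)
    (fun X => ?_) fun X hX _ => ?_
  · rw [abs_one]
    linarith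
  · rw [abs_of_nonneg (mul_nonneg (by linarith) (hg0 _).1)]
    exact mul_le_of_le_one_right (by linarith) (hg0 _).2
  · have h2 : 1 ≤ 2 * M * sW ρ (oc X) := sW_half hP hN.us hI (by
      have := finrank_oc hX
      omega)
    have h3 := (g_bounds hP hN h2).2.2
    exact h2.trans (mul_le_mul_of_nonneg_left h3 (by linarith))

private theorem eta_gen {j : ℕ} {M : ℝ} (hP : Par (Module.finrank ℝ V) j M) {ρ : Measure V} (hN : Nice j M ρ)
    (hI : Iso M ρ) {n : ℕ} (hn : n + 1 ≤ j) {x0 : V} (hx0 : ‖x0‖ = 1) (p : ℕ) {B : ℝ} (hB : 0 ≤ B)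
    (h : ∀ W : Submodule ℝ V, 1 ≤ 2 * M * sW ρ W →
      ∫ x, ‖W.starProjection x‖ * ⟪nrm (W.starProjection x), x0⟫ ^ p ∂ρ ≤ B) :
    iw (n + 1) ρ (fun X => ⟪nrm (rv (Fin.tail X) (X 0)), x0⟫ ^ p) ≤ B * (2 * M * en (n + 1) ρ) := by
  have := hN.us.prob
  rw [iw_succ hN.us (meas_phi x0 p) (C := 1) (fun X => abs_pow_inner_le _ hx0 p)]
  have h1 : (fun X : Fin n → V => ∫ x, ‖rv X x‖ *
      ⟪nrm (rv (Fin.tail (Fin.cons x X : Fin (n + 1) → V)) ((Fin.cons x X : Fin (n + 1) → V) 0)), x0⟫ ^ p ∂ρ) =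
      fun X => ∫ x, ‖rv X x‖ * ⟪nrm (rv X x), x0⟫ ^ p ∂ρ := by
    funext X
    refine integral_congr_ae (Filter.Eventually.of_forall fun x => ?_)
    simp only [Fin.tail_cons, Fin.cons_zero]
  rw [h1]
  refine le_trans ?_ (mul_le_mul_of_nonneg_left (en_le hP hN hI hn) hB)
  rw [← iw_const]
  have hm : Measurable (fun q : (Fin n → V) × V => ‖rv q.1 q.2‖ * ⟪nrm (rv q.1 q.2), x0⟫ ^ p) :=
    meas_rv.norm.mul (((meas_nrm.comp meas_rv).inner measurable_const).pow_const p)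
  refine iw_mono hN.us (hm.stronglyMeasurable.integral_prod_right'.measurable) measurable_const
    (C := 1 + B) (fun X => ?_) (fun X => ?_) fun X hX _ => ?_
  · have h2 := norm_integral_le_of_norm_le_const (μ := ρ)
      (f := fun x => ‖rv X x‖ * ⟪nrm (rv X x), x0⟫ ^ p) (C := 1)
      (by
        filter_upwards [hN.us.unit] with x hx
        rw [norm_mul, norm_norm, Real.norm_eq_abs]
        have h3 : ‖rv X x‖ ≤ 1 := by
          rw [← hx]
          exact norm_res_le _ _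
        calc ‖rv X x‖ * |⟪nrm (rv X x), x0⟫ ^ p| ≤ 1 * 1 :=
              mul_le_mul h3 (abs_pow_inner_le _ hx0 p) (abs_nonneg _) zero_le_one
          _ = 1 := one_mul 1)
    rw [probReal_univ, mul_one] at h2
    exact (show |_| ≤ (1 : ℝ) from h2).trans (by linarith)
  · rw [abs_of_nonneg hB]
    linarith
  · have h2 : 1 ≤ 2 * M * sW ρ (oc X) := sW_half hP hN.us hI (by
      have := finrank_oc hX
      omega)
    have h3 := h (oc X) h2
    simp only [rv_eq]
    exact h3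

/-- fourth moment of the increment. -/
theorem eta_four {j : ℕ} {M : ℝ} (hP : Par (Module.finrank ℝ V) j M) {ρ : Measure V} (hN : Nice j M ρ) (hI : Iso M ρ)
    {n : ℕ} (hn : n + 1 ≤ j) {x0 : V} (hx0 : ‖x0‖ = 1) :
    iw (n + 1) ρ (fun X => ⟪nrm (rv (Fin.tail X) (X 0)), x0⟫ ^ 4) ≤
      140 * M ^ 5 / (Module.finrank ℝ V : ℝ) ^ 2 * en (n + 1) ρ := by
  have hM : 1 ≤ M := hP.one
  refine (eta_gen hP hN hI hn hx0 4 (B := 70 * M ^ 4 / (Module.finrank ℝ V : ℝ) ^ 2) (by positivity)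
    fun W hW => ?_).trans (le_of_eq (by ring))
  refine le_trans (le_of_eq ?_) (four hP hN hW hx0)
  refine integral_congr_ae (Filter.Eventually.of_forall fun x => ?_)
  simp only
  rw [real_inner_comm x0 (nrm (W.starProjection x))]
  unfold nrm
  rw [real_inner_smul_right]
  by_cases h0 : ‖W.starProjection x‖ = 0
  · rw [h0]
    simp
  · field_simp

/-- second moment of the increment. -/
theorem eta_two {j : ℕ} {M : ℝ} (hP : Par (Module.finrank ℝ V) j M) {ρ : Measure V} (hN : Nice j M ρ) (hI : Iso M ρ)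
    {n : ℕ} (hn : n + 1 ≤ j) {x0 : V} (hx0 : ‖x0‖ = 1) :
    iw (n + 1) ρ (fun X => ⟪nrm (rv (Fin.tail X) (X 0)), x0⟫ ^ 2) ≤
      6 * M ^ 3 / (Module.finrank ℝ V : ℝ) * en (n + 1) ρ := by
  have hM : 1 ≤ M := hP.one
  refine (eta_gen hP hN hI hn hx0 2 (B := 3 * M ^ 2 / (Module.finrank ℝ V : ℝ)) (by positivity)
    fun W hW => ?_).trans (le_of_eq (by ring))
  refine le_trans (le_of_eq ?_) (two hP hN hW hx0)
  refine integral_congr_ae (Filter.Eventually.of_forall fun x => ?_)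
  simp only
  rw [real_inner_comm x0 (nrm (W.starProjection x))]
  unfold nrm
  rw [real_inner_smul_right]
  by_cases h0 : ‖W.starProjection x‖ = 0
  · rw [h0]
    simp
  · field_simp

theorem var_pt {j : ℕ} {M : ℝ} (hP : Par (Module.finrank ℝ V) j M) {ρ : Measure V} (hN : Nice j M ρ) (hI : Iso M ρ)
    {n : ℕ} (hn : n ≤ j) (hpos : 0 < en n ρ) {x0 : V} (hx0 : ‖x0‖ = 1) :
    iw n ρ (fun X => (‖rv X x0‖ ^ 2 - (en n ρ)⁻¹ * iw n ρ (fun X => ‖rv X x0‖ ^ 2)) ^ 2) ≤
      150 * M ^ 5 / (Module.finrank ℝ V : ℝ) * en n ρ := by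
  have hM : 1 ≤ M := hP.one
  have hd := hP.d_pos
  cases n with
  | zero =>
    have h1 : (fun X : Fin 0 → V => ‖rv X x0‖ ^ 2) = fun _ => (1 : ℝ) := by
      funext X
      have h2 : rv X x0 = x0 := by
        unfold rv
        rw [List.ofFn_zero]
        exact res_nil x0
      rw [h2, hx0, one_pow]
    have h2 : (fun X : Fin 0 → V => (‖rv X x0‖ ^ 2 - (en 0 ρ)⁻¹ *
        iw 0 ρ (fun X => ‖rv X x0‖ ^ 2)) ^ 2) = fun _ => (0 : ℝ) := by
      funext X
      rw [h1, iw_const, one_mul, inv_mul_cancel₀ hpos.ne', congrFun h1 X, sub_self]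
      norm_num
    rw [h2, iw_const, zero_mul]
    positivity
  | succ n =>
    refine (conc_pt hN.us hpos hx0.le).trans ?_
    have h1 := eta_four hP hN hI hn hx0
    have h2 : ((n : ℝ) + 1) ≤ (Module.finrank ℝ V : ℝ) := by
      have h3 : n + 1 ≤ Module.finrank ℝ V := hn.trans hP.hjd.le
      exact_mod_cast h3
    have h3 : (0 : ℝ) ≤ (n : ℝ) + 1 := by positivity
    have h4 : 0 ≤ M ^ 5 * en (n + 1) ρ := mul_nonneg (by positivity) hpos.le
    calc ((n : ℝ) + 1) * iw (n + 1) ρ (fun X => ⟪nrm (rv (Fin.tail X) (X 0)), x0⟫ ^ 4)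
        ≤ ((n : ℝ) + 1) * (140 * M ^ 5 / (Module.finrank ℝ V : ℝ) ^ 2 * en (n + 1) ρ) :=
          mul_le_mul_of_nonneg_left h1 h3
      _ ≤ (Module.finrank ℝ V : ℝ) * (140 * M ^ 5 / (Module.finrank ℝ V : ℝ) ^ 2 * en (n + 1) ρ) := by
          refine mul_le_mul_of_nonneg_right h2 ?_
          exact mul_nonneg (by positivity) hpos.le
      _ = 140 / (Module.finrank ℝ V : ℝ) * (M ^ 5 * en (n + 1) ρ) := by
          field_simp
      _ ≤ 150 / (Module.finrank ℝ V : ℝ) * (M ^ 5 * en (n + 1) ρ) := by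
          refine mul_le_mul_of_nonneg_right ?_ h4
          exact div_le_div_of_nonneg_right (by norm_num) hd.le
      _ = 150 * M ^ 5 / (Module.finrank ℝ V : ℝ) * en (n + 1) ρ := by ring

end Pool.Agent.PBL
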