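import Pool.Agent.PBL.F2
import Pool.Agent.PBL.D1

/-! Module PBL-F3 (mean of `‖P_{X'^⊥} w‖²`, `X'` of length `n = j - 1`). Write `b = k/d`, `δ = dl`. `mean_full`: the mean of `‖rv X w‖²` over
tuples of length `n + 1` is `(1 ± δ) b`, by `nop_inner` and the isotropy of `Nop (n + 1) ρ`. `mean_tail`: dropping the first vector changes the mean
by at most `6M³/d ≤ b δ/10` (`rv_cons`, `norm_ort_sq`, `eta_two`). `iw_tail`: integrating out the dropped vector gives the weight `gW ρ (oc X')`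
(`iw_succ`), which is between `(1 ± 2δ) √b` (`gW_bds`); together with `en_ratio` this gives `mean_pt`. `pt_dev`: mean square deviation from `b` =
variance (`var_pt`) + `(mean - b)²`. -/

set_option autoImplicit false

namespace Pool.Agent.PBL
open MeasureTheory ProbabilityTheory Set Filter Topology Metric
open Pool.Agent.HP89 Pool.Agent.FI75
open scoped RealInnerProductSpace ENNReal

variable {V : Type*} [NormedAddCommGroup V] [InnerProductSpace ℝ V] [FiniteDimensional ℝ V]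
  [MeasurableSpace V] [BorelSpace V]

private theorem m_sq {n : ℕ} (w : V) : Measurable (fun X : Fin n → V => ‖rv X w‖ ^ 2) :=
  ((meas_rv (V := V) (n := n)).comp (measurable_id.prodMk measurable_const)).norm.pow_const 2

omit [NormedAddCommGroup V] [InnerProductSpace ℝ V] [FiniteDimensional ℝ V] [BorelSpace V] in
private theorem m_tail (n : ℕ) : Measurable (fun X : Fin (n + 1) → V => Fin.tail X) :=
  measurable_pi_lambda _ fun _ => measurable_pi_apply _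

private theorem m_sqt {n : ℕ} (w : V) : Measurable (fun X : Fin (n + 1) → V => ‖rv (Fin.tail X) w‖ ^ 2) :=
  (m_sq w).comp (m_tail n)

private theorem m_eta {n : ℕ} (w : V) :
    Measurable (fun X : Fin (n + 1) → V => ⟪nrm (rv (Fin.tail X) (X 0)), w⟫ ^ 2) := by
  have h1 : Measurable (fun X : Fin (n + 1) → V => nrm (rv (Fin.tail X) (X 0))) :=
    measurable_nrm.comp ((meas_rv (V := V) (n := n)).comp ((m_tail n).prodMk (measurable_pi_apply 0)))
  exact (h1.inner measurable_const).pow_const 2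

omit [FiniteDimensional ℝ V] [MeasurableSpace V] [BorelSpace V] in
private theorem b_sq {n : ℕ} {w : V} (hw : ‖w‖ = 1) (X : Fin n → V) : ‖rv X w‖ ^ 2 ≤ 1 := by
  have h1 : ‖rv X w‖ ≤ ‖w‖ := norm_res_le _ _
  rw [hw] at h1
  have h2 := norm_nonneg (rv X w)
  nlinarith

omit [FiniteDimensional ℝ V] [MeasurableSpace V] [BorelSpace V] in
private theorem b_sq' {n : ℕ} {w : V} (hw : ‖w‖ = 1) (X : Fin n → V) : |‖rv X w‖ ^ 2| ≤ 1 := by
  rw [abs_of_nonneg (by positivity)]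
  exact b_sq hw X

omit [FiniteDimensional ℝ V] [MeasurableSpace V] [BorelSpace V] in
private theorem b_eta {w : V} (hw : ‖w‖ = 1) (y : V) : |⟪nrm y, w⟫ ^ 2| ≤ 1 := by
  have h1 : |⟪nrm y, w⟫| ≤ ‖nrm y‖ * ‖w‖ := abs_real_inner_le_norm _ _
  rw [hw, mul_one] at h1
  have h2 : |⟪nrm y, w⟫| ≤ 1 := h1.trans (norm_nrm_le y)
  rw [abs_pow]
  exact pow_le_one₀ (abs_nonneg _) h2

omit [MeasurableSpace V] [BorelSpace V] in
private theorem rv_inner {n : ℕ} (X : Fin n → V) (x y : V) : ⟪rv X x, rv X y⟫ = ⟪rv X x, y⟫ := by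
  have h1 : rv X (rv X x) = rv X x := by
    rw [rv_eq, rv_eq]
    exact Submodule.starProjection_eq_self_iff.2 (Submodule.starProjection_apply_mem _ _)
  have h2 : ⟪rv X (rv X x), y⟫ = ⟪rv X x, rv X y⟫ := inner_res _ _ _
  rw [← h2, h1]

/-- the mean over tuples of length `j`. -/
private theorem mean_full {n : ℕ} {M : ℝ} (hP : Par (Module.finrank ℝ V) (n + 1) M) {ρ : Measure V} (hρ : US ρ)
    (hj : 0 < en (n + 1) ρ) (hI' : Iso M (Nop (n + 1) ρ)) {w : V} (hw : ‖w‖ = 1) :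
    (1 - dl (Module.finrank ℝ V) M) *
        (((Module.finrank ℝ V : ℝ) - (n + 1 : ℕ)) / (Module.finrank ℝ V : ℝ)) * en (n + 1) ρ ≤
      iw (n + 1) ρ (fun X => ‖rv X w‖ ^ 2) ∧
    iw (n + 1) ρ (fun X => ‖rv X w‖ ^ 2) ≤ (1 + dl (Module.finrank ℝ V) M) *
        (((Module.finrank ℝ V : ℝ) - (n + 1 : ℕ)) / (Module.finrank ℝ V : ℝ)) * en (n + 1) ρ := by
  have hd := hP.d_pos
  have hk := hP.k_pos
  have h1 := nop_inner hρ hj hP.hjd w w
  have h2 : (fun X : Fin (n + 1) → V => ⟪rv X w, w⟫) = fun X => ‖rv X w‖ ^ 2 := by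
    funext X
    rw [← real_inner_self_eq_norm_sq]
    exact (rv_inner _ w w).symm
  rw [h2] at h1
  have h3 : (fun x : V => ⟪x, w⟫ * ⟪x, w⟫) = fun x => ⟪x, w⟫ ^ 2 := by
    funext x
    ring
  rw [h3] at h1
  obtain ⟨h4, h5⟩ := hI' w
  rw [hw] at h4 h5
  rw [← h1]
  generalize (∫ x, ⟪x, w⟫ ^ 2 ∂(Nop (n + 1) ρ)) = I at h4 h5
  generalize dl (Module.finrank ℝ V) M = δ at h4 h5
  have hb : 0 < ((Module.finrank ℝ V : ℝ) - (n + 1 : ℕ)) / (Module.finrank ℝ V : ℝ) * en (n + 1) ρ := by positivity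
  have h6 : ((Module.finrank ℝ V : ℝ) - (n + 1 : ℕ)) * en (n + 1) ρ * I =
      (((Module.finrank ℝ V : ℝ) - (n + 1 : ℕ)) / (Module.finrank ℝ V : ℝ) * en (n + 1) ρ) *
        ((Module.finrank ℝ V : ℝ) * I) := by
    field_simp
  rw [h6]
  generalize ((Module.finrank ℝ V : ℝ) - (n + 1 : ℕ)) / (Module.finrank ℝ V : ℝ) = b at hb ⊢
  constructor
  · have := mul_le_mul_of_nonneg_left h4 hb.le
    linarith
  · have := mul_le_mul_of_nonneg_left h5 hb.le
    linarith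

/-- dropping the first vector. -/
private theorem mean_tail {n : ℕ} {ρ : Measure V} (hρ : US ρ) {w : V} (hw : ‖w‖ = 1) :
    iw (n + 1) ρ (fun X => ‖rv (Fin.tail X) w‖ ^ 2) = iw (n + 1) ρ (fun X => ‖rv X w‖ ^ 2) +
      iw (n + 1) ρ (fun X => ⟪nrm (rv (Fin.tail X) (X 0)), w⟫ ^ 2) := by
  rw [← iw_add hρ (m_sq w) (m_eta w) (C := 1) (b_sq' hw) (fun X => b_eta hw _)]
  congr 1
  funext X
  have h1 : rv X w = ort (rv (Fin.tail X) (X 0)) (rv (Fin.tail X) w) := by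
    conv_lhs => rw [← Fin.cons_self_tail X]
    exact rv_cons _ _ _
  have h2 : ⟪rv (Fin.tail X) (X 0), rv (Fin.tail X) w⟫ = ⟪rv (Fin.tail X) (X 0), w⟫ := rv_inner _ _ _
  rw [h1, norm_ort_sq, h2]
  have h3 : ⟪nrm (rv (Fin.tail X) (X 0)), w⟫ = ⟪rv (Fin.tail X) (X 0), w⟫ / ‖rv (Fin.tail X) (X 0)‖ := by
    unfold nrm
    rw [real_inner_smul_left, div_eq_inv_mul]
  rw [h3]
  ring

/-- integrating out the first vector. -/
private theorem iw_tail {n : ℕ} {ρ : Measure V} (hρ : US ρ) {w : V} (hw : ‖w‖ = 1) :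
    iw (n + 1) ρ (fun X => ‖rv (Fin.tail X) w‖ ^ 2) = iw n ρ (fun X => gW ρ (oc X) * ‖rv X w‖ ^ 2) := by
  rw [iw_succ hρ (m_sqt w) (C := 1) (fun X => b_sq' hw _)]
  congr 1
  funext X
  have h1 : ∀ x : V, ‖rv X x‖ * ‖rv (Fin.tail (Fin.cons x X : Fin (n + 1) → V)) w‖ ^ 2 =
      ‖(oc X).starProjection x‖ * ‖rv X w‖ ^ 2 := by
    intro x
    rw [Fin.tail_cons, rv_eq X x]
  simp only [h1]
  rw [integral_mul_const]
  rfl

private theorem mean_num {δ b r e e' A A' T B : ℝ} (hδ : 0 < δ) (hδ1 : δ ≤ 1 / 10 ^ 16) (hb : 0 < b) (hr : 0 < r)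
    (he : 0 < e) (hA1 : (1 - δ) * b * e' ≤ A) (hA2 : A ≤ (1 + δ) * b * e') (hT0 : 0 ≤ T) (hT : T ≤ δ / 10 * b * e')
    (hA' : A' = A + T) (hB1 : (1 - 2 * δ) * r * B ≤ A') (hB2 : A' ≤ (1 + 2 * δ) * r * B)
    (he1 : (1 - 2 * δ) * r * e ≤ e') (he2 : e' ≤ (1 + 2 * δ) * r * e) : |B - b * e| ≤ 6 * δ * b * e := by
  have hbe : 0 < b * e := mul_pos hb he
  have hδ2 : δ ^ 2 ≤ δ * (1 / 10 ^ 16) := by nlinarith
  rw [abs_le]
  constructor
  · have h1 : (1 - δ) * b * ((1 - 2 * δ) * r * e) ≤ (1 + 2 * δ) * r * B := by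
      refine le_trans ?_ (hA1.trans (by linarith))
      exact mul_le_mul_of_nonneg_left he1 (mul_nonneg (by norm_num at hδ1 ⊢; linarith) hb.le)
    have h2 : (1 - δ) * (1 - 2 * δ) * (b * e) ≤ (1 + 2 * δ) * B := by
      refine le_of_mul_le_mul_left ?_ hr
      linarith
    have h3 : (1 - 6 * δ) * (1 + 2 * δ) ≤ (1 - δ) * (1 - 2 * δ) := by nlinarith
    have h4 : (1 + 2 * δ) * ((1 - 6 * δ) * (b * e)) ≤ (1 + 2 * δ) * B := by
      refine le_trans ?_ h2
      have := mul_le_mul_of_nonneg_right h3 hbe.le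
      linarith
    have h5 := le_of_mul_le_mul_left h4 (by linarith)
    linarith
  · have h1 : (1 - 2 * δ) * r * B ≤ (1 + 11 / 10 * δ) * b * ((1 + 2 * δ) * r * e) := by
      refine hB1.trans ?_
      rw [hA']
      refine le_trans (b := (1 + 11 / 10 * δ) * b * e') (by linarith) ?_
      exact mul_le_mul_of_nonneg_left he2 (mul_nonneg (by linarith) hb.le)
    have h2 : (1 - 2 * δ) * B ≤ (1 + 11 / 10 * δ) * (1 + 2 * δ) * (b * e) := by
      refine le_of_mul_le_mul_left ?_ hr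
      linarith
    have h3 : (1 + 11 / 10 * δ) * (1 + 2 * δ) ≤ (1 - 2 * δ) * (1 + 6 * δ) := by nlinarith
    have h4 : (1 - 2 * δ) * B ≤ (1 - 2 * δ) * ((1 + 6 * δ) * (b * e)) := by
      refine h2.trans ?_
      have := mul_le_mul_of_nonneg_right h3 hbe.le
      linarith
    have h5 := le_of_mul_le_mul_left h4 (by norm_num at hδ1 ⊢; linarith)
    linarith

private theorem num_facts {d j : ℕ} {M : ℝ} (hP : Par d j M) :
    0 < dl d M ∧ dl d M ≤ 1 / 10 ^ 16 ∧ 0 < ((d : ℝ) - j) / d ∧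
      6 * M ^ 3 / (d : ℝ) ≤ dl d M / 10 * (((d : ℝ) - j) / d) := by
  obtain ⟨h1, h2, h3⟩ := dl_small hP
  have hd := hP.d_pos
  have hk := hP.k_pos
  have hM := hP.one
  have hb : 0 < ((d : ℝ) - j) / d := by positivity
  have hMb : 1 ≤ M * (((d : ℝ) - j) / d) := by
    rw [← mul_div_assoc, le_div_iff₀ hd, one_mul]
    exact hP.hM
  refine ⟨h1, ?_, hb, ?_⟩
  · refine le_trans ?_ h2
    exact le_mul_of_one_le_right h1.le (one_le_pow₀ hM)
  · have h4 : M ^ 3 / (d : ℝ) ≤ M ^ 3 / (d : ℝ) * (M * (((d : ℝ) - j) / d)) :=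
      le_mul_of_one_le_right (by positivity) hMb
    have h5 : M ^ 4 / (d : ℝ) ≤ M ^ 6 / (d : ℝ) :=
      div_le_div_of_nonneg_right (pow_le_pow_right₀ hM (by norm_num)) hd.le
    have h6 : M ^ 3 / (d : ℝ) * (M * (((d : ℝ) - j) / d)) = M ^ 4 / (d : ℝ) * (((d : ℝ) - j) / d) := by ring
    have h7 : M ^ 4 / (d : ℝ) * (((d : ℝ) - j) / d) ≤ dl d M / 10 ^ 22 * (((d : ℝ) - j) / d) :=
      mul_le_mul_of_nonneg_right (h5.trans h3) hb.le
    have h8 : 6 * M ^ 3 / (d : ℝ) = 6 * (M ^ 3 / (d : ℝ)) := by ring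
    rw [h8]
    have h9 : 0 < dl d M * (((d : ℝ) - j) / d) := by positivity
    have h10 : dl d M / 10 ^ 22 * (((d : ℝ) - j) / d) = 1 / 10 ^ 22 * (dl d M * (((d : ℝ) - j) / d)) := by ring
    have h11 : dl d M / 10 * (((d : ℝ) - j) / d) = 1 / 10 * (dl d M * (((d : ℝ) - j) / d)) := by ring
    rw [h11]
    rw [h10] at h7
    have h12 : (6 : ℝ) * (1 / 10 ^ 22) * (dl d M * (((d : ℝ) - j) / d)) ≤ 1 / 10 * (dl d M * (((d : ℝ) - j) / d)) :=
      mul_le_mul_of_nonneg_right (by norm_num) h9.le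
    linarith

private theorem en_pos {n : ℕ} {M : ℝ} (hP : Par (Module.finrank ℝ V) (n + 1) M) {ρ : Measure V}
    (hN : Nice (n + 1) M ρ) (hI : Iso M ρ) (hj : 0 < en (n + 1) ρ) : 0 < en n ρ := by
  obtain ⟨h1, h2, h3, h4⟩ := num_facts hP
  have h5 := hj.trans_le (en_ratio hP hN hI).2
  refine pos_of_mul_pos_right h5 ?_
  have := Real.sqrt_nonneg (((Module.finrank ℝ V : ℝ) - (n + 1 : ℕ)) / (Module.finrank ℝ V : ℝ))
  positivity

theorem mean_pt {n : ℕ} {M : ℝ} (hP : Par (Module.finrank ℝ V) (n + 1) M) {ρ : Measure V} (hN : Nice (n + 1) M ρ)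
    (hI : Iso M ρ) (hj : 0 < en (n + 1) ρ) (hI' : Iso M (Nop (n + 1) ρ)) {w : V} (hw : ‖w‖ = 1) :
    |iw n ρ (fun X => ‖rv X w‖ ^ 2) -
        ((Module.finrank ℝ V : ℝ) - (n + 1 : ℕ)) / (Module.finrank ℝ V : ℝ) * en n ρ| ≤
      6 * dl (Module.finrank ℝ V) M * (((Module.finrank ℝ V : ℝ) - (n + 1 : ℕ)) / (Module.finrank ℝ V : ℝ)) * en n ρ := by
  have hρ := hN.us
  have := hρ.prob
  obtain ⟨h1, h2, h3, h4⟩ := num_facts hP
  have he := en_pos hP hN hI hj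
  obtain ⟨hA1, hA2⟩ := mean_full hP hρ hj hI' hw
  obtain ⟨he1, he2⟩ := en_ratio hP hN hI
  have hT := eta_two hP hN hI (le_refl (n + 1)) hw
  have hT0 : 0 ≤ iw (n + 1) ρ (fun X => ⟪nrm (rv (Fin.tail X) (X 0)), w⟫ ^ 2) := by
    have h5 := iw_mono hρ (n := n + 1) (Φ := fun _ => 0) (Ψ := fun X => ⟪nrm (rv (Fin.tail X) (X 0)), w⟫ ^ 2)
      measurable_const (m_eta w) (C := 1) (fun X => by norm_num) (fun X => b_eta hw _)
      (fun X _ _ => by positivity)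
    rw [iw_const, zero_mul] at h5
    exact h5
  have hg : ∀ X : Fin n → V, |gW ρ (oc X) * ‖rv X w‖ ^ 2| ≤ 1 := by
    intro X
    have h5 : ∀ x : V, ‖(oc X).starProjection x‖ ≤ ‖x‖ := by
      intro x
      rw [← rv_eq]
      exact norm_res_le _ _
    have h6 : 0 ≤ gW ρ (oc X) := integral_nonneg fun x => norm_nonneg _
    have h7 : gW ρ (oc X) ≤ 1 := by
      have h8 : gW ρ (oc X) ≤ ∫ x, (1 : ℝ) ∂ρ := by
        refine integral_mono_of_nonneg (Eventually.of_forall fun x => norm_nonneg _) (integrable_const _) ?_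
        filter_upwards [hρ.unit] with x hx
        exact (h5 x).trans hx.le
      simpa using h8
    rw [abs_mul, abs_of_nonneg h6]
    exact mul_le_one₀ h7 (abs_nonneg _) (b_sq' hw X)
  have hgm : Measurable (fun X : Fin n → V => gW ρ (oc X) * ‖rv X w‖ ^ 2) := (meas_gW ρ).mul (m_sq w)
  have hr0 : 0 < √(((Module.finrank ℝ V : ℝ) - (n + 1 : ℕ)) / (Module.finrank ℝ V : ℝ)) := Real.sqrt_pos.2 h3
  set r := √(((Module.finrank ℝ V : ℝ) - (n + 1 : ℕ)) / (Module.finrank ℝ V : ℝ)) with hrdef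
  have hr1 : r ≤ 1 := by
    rw [hrdef]
    refine Real.sqrt_le_one.2 ?_
    rw [div_le_one hP.d_pos]
    have : (0 : ℝ) ≤ ((n + 1 : ℕ) : ℝ) := by positivity
    linarith
  have hgb : ∀ X : Fin n → V, wv X ≠ 0 → (1 - 2 * dl (Module.finrank ℝ V) M) * r ≤ gW ρ (oc X) ∧
      gW ρ (oc X) ≤ (1 + 2 * dl (Module.finrank ℝ V) M) * r := by
    intro X hX
    refine gW_bds hP hN hI ?_
    have := finrank_oc hX
    omega
  have hcb : ∀ (c : ℝ), |c| ≤ 2 → ∀ X : Fin n → V, |c * ‖rv X w‖ ^ 2| ≤ 2 := by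
    intro c hc X
    rw [abs_mul]
    calc |c| * |‖rv X w‖ ^ 2| ≤ 2 * 1 := mul_le_mul hc (b_sq' hw X) (abs_nonneg _) (by norm_num)
      _ = 2 := by norm_num
  have hδ' : dl (Module.finrank ℝ V) M ≤ 1 / 10 := h2.trans (by norm_num)
  have hB1 : (1 - 2 * dl (Module.finrank ℝ V) M) * r * iw n ρ (fun X => ‖rv X w‖ ^ 2) ≤
      iw (n + 1) ρ (fun X => ‖rv (Fin.tail X) w‖ ^ 2) := by
    rw [iw_tail hρ hw, ← iw_mul]
    refine iw_mono hρ ((m_sq w).const_mul _) hgm (C := 2) (hcb _ ?_) (fun X => (hg X).trans (by norm_num)) ?_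
    · rw [abs_of_nonneg (by nlinarith)]
      nlinarith
    · intro X hX _
      exact mul_le_mul_of_nonneg_right (hgb X hX).1 (by positivity)
  have hB2 : iw (n + 1) ρ (fun X => ‖rv (Fin.tail X) w‖ ^ 2) ≤
      (1 + 2 * dl (Module.finrank ℝ V) M) * r * iw n ρ (fun X => ‖rv X w‖ ^ 2) := by
    rw [iw_tail hρ hw, ← iw_mul]
    refine iw_mono hρ hgm ((m_sq w).const_mul _) (C := 2) (fun X => (hg X).trans (by norm_num)) (hcb _ ?_) ?_
    · rw [abs_of_nonneg (by positivity)]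
      nlinarith
    · intro X hX _
      exact mul_le_mul_of_nonneg_right (hgb X hX).2 (by positivity)
  refine mean_num h1 h2 h3 hr0 he hA1 hA2 hT0 ?_ (mean_tail hρ hw) hB1 hB2 he1 he2
  exact hT.trans (mul_le_mul_of_nonneg_right h4 hj.le)

theorem pt_dev {n : ℕ} {M : ℝ} (hP : Par (Module.finrank ℝ V) (n + 1) M) {ρ : Measure V} (hN : Nice (n + 1) M ρ)
    (hI : Iso M ρ) (hj : 0 < en (n + 1) ρ) (hI' : Iso M (Nop (n + 1) ρ)) {w : V} (hw : ‖w‖ = 1) :
    iw n ρ (fun X => (‖rv X w‖ ^ 2 -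
        ((Module.finrank ℝ V : ℝ) - (n + 1 : ℕ)) / (Module.finrank ℝ V : ℝ)) ^ 2) ≤
      (150 * M ^ 5 / (Module.finrank ℝ V : ℝ) + 36 * dl (Module.finrank ℝ V) M ^ 2 *
        (((Module.finrank ℝ V : ℝ) - (n + 1 : ℕ)) / (Module.finrank ℝ V : ℝ)) ^ 2) * en n ρ := by
  have hρ := hN.us
  obtain ⟨h1, h2, h3, h4⟩ := num_facts hP
  have he := en_pos hP hN hI hj
  have hB := mean_pt hP hN hI hj hI' hw
  have hv := var_pt hP hN hI (Nat.le_succ n) he hw
  set b := ((Module.finrank ℝ V : ℝ) - (n + 1 : ℕ)) / (Module.finrank ℝ V : ℝ) with hbdef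
  set B := iw n ρ (fun X => ‖rv X w‖ ^ 2) with hBdef
  set δ := dl (Module.finrank ℝ V) M with hδdef
  set m := (en n ρ)⁻¹ * B with hmdef
  have hme : B = m * en n ρ := by
    rw [hmdef]
    field_simp
  have hsplit : iw n ρ (fun X => (‖rv X w‖ ^ 2 - b) ^ 2) =
      iw n ρ (fun X => (‖rv X w‖ ^ 2 - m) ^ 2) + (m - b) ^ 2 * en n ρ := by
    have e1 : (fun X : Fin n → V => (‖rv X w‖ ^ 2 - b) ^ 2) =
        fun X => (‖rv X w‖ ^ 2 - m) ^ 2 + (2 * (m - b) * ‖rv X w‖ ^ 2 + ((m - b) ^ 2 - 2 * (m - b) * m)) := by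
      funext X
      ring
    have hm1 : Measurable (fun X : Fin n → V => (‖rv X w‖ ^ 2 - m) ^ 2) := ((m_sq w).sub_const _).pow_const 2
    have hm2 : Measurable (fun X : Fin n → V => 2 * (m - b) * ‖rv X w‖ ^ 2) := (m_sq w).const_mul _
    have hm3 : Measurable (fun X : Fin n → V => 2 * (m - b) * ‖rv X w‖ ^ 2 + ((m - b) ^ 2 - 2 * (m - b) * m)) :=
      hm2.add_const _
    have k0 : ∀ X : Fin n → V, |‖rv X w‖ ^ 2| ≤ 1 := b_sq' hw
    have k1 : ∀ X : Fin n → V, |(‖rv X w‖ ^ 2 - m) ^ 2| ≤ (1 + |m|) ^ 2 := by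
      intro X
      rw [abs_pow]
      refine pow_le_pow_left₀ (abs_nonneg _) ?_ 2
      refine (abs_sub _ _).trans ?_
      have := k0 X
      linarith
    have k2 : ∀ X : Fin n → V, |2 * (m - b) * ‖rv X w‖ ^ 2| ≤ |2 * (m - b)| := by
      intro X
      rw [abs_mul]
      exact mul_le_of_le_one_right (abs_nonneg _) (k0 X)
    have k3 : ∀ X : Fin n → V, |2 * (m - b) * ‖rv X w‖ ^ 2 + ((m - b) ^ 2 - 2 * (m - b) * m)| ≤
        |2 * (m - b)| + |(m - b) ^ 2 - 2 * (m - b) * m| := by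
      intro X
      refine (abs_add_le _ _).trans ?_
      have := k2 X
      linarith
    rw [e1, iw_add hρ hm1 hm3 (C := (1 + |m|) ^ 2 + (|2 * (m - b)| + |(m - b) ^ 2 - 2 * (m - b) * m|))
      (fun X => (k1 X).trans (le_add_of_nonneg_right (by positivity)))
      (fun X => (k3 X).trans (le_add_of_nonneg_left (by positivity))),
      iw_add hρ (Ψ := fun _ => (m - b) ^ 2 - 2 * (m - b) * m) hm2 measurable_const
      (C := |2 * (m - b)| + |(m - b) ^ 2 - 2 * (m - b) * m|)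
      (fun X => (k2 X).trans (le_add_of_nonneg_right (by positivity)))
      (fun X => le_add_of_nonneg_left (by positivity)), iw_mul, iw_const, ← hBdef, hme]
    ring
  rw [hsplit]
  have h5 : |m - b| ≤ 6 * δ * b := by
    have h6 : B - b * en n ρ = (m - b) * en n ρ := by
      rw [hme]
      ring
    rw [h6, abs_mul, abs_of_pos he] at hB
    exact le_of_mul_le_mul_right hB he
  have h6 : (m - b) ^ 2 ≤ 36 * δ ^ 2 * b ^ 2 := by
    have h7 : (m - b) ^ 2 = |m - b| ^ 2 := (sq_abs _).symm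
    rw [h7]
    have h8 := pow_le_pow_left₀ (abs_nonneg _) h5 2
    linarith
  have h7 := mul_le_mul_of_nonneg_right h6 he.le
  linarith

end Pool.Agent.PBL
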