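import Pool.Agent.PBL.F3

/-! Module PBL-F4 (the constant `κ₁`). Pointwise `√a c ≤ √b c + (b (a - b) + ((a-b)² + (c-b)²)/2)/(2√b)` with `a = ‖rv X x‖²`,
`c = ‖rv X w‖²`, `b = k/d`; the means of `a`, `c` and of the squares are those of `mean_pt` and `pt_dev`, and
`en n √b ≤ en (n+1)/(1-2δ)` (`en_ratio`). -/

set_option autoImplicit false

namespace Pool.Agent.PBL
open MeasureTheory ProbabilityTheory Set Filter Topology Metric
open Pool.Agent.HP89 Pool.Agent.FI75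
open scoped RealInnerProductSpace ENNReal

variable {V : Type*} [NormedAddCommGroup V] [InnerProductSpace ℝ V] [FiniteDimensional ℝ V]
  [MeasurableSpace V] [BorelSpace V]

private theorem f4_le {n : ℕ} (X : Fin n → V) {x : V} (hx : ‖x‖ = 1) : ‖rv X x‖ ≤ 1 :=
  (norm_res_le _ x).trans hx.le

private theorem f4_meas {n : ℕ} (x : V) : Measurable (fun X : Fin n → V => ‖rv X x‖) :=
  (meas_rv.comp (measurable_id.prodMk measurable_const)).norm

/-- linearity of `iw` for five terms -/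
private theorem f4_lin {ρ : Measure V} (hρ : US ρ) {n : ℕ} {A B D E : (Fin n → V) → ℝ}
    (hA : Measurable A) (hB : Measurable B) (hD : Measurable D) (hE : Measurable E)
    (bA : ∀ X, |A X| ≤ 1) (bB : ∀ X, |B X| ≤ 1) (bD : ∀ X, |D X| ≤ 1) (bE : ∀ X, |E X| ≤ 1)
    (α β γ ε e : ℝ) :
    iw n ρ (fun X => α * A X + (β * B X + (γ * D X + (ε * E X + e)))) =
      α * iw n ρ A + (β * iw n ρ B + (γ * iw n ρ D + (ε * iw n ρ E + e * en n ρ))) := by
  have h1 : ∀ (c : ℝ) (F : (Fin n → V) → ℝ), (∀ X, |F X| ≤ 1) → ∀ X, |c * F X| ≤ |c| := by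
    intro c F hF X
    rw [abs_mul]
    exact mul_le_of_le_one_right (abs_nonneg c) (hF X)
  have a1 := abs_nonneg α
  have a2 := abs_nonneg β
  have a3 := abs_nonneg γ
  have a4 := abs_nonneg ε
  have a5 := abs_nonneg e
  have b4 : ∀ X, |ε * E X + e| ≤ |ε| + |e| := fun X =>
    (abs_add_le _ _).trans (add_le_add (h1 ε E bE X) le_rfl)
  have b3 : ∀ X, |γ * D X + (ε * E X + e)| ≤ |γ| + (|ε| + |e|) := fun X =>
    (abs_add_le _ _).trans (add_le_add (h1 γ D bD X) (b4 X))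
  have b2 : ∀ X, |β * B X + (γ * D X + (ε * E X + e))| ≤ |β| + (|γ| + (|ε| + |e|)) := fun X =>
    (abs_add_le _ _).trans (add_le_add (h1 β B bB X) (b3 X))
  have m4 : Measurable (fun X => ε * E X + e) := (hE.const_mul ε).add measurable_const
  have m3 : Measurable (fun X => γ * D X + (ε * E X + e)) := (hD.const_mul γ).add m4
  have m2 : Measurable (fun X => β * B X + (γ * D X + (ε * E X + e))) := (hB.const_mul β).add m3
  have e1 := iw_add hρ (Φ := fun X => α * A X) (Ψ := fun X => β * B X + (γ * D X + (ε * E X + e)))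
    (C := |α| + (|β| + (|γ| + (|ε| + |e|)))) (hA.const_mul α) m2
    (fun X => (h1 α A bA X).trans (by linarith)) (fun X => (b2 X).trans (by linarith))
  have e2 := iw_add hρ (Φ := fun X => β * B X) (Ψ := fun X => γ * D X + (ε * E X + e))
    (C := |β| + (|γ| + (|ε| + |e|))) (hB.const_mul β) m3
    (fun X => (h1 β B bB X).trans (by linarith)) (fun X => (b3 X).trans (by linarith))
  have e3 := iw_add hρ (Φ := fun X => γ * D X) (Ψ := fun X => ε * E X + e)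
    (C := |γ| + (|ε| + |e|)) (hD.const_mul γ) m4
    (fun X => (h1 γ D bD X).trans (by linarith)) (fun X => (b4 X).trans (by linarith))
  have e4 := iw_add hρ (Φ := fun X => ε * E X) (Ψ := fun _ => e)
    (C := |ε| + |e|) (hE.const_mul ε) measurable_const
    (fun X => (h1 ε E bE X).trans (by linarith)) (fun X => by linarith)
  rw [e1, e2, e3, e4, iw_mul, iw_mul, iw_mul, iw_mul, iw_const]

/-- the pointwise inequality, `s = √b` -/
private theorem f4_pt {s r c : ℝ} (hs : 0 < s) (hc : 0 ≤ c) :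
    r * c ≤ s * c + (s / 2 * r ^ 2 + (1 / (4 * s) * (r ^ 2 - s ^ 2) ^ 2 +
      (1 / (4 * s) * (c - s ^ 2) ^ 2 + -(s / 2) * s ^ 2))) := by
  have h1 : 0 ≤ (r - s) ^ 2 * c := mul_nonneg (sq_nonneg _) hc
  have h2 : 0 ≤ ((r ^ 2 - s ^ 2) - (c - s ^ 2)) ^ 2 := sq_nonneg _
  have h3 : s * c + (s / 2 * r ^ 2 + (1 / (4 * s) * (r ^ 2 - s ^ 2) ^ 2 +
      (1 / (4 * s) * (c - s ^ 2) ^ 2 + -(s / 2) * s ^ 2))) - r * c =
      (1 / (4 * s)) * (2 * ((r - s) ^ 2 * c) + ((r ^ 2 - s ^ 2) - (c - s ^ 2)) ^ 2) := by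
    field_simp
    ring
  have h4 : 0 ≤ (1 / (4 * s)) * (2 * ((r - s) ^ 2 * c) +
      ((r ^ 2 - s ^ 2) - (c - s ^ 2)) ^ 2) := by positivity
  linarith

/-- the numerical part -/
private theorem f4_num {s N E ma mc va vc δ K : ℝ} (hs : 0 < s) (hN : 0 ≤ N) (hδ : 0 < δ)
    (hδ1 : δ ≤ 1 / 10 ^ 16) (hma : ma ≤ (1 + 6 * δ) * s ^ 2 * N)
    (hmc : mc ≤ (1 + 6 * δ) * s ^ 2 * N) (hva : va ≤ K * N) (hvc : vc ≤ K * N)
    (hK : K ≤ 2 * δ * (s ^ 2) ^ 2) (hE : (1 - 2 * δ) * s * N ≤ E) :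
    s * mc + (s / 2 * ma + (1 / (4 * s) * va + (1 / (4 * s) * vc + -(s / 2) * s ^ 2 * N))) ≤
      (1 + 13 * δ) * s ^ 2 * E := by
  have h1 : s * mc ≤ s * ((1 + 6 * δ) * s ^ 2 * N) := mul_le_mul_of_nonneg_left hmc hs.le
  have h2 : s / 2 * ma ≤ s / 2 * ((1 + 6 * δ) * s ^ 2 * N) :=
    mul_le_mul_of_nonneg_left hma (by positivity)
  have h3 : 1 / (4 * s) * va ≤ 1 / (4 * s) * (2 * δ * (s ^ 2) ^ 2 * N) :=
    mul_le_mul_of_nonneg_left (hva.trans (mul_le_mul_of_nonneg_right hK hN)) (by positivity)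
  have h4 : 1 / (4 * s) * vc ≤ 1 / (4 * s) * (2 * δ * (s ^ 2) ^ 2 * N) :=
    mul_le_mul_of_nonneg_left (hvc.trans (mul_le_mul_of_nonneg_right hK hN)) (by positivity)
  have h5 : 1 / (4 * s) * (2 * δ * (s ^ 2) ^ 2 * N) = δ / 2 * s ^ 2 * (s * N) := by
    field_simp
    ring
  rw [h5] at h3 h4
  have h6 : (1 + 13 * δ) * s ^ 2 * ((1 - 2 * δ) * s * N) ≤ (1 + 13 * δ) * s ^ 2 * E :=
    mul_le_mul_of_nonneg_left hE (by positivity)
  have h7 : 0 ≤ s ^ 2 * (s * N) := by positivity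
  have h8 : 0 ≤ δ * (1 - 26 * δ) := mul_nonneg hδ.le (by linarith)
  have h9 : 0 ≤ (δ * (1 - 26 * δ)) * (s ^ 2 * (s * N)) := mul_nonneg h8 h7
  nlinarith

theorem kap1 {n : ℕ} {M : ℝ} (hP : Par (Module.finrank ℝ V) (n + 1) M) {ρ : Measure V} (hN : Nice (n + 1) M ρ)
    (hI : Iso M ρ) (hj : 0 < en (n + 1) ρ) (hI' : Iso M (Nop (n + 1) ρ)) {x w : V} (hx : ‖x‖ = 1) (hw : ‖w‖ = 1) :
    iw n ρ (fun X => ‖rv X x‖ * ‖rv X w‖ ^ 2) ≤
      (1 + 13 * dl (Module.finrank ℝ V) M) *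
        (((Module.finrank ℝ V : ℝ) - (n + 1 : ℕ)) / (Module.finrank ℝ V : ℝ)) * en (n + 1) ρ := by
  obtain ⟨hδ, hδ4, hδ6⟩ := dl_small hP
  have hmx := mean_pt hP hN hI hj hI' hx
  have hmw := mean_pt hP hN hI hj hI' hw
  have hvx := pt_dev hP hN hI hj hI' hx
  have hvw := pt_dev hP hN hI hj hI' hw
  have hen := en_ratio hP hN hI
  have hd : (0 : ℝ) < Module.finrank ℝ V := hP.d_pos
  have hk : (0 : ℝ) < (Module.finrank ℝ V : ℝ) - (n + 1 : ℕ) := hP.k_pos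
  have hM := hP.one
  have hbM : (Module.finrank ℝ V : ℝ) ≤ M * ((Module.finrank ℝ V : ℝ) - (n + 1 : ℕ)) := hP.hM
  have hbig := hP.big
  set d : ℝ := (Module.finrank ℝ V : ℝ) with hdd
  set δ : ℝ := dl (Module.finrank ℝ V) M with hδδ
  set b : ℝ := (d - (n + 1 : ℕ)) / d with hbb
  have hb : 0 < b := div_pos hk hd
  have hb1 : b ≤ 1 := by
    rw [hbb, div_le_one hd]
    have : (0 : ℝ) ≤ ((n + 1 : ℕ) : ℝ) := Nat.cast_nonneg _
    linarith
  have hMb : 1 ≤ M * b := by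
    rw [hbb, ← mul_div_assoc, le_div_iff₀ hd, one_mul]
    exact hbM
  have hs : 0 < √b := Real.sqrt_pos.2 hb
  have hsb : √b ^ 2 = b := Real.sq_sqrt hb.le
  -- numbers
  have hM4 : (1 : ℝ) ≤ M ^ 4 := one_le_pow₀ hM
  have hδ1 : δ ≤ 1 / 10 ^ 16 := by nlinarith
  have hD : 0 < √d := Real.sqrt_pos.2 hd
  have hDD : √d * √d = d := Real.mul_self_sqrt hd.le
  have hδdef : δ * √d = 1000 * M ^ 6 := by
    rw [hδδ, dl]
    exact div_mul_cancel₀ _ hD.ne'
  have hMD : 10 ^ 20 * M ≤ √d := by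
    have h1 : M ≤ M ^ 10 := le_self_pow₀ hM (by norm_num)
    linarith
  have hM7 : 150 * M ^ 7 / d ≤ δ := by
    rw [div_le_iff₀ hd]
    have h1 : 1000 * (M ^ 7 * 10 ^ 20) ≤ δ * d := by
      calc 1000 * (M ^ 7 * 10 ^ 20) = (1000 * M ^ 6) * (10 ^ 20 * M) := by ring
        _ ≤ (1000 * M ^ 6) * √d := mul_le_mul_of_nonneg_left hMD (by positivity)
        _ = δ * √d * √d := by rw [hδdef]
        _ = δ * d := by rw [mul_assoc, hDD]
    have h2 : 0 ≤ M ^ 7 := by positivity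
    nlinarith
  have hK : 150 * M ^ 5 / d + 36 * δ ^ 2 * b ^ 2 ≤ 2 * δ * b ^ 2 := by
    have h1 : 1 ≤ (M * b) ^ 2 := one_le_pow₀ hMb
    have h2 : 150 * M ^ 5 / d ≤ δ * b ^ 2 := by
      calc 150 * M ^ 5 / d ≤ 150 * M ^ 5 / d * (M * b) ^ 2 :=
            le_mul_of_one_le_right (by positivity) h1
        _ = 150 * M ^ 7 / d * b ^ 2 := by ring
        _ ≤ δ * b ^ 2 := mul_le_mul_of_nonneg_right hM7 (by positivity)
    have h3 : 36 * δ ^ 2 * b ^ 2 ≤ δ * b ^ 2 := by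
      have h4 : 36 * δ ^ 2 ≤ δ := by nlinarith
      exact mul_le_mul_of_nonneg_right h4 (by positivity)
    linarith
  -- the mass
  have hN0 : 0 ≤ en n ρ := by
    by_contra hneg
    have h1 : (1 + 2 * δ) * √b * en n ρ ≤ 0 :=
      mul_nonpos_of_nonneg_of_nonpos (by positivity) (not_le.1 hneg).le
    linarith [hen.2]
  -- bounds of the functions
  have hra : ∀ X : Fin n → V, 0 ≤ ‖rv X x‖ ^ 2 ∧ ‖rv X x‖ ^ 2 ≤ 1 := fun X =>
    ⟨by positivity, pow_le_one₀ (norm_nonneg _) (f4_le X hx)⟩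
  have hrw : ∀ X : Fin n → V, 0 ≤ ‖rv X w‖ ^ 2 ∧ ‖rv X w‖ ^ 2 ≤ 1 := fun X =>
    ⟨by positivity, pow_le_one₀ (norm_nonneg _) (f4_le X hw)⟩
  have habs : ∀ t : ℝ, 0 ≤ t → t ≤ 1 → |t| ≤ 1 := fun t h0 h1 => by
    rw [abs_of_nonneg h0]
    exact h1
  have hsq : ∀ t : ℝ, 0 ≤ t → t ≤ 1 → |(t - b) ^ 2| ≤ 1 := fun t h0 h1 => by
    rw [abs_of_nonneg (sq_nonneg _)]
    nlinarith
  have mx := f4_meas (n := n) x
  have mw := f4_meas (n := n) w
  have lin := f4_lin hN.us (mw.pow_const 2) (mx.pow_const 2)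
    (((mx.pow_const 2).sub_const b).pow_const 2) (((mw.pow_const 2).sub_const b).pow_const 2)
    (fun X => habs _ (hrw X).1 (hrw X).2) (fun X => habs _ (hra X).1 (hra X).2)
    (fun X => hsq _ (hra X).1 (hra X).2) (fun X => hsq _ (hrw X).1 (hrw X).2)
    (√b) (√b / 2) (1 / (4 * √b)) (1 / (4 * √b)) (-(√b / 2) * b)
  have hmono : iw n ρ (fun X => ‖rv X x‖ * ‖rv X w‖ ^ 2) ≤
      iw n ρ (fun X => √b * ‖rv X w‖ ^ 2 + (√b / 2 * ‖rv X x‖ ^ 2 +
        (1 / (4 * √b) * (‖rv X x‖ ^ 2 - b) ^ 2 + (1 / (4 * √b) * (‖rv X w‖ ^ 2 - b) ^ 2 +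
          -(√b / 2) * b)))) := by
    refine iw_mono hN.us (C := 1 + (|√b| + (|√b / 2| + (|1 / (4 * √b)| + (|1 / (4 * √b)| +
      |-(√b / 2) * b|))))) (mx.mul (mw.pow_const 2)) ?_ ?_ ?_ ?_
    · exact ((mw.pow_const 2).const_mul _).add (((mx.pow_const 2).const_mul _).add
        (((((mx.pow_const 2).sub_const b).pow_const 2).const_mul _).add
        (((((mw.pow_const 2).sub_const b).pow_const 2).const_mul _).add measurable_const)))
    · intro X
      have h1 : |‖rv X x‖ * ‖rv X w‖ ^ 2| ≤ 1 := by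
        apply habs
        · exact mul_nonneg (norm_nonneg _) (hrw X).1
        · exact mul_le_one₀ (f4_le X hx) (hrw X).1 (hrw X).2
      have h2 : 0 ≤ |√b| + (|√b / 2| + (|1 / (4 * √b)| + (|1 / (4 * √b)| +
        |-(√b / 2) * b|))) := by positivity
      linarith
    · intro X
      have h1 : ∀ c t : ℝ, |t| ≤ 1 → |c * t| ≤ |c| := by
        intro c t ht
        rw [abs_mul]
        exact mul_le_of_le_one_right (abs_nonneg c) ht
      have e1 := h1 (√b) _ (habs _ (hrw X).1 (hrw X).2)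
      have e2 := h1 (√b / 2) _ (habs _ (hra X).1 (hra X).2)
      have e3 := h1 (1 / (4 * √b)) _ (hsq _ (hra X).1 (hra X).2)
      have e4 := h1 (1 / (4 * √b)) _ (hsq _ (hrw X).1 (hrw X).2)
      refine (abs_add_le _ _).trans ?_
      refine (add_le_add e1 ((abs_add_le _ _).trans (add_le_add e2 ((abs_add_le _ _).trans
        (add_le_add e3 ((abs_add_le _ _).trans (add_le_add e4 le_rfl))))))).trans ?_
      linarith
    · intro X _ _
      have h := f4_pt (s := √b) (r := ‖rv X x‖) (c := ‖rv X w‖ ^ 2) hs (hrw X).1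
      rw [hsb] at h
      exact h
  refine hmono.trans ?_
  rw [lin]
  have hma : iw n ρ (fun X => ‖rv X x‖ ^ 2) ≤ (1 + 6 * δ) * √b ^ 2 * en n ρ := by
    rw [hsb]
    have h1 := (abs_le.1 hmx).2
    linarith
  have hmc : iw n ρ (fun X => ‖rv X w‖ ^ 2) ≤ (1 + 6 * δ) * √b ^ 2 * en n ρ := by
    rw [hsb]
    have h1 := (abs_le.1 hmw).2
    linarith
  have hfin := f4_num (s := √b) (N := en n ρ) (E := en (n + 1) ρ) (δ := δ) hs hN0 hδ hδ1 hma hmc
    hvx hvw (by rw [hsb]; exact hK) hen.1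
  rw [hsb] at hfin
  exact hfin

end Pool.Agent.PBL
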