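import Pool.Agent.PBL.F2
import Pool.Agent.PBL.D2
import Pool.Agent.PBL.C4c

/-! Module PBL-F5 (lower bound for the density of the next measure). The integral of `‖P_W x‖ avo W x φ` with respect to
`Nop j ρ` is a mean over `X` (`nop_int`), which is estimated from below by `coi_lower`; the order of the means over `X` and over
the sphere of `W` is exchanged, and the mean over `X` is estimated by the concentration of `tt (oc X) W` and of `‖rv X y‖²`. -/

set_option autoImplicit false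

namespace Pool.Agent.PBL
open MeasureTheory ProbabilityTheory Set Filter Topology Metric
open Pool.Agent.HP89 Pool.Agent.FI75
open scoped RealInnerProductSpace ENNReal

variable {V : Type*} [NormedAddCommGroup V] [InnerProductSpace ℝ V] [FiniteDimensional ℝ V]
  [MeasurableSpace V] [BorelSpace V]

omit [MeasurableSpace V] [BorelSpace V] in
private theorem rv_norm_le {n : ℕ} (X : Fin n → V) (y : V) : ‖rv X y‖ ≤ ‖y‖ := by
  rw [rv_eq]
  exact Submodule.norm_starProjection_apply_le _ _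

omit [MeasurableSpace V] [BorelSpace V] in
private theorem rv_inner {n : ℕ} (X : Fin n → V) (y : V) : ⟪rv X y, y⟫ = ‖rv X y‖ ^ 2 := by
  have h : ⟪(oc X).starProjection y, y⟫ = ⟪(oc X).starProjection y, (oc X).starProjection y⟫ := by
    have h1 := Submodule.inner_starProjection_left_eq_right (oc X) ((oc X).starProjection y) y
    rw [Submodule.starProjection_eq_self_iff.2 (Submodule.starProjection_apply_mem _ _)] at h1
    exact h1
  rw [rv_eq, h, real_inner_self_eq_norm_sq]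

private theorem iw_int {j : ℕ} {ρ : Measure V} (hρ : US ρ) {f : (Fin j → V) → ℝ} (hf : Measurable f) {C : ℝ}
    (hC : ∀ X, |f X| ≤ C) : Integrable (fun X => wv X * f X) (pp j ρ) := by
  have := hρ.prob
  refine Integrable.of_bound ((measurable_wv j).mul hf).aestronglyMeasurable C ?_
  filter_upwards [ae_wv_le hρ j] with X hX
  rw [Real.norm_eq_abs, abs_mul, abs_of_nonneg hX.1]
  calc wv X * |f X| ≤ 1 * |f X| := mul_le_mul_of_nonneg_right hX.2 (abs_nonneg _)
    _ = |f X| := one_mul _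
    _ ≤ C := hC X

private theorem iw_four {j : ℕ} {ρ : Measure V} (hρ : US ρ) {f1 f2 f3 f4 : (Fin j → V) → ℝ}
    (h1 : Measurable f1) (h2 : Measurable f2) (h3 : Measurable f3) (h4 : Measurable f4)
    {C1 C2 C3 C4 : ℝ} (H1 : ∀ X, |f1 X| ≤ C1) (H2 : ∀ X, |f2 X| ≤ C2) (H3 : ∀ X, |f3 X| ≤ C3)
    (H4 : ∀ X, |f4 X| ≤ C4) (c0 c1 c2 c3 c4 : ℝ) :
    iw j ρ (fun X => c0 + c1 * f1 X + c2 * f2 X + c3 * f3 X + c4 * f4 X) =
      c0 * en j ρ + c1 * iw j ρ f1 + c2 * iw j ρ f2 + c3 * iw j ρ f3 + c4 * iw j ρ f4 := by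
  have := hρ.prob
  have i0 : Integrable (fun X => c0 * wv X) (pp j ρ) := by
    have := iw_int (j := j) hρ (f := fun _ => 1) measurable_const (C := 1) (fun _ => by norm_num)
    simp only [mul_one] at this
    exact this.const_mul c0
  have i1 := (iw_int hρ h1 H1).const_mul c1
  have i2 := (iw_int hρ h2 H2).const_mul c2
  have i3 := (iw_int hρ h3 H3).const_mul c3
  have i4 := (iw_int hρ h4 H4).const_mul c4
  unfold iw en
  have he : (fun X => wv X * (c0 + c1 * f1 X + c2 * f2 X + c3 * f3 X + c4 * f4 X)) =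
      fun X => c0 * wv X + c1 * (wv X * f1 X) + c2 * (wv X * f2 X) + c3 * (wv X * f3 X) +
        c4 * (wv X * f4 X) := by
    funext X; ring
  rw [he]
  have j1 : Integrable (fun X => c0 * wv X + c1 * (wv X * f1 X)) (pp j ρ) := i0.add i1
  have j2 : Integrable (fun X => c0 * wv X + c1 * (wv X * f1 X) + c2 * (wv X * f2 X)) (pp j ρ) := j1.add i2
  have j3 : Integrable (fun X => c0 * wv X + c1 * (wv X * f1 X) + c2 * (wv X * f2 X) +
    c3 * (wv X * f3 X)) (pp j ρ) := j2.add i3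
  rw [integral_add j3 i4, integral_add j2 i3, integral_add j1 i2, integral_add i0 i1]
  simp only [integral_const_mul]

private theorem abs_av_le (E : Submodule ℝ V) {φ : V → ℝ} {C : ℝ} (h : ∀ x, ‖x‖ ≤ 1 → |φ x| ≤ C) :
    |av E φ| ≤ C := by
  have h1 : ‖∫ g, φ (nrm (E.starProjection g)) ∂(stdGaussian V)‖ ≤ C * (stdGaussian V).real univ :=
    norm_integral_le_of_norm_le_const (Eventually.of_forall fun g => by
      rw [Real.norm_eq_abs]
      exact h _ (norm_nrm_le _))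
  rw [Real.norm_eq_abs, probReal_univ, mul_one] at h1
  exact h1

/-- exchange of `iw` with `av W`. -/
private theorem iw_av {j : ℕ} {ρ : Measure V} (hρ : US ρ) (W : Submodule ℝ V) {Ψ : (Fin j → V) → V → ℝ}
    (hΨ : Measurable (Function.uncurry Ψ)) {C : ℝ} (hC : ∀ X y, ‖y‖ ≤ 1 → |Ψ X y| ≤ C) :
    iw j ρ (fun X => av W (Ψ X)) = av W (fun y => iw j ρ (fun X => Ψ X y)) := by
  have := hρ.prob
  unfold iw av
  simp_rw [← integral_const_mul]
  refine integral_integral_swap (f := fun (X : Fin j → V) (g : V) =>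
    wv X * Ψ X (nrm (W.starProjection g))) ?_
  have hm : Measurable (fun p : (Fin j → V) × V => wv p.1 * Ψ p.1 (nrm (W.starProjection p.2))) := by
    have h1 : Measurable (fun p : (Fin j → V) × V => nrm (W.starProjection p.2)) :=
      measurable_nrm.comp (W.starProjection.continuous.measurable.comp measurable_snd)
    exact ((measurable_wv j).comp measurable_fst).mul (hΨ.comp (measurable_fst.prodMk h1))
  refine Integrable.of_bound hm.aestronglyMeasurable C ?_
  have hae : ∀ᵐ p ∂((pp j ρ).prod (stdGaussian V)), 0 ≤ wv p.1 ∧ wv p.1 ≤ 1 :=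
    Measure.quasiMeasurePreserving_fst.ae (ae_wv_le hρ j)
  filter_upwards [hae] with p hp
  have h2 := hC p.1 (nrm (W.starProjection p.2)) (norm_nrm_le _)
  change ‖wv p.1 * Ψ p.1 (nrm (W.starProjection p.2))‖ ≤ C
  rw [Real.norm_eq_abs, abs_mul, abs_of_nonneg hp.1]
  calc wv p.1 * |Ψ p.1 (nrm (W.starProjection p.2))| ≤ 1 * |Ψ p.1 (nrm (W.starProjection p.2))| :=
        mul_le_mul_of_nonneg_right hp.2 (abs_nonneg _)
    _ = |Ψ p.1 (nrm (W.starProjection p.2))| := one_mul _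
    _ ≤ C := h2

private theorem meas_T {j : ℕ} (W : Submodule ℝ V) : Measurable (fun X : Fin j → V => tt (oc X) W) := by
  have h : (fun X : Fin j → V => tt (oc X) W) = fun X => tt W (oc X) := by
    funext X; exact tt_comm _ _
  rw [h]
  exact meas_tt W

private theorem T_bd {j : ℕ} (W : Submodule ℝ V) (X : Fin j → V) :
    0 ≤ tt (oc X) W ∧ tt (oc X) W ≤ Module.finrank ℝ V :=
  ⟨tt_nonneg _ _, (tt_le _ _).trans (by exact_mod_cast Submodule.finrank_le (oc X))⟩

private theorem meas_a {j : ℕ} (y : V) : Measurable (fun X : Fin j → V => ‖rv X y‖ ^ 2) :=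
  ((meas_rv.comp (measurable_id.prodMk measurable_const)).norm).pow_const 2

/-- the mean of the random factor. -/
private theorem A_lower {j : ℕ} {M : ℝ} (hP : Par (Module.finrank ℝ V) j M) {ρ : Measure V} (hN : Nice j M ρ)
    (hI : Iso M ρ) (hj : 0 < en j ρ) (hI' : Iso M (Nop j ρ)) {W : Submodule ℝ V}
    (hW : Module.finrank ℝ W + j = Module.finrank ℝ V + 1) {y : V} (hy : ‖y‖ = 1) :
    (((Module.finrank ℝ V : ℝ) - j) ^ 2 / (Module.finrank ℝ V : ℝ) * (1 - dl (Module.finrank ℝ V) M) - 1) *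
        (1 - dl (Module.finrank ℝ V) M / 2) * en j ρ - 25 / 8 * M ^ 4 * en j ρ ≤
      iw j ρ (fun X => (tt (oc X) W - 1) *
        (3 / 2 - ‖rv X y‖ ^ 2 / (2 * (((Module.finrank ℝ V : ℝ) - j) / (Module.finrank ℝ V : ℝ))))) := by
  obtain ⟨hd0, hd1, hd2⟩ := dl_small hP
  have hdp : (0 : ℝ) < Module.finrank ℝ V := hP.d_pos
  have hkp : (0 : ℝ) < (Module.finrank ℝ V : ℝ) - j := hP.k_pos
  have hM := hP.one
  have hdM := hP.hM
  have hUS : US (Nop j ρ) := nop_us hN.us hj hP.hjd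
  have hWr : (Module.finrank ℝ W : ℝ) + j = (Module.finrank ℝ V : ℝ) + 1 := by exact_mod_cast hW
  have hsW := (sW_bds hUS hI' W).1
  have hT := nop_sW hN.us hj hP.hjd W
  have hin := nop_inner hN.us hj hP.hjd y y
  have hiso := (hI' y).2
  have hvar := var_pt hP hN hI (n := j) le_rfl hj hy
  have hcv := conc_var hN.us (sub1_proj W) hj
  have hjd : (j : ℝ) ≤ Module.finrank ℝ V := by exact_mod_cast hP.hjd.le
  set d : ℝ := (Module.finrank ℝ V : ℝ) with hd
  set δ : ℝ := dl (Module.finrank ℝ V) M with hδ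
  set e : ℝ := en j ρ with he
  set k : ℝ := d - j with hk
  set b : ℝ := k / d with hb
  have hb0 : 0 < b := div_pos hkp hdp
  -- the means
  set m : ℝ := e⁻¹ * iw j ρ (fun X => tt (oc X) W) with hm
  set m' : ℝ := e⁻¹ * iw j ρ (fun X => ‖rv X y‖ ^ 2) with hm'
  have hme : iw j ρ (fun X => tt (oc X) W) = m * e := by
    rw [hm]; field_simp
  have hme' : iw j ρ (fun X => ‖rv X y‖ ^ 2) = m' * e := by
    rw [hm']; field_simp
  have hmW : mW j ρ ((stdGaussian V).map (fun g => W.starProjection g)) = m := by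
    unfold mW
    rw [hm, he]
    refine congrArg (fun t => (en j ρ)⁻¹ * t) ?_
    refine congrArg (iw j ρ) ?_
    funext X
    rw [sW_proj, tt_comm]
  have hcv' : iw j ρ (fun X => (tt (oc X) W - m) ^ 2) ≤ j / 4 * e := by
    have h : (fun X : Fin j → V => (sW ((stdGaussian V).map (fun g => W.starProjection g)) (oc X) -
        mW j ρ ((stdGaussian V).map (fun g => W.starProjection g))) ^ 2) =
        fun X => (tt (oc X) W - m) ^ 2 := by
      funext X
      rw [hmW, sW_proj, tt_comm]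
    rw [h] at hcv
    exact hcv
  -- values of the means
  have hmk : m = k * sW (Nop j ρ) W := by
    rw [hme] at hT
    have h : e * (m - k * sW (Nop j ρ) W) = 0 := by linarith [hT, mul_comm k e, mul_assoc k e (sW (Nop j ρ) W)]
    rcases mul_eq_zero.1 h with h | h
    · exact absurd h hj.ne'
    · linarith
  have hm'k : m' = k * ∫ x, ⟪x, y⟫ ^ 2 ∂(Nop j ρ) := by
    have h1 : iw j ρ (fun X => ⟪rv X y, y⟫) = m' * e := by
      rw [← hme']
      refine congrArg (iw j ρ) ?_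
      funext X
      exact rv_inner X y
    have h2 : (∫ x, ⟪x, y⟫ * ⟪x, y⟫ ∂(Nop j ρ)) = ∫ x, ⟪x, y⟫ ^ 2 ∂(Nop j ρ) := by
      refine integral_congr_ae (Eventually.of_forall fun x => ?_)
      change ⟪x, y⟫ * ⟪x, y⟫ = ⟪x, y⟫ ^ 2
      ring
    rw [h1, h2] at hin
    have h : e * (m' - k * ∫ x, ⟪x, y⟫ ^ 2 ∂(Nop j ρ)) = 0 := by
      linarith [hin, mul_comm k e, mul_assoc k e (∫ x, ⟪x, y⟫ ^ 2 ∂(Nop j ρ))]
    rcases mul_eq_zero.1 h with h | h
    · exact absurd h hj.ne'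
    · linarith
  have hm'b : m' ≤ b * (1 + δ) := by
    rw [hy] at hiso
    have h1 : d * ∫ x, ⟪x, y⟫ ^ 2 ∂(Nop j ρ) ≤ 1 + δ := by linarith
    rw [hm'k, hb]
    have h2 : k * ∫ x, ⟪x, y⟫ ^ 2 ∂(Nop j ρ) = k / d * (d * ∫ x, ⟪x, y⟫ ^ 2 ∂(Nop j ρ)) := by
      field_simp
    rw [h2]
    exact mul_le_mul_of_nonneg_left h1 hb0.le
  have hδ1 : δ ≤ 1 / 2 := by
    have h1 : δ * 1 ≤ δ * M ^ 4 := mul_le_mul_of_nonneg_left (one_le_pow₀ hM) hd0.le
    linarith [hd1, h1, (by norm_num : (1 : ℝ) / 10 ^ 16 ≤ 1 / 2)]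
  have hmlow : k ^ 2 / d * (1 - δ) ≤ m := by
    have hWk : (Module.finrank ℝ W : ℝ) = k + 1 := by rw [hk]; linarith
    rw [hWk] at hsW
    have h1 : (1 - δ) * (k + 1) / d ≤ sW (Nop j ρ) W := by
      rw [div_le_iff₀ hdp]; linarith
    rw [hmk]
    calc k ^ 2 / d * (1 - δ) = k * ((1 - δ) * k / d) := by ring
      _ ≤ k * ((1 - δ) * (k + 1) / d) := by
          refine mul_le_mul_of_nonneg_left ?_ hkp.le
          refine div_le_div_of_nonneg_right ?_ hdp.le
          refine mul_le_mul_of_nonneg_left (by linarith) (by linarith)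
      _ ≤ k * sW (Nop j ρ) W := mul_le_mul_of_nonneg_left h1 hkp.le
  have hkdM : 1 ≤ M * (k / d) := by
    rw [← mul_div_assoc, le_div_iff₀ hdp]; linarith
  have hinvb : 1 / b ≤ M := by
    rw [div_le_iff₀ hb0]; exact hkdM
  have hbig : 1 ≤ k ^ 2 / d * (1 - δ) := by
    have h0 : 10 ^ 20 ≤ √d := by
      have h1 := hP.big
      have h2 : (10 : ℝ) ^ 20 * 1 ≤ 10 ^ 20 * M ^ 10 :=
        mul_le_mul_of_nonneg_left (one_le_pow₀ hM) (by positivity)
      linarith
    have h1 : √d * √d = d := Real.mul_self_sqrt hdp.le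
    have hbig1 : (10 : ℝ) ^ 20 * M ^ 10 ≤ √d := hP.big
    -- k ≥ d / M, k^2/d ≥ d / M^2 ≥ 2
    have h3 : d ^ 2 ≤ M ^ 2 * k ^ 2 := by
      have := mul_self_le_mul_self hdp.le hdM
      nlinarith [this]
    have h4 : d / M ^ 2 ≤ k ^ 2 / d := by
      rw [div_le_div_iff₀ (by positivity) hdp]
      nlinarith [h3]
    have h5 : 2 ≤ d / M ^ 2 := by
      rw [le_div_iff₀ (by positivity)]
      have h6 : M ^ 2 ≤ M ^ 10 := pow_le_pow_right₀ hM (by norm_num)
      have h7 : √d ≤ d := by nlinarith [h1, h0, Real.sqrt_nonneg d]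
      nlinarith [h6, h7, hbig1, pow_pos (lt_of_lt_of_le one_pos hM) 2]
    nlinarith [h4, h5, hδ1]
  -- pointwise lower bound
  set c : ℝ := 20 * M ^ 3 / d with hc
  have hM0 : 0 < M := lt_of_lt_of_le one_pos hM
  have hc0 : 0 < c := by rw [hc]; positivity
  have hTm : Measurable (fun X : Fin j → V => tt (oc X) W) := meas_T W
  have ham : Measurable (fun X : Fin j → V => ‖rv X y‖ ^ 2) := meas_a y
  have hTb : ∀ X : Fin j → V, |tt (oc X) W| ≤ d := fun X => by
    rw [abs_of_nonneg (T_bd W X).1]; exact (T_bd W X).2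
  have hab : ∀ X : Fin j → V, |‖rv X y‖ ^ 2| ≤ 1 := fun X => by
    rw [abs_of_nonneg (by positivity)]
    have h := rv_norm_le X y
    rw [hy] at h
    exact pow_le_one₀ (norm_nonneg _) h
  have hT2 : ∀ X : Fin j → V, |(tt (oc X) W - m) ^ 2| ≤ (d + |m|) ^ 2 := fun X => by
    rw [abs_pow]
    exact pow_le_pow_left₀ (abs_nonneg _) ((abs_sub _ _).trans (by linarith [hTb X])) 2
  have ha2 : ∀ X : Fin j → V, |(‖rv X y‖ ^ 2 - m') ^ 2| ≤ (1 + |m'|) ^ 2 := fun X => by
    rw [abs_pow]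
    exact pow_le_pow_left₀ (abs_nonneg _) ((abs_sub _ _).trans (by linarith [hab X])) 2
  have hT2m : Measurable (fun X : Fin j → V => (tt (oc X) W - m) ^ 2) := (hTm.sub_const m).pow_const 2
  have ha2m : Measurable (fun X : Fin j → V => (‖rv X y‖ ^ 2 - m') ^ 2) := (ham.sub_const m').pow_const 2
  have hlin := iw_four hN.us hTm ham hT2m ha2m hTb hab hT2 ha2
    ((m - 1) * (3 / 2 - m' / (2 * b)) - (3 / 2 - m' / (2 * b)) * m + (m - 1) / (2 * b) * m')
    (3 / 2 - m' / (2 * b)) (-((m - 1) / (2 * b))) (-(c / (4 * b))) (-(1 / (4 * b * c)))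
  have hmono : iw j ρ (fun X =>
      ((m - 1) * (3 / 2 - m' / (2 * b)) - (3 / 2 - m' / (2 * b)) * m + (m - 1) / (2 * b) * m') +
      (3 / 2 - m' / (2 * b)) * tt (oc X) W + (-((m - 1) / (2 * b))) * ‖rv X y‖ ^ 2 +
      (-(c / (4 * b))) * (tt (oc X) W - m) ^ 2 + (-(1 / (4 * b * c))) * (‖rv X y‖ ^ 2 - m') ^ 2) ≤
      iw j ρ (fun X => (tt (oc X) W - 1) * (3 / 2 - ‖rv X y‖ ^ 2 / (2 * b))) := by
    refine iw_mono hN.us ?_ ?_ (C := |(m - 1) * (3 / 2 - m' / (2 * b)) - (3 / 2 - m' / (2 * b)) * m +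
        (m - 1) / (2 * b) * m'| + |3 / 2 - m' / (2 * b)| * d + |-((m - 1) / (2 * b))| * 1 +
        |-(c / (4 * b))| * (d + |m|) ^ 2 + |-(1 / (4 * b * c))| * (1 + |m'|) ^ 2 +
        (d + 1) * (3 / 2 + 1 / (2 * b))) ?_ ?_ ?_
    · exact ((((measurable_const).add (hTm.const_mul _)).add (ham.const_mul _)).add
        (hT2m.const_mul _)).add (ha2m.const_mul _)
    · exact (hTm.sub_const 1).mul ((ham.div_const _).const_sub _)
    · intro X
      refine (abs_add_le _ _).trans ?_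
      have s5 : |(-(1 / (4 * b * c))) * (‖rv X y‖ ^ 2 - m') ^ 2| ≤ |-(1 / (4 * b * c))| * (1 + |m'|) ^ 2 := by
        rw [abs_mul]; exact mul_le_mul_of_nonneg_left (ha2 X) (abs_nonneg _)
      have s4 : |(-(c / (4 * b))) * (tt (oc X) W - m) ^ 2| ≤ |-(c / (4 * b))| * (d + |m|) ^ 2 := by
        rw [abs_mul]; exact mul_le_mul_of_nonneg_left (hT2 X) (abs_nonneg _)
      have s3 : |(-((m - 1) / (2 * b))) * ‖rv X y‖ ^ 2| ≤ |-((m - 1) / (2 * b))| * 1 := by
        rw [abs_mul]; exact mul_le_mul_of_nonneg_left (hab X) (abs_nonneg _)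
      have s2 : |(3 / 2 - m' / (2 * b)) * tt (oc X) W| ≤ |3 / 2 - m' / (2 * b)| * d := by
        rw [abs_mul]; exact mul_le_mul_of_nonneg_left (hTb X) (abs_nonneg _)
      have s6 : 0 ≤ (d + 1) * (3 / 2 + 1 / (2 * b)) := by positivity
      have s7 := abs_add_le (((m - 1) * (3 / 2 - m' / (2 * b)) - (3 / 2 - m' / (2 * b)) * m +
        (m - 1) / (2 * b) * m') + (3 / 2 - m' / (2 * b)) * tt (oc X) W +
        (-((m - 1) / (2 * b))) * ‖rv X y‖ ^ 2) ((-(c / (4 * b))) * (tt (oc X) W - m) ^ 2)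
      have s8 := abs_add_le (((m - 1) * (3 / 2 - m' / (2 * b)) - (3 / 2 - m' / (2 * b)) * m +
        (m - 1) / (2 * b) * m') + (3 / 2 - m' / (2 * b)) * tt (oc X) W)
        ((-((m - 1) / (2 * b))) * ‖rv X y‖ ^ 2)
      have s9 := abs_add_le ((m - 1) * (3 / 2 - m' / (2 * b)) - (3 / 2 - m' / (2 * b)) * m +
        (m - 1) / (2 * b) * m') ((3 / 2 - m' / (2 * b)) * tt (oc X) W)
      linarith
    · intro X
      have t1 : |tt (oc X) W - 1| ≤ d + 1 := (abs_sub _ _).trans (by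
        rw [abs_one]; linarith [hTb X])
      have t2 : |3 / 2 - ‖rv X y‖ ^ 2 / (2 * b)| ≤ 3 / 2 + 1 / (2 * b) := by
        refine (abs_sub _ _).trans ?_
        have u1 : |‖rv X y‖ ^ 2 / (2 * b)| ≤ 1 / (2 * b) := by
          rw [abs_div, abs_of_pos (by positivity : (0 : ℝ) < 2 * b)]
          exact div_le_div_of_nonneg_right (hab X) (by positivity : (0 : ℝ) ≤ 2 * b)
        have u2 : |(3 : ℝ) / 2| = 3 / 2 := abs_of_pos (by norm_num)
        linarith
      rw [abs_mul]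
      have t3 : |tt (oc X) W - 1| * |3 / 2 - ‖rv X y‖ ^ 2 / (2 * b)| ≤ (d + 1) * (3 / 2 + 1 / (2 * b)) :=
        mul_le_mul t1 t2 (abs_nonneg _) (by positivity)
      have t4 : 0 ≤ |(m - 1) * (3 / 2 - m' / (2 * b)) - (3 / 2 - m' / (2 * b)) * m +
        (m - 1) / (2 * b) * m'| + |3 / 2 - m' / (2 * b)| * d + |-((m - 1) / (2 * b))| * 1 +
        |-(c / (4 * b))| * (d + |m|) ^ 2 + |-(1 / (4 * b * c))| * (1 + |m'|) ^ 2 := by positivity
      linarith
    · intro X _ _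
      have h1 : (tt (oc X) W - 1) * (3 / 2 - ‖rv X y‖ ^ 2 / (2 * b)) -
          (((m - 1) * (3 / 2 - m' / (2 * b)) - (3 / 2 - m' / (2 * b)) * m + (m - 1) / (2 * b) * m') +
          (3 / 2 - m' / (2 * b)) * tt (oc X) W + (-((m - 1) / (2 * b))) * ‖rv X y‖ ^ 2 +
          (-(c / (4 * b))) * (tt (oc X) W - m) ^ 2 + (-(1 / (4 * b * c))) * (‖rv X y‖ ^ 2 - m') ^ 2) =
          1 / (4 * b * c) * (c * (tt (oc X) W - m) - (‖rv X y‖ ^ 2 - m')) ^ 2 := by
        field_simp
        ring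
      have h2 : 0 ≤ 1 / (4 * b * c) * (c * (tt (oc X) W - m) - (‖rv X y‖ ^ 2 - m')) ^ 2 := by positivity
      linarith
  rw [hlin, hme, hme'] at hmono
  refine le_trans ?_ hmono
  -- numerical part
  have n1 : (k ^ 2 / d * (1 - δ) - 1) * (1 - δ / 2) ≤ (m - 1) * (3 / 2 - m' / (2 * b)) := by
    have p1 : 1 - δ / 2 ≤ 3 / 2 - m' / (2 * b) := by
      have : m' / (2 * b) ≤ (1 + δ) / 2 := by
        rw [div_le_div_iff₀ (by positivity) (by norm_num)]
        nlinarith [hm'b]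
      linarith
    exact mul_le_mul (by linarith) p1 (by linarith) (by linarith)
  have n2 : c / (4 * b) * iw j ρ (fun X => (tt (oc X) W - m) ^ 2) ≤ 5 / 4 * M ^ 4 * e := by
    have p1 : c / (4 * b) * iw j ρ (fun X => (tt (oc X) W - m) ^ 2) ≤ c / (4 * b) * (j / 4 * e) :=
      mul_le_mul_of_nonneg_left hcv' (by positivity)
    have p2 : c / (4 * b) * (j / 4 * e) = (5 / 4 * M ^ 3 * e) * (1 / b) * (j / d) := by
      rw [hc]; field_simp; ring
    have p3 : (j : ℝ) / d ≤ 1 := by rw [div_le_one hdp]; exact hjd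
    have p4 : (5 / 4 * M ^ 3 * e) * (1 / b) * (j / d) ≤ (5 / 4 * M ^ 3 * e) * M * 1 := by
      have q0 : 0 ≤ 5 / 4 * M ^ 3 * e := by positivity
      have q1 : (5 / 4 * M ^ 3 * e) * (1 / b) ≤ (5 / 4 * M ^ 3 * e) * M := mul_le_mul_of_nonneg_left hinvb q0
      exact mul_le_mul q1 p3 (by positivity) (by positivity)
    calc _ ≤ _ := p1
      _ = _ := p2
      _ ≤ _ := p4
      _ = 5 / 4 * M ^ 4 * e := by ring
  have n3 : 1 / (4 * b * c) * iw j ρ (fun X => (‖rv X y‖ ^ 2 - m') ^ 2) ≤ 15 / 8 * M ^ 4 * e := by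
    have p1 : 1 / (4 * b * c) * iw j ρ (fun X => (‖rv X y‖ ^ 2 - m') ^ 2) ≤
        1 / (4 * b * c) * (150 * M ^ 5 / d * e) :=
      mul_le_mul_of_nonneg_left hvar (by positivity)
    have p2 : 1 / (4 * b * c) * (150 * M ^ 5 / d * e) = (15 / 8 * M ^ 2 * e) * (1 / b) := by
      rw [hc]; field_simp; ring
    have q0 : 0 ≤ 15 / 8 * M ^ 2 * e := by positivity
    have q1 : (15 / 8 * M ^ 2 * e) * (1 / b) ≤ (15 / 8 * M ^ 2 * e) * M := mul_le_mul_of_nonneg_left hinvb q0
    have q2 : (15 / 8 * M ^ 2 * e) * M ≤ 15 / 8 * M ^ 4 * e := by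
      have : M ^ 3 ≤ M ^ 4 := pow_le_pow_right₀ hM (by norm_num)
      nlinarith [mul_le_mul_of_nonneg_right this hj.le]
    linarith
  have n4 : (k ^ 2 / d * (1 - δ) - 1) * (1 - δ / 2) * e ≤ (m - 1) * (3 / 2 - m' / (2 * b)) * e :=
    mul_le_mul_of_nonneg_right n1 hj.le
  have n5 : ((m - 1) * (3 / 2 - m' / (2 * b)) - (3 / 2 - m' / (2 * b)) * m + (m - 1) / (2 * b) * m') * e +
      (3 / 2 - m' / (2 * b)) * (m * e) + -((m - 1) / (2 * b)) * (m' * e) =
      (m - 1) * (3 / 2 - m' / (2 * b)) * e := by ring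
  have n6 : -(c / (4 * b)) * iw j ρ (fun X => (tt (oc X) W - m) ^ 2) =
      -(c / (4 * b) * iw j ρ (fun X => (tt (oc X) W - m) ^ 2)) := by ring
  have n7 : -(1 / (4 * b * c)) * iw j ρ (fun X => (‖rv X y‖ ^ 2 - m') ^ 2) =
      -(1 / (4 * b * c) * iw j ρ (fun X => (‖rv X y‖ ^ 2 - m') ^ 2)) := by ring
  rw [n5, n6, n7]
  linarith

/-- lower bound for a mean over `X` and over the sphere of `W`. -/
private theorem exch {j : ℕ} {ρ : Measure V} (hρ : US ρ) {W : Submodule ℝ V} (hW1 : 1 ≤ Module.finrank ℝ W)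
    {Ψ : (Fin j → V) → V → ℝ} (hΨ : Measurable (Function.uncurry Ψ)) {C : ℝ}
    (hC : ∀ X y, ‖y‖ ≤ 1 → |Ψ X y| ≤ C) {φ : V → ℝ} (hφ : Measurable φ) {C' : ℝ} (hφb : ∀ x, |φ x| ≤ C') {L : ℝ}
    (h : ∀ y, ‖y‖ = 1 → L * φ y ≤ iw j ρ (fun X => Ψ X y)) :
    L * av W φ ≤ iw j ρ (fun X => av W (Ψ X)) := by
  have hprob := hρ.prob
  rw [iw_av hρ W hΨ hC, ← av_mul]
  have hmeasI : Measurable (fun y : V => iw j ρ (fun X => Ψ X y)) := by
    have h1 : Measurable (fun p : V × (Fin j → V) => wv p.2 * Ψ p.2 p.1) :=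
      ((measurable_wv j).comp measurable_snd).mul (hΨ.comp (measurable_snd.prodMk measurable_fst))
    exact (h1.stronglyMeasurable.integral_prod_right').measurable
  have hmp : Measurable (fun g : V => nrm (W.starProjection g)) :=
    measurable_nrm.comp W.starProjection.continuous.measurable
  unfold av
  refine integral_mono_ae ?_ ?_ ?_
  · refine Integrable.of_bound ((hφ.const_mul L).comp hmp).aestronglyMeasurable (|L| * C')
      (Eventually.of_forall fun g => ?_)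
    rw [Real.norm_eq_abs, abs_mul]
    exact mul_le_mul_of_nonneg_left (hφb _) (abs_nonneg _)
  · refine Integrable.of_bound (hmeasI.comp hmp).aestronglyMeasurable C
      (Eventually.of_forall fun g => ?_)
    have h1 : ∀ᵐ X ∂(pp j ρ), ‖wv X * Ψ X (nrm (W.starProjection g))‖ ≤ C := by
      filter_upwards [ae_wv_le hρ j] with X hX
      rw [Real.norm_eq_abs, abs_mul, abs_of_nonneg hX.1]
      refine le_trans (mul_le_mul_of_nonneg_right hX.2 (abs_nonneg _)) ?_
      rw [one_mul]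
      exact hC X _ (norm_nrm_le _)
    have h3 := norm_integral_le_of_norm_le_const h1
    rw [probReal_univ, mul_one] at h3
    exact h3
  · filter_upwards [ae_proj_ne W hW1] with g hg
    refine h _ ?_
    unfold nrm
    rw [norm_smul, norm_inv, norm_norm, inv_mul_cancel₀ (norm_ne_zero_iff.2 hg)]

/-- the numerical part of the estimate. -/
private theorem num_ld {M k d δ e b : ℝ} (hd : 0 < d) (hk : 0 < k) (he : 0 < e) (hM : 1 ≤ M) (hdM : d ≤ M * k)
    (hb : b = k / d) (hd0 : 0 < δ) (hd1 : δ * M ^ 4 ≤ 1 / 10 ^ 16) (hd2 : M ^ 6 / d ≤ δ / 10 ^ 22) :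
    k ^ 2 / d * (1 - 3 * δ) * e ≤
      ((k ^ 2 / d * (1 - δ) - 1) * (1 - δ / 2) * e - 25 / 8 * M ^ 4 * e) - 1 / (2 * b) * e := by
  have hb0 : 0 < b := by rw [hb]; exact div_pos hk hd
  have hM0 : 0 < M := lt_of_lt_of_le one_pos hM
  have hinvb : 1 / b ≤ M := by
    rw [div_le_iff₀ hb0, hb, ← mul_div_assoc, le_div_iff₀ hd]; linarith
  have hδ1 : δ ≤ 1 / 2 := by
    have h1 : δ * 1 ≤ δ * M ^ 4 := mul_le_mul_of_nonneg_left (one_le_pow₀ hM) hd0.le
    linarith [hd1, h1, (by norm_num : (1 : ℝ) / 10 ^ 16 ≤ 1 / 2)]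
  have h3 : d ^ 2 ≤ M ^ 2 * k ^ 2 := by
    have := mul_self_le_mul_self hd.le hdM
    nlinarith [this]
  obtain ⟨q, hq⟩ : ∃ q : ℝ, q = k ^ 2 / d := ⟨_, rfl⟩
  rw [← hq]
  have hq0 : 0 < q := by rw [hq]; positivity
  have h4 : d ≤ M ^ 2 * q := by
    rw [hq, ← mul_div_assoc, le_div_iff₀ hd]
    nlinarith [h3]
  have h5 : 10 ^ 22 * M ^ 4 ≤ q * δ := by
    have h6 : 10 ^ 22 * (M ^ 6 / d) ≤ δ := by linarith
    have h7 : q * (10 ^ 22 * (M ^ 6 / d)) ≤ q * δ := mul_le_mul_of_nonneg_left h6 hq0.le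
    refine le_trans ?_ h7
    have h8 : q * (10 ^ 22 * (M ^ 6 / d)) = (10 ^ 22 * M ^ 4) * (M ^ 2 * q / d) := by ring
    rw [h8]
    have h9 : 1 ≤ M ^ 2 * q / d := by rw [le_div_iff₀ hd]; linarith
    calc 10 ^ 22 * M ^ 4 = (10 ^ 22 * M ^ 4) * 1 := by ring
      _ ≤ _ := mul_le_mul_of_nonneg_left h9 (by positivity)
  have h10 : 1 / (2 * b) ≤ M / 2 := by
    have : 1 / (2 * b) = (1 / b) / 2 := by ring
    rw [this]; linarith
  have h11 : M ≤ M ^ 4 := le_self_pow₀ hM (by norm_num)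
  have h12 : (1 : ℝ) ≤ M ^ 4 := one_le_pow₀ hM
  have h13 : q * (1 - 3 * δ) ≤ (q * (1 - δ) - 1) * (1 - δ / 2) - 25 / 8 * M ^ 4 - 1 / (2 * b) := by
    have h14 : (q * (1 - δ) - 1) * (1 - δ / 2) =
        q * (1 - 3 / 2 * δ) + q * δ ^ 2 / 2 - 1 + δ / 2 := by ring
    rw [h14]
    have h15 : 0 ≤ q * δ ^ 2 / 2 := by positivity
    have h17 : q * (1 - 3 * δ) = q * (1 - 3 / 2 * δ) - 3 / 2 * (q * δ) := by ring
    rw [h17]
    linarith [h5, h10, h11, h12, h15, hd0]
  have h16 := mul_le_mul_of_nonneg_right h13 he.le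
  linarith

theorem ld {j : ℕ} {M : ℝ} (hP : Par (Module.finrank ℝ V) j M) {ρ : Measure V} (hN : Nice j M ρ) (hI : Iso M ρ)
    (hj : 0 < en j ρ) (hI' : Iso M (Nop j ρ)) {W : Submodule ℝ V} (hW : Module.finrank ℝ W + j = Module.finrank ℝ V + 1)
    {φ : V → ℝ} (hφ : Measurable φ) (h0 : ∀ x, 0 ≤ φ x) {C : ℝ} (hC : ∀ x, φ x ≤ C) :
    (1 - 3 * dl (Module.finrank ℝ V) M) * √(((Module.finrank ℝ V : ℝ) - j) / (Module.finrank ℝ V : ℝ)) * av W φ ≤
      ∫ x, ‖W.starProjection x‖ * avo W x φ ∂(Nop j ρ) := by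
  obtain ⟨hd0, hd1, hd2⟩ := dl_small hP
  have hdp : (0 : ℝ) < Module.finrank ℝ V := hP.d_pos
  have hkp : (0 : ℝ) < (Module.finrank ℝ V : ℝ) - j := hP.k_pos
  have hM := hP.one
  have hM0 : 0 < M := lt_of_lt_of_le one_pos hM
  have hdM := hP.hM
  have hA := fun y (hy : ‖y‖ = 1) => A_lower hP hN hI hj hI' hW hy
  have hC0 : 0 ≤ C := (h0 0).trans (hC 0)
  have hφb : ∀ x, |φ x| ≤ C := fun x => by rw [abs_of_nonneg (h0 x)]; exact hC x
  -- the dimension of the complement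
  obtain ⟨kk, hkk⟩ : ∃ kk : ℕ, kk + j = Module.finrank ℝ V := ⟨Module.finrank ℝ V - j, by have := hP.hjd; omega⟩
  have hkkr : (kk : ℝ) = (Module.finrank ℝ V : ℝ) - j := by
    have : (kk : ℝ) + j = Module.finrank ℝ V := by exact_mod_cast hkk
    linarith
  have hWk : Module.finrank ℝ W = kk + 1 := by omega
  have hW1 : 1 ≤ Module.finrank ℝ W := by omega
  have hkM : (10 : ℝ) ^ 20 ≤ (Module.finrank ℝ V : ℝ) - j := by
    have h1 := hP.big
    have h2 : √(Module.finrank ℝ V : ℝ) * √(Module.finrank ℝ V : ℝ) = Module.finrank ℝ V :=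
      Real.mul_self_sqrt hdp.le
    have h3 : (10 : ℝ) ^ 20 * M ≤ 10 ^ 20 * M ^ 10 :=
      mul_le_mul_of_nonneg_left (le_self_pow₀ hM (by norm_num)) (by positivity)
    have h4 : (1 : ℝ) ≤ 10 ^ 20 * M := by
      have : (1 : ℝ) * 1 ≤ 10 ^ 20 * M := mul_le_mul (by norm_num) hM (by norm_num) (by positivity)
      linarith
    have h5 : √(Module.finrank ℝ V : ℝ) ≤ (Module.finrank ℝ V : ℝ) := by
      nlinarith [h2, h1, h3, h4, Real.sqrt_nonneg (Module.finrank ℝ V : ℝ)]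
    have h6 : (10 : ℝ) ^ 20 * M ≤ M * ((Module.finrank ℝ V : ℝ) - j) := by linarith
    have h7 : M * ((10 : ℝ) ^ 20) ≤ M * ((Module.finrank ℝ V : ℝ) - j) := by linarith
    exact le_of_mul_le_mul_left h7 hM0
  have hkk2 : 2 ≤ kk := by
    have h1 : ((2 : ℕ) : ℝ) ≤ (kk : ℝ) := by
      rw [hkkr]; push_cast
      exact le_trans (by norm_num) hkM
    exact_mod_cast h1
  -- the function
  have hfm : Measurable (fun x : V => ‖W.starProjection x‖ * avo W x φ) := by
    refine (W.starProjection.continuous.measurable.norm).mul ?_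
    exact meas_avo' W measurable_id (Φ := fun _ => φ) (hφ.comp measurable_snd)
  have havo : ∀ x, 0 ≤ avo W x φ ∧ avo W x φ ≤ C := fun x => by
    rw [avo_eq]
    exact ⟨av_nonneg _ h0, av_le _ h0 hC⟩
  have hfb : ∀ x : V, ‖x‖ ≤ 1 → |‖W.starProjection x‖ * avo W x φ| ≤ C := fun x hx => by
    have h1 : ‖W.starProjection x‖ ≤ 1 := (Submodule.norm_starProjection_apply_le _ _).trans hx
    rw [abs_of_nonneg (mul_nonneg (norm_nonneg _) (havo x).1)]
    calc ‖W.starProjection x‖ * avo W x φ ≤ 1 * C :=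
          mul_le_mul h1 (havo x).2 (havo x).1 zero_le_one
      _ = C := one_mul C
  have hnop := nop_int hN.us hj hfm hfb
  set d : ℝ := (Module.finrank ℝ V : ℝ) with hd
  set δ : ℝ := dl (Module.finrank ℝ V) M with hδ
  set e : ℝ := en j ρ with he
  set k : ℝ := d - j with hk
  set b : ℝ := k / d with hb
  have hb0 : 0 < b := div_pos hkp hdp
  have hsb : 0 < √b := Real.sqrt_pos.2 hb0
  have hsb2 : √b * √b = b := Real.mul_self_sqrt hb0.le
  have havW : 0 ≤ av W φ := av_nonneg _ h0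
  set K : ℝ := 1 / (2 * b * √b) * av W φ with hK
  have hK0 : 0 ≤ K := by rw [hK]; positivity
  set L : ℝ := (k ^ 2 / d * (1 - δ) - 1) * (1 - δ / 2) * e - 25 / 8 * M ^ 4 * e with hL
  -- the random functions
  have hΨm : Measurable (Function.uncurry fun (X : Fin j → V) (y : V) =>
      (tt (oc X) W - 1) * ((3 / 2 - ‖rv X y‖ ^ 2 / (2 * b)) / √b * φ y)) := by
    have h1 : Measurable (fun p : (Fin j → V) × V => tt (oc p.1) W) := (meas_T W).comp measurable_fst
    have h2 : Measurable (fun p : (Fin j → V) × V => ‖rv p.1 p.2‖ ^ 2) := (meas_rv.norm).pow_const 2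
    exact (h1.sub_const 1).mul ((((h2.div_const _).const_sub _).div_const _).mul (hφ.comp measurable_snd))
  have hΨb : ∀ (X : Fin j → V) (y : V), ‖y‖ ≤ 1 →
      |(tt (oc X) W - 1) * ((3 / 2 - ‖rv X y‖ ^ 2 / (2 * b)) / √b * φ y)| ≤
        (d + 1) * ((3 / 2 + 1 / (2 * b)) / √b * C) := fun X y hy => by
    have t1 : |tt (oc X) W - 1| ≤ d + 1 := (abs_sub _ _).trans (by
      rw [abs_one, abs_of_nonneg (T_bd W X).1]; linarith [(T_bd W X).2])
    have t0 : |‖rv X y‖ ^ 2| ≤ 1 := by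
      rw [abs_of_nonneg (by positivity)]
      exact pow_le_one₀ (norm_nonneg _) ((rv_norm_le X y).trans hy)
    have t2 : |3 / 2 - ‖rv X y‖ ^ 2 / (2 * b)| ≤ 3 / 2 + 1 / (2 * b) := by
      refine (abs_sub _ _).trans ?_
      have u1 : |‖rv X y‖ ^ 2 / (2 * b)| ≤ 1 / (2 * b) := by
        rw [abs_div, abs_of_pos (by positivity : (0 : ℝ) < 2 * b)]
        exact div_le_div_of_nonneg_right t0 (by positivity : (0 : ℝ) ≤ 2 * b)
      have u2 : |(3 : ℝ) / 2| = 3 / 2 := abs_of_pos (by norm_num)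
      linarith
    have t3 : |(3 / 2 - ‖rv X y‖ ^ 2 / (2 * b)) / √b * φ y| ≤ (3 / 2 + 1 / (2 * b)) / √b * C := by
      rw [abs_mul, abs_div, abs_of_pos hsb]
      refine mul_le_mul ?_ (hφb y) (abs_nonneg _) (by positivity)
      exact div_le_div_of_nonneg_right t2 hsb.le
    rw [abs_mul]
    exact mul_le_mul t1 t3 (abs_nonneg _) (by positivity)
  -- first step: from below by the mean over the sphere of W
  have step1 : iw j ρ (fun X => av W (fun y => (tt (oc X) W - 1) *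
      ((3 / 2 - ‖rv X y‖ ^ 2 / (2 * b)) / √b * φ y)) + (-K)) ≤
      iw j ρ (fun X => k * av (oc X) (fun x => ‖W.starProjection x‖ * avo W x φ)) := by
    have hm1 : Measurable (fun X : Fin j → V => av W (fun y => (tt (oc X) W - 1) *
      ((3 / 2 - ‖rv X y‖ ^ 2 / (2 * b)) / √b * φ y))) := meas_av' W hΨm
    have hm2 : Measurable (fun X : Fin j → V => av (oc X) (fun x => ‖W.starProjection x‖ * avo W x φ)) :=
      meas_av measurable_id (Φ := fun _ x => ‖W.starProjection x‖ * avo W x φ) (hfm.comp measurable_snd)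
    refine iw_mono hN.us (hm1.add_const _) (hm2.const_mul _)
      (C := (d + 1) * ((3 / 2 + 1 / (2 * b)) / √b * C) + K + k * C) ?_ ?_ ?_
    · intro X
      have h1 := abs_av_le W (hΨb X)
      have h2 : |(-K)| = K := by rw [abs_neg, abs_of_nonneg hK0]
      have h3 : 0 ≤ k * C := by positivity
      refine (abs_add_le _ _).trans ?_
      linarith
    · intro X
      have h1 := abs_av_le (oc X) hfb
      rw [abs_mul, abs_of_pos hkp]
      have h2 := mul_le_mul_of_nonneg_left h1 hkp.le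
      have h3 : 0 ≤ (d + 1) * ((3 / 2 + 1 / (2 * b)) / √b * C) := by positivity
      linarith
    · intro X hX _
      have hE : Module.finrank ℝ (oc X) = kk := by
        have := finrank_oc hX
        omega
      have h1 := coi_lower (oc X) W hE hWk hkk2 hφ h0 hC hb0
      rw [hkkr] at h1
      have h2 : av W (fun y => (tt (oc X) W - 1) * ((3 / 2 - ‖rv X y‖ ^ 2 / (2 * b)) / √b * φ y)) =
          (tt (oc X) W - 1) * av W (fun y => (3 / 2 - ‖(oc X).starProjection y‖ ^ 2 / (2 * b)) / √b * φ y) := by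
        rw [← av_mul]
        refine congrArg (av W) ?_
        funext y
        rw [rv_eq]
      have h3 : (if tt (oc X) W ≤ 1 then (1 : ℝ) else 0) * (1 / (2 * b * √b)) * av W φ ≤ K := by
        rw [hK, mul_assoc]
        have h4 : (if tt (oc X) W ≤ 1 then (1 : ℝ) else 0) ≤ 1 := by split_ifs <;> norm_num
        calc (if tt (oc X) W ≤ 1 then (1 : ℝ) else 0) * (1 / (2 * b * √b) * av W φ) ≤
              1 * (1 / (2 * b * √b) * av W φ) := mul_le_mul_of_nonneg_right h4 (by positivity)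
          _ = _ := one_mul _
      rw [h2]
      linarith
  -- second step: exchange
  have step2 : iw j ρ (fun X => av W (fun y => (tt (oc X) W - 1) *
      ((3 / 2 - ‖rv X y‖ ^ 2 / (2 * b)) / √b * φ y)) + (-K)) =
      iw j ρ (fun X => av W (fun y => (tt (oc X) W - 1) *
      ((3 / 2 - ‖rv X y‖ ^ 2 / (2 * b)) / √b * φ y))) - K * e := by
    have hm1 : Measurable (fun X : Fin j → V => av W (fun y => (tt (oc X) W - 1) *
      ((3 / 2 - ‖rv X y‖ ^ 2 / (2 * b)) / √b * φ y))) := meas_av' W hΨm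
    have h1 := iw_add hN.us hm1 (measurable_const (a := -K))
      (C := (d + 1) * ((3 / 2 + 1 / (2 * b)) / √b * C) + K) (fun X => by
        have := abs_av_le W (hΨb X)
        linarith) (fun X => by
        rw [abs_neg, abs_of_nonneg hK0]
        have : 0 ≤ (d + 1) * ((3 / 2 + 1 / (2 * b)) / √b * C) := by positivity
        linarith)
    rw [h1, iw_const]
    ring
  -- third step: lower bound
  have step3 : L / √b * av W φ ≤ iw j ρ (fun X => av W (fun y => (tt (oc X) W - 1) *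
      ((3 / 2 - ‖rv X y‖ ^ 2 / (2 * b)) / √b * φ y))) := by
    refine exch hN.us hW1 hΨm hΨb hφ hφb fun y hy => ?_
    have hpoint : iw j ρ (fun X => (tt (oc X) W - 1) * ((3 / 2 - ‖rv X y‖ ^ 2 / (2 * b)) / √b * φ y)) =
        φ y / √b * iw j ρ (fun X => (tt (oc X) W - 1) * (3 / 2 - ‖rv X y‖ ^ 2 / (2 * b))) := by
      rw [← iw_mul]
      refine congrArg (iw j ρ) ?_
      funext X
      ring
    rw [hpoint]
    have h2 : L / √b * φ y = φ y / √b * L := by ring
    rw [h2]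
    exact mul_le_mul_of_nonneg_left (hA y hy) (div_nonneg (h0 _) hsb.le)
  have hnum : k ^ 2 / d * (1 - 3 * δ) * e ≤ L - 1 / (2 * b) * e :=
    num_ld hdp hkp hj hM hdM hb hd0 hd1 hd2
  have hfin : k ^ 2 / d * (1 - 3 * δ) * e / √b * av W φ ≤
      k * (e * ∫ x, ‖W.starProjection x‖ * avo W x φ ∂(Nop j ρ)) := by
    have h1 : iw j ρ (fun X => k * av (oc X) (fun x => ‖W.starProjection x‖ * avo W x φ)) =
        k * (e * ∫ x, ‖W.starProjection x‖ * avo W x φ ∂(Nop j ρ)) := by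
      rw [iw_mul, hnop]
    rw [← h1]
    refine le_trans ?_ step1
    rw [step2]
    refine le_trans ?_ (sub_le_sub_right step3 _)
    have h2 : L / √b * av W φ - K * e = (L - 1 / (2 * b) * e) / √b * av W φ := by
      rw [hK]
      ring
    rw [h2]
    refine mul_le_mul_of_nonneg_right ?_ havW
    exact div_le_div_of_nonneg_right hnum hsb.le
  have hke : 0 < k * e := mul_pos hkp hj
  have h1 : k ^ 2 / d * (1 - 3 * δ) * e / √b * av W φ = k * e * ((1 - 3 * δ) * √b * av W φ) := by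
    have h2 : k ^ 2 / d = k * b := by rw [hb]; ring
    have h3 : b / √b = √b := by rw [div_eq_iff hsb.ne']; exact hsb2.symm
    calc k ^ 2 / d * (1 - 3 * δ) * e / √b * av W φ = k * (1 - 3 * δ) * e * (b / √b) * av W φ := by
          rw [h2]; ring
      _ = _ := by rw [h3]; ring
  rw [h1, ← mul_assoc k e] at hfin
  exact le_of_mul_le_mul_left hfin hke

theorem ld_next {n : ℕ} {M : ℝ} (hP : Par (Module.finrank ℝ V) (n + 1) M) {ρ : Measure V} (hN : Nice (n + 1) M ρ)
    (hI : Iso M ρ) (hj : 0 < en (n + 1) ρ) (hI' : Iso M (Nop (n + 1) ρ)) (hj' : 0 < en (n + 1) (Nop (n + 1) ρ))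
    {φ : V → ℝ} (hφ : Measurable φ) (h0 : ∀ x, 0 ≤ φ x) {C : ℝ} (hC : ∀ x, φ x ≤ C) :
    (1 - 3 * dl (Module.finrank ℝ V) M) * √(((Module.finrank ℝ V : ℝ) - (n + 1 : ℕ)) / (Module.finrank ℝ V : ℝ)) *
        iw n (Nop (n + 1) ρ) (fun X => av (oc X) φ) ≤
      en (n + 1) (Nop (n + 1) ρ) * ∫ x, φ x ∂(Nop (n + 1) (Nop (n + 1) ρ)) := by
  have hUS : US (Nop (n + 1) ρ) := nop_us hN.us hj hP.hjd
  have hφb : ∀ x, |φ x| ≤ C := fun x => by rw [abs_of_nonneg (h0 x)]; exact hC x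
  have hC0 : 0 ≤ C := (h0 0).trans (hC 0)
  have hprob := hUS.prob
  rw [nop_loo hUS hj' hφ hφb, ← iw_mul]
  have hav : Measurable (fun X : Fin n → V => av (oc X) φ) :=
    meas_av measurable_id (Φ := fun _ => φ) (hφ.comp measurable_snd)
  have hm : Measurable (fun p : (Fin n → V) × V => ‖rv p.1 p.2‖ * avo (oc p.1) p.2 φ) := by
    refine (meas_rv.norm).mul ?_
    exact meas_avo (β := (Fin n → V) × V) measurable_fst measurable_snd (Φ := fun _ => φ)
      (hφ.comp measurable_snd)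
  have havo : ∀ (X : Fin n → V) (x : V), 0 ≤ avo (oc X) x φ ∧ avo (oc X) x φ ≤ C := fun X x => by
    rw [avo_eq]
    exact ⟨av_nonneg _ h0, av_le _ h0 hC⟩
  refine iw_mono hUS (hav.const_mul _) ?_
    (C := |(1 - 3 * dl (Module.finrank ℝ V) M) *
      √(((Module.finrank ℝ V : ℝ) - (n + 1 : ℕ)) / (Module.finrank ℝ V : ℝ))| * C + C) ?_ ?_ ?_
  · exact (hm.stronglyMeasurable.integral_prod_right').measurable
  · intro X
    rw [abs_mul]
    have h1 := abs_av_le (oc X) (fun x _ => hφb x)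
    have h2 := mul_le_mul_of_nonneg_left h1 (abs_nonneg ((1 - 3 * dl (Module.finrank ℝ V) M) *
      √(((Module.finrank ℝ V : ℝ) - (n + 1 : ℕ)) / (Module.finrank ℝ V : ℝ))))
    linarith
  · intro X
    have h1 : ∀ᵐ x ∂(Nop (n + 1) ρ), ‖‖rv X x‖ * avo (oc X) x φ‖ ≤ C := by
      filter_upwards [hUS.unit] with x hx
      rw [Real.norm_eq_abs, abs_of_nonneg (mul_nonneg (norm_nonneg _) (havo X x).1)]
      have h2 := rv_norm_le X x
      rw [hx] at h2
      calc ‖rv X x‖ * avo (oc X) x φ ≤ 1 * C := mul_le_mul h2 (havo X x).2 (havo X x).1 zero_le_one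
        _ = C := one_mul C
    have h3 := norm_integral_le_of_norm_le_const h1
    rw [probReal_univ, mul_one, Real.norm_eq_abs] at h3
    have h4 : 0 ≤ |(1 - 3 * dl (Module.finrank ℝ V) M) *
      √(((Module.finrank ℝ V : ℝ) - (n + 1 : ℕ)) / (Module.finrank ℝ V : ℝ))| * C := by positivity
    linarith
  · intro X hX _
    have hfr := finrank_oc hX
    have hW : Module.finrank ℝ (oc X) + (n + 1) = Module.finrank ℝ V + 1 := by omega
    have h1 := ld hP hN hI hj hI' hW hφ h0 hC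
    have h2 : (∫ x, ‖rv X x‖ * avo (oc X) x φ ∂(Nop (n + 1) ρ)) =
        ∫ x, ‖(oc X).starProjection x‖ * avo (oc X) x φ ∂(Nop (n + 1) ρ) := by
      refine integral_congr_ae (Eventually.of_forall fun x => ?_)
      change ‖rv X x‖ * avo (oc X) x φ = ‖(oc X).starProjection x‖ * avo (oc X) x φ
      rw [rv_eq]
    rw [h2]
    exact h1

end Pool.Agent.PBL
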