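import Pool.Agent.PBL.F3
import Pool.Agent.PBL.C2

/-! Module PBL-F6 (typical positions): for `X` of length `n` with the density `wv X`, the trace `tt E (oc X)` is near its mean with large
probability (mean value by `mean_pt` over an orthonormal basis of `E`, concentration by `conc_tail`), and then a uniform unit vector of
`oc X ∩ u^⊥` has a projection to `E` of the expected size with large probability (`av_tail`). -/

set_option autoImplicit false

namespace Pool.Agent.PBL
open MeasureTheory ProbabilityTheory Set Filter Topology Metric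
open Pool.Agent.HP89 Pool.Agent.FI75
open scoped RealInnerProductSpace ENNReal

variable {V : Type*} [NormedAddCommGroup V] [InnerProductSpace ℝ V] [FiniteDimensional ℝ V]
  [MeasurableSpace V] [BorelSpace V]

/-- the pair is typical. -/
def GP (n : ℕ) (M : ℝ) (E : Submodule ℝ V) : Set (Fin n → V) :=
  {X | |tt E (oc X) - ((Module.finrank ℝ V : ℝ) - (n + 1 : ℕ)) ^ 2 / (Module.finrank ℝ V : ℝ)| ≤
    ((Module.finrank ℝ V : ℝ) - (n + 1 : ℕ)) ^ 2 / (Module.finrank ℝ V : ℝ) / (50 * M ^ 2)}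

private theorem en_n_pos {n : ℕ} {M : ℝ} (hP : Par (Module.finrank ℝ V) (n + 1) M) {ρ : Measure V}
    (hN : Nice (n + 1) M ρ) (hI : Iso M ρ) (hj : 0 < en (n + 1) ρ) : 0 < en n ρ := by
  by_contra h
  push Not at h
  have h1 := (en_ratio hP hN hI).2
  have h2 := (dl_small hP).1
  have h3 : (1 + 2 * dl (Module.finrank ℝ V) M) *
        √(((Module.finrank ℝ V : ℝ) - (n + 1 : ℕ)) / (Module.finrank ℝ V : ℝ)) * en n ρ ≤ 0 :=
    mul_nonpos_of_nonneg_of_nonpos (by positivity) h
  linarith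

private theorem meas_gp (n : ℕ) (M : ℝ) (E : Submodule ℝ V) : MeasurableSet (GP n M E) := by
  unfold GP
  exact measurableSet_le (continuous_abs.measurable.comp ((meas_tt E).sub_const _)) measurable_const

private theorem ind_le_one {α : Type*} (S : Set α) (x : α) : |S.indicator (fun _ => (1 : ℝ)) x| ≤ 1 := by
  by_cases h : x ∈ S
  · rw [Set.indicator_of_mem h]; simp
  · rw [Set.indicator_of_notMem h]; simp

private theorem nums {d j : ℕ} {M : ℝ} (h : Par d j M) : 10 ^ 40 * M ^ 20 ≤ (d : ℝ) := by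
  have h1 := h.one
  have h2 : (10 ^ 20 * M ^ 10) ^ 2 ≤ √(d : ℝ) ^ 2 :=
    pow_le_pow_left₀ (by positivity) h.big 2
  rw [Real.sq_sqrt (Nat.cast_nonneg d)] at h2
  calc 10 ^ 40 * M ^ 20 = (10 ^ 20 * M ^ 10) ^ 2 := by ring
    _ ≤ _ := h2

private theorem iw_sum {ρ : Measure V} (hρ : US ρ) {n : ℕ} {ι : Type*} (s : Finset ι) {Φ : ι → (Fin n → V) → ℝ}
    (hΦ : ∀ i, Measurable (Φ i)) {C : ℝ} (hC : ∀ i X, |Φ i X| ≤ C) :
    iw n ρ (fun X => ∑ i ∈ s, Φ i X) = ∑ i ∈ s, iw n ρ (Φ i) := by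
  classical
  induction s using Finset.induction_on with
  | empty =>
    simp only [Finset.sum_empty]
    rw [iw_const, zero_mul]
  | insert a s ha ih =>
    have hC0 : 0 ≤ C := (abs_nonneg _).trans (hC a 0)
    rw [Finset.sum_insert ha, ← ih]
    have h1 : ∀ X, |∑ i ∈ s, Φ i X| ≤ s.card * C := by
      intro X
      refine (Finset.abs_sum_le_sum_abs _ _).trans ((Finset.sum_le_sum fun i _ => hC i X).trans ?_)
      rw [Finset.sum_const, nsmul_eq_mul]
    rw [← iw_add hρ (hΦ a) (Finset.measurable_fun_sum s fun i _ => hΦ i) (C := C + s.card * C)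
      (fun X => (hC a X).trans (by nlinarith [Nat.cast_nonneg (α := ℝ) s.card]))
      (fun X => (h1 X).trans (by linarith))]
    congr 1
    funext X
    rw [Finset.sum_insert ha]

private theorem mean_tt {n : ℕ} {M : ℝ} (hP : Par (Module.finrank ℝ V) (n + 1) M) {ρ : Measure V} (hN : Nice (n + 1) M ρ)
    (hI : Iso M ρ) (hj : 0 < en (n + 1) ρ) (hI' : Iso M (Nop (n + 1) ρ)) {E : Submodule ℝ V}
    (hE : Module.finrank ℝ E + (n + 1) = Module.finrank ℝ V) :
    |iw n ρ (fun X => tt E (oc X)) -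
        ((Module.finrank ℝ V : ℝ) - (n + 1 : ℕ)) ^ 2 / (Module.finrank ℝ V : ℝ) * en n ρ| ≤
      6 * dl (Module.finrank ℝ V) M * (((Module.finrank ℝ V : ℝ) - (n + 1 : ℕ)) ^ 2 / (Module.finrank ℝ V : ℝ)) *
        en n ρ := by
  have hk : ((Module.finrank ℝ V : ℝ) - (n + 1 : ℕ)) = Module.finrank ℝ E := by
    rw [← hE]; push_cast; ring
  have hd := hP.d_pos
  let b := stdOrthonormalBasis ℝ E
  have hb : ∀ i, ‖((b i : E) : V)‖ = 1 := fun i => b.orthonormal.1 i
  have h1 : iw n ρ (fun X => tt E (oc X)) = ∑ i, iw n ρ (fun X => ‖rv X ((b i : E) : V)‖ ^ 2) := by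
    rw [← iw_sum hN.us Finset.univ (Φ := fun i X => ‖rv X ((b i : E) : V)‖ ^ 2) (C := 1)]
    · congr 1
      funext X
      rw [tt_sum E (oc X) b]
      refine Finset.sum_congr rfl fun i _ => ?_
      rw [rv_eq]
    · intro i
      exact (meas_rv.comp (measurable_id.prodMk measurable_const)).norm.pow_const 2
    · intro i X
      rw [abs_of_nonneg (by positivity), rv_eq]
      have h := ((oc X).norm_starProjection_apply_le ((b i : E) : V)).trans (hb i).le
      calc _ ≤ (1 : ℝ) ^ 2 := pow_le_pow_left₀ (norm_nonneg _) h 2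
        _ = 1 := one_pow 2
  rw [h1]
  set q : ℝ := ((Module.finrank ℝ V : ℝ) - (n + 1 : ℕ)) / (Module.finrank ℝ V : ℝ) with hq
  have h2 : ((Module.finrank ℝ V : ℝ) - (n + 1 : ℕ)) ^ 2 / (Module.finrank ℝ V : ℝ) * en n ρ =
      ∑ _i : Fin (Module.finrank ℝ E), q * en n ρ := by
    rw [Finset.sum_const, Finset.card_univ, Fintype.card_fin, nsmul_eq_mul, ← hk, hq]
    ring
  rw [h2, ← Finset.sum_sub_distrib]
  refine (Finset.abs_sum_le_sum_abs _ _).trans ((Finset.sum_le_sum fun i _ =>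
    mean_pt hP hN hI hj hI' (hb i)).trans (le_of_eq ?_))
  rw [Finset.sum_const, Finset.card_univ, Fintype.card_fin, nsmul_eq_mul, ← hk]
  ring

theorem good_pair {n : ℕ} {M : ℝ} (hP : Par (Module.finrank ℝ V) (n + 1) M) {ρ : Measure V} (hN : Nice (n + 1) M ρ)
    (hI : Iso M ρ) (hj : 0 < en (n + 1) ρ) (hI' : Iso M (Nop (n + 1) ρ)) {E : Submodule ℝ V}
    (hE : Module.finrank ℝ E + (n + 1) = Module.finrank ℝ V) :
    iw n ρ ((GP n M E)ᶜ.indicator (fun _ => 1)) ≤ pz (Module.finrank ℝ V) * en n ρ := by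
  have hm := mean_tt hP hN hI hj hI' hE
  have hen := en_n_pos hP hN hI hj
  have hM := hP.one
  have hd := hP.d_pos
  have hk := hP.k_pos
  have hkM := hP.hM
  obtain ⟨hd0, hd4, -⟩ := dl_small hP
  have hpz : 0 ≤ pz (Module.finrank ℝ V) := by unfold pz; positivity
  set k : ℝ := (Module.finrank ℝ V : ℝ) - (n + 1 : ℕ) with hkdef
  set c : ℝ := k ^ 2 / (Module.finrank ℝ V : ℝ) with hc
  have hc0 : 0 < c := by positivity
  set ν : Measure V := (stdGaussian V).map (fun g => E.starProjection g) with hν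
  have hmW : |mW n ρ ν - c| ≤ 6 * dl (Module.finrank ℝ V) M * c := by
    have h1 : mW n ρ ν - c = (en n ρ)⁻¹ * (iw n ρ (fun X => tt E (oc X)) - c * en n ρ) := by
      unfold mW
      simp_rw [hν, sW_proj]
      field_simp
    rw [h1, abs_mul, abs_of_pos (inv_pos.2 hen)]
    calc (en n ρ)⁻¹ * |iw n ρ (fun X => tt E (oc X)) - c * en n ρ|
        ≤ (en n ρ)⁻¹ * (6 * dl (Module.finrank ℝ V) M * c * en n ρ) :=
          mul_le_mul_of_nonneg_left hm (inv_pos.2 hen).le
      _ = _ := by field_simp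
  have ht : (Module.finrank ℝ V : ℝ) ≤ 200 * M ^ 4 * (c / (100 * M ^ 2)) := by
    have h1 : 200 * M ^ 4 * (c / (100 * M ^ 2)) = 2 * (M * k) ^ 2 / (Module.finrank ℝ V : ℝ) := by
      rw [hc]
      field_simp
      ring
    rw [h1, le_div_iff₀ hd]
    nlinarith
  have hct := conc_tail hN.us (sub1_proj E) hen (c / (100 * M ^ 2))
  have hn1 := num1 hP ht
  have h6 : 6 * dl (Module.finrank ℝ V) M ≤ 1 / (100 * M ^ 2) := by
    rw [le_div_iff₀ (by positivity)]
    have : dl (Module.finrank ℝ V) M * M ^ 2 ≤ dl (Module.finrank ℝ V) M * M ^ 4 :=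
      mul_le_mul_of_nonneg_left (pow_le_pow_right₀ hM (by norm_num)) hd0.le
    nlinarith
  have hmono : iw n ρ ((GP n M E)ᶜ.indicator (fun _ => 1)) ≤
      iw n ρ ({X : Fin n → V | c / (100 * M ^ 2) ≤ |sW ν (oc X) - mW n ρ ν|}.indicator (fun _ => 1)) := by
    have hms : MeasurableSet {X : Fin n → V | c / (100 * M ^ 2) ≤ |sW ν (oc X) - mW n ρ ν|} := by
      simp_rw [hν, sW_proj]
      exact measurableSet_le measurable_const (continuous_abs.measurable.comp ((meas_tt E).sub_const _))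
    refine iw_mono hN.us (measurable_const.indicator (meas_gp n M E).compl) (measurable_const.indicator hms)
      (fun X => ind_le_one _ X) (fun X => ind_le_one _ X) fun X _ _ => ?_
    by_cases hX : X ∈ (GP n M E)ᶜ
    · have h1 : c / (50 * M ^ 2) < |tt E (oc X) - c| := by
        have : ¬ (|tt E (oc X) - c| ≤ c / (50 * M ^ 2)) := hX
        exact not_le.1 this
      have h2 : X ∈ {X : Fin n → V | c / (100 * M ^ 2) ≤ |sW ν (oc X) - mW n ρ ν|} := by
        change c / (100 * M ^ 2) ≤ |sW ν (oc X) - mW n ρ ν|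
        rw [hν, sW_proj, ← hν]
        have h3 := abs_sub_abs_le_abs_sub (tt E (oc X) - c) (mW n ρ ν - c)
        have h4 : tt E (oc X) - c - (mW n ρ ν - c) = tt E (oc X) - mW n ρ ν := by ring
        rw [h4] at h3
        have h5 : 6 * dl (Module.finrank ℝ V) M * c ≤ c / (100 * M ^ 2) := by
          calc 6 * dl (Module.finrank ℝ V) M * c ≤ 1 / (100 * M ^ 2) * c :=
                mul_le_mul_of_nonneg_right h6 hc0.le
            _ = _ := by ring
        have h7 : c / (50 * M ^ 2) = 2 * (c / (100 * M ^ 2)) := by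
          field_simp
          ring
        linarith
      rw [Set.indicator_of_mem hX, Set.indicator_of_mem h2]
    · rw [Set.indicator_of_notMem hX]
      exact Set.indicator_nonneg (fun _ _ => zero_le_one) _
  calc iw n ρ ((GP n M E)ᶜ.indicator (fun _ => 1))
      ≤ 6 * Real.exp (-(c / (100 * M ^ 2)) / √(2 * (Module.finrank ℝ V : ℝ))) * en n ρ := hmono.trans hct
    _ ≤ pz (Module.finrank ℝ V) / 8 * en n ρ := mul_le_mul_of_nonneg_right hn1 hen.le
    _ ≤ _ := mul_le_mul_of_nonneg_right (by linarith) hen.le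

private theorem num_dir {d k r T M : ℝ} (hM : 1 ≤ M) (hd : 10 ^ 40 * M ^ 20 ≤ d) (hk : 0 < k) (hkM : d ≤ M * k)
    (hkd : k ≤ d) (hr : k ≤ r) (hr1 : r ≤ k + 1) (hT : k ^ 2 / d - k ^ 2 / d / (50 * M ^ 2) ≤ T) :
    (1 - 1 / (30 * M ^ 2)) * (k / d) ≤ (T - 1) / r - 1 / (200 * M ^ 3) := by
  have hM20 : (1 : ℝ) ≤ M ^ 20 := one_le_pow₀ hM
  have hd0 : 0 < d := by linarith
  have hM0 : 0 < M := by linarith
  have hr0 : 0 < r := by linarith
  set b : ℝ := k / d with hb
  have hb1 : b ≤ 1 := (div_le_one hd0).2 hkd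
  have hbM : 1 ≤ M * b := by
    rw [hb, ← mul_div_assoc, le_div_iff₀ hd0]; linarith
  have hb0 : 0 < b := by positivity
  have hk1 : k ^ 2 / d = k * b := by rw [hb]; ring
  rw [hk1] at hT
  -- `k ≥ 10^40 M^19`
  have hkbig : 10 ^ 40 * M ^ 3 ≤ k := by
    have h1 : 10 ^ 40 * M ^ 20 ≤ M * k := hd.trans hkM
    have h2 : 10 ^ 40 * M ^ 19 ≤ k := by
      have : M * (10 ^ 40 * M ^ 19) ≤ M * k := by
        calc M * (10 ^ 40 * M ^ 19) = 10 ^ 40 * M ^ 20 := by ring
          _ ≤ _ := h1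
      exact le_of_mul_le_mul_left this hM0
    have h3 : M ^ 3 ≤ M ^ 19 := pow_le_pow_right₀ hM (by norm_num)
    linarith
  have hM3 : (1 : ℝ) ≤ M ^ 3 := one_le_pow₀ hM
  have hk2 : (1 : ℝ) < k := by linarith
  set s : ℝ := 1 / (50 * M ^ 2) with hs
  have hs0 : 0 < s := by positivity
  have hs1 : s ≤ 1 / 50 := by
    rw [hs]
    apply one_div_le_one_div_of_le (by norm_num)
    have : (1 : ℝ) ≤ M ^ 2 := one_le_pow₀ hM
    linarith
  have hTs : k * b * (1 - s) ≤ T := by
    calc k * b * (1 - s) = k * b - k * b / (50 * M ^ 2) := by rw [hs]; ring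
      _ ≤ T := hT
  -- numerator nonneg
  have hkb : M ^ 2 * 10 ^ 40 ≤ k * b := by
    have h1 : k ≤ k * (M * b) := le_mul_of_one_le_right hk.le hbM
    have h2 : 10 ^ 40 * M ^ 3 ≤ M * (k * b) := by linarith [h1, hkbig]
    have h3 : M * (M ^ 2 * 10 ^ 40) ≤ M * (k * b) := by
      calc M * (M ^ 2 * 10 ^ 40) = 10 ^ 40 * M ^ 3 := by ring
        _ ≤ _ := h2
    exact le_of_mul_le_mul_left h3 hM0
  have hM2 : (1 : ℝ) ≤ M ^ 2 := one_le_pow₀ hM
  have hnum : 0 ≤ k * b * (1 - s) - 1 := by nlinarith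
  -- goal
  have h1 : (k * b * (1 - s) - 1) / (k + 1) ≤ (T - 1) / r := by
    calc (k * b * (1 - s) - 1) / (k + 1) ≤ (k * b * (1 - s) - 1) / r :=
          div_le_div_of_nonneg_left hnum hr0 hr1
      _ ≤ (T - 1) / r := div_le_div_of_nonneg_right (by linarith) hr0.le
  refine le_trans ?_ (sub_le_sub_right h1 _)
  rw [le_sub_iff_add_le, le_div_iff₀ (by linarith)]
  have h30 : (1 - 1 / (30 * M ^ 2)) = 1 - 5 / 3 * s := by rw [hs]; field_simp; ring
  have h200 : 1 / (200 * M ^ 3) ≤ 1 / 4 * s * b := by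
    rw [hs]
    rw [div_le_iff₀ (by positivity)]
    have : 1 / 4 * (1 / (50 * M ^ 2)) * b * (200 * M ^ 3) = M * b := by field_simp; ring
    rw [this]
    exact hbM
  rw [h30]
  -- ((1 - 5/3 s) b + t)(k+1) ≤ k b (1 - s) - 1, with t ≤ s b / 4
  have hsk : 1000 ≤ k * b * s := by
    have : M ^ 2 * 10 ^ 40 * s ≤ k * b * s := mul_le_mul_of_nonneg_right hkb hs0.le
    have h2 : M ^ 2 * 10 ^ 40 * s = 10 ^ 40 / 50 := by rw [hs]; field_simp
    rw [h2] at this
    norm_num at this ⊢
    linarith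
  calc ((1 - 5 / 3 * s) * b + 1 / (200 * M ^ 3)) * (k + 1)
      ≤ ((1 - 5 / 3 * s) * b + 1 / 4 * s * b) * (k + 1) :=
        mul_le_mul_of_nonneg_right (by linarith) (by linarith)
    _ = k * b - 17 / 12 * (k * b * s) + (1 - 17 / 12 * s) * b := by ring
    _ ≤ k * b - 17 / 12 * (k * b * s) + 1 := by
        have : (1 - 17 / 12 * s) * b ≤ 1 * 1 := mul_le_mul (by linarith) hb1 hb0.le (by norm_num)
        linarith
    _ ≤ k * b * (1 - s) - 1 := by linarith

theorem good_dir {n : ℕ} {M : ℝ} (hP : Par (Module.finrank ℝ V) (n + 1) M) {ρ : Measure V} (hN : Nice (n + 1) M ρ)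
    (hI : Iso M ρ) (hj : 0 < en (n + 1) ρ) (hI' : Iso M (Nop (n + 1) ρ)) {E : Submodule ℝ V}
    (hE : Module.finrank ℝ E + (n + 1) = Module.finrank ℝ V) (u : V) :
    iw n ρ (fun X => avo (oc X) u ({y | (1 - 1 / (30 * M ^ 2)) *
        (((Module.finrank ℝ V : ℝ) - (n + 1 : ℕ)) / (Module.finrank ℝ V : ℝ)) ≤ ‖E.starProjection y‖ ^ 2}ᶜ.indicator
          (fun _ => 1))) ≤ 2 * pz (Module.finrank ℝ V) * en n ρ := by
  have hgp := good_pair hP hN hI hj hI' hE
  have hen := en_n_pos hP hN hI hj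
  have hM := hP.one
  have hd := hP.d_pos
  have hk := hP.k_pos
  have hkM := hP.hM
  have hbig := nums hP
  have hpz : 0 ≤ pz (Module.finrank ℝ V) := by unfold pz; positivity
  have hEk : (Module.finrank ℝ V : ℝ) - (n + 1 : ℕ) = Module.finrank ℝ E := by
    rw [← hE]; push_cast; ring
  set A : Set V := {y | (1 - 1 / (30 * M ^ 2)) *
        (((Module.finrank ℝ V : ℝ) - (n + 1 : ℕ)) / (Module.finrank ℝ V : ℝ)) ≤ ‖E.starProjection y‖ ^ 2} with hA
  have hmA : MeasurableSet A := by
    rw [hA]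
    exact measurableSet_le measurable_const ((by fun_prop : Measurable fun y : V => ‖E.starProjection y‖ ^ 2))
  have hmi : Measurable (Aᶜ.indicator (fun _ : V => (1 : ℝ))) := measurable_const.indicator hmA.compl
  have hav1 : ∀ X : Fin n → V, 0 ≤ avo (oc X) u (Aᶜ.indicator (fun _ => 1)) ∧
      avo (oc X) u (Aᶜ.indicator (fun _ => 1)) ≤ 1 := by
    intro X
    rw [avo_eq]
    refine ⟨av_nonneg _ fun x => Set.indicator_nonneg (fun _ _ => zero_le_one) _,
      av_le _ (fun x => Set.indicator_nonneg (fun _ _ => zero_le_one) _) fun x => ?_⟩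
    exact (le_abs_self _).trans (ind_le_one _ x)
  -- the tail bound
  have hkey : ∀ X : Fin n → V, wv X ≠ 0 → X ∈ GP n M E →
      avo (oc X) u (Aᶜ.indicator (fun _ => 1)) ≤ pz (Module.finrank ℝ V) / 8 := by
    intro X hX hG
    rw [avo_eq]
    have hW := finrank_oc hX
    set W := oc X with hWdef
    set G := sb W u with hGdef
    have hr : Module.finrank ℝ E ≤ Module.finrank ℝ G ∧ Module.finrank ℝ G ≤ Module.finrank ℝ E + 1 := by
      by_cases h0 : W.starProjection u = 0
      · rw [hGdef, sb_of_eq_zero h0]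
        omega
      · have h1 := finrank_sb h0
        rw [← hGdef] at h1
        omega
    have hE1 : 1 ≤ Module.finrank ℝ E := by
      have h := hk
      rw [hEk] at h
      exact_mod_cast h
    have hG1 : 1 ≤ Module.finrank ℝ G := hE1.trans hr.1
    have htail := av_tail G E hG1 (t := 1 / (200 * M ^ 3)) (by positivity)
    have hn2 := num2 hP (t := 1 / (200 * M ^ 3)) (by positivity) (by
      rw [mul_one_div_cancel (by positivity)])
    have hGr : (Module.finrank ℝ E : ℝ) ≤ Module.finrank ℝ G := by exact_mod_cast hr.1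
    have hGr' : (Module.finrank ℝ G : ℝ) ≤ Module.finrank ℝ E + 1 := by exact_mod_cast hr.2
    have hexp : 2 * Real.exp (-(Module.finrank ℝ G : ℝ) * (1 / (200 * M ^ 3)) ^ 2 / 32) ≤
        2 * Real.exp (-((Module.finrank ℝ V : ℝ) - (n + 1 : ℕ)) * (1 / (200 * M ^ 3)) ^ 2 / 32) := by
      refine mul_le_mul_of_nonneg_left (Real.exp_le_exp.2 ?_) (by norm_num)
      rw [hEk]
      have : (Module.finrank ℝ E : ℝ) * (1 / (200 * M ^ 3)) ^ 2 ≤
          (Module.finrank ℝ G : ℝ) * (1 / (200 * M ^ 3)) ^ 2 :=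
        mul_le_mul_of_nonneg_right hGr (by positivity)
      linarith
    refine le_trans ?_ (htail.trans (hexp.trans hn2))
    have hms : MeasurableSet {x : V | 1 / (200 * M ^ 3) ≤
        |‖E.starProjection x‖ ^ 2 - tt G E / Module.finrank ℝ G|} :=
      measurableSet_le measurable_const (by fun_prop)
    refine av_mono G hmi (measurable_const.indicator hms) (fun x => ind_le_one _ x) (fun x => ind_le_one _ x) fun y => ?_
    by_cases hy : y ∈ Aᶜ
    · have h1 : ‖E.starProjection y‖ ^ 2 < (1 - 1 / (30 * M ^ 2)) *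
        (((Module.finrank ℝ V : ℝ) - (n + 1 : ℕ)) / (Module.finrank ℝ V : ℝ)) := not_le.1 hy
      have h2 : (1 - 1 / (30 * M ^ 2)) *
          (((Module.finrank ℝ V : ℝ) - (n + 1 : ℕ)) / (Module.finrank ℝ V : ℝ)) ≤
          (tt E W - 1) / (Module.finrank ℝ G : ℝ) - 1 / (200 * M ^ 3) := by
        refine num_dir hM hbig hk hkM ?_ (by rw [hEk]; exact hGr) (by rw [hEk]; exact hGr') ?_
        · have : (0 : ℝ) ≤ (n + 1 : ℕ) := Nat.cast_nonneg _
          linarith
        · have h4 : |tt E W - ((Module.finrank ℝ V : ℝ) - (n + 1 : ℕ)) ^ 2 / (Module.finrank ℝ V : ℝ)| ≤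
              ((Module.finrank ℝ V : ℝ) - (n + 1 : ℕ)) ^ 2 / (Module.finrank ℝ V : ℝ) / (50 * M ^ 2) := hG
          have h3 := (abs_le.1 h4).1
          linarith
      have h3 : (tt E W - 1) / (Module.finrank ℝ G : ℝ) ≤ tt G E / (Module.finrank ℝ G : ℝ) := by
        refine div_le_div_of_nonneg_right ?_ (by positivity)
        rw [tt_comm G E]
        exact (tt_sb E W u).1
      have h4 : y ∈ {x : V | 1 / (200 * M ^ 3) ≤
        |‖E.starProjection x‖ ^ 2 - tt G E / Module.finrank ℝ G|} := by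
        change 1 / (200 * M ^ 3) ≤ |‖E.starProjection y‖ ^ 2 - tt G E / Module.finrank ℝ G|
        rw [abs_sub_comm]
        refine le_trans ?_ (le_abs_self _)
        linarith
      rw [Set.indicator_of_mem hy, Set.indicator_of_mem h4]
    · rw [Set.indicator_of_notMem hy]
      exact Set.indicator_nonneg (fun _ _ => zero_le_one) _
  -- integrate
  have hmavo : Measurable (fun X : Fin n → V => avo (oc X) u (Aᶜ.indicator (fun _ => (1 : ℝ)))) := by
    refine meas_avo (β := Fin n → V) (f := fun X => X) measurable_id (x := fun _ => u) measurable_const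
      (Φ := fun _ => Aᶜ.indicator (fun _ => (1 : ℝ))) ?_
    exact hmi.comp measurable_snd
  have hmg : Measurable ((GP n M E)ᶜ.indicator (fun _ : Fin n → V => (1 : ℝ))) :=
    measurable_const.indicator (meas_gp n M E).compl
  have hpz1 : pz (Module.finrank ℝ V) / 8 ≤ 1 := by
    have h1 : (1 : ℝ) ≤ (Module.finrank ℝ V : ℝ) ^ 10 := by
      apply one_le_pow₀
      have : (1 : ℝ) ≤ M ^ 20 := one_le_pow₀ hM
      linarith
    have h2 : pz (Module.finrank ℝ V) ≤ 1 := by
      unfold pz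
      exact inv_le_one_of_one_le₀ h1
    linarith
  calc iw n ρ (fun X => avo (oc X) u (Aᶜ.indicator (fun _ => 1)))
      ≤ iw n ρ (fun X => (GP n M E)ᶜ.indicator (fun _ => 1) X + pz (Module.finrank ℝ V) / 8) := by
        refine iw_mono hN.us hmavo (hmg.add_const _) (C := 2) (fun X => ?_) (fun X => ?_) fun X hX _ => ?_
        · have := hav1 X
          rw [abs_of_nonneg this.1]; linarith [this.2]
        · have h1 := ind_le_one (GP n M E)ᶜ X
          have h2 := abs_le.1 h1
          rw [abs_le]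
          constructor <;> linarith [h2.1, h2.2]
        · by_cases hG : X ∈ GP n M E
          · have h1 : X ∉ (GP n M E)ᶜ := fun h => h hG
            rw [Set.indicator_of_notMem h1, zero_add]
            exact hkey X hX hG
          · have h1 : X ∈ (GP n M E)ᶜ := hG
            rw [Set.indicator_of_mem h1]
            linarith [(hav1 X).2]
    _ = iw n ρ ((GP n M E)ᶜ.indicator (fun _ => 1)) + pz (Module.finrank ℝ V) / 8 * en n ρ := by
        rw [iw_add hN.us hmg measurable_const (C := 1) (fun X => ind_le_one _ X)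
          (fun X => by rw [abs_of_nonneg (by positivity)]; exact hpz1), iw_const]
    _ ≤ pz (Module.finrank ℝ V) * en n ρ + pz (Module.finrank ℝ V) / 8 * en n ρ := by linarith
    _ ≤ _ := by
        have := mul_nonneg hpz hen.le
        nlinarith

end Pool.Agent.PBL
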