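import Pool.Agent.PBL.F6
import Pool.Agent.PBL.D2
import Pool.Agent.PBL.C4c

/-! Module PBL-F7: upper bounds by the change of order. `up_pair` is the bound for one pair of subspaces of
dimensions `k = d - j` and `k + 1` (`coi_upper` and the moments `av_proj_mul`); `up_int` is the integrated form, by Fubini
and the estimates for typical pairs and directions (`good_pair`, `good_dir`). -/

set_option autoImplicit false

namespace Pool.Agent.PBL
open MeasureTheory ProbabilityTheory Set Filter Topology Metric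
open Pool.Agent.HP89 Pool.Agent.FI75
open scoped RealInnerProductSpace ENNReal

variable {V : Type*} [NormedAddCommGroup V] [InnerProductSpace ℝ V] [FiniteDimensional ℝ V]
  [MeasurableSpace V] [BorelSpace V]

omit [FiniteDimensional ℝ V] [MeasurableSpace V] [BorelSpace V] in
private theorem f7_dich (x : V) : nrm x = 0 ∨ ‖nrm x‖ = 1 := by
  by_cases hx : x = 0
  · left
    simp [nrm, hx]
  · right
    rw [nrm, norm_smul, norm_inv, norm_norm, inv_mul_cancel₀ (norm_ne_zero_iff.2 hx)]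

omit [FiniteDimensional ℝ V] [MeasurableSpace V] [BorelSpace V] in
private theorem f7_nn (x : V) : nrm (nrm x) = nrm x := by
  rcases f7_dich x with h | h
  · rw [h]
    simp [nrm]
  · have h2 : nrm (nrm x) = ‖nrm x‖⁻¹ • nrm x := rfl
    rw [h2, h, inv_one, one_smul]

omit [BorelSpace V] in
/-- functions which agree on the values of `nrm` have the same mean -/
private theorem f7_congr (E : Submodule ℝ V) {φ ψ : V → ℝ} (h : ∀ x, φ (nrm x) = ψ (nrm x)) :
    av E φ = av E ψ := by
  unfold av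
  simp only [h]

/-- the numerical part of `up_pair` -/
private theorem f7_num {d k M t : ℝ} (hd : 0 < d) (hM : 1 ≤ M) (hk : d ≤ M * k) (hk0 : 0 < k)
    (hbig : 10 ^ 20 * M ^ 10 ≤ √d) (ht : |t - k ^ 2 / d| ≤ k ^ 2 / d / (50 * M ^ 2)) :
    2 ≤ k ∧ 1 < t ∧ 1 < k ^ 2 ∧ (√((1 - 1 / (30 * M ^ 2)) * (k / d)))⁻¹ * ((t + 2) / (k ^ 2 - 1)) ≤
      (1 + 1 / (25 * M ^ 2)) / (d * √(k / d)) := by
  have hM0 : 0 < M := by linarith
  have hDD : √d * √d = d := Real.mul_self_sqrt hd.le
  have hM10 : (1 : ℝ) ≤ M ^ 10 := one_le_pow₀ hM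
  have hdbig : 10 ^ 40 * M ^ 20 ≤ d := by
    calc 10 ^ 40 * M ^ 20 = (10 ^ 20 * M ^ 10) * (10 ^ 20 * M ^ 10) := by ring
      _ ≤ √d * √d := mul_self_le_mul_self (by positivity) hbig
      _ = d := hDD
  obtain ⟨z, hz⟩ : ∃ z : ℝ, z = (M ^ 2)⁻¹ := ⟨_, rfl⟩
  have hz0 : 0 < z := by rw [hz]; positivity
  have hzM : z * M ^ 2 = 1 := by rw [hz]; exact inv_mul_cancel₀ (by positivity)
  have hz1 : z ≤ 1 := by
    have : (1 : ℝ) ≤ M ^ 2 := one_le_pow₀ hM
    nlinarith
  have e1 : (1 : ℝ) / (30 * M ^ 2) = z / 30 := by rw [hz]; field_simp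
  have e2 : (1 : ℝ) / (25 * M ^ 2) = z / 25 := by rw [hz]; field_simp
  have e3 : k ^ 2 / d / (50 * M ^ 2) = k ^ 2 / d * (z / 50) := by rw [hz]; field_simp
  rw [e1, e2]
  rw [e3] at ht
  -- `k² ≥ d² z`, `k² z ≥ 10^5 d`
  have hk2 : d ^ 2 * z ≤ k ^ 2 := by
    have h1 : d ^ 2 ≤ (M * k) ^ 2 := pow_le_pow_left₀ hd.le hk 2
    calc d ^ 2 * z ≤ (M * k) ^ 2 * z := mul_le_mul_of_nonneg_right h1 hz0.le
      _ = (z * M ^ 2) * k ^ 2 := by ring
      _ = k ^ 2 := by rw [hzM, one_mul]
  have hM16 : (1 : ℝ) ≤ M ^ 16 := one_le_pow₀ hM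
  have hdz : 10 ^ 30 ≤ d * z ^ 2 := by
    have h1 : 10 ^ 40 * M ^ 20 * z ^ 2 ≤ d * z ^ 2 := mul_le_mul_of_nonneg_right hdbig (by positivity)
    have h2 : 10 ^ 40 * M ^ 20 * z ^ 2 = 10 ^ 40 * M ^ 16 := by
      calc 10 ^ 40 * M ^ 20 * z ^ 2 = 10 ^ 40 * M ^ 16 * (z * M ^ 2) ^ 2 := by ring
        _ = 10 ^ 40 * M ^ 16 := by rw [hzM]; ring
    rw [h2] at h1
    nlinarith
  have hdz1 : 10 ^ 30 ≤ d := by
    have : z ^ 2 ≤ 1 := pow_le_one₀ hz0.le hz1
    nlinarith
  have hkz : 10 ^ 30 * d ≤ k ^ 2 * z := by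
    have h1 : d ^ 2 * z * z ≤ k ^ 2 * z := mul_le_mul_of_nonneg_right hk2 hz0.le
    nlinarith
  have hk2b : 10 ^ 30 * d ≤ k ^ 2 := by
    have : k ^ 2 * z ≤ k ^ 2 := mul_le_of_le_one_right (sq_nonneg k) hz1
    linarith
  have hkd : 10 ^ 30 ≤ k ^ 2 / d := by
    rw [le_div_iff₀ hd]
    exact hk2b
  have ht' := abs_le.1 ht
  have hkd0 : 0 < k ^ 2 / d := by positivity
  have hk22 : (2 : ℝ) ≤ k := by
    by_contra hneg
    have h1 : k < 2 := not_le.1 hneg
    nlinarith
  have ht1 : 1 < t := by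
    have h1 : k ^ 2 / d * (z / 50) ≤ k ^ 2 / d * (1 / 50) :=
      mul_le_mul_of_nonneg_left (by linarith) hkd0.le
    linarith [ht'.1]
  refine ⟨hk22, ht1, by nlinarith, ?_⟩
  -- the main inequality
  have hq : 1 - 11 * z / 600 ≤ √(1 - z / 30) := by
    apply Real.le_sqrt_of_sq_le
    nlinarith
  have hq0 : 0 < 1 - 11 * z / 600 := by linarith
  have hb : 0 < k / d := div_pos hk0 hd
  have hs : 0 < √(k / d) := Real.sqrt_pos.2 hb
  have hk1 : 0 < k ^ 2 - 1 := by nlinarith
  have hmain : (t + 2) / (k ^ 2 - 1) ≤ (1 + z / 25) * (1 - 11 * z / 600) / d := by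
    rw [div_le_div_iff₀ hk1 hd]
    have h1 : t * d ≤ k ^ 2 * (1 + z / 50) := by
      have h2 : t ≤ k ^ 2 / d * (1 + z / 50) := by linarith [ht'.2]
      calc t * d ≤ k ^ 2 / d * (1 + z / 50) * d := mul_le_mul_of_nonneg_right h2 hd.le
        _ = k ^ 2 * (1 + z / 50) := by field_simp
    have h3 : 1 + 314 * z / 15000 ≤ (1 + z / 25) * (1 - 11 * z / 600) := by nlinarith
    have h4 : (1 + 314 * z / 15000) * (k ^ 2 - 1) ≤ (1 + z / 25) * (1 - 11 * z / 600) * (k ^ 2 - 1) :=
      mul_le_mul_of_nonneg_right h3 hk1.le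
    have h6 : (t + 2) * d = t * d + 2 * d := by ring
    have h7 : (1 + 314 * z / 15000) * (k ^ 2 - 1) =
        k ^ 2 + 314 / 15000 * (k ^ 2 * z) - 1 - 314 / 15000 * z := by ring
    have h8 : k ^ 2 * (1 + z / 50) = k ^ 2 + 1 / 50 * (k ^ 2 * z) := by ring
    rw [h8] at h1
    rw [h7] at h4
    rw [h6]
    linarith
  have hsq : √((1 - z / 30) * (k / d)) = √(1 - z / 30) * √(k / d) :=
    Real.sqrt_mul (by linarith) _
  rw [hsq]
  have hQ : 0 < √(1 - z / 30) := lt_of_lt_of_le hq0 hq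
  calc (√(1 - z / 30) * √(k / d))⁻¹ * ((t + 2) / (k ^ 2 - 1))
      ≤ (√(1 - z / 30) * √(k / d))⁻¹ * ((1 + z / 25) * (1 - 11 * z / 600) / d) :=
        mul_le_mul_of_nonneg_left hmain (by positivity)
    _ ≤ (√(1 - z / 30) * √(k / d))⁻¹ * ((1 + z / 25) * √(1 - z / 30) / d) := by
        apply mul_le_mul_of_nonneg_left _ (by positivity)
        apply div_le_div_of_nonneg_right _ hd.le
        exact mul_le_mul_of_nonneg_left hq (by positivity)
    _ = (1 + z / 25) / (d * √(k / d)) := by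
        have h : ∀ Q s : ℝ, 0 < Q → 0 < s →
            (Q * s)⁻¹ * ((1 + z / 25) * Q / d) = (1 + z / 25) / (d * s) := by
          intro Q s hQ hs
          field_simp
        exact h _ _ hQ hs

theorem up_pair {j : ℕ} {M : ℝ} (hP : Par (Module.finrank ℝ V) j M) {E W : Submodule ℝ V}
    (hE : Module.finrank ℝ E + j = Module.finrank ℝ V) (hW : Module.finrank ℝ W + j = Module.finrank ℝ V + 1)
    (hg : |tt E W - ((Module.finrank ℝ V : ℝ) - j) ^ 2 / (Module.finrank ℝ V : ℝ)| ≤
      ((Module.finrank ℝ V : ℝ) - j) ^ 2 / (Module.finrank ℝ V : ℝ) / (50 * M ^ 2))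
    {U : V → V} (hU : Measurable U) (h1 : ∀ y, ‖U y‖ ≤ 1) :
    av E (fun x => ‖W.starProjection x‖ * avo W x ({y | (1 - 1 / (30 * M ^ 2)) *
        (((Module.finrank ℝ V : ℝ) - j) / (Module.finrank ℝ V : ℝ)) ≤ ‖E.starProjection y‖ ^ 2}.indicator
          (fun y => ⟪U y, x⟫ ^ 2))) ≤
      (1 + 1 / (25 * M ^ 2)) / ((Module.finrank ℝ V : ℝ) *
        √(((Module.finrank ℝ V : ℝ) - j) / (Module.finrank ℝ V : ℝ))) *
        av W (fun y => ‖E.starProjection (U y)‖ ^ 2) := by
  have hd : (0 : ℝ) < Module.finrank ℝ V := hP.d_pos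
  have hk0 : (0 : ℝ) < (Module.finrank ℝ V : ℝ) - j := hP.k_pos
  obtain ⟨hk2, ht1, hk1, hnum⟩ := f7_num hd hP.one hP.hM hk0 hP.big hg
  have hM0 : 0 < M := by linarith [hP.one]
  set d : ℝ := (Module.finrank ℝ V : ℝ) with hdd
  set c0 : ℝ := (1 - 1 / (30 * M ^ 2)) * ((d - j) / d) with hc0
  have hM2 : (1 : ℝ) ≤ M ^ 2 := one_le_pow₀ hP.one
  have hc0pos : 0 < c0 := by
    rw [hc0]
    apply mul_pos _ (div_pos hk0 hd)
    have : 1 / (30 * M ^ 2) ≤ 1 / 30 := by
      apply one_div_le_one_div_of_le (by norm_num)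
      linarith
    linarith
  have hkE : (Module.finrank ℝ E : ℝ) = d - j := by
    have : ((Module.finrank ℝ E + j : ℕ) : ℝ) = Module.finrank ℝ V := by exact_mod_cast hE
    push_cast at this
    linarith
  have hkE2 : 2 ≤ Module.finrank ℝ E := by
    have : (2 : ℝ) ≤ Module.finrank ℝ E := by rw [hkE]; exact hk2
    exact_mod_cast this
  have hin : ∀ x y : V, ⟪U y, nrm x⟫ ^ 2 ≤ 1 := by
    intro x y
    have h2 : |⟪U y, nrm x⟫| ≤ 1 := (abs_real_inner_le_norm _ _).trans
      (mul_le_one₀ (h1 y) (norm_nonneg _) (norm_nrm_le x))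
    rw [← sq_abs]
    exact pow_le_one₀ (abs_nonneg _) h2
  have hmeas : Measurable (Function.uncurry fun x y : V => ⟪U y, nrm x⟫ ^ 2) := by
    have h2 : Measurable fun p : V × V => ⟪U p.2, nrm p.1⟫ ^ 2 :=
      ((hU.comp measurable_snd).inner (measurable_nrm.comp measurable_fst)).pow_const 2
    exact h2
  have hcoi := coi_upper E W (k := Module.finrank ℝ E) rfl (by omega) hkE2 ht1
    (Φ := fun x y => ⟪U y, nrm x⟫ ^ 2) hmeas (fun x y => sq_nonneg _) hin hc0pos
  have hL : av E (fun x => ‖W.starProjection x‖ * avo W x ({y | c0 ≤ ‖E.starProjection y‖ ^ 2}.indicator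
          (fun y => ⟪U y, x⟫ ^ 2))) = av E (fun x => ‖W.starProjection x‖ * avo W x
          ({y | c0 ≤ ‖E.starProjection y‖ ^ 2}.indicator (fun y => ⟪U y, nrm x⟫ ^ 2))) := by
    apply f7_congr
    intro x
    rw [f7_nn]
  rw [hL]
  refine hcoi.trans ?_
  have hmE : Measurable fun y => ‖E.starProjection (U y)‖ ^ 2 :=
    ((E.starProjection.continuous.measurable.comp hU).norm).pow_const 2
  have hEle : ∀ y, ‖E.starProjection (U y)‖ ^ 2 ≤ 1 := fun y =>
    pow_le_one₀ (norm_nonneg _) ((E.norm_starProjection_apply_le _).trans (h1 y))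
  have hpt : ∀ y, ({y | c0 ≤ ‖E.starProjection y‖ ^ 2}.indicator
      (fun y => avo E y (fun x => ‖W.starProjection x‖ ^ 2 * ⟪U y, nrm x⟫ ^ 2))) y ≤
      (tt E W + 2) / ((d - j) ^ 2 - 1) * ‖E.starProjection (U y)‖ ^ 2 := by
    intro y
    by_cases hy : c0 ≤ ‖E.starProjection y‖ ^ 2
    · rw [indicator_of_mem (by exact hy)]
      have hne : E.starProjection y ≠ 0 := by
        intro h0
        rw [h0] at hy
        simp at hy
        linarith
      have hfr := finrank_sb hne
      have hfr1 : (Module.finrank ℝ (sb E y) : ℝ) = d - j - 1 := by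
        have : ((Module.finrank ℝ (sb E y) + 1 : ℕ) : ℝ) = Module.finrank ℝ E := by exact_mod_cast hfr
        push_cast at this
        linarith
      rw [avo_eq]
      have hcg : av (sb E y) (fun x => ‖W.starProjection x‖ ^ 2 * ⟪U y, nrm x⟫ ^ 2) =
          av (sb E y) (fun x => ‖W.starProjection x‖ ^ 2 * ⟪x, U y⟫ ^ 2) := by
        apply f7_congr
        intro x
        rw [f7_nn, real_inner_comm]
      rw [hcg]
      have h3 := av_proj_mul (sb E y) W (by omega) (U y)
      rw [hfr1] at h3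
      have h4 : tt (sb E y) W ≤ tt E W := by
        rw [tt_comm, tt_comm E W]
        exact (tt_sb W E y).2
      have h5 : ‖(sb E y).starProjection (U y)‖ ≤ ‖E.starProjection (U y)‖ := by
        rw [sb_proj]
        exact norm_ort_le _ _
      have h6 : (tt (sb E y) W + 2) * ‖(sb E y).starProjection (U y)‖ ^ 2 ≤
          (tt E W + 2) * ‖E.starProjection (U y)‖ ^ 2 := by
        apply mul_le_mul (by linarith) (pow_le_pow_left₀ (norm_nonneg _) h5 2) (by positivity)
        linarith [tt_nonneg E W]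
      have h7 : (d - j - 1) * (d - j - 1 + 2) = (d - j) ^ 2 - 1 := by ring
      rw [h7] at h3
      have h8 : 0 < (d - j) ^ 2 - 1 := by linarith
      rw [div_mul_eq_mul_div, le_div_iff₀ h8, mul_comm]
      exact h3.trans h6
    · rw [indicator_of_notMem (by exact hy)]
      have h8 : 0 < (d - j) ^ 2 - 1 := by linarith
      have := tt_nonneg E W
      positivity
  have hmL : Measurable ({y | c0 ≤ ‖E.starProjection y‖ ^ 2}.indicator
      (fun y => avo E y (fun x => ‖W.starProjection x‖ ^ 2 * ⟪U y, nrm x⟫ ^ 2))) := by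
    apply Measurable.indicator
    · apply meas_avo' E measurable_id
      have h2 : Measurable fun p : V × V => ‖W.starProjection p.2‖ ^ 2 * ⟪U p.1, nrm p.2⟫ ^ 2 :=
        (((W.starProjection.continuous.measurable.comp measurable_snd).norm).pow_const 2).mul
          (((hU.comp measurable_fst).inner (measurable_nrm.comp measurable_snd)).pow_const 2)
      exact h2
    · exact measurableSet_le measurable_const
        ((E.starProjection.continuous.measurable.norm).pow_const 2)
  have hK0 : 0 ≤ (tt E W + 2) / ((d - j) ^ 2 - 1) :=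
    div_nonneg (by linarith [tt_nonneg E W]) (by linarith)
  have hav : av W ({y | c0 ≤ ‖E.starProjection y‖ ^ 2}.indicator
      (fun y => avo E y (fun x => ‖W.starProjection x‖ ^ 2 * ⟪U y, nrm x⟫ ^ 2))) ≤
      (tt E W + 2) / ((d - j) ^ 2 - 1) * av W (fun y => ‖E.starProjection (U y)‖ ^ 2) := by
    rw [← av_mul]
    refine av_mono W hmL (hmE.const_mul _) (C := (tt E W + 2) / ((d - j) ^ 2 - 1)) ?_ ?_ hpt
    · intro y
      have h0 : 0 ≤ ({y | c0 ≤ ‖E.starProjection y‖ ^ 2}.indicator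
          (fun y => avo E y (fun x => ‖W.starProjection x‖ ^ 2 * ⟪U y, nrm x⟫ ^ 2))) y := by
        apply indicator_nonneg
        intro y _
        rw [avo_eq]
        exact av_nonneg _ fun x => by positivity
      rw [abs_of_nonneg h0]
      refine (hpt y).trans ?_
      exact mul_le_of_le_one_right hK0 (hEle y)
    · intro y
      rw [abs_of_nonneg (mul_nonneg hK0 (sq_nonneg _))]
      exact mul_le_of_le_one_right hK0 (hEle y)
  calc (√c0)⁻¹ * av W ({y | c0 ≤ ‖E.starProjection y‖ ^ 2}.indicator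
      (fun y => avo E y (fun x => ‖W.starProjection x‖ ^ 2 * ⟪U y, nrm x⟫ ^ 2)))
      ≤ (√c0)⁻¹ * ((tt E W + 2) / ((d - j) ^ 2 - 1) * av W (fun y => ‖E.starProjection (U y)‖ ^ 2)) :=
        mul_le_mul_of_nonneg_left hav (by positivity)
    _ = (√c0)⁻¹ * ((tt E W + 2) / ((d - j) ^ 2 - 1)) * av W (fun y => ‖E.starProjection (U y)‖ ^ 2) := by
        ring
    _ ≤ _ := mul_le_mul_of_nonneg_right hnum (av_nonneg _ fun y => sq_nonneg _)

/-- Fubini for `iw` and `av` -/
private theorem f7_iw_av {ρ : Measure V} (hρ : US ρ) {n : ℕ} (E : Submodule ℝ V)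
    {Ψ : (Fin n → V) → V → ℝ} (hΨ : Measurable (Function.uncurry Ψ)) {C : ℝ} (hC : ∀ X u, |Ψ X u| ≤ C) :
    iw n ρ (fun X => av E (Ψ X)) = av E (fun u => iw n ρ (fun X => Ψ X u)) := by
  have := hρ.prob
  unfold iw av
  have h1 : ∀ X : Fin n → V, wv X * ∫ g, Ψ X (nrm (E.starProjection g)) ∂(stdGaussian V) =
      ∫ g, wv X * Ψ X (nrm (E.starProjection g)) ∂(stdGaussian V) := fun X => (integral_const_mul _ _).symm
  simp only [h1]
  apply integral_integral_swap
  apply Integrable.of_bound (C := C)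
  · apply Measurable.aestronglyMeasurable
    have m1 : Measurable fun p : (Fin n → V) × V => wv p.1 := (measurable_wn n).comp measurable_fst
    have m2 : Measurable fun p : (Fin n → V) × V => Ψ p.1 (nrm (E.starProjection p.2)) :=
      hΨ.comp (measurable_fst.prodMk
        (measurable_nrm.comp (E.starProjection.continuous.measurable.comp measurable_snd)))
    exact m1.mul m2
  · have h2 := (Measure.quasiMeasurePreserving_fst (μ := pp n ρ) (ν := stdGaussian V)).ae (ae_wv_le hρ n)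
    filter_upwards [h2] with p hp
    show ‖wv p.1 * Ψ p.1 (nrm (E.starProjection p.2))‖ ≤ C
    rw [Real.norm_eq_abs, abs_mul, abs_of_nonneg hp.1]
    exact (mul_le_of_le_one_left (abs_nonneg _) hp.2).trans (hC _ _)

/-- Fubini for two `iw` -/
private theorem f7_iw_iw {τ ρ : Measure V} (hτ : US τ) (hρ : US ρ) {m n : ℕ}
    {F : (Fin m → V) → (Fin n → V) → ℝ} (hF : Measurable (Function.uncurry F)) {C : ℝ}
    (hC : ∀ X Y, |F X Y| ≤ C) :
    iw m τ (fun X => iw n ρ (fun Y => F X Y)) = iw n ρ (fun Y => iw m τ (fun X => F X Y)) := by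
  have := hρ.prob
  have := hτ.prob
  unfold iw
  have h1 : ∀ X : Fin m → V, wv X * ∫ Y, wv Y * F X Y ∂(pp n ρ) =
      ∫ Y, wv X * (wv Y * F X Y) ∂(pp n ρ) := fun X => (integral_const_mul _ _).symm
  have h2 : ∀ Y : Fin n → V, wv Y * ∫ X, wv X * F X Y ∂(pp m τ) =
      ∫ X, wv X * (wv Y * F X Y) ∂(pp m τ) := fun Y => by
    rw [← integral_const_mul]
    congr 1
    ext X
    ring
  simp only [h1, h2]
  apply integral_integral_swap
  apply Integrable.of_bound (C := C)
  · apply Measurable.aestronglyMeasurable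
    have m1 : Measurable fun p : (Fin m → V) × (Fin n → V) => wv p.1 :=
      (measurable_wn m).comp measurable_fst
    have m2 : Measurable fun p : (Fin m → V) × (Fin n → V) => wv p.2 :=
      (measurable_wn n).comp measurable_snd
    exact m1.mul (m2.mul hF)
  · have h3 := (Measure.quasiMeasurePreserving_fst (μ := pp m τ) (ν := pp n ρ)).ae (ae_wv_le hτ m)
    have h4 := (Measure.quasiMeasurePreserving_snd (μ := pp m τ) (ν := pp n ρ)).ae (ae_wv_le hρ n)
    filter_upwards [h3, h4] with p hp hq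
    show ‖wv p.1 * (wv p.2 * F p.1 p.2)‖ ≤ C
    rw [Real.norm_eq_abs, abs_mul, abs_mul, abs_of_nonneg hp.1, abs_of_nonneg hq.1]
    exact (mul_le_of_le_one_left (mul_nonneg hq.1 (abs_nonneg _)) hp.2).trans
      ((mul_le_of_le_one_left (abs_nonneg _) hq.2).trans (hC _ _))

/-- measurability in a parameter -/
private theorem f7_meas_iw (ρ : Measure V) [SFinite ρ] [SigmaFinite ρ] {n : ℕ} {β : Type*} [MeasurableSpace β]
    {Ψ : β → (Fin n → V) → ℝ} (hΨ : Measurable (Function.uncurry Ψ)) :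
    Measurable (fun b => iw n ρ (Ψ b)) := by
  have m1 : Measurable (Function.uncurry fun (b : β) (X : Fin n → V) => wv X * Ψ b X) := by
    have h1 : Measurable fun p : β × (Fin n → V) => wv p.2 := (measurable_wn n).comp measurable_snd
    exact h1.mul hΨ
  exact (StronglyMeasurable.integral_prod_right (ν := pp n ρ) m1.stronglyMeasurable).measurable

/-- `|iw n ρ Φ| ≤ C` -/
private theorem f7_iw_le {ρ : Measure V} (hρ : US ρ) {n : ℕ} {Φ : (Fin n → V) → ℝ} {C : ℝ}
    (hC : ∀ X, |Φ X| ≤ C) : |iw n ρ Φ| ≤ C := by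
  have := hρ.prob
  have h1 : ‖∫ X, wv X * Φ X ∂(pp n ρ)‖ ≤ C * (pp n ρ).real univ := by
    apply norm_integral_le_of_norm_le_const
    filter_upwards [ae_wv_le hρ n] with X hX
    rw [Real.norm_eq_abs, abs_mul, abs_of_nonneg hX.1]
    exact (mul_le_of_le_one_left (abs_nonneg _) hX.2).trans (hC _)
  rw [probReal_univ, mul_one] at h1
  exact h1

omit [FiniteDimensional ℝ V] [BorelSpace V] in
private theorem f7_iw_nn {ρ : Measure V} {n : ℕ} {Φ : (Fin n → V) → ℝ} (h : ∀ X, 0 ≤ Φ X) :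
    0 ≤ iw n ρ Φ := by
  unfold iw
  exact integral_nonneg fun X => mul_nonneg (wn_nonneg _) (h X)

omit [MeasurableSpace V] [BorelSpace V] in
private theorem f7_sb {W : Submodule ℝ V} (hW : 2 ≤ Module.finrank ℝ W) (v : V) :
    1 ≤ Module.finrank ℝ (sb W v) := by
  by_cases h : W.starProjection v = 0
  · rw [sb_of_eq_zero h]
    omega
  · have := finrank_sb h
    omega

/-- the supremum of `‖U‖²` on the unit sphere -/
private theorem f7_S {W : Submodule ℝ V} (hW : 2 ≤ Module.finrank ℝ W) {U : V → V} (hU : Measurable U)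
    (h1 : ∀ y, ‖U y‖ ≤ 1) {S : ℝ} (hS : ∀ y, ‖y‖ = 1 → ‖U y‖ ^ 2 ≤ S) {v : V} (hv : ‖v‖ ≤ 1)
    {A : Set V} (hA : MeasurableSet A) :
    avo W v (A.indicator (fun y => ⟪U y, v⟫ ^ 2)) ≤ S * avo W v (A.indicator (fun _ => 1)) := by
  rw [avo_eq, avo_eq, ← av_mul]
  unfold av
  have hsq : ∀ y, ⟪U y, v⟫ ^ 2 ≤ ‖U y‖ ^ 2 := by
    intro y
    have h2 : |⟪U y, v⟫| ≤ ‖U y‖ := (abs_real_inner_le_norm _ _).trans
      (mul_le_of_le_one_right (norm_nonneg _) hv)
    rw [← sq_abs]
    exact pow_le_pow_left₀ (abs_nonneg _) h2 2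
  have mU : Measurable (A.indicator (fun y => ⟪U y, v⟫ ^ 2)) :=
    ((hU.inner measurable_const).pow_const 2).indicator hA
  have mA : Measurable (A.indicator (fun _ : V => (1 : ℝ))) := measurable_const.indicator hA
  have mP : Measurable fun g => nrm ((sb W v).starProjection g) :=
    measurable_nrm.comp (sb W v).starProjection.continuous.measurable
  apply integral_mono_ae
  · apply Integrable.of_bound (C := 1) (mU.comp mP).aestronglyMeasurable
    filter_upwards with g
    rw [Real.norm_eq_abs, abs_of_nonneg (indicator_nonneg (fun y _ => sq_nonneg _) _)]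
    apply indicator_le' (f := fun y => ⟪U y, v⟫ ^ 2) (g := fun _ => 1)
    · intro y _
      exact (hsq y).trans (pow_le_one₀ (norm_nonneg _) (h1 y))
    · intro y _
      exact zero_le_one
  · apply Integrable.of_bound (C := |S|) ((mA.const_mul S).comp mP).aestronglyMeasurable
    filter_upwards with g
    show ‖S * A.indicator (fun _ => 1) (nrm ((sb W v).starProjection g))‖ ≤ |S|
    rw [Real.norm_eq_abs, abs_mul]
    apply mul_le_of_le_one_right (abs_nonneg _)
    rw [abs_of_nonneg (indicator_nonneg (fun y _ => zero_le_one) _)]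
    apply indicator_le' (f := fun _ => (1 : ℝ)) (g := fun _ => 1)
    · intro y _
      exact le_rfl
    · intro y _
      exact zero_le_one
  · filter_upwards [ae_proj_ne (sb W v) (f7_sb hW v)] with g hg
    have h3 : ‖nrm ((sb W v).starProjection g)‖ = 1 := by
      rw [nrm, norm_smul, norm_inv, norm_norm, inv_mul_cancel₀ (norm_ne_zero_iff.2 hg)]
    show A.indicator (fun y => ⟪U y, v⟫ ^ 2) _ ≤ S * A.indicator (fun _ => 1) _
    by_cases hm : nrm ((sb W v).starProjection g) ∈ A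
    · rw [indicator_of_mem hm, indicator_of_mem hm, mul_one]
      exact (hsq _).trans (hS _ h3)
    · rw [indicator_of_notMem hm, indicator_of_notMem hm, mul_zero]

/-- the set of good directions -/
private def HS (M b : ℝ) (E : Submodule ℝ V) : Set V :=
  {y | (1 - 1 / (30 * M ^ 2)) * b ≤ ‖E.starProjection y‖ ^ 2}

private theorem f7_mHS (M b : ℝ) (E : Submodule ℝ V) : MeasurableSet (HS M b E) :=
  measurableSet_le measurable_const ((E.starProjection.continuous.measurable.norm).pow_const 2)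

/-- the main integrand -/
private noncomputable def ps {n : ℕ} (U : V → V) (X : Fin n → V) (u : V) : ℝ :=
  ‖rv X u‖ * avo (oc X) u (fun y => ⟪U y, u⟫ ^ 2)

private theorem f7_ps_nn {n : ℕ} (U : V → V) (X : Fin n → V) (u : V) : 0 ≤ ps U X u := by
  unfold ps
  rw [avo_eq]
  exact mul_nonneg (norm_nonneg _) (av_nonneg _ fun y => sq_nonneg _)

omit [FiniteDimensional ℝ V] [MeasurableSpace V] [BorelSpace V] in
private theorem f7_in {U : V → V} (h1 : ∀ y, ‖U y‖ ≤ 1) {u : V} (hu : ‖u‖ ≤ 1) (y : V) :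
    ⟪U y, u⟫ ^ 2 ≤ 1 := by
  have h2 : |⟪U y, u⟫| ≤ 1 := (abs_real_inner_le_norm _ _).trans (mul_le_one₀ (h1 y) (norm_nonneg _) hu)
  rw [← sq_abs]
  exact pow_le_one₀ (abs_nonneg _) h2

private theorem f7_ps_le {n : ℕ} {U : V → V} (h1 : ∀ y, ‖U y‖ ≤ 1) (X : Fin n → V) {u : V} (hu : ‖u‖ ≤ 1) :
    ps U X u ≤ 1 := by
  unfold ps
  rw [avo_eq]
  exact mul_le_one₀ ((norm_res_le _ _).trans hu) (av_nonneg _ fun y => sq_nonneg _)
    (av_le _ (fun y => sq_nonneg _) fun y => f7_in h1 hu y)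

private theorem f7_ps_meas {n : ℕ} {U : V → V} (hU : Measurable U) :
    Measurable (fun p : V × (Fin n → V) => ps U p.2 p.1) := by
  unfold ps
  apply Measurable.mul
  · exact (meas_rv.comp (measurable_snd.prodMk measurable_fst)).norm
  · apply meas_avo measurable_snd measurable_fst (Φ := fun (p : V × (Fin n → V)) y => ⟪U y, p.1⟫ ^ 2)
    have h2 : Measurable fun q : (V × (Fin n → V)) × V => ⟪U q.2, q.1.1⟫ ^ 2 :=
      ((hU.comp measurable_snd).inner (measurable_fst.comp measurable_fst)).pow_const 2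
    exact h2

private theorem f7_mind {U : V → V} (hU : Measurable U) {A : Set V} (hA : MeasurableSet A) :
    Measurable (Function.uncurry fun (u : V) => A.indicator (fun y => ⟪U y, nrm u⟫ ^ 2)) := by
  have h : (Function.uncurry fun (u : V) => A.indicator (fun y => ⟪U y, nrm u⟫ ^ 2)) =
      (Prod.snd ⁻¹' A).indicator (fun p : V × V => ⟪U p.2, nrm p.1⟫ ^ 2) := by
    ext p
    rfl
  rw [h]
  exact (((hU.comp measurable_snd).inner (measurable_nrm.comp measurable_fst)).pow_const 2).indicator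
    (measurable_snd hA)

omit [NormedAddCommGroup V] [InnerProductSpace ℝ V] [FiniteDimensional ℝ V] [BorelSpace V] in
private theorem f7_mone {β : Type*} [MeasurableSpace β] {A : Set V} (hA : MeasurableSet A) :
    Measurable (Function.uncurry fun (_ : β) => A.indicator (fun _ : V => (1 : ℝ))) := by
  have h : (Function.uncurry fun (_ : β) => A.indicator (fun _ : V => (1 : ℝ))) =
      (Prod.snd ⁻¹' A).indicator (fun _ : β × V => (1 : ℝ)) := by
    ext p
    rfl
  rw [h]
  exact measurable_const.indicator (measurable_snd hA)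

private theorem f7_ind1 {W : Submodule ℝ V} {v : V} {A : Set V} :
    0 ≤ avo W v (A.indicator (fun _ => (1 : ℝ))) ∧ avo W v (A.indicator (fun _ => (1 : ℝ))) ≤ 1 := by
  rw [avo_eq]
  constructor
  · exact av_nonneg _ fun y => indicator_nonneg (fun _ _ => zero_le_one) _
  · exact av_le _ (fun y => indicator_nonneg (fun _ _ => zero_le_one) _)
      (fun y => indicator_le' (f := fun _ => (1 : ℝ)) (g := fun _ => 1) (fun _ _ => le_rfl)
        (fun _ _ => zero_le_one) y)

/-- the estimate for one pair -/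
private theorem f7_pt {n : ℕ} {M : ℝ} (hP : Par (Module.finrank ℝ V) (n + 1) M) {E : Submodule ℝ V}
    (hE : Module.finrank ℝ E + (n + 1) = Module.finrank ℝ V) {X : Fin n → V} (hX : wv X ≠ 0)
    {U : V → V} (hU : Measurable U) (h1 : ∀ y, ‖U y‖ ≤ 1) {S : ℝ} (hS : ∀ y, ‖y‖ = 1 → ‖U y‖ ^ 2 ≤ S)
    (hS0 : 0 ≤ S) :
    av E (fun u => ps U X (nrm u)) ≤
      (1 + 1 / (25 * M ^ 2)) / ((Module.finrank ℝ V : ℝ) *
        √(((Module.finrank ℝ V : ℝ) - (n + 1 : ℕ)) / (Module.finrank ℝ V : ℝ))) *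
        av (oc X) (fun y => ‖E.starProjection (U y)‖ ^ 2) +
      (S * av E (fun u => avo (oc X) u ((HS M (((Module.finrank ℝ V : ℝ) - (n + 1 : ℕ)) /
        (Module.finrank ℝ V : ℝ)) E)ᶜ.indicator (fun _ => 1))) + S * (GP n M E)ᶜ.indicator (fun _ => 1) X) := by
  set b : ℝ := ((Module.finrank ℝ V : ℝ) - (n + 1 : ℕ)) / (Module.finrank ℝ V : ℝ) with hb
  have hfr := finrank_oc hX
  have hd : (0 : ℝ) < Module.finrank ℝ V := hP.d_pos
  have hk0 : (0 : ℝ) < (Module.finrank ℝ V : ℝ) - (n + 1 : ℕ) := hP.k_pos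
  have hkE1 : 1 ≤ Module.finrank ℝ E := by
    have h2 : ((Module.finrank ℝ E + (n + 1) : ℕ) : ℝ) = Module.finrank ℝ V := by exact_mod_cast hE
    push_cast at h2 hk0
    have h3 : (0 : ℝ) < Module.finrank ℝ E := by linarith
    exact_mod_cast h3
  have hW2 : 2 ≤ Module.finrank ℝ (oc X) := by omega
  have hc1 : 0 ≤ (1 + 1 / (25 * M ^ 2)) / ((Module.finrank ℝ V : ℝ) * √b) := by positivity
  have hI0 : 0 ≤ av (oc X) (fun y => ‖E.starProjection (U y)‖ ^ 2) := av_nonneg _ fun y => sq_nonneg _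
  have mH := f7_mHS M b E
  have hB0 : 0 ≤ av E (fun u => avo (oc X) u ((HS M b E)ᶜ.indicator (fun _ => 1))) := by
    apply av_nonneg
    intro u
    rw [avo_eq]
    exact av_nonneg _ fun y => indicator_nonneg (fun _ _ => zero_le_one) _
  by_cases hG : X ∈ GP n M E
  · rw [indicator_of_notMem (by simpa using hG), mul_zero, add_zero]
    have hup := up_pair hP hE (W := oc X) (by omega) hG hU h1
    rw [← hb] at hup
    -- splitting
    have hsplit : ∀ u : V, ‖u‖ ≤ 1 → ps U X u ≤
        ‖(oc X).starProjection u‖ * avo (oc X) u ((HS M b E).indicator (fun y => ⟪U y, u⟫ ^ 2)) +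
          S * avo (oc X) u ((HS M b E)ᶜ.indicator (fun _ => 1)) := by
      intro u hu
      have e1 : avo (oc X) u (fun y => ⟪U y, u⟫ ^ 2) =
          avo (oc X) u ((HS M b E).indicator (fun y => ⟪U y, u⟫ ^ 2)) +
            avo (oc X) u ((HS M b E)ᶜ.indicator (fun y => ⟪U y, u⟫ ^ 2)) := by
        rw [avo_eq, avo_eq, avo_eq, ← av_add (C := 1)]
        · congr 1
          ext y
          exact (indicator_self_add_compl_apply (HS M b E) (fun y => ⟪U y, u⟫ ^ 2) y).symm
        · exact ((hU.inner measurable_const).pow_const 2).indicator mH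
        · exact ((hU.inner measurable_const).pow_const 2).indicator mH.compl
        · intro y
          rw [abs_of_nonneg (indicator_nonneg (fun y _ => sq_nonneg _) _)]
          exact indicator_le' (f := fun y => ⟪U y, u⟫ ^ 2) (g := fun _ => 1) (fun y _ => f7_in h1 hu y)
            (fun y _ => zero_le_one) y
        · intro y
          rw [abs_of_nonneg (indicator_nonneg (fun y _ => sq_nonneg _) _)]
          exact indicator_le' (f := fun y => ⟪U y, u⟫ ^ 2) (g := fun _ => 1) (fun y _ => f7_in h1 hu y)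
            (fun y _ => zero_le_one) y
      unfold ps
      rw [e1, rv_eq, mul_add]
      apply add_le_add le_rfl
      have h3 := f7_S hW2 hU h1 hS hu mH.compl
      have h4 : 0 ≤ avo (oc X) u ((HS M b E)ᶜ.indicator (fun y => ⟪U y, u⟫ ^ 2)) := by
        rw [avo_eq]
        exact av_nonneg _ fun y => indicator_nonneg (fun y _ => sq_nonneg _) _
      have h5 : ‖(oc X).starProjection u‖ ≤ 1 := ((oc X).norm_starProjection_apply_le _).trans hu
      exact (mul_le_of_le_one_left h4 h5).trans h3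
    have hA : av E (fun u => ps U X (nrm u)) ≤ av E (fun u =>
        ‖(oc X).starProjection (nrm u)‖ * avo (oc X) (nrm u) ((HS M b E).indicator (fun y => ⟪U y, nrm u⟫ ^ 2)) +
          S * avo (oc X) (nrm u) ((HS M b E)ᶜ.indicator (fun _ => 1))) := by
      refine av_mono E (C := 1 + S) ?_ ?_ ?_ ?_ ?_
      · exact (f7_ps_meas hU).comp (measurable_nrm.prodMk measurable_const)
      · exact ((((oc X).starProjection.continuous.measurable.comp measurable_nrm).norm).mul
          (meas_avo' (oc X) measurable_nrm (f7_mind hU mH))).add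
          ((meas_avo' (oc X) measurable_nrm (f7_mone mH.compl)).const_mul S)
      · intro u
        rw [abs_of_nonneg (f7_ps_nn U X _)]
        linarith [f7_ps_le h1 X (norm_nrm_le u)]
      · intro u
        have hA1 : 0 ≤ avo (oc X) (nrm u) ((HS M b E).indicator (fun y => ⟪U y, nrm u⟫ ^ 2)) ∧
            avo (oc X) (nrm u) ((HS M b E).indicator (fun y => ⟪U y, nrm u⟫ ^ 2)) ≤ 1 := by
          rw [avo_eq]
          constructor
          · exact av_nonneg _ fun y => indicator_nonneg (fun _ _ => sq_nonneg _) _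
          · exact av_le _ (fun y => indicator_nonneg (fun _ _ => sq_nonneg _) _)
              (fun y => indicator_le' (f := fun y => ⟪U y, nrm u⟫ ^ 2) (g := fun _ => 1)
                (fun y _ => f7_in h1 (norm_nrm_le u) y) (fun _ _ => zero_le_one) y)
        have hA2 : ‖(oc X).starProjection (nrm u)‖ ≤ 1 :=
          ((oc X).norm_starProjection_apply_le _).trans (norm_nrm_le u)
        have hA3 := f7_ind1 (W := oc X) (v := nrm u) (A := (HS M b E)ᶜ)
        rw [abs_of_nonneg (add_nonneg (mul_nonneg (norm_nonneg _) hA1.1) (mul_nonneg hS0 hA3.1))]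
        exact add_le_add (mul_le_one₀ hA2 hA1.1 hA1.2) (mul_le_of_le_one_right hS0 hA3.2)
      · intro u
        exact hsplit _ (norm_nrm_le u)
    refine hA.trans ?_
    have mA1 : Measurable fun u => ‖(oc X).starProjection (nrm u)‖ *
        avo (oc X) (nrm u) ((HS M b E).indicator (fun y => ⟪U y, nrm u⟫ ^ 2)) :=
      (((oc X).starProjection.continuous.measurable.comp measurable_nrm).norm).mul
          (meas_avo' (oc X) measurable_nrm (f7_mind hU mH))
    have mA2 : Measurable fun u => avo (oc X) (nrm u) ((HS M b E)ᶜ.indicator (fun _ : V => (1 : ℝ))) :=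
      meas_avo' (oc X) measurable_nrm (f7_mone mH.compl)
    rw [av_add (C := 1 + S) E mA1 (mA2.const_mul S)]
    · apply add_le_add
      · refine le_trans (le_of_eq ?_) hup
        apply f7_congr
        intro u
        rw [f7_nn]
        rfl
      · rw [av_mul]
        apply mul_le_mul_of_nonneg_left _ hS0
        apply le_of_eq
        apply f7_congr
        intro u
        rw [f7_nn]
    · intro u
      have hA1 : 0 ≤ avo (oc X) (nrm u) ((HS M b E).indicator (fun y => ⟪U y, nrm u⟫ ^ 2)) ∧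
          avo (oc X) (nrm u) ((HS M b E).indicator (fun y => ⟪U y, nrm u⟫ ^ 2)) ≤ 1 := by
        rw [avo_eq]
        constructor
        · exact av_nonneg _ fun y => indicator_nonneg (fun _ _ => sq_nonneg _) _
        · exact av_le _ (fun y => indicator_nonneg (fun _ _ => sq_nonneg _) _)
            (fun y => indicator_le' (f := fun y => ⟪U y, nrm u⟫ ^ 2) (g := fun _ => 1)
              (fun y _ => f7_in h1 (norm_nrm_le u) y) (fun _ _ => zero_le_one) y)
      have hA2 : ‖(oc X).starProjection (nrm u)‖ ≤ 1 :=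
        ((oc X).norm_starProjection_apply_le _).trans (norm_nrm_le u)
      rw [abs_of_nonneg (mul_nonneg (norm_nonneg _) hA1.1)]
      have := mul_le_one₀ hA2 hA1.1 hA1.2
      linarith
    · intro u
      have hA3 := f7_ind1 (W := oc X) (v := nrm u) (A := (HS M b E)ᶜ)
      rw [abs_of_nonneg (mul_nonneg hS0 hA3.1)]
      have := mul_le_of_le_one_right hS0 hA3.2
      linarith
  · rw [indicator_of_mem (by simpa using hG), mul_one]
    have hle : av E (fun u => ps U X (nrm u)) ≤ S := by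
      apply av_le E (fun u => f7_ps_nn U X _)
      intro u
      have h3 := f7_S hW2 hU h1 hS (norm_nrm_le u) MeasurableSet.univ
      rw [indicator_univ] at h3
      have h4 := f7_ind1 (W := oc X) (v := nrm u) (A := univ)
      have h5 : 0 ≤ avo (oc X) (nrm u) (fun y => ⟪U y, nrm u⟫ ^ 2) := by
        rw [avo_eq]
        exact av_nonneg _ fun y => sq_nonneg _
      have h6 : ‖rv X (nrm u)‖ ≤ 1 := (norm_res_le _ _).trans (norm_nrm_le u)
      unfold ps
      exact (mul_le_of_le_one_left h5 h6).trans (h3.trans (mul_le_of_le_one_right hS0 h4.2))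
    have h7 := mul_nonneg hc1 hI0
    have h8 := mul_nonneg hS0 hB0
    linarith

/-- the numerical part of `up_int` -/
private theorem f7_num2 {M d b δ : ℝ} (hM : 1 ≤ M) (hd : 0 < d) (hb0 : 0 < b) (hδ : 0 < δ)
    (hδ4 : δ * M ^ 4 ≤ 1 / 10 ^ 16) :
    (1 + 1 / (25 * M ^ 2)) / (d * √b) * ((1 + δ) * b) ≤ (1 + 1 / (20 * M ^ 2)) / d * √b := by
  have hM0 : 0 < M := by linarith
  have hs0 : 0 < √b := Real.sqrt_pos.2 hb0
  have hss : √b * √b = b := Real.mul_self_sqrt hb0.le
  obtain ⟨z, hz⟩ : ∃ z : ℝ, z = (M ^ 2)⁻¹ := ⟨_, rfl⟩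
  have hz0 : 0 < z := by rw [hz]; positivity
  have hzM : z * M ^ 2 = 1 := by rw [hz]; exact inv_mul_cancel₀ (by positivity)
  have hz1 : z ≤ 1 := by
    have : (1 : ℝ) ≤ M ^ 2 := one_le_pow₀ hM
    nlinarith
  have e1 : (1 : ℝ) / (20 * M ^ 2) = z / 20 := by rw [hz]; field_simp
  have e2 : (1 : ℝ) / (25 * M ^ 2) = z / 25 := by rw [hz]; field_simp
  have hδz : δ ≤ z / 10 ^ 16 := by
    have h2 : δ * M ^ 2 ≤ 1 / 10 ^ 16 := by
      have h3 : M ^ 2 ≤ M ^ 4 := pow_le_pow_right₀ hM (by norm_num)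
      have h4 : δ * M ^ 2 ≤ δ * M ^ 4 := mul_le_mul_of_nonneg_left h3 hδ.le
      linarith
    calc δ = δ * M ^ 2 * z := by rw [mul_assoc, mul_comm (M ^ 2) z, hzM, mul_one]
      _ ≤ 1 / 10 ^ 16 * z := mul_le_mul_of_nonneg_right h2 hz0.le
      _ = z / 10 ^ 16 := by ring
  rw [e1, e2]
  have h5 : (1 + z / 25) * (1 + δ) ≤ 1 + z / 20 := by nlinarith
  calc (1 + z / 25) / (d * √b) * ((1 + δ) * b) = (1 + z / 25) / (d * √b) * ((1 + δ) * (√b * √b)) := by
        rw [hss]
    _ = (1 + z / 25) * (1 + δ) * (√b / d) := by field_simp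
    _ ≤ (1 + z / 20) * (√b / d) := mul_le_mul_of_nonneg_right h5 (by positivity)
    _ = (1 + z / 20) / d * √b := by ring

theorem up_int {n : ℕ} {M : ℝ} (hP : Par (Module.finrank ℝ V) (n + 1) M) {ρ : Measure V} (hN : Nice (n + 1) M ρ)
    (hI : Iso M ρ) (hj : 0 < en (n + 1) ρ) (hI' : Iso M (Nop (n + 1) ρ)) {τ : Measure V} (hτ : US τ)
    (hτj : 0 < en (n + 1) τ) (hτI : Iso M (Nop (n + 1) τ)) {U : V → V} (hU : Measurable U) (h1 : ∀ y, ‖U y‖ ≤ 1)
    {S : ℝ} (hS : ∀ y, ‖y‖ = 1 → ‖U y‖ ^ 2 ≤ S) :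
    ∫ u, iw n ρ (fun X => ‖rv X u‖ * avo (oc X) u (fun y => ⟪U y, u⟫ ^ 2)) ∂(Nop (n + 1) τ) ≤
      (1 + 1 / (20 * M ^ 2)) / (Module.finrank ℝ V : ℝ) *
        √(((Module.finrank ℝ V : ℝ) - (n + 1 : ℕ)) / (Module.finrank ℝ V : ℝ)) *
          iw n ρ (fun X => av (oc X) (fun y => ‖U y‖ ^ 2)) +
        3 * pz (Module.finrank ℝ V) * S * en n ρ := by
  have hρ := hN.us
  have := hρ.prob
  have := hτ.prob
  have hd : (0 : ℝ) < Module.finrank ℝ V := hP.d_pos
  have hk0 : (0 : ℝ) < (Module.finrank ℝ V : ℝ) - (n + 1 : ℕ) := hP.k_pos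
  have hdN : 0 < Module.finrank ℝ V := by exact_mod_cast hd
  obtain ⟨hδ, hδ4, -⟩ := dl_small hP
  have hM := hP.one
  have hM0 : 0 < M := by linarith
  set d : ℝ := (Module.finrank ℝ V : ℝ) with hdd
  set b : ℝ := (d - (n + 1 : ℕ)) / d with hb
  set δ : ℝ := dl (Module.finrank ℝ V) M with hδδ
  have hb0 : 0 < b := div_pos hk0 hd
  have hs0 : 0 < √b := Real.sqrt_pos.2 hb0
  have hss : √b * √b = b := Real.mul_self_sqrt hb0.le
  have hS0 : 0 ≤ S := by
    have : Nontrivial V := Module.nontrivial_of_finrank_pos hdN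
    obtain ⟨x, hx⟩ := exists_norm_eq V (zero_le_one (α := ℝ))
    exact (sq_nonneg _).trans (hS x hx)
  set c1 : ℝ := (1 + 1 / (25 * M ^ 2)) / (d * √b) with hc1
  have hc10 : 0 ≤ c1 := by positivity
  set pzd : ℝ := pz (Module.finrank ℝ V) with hpz
  have hpz0 : 0 ≤ pzd := by rw [hpz, pz]; positivity
  have hen0 : 0 ≤ en n ρ := by
    have := en_ratio hP hN hI
    by_contra hneg
    have h2 : (1 + 2 * δ) * √b * en n ρ ≤ 0 :=
      mul_nonpos_of_nonneg_of_nonpos (by positivity) (not_le.1 hneg).le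
    linarith [this.2]
  -- the function
  have mφ : Measurable (fun u => iw n ρ (fun X => ps U X u)) :=
    f7_meas_iw ρ (Ψ := fun u X => ps U X u) (f7_ps_meas hU)
  have hφ1 : ∀ u, ‖u‖ ≤ 1 → |iw n ρ (fun X => ps U X u)| ≤ 1 := by
    intro u hu
    apply f7_iw_le hρ
    intro X
    rw [abs_of_nonneg (f7_ps_nn U X u)]
    exact f7_ps_le h1 X hu
  have hint := nop_int hτ hτj mφ hφ1
  have hU2 : ∀ y, ‖U y‖ ^ 2 ≤ 1 := fun y => pow_le_one₀ (norm_nonneg _) (h1 y)
  have hEU : ∀ (m : ℕ) (X : Fin m → V) y, ‖rv X (U y)‖ ^ 2 ≤ 1 := fun m X y =>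
    pow_le_one₀ (norm_nonneg _) ((norm_res_le _ _).trans (h1 y))
  -- step A
  have hA : ∀ Y : Fin (n + 1) → V, wv Y ≠ 0 →
      av (oc Y) (fun u => iw n ρ (fun X => ps U X u)) ≤
        c1 * iw n ρ (fun X => av (oc X) (fun y => ‖rv Y (U y)‖ ^ 2)) + 3 * pzd * S * en n ρ := by
    intro Y hY
    have hE := finrank_oc hY
    have e1 : av (oc Y) (fun u => iw n ρ (fun X => ps U X u)) =
        av (oc Y) (fun u => iw n ρ (fun X => ps U X (nrm u))) := by
      apply f7_congr
      intro u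
      rw [f7_nn]
    have mps : Measurable (Function.uncurry fun (X : Fin n → V) (u : V) => ps U X (nrm u)) :=
      (f7_ps_meas hU).comp ((measurable_nrm.comp measurable_snd).prodMk measurable_fst)
    have e2 := f7_iw_av hρ (oc Y) (Ψ := fun X u => ps U X (nrm u)) mps (C := 1) (by
      intro X u
      rw [abs_of_nonneg (f7_ps_nn U X _)]
      exact f7_ps_le h1 X (norm_nrm_le u))
    rw [e1, ← e2]
    set E := oc Y with hEE
    have mH := f7_mHS M b E
    have mT1 : Measurable fun X : Fin n → V => av (oc X) (fun y => ‖E.starProjection (U y)‖ ^ 2) := by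
      apply meas_av measurable_id (Φ := fun (_ : Fin n → V) y => ‖E.starProjection (U y)‖ ^ 2)
      exact ((E.starProjection.continuous.measurable.comp (hU.comp measurable_snd)).norm).pow_const 2
    have mavo : Measurable (Function.uncurry fun (X : Fin n → V) (u : V) =>
        avo (oc X) u ((HS M b E)ᶜ.indicator (fun _ => (1 : ℝ)))) :=
      meas_avo (β := (Fin n → V) × V) measurable_fst measurable_snd (f7_mone mH.compl)
    have mT2 : Measurable fun X : Fin n → V =>
        av E (fun u => avo (oc X) u ((HS M b E)ᶜ.indicator (fun _ => 1))) :=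
      meas_av' E mavo
    have mG : MeasurableSet (GP n M E) := by
      have h2 := meas_tt (n := n) E
      exact measurableSet_le ((h2.sub_const _).abs) measurable_const
    have mT3 : Measurable ((GP n M E)ᶜ.indicator (fun _ : Fin n → V => (1 : ℝ))) :=
      measurable_const.indicator mG.compl
    have bT1 : ∀ X : Fin n → V, 0 ≤ av (oc X) (fun y => ‖E.starProjection (U y)‖ ^ 2) ∧
        av (oc X) (fun y => ‖E.starProjection (U y)‖ ^ 2) ≤ 1 := fun X =>
      ⟨av_nonneg _ fun y => sq_nonneg _, av_le _ (fun y => sq_nonneg _) fun y =>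
        pow_le_one₀ (norm_nonneg _) ((E.norm_starProjection_apply_le _).trans (h1 y))⟩
    have bT2 : ∀ X : Fin n → V, 0 ≤ av E (fun u => avo (oc X) u ((HS M b E)ᶜ.indicator (fun _ => 1))) ∧
        av E (fun u => avo (oc X) u ((HS M b E)ᶜ.indicator (fun _ => 1))) ≤ 1 := fun X =>
      ⟨av_nonneg _ fun u => f7_ind1.1, av_le _ (fun u => f7_ind1.1) fun u => f7_ind1.2⟩
    have bT3 : ∀ X : Fin n → V, 0 ≤ (GP n M E)ᶜ.indicator (fun _ => (1 : ℝ)) X ∧
        (GP n M E)ᶜ.indicator (fun _ => (1 : ℝ)) X ≤ 1 := fun X =>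
      ⟨indicator_nonneg (fun _ _ => zero_le_one) _,
        indicator_le' (f := fun _ => (1 : ℝ)) (g := fun _ => 1) (fun _ _ => le_rfl)
        (fun _ _ => zero_le_one) X⟩
    have hmono : iw n ρ (fun X => av E (fun u => ps U X (nrm u))) ≤
        iw n ρ (fun X => c1 * av (oc X) (fun y => ‖E.starProjection (U y)‖ ^ 2) +
          (S * av E (fun u => avo (oc X) u ((HS M b E)ᶜ.indicator (fun _ => 1))) +
            S * (GP n M E)ᶜ.indicator (fun _ => 1) X)) := by
      refine iw_mono hρ (C := 1 + (c1 + (S + S))) ?_ ?_ ?_ ?_ ?_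
      · exact meas_av' E mps
      · exact (mT1.const_mul _).add ((mT2.const_mul _).add (mT3.const_mul _))
      · intro X
        have h2 : 0 ≤ av E (fun u => ps U X (nrm u)) := av_nonneg _ fun u => f7_ps_nn U X _
        have h3 : av E (fun u => ps U X (nrm u)) ≤ 1 :=
          av_le _ (fun u => f7_ps_nn U X _) fun u => f7_ps_le h1 X (norm_nrm_le u)
        rw [abs_of_nonneg h2]
        linarith
      · intro X
        rw [abs_of_nonneg (add_nonneg (mul_nonneg hc10 (bT1 X).1)
          (add_nonneg (mul_nonneg hS0 (bT2 X).1) (mul_nonneg hS0 (bT3 X).1)))]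
        have h2 := mul_le_of_le_one_right hc10 (bT1 X).2
        have h3 := mul_le_of_le_one_right hS0 (bT2 X).2
        have h4 := mul_le_of_le_one_right hS0 (bT3 X).2
        linarith
      · intro X hX _
        exact f7_pt hP hE hX hU h1 hS hS0
    refine hmono.trans ?_
    have habs : ∀ {c t : ℝ}, 0 ≤ c → 0 ≤ t ∧ t ≤ 1 → |c * t| ≤ c := by
      intro c t hc ht
      rw [abs_of_nonneg (mul_nonneg hc ht.1)]
      exact mul_le_of_le_one_right hc ht.2
    have a1 := iw_add hρ (C := c1 + (S + S))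
      (Φ := fun X => c1 * av (oc X) (fun y => ‖E.starProjection (U y)‖ ^ 2))
      (Ψ := fun X => S * av E (fun u => avo (oc X) u ((HS M b E)ᶜ.indicator (fun _ => 1))) +
            S * (GP n M E)ᶜ.indicator (fun _ => 1) X)
      (mT1.const_mul _) ((mT2.const_mul _).add (mT3.const_mul _))
      (fun X => (habs hc10 (bT1 X)).trans (by linarith))
      (fun X => (abs_add_le _ _).trans ((add_le_add (habs hS0 (bT2 X)) (habs hS0 (bT3 X))).trans (by linarith)))
    have a2 := iw_add hρ (C := S)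
      (Φ := fun X => S * av E (fun u => avo (oc X) u ((HS M b E)ᶜ.indicator (fun _ => 1))))
      (Ψ := fun X => S * (GP n M E)ᶜ.indicator (fun _ => 1) X)
      (mT2.const_mul _) (mT3.const_mul _) (fun X => habs hS0 (bT2 X)) (fun X => habs hS0 (bT3 X))
    rw [a1, a2, iw_mul, iw_mul, iw_mul]
    have hT2 : iw n ρ (fun X => av E (fun u => avo (oc X) u ((HS M b E)ᶜ.indicator (fun _ => 1)))) ≤
        2 * pzd * en n ρ := by
      rw [f7_iw_av hρ E (Ψ := fun X u => avo (oc X) u ((HS M b E)ᶜ.indicator (fun _ => 1))) mavo (C := 1)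
        (fun X u => by rw [abs_of_nonneg f7_ind1.1]; exact f7_ind1.2)]
      apply av_le E
      · intro u
        exact f7_iw_nn fun X => f7_ind1.1
      · intro u
        exact good_dir hP hN hI hj hI' hE u
    have hT3 : iw n ρ ((GP n M E)ᶜ.indicator (fun _ => 1)) ≤ pzd * en n ρ := good_pair hP hN hI hj hI' hE
    have h4 := mul_le_mul_of_nonneg_left hT2 hS0
    have h5 := mul_le_mul_of_nonneg_left hT3 hS0
    have e3 : ∀ X : Fin n → V, av (oc X) (fun y => ‖rv Y (U y)‖ ^ 2) =
        av (oc X) (fun y => ‖E.starProjection (U y)‖ ^ 2) := by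
      intro X
      simp only [rv_eq, hEE]
    simp only [e3]
    have h6 : S * iw n ρ ((GP n M E)ᶜ.indicator (fun _ => 1)) =
      S * iw n ρ (fun X => (GP n M E)ᶜ.indicator (fun _ => 1) X) := rfl
    rw [h6] at h5
    linarith
  -- step B
  have mB : Measurable (Function.uncurry fun (Y : Fin (n + 1) → V) (X : Fin n → V) =>
      av (oc X) (fun y => ‖rv Y (U y)‖ ^ 2)) := by
    apply meas_av (β := (Fin (n + 1) → V) × (Fin n → V)) measurable_snd
      (Φ := fun p y => ‖rv p.1 (U y)‖ ^ 2)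
    exact ((meas_rv.comp ((measurable_fst.comp measurable_fst).prodMk
      (hU.comp measurable_snd))).norm).pow_const 2
  have bB : ∀ (Y : Fin (n + 1) → V) (X : Fin n → V), 0 ≤ av (oc X) (fun y => ‖rv Y (U y)‖ ^ 2) ∧
      av (oc X) (fun y => ‖rv Y (U y)‖ ^ 2) ≤ 1 := fun Y X =>
    ⟨av_nonneg _ fun y => sq_nonneg _, av_le _ (fun y => sq_nonneg _) fun y => hEU _ Y y⟩
  have mB' : Measurable fun Y : Fin (n + 1) → V =>
      iw n ρ (fun X => av (oc X) (fun y => ‖rv Y (U y)‖ ^ 2)) := f7_meas_iw ρ mB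
  have bB' : ∀ Y : Fin (n + 1) → V, |iw n ρ (fun X => av (oc X) (fun y => ‖rv Y (U y)‖ ^ 2))| ≤ 1 := by
    intro Y
    apply f7_iw_le hρ
    intro X
    rw [abs_of_nonneg (bB Y X).1]
    exact (bB Y X).2
  have hK0 : 0 ≤ 3 * pzd * S * en n ρ := by positivity
  have hB : iw (n + 1) τ (fun Y => av (oc Y) (fun u => iw n ρ (fun X => ps U X u))) ≤
      c1 * iw (n + 1) τ (fun Y => iw n ρ (fun X => av (oc X) (fun y => ‖rv Y (U y)‖ ^ 2))) +
        3 * pzd * S * en n ρ * en (n + 1) τ := by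
    have h2 : iw (n + 1) τ (fun Y => av (oc Y) (fun u => iw n ρ (fun X => ps U X u))) ≤
        iw (n + 1) τ (fun Y => c1 * iw n ρ (fun X => av (oc X) (fun y => ‖rv Y (U y)‖ ^ 2)) +
          3 * pzd * S * en n ρ) := by
      refine iw_mono hτ (C := 1 + (c1 + 3 * pzd * S * en n ρ)) ?_ ?_ ?_ ?_ ?_
      · apply meas_av measurable_id (Φ := fun (_ : Fin (n + 1) → V) u => iw n ρ (fun X => ps U X u))
        exact mφ.comp measurable_snd
      · exact (mB'.const_mul c1).add measurable_const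
      · intro Y
        have e1 : av (oc Y) (fun u => iw n ρ (fun X => ps U X u)) =
            av (oc Y) (fun u => iw n ρ (fun X => ps U X (nrm u))) := by
          apply f7_congr
          intro u
          rw [f7_nn]
        have h3 : 0 ≤ av (oc Y) (fun u => iw n ρ (fun X => ps U X (nrm u))) :=
          av_nonneg _ fun u => f7_iw_nn fun X => f7_ps_nn U X _
        have h4 : av (oc Y) (fun u => iw n ρ (fun X => ps U X (nrm u))) ≤ 1 :=
          av_le _ (fun u => f7_iw_nn fun X => f7_ps_nn U X _)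
            fun u => (le_abs_self _).trans (hφ1 _ (norm_nrm_le u))
        rw [e1, abs_of_nonneg h3]
        linarith
      · intro Y
        refine (abs_add_le _ _).trans ?_
        rw [abs_mul, abs_of_nonneg hc10, abs_of_nonneg hK0]
        have h3 := mul_le_of_le_one_right hc10 (bB' Y)
        linarith
      · intro Y hY _
        exact hA Y hY
    refine h2.trans ?_
    rw [iw_add hτ (C := c1 + 3 * pzd * S * en n ρ) (mB'.const_mul c1) measurable_const, iw_mul, iw_const]
    · intro Y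
      rw [abs_mul, abs_of_nonneg hc10]
      have h3 := mul_le_of_le_one_right hc10 (bB' Y)
      linarith
    · intro Y
      rw [abs_of_nonneg hK0]
      linarith
  -- step C
  have hw : ∀ w : V, iw (n + 1) τ (fun Y => ‖rv Y w‖ ^ 2) ≤ (1 + δ) * b * en (n + 1) τ * ‖w‖ ^ 2 := by
    intro w
    have hlt : n + 1 < Module.finrank ℝ V := hP.hjd
    have h2 := nop_inner hτ hτj hlt w w
    have h3 : (fun Y : Fin (n + 1) → V => ⟪rv Y w, w⟫) = fun Y => ‖rv Y w‖ ^ 2 := by
      ext Y
      rw [rv_eq, ← real_inner_self_eq_norm_sq,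
        Submodule.inner_starProjection_left_eq_right (oc Y) w ((oc Y).starProjection w),
        Submodule.starProjection_eq_self_iff.2 (Submodule.starProjection_apply_mem _ _), real_inner_comm]
    rw [h3] at h2
    rw [← h2]
    have h4 := (hτI w).2
    rw [← hdd, ← hδδ] at h4
    have h5 : ∫ x, ⟪x, w⟫ * ⟪x, w⟫ ∂(Nop (n + 1) τ) = ∫ x, ⟪x, w⟫ ^ 2 ∂(Nop (n + 1) τ) := by
      congr 1
      ext x
      ring
    rw [h5]
    calc (d - (n + 1 : ℕ)) * en (n + 1) τ * ∫ x, ⟪x, w⟫ ^ 2 ∂(Nop (n + 1) τ)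
        = b * en (n + 1) τ * (d * ∫ x, ⟪x, w⟫ ^ 2 ∂(Nop (n + 1) τ)) := by
          rw [hb]
          field_simp
      _ ≤ b * en (n + 1) τ * ((1 + δ) * ‖w‖ ^ 2) := mul_le_mul_of_nonneg_left h4 (by positivity)
      _ = (1 + δ) * b * en (n + 1) τ * ‖w‖ ^ 2 := by ring
  have hC : iw (n + 1) τ (fun Y => iw n ρ (fun X => av (oc X) (fun y => ‖rv Y (U y)‖ ^ 2))) ≤
      (1 + δ) * b * en (n + 1) τ * iw n ρ (fun X => av (oc X) (fun y => ‖U y‖ ^ 2)) := by
    rw [f7_iw_iw hτ hρ (F := fun Y X => av (oc X) (fun y => ‖rv Y (U y)‖ ^ 2)) mB (C := 1)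
      (fun Y X => by rw [abs_of_nonneg (bB Y X).1]; exact (bB Y X).2), ← iw_mul]
    have mR : Measurable (Function.uncurry fun (Y : Fin (n + 1) → V) (y : V) => ‖rv Y (U y)‖ ^ 2) :=
      ((meas_rv.comp (measurable_fst.prodMk (hU.comp measurable_snd))).norm).pow_const 2
    have mUn : Measurable fun y => ‖U y‖ ^ 2 := hU.norm.pow_const 2
    have hK : 0 ≤ (1 + δ) * b * en (n + 1) τ := by positivity
    refine iw_mono hρ (C := 1 + (1 + δ) * b * en (n + 1) τ) ?_ ?_ ?_ ?_ ?_
    · apply f7_meas_iw τ (Ψ := fun (X : Fin n → V) (Y : Fin (n + 1) → V) =>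
        av (oc X) (fun y => ‖rv Y (U y)‖ ^ 2))
      apply meas_av (β := (Fin n → V) × (Fin (n + 1) → V)) measurable_fst
        (Φ := fun p y => ‖rv p.2 (U y)‖ ^ 2)
      exact ((meas_rv.comp ((measurable_snd.comp measurable_fst).prodMk
        (hU.comp measurable_snd))).norm).pow_const 2
    · apply Measurable.const_mul
      exact meas_av measurable_id (Φ := fun (_ : Fin n → V) y => ‖U y‖ ^ 2) (mUn.comp measurable_snd)
    · intro X
      have h2 := f7_iw_le hτ (Φ := fun Y : Fin (n + 1) → V => av (oc X) (fun y => ‖rv Y (U y)‖ ^ 2)) (C := 1)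
        (fun Y => by rw [abs_of_nonneg (bB Y X).1]; exact (bB Y X).2)
      linarith
    · intro X
      have h2 : 0 ≤ av (oc X) (fun y => ‖U y‖ ^ 2) := av_nonneg _ fun y => sq_nonneg _
      have h3 : av (oc X) (fun y => ‖U y‖ ^ 2) ≤ 1 := av_le _ (fun y => sq_nonneg _) hU2
      rw [abs_of_nonneg (mul_nonneg hK h2)]
      have := mul_le_of_le_one_right hK h3
      linarith
    · intro X _ _
      rw [f7_iw_av hτ (oc X) (Ψ := fun Y y => ‖rv Y (U y)‖ ^ 2) mR (C := 1)
        (fun Y y => by rw [abs_of_nonneg (sq_nonneg _)]; exact hEU _ Y y), ← av_mul]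
      refine av_mono _ (C := 1 + (1 + δ) * b * en (n + 1) τ) ?_ (mUn.const_mul _) ?_ ?_ ?_
      · exact f7_meas_iw τ (Ψ := fun (y : V) (Y : Fin (n + 1) → V) => ‖rv Y (U y)‖ ^ 2)
          (((meas_rv.comp (measurable_snd.prodMk (hU.comp measurable_fst))).norm).pow_const 2)
      · intro y
        have h2 := f7_iw_le hτ (Φ := fun Y : Fin (n + 1) → V => ‖rv Y (U y)‖ ^ 2) (C := 1)
          (fun Y => by rw [abs_of_nonneg (sq_nonneg _)]; exact hEU _ Y y)
        linarith
      · intro y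
        rw [abs_of_nonneg (mul_nonneg hK (sq_nonneg _))]
        have := mul_le_of_le_one_right hK (hU2 y)
        linarith
      · intro y
        exact hw (U y)
  -- conclusion
  have hI0 : 0 ≤ iw n ρ (fun X => av (oc X) (fun y => ‖U y‖ ^ 2)) :=
    f7_iw_nn fun X => av_nonneg _ fun y => sq_nonneg _
  have hconst : c1 * ((1 + δ) * b) ≤ (1 + 1 / (20 * M ^ 2)) / d * √b := by
    rw [hc1]
    exact f7_num2 hM hd hb0 hδ hδ4
  have hfin : en (n + 1) τ * ∫ u, iw n ρ (fun X => ps U X u) ∂(Nop (n + 1) τ) ≤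
      en (n + 1) τ * ((1 + 1 / (20 * M ^ 2)) / d * √b * iw n ρ (fun X => av (oc X) (fun y => ‖U y‖ ^ 2)) +
        3 * pzd * S * en n ρ) := by
    rw [hint]
    refine hB.trans ?_
    have h2 := mul_le_mul_of_nonneg_left hC hc10
    have h3 : c1 * ((1 + δ) * b * en (n + 1) τ * iw n ρ (fun X => av (oc X) (fun y => ‖U y‖ ^ 2))) =
        c1 * ((1 + δ) * b) * (en (n + 1) τ * iw n ρ (fun X => av (oc X) (fun y => ‖U y‖ ^ 2))) := by ring
    have h4 := mul_le_mul_of_nonneg_right hconst (mul_nonneg hτj.le hI0)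
    rw [h3] at h2
    linarith
  exact le_of_mul_le_mul_left hfin hτj

end Pool.Agent.PBL
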