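import Pool.Agent.PBL.G1
import Pool.Agent.PBL.D1
import Pool.Agent.PBL.C3

/-! Module PBL-G2: the equation of the tangential part of the gradient, from the rotation identity,
the leave-one-out formula and the sign moments on subspheres. -/

set_option autoImplicit false

namespace Pool.Agent.PBL
open MeasureTheory ProbabilityTheory Set Filter Topology Metric
open Pool.Agent.HP89 Pool.Agent.FI75
open scoped RealInnerProductSpace ENNReal

variable {V : Type*} [NormedAddCommGroup V] [InnerProductSpace ℝ V] [FiniteDimensional ℝ V]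
  [MeasurableSpace V] [BorelSpace V]

private theorem meas_sgn : Measurable Real.sign := by
  unfold Real.sign
  exact Measurable.ite (measurableSet_lt measurable_id measurable_const) measurable_const
    (Measurable.ite (measurableSet_lt measurable_const measurable_id) measurable_const
      measurable_const)

private theorem abs_sgn_le (r : ℝ) : |Real.sign r| ≤ 1 := by
  rcases Real.sign_apply_eq r with h | h | h
  · rw [h]; norm_num
  · rw [h]; norm_num
  · rw [h]; norm_num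

private theorem gr_inner {μ : Measure V} (hμ : US μ) (w z : V) :
    ⟪Gr μ w, z⟫ = ∫ x, Real.sign ⟪x, w⟫ * ⟪x, z⟫ ∂μ := by
  haveI := hμ.prob
  have h1 : Integrable (fun x : V => Real.sign ⟪x, w⟫ • x) μ := by
    refine Integrable.of_bound ?_ 1 ?_
    · exact ((meas_sgn.comp (measurable_id.inner measurable_const)).smul
        measurable_id).aestronglyMeasurable
    · filter_upwards [hμ.unit] with x hx
      rw [norm_smul, hx, mul_one, Real.norm_eq_abs]
      exact abs_sgn_le _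
  have h2 := integral_inner (𝕜 := ℝ) h1 z
  unfold Gr
  rw [real_inner_comm, ← h2]
  refine integral_congr_ae (Filter.Eventually.of_forall fun x => ?_)
  change ⟪z, Real.sign ⟪x, w⟫ • x⟫ = Real.sign ⟪x, w⟫ * ⟪x, z⟫
  rw [real_inner_smul_right, real_inner_comm x z]

omit [FiniteDimensional ℝ V] [BorelSpace V] in
private theorem uu_inner {w z : V} (μ : Measure V) (h : ⟪w, z⟫ = 0) :
    ⟪UU μ w, z⟫ = ⟪Gr μ w, z⟫ := by
  unfold UU ort
  rw [inner_sub_left, real_inner_smul_left, h, mul_zero, sub_zero]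

/-- the integrand for the list without one vector -/
private noncomputable def rotF {n : ℕ} (u v : V) (X : Fin n → V) (x : V) : ℝ :=
  wv X * ‖rv X u‖ * ⟪nrm (ort (rv X u) (rv X x)), ⟪u, x⟫ • v - ⟪v, x⟫ • u⟫

private theorem rotF_meas {n : ℕ} (u v : V) :
    Measurable (fun p : V × (Fin n → V) => rotF u v p.2 p.1) := by
  unfold rotF
  have h1 : Measurable (fun p : V × (Fin n → V) => rv p.2 u) :=
    (measurable_rv n).comp (measurable_snd.prodMk measurable_const)
  have h2 : Measurable (fun p : V × (Fin n → V) => rv p.2 p.1) :=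
    (measurable_rv n).comp (measurable_snd.prodMk measurable_fst)
  have h3 : Measurable (fun p : V × (Fin n → V) => nrm (ort (rv p.2 u) (rv p.2 p.1))) :=
    measurable_nrm.comp (measurable_ort.comp (h1.prodMk h2))
  have h4 : Measurable (fun p : V × (Fin n → V) => ⟪u, p.1⟫ • v - ⟪v, p.1⟫ • u) :=
    ((measurable_const.inner measurable_fst).smul measurable_const).sub
      ((measurable_const.inner measurable_fst).smul measurable_const)
  exact ((((measurable_wv n).comp measurable_snd).mul h1.norm).mul (h3.inner h4))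

private theorem skew_le {u v x : V} (hu : ‖u‖ = 1) (hx : ‖x‖ = 1) :
    ‖⟪u, x⟫ • v - ⟪v, x⟫ • u‖ ≤ 2 * ‖v‖ := by
  refine (norm_sub_le _ _).trans ?_
  rw [norm_smul, norm_smul, hu, mul_one, Real.norm_eq_abs, Real.norm_eq_abs]
  have h1 := abs_real_inner_le_norm u x
  have h2 := abs_real_inner_le_norm v x
  rw [hu, hx] at h1
  rw [hx] at h2
  have h3 : |⟪u, x⟫| * ‖v‖ ≤ 1 * ‖v‖ :=
    mul_le_mul_of_nonneg_right (by linarith) (norm_nonneg _)
  linarith

private theorem rotF_le {n : ℕ} {u v : V} (hu : ‖u‖ = 1) {X : Fin n → V} {x : V}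
    (hX0 : 0 ≤ wv X) (hX : wv X ≤ 1) (hx : ‖x‖ = 1) : ‖rotF u v X x‖ ≤ 2 * ‖v‖ := by
  unfold rotF
  rw [norm_mul, norm_mul, Real.norm_of_nonneg hX0, norm_norm, Real.norm_eq_abs]
  have h1 : ‖rv X u‖ ≤ 1 := (norm_res_le _ _).trans hu.le
  have h2 := abs_real_inner_le_norm (nrm (ort (rv X u) (rv X x))) (⟪u, x⟫ • v - ⟪v, x⟫ • u)
  have h3 := norm_nrm_le (ort (rv X u) (rv X x))
  have h4 := skew_le (v := v) hu hx
  have h5 : wv X * ‖rv X u‖ ≤ 1 := mul_le_one₀ hX (norm_nonneg _) h1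
  have h6 : ‖nrm (ort (rv X u) (rv X x))‖ * ‖⟪u, x⟫ • v - ⟪v, x⟫ • u‖ ≤ 1 * (2 * ‖v‖) :=
    mul_le_mul h3 h4 (norm_nonneg _) zero_le_one
  have h7 : 0 ≤ wv X * ‖rv X u‖ := mul_nonneg hX0 (norm_nonneg _)
  calc wv X * ‖rv X u‖ * |⟪nrm (ort (rv X u) (rv X x)), ⟪u, x⟫ • v - ⟪v, x⟫ • u⟫|
      ≤ 1 * (1 * (2 * ‖v‖)) := mul_le_mul h5 (h2.trans h6) (abs_nonneg _) zero_le_one
    _ = 2 * ‖v‖ := by ring

private theorem rotF_int {ρ : Measure V} (hρ : US ρ) {n : ℕ} {u v : V} (hu : ‖u‖ = 1) :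
    Integrable (fun p : V × (Fin n → V) => rotF u v p.2 p.1) (ρ.prod (pp n ρ)) := by
  haveI := hρ.prob
  refine Integrable.of_bound (rotF_meas u v).aestronglyMeasurable (2 * ‖v‖) ?_
  have h1 : ∀ᵐ p ∂(ρ.prod (pp n ρ)), ‖p.1‖ = 1 :=
    Measure.quasiMeasurePreserving_fst.ae hρ.unit
  have h2 : ∀ᵐ p ∂(ρ.prod (pp n ρ)), 0 ≤ wv p.2 ∧ wv p.2 ≤ 1 :=
    Measure.quasiMeasurePreserving_snd.ae (ae_wv_le hρ n)
  filter_upwards [h1, h2] with p hp1 hp2
  exact rotF_le hu hp2.1 hp2.2 hp1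

private theorem rot_int {ρ : Measure V} (hρ : US ρ) {n : ℕ} {u v : V} (hu : ‖u‖ = 1)
    (huv : ⟪u, v⟫ = 0) :
    iw (n + 1) ρ (fun X => ⟪nrm (rv X u), v⟫) =
      -((n : ℝ) + 1) * iw n ρ (fun X => ‖rv X u‖ *
        ∫ x, ⟪nrm (ort (rv X u) (rv X x)), ⟪u, x⟫ • v - ⟪v, x⟫ • u⟫ ∂ρ) := by
  haveI := hρ.prob
  have hG := rotF_int (n := n) (v := v) hρ hu
  have hmp : ∀ i : Fin (n + 1), MeasurePreserving
      (MeasurableEquiv.piFinSuccAbove (fun _ : Fin (n + 1) => V) i) (pp (n + 1) ρ)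
      (ρ.prod (pp n ρ)) := fun i => measurePreserving_piFinSuccAbove (fun _ => ρ) i
  have h1 : ∀ i : Fin (n + 1),
      ∫ X, rotF u v (fun m => X (i.succAbove m)) (X i) ∂(pp (n + 1) ρ) =
        iw n ρ (fun X => ‖rv X u‖ *
          ∫ x, ⟪nrm (ort (rv X u) (rv X x)), ⟪u, x⟫ • v - ⟪v, x⟫ • u⟫ ∂ρ) := by
    intro i
    have h2 := (hmp i).integral_comp' (fun p : V × (Fin n → V) => rotF u v p.2 p.1)
    have h3 : (∫ X, rotF u v (fun m => X (i.succAbove m)) (X i) ∂(pp (n + 1) ρ)) =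
        ∫ p, rotF u v p.2 p.1 ∂(ρ.prod (pp n ρ)) := h2
    rw [h3, integral_prod_symm _ hG]
    unfold iw
    refine integral_congr_ae (Filter.Eventually.of_forall fun X => ?_)
    simp only [rotF]
    rw [integral_const_mul, mul_assoc]
  have h4 : ∀ i : Fin (n + 1),
      Integrable (fun X => rotF u v (fun m => X (i.succAbove m)) (X i)) (pp (n + 1) ρ) :=
    fun i => (hmp i).integrable_comp_of_integrable hG
  have h5 : iw (n + 1) ρ (fun X => ⟪nrm (rv X u), v⟫) =
      ∫ X, -∑ i, rotF u v (fun m => X (i.succAbove m)) (X i) ∂(pp (n + 1) ρ) := by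
    unfold iw
    refine integral_congr_ae (Filter.Eventually.of_forall fun X => ?_)
    exact rot_id X hu huv
  rw [h5, integral_neg, integral_finset_sum _ fun i _ => h4 i, Finset.sum_congr rfl
    fun i _ => h1 i, Finset.sum_const, Finset.card_univ, Fintype.card_fin, nsmul_eq_mul]
  push_cast
  ring

/-- the mean over the subsphere -/
private theorem inner_mean {ρ : Measure V} (hρ : US ρ) (W : Submodule ℝ V) (u v : V) {k : ℕ}
    (hk : 1 ≤ k) (hW : Module.finrank ℝ (sb W u) = k) :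
    √(2 / Real.pi) * ∫ x, ⟪nrm (ort (W.starProjection u) (W.starProjection x)),
        ⟪u, x⟫ • v - ⟪v, x⟫ • u⟫ ∂ρ =
      mG k * av (sb W u) (fun ξ => ⟪UU ρ ξ, u⟫ * ⟪ξ, v⟫) := by
  haveI := hρ.prob
  set F := sb W u with hF
  have h1 : ∀ x : V, √(2 / Real.pi) * ⟪nrm (ort (W.starProjection u) (W.starProjection x)),
      ⟪u, x⟫ • v - ⟪v, x⟫ • u⟫ = mG k * ∫ g, Real.sign ⟪nrm (F.starProjection g), x⟫ *
        ⟪nrm (F.starProjection g), ⟪u, x⟫ • v - ⟪v, x⟫ • u⟫ ∂(stdGaussian V) := by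
    intro x
    have h2 := av_sgn F (by omega) x (⟪u, x⟫ • v - ⟪v, x⟫ • u)
    rw [hW, sb_proj] at h2
    rw [← h2]
    rfl
  rw [← integral_const_mul]
  simp only [h1]
  rw [integral_const_mul]
  congr 1
  have hnm : Measurable (fun p : V × V => nrm (F.starProjection p.2)) :=
    measurable_nrm.comp ((F.starProjection.continuous.measurable).comp measurable_snd)
  have hint : Integrable (Function.uncurry fun (x g : V) =>
      Real.sign ⟪nrm (F.starProjection g), x⟫ *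
        ⟪nrm (F.starProjection g), ⟪u, x⟫ • v - ⟪v, x⟫ • u⟫) (ρ.prod (stdGaussian V)) := by
    refine Integrable.of_bound ?_ (2 * (‖u‖ * ‖v‖)) ?_
    · refine Measurable.aestronglyMeasurable ?_
      refine Measurable.mul (meas_sgn.comp (hnm.inner measurable_fst)) (hnm.inner ?_)
      exact ((measurable_const.inner measurable_fst).smul measurable_const).sub
        ((measurable_const.inner measurable_fst).smul measurable_const)
    · have h3 : ∀ᵐ p ∂(ρ.prod (stdGaussian V)), ‖p.1‖ = 1 :=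
        Measure.quasiMeasurePreserving_fst.ae hρ.unit
      filter_upwards [h3] with p hp
      obtain ⟨x, g⟩ := p
      simp only at hp
      simp only [Function.uncurry]
      rw [norm_mul, Real.norm_eq_abs, Real.norm_eq_abs]
      have e1 := abs_sgn_le ⟪nrm (F.starProjection g), x⟫
      have e2 := abs_real_inner_le_norm (nrm (F.starProjection g)) (⟪u, x⟫ • v - ⟪v, x⟫ • u)
      have e3 := norm_nrm_le (F.starProjection g)
      have e4 : ‖⟪u, x⟫ • v - ⟪v, x⟫ • u‖ ≤ 2 * (‖u‖ * ‖v‖) := by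
        refine (norm_sub_le _ _).trans ?_
        rw [norm_smul, norm_smul, Real.norm_eq_abs, Real.norm_eq_abs]
        have e5 := abs_real_inner_le_norm u x
        have e6 := abs_real_inner_le_norm v x
        rw [hp, mul_one] at e5 e6
        have e7 : |⟪u, x⟫| * ‖v‖ ≤ ‖u‖ * ‖v‖ := mul_le_mul_of_nonneg_right e5 (norm_nonneg _)
        have e8 : |⟪v, x⟫| * ‖u‖ ≤ ‖v‖ * ‖u‖ := mul_le_mul_of_nonneg_right e6 (norm_nonneg _)
        linarith [mul_comm ‖u‖ ‖v‖]
      have e9 : ‖nrm (F.starProjection g)‖ * ‖⟪u, x⟫ • v - ⟪v, x⟫ • u‖ ≤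
          1 * (2 * (‖u‖ * ‖v‖)) := mul_le_mul e3 e4 (norm_nonneg _) zero_le_one
      calc |Real.sign ⟪nrm (F.starProjection g), x⟫| *
            |⟪nrm (F.starProjection g), ⟪u, x⟫ • v - ⟪v, x⟫ • u⟫|
          ≤ 1 * (1 * (2 * (‖u‖ * ‖v‖))) :=
            mul_le_mul e1 (e2.trans e9) (abs_nonneg _) zero_le_one
        _ = 2 * (‖u‖ * ‖v‖) := by ring
  rw [integral_integral_swap hint]
  unfold av
  refine integral_congr_ae (Filter.Eventually.of_forall fun g => ?_)
  simp only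
  have hmem : nrm (F.starProjection g) ∈ F :=
    F.smul_mem _ (Submodule.starProjection_apply_mem F g)
  have hξ : ⟪nrm (F.starProjection g), u⟫ = 0 := inner_sb hmem
  rw [uu_inner ρ hξ, gr_inner hρ, ← integral_mul_const]
  refine integral_congr_ae (Filter.Eventually.of_forall fun x => ?_)
  simp only
  rw [inner_sub_right, real_inner_smul_right, real_inner_smul_right, hξ, mul_zero, sub_zero,
    real_inner_comm x, real_inner_comm u x]
  ring

theorem meas_UU {ρ : Measure V} (hρ : US ρ) : Measurable (UU ρ) := by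
  haveI := hρ.prob
  have h1 : Measurable (fun p : V × V => Real.sign ⟪p.2, p.1⟫ • p.2) :=
    (meas_sgn.comp (measurable_snd.inner measurable_fst)).smul measurable_snd
  have h2 : StronglyMeasurable (fun u : V => ∫ x, Real.sign ⟪x, u⟫ • x ∂ρ) :=
    h1.stronglyMeasurable.integral_prod_right'
  unfold UU
  exact measurable_ort.comp (measurable_id.prodMk h2.measurable)


theorem norm_UU_le {ρ : Measure V} (hρ : US ρ) (u : V) : ‖UU ρ u‖ ≤ 1 := by
  haveI := hρ.prob
  refine (norm_ort_le _ _).trans ?_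
  unfold Gr
  have h1 : ∀ᵐ x ∂ρ, ‖Real.sign ⟪x, u⟫ • x‖ ≤ 1 := by
    filter_upwards [hρ.unit] with x hx
    rw [norm_smul, hx, mul_one, Real.norm_eq_abs]
    exact abs_sgn_le _
  have h2 := norm_integral_le_of_norm_le_const h1
  simpa using h2


theorem inner_UU (ρ : Measure V) (u : V) : ⟪u, UU ρ u⟫ = 0 := by
  unfold UU
  exact inner_ort _ _


theorem eq_UU {n : ℕ} (hjd : n + 1 < Module.finrank ℝ V) {ρ : Measure V} (hρ : US ρ) (hj : 0 < en (n + 1) ρ) {u v : V}
    (hu : ‖u‖ = 1) (huv : ⟪u, v⟫ = 0) :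
    en (n + 1) ρ * ⟪UU (Nop (n + 1) ρ) u, v⟫ =
      -((n : ℝ) + 1) * iw n ρ (fun X => ‖rv X u‖ * avo (oc X) u (fun ξ => ⟪UU ρ ξ, u⟫ * ⟪ξ, v⟫)) := by
  classical
  haveI := hρ.prob
  have hN : US (Nop (n + 1) ρ) := nop_us hρ hj hjd
  obtain ⟨k, hk⟩ : ∃ k, Module.finrank ℝ V = k + (n + 1) :=
    ⟨_, (Nat.sub_add_cancel hjd.le).symm⟩
  have hk1 : 1 ≤ k := by omega
  have hmG : 0 < mG k := mG_pos hk1
  -- the left side
  have hab : ⟪UU (Nop (n + 1) ρ) u, v⟫ =
      ∫ x, Real.sign ⟪x, u⟫ * ⟪x, v⟫ ∂(Nop (n + 1) ρ) := by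
    rw [uu_inner _ huv, gr_inner hN]
  have hφm : Measurable (fun x : V => Real.sign ⟪x, u⟫ * ⟪x, v⟫) :=
    (meas_sgn.comp (measurable_id.inner measurable_const)).mul
      (measurable_id.inner measurable_const)
  have hc := nop_int hρ hj (φ := fun x => Real.sign ⟪x, u⟫ * ⟪x, v⟫) hφm (C := ‖v‖) (by
    intro x hx
    rw [abs_mul]
    have h1 := abs_sgn_le ⟪x, u⟫
    have h2 := abs_real_inner_le_norm x v
    have h3 : ‖x‖ * ‖v‖ ≤ 1 * ‖v‖ := mul_le_mul_of_nonneg_right hx (norm_nonneg v)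
    have h4 : |Real.sign ⟪x, u⟫| * |⟪x, v⟫| ≤ 1 * |⟪x, v⟫| :=
      mul_le_mul_of_nonneg_right h1 (abs_nonneg _)
    linarith)
  rw [hab, hc]
  -- mean over the complement
  have hd : mG k * iw (n + 1) ρ (fun X => av (oc X) fun x => Real.sign ⟪x, u⟫ * ⟪x, v⟫) =
      √(2 / Real.pi) * iw (n + 1) ρ (fun X => ⟪nrm (rv X u), v⟫) := by
    rw [← iw_mul, ← iw_mul]
    refine iw_congr hρ fun X hX _ => ?_
    have h1 := finrank_oc hX
    have h2 : Module.finrank ℝ (oc X) = k := by omega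
    have h3 := av_sgn (oc X) (by omega) u v
    rw [h2] at h3
    rw [h3, rv_eq]
  -- rotation identity and leave one out
  have he : iw (n + 1) ρ (fun X => ⟪nrm (rv X u), v⟫) =
      -((n : ℝ) + 1) * iw n ρ (fun X => ‖rv X u‖ *
        ∫ x, ⟪nrm (ort (rv X u) (rv X x)), ⟪u, x⟫ • v - ⟪v, x⟫ • u⟫ ∂ρ) :=
    rot_int hρ hu huv
  -- the inner mean
  have hf : ∀ X : Fin n → V, wv X ≠ 0 →
      √(2 / Real.pi) * (‖rv X u‖ *
        ∫ x, ⟪nrm (ort (rv X u) (rv X x)), ⟪u, x⟫ • v - ⟪v, x⟫ • u⟫ ∂ρ) =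
      mG k * (‖rv X u‖ * avo (oc X) u (fun ξ => ⟪UU ρ ξ, u⟫ * ⟪ξ, v⟫)) := by
    intro X hX
    by_cases h0 : rv X u = 0
    · rw [h0, norm_zero, zero_mul, zero_mul, mul_zero, mul_zero]
    · have h1 := finrank_oc hX
      have h2 : (oc X).starProjection u ≠ 0 := by rwa [← rv_eq]
      have h3 := finrank_sb h2
      have h4 : Module.finrank ℝ (sb (oc X) u) = k := by omega
      have h5 := inner_mean hρ (oc X) u v hk1 h4
      rw [avo_eq, ← mul_assoc, mul_comm (√(2 / Real.pi)), mul_assoc, ← mul_assoc (mG k),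
        mul_comm (mG k), mul_assoc, ← h5]
      simp only [rv_eq]
  refine mul_left_cancel₀ hmG.ne' ?_
  rw [hd, he]
  have hfin : √(2 / Real.pi) * iw n ρ (fun X => ‖rv X u‖ *
        ∫ x, ⟪nrm (ort (rv X u) (rv X x)), ⟪u, x⟫ • v - ⟪v, x⟫ • u⟫ ∂ρ) =
      mG k * iw n ρ (fun X => ‖rv X u‖ * avo (oc X) u (fun ξ => ⟪UU ρ ξ, u⟫ * ⟪ξ, v⟫)) := by
    rw [← iw_mul, ← iw_mul]
    exact iw_congr hρ fun X hX _ => hf X hX
  linear_combination (-((n : ℝ) + 1)) * hfin


end Pool.Agent.PBL
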