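import Pool.Agent.PBL.F4
import Pool.Agent.PBL.F5
import Pool.Agent.PBL.F7
import Pool.Agent.PBL.G2

/-! Module PBL-F8 (contraction of the gradient field). `pt_bound`: the equation `eq_UU` with `v = UU (Nop j ρ) u` and Cauchy-Schwarz for the weighted
double integral (`f8_cs`); the second factor is estimated by `kap1` (`f8_B`). `contr`: integrate `pt_bound` against the law of the next but one
measure; `up_int`, `ld_next` and `en_ratio` give the factor `1 - 1/(2M)` (`f8_num`). -/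

set_option autoImplicit false

namespace Pool.Agent.PBL
open MeasureTheory ProbabilityTheory Set Filter Topology Metric
open Pool.Agent.HP89 Pool.Agent.FI75
open scoped RealInnerProductSpace ENNReal

variable {V : Type*} [NormedAddCommGroup V] [InnerProductSpace ℝ V] [FiniteDimensional ℝ V]
  [MeasurableSpace V] [BorelSpace V]

private theorem f8_int (W : Submodule ℝ V) (x : V) {φ : V → ℝ} (hφ : Measurable φ) {C : ℝ}
    (hC : ∀ y, ‖y‖ ≤ 1 → |φ y| ≤ C) :
    Integrable (fun g => φ (nrm (ort (W.starProjection x) (W.starProjection g)))) (stdGaussian V) := by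
  refine Integrable.of_bound (C := C) ?_ ?_
  · exact (hφ.comp (measurable_nrm.comp ((continuous_ort _).measurable.comp
      W.starProjection.continuous.measurable))).aestronglyMeasurable
  · exact ae_of_all _ fun g => by rw [Real.norm_eq_abs]; exact hC _ (norm_nrm_le _)

private theorem f8_abs (W : Submodule ℝ V) (x : V) {φ : V → ℝ} {C : ℝ}
    (hC : ∀ y, ‖y‖ ≤ 1 → |φ y| ≤ C) : |avo W x φ| ≤ C := by
  have h := norm_integral_le_of_norm_le_const (μ := stdGaussian V) (C := C)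
    (f := fun g => φ (nrm (ort (W.starProjection x) (W.starProjection g))))
    (ae_of_all _ fun g => by rw [Real.norm_eq_abs]; exact hC _ (norm_nrm_le _))
  rw [Real.norm_eq_abs] at h
  unfold avo
  simpa using h

omit [FiniteDimensional ℝ V] [MeasurableSpace V] [BorelSpace V] in
private theorem f8_rv_le {n : ℕ} (X : Fin n → V) (u : V) : ‖rv X u‖ ≤ ‖u‖ := norm_res_le _ _

omit [FiniteDimensional ℝ V] [MeasurableSpace V] [BorelSpace V] in
private theorem f8_wv_nn {n : ℕ} (X : Fin n → V) : 0 ≤ wv X := wn_nonneg _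

private theorem f8_cs {n : ℕ} {ρ : Measure V} (hρ : US ρ) {u : V} (hu : ‖u‖ = 1) {f g : V → ℝ} (hf : Measurable f)
    (hg : Measurable g) {C : ℝ} (hfC : ∀ y, ‖y‖ ≤ 1 → |f y| ≤ C) (hgC : ∀ y, ‖y‖ ≤ 1 → |g y| ≤ C) :
    (iw n ρ (fun X => ‖rv X u‖ * avo (oc X) u (fun ξ => f ξ * g ξ))) ^ 2 ≤
      iw n ρ (fun X => ‖rv X u‖ * avo (oc X) u (fun ξ => f ξ ^ 2)) *
        iw n ρ (fun X => ‖rv X u‖ * avo (oc X) u (fun ξ => g ξ ^ 2)) := by
  have hC0 : 0 ≤ C := le_trans (abs_nonneg _) (hfC 0 (by simp))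
  have hb1 : ∀ y, ‖y‖ ≤ 1 → |f y ^ 2| ≤ C ^ 2 := fun y hy => by
    rw [abs_pow]; exact pow_le_pow_left₀ (abs_nonneg _) (hfC y hy) 2
  have hb2 : ∀ y, ‖y‖ ≤ 1 → |g y ^ 2| ≤ C ^ 2 := fun y hy => by
    rw [abs_pow]; exact pow_le_pow_left₀ (abs_nonneg _) (hgC y hy) 2
  have hb3 : ∀ y, ‖y‖ ≤ 1 → |f y * g y| ≤ C ^ 2 := fun y hy => by
    rw [abs_mul, sq]; exact mul_le_mul (hfC y hy) (hgC y hy) (abs_nonneg _) hC0
  have hm : ∀ {φ : V → ℝ}, Measurable φ → Measurable (fun X : Fin n → V => ‖rv X u‖ * avo (oc X) u φ) := by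
    intro φ hφ
    refine Measurable.mul ?_ ?_
    · exact ((meas_rv (n := n)).comp (measurable_id.prodMk measurable_const)).norm
    · exact meas_avo (f := fun X : Fin n → V => X) measurable_id (x := fun _ => u) measurable_const
        (Φ := fun _ => φ) (hφ.comp measurable_snd)
  have hbd : ∀ {φ : V → ℝ}, (∀ y, ‖y‖ ≤ 1 → |φ y| ≤ C ^ 2) → ∀ X : Fin n → V, |‖rv X u‖ * avo (oc X) u φ| ≤ C ^ 2 := by
    intro φ hφ X
    rw [abs_mul, abs_norm]
    calc ‖rv X u‖ * |avo (oc X) u φ| ≤ 1 * C ^ 2 :=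
          mul_le_mul (hu ▸ f8_rv_le X u) (f8_abs _ _ hφ) (abs_nonneg _) zero_le_one
      _ = C ^ 2 := one_mul _
  have key : ∀ t : ℝ, 0 ≤ iw n ρ (fun X => ‖rv X u‖ * avo (oc X) u (fun ξ => f ξ ^ 2)) * (t * t) +
      (2 * iw n ρ (fun X => ‖rv X u‖ * avo (oc X) u (fun ξ => f ξ * g ξ))) * t +
        iw n ρ (fun X => ‖rv X u‖ * avo (oc X) u (fun ξ => g ξ ^ 2)) := by
    intro t
    have h0 : 0 ≤ iw n ρ (fun X => ‖rv X u‖ * avo (oc X) u (fun ξ => (t * f ξ + g ξ) ^ 2)) := by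
      refine integral_nonneg fun X => ?_
      refine mul_nonneg (f8_wv_nn X) (mul_nonneg (norm_nonneg _) ?_)
      exact integral_nonneg fun g => sq_nonneg _
    have h1 : (fun X : Fin n → V => ‖rv X u‖ * avo (oc X) u (fun ξ => (t * f ξ + g ξ) ^ 2)) =
        fun X => ((t * t) * (‖rv X u‖ * avo (oc X) u (fun ξ => f ξ ^ 2)) +
          (2 * t) * (‖rv X u‖ * avo (oc X) u (fun ξ => f ξ * g ξ))) +
          ‖rv X u‖ * avo (oc X) u (fun ξ => g ξ ^ 2) := by
      funext X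
      have i1 := f8_int (oc X) u (hf.pow_const 2) hb1
      have i2 : Integrable (fun z => f (nrm (ort ((oc X).starProjection u) ((oc X).starProjection z))) *
          g (nrm (ort ((oc X).starProjection u) ((oc X).starProjection z)))) (stdGaussian V) :=
        f8_int (oc X) u (hf.mul hg) hb3
      have i3 := f8_int (oc X) u (hg.pow_const 2) hb2
      have h2 : avo (oc X) u (fun ξ => (t * f ξ + g ξ) ^ 2) =
          ((t * t) * avo (oc X) u (fun ξ => f ξ ^ 2) + (2 * t) * avo (oc X) u (fun ξ => f ξ * g ξ)) +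
            avo (oc X) u (fun ξ => g ξ ^ 2) := by
        simp only [avo]
        rw [← integral_const_mul, ← integral_const_mul, ← integral_add (i1.const_mul _) (i2.const_mul _),
          ← integral_add (by exact (i1.const_mul _).add (i2.const_mul _)) i3]
        refine integral_congr_ae (ae_of_all _ fun z => ?_)
        simp only
        ring
      rw [h2]
      ring
    rw [h1, iw_add hρ (C := |t * t| * C ^ 2 + |2 * t| * C ^ 2 + C ^ 2)
      (Φ := fun X => (t * t) * (‖rv X u‖ * avo (oc X) u (fun ξ => f ξ ^ 2)) +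
          (2 * t) * (‖rv X u‖ * avo (oc X) u (fun ξ => f ξ * g ξ)))
      (Ψ := fun X => ‖rv X u‖ * avo (oc X) u (fun ξ => g ξ ^ 2))
      (((hm (hf.pow_const 2)).const_mul _).add ((hm (hf.mul hg)).const_mul _)) (hm (hg.pow_const 2)),
      iw_add hρ (C := |t * t| * C ^ 2 + |2 * t| * C ^ 2)
        (Φ := fun X => (t * t) * (‖rv X u‖ * avo (oc X) u (fun ξ => f ξ ^ 2)))
        (Ψ := fun X => (2 * t) * (‖rv X u‖ * avo (oc X) u (fun ξ => f ξ * g ξ)))
        ((hm (hf.pow_const 2)).const_mul _)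
        ((hm (hf.mul hg)).const_mul _), iw_mul, iw_mul] at h0
    · linarith
    · intro X
      rw [abs_mul]
      have := mul_le_mul_of_nonneg_left (hbd hb1 X) (abs_nonneg (t * t))
      have h3 : 0 ≤ |2 * t| * C ^ 2 := by positivity
      linarith
    · intro X
      rw [abs_mul]
      have := mul_le_mul_of_nonneg_left (hbd hb3 X) (abs_nonneg (2 * t))
      have h3 : 0 ≤ |t * t| * C ^ 2 := by positivity
      linarith
    · intro X
      refine (abs_add_le _ _).trans ?_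
      rw [abs_mul, abs_mul (2 * t)]
      have h4 := mul_le_mul_of_nonneg_left (hbd hb1 X) (abs_nonneg (t * t))
      have h5 := mul_le_mul_of_nonneg_left (hbd hb3 X) (abs_nonneg (2 * t))
      have h3 : 0 ≤ C ^ 2 := by positivity
      linarith
    · intro X
      have h4 := hbd hb2 X
      have h3 : 0 ≤ |t * t| * C ^ 2 := by positivity
      have h5 : 0 ≤ |2 * t| * C ^ 2 := by positivity
      linarith
  have := discrim_le_zero key
  unfold discrim at this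
  nlinarith [this]

private theorem f8_B {n : ℕ} {M : ℝ} (hP : Par (Module.finrank ℝ V) (n + 1) M) {ρ : Measure V} (hN : Nice (n + 1) M ρ)
    (hI : Iso M ρ) (hj : 0 < en (n + 1) ρ) (hI' : Iso M (Nop (n + 1) ρ)) {u : V} (hu : ‖u‖ = 1) (v : V) :
    iw n ρ (fun X => ‖rv X u‖ * avo (oc X) u (fun ξ => ⟪ξ, v⟫ ^ 2)) ≤
      (1 + 13 * dl (Module.finrank ℝ V) M) / (Module.finrank ℝ V : ℝ) * en (n + 1) ρ * ‖v‖ ^ 2 := by
  set d : ℝ := (Module.finrank ℝ V : ℝ) with hd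
  have hjd := hP.hjd
  have hk : 0 < d - (n + 1 : ℕ) := by
    rw [hd]; have : ((n + 1 : ℕ) : ℝ) < (Module.finrank ℝ V : ℝ) := by exact_mod_cast hjd
    linarith
  have hd0 : 0 < d := by
    have : (0 : ℝ) ≤ ((n + 1 : ℕ) : ℝ) := Nat.cast_nonneg _
    linarith
  have hmr : ∀ w : V, Measurable (fun X : Fin n → V => ‖rv X w‖) := fun w =>
    ((meas_rv (n := n)).comp (measurable_id.prodMk measurable_const)).norm
  -- the main inequality
  have h1 : (d - (n + 1 : ℕ)) * iw n ρ (fun X => ‖rv X u‖ * avo (oc X) u (fun ξ => ⟪ξ, v⟫ ^ 2)) ≤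
      iw n ρ (fun X => ‖rv X u‖ * ‖rv X v‖ ^ 2) := by
    rw [← iw_mul]
    have hbv : ∀ y : V, ‖y‖ ≤ 1 → |⟪y, v⟫ ^ 2| ≤ ‖v‖ ^ 2 := by
      intro y hy
      rw [abs_pow]
      refine pow_le_pow_left₀ (abs_nonneg _) ?_ 2
      refine (abs_real_inner_le_norm _ _).trans ?_
      nlinarith [norm_nonneg v]
    refine iw_mono hN.us (C := (d - (n + 1 : ℕ)) * ‖v‖ ^ 2 + ‖v‖ ^ 2) ?_ ((hmr u).mul ((hmr v).pow_const 2)) ?_ ?_ ?_
    · refine Measurable.const_mul (Measurable.mul (hmr u) ?_) _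
      exact meas_avo (f := fun X : Fin n → V => X) measurable_id (x := fun _ => u) measurable_const
        (Φ := fun _ ξ => ⟪ξ, v⟫ ^ 2) (by unfold Function.uncurry; fun_prop)
    · intro X
      rw [abs_mul, abs_of_pos hk, abs_mul, abs_norm]
      have h2 := f8_abs (oc X) u hbv
      have h3 : ‖rv X u‖ ≤ 1 := hu ▸ f8_rv_le X u
      have h4 : ‖rv X u‖ * |avo (oc X) u (fun ξ => ⟪ξ, v⟫ ^ 2)| ≤ 1 * ‖v‖ ^ 2 :=
        mul_le_mul h3 h2 (abs_nonneg _) zero_le_one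
      have h5 := mul_le_mul_of_nonneg_left h4 hk.le
      nlinarith [sq_nonneg ‖v‖]
    · intro X
      rw [abs_mul, abs_norm, abs_pow, abs_norm]
      have h3 : ‖rv X u‖ ≤ 1 := hu ▸ f8_rv_le X u
      have h4 : ‖rv X v‖ ^ 2 ≤ ‖v‖ ^ 2 := pow_le_pow_left₀ (norm_nonneg _) (f8_rv_le X v) 2
      have h5 : ‖rv X u‖ * ‖rv X v‖ ^ 2 ≤ 1 * ‖v‖ ^ 2 :=
        mul_le_mul h3 h4 (by positivity) zero_le_one
      nlinarith [mul_nonneg hk.le (sq_nonneg ‖v‖)]
    · intro X hX _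
      by_cases h0 : rv X u = 0
      · simp [h0]
      · have hfo := finrank_oc hX
        have hne : (oc X).starProjection u ≠ 0 := by rw [← rv_eq]; exact h0
        have hfs := finrank_sb (x := u) hne
        have hfk : ((Module.finrank ℝ (sb (oc X) u) : ℕ) : ℝ) = d - (n + 1 : ℕ) := by
          have : Module.finrank ℝ (sb (oc X) u) + (n + 1) = Module.finrank ℝ V := by omega
          rw [hd, ← this]; push_cast; ring
        have h1 : 1 ≤ Module.finrank ℝ (sb (oc X) u) := by omega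
        have h2 := av_inner_mul (sb (oc X) u) h1 v v
        rw [hfk] at h2
        have h3 : avo (oc X) u (fun ξ => ⟪ξ, v⟫ ^ 2) = av (sb (oc X) u) (fun x => ⟪x, v⟫ * ⟪x, v⟫) := by
          rw [avo_eq]; congr 1; funext x; ring
        have h4 : ⟪(sb (oc X) u).starProjection v, v⟫ ≤ ‖rv X v‖ ^ 2 := by
          have h5 : ⟪(sb (oc X) u).starProjection v, v⟫ = ‖(sb (oc X) u).starProjection v‖ ^ 2 := by
            rw [← real_inner_self_eq_norm_sq]
            have h8 : (sb (oc X) u).starProjection ((sb (oc X) u).starProjection v) = (sb (oc X) u).starProjection v := by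
              rw [Submodule.starProjection_eq_self_iff]
              exact Submodule.starProjection_apply_mem _ _
            have h7 := Submodule.inner_starProjection_left_eq_right (sb (oc X) u) ((sb (oc X) u).starProjection v) v
            rw [h8] at h7
            exact h7
          rw [h5, sb_proj, ← rv_eq, ← rv_eq]
          exact pow_le_pow_left₀ (norm_nonneg _) (norm_ort_le _ _) 2
        rw [h3]
        calc (d - (n + 1 : ℕ)) * (‖rv X u‖ * av (sb (oc X) u) (fun x => ⟪x, v⟫ * ⟪x, v⟫)) =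
              ‖rv X u‖ * ((d - (n + 1 : ℕ)) * av (sb (oc X) u) (fun x => ⟪x, v⟫ * ⟪x, v⟫)) := by ring
          _ ≤ ‖rv X u‖ * ‖rv X v‖ ^ 2 := by
              rw [h2]; exact mul_le_mul_of_nonneg_left h4 (norm_nonneg _)
  -- use `kap1`
  have h2 : iw n ρ (fun X => ‖rv X u‖ * ‖rv X v‖ ^ 2) ≤
      (1 + 13 * dl (Module.finrank ℝ V) M) * ((d - (n + 1 : ℕ)) / d) * en (n + 1) ρ * ‖v‖ ^ 2 := by
    by_cases hv : v = 0
    · subst hv
      have : (fun X : Fin n → V => ‖rv X u‖ * ‖rv X (0 : V)‖ ^ 2) = fun _ => 0 := by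
        funext X
        have : ‖rv X (0 : V)‖ = 0 := le_antisymm (by simpa using f8_rv_le X (0 : V)) (norm_nonneg _)
        rw [this]; ring
      rw [this, iw_const]; simp
    · have hv0 : ‖v‖ ≠ 0 := norm_ne_zero_iff.mpr hv
      have hw : ‖(‖v‖⁻¹ • v)‖ = 1 := by rw [norm_smul, norm_inv, norm_norm, inv_mul_cancel₀ hv0]
      have hk1 := kap1 hP hN hI hj hI' hu hw
      have h3 : (fun X : Fin n → V => ‖rv X u‖ * ‖rv X v‖ ^ 2) =
          fun X => ‖v‖ ^ 2 * (‖rv X u‖ * ‖rv X (‖v‖⁻¹ • v)‖ ^ 2) := by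
        funext X
        have : rv X (‖v‖⁻¹ • v) = ‖v‖⁻¹ • rv X v := res_smul _ _ _
        rw [this, norm_smul, norm_inv, norm_norm]
        field_simp
      rw [h3, iw_mul]
      have := mul_le_mul_of_nonneg_left hk1 (sq_nonneg ‖v‖)
      calc ‖v‖ ^ 2 * iw n ρ (fun X => ‖rv X u‖ * ‖rv X (‖v‖⁻¹ • v)‖ ^ 2) ≤ _ := this
        _ = _ := by ring
  have h3 := h1.trans h2
  have h4 : (d - (n + 1 : ℕ)) * iw n ρ (fun X => ‖rv X u‖ * avo (oc X) u (fun ξ => ⟪ξ, v⟫ ^ 2)) ≤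
      (d - (n + 1 : ℕ)) * ((1 + 13 * dl (Module.finrank ℝ V) M) / d * en (n + 1) ρ * ‖v‖ ^ 2) := by
    refine h3.trans (le_of_eq ?_)
    ring
  exact le_of_mul_le_mul_left h4 hk

omit [BorelSpace V] in
private theorem f8_nn {n : ℕ} (ρ : Measure V) (u : V) (f : V → ℝ) :
    0 ≤ iw n ρ (fun X => ‖rv X u‖ * avo (oc X) u (fun ξ => f ξ ^ 2)) :=
  integral_nonneg fun X => mul_nonneg (f8_wv_nn X) (mul_nonneg (norm_nonneg _)
    (integral_nonneg fun _ => sq_nonneg _))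

theorem pt_bound {n : ℕ} {M : ℝ} (hP : Par (Module.finrank ℝ V) (n + 1) M) {ρ : Measure V} (hN : Nice (n + 1) M ρ)
    (hI : Iso M ρ) (hj : 0 < en (n + 1) ρ) (hI' : Iso M (Nop (n + 1) ρ)) {u : V} (hu : ‖u‖ = 1) :
    en (n + 1) ρ * ‖UU (Nop (n + 1) ρ) u‖ ^ 2 ≤
      ((n : ℝ) + 1) ^ 2 * (1 + 13 * dl (Module.finrank ℝ V) M) / (Module.finrank ℝ V : ℝ) *
        iw n ρ (fun X => ‖rv X u‖ * avo (oc X) u (fun ξ => ⟪UU ρ ξ, u⟫ ^ 2)) := by
  set v := UU (Nop (n + 1) ρ) u with hv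
  set A := iw n ρ (fun X => ‖rv X u‖ * avo (oc X) u (fun ξ => ⟪UU ρ ξ, u⟫ ^ 2)) with hA
  set δ := dl (Module.finrank ℝ V) M with hδ
  have hδ0 : 0 < δ := (dl_small hP).1
  have hd0 : (0 : ℝ) < (Module.finrank ℝ V : ℝ) := by
    have := hP.hjd
    have h : 0 < Module.finrank ℝ V := by omega
    exact_mod_cast h
  have hA0 : 0 ≤ A := f8_nn ρ u (fun ξ => ⟪UU ρ ξ, u⟫)
  by_cases hv0 : v = 0
  · rw [hv0]
    simp only [norm_zero]
    have : 0 ≤ ((n : ℝ) + 1) ^ 2 * (1 + 13 * δ) / (Module.finrank ℝ V : ℝ) * A := by positivity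
    simpa using this
  have hvp : 0 < ‖v‖ := norm_pos_iff.mpr hv0
  have heq := eq_UU hP.hjd hN.us hj hu (v := v) (inner_UU _ _)
  rw [← hv, real_inner_self_eq_norm_sq] at heq
  have hmU : Measurable (UU ρ) := meas_UU hN.us
  have hcs := f8_cs (n := n) hN.us hu (f := fun ξ => ⟪UU ρ ξ, u⟫) (g := fun ξ => ⟪ξ, v⟫) (C := 1 + ‖v‖)
    (by fun_prop) (by fun_prop)
    (fun y _ => by
      refine (abs_real_inner_le_norm _ _).trans ?_
      rw [hu, mul_one]
      have := norm_UU_le hN.us y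
      linarith)
    (fun y hy => by
      refine (abs_real_inner_le_norm _ _).trans ?_
      nlinarith)
  have hB := f8_B hP hN hI hj hI' hu v
  rw [← hδ] at hB
  rw [← hA] at hcs
  set I := iw n ρ (fun X => ‖rv X u‖ * avo (oc X) u (fun ξ => ⟪UU ρ ξ, u⟫ * ⟪ξ, v⟫)) with hI0
  set B := iw n ρ (fun X => ‖rv X u‖ * avo (oc X) u (fun ξ => ⟪ξ, v⟫ ^ 2)) with hB0
  set e := en (n + 1) ρ with he
  have h1 : (e * ‖v‖ ^ 2) ^ 2 ≤ ((n : ℝ) + 1) ^ 2 * (A * ((1 + 13 * δ) / (Module.finrank ℝ V : ℝ) * e * ‖v‖ ^ 2)) := by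
    rw [heq]
    calc (-((n : ℝ) + 1) * I) ^ 2 = ((n : ℝ) + 1) ^ 2 * I ^ 2 := by ring
      _ ≤ ((n : ℝ) + 1) ^ 2 * (A * ((1 + 13 * δ) / (Module.finrank ℝ V : ℝ) * e * ‖v‖ ^ 2)) := by
          refine mul_le_mul_of_nonneg_left (hcs.trans ?_) (by positivity)
          exact mul_le_mul_of_nonneg_left hB hA0
  have h2 : (e * ‖v‖ ^ 2) * (e * ‖v‖ ^ 2) ≤
      (e * ‖v‖ ^ 2) * (((n : ℝ) + 1) ^ 2 * (1 + 13 * δ) / (Module.finrank ℝ V : ℝ) * A) := by
    calc (e * ‖v‖ ^ 2) * (e * ‖v‖ ^ 2) = (e * ‖v‖ ^ 2) ^ 2 := by ring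
      _ ≤ _ := h1
      _ = _ := by ring
  exact le_of_mul_le_mul_left h2 (by positivity)

private theorem f8_num {j d M δ : ℝ} (hj0 : 0 ≤ j) (hd : 0 < d) (hM1 : 1 ≤ M) (hM : d ≤ M * (d - j))
    (hδ0 : 0 < δ) (hδ : δ * M ^ 4 ≤ 1 / 10 ^ 16) :
    j ^ 2 * (1 + 13 * δ) / d * ((1 + 1 / (20 * M ^ 2)) / d) ≤ (1 - 1 / (2 * M)) * (1 - 3 * δ) := by
  have hM0 : 0 < M := by linarith
  have hM2 : 0 < M ^ 2 := by positivity
  have hδ2 : δ * M ^ 2 ≤ 1 / 10 ^ 16 := by
    refine le_trans ?_ hδ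
    refine mul_le_mul_of_nonneg_left ?_ hδ0.le
    exact pow_le_pow_right₀ hM1 (by norm_num)
  -- `q = 1 / M`
  set q := 1 / M with hq
  have hqM : q * M = 1 := by rw [hq]; field_simp
  have hq0 : 0 < q := by positivity
  have hq1 : q ≤ 1 := by rw [hq, div_le_one hM0]; exact hM1
  have hq2 : q ^ 2 * M ^ 2 = 1 := by rw [← mul_pow, hqM, one_pow]
  have hδq : δ ≤ q ^ 2 / 10 ^ 16 := by
    have : δ * (q ^ 2 * M ^ 2) ≤ 1 / 10 ^ 16 * q ^ 2 := by
      calc δ * (q ^ 2 * M ^ 2) = δ * M ^ 2 * q ^ 2 := by ring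
        _ ≤ _ := mul_le_mul_of_nonneg_right hδ2 (sq_nonneg _)
    rw [hq2] at this
    linarith
  have e1 : 1 / (20 * M ^ 2) = q ^ 2 / 20 := by rw [hq]; field_simp
  have e2 : 1 / (2 * M) = q / 2 := by rw [hq]; field_simp
  -- `j/d ≤ 1 - q`
  set r := j / d with hr
  have hr0 : 0 ≤ r := by positivity
  have hr1 : r ≤ 1 - q := by
    rw [hr, div_le_iff₀ hd]
    have : q * d ≤ q * (M * (d - j)) := mul_le_mul_of_nonneg_left hM hq0.le
    have h2 : q * (M * (d - j)) = d - j := by rw [← mul_assoc, hqM, one_mul]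
    linarith
  have e3 : j ^ 2 * (1 + 13 * δ) / d * ((1 + 1 / (20 * M ^ 2)) / d) = r ^ 2 * ((1 + 13 * δ) * (1 + q ^ 2 / 20)) := by
    rw [e1, hr]; field_simp
  rw [e3, e2]
  have hr2 : r ^ 2 ≤ 1 - q := by nlinarith
  have h4 : (1 + 13 * δ) * (1 + q ^ 2 / 20) ≤ (1 - 3 * δ) * (1 + q ^ 2 / 10) := by nlinarith [mul_nonneg hδ0.le (sq_nonneg q)]
  have h3δ : 0 ≤ 1 - 3 * δ := by nlinarith
  have h5 : (1 - q) * (1 + q ^ 2 / 10) ≤ 1 - q / 2 := by nlinarith [mul_nonneg hq0.le (sub_nonneg.mpr hq1), pow_pos hq0 3]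
  calc r ^ 2 * ((1 + 13 * δ) * (1 + q ^ 2 / 20)) ≤ (1 - q) * ((1 - 3 * δ) * (1 + q ^ 2 / 10)) :=
        mul_le_mul hr2 h4 (by positivity) (by linarith)
    _ = ((1 - q) * (1 + q ^ 2 / 10)) * (1 - 3 * δ) := by ring
    _ ≤ (1 - q / 2) * (1 - 3 * δ) := mul_le_mul_of_nonneg_right h5 h3δ

theorem contr {j : ℕ} {M : ℝ} (hP : Par (Module.finrank ℝ V) j M) {ρ : ℕ → Measure V} (hc : Ch j ρ)
    (hN : ∀ n, Nice j M (ρ n)) (hI : ∀ n, Iso M (ρ n)) (m : ℕ) {S : ℝ} (hS : ∀ y, ‖y‖ = 1 → ‖UU (ρ (m + 1)) y‖ ^ 2 ≤ S) :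
    ∫ u, ‖UU (ρ (m + 2)) u‖ ^ 2 ∂(ρ (m + 3)) ≤
      (1 - 1 / (2 * M)) * ∫ u, ‖UU (ρ (m + 1)) u‖ ^ 2 ∂(ρ (m + 2)) +
        8 * (Module.finrank ℝ V : ℝ) * M * pz (Module.finrank ℝ V) * S := by
  obtain ⟨n, rfl⟩ : ∃ n, j = n + 1 := ⟨j - 1, by have := hP.hj; omega⟩
  have hs1 : Nop (n + 1) (ρ m) = ρ (m + 1) := (hc.step m).symm
  have hs2 : Nop (n + 1) (ρ (m + 1)) = ρ (m + 2) := (hc.step (m + 1)).symm
  have hs3 : Nop (n + 1) (ρ (m + 2)) = ρ (m + 3) := (hc.step (m + 2)).symm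
  obtain ⟨hδ0, hδ4, -⟩ := dl_small hP
  set δ := dl (Module.finrank ℝ V) M with hδ
  set d : ℝ := (Module.finrank ℝ V : ℝ) with hd
  have hjd : ((n + 1 : ℕ) : ℝ) < d := by rw [hd]; exact_mod_cast hP.hjd
  have hj0 : (0 : ℝ) ≤ ((n + 1 : ℕ) : ℝ) := Nat.cast_nonneg _
  have hd0 : 0 < d := by linarith
  have hM1 := hP.one
  have hM0 : 0 < M := by linarith
  have hk : 0 < d - (n + 1 : ℕ) := by linarith
  have hb0 : 0 < (d - (n + 1 : ℕ)) / d := by positivity
  set sb' := √((d - (n + 1 : ℕ)) / d) with hsb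
  have hsb0 : 0 < sb' := Real.sqrt_pos.mpr hb0
  have hδs : δ ≤ 1 / 10 ^ 16 := by
    refine le_trans ?_ hδ4
    have : (1 : ℝ) ≤ M ^ 4 := one_le_pow₀ hM1
    nlinarith
  -- a unit vector, so `0 ≤ S`
  have hS0 : 0 ≤ S := by
    have hu := (hc.us 0)
    have := hu.prob
    obtain ⟨y, hy⟩ := hu.unit.exists
    exact le_trans (sq_nonneg _) (hS y hy)
  have hUm : Measurable (UU (ρ (m + 1))) := meas_UU (hc.us _)
  have hU1 : ∀ y, ‖UU (ρ (m + 1)) y‖ ≤ 1 := norm_UU_le (hc.us _)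
  -- the three inputs
  have hup := up_int hP (hN (m + 1)) (hI (m + 1)) (hc.pos _) (by rw [hs2]; exact hI _) (hc.us (m + 2)) (hc.pos _)
    (by rw [hs3]; exact hI _) hUm hU1 hS
  have hld := ld_next hP (hN m) (hI m) (hc.pos _) (by rw [hs1]; exact hI _) (by rw [hs1]; exact hc.pos _)
    (φ := fun y => ‖UU (ρ (m + 1)) y‖ ^ 2) (by fun_prop) (fun _ => sq_nonneg _) (C := 1)
    (fun y => by have := hU1 y; have := norm_nonneg (UU (ρ (m + 1)) y); nlinarith)
  rw [hs1, hs2] at hld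
  rw [hs3] at hup
  have hen := (en_ratio hP (hN (m + 1)) (hI (m + 1))).1
  rw [← hd, ← hsb] at hup
  rw [← hδ, ← hd, ← hsb] at hld hen
  set e := en (n + 1) (ρ (m + 1)) with he
  have he0 : 0 < e := hc.pos _
  set Q := iw n (ρ (m + 1)) (fun X => av (oc X) (fun y => ‖UU (ρ (m + 1)) y‖ ^ 2)) with hQ
  set F := ∫ u, ‖UU (ρ (m + 1)) u‖ ^ 2 ∂(ρ (m + 2)) with hF
  set G := ∫ u, ‖UU (ρ (m + 2)) u‖ ^ 2 ∂(ρ (m + 3)) with hG
  have hF0 : 0 ≤ F := integral_nonneg fun _ => sq_nonneg _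
  -- pointwise bound integrated
  have hpt : e * G ≤ ((n : ℝ) + 1) ^ 2 * (1 + 13 * δ) / d *
      ∫ u, iw n (ρ (m + 1)) (fun X => ‖rv X u‖ * avo (oc X) u (fun y => ⟪UU (ρ (m + 1)) y, u⟫ ^ 2)) ∂(ρ (m + 3)) := by
    have := (hc.us (m + 1)).prob
    have := (hc.us (m + 3)).prob
    rw [hG, ← integral_const_mul, ← integral_const_mul]
    refine integral_mono_of_nonneg (ae_of_all _ fun u => mul_nonneg he0.le (sq_nonneg _)) ?_ ?_
    · refine Integrable.const_mul ?_ _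
      have hmeas : Measurable (fun u : V => iw n (ρ (m + 1)) (fun X => ‖rv X u‖ *
          avo (oc X) u (fun y => ⟪UU (ρ (m + 1)) y, u⟫ ^ 2))) := by
        unfold iw
        have h1 : Measurable (fun p : V × (Fin n → V) => wv p.2 * (‖rv p.2 p.1‖ *
            avo (oc p.2) p.1 (fun y => ⟪UU (ρ (m + 1)) y, p.1⟫ ^ 2))) := by
          refine ((measurable_wv n).comp measurable_snd).mul (Measurable.mul ?_ ?_)
          · exact ((meas_rv (n := n)).comp (measurable_snd.prodMk measurable_fst)).norm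
          · refine meas_avo (f := fun p : V × (Fin n → V) => p.2) measurable_snd (x := fun p => p.1) measurable_fst
              (Φ := fun p y => ⟪UU (ρ (m + 1)) y, p.1⟫ ^ 2) ?_
            unfold Function.uncurry
            fun_prop
        exact (h1.stronglyMeasurable.integral_prod_right').measurable
      refine Integrable.of_bound hmeas.aestronglyMeasurable (C := 1) ?_
      filter_upwards [(hc.us (m + 3)).unit] with u hu
      have hle : ∀ᵐ X ∂(pp n (ρ (m + 1))), ‖wv X * (‖rv X u‖ *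
          avo (oc X) u (fun y => ⟪UU (ρ (m + 1)) y, u⟫ ^ 2))‖ ≤ 1 := by
        filter_upwards [ae_wv_le (hc.us (m + 1)) n] with X hX
        rw [Real.norm_eq_abs, abs_mul, abs_mul, abs_norm, abs_of_nonneg hX.1]
        have h3 : ‖rv X u‖ ≤ 1 := hu ▸ f8_rv_le X u
        have h4 : |avo (oc X) u (fun y => ⟪UU (ρ (m + 1)) y, u⟫ ^ 2)| ≤ 1 := by
          refine f8_abs _ _ fun y _ => ?_
          rw [abs_pow]
          refine pow_le_one₀ (abs_nonneg _) ?_
          refine (abs_real_inner_le_norm _ _).trans ?_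
          rw [hu, mul_one]; exact hU1 y
        have h5 : ‖rv X u‖ * |avo (oc X) u (fun y => ⟪UU (ρ (m + 1)) y, u⟫ ^ 2)| ≤ 1 :=
          mul_le_one₀ h3 (abs_nonneg _) h4
        exact mul_le_one₀ hX.2 (by positivity) h5
      have := norm_integral_le_of_norm_le_const hle
      simpa [iw] using this
    · filter_upwards [(hc.us (m + 3)).unit] with u hu
      have := pt_bound hP (hN (m + 1)) (hI (m + 1)) (hc.pos _) (by rw [hs2]; exact hI _) hu
      rw [hs2] at this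
      exact this
  -- put together
  set c := ((n : ℝ) + 1) ^ 2 * (1 + 13 * δ) / d with hcdef
  have hc0 : 0 ≤ c := by positivity
  have h1 := hpt.trans (mul_le_mul_of_nonneg_left hup hc0)
  have hpz0 : 0 ≤ pz (Module.finrank ℝ V) := by unfold pz; positivity
  have h3δ : 0 < 1 - 3 * δ := by linarith
  have h2δ : 0 < 1 - 2 * δ := by linarith
  -- first term
  have hcast : ((n + 1 : ℕ) : ℝ) = (n : ℝ) + 1 := by push_cast; ring
  have hnum := f8_num (j := ((n + 1 : ℕ) : ℝ)) (d := d) (M := M) (δ := δ) hj0 hd0 hM1 hP.hM hδ0 hδ4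
  rw [hcast] at hnum
  have hT1 : c * ((1 + 1 / (20 * M ^ 2)) / d * sb' * Q) ≤ (1 - 1 / (2 * M)) * (e * F) := by
    have h2 : c * ((1 + 1 / (20 * M ^ 2)) / d * sb' * Q) * (1 - 3 * δ) ≤ (1 - 1 / (2 * M)) * (e * F) * (1 - 3 * δ) := by
      calc c * ((1 + 1 / (20 * M ^ 2)) / d * sb' * Q) * (1 - 3 * δ) =
            (c * ((1 + 1 / (20 * M ^ 2)) / d)) * ((1 - 3 * δ) * sb' * Q) := by ring
        _ ≤ ((1 - 1 / (2 * M)) * (1 - 3 * δ)) * (e * F) := by
            refine mul_le_mul hnum hld ?_ ?_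
            · refine mul_nonneg (by positivity) ?_
              exact integral_nonneg fun X => mul_nonneg (f8_wv_nn X) (integral_nonneg fun _ => sq_nonneg _)
            · refine mul_nonneg ?_ h3δ.le
              rw [sub_nonneg, div_le_one (by positivity)]; linarith
        _ = _ := by ring
    exact le_of_mul_le_mul_right h2 h3δ
  -- second term
  have hT2 : c * (3 * pz (Module.finrank ℝ V) * S * en n (ρ (m + 1))) ≤
      e * (8 * d * M * pz (Module.finrank ℝ V) * S) := by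
    have hsM : 1 / M ≤ sb' := by
      have h2 : 1 / M ≤ (d - (n + 1 : ℕ)) / d := by
        rw [div_le_div_iff₀ hM0 hd0]; have := hP.hM; linarith
      have h3 : (d - (n + 1 : ℕ)) / d ≤ 1 := by rw [div_le_one hd0]; linarith
      refine h2.trans ?_
      rw [hsb]
      exact Real.le_sqrt_of_sq_le (by nlinarith)
    have hen0 : 0 ≤ en n (ρ (m + 1)) := integral_nonneg fun X => f8_wv_nn X
    have hen2 : (1 - 2 * δ) * en n (ρ (m + 1)) ≤ M * e := by
      have h2 : (1 - 2 * δ) * (1 / M) * en n (ρ (m + 1)) ≤ e := by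
        refine le_trans ?_ hen
        refine mul_le_mul_of_nonneg_right ?_ hen0
        exact mul_le_mul_of_nonneg_left hsM h2δ.le
      have h3 := mul_le_mul_of_nonneg_left h2 hM0.le
      calc (1 - 2 * δ) * en n (ρ (m + 1)) = M * ((1 - 2 * δ) * (1 / M) * en n (ρ (m + 1))) := by field_simp
        _ ≤ _ := h3
    have hcd : c ≤ d * (1 + 13 * δ) := by
      rw [hcdef, div_le_iff₀ hd0]
      have h2 : ((n : ℝ) + 1) ^ 2 ≤ d ^ 2 := by
        rw [← hcast]; exact pow_le_pow_left₀ hj0 hjd.le 2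
      nlinarith
    have h2 : c * en n (ρ (m + 1)) * 3 ≤ e * (8 * d * M) := by
      have h3 : c * en n (ρ (m + 1)) ≤ d * (1 + 13 * δ) * en n (ρ (m + 1)) := mul_le_mul_of_nonneg_right hcd hen0
      have h4 : (1 - 2 * δ) * (c * en n (ρ (m + 1)) * 3) ≤ (1 - 2 * δ) * (e * (8 * d * M)) := by
        calc (1 - 2 * δ) * (c * en n (ρ (m + 1)) * 3) ≤ (1 - 2 * δ) * (d * (1 + 13 * δ) * en n (ρ (m + 1)) * 3) := by
              refine mul_le_mul_of_nonneg_left ?_ h2δ.le; linarith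
          _ = 3 * d * (1 + 13 * δ) * ((1 - 2 * δ) * en n (ρ (m + 1))) := by ring
          _ ≤ 3 * d * (1 + 13 * δ) * (M * e) := mul_le_mul_of_nonneg_left hen2 (by positivity)
          _ = (d * M * e) * (3 * (1 + 13 * δ)) := by ring
          _ ≤ (d * M * e) * ((1 - 2 * δ) * 8) := by
              refine mul_le_mul_of_nonneg_left ?_ (by positivity); linarith
          _ = _ := by ring
      exact le_of_mul_le_mul_left h4 h2δ
    calc c * (3 * pz (Module.finrank ℝ V) * S * en n (ρ (m + 1))) =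
          (c * en n (ρ (m + 1)) * 3) * (pz (Module.finrank ℝ V) * S) := by ring
      _ ≤ (e * (8 * d * M)) * (pz (Module.finrank ℝ V) * S) := mul_le_mul_of_nonneg_right h2 (mul_nonneg hpz0 hS0)
      _ = _ := by ring
  have h5 : e * G ≤ e * ((1 - 1 / (2 * M)) * F + 8 * d * M * pz (Module.finrank ℝ V) * S) := by
    rw [mul_add] at h1
    calc e * G ≤ _ := h1
      _ ≤ (1 - 1 / (2 * M)) * (e * F) + e * (8 * d * M * pz (Module.finrank ℝ V) * S) := add_le_add hT1 hT2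
      _ = _ := by ring
  exact le_of_mul_le_mul_left h5 he0

end Pool.Agent.PBL
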