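import Pool.Agent.PBL.F8

/-! Module PBL-F9 (smoothing). `up_avg`: average over `E` of the typical positions: split into `H = {c0 ≤ ‖P_E y‖²}` and its complement, `coi_upper` on `H`,
`good_dir` and Fubini on the complement, `good_pair` for the atypical tuples. `smooth`: two applications of `pt_bound`, the average over the subspheres in
between is bounded by `up_avg` and `ld_next`. -/

set_option autoImplicit false

namespace Pool.Agent.PBL
open MeasureTheory ProbabilityTheory Set Filter Topology Metric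
open Pool.Agent.HP89 Pool.Agent.FI75
open scoped RealInnerProductSpace ENNReal

variable {V : Type*} [NormedAddCommGroup V] [InnerProductSpace ℝ V] [FiniteDimensional ℝ V]
  [MeasurableSpace V] [BorelSpace V]

omit [FiniteDimensional ℝ V] [MeasurableSpace V] [BorelSpace V] in
private theorem nrm_unit {x : V} (hx : x ≠ 0) : ‖nrm x‖ = 1 := by
  unfold nrm
  rw [norm_smul, norm_inv, norm_norm, inv_mul_cancel₀ (norm_ne_zero_iff.2 hx)]

omit [MeasurableSpace V] [BorelSpace V] in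
private theorem proj_le (W : Submodule ℝ V) {x : V} (hx : ‖x‖ ≤ 1) : ‖W.starProjection x‖ ≤ 1 :=
  (W.norm_starProjection_apply_le x).trans hx

private theorem meas_np (E : Submodule ℝ V) : Measurable (fun g : V => nrm (E.starProjection g)) :=
  measurable_nrm.comp (by fun_prop)

private theorem int_av (E : Submodule ℝ V) {f : V → ℝ} (hf : Measurable f) {C : ℝ}
    (hC : ∀ x, ‖x‖ ≤ 1 → |f x| ≤ C) : Integrable (fun g => f (nrm (E.starProjection g))) (stdGaussian V) := by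
  refine Integrable.of_bound (hf.comp (meas_np E)).aestronglyMeasurable C (Eventually.of_forall fun g => ?_)
  rw [Real.norm_eq_abs]
  exact hC _ (norm_nrm_le _)

private theorem av_le' (E : Submodule ℝ V) {f : V → ℝ} {C : ℝ} (hC : 0 ≤ C) (h : ∀ x, ‖x‖ ≤ 1 → f x ≤ C) :
    av E f ≤ C := by
  unfold av
  by_cases hi : Integrable (fun g => f (nrm (E.starProjection g))) (stdGaussian V)
  · calc ∫ g, f (nrm (E.starProjection g)) ∂(stdGaussian V) ≤ ∫ _ : V, C ∂(stdGaussian V) :=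
        integral_mono hi (integrable_const _) (fun g => h _ (norm_nrm_le _))
      _ = C := by simp
  · rw [integral_undef hi]; exact hC

omit [BorelSpace V] in
private theorem av_nn' (E : Submodule ℝ V) {f : V → ℝ} (h : ∀ x, ‖x‖ ≤ 1 → 0 ≤ f x) : 0 ≤ av E f :=
  integral_nonneg fun _ => h _ (norm_nrm_le _)

private theorem av_mono' (E : Submodule ℝ V) {f g : V → ℝ} (hf : Measurable f) (hg : Measurable g) {C D : ℝ}
    (hC : ∀ x, ‖x‖ ≤ 1 → |f x| ≤ C) (hD : ∀ x, ‖x‖ ≤ 1 → |g x| ≤ D) (h : ∀ x, ‖x‖ ≤ 1 → f x ≤ g x) :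
    av E f ≤ av E g :=
  integral_mono (int_av E hf hC) (int_av E hg hD) fun _ => h _ (norm_nrm_le _)

private theorem av_mono_unit (E : Submodule ℝ V) (hE : 1 ≤ Module.finrank ℝ E) {f g : V → ℝ} (hf : Measurable f)
    (hg : Measurable g) {C D : ℝ}
    (hC : ∀ x, ‖x‖ ≤ 1 → |f x| ≤ C) (hD : ∀ x, ‖x‖ ≤ 1 → |g x| ≤ D) (h : ∀ x, ‖x‖ = 1 → f x ≤ g x) :
    av E f ≤ av E g := by
  refine integral_mono_ae (int_av E hf hC) (int_av E hg hD) ?_
  filter_upwards [ae_proj_ne E hE] with y hy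
  exact h _ (nrm_unit hy)

private theorem av_add' (E : Submodule ℝ V) {f g : V → ℝ} (hf : Measurable f) (hg : Measurable g) {C D : ℝ}
    (hC : ∀ x, ‖x‖ ≤ 1 → |f x| ≤ C) (hD : ∀ x, ‖x‖ ≤ 1 → |g x| ≤ D) :
    av E (fun x => f x + g x) = av E f + av E g :=
  integral_add (int_av E hf hC) (int_av E hg hD)

omit [FiniteDimensional ℝ V] [MeasurableSpace V] [BorelSpace V] in
private theorem wv_nn {n : ℕ} (X : Fin n → V) : 0 ≤ wv X := wn_nonneg _

/-- Fubini for `iw` and `av`. -/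
private theorem iw_av_swap {ρ : Measure V} (hρ : US ρ) (n : ℕ) (E : Submodule ℝ V) {F : (Fin n → V) → V → ℝ}
    (hF : Measurable (Function.uncurry F)) {C : ℝ} (hC : ∀ X x, ‖x‖ ≤ 1 → |F X x| ≤ C) :
    iw n ρ (fun X => av E (F X)) = av E (fun x => iw n ρ (fun X => F X x)) := by
  have hprob := hρ.prob
  unfold iw av
  have h1 : ∀ X : Fin n → V, wv X * ∫ g, F X (nrm (E.starProjection g)) ∂(stdGaussian V) =
      ∫ g, wv X * F X (nrm (E.starProjection g)) ∂(stdGaussian V) := fun X => (integral_const_mul _ _).symm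
  simp only [h1]
  refine integral_integral_swap ?_
  have hm : Measurable (Function.uncurry fun (X : Fin n → V) (g : V) => wv X * F X (nrm (E.starProjection g))) := by
    have e : (Function.uncurry fun (X : Fin n → V) (g : V) => wv X * F X (nrm (E.starProjection g))) =
        fun p : (Fin n → V) × V => wv p.1 * Function.uncurry F (p.1, nrm (E.starProjection p.2)) := rfl
    rw [e]
    exact ((measurable_wv n).comp measurable_fst).mul
      (hF.comp (measurable_fst.prodMk ((meas_np E).comp measurable_snd)))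
  refine Integrable.of_bound hm.aestronglyMeasurable C ?_
  have hw : ∀ᵐ p ∂((pp n ρ).prod (stdGaussian V)), 0 ≤ wv p.1 ∧ wv p.1 ≤ 1 :=
    Measure.quasiMeasurePreserving_fst.ae (ae_wv_le hρ n)
  filter_upwards [hw] with p hp
  have h2 := hC p.1 (nrm (E.starProjection p.2)) (norm_nrm_le _)
  have h3 : (Function.uncurry fun (X : Fin n → V) (g : V) => wv X * F X (nrm (E.starProjection g))) p =
      wv p.1 * F p.1 (nrm (E.starProjection p.2)) := rfl
  rw [h3, Real.norm_eq_abs, abs_mul, abs_of_nonneg hp.1]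
  calc wv p.1 * |F p.1 (nrm (E.starProjection p.2))| ≤ 1 * C :=
        mul_le_mul hp.2 h2 (abs_nonneg _) zero_le_one
    _ = C := one_mul _

omit [MeasurableSpace V] [BorelSpace V] in
private theorem rv_le {n : ℕ} (X : Fin n → V) {x : V} (hx : ‖x‖ ≤ 1) : ‖rv X x‖ ≤ 1 := by
  rw [rv_eq]; exact proj_le _ hx

/-- numerical facts. -/
private theorem par_num {d n : ℕ} {M : ℝ} (hP : Par d (n + 1) M) :
    0 < (d : ℝ) ∧ 1 ≤ M ∧ 1 ≤ M * (((d : ℝ) - (n + 1 : ℕ)) / (d : ℝ)) ∧ 100 * M ^ 2 ≤ (d : ℝ) ∧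
      100 * M ≤ (d : ℝ) - (n + 1 : ℕ) ∧ (d : ℝ) - (n + 1 : ℕ) ≤ d := by
  have hd := hP.d_pos
  have hM := hP.one
  have h1 := hP.hM
  have hbig := hP.big
  have hs : √(d : ℝ) * √(d : ℝ) = d := Real.mul_self_sqrt hd.le
  have hM2 : M ^ 2 ≤ M ^ 10 := pow_le_pow_right₀ hM (by norm_num)
  have hM10 : 1 ≤ M ^ 10 := one_le_pow₀ hM
  have hM2' : 1 ≤ M ^ 2 := one_le_pow₀ hM
  have hsd : 100 * M ^ 2 ≤ √(d : ℝ) := by nlinarith
  have hsd1 : 1 ≤ √(d : ℝ) := by nlinarith
  have hd2 : 100 * M ^ 2 ≤ (d : ℝ) := by nlinarith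
  refine ⟨hd, hM, ?_, hd2, ?_, ?_⟩
  · rw [← mul_div_assoc, le_div_iff₀ hd, one_mul]; exact h1
  · have h2 : 100 * M ^ 2 ≤ M * ((d : ℝ) - (n + 1 : ℕ)) := hd2.trans h1
    have h3 : M * (100 * M) ≤ M * ((d : ℝ) - (n + 1 : ℕ)) := by nlinarith
    exact le_of_mul_le_mul_left h3 (by linarith)
  · have : (0 : ℝ) ≤ ((n + 1 : ℕ) : ℝ) := Nat.cast_nonneg _
    linarith

theorem up_avg {n : ℕ} {M : ℝ} (hP : Par (Module.finrank ℝ V) (n + 1) M) {ρ : Measure V} (hN : Nice (n + 1) M ρ)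
    (hI : Iso M ρ) (hj : 0 < en (n + 1) ρ) (hI' : Iso M (Nop (n + 1) ρ)) {E : Submodule ℝ V}
    (hE : Module.finrank ℝ E + (n + 1) = Module.finrank ℝ V) {φ : V → ℝ} (hφ : Measurable φ) (h0 : ∀ x, 0 ≤ φ x)
    (h1 : ∀ x, φ x ≤ 1) {S : ℝ} (hS : ∀ y, ‖y‖ = 1 → φ y ≤ S) :
    iw n ρ (fun X => av E (fun x => ‖rv X x‖ * avo (oc X) x φ)) ≤
      √(2 * M) * iw n ρ (fun X => av (oc X) φ) + 3 * pz (Module.finrank ℝ V) * S * en n ρ := by
  classical
  obtain ⟨hd, hM, hb1, hdM, hkM, hkd⟩ := par_num hP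
  set d : ℕ := Module.finrank ℝ V with hdd
  set b : ℝ := ((d : ℝ) - (n + 1 : ℕ)) / (d : ℝ) with hbdef
  have hρ := hN.us
  have hkE : (Module.finrank ℝ E : ℝ) = (d : ℝ) - (n + 1 : ℕ) := by
    have : ((Module.finrank ℝ E + (n + 1) : ℕ) : ℝ) = (d : ℝ) := by exact_mod_cast hE
    push_cast at this ⊢; linarith
  have hk2 : 2 ≤ Module.finrank ℝ E := by
    have : (2 : ℝ) ≤ (Module.finrank ℝ E : ℝ) := by rw [hkE]; linarith
    exact_mod_cast this
  have hM2 : 1 ≤ M ^ 2 := one_le_pow₀ hM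
  have hM0 : 0 < M := by linarith
  have hb0 : 0 < b := by
    rw [hbdef]; apply div_pos _ hd; linarith
  set c0 : ℝ := (1 - 1 / (30 * M ^ 2)) * b with hc0def
  have hfac : 1 / 2 ≤ 1 - 1 / (30 * M ^ 2) := by
    have : 1 / (30 * M ^ 2) ≤ 1 / 30 := by
      apply one_div_le_one_div_of_le (by norm_num); linarith
    linarith
  have hc0 : 0 < c0 := mul_pos (by linarith) hb0
  have hc0M : 1 ≤ 2 * M * c0 := by
    have : 1 / 2 * b ≤ c0 := mul_le_mul_of_nonneg_right hfac hb0.le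
    nlinarith
  have hsq : (√c0)⁻¹ ≤ √(2 * M) := by
    rw [inv_le_iff_one_le_mul₀ (Real.sqrt_pos.2 hc0), ← Real.sqrt_mul (by linarith)]
    exact Real.one_le_sqrt.2 hc0M
  set H : Set V := {y | c0 ≤ ‖E.starProjection y‖ ^ 2} with hHdef
  have hHm : MeasurableSet H := by
    apply measurableSet_le measurable_const
    fun_prop
  -- `S ≥ 0`
  have hS0 : 0 ≤ S := by
    have hnt : Nontrivial V := Module.nontrivial_of_finrank_pos (R := ℝ) (by
      rw [← hdd]; exact_mod_cast hd)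
    obtain ⟨y, hy⟩ := exists_norm_eq V (zero_le_one : (0 : ℝ) ≤ 1)
    exact (h0 y).trans (hS y hy)
  have hφH : Measurable (H.indicator φ) := hφ.indicator hHm
  have h1H : Measurable (Hᶜ.indicator (fun _ : V => (1 : ℝ))) := measurable_const.indicator hHm.compl
  have habsφ : ∀ x, |φ x| ≤ 1 := fun x => by rw [abs_of_nonneg (h0 x)]; exact h1 x
  have hindφ0 : ∀ x, 0 ≤ H.indicator φ x := fun x => indicator_nonneg (fun y _ => h0 y) x
  have hindφ1 : ∀ x, H.indicator φ x ≤ φ x := fun x => indicator_le_self' (fun y _ => h0 y) x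
  have hind0 : ∀ x, 0 ≤ Hᶜ.indicator (fun _ : V => (1 : ℝ)) x := fun x => indicator_nonneg (fun _ _ => zero_le_one) x
  have hind1 : ∀ x, Hᶜ.indicator (fun _ : V => (1 : ℝ)) x ≤ 1 := fun x => by
    by_cases hx : x ∈ Hᶜ
    · rw [indicator_of_mem hx]
    · rw [indicator_of_notMem hx]; norm_num
  -- measurability
  have mA : ∀ {ψ : V → ℝ}, Measurable ψ → Measurable (Function.uncurry
      (fun (X : Fin n → V) (x : V) => avo (oc X) x ψ)) := by
    intro ψ hψ
    exact meas_avo (β := (Fin n → V) × V) (f := fun p => p.1) measurable_fst (x := fun p => p.2) measurable_snd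
      (Φ := fun _ => ψ) (hψ.comp measurable_snd)
  have mB : Measurable (Function.uncurry (fun (X : Fin n → V) (x : V) => ‖rv X x‖ * avo (oc X) x φ)) :=
    meas_rv.norm.mul (mA hφ)
  have mAv : Measurable (fun X : Fin n → V => av E (fun x => ‖rv X x‖ * avo (oc X) x φ)) :=
    meas_av' E mB
  have mC : Measurable (fun X : Fin n → V => av (oc X) φ) :=
    meas_av (β := Fin n → V) (f := fun X => X) measurable_id (Φ := fun _ => φ) (hφ.comp measurable_snd)
  have mD : Measurable (fun X : Fin n → V => av E (fun x => avo (oc X) x (Hᶜ.indicator (fun _ => (1 : ℝ))))) :=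
    meas_av' E (mA h1H)
  have mG : MeasurableSet (GP n M E) := by
    unfold GP
    exact measurableSet_le (((meas_tt E).sub_const _).abs) measurable_const
  have mGi : Measurable ((GP n M E)ᶜ.indicator (fun _ : Fin n → V => (1 : ℝ))) := measurable_const.indicator mG.compl
  -- bounds
  have avo0 : ∀ (W : Submodule ℝ V) (x : V) {ψ : V → ℝ}, (∀ y, 0 ≤ ψ y) → 0 ≤ avo W x ψ := by
    intro W x ψ hψ
    rw [avo_eq]; exact av_nonneg _ hψ
  have avo1 : ∀ (W : Submodule ℝ V) (x : V) {ψ : V → ℝ}, (∀ y, ψ y ≤ 1) → avo W x ψ ≤ 1 := by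
    intro W x ψ hψ
    rw [avo_eq]; exact av_le' _ zero_le_one fun y _ => hψ y
  have hBabs : ∀ (X : Fin n → V) (x : V), ‖x‖ ≤ 1 → 0 ≤ ‖rv X x‖ * avo (oc X) x φ ∧ ‖rv X x‖ * avo (oc X) x φ ≤ 1 := by
    intro X x hx
    refine ⟨mul_nonneg (norm_nonneg _) (avo0 _ _ h0), ?_⟩
    calc ‖rv X x‖ * avo (oc X) x φ ≤ 1 * 1 :=
          mul_le_mul (rv_le X hx) (avo1 _ _ h1) (avo0 _ _ h0) zero_le_one
      _ = 1 := one_mul _
  -- the pointwise inequality
  have key : ∀ X : Fin n → V, wv X ≠ 0 → (∀ i, ‖X i‖ = 1) →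
      av E (fun x => ‖rv X x‖ * avo (oc X) x φ) ≤ √(2 * M) * av (oc X) φ +
        (S * av E (fun x => avo (oc X) x (Hᶜ.indicator (fun _ => (1 : ℝ)))) +
          S * (GP n M E)ᶜ.indicator (fun _ => (1 : ℝ)) X) := by
    intro X hX _
    have hfW := finrank_oc hX
    have hW : Module.finrank ℝ (oc X) = Module.finrank ℝ E + 1 := by omega
    have hsb : ∀ x : V, 1 ≤ Module.finrank ℝ (sb (oc X) x) := by
      intro x
      by_cases hx : (oc X).starProjection x = 0
      · rw [sb_of_eq_zero hx, hW]; omega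
      · have := finrank_sb hx; omega
    have t1 : 0 ≤ av (oc X) φ := av_nonneg _ h0
    have t2 : 0 ≤ av E (fun x => avo (oc X) x (Hᶜ.indicator (fun _ => (1 : ℝ)))) :=
      av_nonneg _ fun x => avo0 _ _ hind0
    have t3 : 0 ≤ (GP n M E)ᶜ.indicator (fun _ => (1 : ℝ)) X := indicator_nonneg (fun _ _ => zero_le_one) X
    by_cases hG : X ∈ GP n M E
    · have htt : 1 < tt E (oc X) := by
        have h2 : |tt E (oc X) - ((d : ℝ) - (n + 1 : ℕ)) ^ 2 / (d : ℝ)| ≤
          ((d : ℝ) - (n + 1 : ℕ)) ^ 2 / (d : ℝ) / (50 * M ^ 2) := hG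
        have h3 : 2 ≤ ((d : ℝ) - (n + 1 : ℕ)) ^ 2 / (d : ℝ) := by
          have e : ((d : ℝ) - (n + 1 : ℕ)) ^ 2 / (d : ℝ) = ((d : ℝ) - (n + 1 : ℕ)) * b := by
            rw [hbdef]; ring
          rw [e]
          have h4 : 100 * M * b ≤ ((d : ℝ) - (n + 1 : ℕ)) * b := mul_le_mul_of_nonneg_right hkM hb0.le
          nlinarith
        have h5 : ((d : ℝ) - (n + 1 : ℕ)) ^ 2 / (d : ℝ) / (50 * M ^ 2) ≤ ((d : ℝ) - (n + 1 : ℕ)) ^ 2 / (d : ℝ) / 50 := by
          apply div_le_div_of_nonneg_left (by linarith) (by norm_num); nlinarith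
        have h6 := (abs_le.1 h2).1
        linarith
      have e1 : ∀ x : V, ‖x‖ ≤ 1 → ‖rv X x‖ * avo (oc X) x φ ≤
          ‖(oc X).starProjection x‖ * avo (oc X) x (H.indicator φ) +
            S * avo (oc X) x (Hᶜ.indicator (fun _ => (1 : ℝ))) := by
        intro x hx
        have e2 : avo (oc X) x φ ≤ avo (oc X) x (H.indicator φ) +
            S * avo (oc X) x (Hᶜ.indicator (fun _ => (1 : ℝ))) := by
          rw [avo_eq, avo_eq, avo_eq, ← av_mul, ← av_add' _ hφH (h1H.const_mul S) (C := 1) (D := S)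
            (fun y _ => by rw [abs_of_nonneg (hindφ0 y)]; exact (hindφ1 y).trans (h1 y))
            (fun y _ => by
              rw [abs_of_nonneg (mul_nonneg hS0 (hind0 y))]
              exact mul_le_of_le_one_right hS0 (hind1 y))]
          refine av_mono_unit _ (hsb x) hφ (hφH.add (h1H.const_mul S)) (C := 1) (D := 1 + S) (fun y _ => habsφ y)
            (fun y _ => ?_) (fun y hy => ?_)
          · rw [abs_of_nonneg (add_nonneg (hindφ0 y) (mul_nonneg hS0 (hind0 y)))]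
            exact add_le_add ((hindφ1 y).trans (h1 y)) (mul_le_of_le_one_right hS0 (hind1 y))
          · by_cases hyH : y ∈ H
            · rw [indicator_of_mem hyH, indicator_of_notMem (by simpa using hyH)]; simp
            · rw [indicator_of_notMem hyH, indicator_of_mem (by simpa using hyH)]
              simpa using hS y hy
        have e3 : ‖rv X x‖ ≤ 1 := rv_le X hx
        have e4 : 0 ≤ S * avo (oc X) x (Hᶜ.indicator (fun _ => (1 : ℝ))) := mul_nonneg hS0 (avo0 _ _ hind0)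
        have e5 : ‖(oc X).starProjection x‖ = ‖rv X x‖ := by rw [rv_eq]
        rw [e5]
        have e6 := mul_le_mul_of_nonneg_left e2 (norm_nonneg (rv X x))
        have e7 := mul_le_of_le_one_left e4 e3
        linarith
      have mH1 : Measurable (fun x : V => ‖(oc X).starProjection x‖ * avo (oc X) x (H.indicator φ)) := by
        refine Measurable.mul (by fun_prop) ?_
        exact meas_avo' (oc X) (β := V) (x := fun x => x) measurable_id (Φ := fun _ => H.indicator φ)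
          (hφH.comp measurable_snd)
      have mH2 : Measurable (fun x : V => S * avo (oc X) x (Hᶜ.indicator (fun _ => (1 : ℝ)))) := by
        refine Measurable.const_mul ?_ S
        exact meas_avo' (oc X) (β := V) (x := fun x => x) measurable_id (Φ := fun _ => Hᶜ.indicator (fun _ => (1 : ℝ)))
          (h1H.comp measurable_snd)
      have bH1 : ∀ x : V, ‖x‖ ≤ 1 → |‖(oc X).starProjection x‖ * avo (oc X) x (H.indicator φ)| ≤ 1 := by
        intro x hx
        rw [abs_of_nonneg (mul_nonneg (norm_nonneg _) (avo0 _ _ hindφ0))]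
        calc ‖(oc X).starProjection x‖ * avo (oc X) x (H.indicator φ) ≤ 1 * 1 :=
            mul_le_mul (proj_le _ hx) (avo1 _ _ fun y => (hindφ1 y).trans (h1 y)) (avo0 _ _ hindφ0) zero_le_one
          _ = 1 := one_mul _
      have bH2 : ∀ x : V, ‖x‖ ≤ 1 → |S * avo (oc X) x (Hᶜ.indicator (fun _ => (1 : ℝ)))| ≤ S := by
        intro x _
        rw [abs_of_nonneg (mul_nonneg hS0 (avo0 _ _ hind0))]
        exact mul_le_of_le_one_right hS0 (avo1 _ _ hind1)
      have s1 : av E (fun x => ‖rv X x‖ * avo (oc X) x φ) ≤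
          av E (fun x => ‖(oc X).starProjection x‖ * avo (oc X) x (H.indicator φ)) +
            av E (fun x => S * avo (oc X) x (Hᶜ.indicator (fun _ => (1 : ℝ)))) := by
        rw [← av_add' E mH1 mH2 bH1 bH2]
        refine av_mono' E (mB.comp measurable_prodMk_left) (mH1.add mH2) (C := 1) (D := 1 + S) (fun x hx => ?_)
          (fun x hx => ?_) e1
        · have := hBabs X x hx
          show |‖rv X x‖ * avo (oc X) x φ| ≤ 1
          rw [abs_of_nonneg this.1]; exact this.2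
        · exact (abs_add_le _ _).trans (add_le_add (bH1 x hx) (bH2 x hx))
      have s2 : av E (fun x => ‖(oc X).starProjection x‖ * avo (oc X) x (H.indicator φ)) ≤ (√c0)⁻¹ * av (oc X) φ := by
        have hcoi := coi_upper E (oc X) rfl hW hk2 htt (Φ := fun _ y => φ y) (hφ.comp measurable_snd)
          (fun _ y => h0 y) (C := 1) (fun _ y => h1 y) hc0
        refine hcoi.trans (mul_le_mul_of_nonneg_left ?_ (inv_nonneg.2 (Real.sqrt_nonneg _)))
        have q1 : ∀ y : V, avo E y (fun x => ‖(oc X).starProjection x‖ ^ 2 * φ y) ≤ φ y := by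
          intro y
          rw [avo_eq]
          refine av_le' _ (h0 y) fun x hx => ?_
          exact mul_le_of_le_one_left (h0 y) (pow_le_one₀ (norm_nonneg _) (proj_le _ hx))
        have q0 : ∀ y : V, 0 ≤ avo E y (fun x => ‖(oc X).starProjection x‖ ^ 2 * φ y) := by
          intro y
          exact avo0 _ _ fun x => mul_nonneg (sq_nonneg _) (h0 y)
        have q2 : ∀ y : V, H.indicator (fun y => avo E y (fun x => ‖(oc X).starProjection x‖ ^ 2 * φ y)) y ≤ φ y := by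
          intro y
          by_cases hyH : y ∈ H
          · rw [indicator_of_mem hyH]; exact q1 y
          · rw [indicator_of_notMem hyH]; exact h0 y
        refine av_mono' (oc X) ?_ hφ (C := 1) (D := 1) (fun y _ => ?_) (fun y _ => habsφ y) (fun y _ => q2 y)
        · refine Measurable.indicator ?_ hHm
          refine meas_avo' E (β := V) (x := fun y => y) measurable_id
            (Φ := fun y x => ‖(oc X).starProjection x‖ ^ 2 * φ y) ?_
          simp only [Function.uncurry_def]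
          fun_prop
        · rw [abs_of_nonneg (indicator_nonneg (fun z _ => q0 z) y)]
          exact (q2 y).trans (h1 y)
      rw [av_mul] at s1
      have s3 : (√c0)⁻¹ * av (oc X) φ ≤ √(2 * M) * av (oc X) φ := mul_le_mul_of_nonneg_right hsq t1
      have s4 : 0 ≤ S * (GP n M E)ᶜ.indicator (fun _ => (1 : ℝ)) X := mul_nonneg hS0 t3
      linarith
    · have s1 : av E (fun x => ‖rv X x‖ * avo (oc X) x φ) ≤ S := by
        refine av_le' E hS0 fun x hx => ?_
        have e1 : avo (oc X) x φ ≤ S := by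
          rw [avo_eq]
          refine (av_mono_unit _ (hsb x) hφ measurable_const (C := 1) (D := S) (fun y _ => habsφ y)
            (fun y _ => by rw [abs_of_nonneg hS0]) (fun y hy => hS y hy)).trans ?_
          exact av_le' _ hS0 fun _ _ => le_rfl
        exact (mul_le_of_le_one_left (avo0 _ _ h0) (rv_le X hx)).trans e1
      rw [indicator_of_mem (by simpa using hG)]
      have s2 : 0 ≤ √(2 * M) * av (oc X) φ := mul_nonneg (Real.sqrt_nonneg _) t1
      have s3 := mul_nonneg hS0 t2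
      linarith
  -- integration
  have fub : iw n ρ (fun X => av E (fun x => avo (oc X) x (Hᶜ.indicator (fun _ => (1 : ℝ))))) ≤
      2 * pz d * en n ρ := by
    rw [iw_av_swap hρ n E (mA h1H) (C := 1) (fun X x _ => by
      rw [abs_of_nonneg (avo0 _ _ hind0)]; exact avo1 _ _ hind1)]
    have hen : 0 ≤ en n ρ := integral_nonneg fun X => wv_nn X
    refine av_le' E ?_ fun x _ => good_dir hP hN hI hj hI' hE x
    exact mul_nonneg (mul_nonneg zero_le_two (by unfold pz; positivity)) hen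
  have gp := good_pair hP hN hI hj hI' hE
  have C0 : 0 ≤ √(2 * M) := Real.sqrt_nonneg _
  have bd1 : ∀ X : Fin n → V, |av E (fun x => ‖rv X x‖ * avo (oc X) x φ)| ≤ √(2 * M) + (S + S) + 1 := by
    intro X
    rw [abs_of_nonneg (av_nn' E fun x hx => (hBabs X x hx).1)]
    have := av_le' E (zero_le_one) fun x hx => (hBabs X x hx).2
    linarith
  have b2 : ∀ X : Fin n → V, |√(2 * M) * av (oc X) φ| ≤ √(2 * M) := by
    intro X
    rw [abs_of_nonneg (mul_nonneg C0 (av_nonneg _ h0))]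
    exact mul_le_of_le_one_right C0 (av_le' _ zero_le_one fun x _ => h1 x)
  have b3 : ∀ X : Fin n → V, |S * av E (fun x => avo (oc X) x (Hᶜ.indicator (fun _ => (1 : ℝ))))| ≤ S := by
    intro X
    rw [abs_of_nonneg (mul_nonneg hS0 (av_nonneg _ fun x => avo0 _ _ hind0))]
    exact mul_le_of_le_one_right hS0 (av_le' _ zero_le_one fun x _ => avo1 _ _ hind1)
  have b4 : ∀ X : Fin n → V, |S * (GP n M E)ᶜ.indicator (fun _ => (1 : ℝ)) X| ≤ S := by
    intro X
    rw [abs_of_nonneg (mul_nonneg hS0 (indicator_nonneg (fun _ _ => zero_le_one) X))]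
    refine mul_le_of_le_one_right hS0 ?_
    by_cases hx : X ∈ (GP n M E)ᶜ
    · rw [indicator_of_mem hx]
    · rw [indicator_of_notMem hx]; norm_num
  have b34 : ∀ X : Fin n → V, |S * av E (fun x => avo (oc X) x (Hᶜ.indicator (fun _ => (1 : ℝ)))) +
      S * (GP n M E)ᶜ.indicator (fun _ => (1 : ℝ)) X| ≤ S + S := fun X =>
    (abs_add_le _ _).trans (add_le_add (b3 X) (b4 X))
  calc iw n ρ (fun X => av E (fun x => ‖rv X x‖ * avo (oc X) x φ))
      ≤ iw n ρ (fun X => √(2 * M) * av (oc X) φ +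
        (S * av E (fun x => avo (oc X) x (Hᶜ.indicator (fun _ => (1 : ℝ)))) +
          S * (GP n M E)ᶜ.indicator (fun _ => (1 : ℝ)) X)) := by
        refine iw_mono hρ mAv ((mC.const_mul _).add ((mD.const_mul _).add (mGi.const_mul _)))
          (C := √(2 * M) + (S + S) + 1) bd1 (fun X => ?_) key
        have := (abs_add_le (√(2 * M) * av (oc X) φ) (S * av E (fun x => avo (oc X) x (Hᶜ.indicator (fun _ => (1 : ℝ)))) +
          S * (GP n M E)ᶜ.indicator (fun _ => (1 : ℝ)) X)).trans (add_le_add (b2 X) (b34 X))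
        linarith
    _ = √(2 * M) * iw n ρ (fun X => av (oc X) φ) +
        (S * iw n ρ (fun X => av E (fun x => avo (oc X) x (Hᶜ.indicator (fun _ => (1 : ℝ))))) +
          S * iw n ρ ((GP n M E)ᶜ.indicator (fun _ => (1 : ℝ)))) := by
        have a1 := iw_add hρ (Φ := fun X => √(2 * M) * av (oc X) φ)
          (Ψ := fun X => S * av E (fun x => avo (oc X) x (Hᶜ.indicator (fun _ => (1 : ℝ)))) +
            S * (GP n M E)ᶜ.indicator (fun _ => (1 : ℝ)) X) (mC.const_mul _)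
          ((mD.const_mul _).add (mGi.const_mul _)) (C := √(2 * M) + (S + S))
          (fun X => (b2 X).trans (by linarith)) (fun X => (b34 X).trans (by linarith))
        have a2 := iw_add hρ (Φ := fun X => S * av E (fun x => avo (oc X) x (Hᶜ.indicator (fun _ => (1 : ℝ)))))
          (Ψ := fun X => S * (GP n M E)ᶜ.indicator (fun _ => (1 : ℝ)) X) (mD.const_mul _)
          (mGi.const_mul _) (C := S) b3 b4
        rw [a1, a2, iw_mul, iw_mul, iw_mul]
    _ ≤ √(2 * M) * iw n ρ (fun X => av (oc X) φ) +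
        (S * (2 * pz d * en n ρ) + S * (pz d * en n ρ)) := by
        have z1 := mul_le_mul_of_nonneg_left fub hS0
        have z2 := mul_le_mul_of_nonneg_left gp hS0
        linarith
    _ = √(2 * M) * iw n ρ (fun X => av (oc X) φ) + 3 * pz d * S * en n ρ := by ring

private theorem dl_tiny {d n : ℕ} {M : ℝ} (hP : Par d (n + 1) M) : 0 < dl d M ∧ dl d M ≤ 1 / 1000 := by
  obtain ⟨h1, h2, _⟩ := dl_small hP
  have hM4 : 1 ≤ M ^ 4 := one_le_pow₀ hP.one
  refine ⟨h1, ?_⟩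
  have h3 : dl d M ≤ dl d M * M ^ 4 := le_mul_of_one_le_right h1.le hM4
  refine h3.trans (h2.trans ?_)
  norm_num

private theorem pt2 {n : ℕ} {M : ℝ} (hP : Par (Module.finrank ℝ V) (n + 1) M) {ρ : Measure V}
    (hN : Nice (n + 1) M ρ) (hI : Iso M ρ) (hj : 0 < en (n + 1) ρ) (hI' : Iso M (Nop (n + 1) ρ)) {u : V}
    (hu : ‖u‖ = 1) :
    en (n + 1) ρ * ‖UU (Nop (n + 1) ρ) u‖ ^ 2 ≤
      2 * (Module.finrank ℝ V : ℝ) * iw n ρ (fun X => ‖rv X u‖ * avo (oc X) u (fun ξ => ‖UU ρ ξ‖ ^ 2)) := by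
  obtain ⟨hd, hM, hb1, hdM, hkM, hkd⟩ := par_num hP
  obtain ⟨hδ0, hδ⟩ := dl_tiny hP
  have hρ := hN.us
  have hK : ((n : ℝ) + 1) ^ 2 * (1 + 13 * dl (Module.finrank ℝ V) M) / (Module.finrank ℝ V : ℝ) ≤
      2 * (Module.finrank ℝ V : ℝ) := by
    rw [div_le_iff₀ hd]
    have h1 : (n : ℝ) + 1 ≤ (Module.finrank ℝ V : ℝ) := by
      have := hP.hjd
      have h2 : n + 1 ≤ Module.finrank ℝ V := this.le
      exact_mod_cast h2
    have h2 : ((n : ℝ) + 1) ^ 2 ≤ (Module.finrank ℝ V : ℝ) ^ 2 := pow_le_pow_left₀ (by positivity) h1 2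
    have h3 : 1 + 13 * dl (Module.finrank ℝ V) M ≤ 2 := by linarith
    calc ((n : ℝ) + 1) ^ 2 * (1 + 13 * dl (Module.finrank ℝ V) M) ≤ (Module.finrank ℝ V : ℝ) ^ 2 * 2 :=
          mul_le_mul h2 h3 (by linarith) (by positivity)
      _ = 2 * (Module.finrank ℝ V : ℝ) * (Module.finrank ℝ V : ℝ) := by ring
  have hle : ∀ ξ : V, ⟪UU ρ ξ, u⟫ ^ 2 ≤ ‖UU ρ ξ‖ ^ 2 := by
    intro ξ
    have h1 := abs_real_inner_le_norm (UU ρ ξ) u
    rw [hu, mul_one] at h1
    rw [← sq_abs ⟪UU ρ ξ, u⟫]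
    exact pow_le_pow_left₀ (abs_nonneg _) h1 2
  have hle1 : ∀ ξ : V, ‖UU ρ ξ‖ ^ 2 ≤ 1 := fun ξ => pow_le_one₀ (norm_nonneg _) (norm_UU_le hρ ξ)
  have mU : Measurable (fun ξ : V => ‖UU ρ ξ‖ ^ 2) := ((meas_UU hρ).norm.pow_const 2)
  have mI : Measurable (fun ξ : V => ⟪UU ρ ξ, u⟫ ^ 2) := ((meas_UU hρ).inner measurable_const).pow_const 2
  have mF : ∀ {ψ : V → ℝ}, Measurable ψ → Measurable (fun X : Fin n → V => ‖rv X u‖ * avo (oc X) u ψ) := by
    intro ψ hψ
    refine Measurable.mul ?_ ?_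
    · exact (meas_rv.comp (measurable_id.prodMk measurable_const)).norm
    · exact meas_avo (β := Fin n → V) (f := fun X => X) measurable_id (x := fun _ => u) measurable_const
        (Φ := fun _ => ψ) (hψ.comp measurable_snd)
  have bF : ∀ {ψ : V → ℝ}, (∀ ξ, 0 ≤ ψ ξ) → (∀ ξ, ψ ξ ≤ 1) → ∀ X : Fin n → V, 0 ≤ ‖rv X u‖ * avo (oc X) u ψ ∧
      ‖rv X u‖ * avo (oc X) u ψ ≤ 1 := by
    intro ψ h0 h1 X
    rw [avo_eq]
    have h2 := av_nonneg (sb (oc X) u) h0
    have h3 := av_le' (sb (oc X) u) zero_le_one fun x _ => h1 x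
    refine ⟨mul_nonneg (norm_nonneg _) h2, ?_⟩
    calc ‖rv X u‖ * av (sb (oc X) u) ψ ≤ 1 * 1 := mul_le_mul (rv_le X hu.le) h3 h2 zero_le_one
      _ = 1 := one_mul _
  have hiw : iw n ρ (fun X => ‖rv X u‖ * avo (oc X) u (fun ξ => ⟪UU ρ ξ, u⟫ ^ 2)) ≤
      iw n ρ (fun X => ‖rv X u‖ * avo (oc X) u (fun ξ => ‖UU ρ ξ‖ ^ 2)) := by
    refine iw_mono hρ (mF mI) (mF mU) (C := 1) (fun X => ?_) (fun X => ?_) (fun X _ _ => ?_)
    · have := bF (ψ := fun ξ => ⟪UU ρ ξ, u⟫ ^ 2) (fun ξ => sq_nonneg _) (fun ξ => (hle ξ).trans (hle1 ξ)) X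
      rw [abs_of_nonneg this.1]; exact this.2
    · have := bF (ψ := fun ξ => ‖UU ρ ξ‖ ^ 2) (fun ξ => sq_nonneg _) hle1 X
      rw [abs_of_nonneg this.1]; exact this.2
    · refine mul_le_mul_of_nonneg_left ?_ (norm_nonneg _)
      rw [avo_eq, avo_eq]
      exact av_mono' _ mI mU (C := 1) (D := 1)
        (fun x _ => by rw [abs_of_nonneg (sq_nonneg _)]; exact (hle x).trans (hle1 x))
        (fun x _ => by rw [abs_of_nonneg (sq_nonneg _)]; exact hle1 x) (fun x _ => hle x)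
  have hiw0 : 0 ≤ iw n ρ (fun X => ‖rv X u‖ * avo (oc X) u (fun ξ => ‖UU ρ ξ‖ ^ 2)) :=
    integral_nonneg fun X => mul_nonneg (wv_nn X) (bF (fun ξ => sq_nonneg _) hle1 X).1
  refine (pt_bound hP hN hI hj hI' hu).trans ?_
  have hK0 : 0 ≤ ((n : ℝ) + 1) ^ 2 * (1 + 13 * dl (Module.finrank ℝ V) M) / (Module.finrank ℝ V : ℝ) := by
    apply div_nonneg _ hd.le
    apply mul_nonneg (by positivity); linarith
  exact (mul_le_mul_of_nonneg_left hiw hK0).trans (mul_le_mul_of_nonneg_right hK hiw0)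

private theorem sq_num {d n : ℕ} {M : ℝ} (hP : Par d (n + 1) M) :
    1 ≤ √M * √(((d : ℝ) - (n + 1 : ℕ)) / (d : ℝ)) := by
  obtain ⟨hd, hM, hb1, hdM, hkM, hkd⟩ := par_num hP
  rw [← Real.sqrt_mul (by linarith)]
  exact Real.one_le_sqrt.2 hb1

private theorem en_le {n : ℕ} {M : ℝ} (hP : Par (Module.finrank ℝ V) (n + 1) M) {ρ : Measure V}
    (hN : Nice (n + 1) M ρ) (hI : Iso M ρ) : en n ρ ≤ 11 / 10 * √M * en (n + 1) ρ := by
  obtain ⟨hδ0, hδ⟩ := dl_tiny hP
  have h1 := (en_ratio hP hN hI).1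
  have h2 := sq_num hP
  have h3 : 0 ≤ en n ρ := integral_nonneg fun X => wv_nn X
  set δ := dl (Module.finrank ℝ V) M
  set r := √(((Module.finrank ℝ V : ℝ) - (n + 1 : ℕ)) / (Module.finrank ℝ V : ℝ))
  have h4 : 1 ≤ 11 / 10 * (1 - 2 * δ) := by linarith
  have h5 : 1 ≤ (11 / 10 * (1 - 2 * δ)) * (√M * r) := by nlinarith
  have h6 : 0 ≤ 11 / 10 * √M := by positivity
  calc en n ρ ≤ ((11 / 10 * (1 - 2 * δ)) * (√M * r)) * en n ρ := le_mul_of_one_le_left h3 h5
    _ = 11 / 10 * √M * ((1 - 2 * δ) * r * en n ρ) := by ring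
    _ ≤ 11 / 10 * √M * en (n + 1) ρ := mul_le_mul_of_nonneg_left h1 h6

private theorem ld2 {n : ℕ} {M : ℝ} (hP : Par (Module.finrank ℝ V) (n + 1) M) {ρ : Measure V}
    (hN : Nice (n + 1) M ρ)
    (hI : Iso M ρ) (hj : 0 < en (n + 1) ρ) (hI' : Iso M (Nop (n + 1) ρ)) (hj' : 0 < en (n + 1) (Nop (n + 1) ρ))
    {φ : V → ℝ} (hφ : Measurable φ) (h0 : ∀ x, 0 ≤ φ x) {C : ℝ} (hC : ∀ x, φ x ≤ C) :
    iw n (Nop (n + 1) ρ) (fun X => av (oc X) φ) ≤
      11 / 10 * √M * (en (n + 1) (Nop (n + 1) ρ) * ∫ x, φ x ∂(Nop (n + 1) (Nop (n + 1) ρ))) := by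
  obtain ⟨hδ0, hδ⟩ := dl_tiny hP
  have h1 := ld_next hP hN hI hj hI' hj' hφ h0 hC
  have h2 := sq_num hP
  have h3 : 0 ≤ iw n (Nop (n + 1) ρ) (fun X => av (oc X) φ) :=
    integral_nonneg fun X => mul_nonneg (wv_nn X) (av_nonneg _ h0)
  set δ := dl (Module.finrank ℝ V) M
  set r := √(((Module.finrank ℝ V : ℝ) - (n + 1 : ℕ)) / (Module.finrank ℝ V : ℝ))
  have h4 : 1 ≤ 11 / 10 * (1 - 3 * δ) := by linarith
  have h5 : 1 ≤ (11 / 10 * (1 - 3 * δ)) * (√M * r) := by nlinarith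
  have h6 : 0 ≤ 11 / 10 * √M := by positivity
  calc iw n (Nop (n + 1) ρ) (fun X => av (oc X) φ)
      ≤ ((11 / 10 * (1 - 3 * δ)) * (√M * r)) * iw n (Nop (n + 1) ρ) (fun X => av (oc X) φ) :=
        le_mul_of_one_le_left h3 h5
    _ = 11 / 10 * √M * ((1 - 3 * δ) * r * iw n (Nop (n + 1) ρ) (fun X => av (oc X) φ)) := by ring
    _ ≤ _ := mul_le_mul_of_nonneg_left h1 h6

private theorem smooth_av {n : ℕ} {M : ℝ} (hP : Par (Module.finrank ℝ V) (n + 1) M) {ρ : ℕ → Measure V}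
    (hc : Ch (n + 1) ρ) (hN : ∀ i, Nice (n + 1) M (ρ i)) (hI : ∀ i, Iso M (ρ i)) (m : ℕ) {S : ℝ}
    (hS : ∀ y, ‖y‖ = 1 → ‖UU (ρ (m + 1)) y‖ ^ 2 ≤ S) {E : Submodule ℝ V}
    (hE : Module.finrank ℝ E + (n + 1) = Module.finrank ℝ V) :
    av E (fun x => ‖UU (ρ (m + 2)) x‖ ^ 2) ≤ 2 * (Module.finrank ℝ V : ℝ) *
      (√(2 * M) * (11 / 10 * √M * ∫ u, ‖UU (ρ (m + 1)) u‖ ^ 2 ∂(ρ (m + 2))) +
        3 * pz (Module.finrank ℝ V) * S * (11 / 10 * √M)) := by
  obtain ⟨hd, hM, hb1, hdM, hkM, hkd⟩ := par_num hP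
  have st0 : ρ (m + 1) = Nop (n + 1) (ρ m) := hc.step m
  have st1 : ρ (m + 2) = Nop (n + 1) (ρ (m + 1)) := hc.step (m + 1)
  have hρ := hc.us (m + 1)
  have hprob := hρ.prob
  have hkE : (Module.finrank ℝ E : ℝ) = (Module.finrank ℝ V : ℝ) - (n + 1 : ℕ) := by
    have : ((Module.finrank ℝ E + (n + 1) : ℕ) : ℝ) = (Module.finrank ℝ V : ℝ) := by exact_mod_cast hE
    push_cast at this ⊢; linarith
  have hE1 : 1 ≤ Module.finrank ℝ E := by
    have : (1 : ℝ) ≤ (Module.finrank ℝ E : ℝ) := by rw [hkE]; linarith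
    exact_mod_cast this
  set e : ℝ := en (n + 1) (ρ (m + 1)) with hedef
  have he : 0 < e := hc.pos (m + 1)
  set φ : V → ℝ := fun ξ => ‖UU (ρ (m + 1)) ξ‖ ^ 2 with hφdef
  have mφ : Measurable φ := (meas_UU hρ).norm.pow_const 2
  have φ0 : ∀ ξ, 0 ≤ φ ξ := fun ξ => sq_nonneg _
  have φ1 : ∀ ξ, φ ξ ≤ 1 := fun ξ => pow_le_one₀ (norm_nonneg _) (norm_UU_le hρ ξ)
  have hρ2 := hc.us (m + 2)
  have mU2 : Measurable (fun x : V => ‖UU (ρ (m + 2)) x‖ ^ 2) := (meas_UU hρ2).norm.pow_const 2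
  have U21 : ∀ x : V, ‖UU (ρ (m + 2)) x‖ ^ 2 ≤ 1 := fun x => pow_le_one₀ (norm_nonneg _) (norm_UU_le hρ2 x)
  have hI2 : Iso M (Nop (n + 1) (ρ (m + 1))) := by rw [← st1]; exact hI (m + 2)
  have hpt : ∀ x : V, ‖x‖ = 1 → e * ‖UU (ρ (m + 2)) x‖ ^ 2 ≤
      2 * (Module.finrank ℝ V : ℝ) * iw n (ρ (m + 1)) (fun X => ‖rv X x‖ * avo (oc X) x φ) := by
    intro x hx
    have := pt2 hP (hN (m + 1)) (hI (m + 1)) (hc.pos (m + 1)) hI2 hx
    rw [← st1] at this
    exact this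
  have mA : Measurable (Function.uncurry (fun (X : Fin n → V) (x : V) => ‖rv X x‖ * avo (oc X) x φ)) :=
    meas_rv.norm.mul (meas_avo (β := (Fin n → V) × V) (f := fun p => p.1) measurable_fst (x := fun p => p.2)
      measurable_snd (Φ := fun _ => φ) (mφ.comp measurable_snd))
  have bA : ∀ (X : Fin n → V) (x : V), ‖x‖ ≤ 1 → 0 ≤ ‖rv X x‖ * avo (oc X) x φ ∧ ‖rv X x‖ * avo (oc X) x φ ≤ 1 := by
    intro X x hx
    rw [avo_eq]
    have h2 := av_nonneg (sb (oc X) x) φ0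
    have h3 := av_le' (sb (oc X) x) zero_le_one fun y _ => φ1 y
    refine ⟨mul_nonneg (norm_nonneg _) h2, ?_⟩
    calc ‖rv X x‖ * av (sb (oc X) x) φ ≤ 1 * 1 := mul_le_mul (rv_le X hx) h3 h2 zero_le_one
      _ = 1 := one_mul _
  have mJ : Measurable (fun x : V => iw n (ρ (m + 1)) (fun X => ‖rv X x‖ * avo (oc X) x φ)) := by
    unfold iw
    have h1 : StronglyMeasurable (Function.uncurry fun (x : V) (X : Fin n → V) =>
        wv X * (‖rv X x‖ * avo (oc X) x φ)) := by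
      refine Measurable.stronglyMeasurable ?_
      have e1 : (Function.uncurry fun (x : V) (X : Fin n → V) => wv X * (‖rv X x‖ * avo (oc X) x φ)) =
          fun p : V × (Fin n → V) => wv p.2 *
            Function.uncurry (fun (X : Fin n → V) (x : V) => ‖rv X x‖ * avo (oc X) x φ) (p.2, p.1) := rfl
      rw [e1]
      exact ((measurable_wv n).comp measurable_snd).mul (mA.comp (measurable_snd.prodMk measurable_fst))
    exact h1.integral_prod_right.measurable
  have en0 : 0 ≤ en n (ρ (m + 1)) := integral_nonneg fun X => wv_nn X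
  have bJ : ∀ x : V, ‖x‖ ≤ 1 → 0 ≤ iw n (ρ (m + 1)) (fun X => ‖rv X x‖ * avo (oc X) x φ) ∧
      iw n (ρ (m + 1)) (fun X => ‖rv X x‖ * avo (oc X) x φ) ≤ 1 * en n (ρ (m + 1)) := by
    intro x hx
    refine ⟨integral_nonneg fun X => mul_nonneg (wv_nn X) (bA X x hx).1, ?_⟩
    rw [← iw_const (ρ (m + 1)) n 1]
    refine iw_mono hρ (mA.comp (measurable_id.prodMk measurable_const)) measurable_const (C := 1) (fun X => ?_)
      (fun X => by simp) (fun X _ _ => (bA X x hx).2)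
    show |‖rv X x‖ * avo (oc X) x φ| ≤ 1
    rw [abs_of_nonneg (bA X x hx).1]; exact (bA X x hx).2
  have hd2 : 0 ≤ 2 * (Module.finrank ℝ V : ℝ) := by linarith
  have s1 : e * av E (fun x => ‖UU (ρ (m + 2)) x‖ ^ 2) ≤
      2 * (Module.finrank ℝ V : ℝ) * iw n (ρ (m + 1)) (fun X => av E (fun x => ‖rv X x‖ * avo (oc X) x φ)) := by
    rw [iw_av_swap hρ n E mA (C := 1) (fun X x hx => by
      rw [abs_of_nonneg (bA X x hx).1]; exact (bA X x hx).2), ← av_mul, ← av_mul]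
    refine av_mono_unit E hE1 (mU2.const_mul _) (mJ.const_mul _) (C := e)
      (D := 2 * (Module.finrank ℝ V : ℝ) * (1 * en n (ρ (m + 1)))) (fun x _ => ?_) (fun x hx => ?_) hpt
    · rw [abs_of_nonneg (mul_nonneg he.le (sq_nonneg _))]
      exact mul_le_of_le_one_right he.le (U21 x)
    · rw [abs_of_nonneg (mul_nonneg hd2 (bJ x hx).1)]
      exact mul_le_mul_of_nonneg_left (bJ x hx).2 hd2
  have s2 := up_avg hP (hN (m + 1)) (hI (m + 1)) (hc.pos (m + 1)) hI2 hE mφ φ0 φ1 hS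
  have s3 : iw n (ρ (m + 1)) (fun X => av (oc X) φ) ≤ 11 / 10 * √M * (e * ∫ x, φ x ∂(ρ (m + 2))) := by
    have hI1 : Iso M (Nop (n + 1) (ρ m)) := by rw [← st0]; exact hI (m + 1)
    have hj1 : 0 < en (n + 1) (Nop (n + 1) (ρ m)) := by rw [← st0]; exact hc.pos (m + 1)
    have := ld2 hP (hN m) (hI m) (hc.pos m) hI1 hj1 mφ φ0 φ1
    rw [← st0, ← st1] at this
    exact this
  have s4 := en_le hP (hN (m + 1)) (hI (m + 1))
  have hS0 : 0 ≤ S := by
    have hnt : Nontrivial V := Module.nontrivial_of_finrank_pos (R := ℝ) (by exact_mod_cast hd)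
    obtain ⟨y, hy⟩ := exists_norm_eq V (zero_le_one : (0 : ℝ) ≤ 1)
    exact (sq_nonneg _).trans (hS y hy)
  have hpz : 0 ≤ pz (Module.finrank ℝ V) := by unfold pz; positivity
  have s5 : e * av E (fun x => ‖UU (ρ (m + 2)) x‖ ^ 2) ≤ e * (2 * (Module.finrank ℝ V : ℝ) *
      (√(2 * M) * (11 / 10 * √M * ∫ u, φ u ∂(ρ (m + 2))) +
        3 * pz (Module.finrank ℝ V) * S * (11 / 10 * √M))) := by
    calc e * av E (fun x => ‖UU (ρ (m + 2)) x‖ ^ 2)
        ≤ 2 * (Module.finrank ℝ V : ℝ) * (√(2 * M) * iw n (ρ (m + 1)) (fun X => av (oc X) φ) +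
          3 * pz (Module.finrank ℝ V) * S * en n (ρ (m + 1))) :=
          s1.trans (mul_le_mul_of_nonneg_left s2 hd2)
      _ ≤ 2 * (Module.finrank ℝ V : ℝ) * (√(2 * M) * (11 / 10 * √M * (e * ∫ x, φ x ∂(ρ (m + 2)))) +
          3 * pz (Module.finrank ℝ V) * S * (11 / 10 * √M * e)) := by
          refine mul_le_mul_of_nonneg_left ?_ hd2
          exact add_le_add (mul_le_mul_of_nonneg_left s3 (Real.sqrt_nonneg _))
            (mul_le_mul_of_nonneg_left s4 (mul_nonneg (mul_nonneg (by norm_num) hpz) hS0))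
      _ = _ := by ring
  exact le_of_mul_le_mul_left s5 he

theorem smooth {j : ℕ} {M : ℝ} (hP : Par (Module.finrank ℝ V) j M) {ρ : ℕ → Measure V} (hc : Ch j ρ)
    (hN : ∀ n, Nice j M (ρ n)) (hI : ∀ n, Iso M (ρ n)) (m : ℕ) {S : ℝ} (hS : ∀ y, ‖y‖ = 1 → ‖UU (ρ (m + 1)) y‖ ^ 2 ≤ S)
    {u : V} (hu : ‖u‖ = 1) :
    ‖UU (ρ (m + 3)) u‖ ^ 2 ≤ 32 * (Module.finrank ℝ V : ℝ) ^ 2 * M ^ 2 *
      ((∫ u, ‖UU (ρ (m + 1)) u‖ ^ 2 ∂(ρ (m + 2))) + pz (Module.finrank ℝ V) * S) := by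
  obtain ⟨n, rfl⟩ : ∃ n, j = n + 1 := ⟨j - 1, by have := hP.hj; omega⟩
  obtain ⟨hd, hM, hb1, hdM, hkM, hkd⟩ := par_num hP
  have st2 : ρ (m + 3) = Nop (n + 1) (ρ (m + 2)) := hc.step (m + 2)
  have hρ := hc.us (m + 2)
  have hprob := hρ.prob
  set I : ℝ := ∫ u, ‖UU (ρ (m + 1)) u‖ ^ 2 ∂(ρ (m + 2)) with hIdef
  have hI0 : 0 ≤ I := integral_nonneg fun x => sq_nonneg _
  have hS0 : 0 ≤ S := by
    exact (sq_nonneg _).trans (hS u hu)
  have hpz : 0 ≤ pz (Module.finrank ℝ V) := by unfold pz; positivity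
  set B : ℝ := 2 * (Module.finrank ℝ V : ℝ) * (√(2 * M) * (11 / 10 * √M * I) +
        3 * pz (Module.finrank ℝ V) * S * (11 / 10 * √M)) with hBdef
  have hB0 : 0 ≤ B := by
    have : 0 ≤ √(2 * M) := Real.sqrt_nonneg _
    have : 0 ≤ √M := Real.sqrt_nonneg _
    positivity
  set ψ : V → ℝ := fun ξ => ‖UU (ρ (m + 2)) ξ‖ ^ 2 with hψdef
  have mψ : Measurable ψ := (meas_UU hρ).norm.pow_const 2
  have ψ0 : ∀ ξ, 0 ≤ ψ ξ := fun ξ => sq_nonneg _
  have ψ1 : ∀ ξ, ψ ξ ≤ 1 := fun ξ => pow_le_one₀ (norm_nonneg _) (norm_UU_le hρ ξ)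
  have hI3 : Iso M (Nop (n + 1) (ρ (m + 2))) := by rw [← st2]; exact hI (m + 3)
  have hpt := pt2 hP (hN (m + 2)) (hI (m + 2)) (hc.pos (m + 2)) hI3 hu
  rw [← st2] at hpt
  have hiw : iw n (ρ (m + 2)) (fun X => ‖rv X u‖ * avo (oc X) u ψ) ≤ B * en n (ρ (m + 2)) := by
    rw [← iw_const (ρ (m + 2)) n B]
    have mF : Measurable (fun X : Fin n → V => ‖rv X u‖ * avo (oc X) u ψ) := by
      refine Measurable.mul ?_ ?_
      · exact (meas_rv.comp (measurable_id.prodMk measurable_const)).norm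
      · exact meas_avo (β := Fin n → V) (f := fun X => X) measurable_id (x := fun _ => u) measurable_const
          (Φ := fun _ => ψ) (mψ.comp measurable_snd)
    refine iw_mono hρ mF measurable_const (C := 1 + B) (fun X => ?_) (fun X => ?_) (fun X hX _ => ?_)
    · rw [avo_eq]
      have h2 := av_nonneg (sb (oc X) u) ψ0
      have h3 := av_le' (sb (oc X) u) zero_le_one fun x _ => ψ1 x
      rw [abs_of_nonneg (mul_nonneg (norm_nonneg _) h2)]
      have : ‖rv X u‖ * av (sb (oc X) u) ψ ≤ 1 * 1 := mul_le_mul (rv_le X hu.le) h3 h2 zero_le_one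
      linarith
    · rw [abs_of_nonneg hB0]; linarith
    · by_cases hr : (oc X).starProjection u = 0
      · rw [rv_eq, hr, norm_zero, zero_mul]; exact hB0
      · have h1 := finrank_sb hr
        have h2 := finrank_oc hX
        have hE : Module.finrank ℝ (sb (oc X) u) + (n + 1) = Module.finrank ℝ V := by omega
        rw [avo_eq]
        have h3 := smooth_av hP hc hN hI m hS hE
        have h4 := av_nonneg (sb (oc X) u) ψ0
        exact (mul_le_of_le_one_left h4 (rv_le X hu.le)).trans h3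
  have s4 := en_le hP (hN (m + 2)) (hI (m + 2))
  set e : ℝ := en (n + 1) (ρ (m + 2)) with hedef
  have he : 0 < e := hc.pos (m + 2)
  have s5 : e * ‖UU (ρ (m + 3)) u‖ ^ 2 ≤ e * (2 * (Module.finrank ℝ V : ℝ) * (B * (11 / 10 * √M))) := by
    calc e * ‖UU (ρ (m + 3)) u‖ ^ 2 ≤ 2 * (Module.finrank ℝ V : ℝ) * (B * (11 / 10 * √M * e)) := by
          refine hpt.trans (mul_le_mul_of_nonneg_left ?_ (by linarith))
          exact hiw.trans (mul_le_mul_of_nonneg_left s4 hB0)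
      _ = _ := by ring
  refine (le_of_mul_le_mul_left s5 he).trans ?_
  -- numerical inequality
  set r := √M with hrdef
  have hr2 : r * r = M := Real.mul_self_sqrt (by linarith)
  have hr1 : 1 ≤ r := Real.one_le_sqrt.2 hM
  have h2M : √(2 * M) ≤ 3 / 2 * r := by
    rw [Real.sqrt_mul (by norm_num)]
    refine mul_le_mul_of_nonneg_right ?_ (by linarith)
    rw [Real.sqrt_le_left (by norm_num)]; norm_num
  have hps : 0 ≤ pz (Module.finrank ℝ V) * S := mul_nonneg hpz hS0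
  set P := pz (Module.finrank ℝ V) * S with hPdef
  set D := (Module.finrank ℝ V : ℝ) with hDdef
  have q1 : 2 * D * (B * (11 / 10 * r)) =
      D ^ 2 * (4 * (121 / 100) * (√(2 * M) * (r * r) * I + 3 * (r * r) * P)) := by
    rw [hBdef, hPdef]; ring
  rw [q1, hr2]
  have q2 : √(2 * M) * M * I ≤ 3 / 2 * M ^ 2 * I := by
    have q3 : √(2 * M) ≤ 3 / 2 * M := h2M.trans (by nlinarith)
    have q4 : √(2 * M) * M ≤ 3 / 2 * M ^ 2 := by nlinarith
    exact mul_le_mul_of_nonneg_right q4 hI0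
  have q5 : M * P ≤ M ^ 2 * P := mul_le_mul_of_nonneg_right (by nlinarith) hps
  have q6 : 0 ≤ M ^ 2 * I := by positivity
  have q7 : 0 ≤ M ^ 2 * P := by positivity
  have q8 : 4 * (121 / 100) * (√(2 * M) * M * I + 3 * M * P) ≤ 32 * M ^ 2 * (I + P) := by nlinarith
  calc D ^ 2 * (4 * (121 / 100) * (√(2 * M) * M * I + 3 * M * P)) ≤ D ^ 2 * (32 * M ^ 2 * (I + P)) :=
        mul_le_mul_of_nonneg_left q8 (sq_nonneg _)
    _ = 32 * D ^ 2 * M ^ 2 * (I + P) := by ring

end Pool.Agent.PBL
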