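import Pool.Agent.PBL.C5
import Pool.Agent.PBL.B3b
import Pool.Agent.HP89.A1c

/-! Module PBL-G1 (rotation invariance of the volume, algebraic form). With `e₀ = rv X u`, `e_i = res (u, X∖i) (X i)` every
summand is the volume of `(u, X)` times `⟪e_a / ‖e_a‖², B z_a⟫`, `B x = ⟪u, x⟫ v - ⟪v, x⟫ u`; the `e_a / ‖e_a‖²` are the dual basis
of `(u, X)`, so `u = ∑ ⟪u, z_a⟫ e_a / ‖e_a‖²` and the sum is `⟪u, v⟫ - ⟪v, u⟫ = 0`. -/

set_option autoImplicit false

namespace Pool.Agent.PBL
open MeasureTheory ProbabilityTheory Set Filter Topology Metric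
open Pool.Agent.HP89 Pool.Agent.FI75
open scoped RealInnerProductSpace ENNReal

variable {V : Type*} [NormedAddCommGroup V] [InnerProductSpace ℝ V] [FiniteDimensional ℝ V]

private theorem g1_res_orth (L : List V) (g : V) {x : V} (hx : x ∈ L) : ⟪res L g, x⟫ = 0 := by
  rw [res_eq]
  have h : (Submodule.span ℝ {x | x ∈ L})ᗮ.starProjection g ∈ (Submodule.span ℝ {x | x ∈ L})ᗮ :=
    Submodule.starProjection_apply_mem _ _
  rw [real_inner_comm]
  exact h x (Submodule.subset_span hx)

private theorem g1_sub_mem (L : List V) (g : V) : g - res L g ∈ Submodule.span ℝ {x | x ∈ L} := by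
  rw [res_eq]
  have h := Submodule.sub_starProjection_mem_orthogonal
    (K := (Submodule.span ℝ {x | x ∈ L})ᗮ) g
  rwa [Submodule.orthogonal_orthogonal] at h

private theorem g1_res_self (L : List V) (g : V) : ⟪res L g, g⟫ = ‖res L g‖ ^ 2 := by
  have h1 : ⟪res L g, g - res L g⟫ = 0 := by
    have h2 : res L g ∈ (Submodule.span ℝ {x | x ∈ L})ᗮ := by
      rw [res_eq]
      exact Submodule.starProjection_apply_mem _ _
    rw [real_inner_comm]
    exact h2 _ (g1_sub_mem L g)
  rw [inner_sub_right, real_inner_self_eq_norm_sq] at h1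
  linarith

omit [NormedAddCommGroup V] [InnerProductSpace ℝ V] [FiniteDimensional ℝ V] in
private theorem g1_perm {n : ℕ} (X : Fin (n + 1) → V) (i : Fin (n + 1)) :
    (X i :: List.ofFn (fun m => X (i.succAbove m))).Perm (List.ofFn X) := by
  have h := Equiv.Perm.ofFn_comp_perm i.cycleRange.symm X
  rw [List.ofFn_succ] at h
  simpa [Fin.cycleRange_symm_zero, Fin.cycleRange_symm_succ, Function.comp_def] using h

theorem rot_id {n : ℕ} (X : Fin (n + 1) → V) {u v : V} (hu : ‖u‖ = 1) (huv : ⟪u, v⟫ = 0) :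
    wv X * ⟪nrm (rv X u), v⟫ =
      -∑ i, wv (fun m => X (i.succAbove m)) * ‖rv (fun m => X (i.succAbove m)) u‖ *
        ⟪nrm (ort (rv (fun m => X (i.succAbove m)) u) (rv (fun m => X (i.succAbove m)) (X i))),
          ⟪u, X i⟫ • v - ⟪v, X i⟫ • u⟫ := by
  set L : List V := List.ofFn X with hL
  set M : Fin (n + 1) → List V := fun i => List.ofFn (fun m => X (i.succAbove m)) with hM
  set e0 : V := res L u with he0
  set e : Fin (n + 1) → V := fun i => res (u :: M i) (X i) with he
  set W : ℝ := wn (u :: L) with hW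
  have hperm : ∀ i, (X i :: u :: M i).Perm (u :: L) := fun i =>
    (List.Perm.swap u (X i) (M i)).trans ((g1_perm X i).cons u)
  have hW0 : W = wn L * ‖e0‖ := wn_cons u L
  have hWi : ∀ i, W = wn (M i) * ‖res (M i) u‖ * ‖e i‖ := by
    intro i
    rw [hW, ← wn_perm (hperm i), wn_cons, wn_cons]
  -- rewrite the goal
  have hgoal : wn L * ⟪nrm e0, v⟫ =
      -∑ i, wn (M i) * ‖res (M i) u‖ * ⟪nrm (e i), ⟪u, X i⟫ • v - ⟪v, X i⟫ • u⟫ →
      wv X * ⟪nrm (rv X u), v⟫ =
      -∑ i, wv (fun m => X (i.succAbove m)) * ‖rv (fun m => X (i.succAbove m)) u‖ *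
        ⟪nrm (ort (rv (fun m => X (i.succAbove m)) u) (rv (fun m => X (i.succAbove m)) (X i))),
          ⟪u, X i⟫ • v - ⟪v, X i⟫ • u⟫ := fun h => h
  apply hgoal
  by_cases hz : W = 0
  · have h1 : wn L * ⟪nrm e0, v⟫ = 0 := by
      rw [hz] at hW0
      rcases mul_eq_zero.1 hW0.symm with h | h
      · rw [h, zero_mul]
      · rw [nrm, norm_eq_zero.1 h, smul_zero, inner_zero_left, mul_zero]
    have h2 : ∀ i, wn (M i) * ‖res (M i) u‖ * ⟪nrm (e i), ⟪u, X i⟫ • v - ⟪v, X i⟫ • u⟫ = 0 := by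
      intro i
      have h3 := hWi i
      rw [hz] at h3
      rcases mul_eq_zero.1 h3.symm with h | h
      · rw [h, zero_mul]
      · rw [nrm, norm_eq_zero.1 h, smul_zero, inner_zero_left, mul_zero]
    rw [h1, Finset.sum_eq_zero (fun i _ => h2 i), neg_zero]
  · have hn0 : ‖e0‖ ≠ 0 := by
      intro h
      apply hz
      rw [hW0, h, mul_zero]
    have hni : ∀ i, ‖e i‖ ≠ 0 := by
      intro i h
      apply hz
      rw [hWi i, h, mul_zero]
    -- orthogonality
    have memL : ∀ k, X k ∈ L := fun k => by rw [hL, List.mem_ofFn]; exact ⟨k, rfl⟩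
    have memM : ∀ i k, k ≠ i → X k ∈ M i := by
      intro i k hk
      obtain ⟨m, hm⟩ := Fin.exists_succAbove_eq hk
      simp only [hM, List.mem_ofFn]
      exact ⟨m, by rw [hm]⟩
    have o1 : ∀ k, ⟪e0, X k⟫ = 0 := fun k => g1_res_orth L u (memL k)
    have o2 : ⟪e0, u⟫ = ‖e0‖ ^ 2 := g1_res_self L u
    have o3 : ∀ i, ⟪e i, u⟫ = 0 := fun i => g1_res_orth (u :: M i) (X i) List.mem_cons_self
    have o4 : ∀ i k, k ≠ i → ⟪e i, X k⟫ = 0 := fun i k hk =>
      g1_res_orth (u :: M i) (X i) (List.mem_cons_of_mem u (memM i k hk))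
    have o5 : ∀ i, ⟪e i, X i⟫ = ‖e i‖ ^ 2 := fun i => g1_res_self (u :: M i) (X i)
    set S : Submodule ℝ V := Submodule.span ℝ {x | x ∈ u :: L} with hS
    have uS : u ∈ S := Submodule.subset_span List.mem_cons_self
    have XS : ∀ k, X k ∈ S := fun k => Submodule.subset_span (List.mem_cons_of_mem u (memL k))
    have e0S : e0 ∈ S := by
      have h1 : u - e0 ∈ S :=
        Submodule.span_mono (fun x hx => List.mem_cons_of_mem u hx) (g1_sub_mem L u)
      have h2 : e0 = u - (u - e0) := by abel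
      rw [h2]
      exact Submodule.sub_mem _ uS h1
    have eS : ∀ i, e i ∈ S := by
      intro i
      have h1 : X i - e i ∈ S := by
        refine Submodule.span_mono ?_ (g1_sub_mem (u :: M i) (X i))
        intro x hx
        exact (hperm i).mem_iff.1 (List.mem_cons_of_mem _ hx)
      have h2 : e i = X i - (X i - e i) := by abel
      rw [h2]
      exact Submodule.sub_mem _ (XS i) h1
    set R : V := u - (‖e0‖ ^ 2)⁻¹ • e0 - ∑ i, ((‖e i‖ ^ 2)⁻¹ * ⟪u, X i⟫) • e i with hR
    have RS : R ∈ S := by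
      refine Submodule.sub_mem _ (Submodule.sub_mem _ uS (Submodule.smul_mem _ _ e0S)) ?_
      exact Submodule.sum_mem _ fun i _ => Submodule.smul_mem _ _ (eS i)
    have Ru : ⟪R, u⟫ = 0 := by
      rw [hR, inner_sub_left, inner_sub_left, inner_smul_left, o2, sum_inner,
        real_inner_self_eq_norm_sq, hu]
      rw [Finset.sum_eq_zero (fun i _ => by rw [inner_smul_left, o3, mul_zero])]
      simp only [conj_trivial]
      rw [inv_mul_cancel₀ (pow_ne_zero 2 hn0)]
      norm_num
    have RX : ∀ k, ⟪R, X k⟫ = 0 := by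
      intro k
      rw [hR, inner_sub_left, inner_sub_left, inner_smul_left, o1, sum_inner]
      rw [Finset.sum_eq_single k]
      · rw [inner_smul_left, o5]
        simp only [conj_trivial]
        have h3 : (‖e k‖ ^ 2)⁻¹ * ⟪u, X k⟫ * ‖e k‖ ^ 2 = ⟪u, X k⟫ := by
          rw [mul_right_comm, inv_mul_cancel₀ (pow_ne_zero 2 (hni k)), one_mul]
        rw [h3]
        ring
      · intro i _ hik
        rw [inner_smul_left, o4 i k (Ne.symm hik), mul_zero]
      · intro h
        exact absurd (Finset.mem_univ k) h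
    have RR : R = 0 := by
      have h1 : S ≤ (ℝ ∙ R)ᗮ := by
        rw [hS, Submodule.span_le]
        intro x hx
        rw [SetLike.mem_coe, Submodule.mem_orthogonal_singleton_iff_inner_right]
        rcases List.mem_cons.1 hx with h | h
        · rw [h, Ru]
        · rw [hL, List.mem_ofFn] at h
          obtain ⟨k, hk⟩ := h
          rw [← hk, RX]
      have h2 := Submodule.mem_orthogonal_singleton_iff_inner_right.1 (h1 RS)
      exact inner_self_eq_zero.1 h2
    have key : (‖e0‖ ^ 2)⁻¹ * ⟪e0, v⟫ + ∑ i, (‖e i‖ ^ 2)⁻¹ * ⟪u, X i⟫ * ⟪e i, v⟫ = 0 := by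
      have h1 : ⟪R, v⟫ = 0 := by rw [RR, inner_zero_left]
      rw [hR, inner_sub_left, inner_sub_left, inner_smul_left, sum_inner, huv] at h1
      simp only [inner_smul_left, conj_trivial] at h1
      linarith
    have t0 : wn L * ⟪nrm e0, v⟫ = W * ((‖e0‖ ^ 2)⁻¹ * ⟪e0, v⟫) := by
      rw [hW0, nrm, inner_smul_left]
      simp only [conj_trivial]
      field_simp
    have ti : ∀ i, wn (M i) * ‖res (M i) u‖ * ⟪nrm (e i), ⟪u, X i⟫ • v - ⟪v, X i⟫ • u⟫ =
        W * ((‖e i‖ ^ 2)⁻¹ * ⟪u, X i⟫ * ⟪e i, v⟫) := by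
      intro i
      have h3 := hni i
      rw [hWi i, nrm, inner_smul_left, inner_sub_right, inner_smul_right, inner_smul_right, o3]
      simp only [conj_trivial]
      field_simp
      ring
    rw [t0, Finset.sum_congr rfl (fun i _ => ti i), ← Finset.mul_sum]
    linear_combination W * key

end Pool.Agent.PBL
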