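import Pool.Agent.PBL.D1
import Pool.Agent.FI75.B4b

/-! Module PBL-R1 (from generating measures to the sphere): the radial projection `sph μ` of a generating measure, with the weight
`‖x‖`, generates the same body, and it commutes with the passage to the next body. -/

set_option autoImplicit false

namespace Pool.Agent.PBL
open MeasureTheory ProbabilityTheory Set Filter Topology Metric
open Pool.Agent.HP89 Pool.Agent.FI75
open scoped RealInnerProductSpace ENNReal

variable {V : Type*} [NormedAddCommGroup V] [InnerProductSpace ℝ V] [FiniteDimensional ℝ V]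
  [MeasurableSpace V] [BorelSpace V]

private theorem r1_lint (μ : Measure V) {φ : V → ℝ≥0∞} (hφ : Measurable φ) :
    ∫⁻ x, φ x ∂(sph μ) = (∫⁻ x, ENNReal.ofReal ‖x‖ ∂μ)⁻¹ * ∫⁻ x, ENNReal.ofReal ‖x‖ * φ (nrm x) ∂μ := by
  have hn : Measurable (fun x => φ (nrm x)) := hφ.comp measurable_nrm
  rw [sph, lintegral_smul_measure, lintegral_map hφ measurable_nrm,
    lintegral_withDensity_eq_lintegral_mul _ (by fun_prop) hn]
  rfl

private theorem r1_c {μ : Measure V} (hμ : Integrable (fun x => ‖x‖) μ) :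
    ∫⁻ x, ENNReal.ofReal ‖x‖ ∂μ = ENNReal.ofReal (∫ x, ‖x‖ ∂μ) := by
  rw [ofReal_integral_eq_lintegral_ofReal hμ (Eventually.of_forall fun x => norm_nonneg x)]

private theorem r1_norm_nrm {x : V} (hx : x ≠ 0) : ‖nrm x‖ = 1 := by
  rw [nrm, norm_smul, norm_inv, norm_norm, inv_mul_cancel₀ (norm_ne_zero_iff.mpr hx)]

private theorem r1_smul_nrm (x : V) : ‖x‖ • nrm x = x := by
  by_cases hx : x = 0
  · simp [hx]
  · rw [nrm, smul_smul, mul_inv_cancel₀ (norm_ne_zero_iff.mpr hx), one_smul]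

theorem sph_us {μ : Measure V} [IsFiniteMeasure μ] (hμ : Integrable (fun x => ‖x‖) μ) (h : 0 < ∫ x, ‖x‖ ∂μ) :
    US (sph μ) := by
  constructor
  · refine ⟨?_⟩
    have h1 : (sph μ) univ = ∫⁻ _x, 1 ∂(sph μ) := by rw [lintegral_one]
    rw [h1, r1_lint μ measurable_const]
    simp only [mul_one]
    rw [r1_c hμ]
    exact ENNReal.inv_mul_cancel (by simpa using h) ENNReal.ofReal_ne_top
  · rw [sph]
    refine Measure.ae_smul_measure ?_ _
    rw [ae_map_iff measurable_nrm.aemeasurable (by measurability)]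
    rw [ae_withDensity_iff (by fun_prop)]
    refine Eventually.of_forall fun x hx => ?_
    refine r1_norm_nrm ?_
    rintro rfl
    simp at hx

theorem sph_hf {μ : Measure V} [IsFiniteMeasure μ] (hμ : Integrable (fun x => ‖x‖) μ) (h : 0 < ∫ x, ‖x‖ ∂μ) (u : V) :
    ∫ x, |⟪x, u⟫| ∂μ = (∫ x, ‖x‖ ∂μ) * hf (sph μ) u := by
  rw [hf, integral_eq_lintegral_of_nonneg_ae (Eventually.of_forall fun x => abs_nonneg _) (by fun_prop),
    integral_eq_lintegral_of_nonneg_ae (μ := sph μ) (Eventually.of_forall fun x => abs_nonneg _) (by fun_prop),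
    r1_lint μ (by fun_prop), r1_c hμ]
  have e1 : ∀ x : V, ENNReal.ofReal ‖x‖ * ENNReal.ofReal |⟪nrm x, u⟫| = ENNReal.ofReal |⟪x, u⟫| := by
    intro x
    rw [← ENNReal.ofReal_mul (norm_nonneg x)]
    congr 1
    conv_rhs => rw [← r1_smul_nrm x, real_inner_smul_left, abs_mul, abs_norm]
  rw [lintegral_congr e1, ENNReal.toReal_mul, ENNReal.toReal_inv, ENNReal.toReal_ofReal h.le,
    ← mul_assoc, mul_inv_cancel₀ h.ne', one_mul]

/-- functions of lists which are homogeneous of degree one in every vector. -/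
private def R1H (F : List V → ℝ≥0∞) : Prop :=
  ∀ (W Y : List V) (x : V), ENNReal.ofReal ‖x‖ * F (W ++ nrm x :: Y) = F (W ++ x :: Y)

private theorem r1_iter_h (μ : Measure V) {F : List V → ℝ≥0∞} (hF : R1H F) (x : V) (l : ℕ) :
    ∀ W Y : List V, ENNReal.ofReal ‖x‖ * iter μ l F (W ++ nrm x :: Y) = iter μ l F (W ++ x :: Y) := by
  induction l with
  | zero => intro W Y; exact hF W Y x
  | succ l ih =>
    intro W Y
    rw [iter_succ, iter_succ, ← lintegral_const_mul' _ _ ENNReal.ofReal_ne_top]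
    refine lintegral_congr fun y => ?_
    have := ih (y :: W) Y
    simpa using this

private theorem r1_iter (μ : Measure V) [IsFiniteMeasure μ] (hμ : Integrable (fun x => ‖x‖) μ)
    (h : 0 < ∫ x, ‖x‖ ∂μ)
    {F : List V → ℝ≥0∞} (hL : LMeas F) (hF : R1H F) (l : ℕ) :
    ∀ Y : List V, iter (sph μ) l F Y = (∫⁻ x, ENNReal.ofReal ‖x‖ ∂μ)⁻¹ ^ l * iter μ l F Y := by
  have hc : (∫⁻ x, ENNReal.ofReal ‖x‖ ∂μ)⁻¹ ≠ ⊤ := by
    rw [r1_c hμ]
    simpa using h
  induction l with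
  | zero => intro Y; simp [iter_zero]
  | succ l ih =>
    intro Y
    rw [iter_succ, iter_succ, lintegral_congr fun x => ih (x :: Y),
      lintegral_const_mul' _ _ (ENNReal.pow_ne_top hc), r1_lint μ ((hL.iter μ l).cons Y), pow_succ, mul_assoc]
    congr 2
    refine lintegral_congr fun x => ?_
    exact r1_iter_h μ hF x l [] Y

private theorem r1_wn_zero {W Y : List V} : wn (W ++ (0 : V) :: Y) = 0 :=
  wn_zero_mem (by simp)

private theorem r1_wn (W Y : List V) (x : V) : ‖x‖ * wn (W ++ nrm x :: Y) = wn (W ++ x :: Y) := by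
  have p1 : ∀ y : V, wn (W ++ y :: Y) = wn (y :: (W ++ Y)) := fun y => wn_perm List.perm_middle
  rw [p1, p1]
  conv_rhs => rw [← r1_smul_nrm x, wn_smul_cons, abs_norm]

private theorem r1_res (W Y : List V) {x : V} (hx : x ≠ 0) (g : V) : res (W ++ nrm x :: Y) g = res (W ++ x :: Y) g := by
  have p1 : ∀ y : V, res (W ++ y :: Y) g = res (y :: (W ++ Y)) g := fun y => res_perm List.perm_middle g
  rw [p1, p1, nrm, res_smul_cons (inv_ne_zero (norm_ne_zero_iff.mpr hx))]

private theorem r1_h_TG (φ : V → ℝ≥0∞) : R1H (TG (V := V) (fun v => φ v)) := by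
  intro W Y x
  unfold TG
  by_cases hx : x = 0
  · subst hx
    rw [r1_wn_zero]
    simp
  · rw [← mul_assoc, ← ENNReal.ofReal_mul (norm_nonneg x), r1_wn]
    simp_rw [r1_res W Y hx]

private theorem r1_h_ew : R1H (ew : List V → ℝ≥0∞) := by
  intro W Y x
  unfold ew
  rw [← ENNReal.ofReal_mul (norm_nonneg x), r1_wn]

private theorem r1_en {ρ : Measure V} (hρ : US ρ) (j : ℕ) : ENNReal.ofReal (en j ρ) = iter ρ j ew [] := by
  have := hρ.prob
  rw [iter_ew_nil, en, ofReal_integral_eq_lintegral_ofReal]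
  · refine Integrable.of_bound (measurable_wv j).aestronglyMeasurable 1 ?_
    filter_upwards [ae_wv_le hρ j] with X hX
    rw [Real.norm_eq_abs, abs_of_nonneg hX.1]
    exact hX.2
  · exact Eventually.of_forall fun X => wn_nonneg _

theorem sph_pos {μ : Measure V} [IsFiniteMeasure μ] (hμ : Integrable (fun x => ‖x‖) μ) {j : ℕ} (hj : 1 ≤ j)
    (h : iter μ j ew [] ≠ 0) : 0 < (∫ x, ‖x‖ ∂μ) ∧ 0 < en j (sph μ) := by
  have h1 : 0 < ∫ x, ‖x‖ ∂μ := by
    have h0 : 0 ≤ ∫ x, ‖x‖ ∂μ := integral_nonneg fun x => norm_nonneg x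
    refine lt_of_le_of_ne h0 fun he => h ?_
    have h2 : (fun x : V => ‖x‖) =ᵐ[μ] 0 :=
      (integral_eq_zero_iff_of_nonneg (fun x => norm_nonneg x) hμ).mp he.symm
    obtain ⟨k, rfl⟩ : ∃ k, j = k + 1 := ⟨j - 1, by omega⟩
    rw [iter_succ]
    rw [lintegral_eq_zero_iff (((lmeas_ew.iter μ k).cons []))]
    filter_upwards [h2] with x hx
    have hx0 : x = 0 := by simpa using hx
    have := r1_iter_h μ r1_h_ew x k [] []
    simp only [List.nil_append] at this
    rw [← this, hx0]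
    simp
  refine ⟨h1, ?_⟩
  have h3 := r1_en (sph_us hμ h1) j
  rw [r1_iter μ hμ h1 lmeas_ew r1_h_ew j []] at h3
  have h4 : ENNReal.ofReal (en j (sph μ)) ≠ 0 := by
    rw [h3]
    refine mul_ne_zero (pow_ne_zero _ ?_) h
    rw [r1_c hμ]
    exact ENNReal.inv_ne_zero.mpr ENNReal.ofReal_ne_top
  simpa using h4

private theorem r1_nop (j : ℕ) (ρ : Measure V) [IsFiniteMeasure ρ] {φ : V → ℝ≥0∞} (hφ : Measurable φ) :
    ∫⁻ x, φ x ∂(Nop j ρ) = (ENNReal.ofReal (en j ρ))⁻¹ * iter ρ j (TG (fun v => φ (nrm v))) [] := by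
  have hn : Measurable (fun x => φ (nrm x)) := hφ.comp measurable_nrm
  have h1 : Nop j ρ = (ENNReal.ofReal (en j ρ))⁻¹ • ((nuw j ρ).map nrm) := by
    rw [Nop, nuw, Measure.map_map measurable_nrm (measurable_rv j)]
    rfl
  rw [h1, lintegral_smul_measure, lintegral_map hφ measurable_nrm,
    lintegral_nuw j ρ hn, iter_eq_pi ρ j (lmeas_TG hn) []]
  simp only [List.append_nil]
  rfl

private theorem r1_nuw {μ : Measure V} [IsFiniteMeasure μ] {j : ℕ}
    (hjd : j < Module.finrank ℝ V) {φ : V → ℝ≥0∞} (hφ : Measurable φ) :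
    ∫⁻ x, ENNReal.ofReal ‖x‖ * φ (nrm x) ∂(nuw j μ) =
      ENNReal.ofReal (mG (Module.finrank ℝ V - j)) * iter μ j (TG (fun v => φ (nrm v))) [] := by
  have hn : Measurable (fun x => φ (nrm x)) := hφ.comp measurable_nrm
  have hn2 : Measurable (fun x : V => ENNReal.ofReal ‖x‖ * φ (nrm x)) := by
    have h0 : Measurable (fun x : V => ENNReal.ofReal ‖x‖) := by fun_prop
    exact h0.mul hn
  rw [lintegral_nuw j μ hn2, iter_eq_pi μ j (lmeas_TG hn) [],
    ← lintegral_const_mul' _ _ ENNReal.ofReal_ne_top]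
  refine lintegral_congr fun X => ?_
  rw [List.append_nil]
  change ENNReal.ofReal (wv X) * _ = _ * (ENNReal.ofReal (wv X) * ∫⁻ g, φ (nrm (rv X g)) ∂(stdGaussian V))
  by_cases hX : wv X = 0
  · rw [hX]; simp
  have hf := finrank_oc hX
  have hf1 : 1 ≤ Module.finrank ℝ (oc X) := by omega
  have hf2 : Module.finrank ℝ (oc X) = Module.finrank ℝ V - j := by omega
  have h1 : ∫⁻ g, ENNReal.ofReal ‖rv X g‖ * φ (nrm (rv X g)) ∂(stdGaussian V) =
      ENNReal.ofReal (mG (Module.finrank ℝ V - j)) * ∫⁻ g, φ (nrm (rv X g)) ∂(stdGaussian V) := by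
    simp_rw [rv_eq]
    rw [rad_sub (oc X) hf1 (f := fun t => ENNReal.ofReal t) (by fun_prop) hφ, ← hf2,
      ← integral_norm_proj (oc X), ofReal_integral_eq_lintegral_ofReal]
    · refine Integrable.mono' integrable_norm_gaussian (by fun_prop) (Eventually.of_forall fun g => ?_)
      rw [norm_norm]
      exact Submodule.norm_starProjection_apply_le _ g
    · exact Eventually.of_forall fun g => norm_nonneg _
  rw [h1]
  ring

theorem sph_nuw {μ : Measure V} [IsFiniteMeasure μ] (hμ : Integrable (fun x => ‖x‖) μ) {j : ℕ} (hj : 1 ≤ j)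
    (hjd : j < Module.finrank ℝ V) (h : iter μ j ew [] ≠ 0) : sph (nuw j μ) = Nop j (sph μ) := by
  obtain ⟨h1, h2⟩ := sph_pos hμ hj h
  have hus := sph_us hμ h1
  have := hus.prob
  have hc0 : (∫⁻ x, ENNReal.ofReal ‖x‖ ∂μ)⁻¹ ≠ 0 := by
    rw [r1_c hμ]
    exact ENNReal.inv_ne_zero.mpr ENNReal.ofReal_ne_top
  have hct : (∫⁻ x, ENNReal.ofReal ‖x‖ ∂μ)⁻¹ ≠ ⊤ := by
    rw [r1_c hμ]
    simpa using h1
  have hm0 : ENNReal.ofReal (mG (Module.finrank ℝ V - j)) ≠ 0 := by
    simpa using mG_pos (by omega)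
  have hI : iter μ j ew [] ≠ ⊤ := (iter_ew_lt_top μ hμ j []).ne
  have hTG1 : ∀ Y : List V, TG (fun _ : V => (1 : ℝ≥0∞)) Y = ew Y := by
    intro Y
    simp [TG, ew]
  have hTG : iter μ j (TG (fun _ : V => (1 : ℝ≥0∞))) [] = iter μ j ew [] :=
    iter_congr' μ j [] fun Z _ => hTG1 Z
  have hc' : ∫⁻ x, ENNReal.ofReal ‖x‖ ∂(nuw j μ) =
      ENNReal.ofReal (mG (Module.finrank ℝ V - j)) * iter μ j ew [] := by
    have := r1_nuw (μ := μ) hjd (φ := fun _ => 1) measurable_const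
    simp only [mul_one] at this
    rw [this, hTG]
  refine Measure.ext fun s hs => ?_
  have hφ : Measurable (s.indicator (fun _ : V => (1 : ℝ≥0∞))) := measurable_const.indicator hs
  have hn : Measurable (fun x : V => s.indicator (fun _ : V => (1 : ℝ≥0∞)) (nrm x)) := hφ.comp measurable_nrm
  rw [← lintegral_indicator_one hs, ← lintegral_indicator_one hs]
  change ∫⁻ x, s.indicator (fun _ : V => (1 : ℝ≥0∞)) x ∂(sph (nuw j μ)) =
    ∫⁻ x, s.indicator (fun _ : V => (1 : ℝ≥0∞)) x ∂(Nop j (sph μ))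
  rw [r1_lint _ hφ, r1_nuw hjd hφ, r1_nop j (sph μ) hφ, hc', r1_en hus j,
    r1_iter μ hμ h1 lmeas_ew r1_h_ew j [],
    r1_iter μ hμ h1 (lmeas_TG hn) (r1_h_TG _) j []]
  set J := iter μ j (TG fun v => s.indicator (fun _ : V => (1 : ℝ≥0∞)) (nrm v)) []
  have key : ∀ a b c : ℝ≥0∞, a ≠ 0 → a ≠ ⊤ → (a * b)⁻¹ * (a * c) = b⁻¹ * c := by
    intro a b c ha ha'
    rw [ENNReal.mul_inv (Or.inl ha) (Or.inl ha'), mul_comm a⁻¹ b⁻¹, mul_assoc, ← mul_assoc a⁻¹ a c,
      ENNReal.inv_mul_cancel ha ha', one_mul]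
  rw [key _ _ _ hm0 ENNReal.ofReal_ne_top]
  exact (key _ _ _ (pow_ne_zero _ hc0) (ENNReal.pow_ne_top hct)).symm

end Pool.Agent.PBL
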