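import Pool.Agent.PBL.R2
import Pool.Agent.PBL.R3

/-! Module PBL-R4: the parameters of the two theorems. -/

set_option autoImplicit false

namespace Pool.Agent.PBL
open MeasureTheory ProbabilityTheory Set Filter Topology Metric
open Pool.Agent.HP89 Pool.Agent.FI75
open Pool.Agent.Helper82.Proj1 (supp shadow kappa)
open scoped RealInnerProductSpace ENNReal Pointwise

/-- the parameter condition, `M = d / (d - i)`, `j ≤ i < d`. -/
theorem par_of {d j i : ℕ} (hj : 1 ≤ j) (hji : j ≤ i) (hi : i < d) (h : 10 ^ 40 * d ^ 19 ≤ (d - i) ^ 20) :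
    Par d j ((d : ℝ) / ((d : ℝ) - i)) ∧ (d : ℝ) ≤ (d : ℝ) / ((d : ℝ) - i) * ((d : ℝ) - i) := by
  have hd0 : (0 : ℝ) < d := by
    have : 0 < d := by omega
    exact_mod_cast this
  have hk : (0 : ℝ) < (d : ℝ) - i := by
    have : (i : ℝ) < d := by exact_mod_cast hi
    linarith
  have hji' : (j : ℝ) ≤ i := by exact_mod_cast hji
  have h1 : (d : ℝ) / ((d : ℝ) - i) * ((d : ℝ) - i) = d := div_mul_cancel₀ _ hk.ne'
  have h2 : (10 : ℝ) ^ 40 * (d : ℝ) ^ 19 ≤ ((d : ℝ) - i) ^ 20 := by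
    have h3 : ((10 ^ 40 * d ^ 19 : ℕ) : ℝ) ≤ (((d - i) ^ 20 : ℕ) : ℝ) := by exact_mod_cast h
    rw [Nat.cast_mul, Nat.cast_pow, Nat.cast_pow, Nat.cast_pow, Nat.cast_sub hi.le] at h3
    exact_mod_cast h3
  refine ⟨⟨hj, by omega, ?_, ?_, ?_⟩, h1.ge⟩
  · rw [le_div_iff₀ hk]
    have : (0 : ℝ) ≤ i := Nat.cast_nonneg _
    linarith
  · calc (d : ℝ) = (d : ℝ) / ((d : ℝ) - i) * ((d : ℝ) - i) := h1.symm
      _ ≤ (d : ℝ) / ((d : ℝ) - i) * ((d : ℝ) - j) := by
          apply mul_le_mul_of_nonneg_left _ (by positivity)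
          linarith
  · apply Real.le_sqrt_of_sq_le
    rw [mul_pow, ← pow_mul, ← pow_mul, div_pow]
    norm_num only
    rw [mul_div_assoc', div_le_iff₀ (by positivity)]
    calc (10000000000000000000000000000000000000000 : ℝ) * (d : ℝ) ^ 20
        = d * ((10 : ℝ) ^ 40 * (d : ℝ) ^ 19) := by ring
      _ ≤ d * ((d : ℝ) - i) ^ 20 := mul_le_mul_of_nonneg_left h2 hd0.le

variable {V : Type*} [NormedAddCommGroup V] [InnerProductSpace ℝ V] [FiniteDimensional ℝ V]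
  [MeasurableSpace V] [BorelSpace V]

/-- all indices `j` with `d - j` not too small. -/
theorem ball_one {j : ℕ} (hj : 1 ≤ j) (hjd : j < Module.finrank ℝ V)
    (h : 10 ^ 40 * Module.finrank ℝ V ^ 19 ≤ (Module.finrank ℝ V - j) ^ 20)
    (C : ℕ → Set V) (hC : ∀ i, CC (C i)) (hint : (interior (C 0)).Nonempty)
    (hpb : IsPB j (C 0) (C 1)) {c : ℝ} (hc : 0 < c) {x : V}
    (hH : C 1 = (fun y => c • y + x) '' C 0) : ∃ (y : V) (r : ℝ), 0 < r ∧ C 0 = closedBall y r := by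
  obtain ⟨hP, -⟩ := par_of hj le_rfl hjd h
  refine ball_of_const hj hjd le_rfl ?_ C hC hint (fun i hi => ?_) hc hH
  · intro D hD hper s hs hpb' hne n u v hu hv
    exact chain_const hP le_rfl (Or.inl rfl) D hD hper s hs hpb' hne n u v hu hv
  · have : i = 0 := by omega
    subst this
    exact hpb

/-- all iterates, `j` up to almost `d/2`. -/
theorem ball_all {j m : ℕ} (hj : 1 ≤ j) (hjd : 2 * j < Module.finrank ℝ V) (hm : 1 ≤ m)
    (h : 10 ^ 40 * Module.finrank ℝ V ^ 19 ≤ (Module.finrank ℝ V - 2 * j) ^ 20)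
    (C : ℕ → Set V) (hC : ∀ i, CC (C i)) (hint : (interior (C 0)).Nonempty)
    (hpb : ∀ i < m, IsPB j (C i) (C (i + 1))) {c : ℝ} (hc : 0 < c) {x : V}
    (hH : C m = (fun y => c • y + x) '' C 0) : ∃ (y : V) (r : ℝ), 0 < r ∧ C 0 = closedBall y r := by
  obtain ⟨hP, h2⟩ := par_of (i := 2 * j) hj (by omega) hjd h
  push_cast at hP h2
  refine ball_of_const hj (by omega) hm ?_ C hC hint hpb hc hH
  intro D hD hper s hs hpb' hne n u v hu hv
  exact chain_const hP hm (Or.inr h2) D hD hper s hs hpb' hne n u v hu hv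

end Pool.Agent.PBL
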