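import Pool.Agent.PBL.B1a

/-! Module PBL-S1 (mixing a measure with a point mass): the iterated integrals of a symmetric function which vanishes
when `e` occurs twice, with respect to the mixture `(1 - s) ρ + s δ_e`, by induction on the number of integrations. -/

set_option autoImplicit false

namespace Pool.Agent.PBL
open MeasureTheory ProbabilityTheory Set Filter Topology Metric
open Pool.Agent.HP89 Pool.Agent.FI75
open scoped RealInnerProductSpace ENNReal

variable {α : Type*} [MeasurableSpace α]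

/-- the mixture `(1 - s) ρ + s δ_e`. -/
noncomputable def mixd (s : ℝ) (ρ : Measure α) (e : α) : Measure α :=
  ENNReal.ofReal (1 - s) • ρ + ENNReal.ofReal s • Measure.dirac e

private theorem itr_one' (ρ : Measure α) (l : ℕ) (F : List α → ℝ) (Y : List α) :
    itr ρ (l + 1) F Y = ∫ x, itr ρ l F (x :: Y) ∂ρ := rfl

private theorem itr_dd {ρ : Measure α} {e : α} {G : List α → ℝ} (hsym : Sym G)
    (h0 : ∀ Z, G (e :: e :: Z) = 0) (l : ℕ) : ∀ Z Z' : List α, Z.Perm (e :: e :: Z') → itr ρ l G Z = 0 := by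
  induction l with
  | zero =>
    intro Z Z' h
    show G Z = 0
    rw [hsym _ _ h, h0]
  | succ l ih =>
    intro Z Z' h
    rw [itr_one']
    have h1 : ∀ x, itr ρ l G (x :: Z) = 0 := by
      intro x
      refine ih _ (x :: Z') ((h.cons x).trans ?_)
      exact (List.Perm.swap _ _ _).trans ((List.Perm.swap _ _ _).cons _)
    simp only [h1, integral_zero]

private theorem int_mix [MeasurableSingletonClass α] {ρ : Measure α} [IsProbabilityMeasure ρ] {s : ℝ} (hs : 0 ≤ s)
    (hs1 : s ≤ 1) (e : α) {f : α → ℝ} (hf : Measurable f) {C : ℝ} (hC : ∀ x, |f x| ≤ C) :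
    ∫ x, f x ∂(mixd s ρ e) = (1 - s) * ∫ x, f x ∂ρ + s * f e := by
  have i1 : Integrable f ρ := Integrable.of_bound hf.aestronglyMeasurable C
    (Filter.Eventually.of_forall fun x => by rw [Real.norm_eq_abs]; exact hC x)
  have i2 : Integrable f (Measure.dirac e) := Integrable.of_bound hf.aestronglyMeasurable C
    (Filter.Eventually.of_forall fun x => by rw [Real.norm_eq_abs]; exact hC x)
  rw [mixd, integral_add_measure (i1.smul_measure ENNReal.ofReal_ne_top)
    (i2.smul_measure ENNReal.ofReal_ne_top), integral_smul_measure, integral_smul_measure,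
    integral_dirac, ENNReal.toReal_ofReal (by linarith), ENNReal.toReal_ofReal hs, smul_eq_mul,
    smul_eq_mul]

theorem itr_mix [MeasurableSingletonClass α] {ρ : Measure α} [IsProbabilityMeasure ρ] {s : ℝ} (hs : 0 ≤ s) (hs1 : s ≤ 1)
    {e : α} {G : List α → ℝ} (hG : LB G) (hsym : Sym G) (h0 : ∀ Z, G (e :: e :: Z) = 0) (l : ℕ) (Y : List α) :
    itr (mixd s ρ e) (l + 1) G Y =
      (1 - s) ^ (l + 1) * itr ρ (l + 1) G Y + ((l : ℝ) + 1) * s * (1 - s) ^ l * itr ρ l G (e :: Y) := by
  induction l generalizing Y with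
  | zero =>
    obtain ⟨C, hC⟩ := hG.bdd
    rw [itr_one', itr_one']
    show ∫ x, G (x :: Y) ∂(mixd s ρ e) = (1 - s) ^ (0 + 1) * ∫ x, G (x :: Y) ∂ρ +
      (((0 : ℕ) : ℝ) + 1) * s * (1 - s) ^ 0 * G (e :: Y)
    rw [int_mix hs hs1 e (hG.cons Y) (fun x => hC _)]
    push_cast
    ring
  | succ l ih =>
    have hl := hG.itr (ρ := ρ) (l + 1)
    have hl' := hG.itr (ρ := ρ) l
    have e1 : (fun x => itr (mixd s ρ e) (l + 1) G (x :: Y)) = fun x =>
        (1 - s) ^ (l + 1) * itr ρ (l + 1) G (x :: Y) +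
          ((l : ℝ) + 1) * s * (1 - s) ^ l * itr ρ l G (x :: e :: Y) := by
      funext x
      rw [ih (x :: Y), itr_sym hsym l _ _ (List.Perm.swap x e Y)]
    obtain ⟨C1, hC1⟩ := hl.bdd
    obtain ⟨C2, hC2⟩ := hl'.bdd
    have m1 : Measurable fun x => itr ρ (l + 1) G (x :: Y) := hl.cons Y
    have m2 : Measurable fun x => itr ρ l G (x :: e :: Y) := hl'.cons (e :: Y)
    have i1 : Integrable (fun x => itr ρ (l + 1) G (x :: Y)) ρ :=
      Integrable.of_bound m1.aestronglyMeasurable C1
        (Filter.Eventually.of_forall fun x => by rw [Real.norm_eq_abs]; exact hC1 _)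
    have i2 : Integrable (fun x => itr ρ l G (x :: e :: Y)) ρ :=
      Integrable.of_bound m2.aestronglyMeasurable C2
        (Filter.Eventually.of_forall fun x => by rw [Real.norm_eq_abs]; exact hC2 _)
    have m3 : Measurable fun x => (1 - s) ^ (l + 1) * itr ρ (l + 1) G (x :: Y) +
        ((l : ℝ) + 1) * s * (1 - s) ^ l * itr ρ l G (x :: e :: Y) :=
      (m1.const_mul _).add (m2.const_mul _)
    have b3 : ∀ x, |(1 - s) ^ (l + 1) * itr ρ (l + 1) G (x :: Y) +
        ((l : ℝ) + 1) * s * (1 - s) ^ l * itr ρ l G (x :: e :: Y)| ≤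
        |(1 - s) ^ (l + 1)| * C1 + |((l : ℝ) + 1) * s * (1 - s) ^ l| * C2 := by
      intro x
      refine (abs_add_le _ _).trans (add_le_add ?_ ?_)
      · rw [abs_mul]
        exact mul_le_mul_of_nonneg_left (hC1 _) (abs_nonneg _)
      · rw [abs_mul]
        exact mul_le_mul_of_nonneg_left (hC2 _) (abs_nonneg _)
    rw [itr_one' (mixd s ρ e) (l + 1), e1, int_mix hs hs1 e m3 b3,
      integral_add (i1.const_mul _) (i2.const_mul _), integral_const_mul, integral_const_mul,
      itr_dd hsym h0 l (e :: e :: Y) Y (List.Perm.refl _), itr_one' ρ (l + 1), itr_one' ρ l G (e :: Y)]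
    push_cast
    ring

end Pool.Agent.PBL
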