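import Pool.Agent.PBL.S5c
import Pool.Agent.PBL.B3c

/-! Module PBL-S5d (the means of `sW` at the level `j + 1` agree along a two-cycle).

`iw_sW` is Fubini and Pythagoras, `cyc_mW` follows from `cyc_en` and `cyc_iw`. -/

set_option autoImplicit false

namespace Pool.Agent.PBL
open MeasureTheory ProbabilityTheory Set Filter Topology Metric
open Pool.Agent.HP89 Pool.Agent.FI75
open scoped RealInnerProductSpace ENNReal

variable {V : Type*} [NormedAddCommGroup V] [InnerProductSpace ℝ V] [FiniteDimensional ℝ V]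
  [MeasurableSpace V] [BorelSpace V]

omit [MeasurableSpace V] [BorelSpace V] in
private theorem s5d_sq {n : ℕ} (X : Fin n → V) {y : V} (hy : ‖y‖ = 1) :
    ‖(oc X).starProjection y‖ ^ 2 = 1 - ⟪y, y - rv X y⟫ := by
  have h : ⟪rv X y, y⟫ = ‖(oc X).starProjection y‖ ^ 2 := by
    rw [rv_eq]
    exact (oc X).re_inner_starProjection_eq_normSq y
  rw [inner_sub_right, real_inner_self_eq_norm_sq, hy, real_inner_comm, h]
  ring

private theorem s5d_int {ρ τ : Measure V} (hρ : US ρ) (hτ : US τ) (n : ℕ) :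
    Integrable (Function.uncurry fun (X : Fin n → V) (x : V) => wv X * ‖(oc X).starProjection x‖ ^ 2)
      ((pp n ρ).prod τ) := by
  have := hρ.prob
  have := hτ.prob
  refine Integrable.of_bound (C := 1) ?_ ?_
  · refine Measurable.aestronglyMeasurable ?_
    have e : (Function.uncurry fun (X : Fin n → V) (x : V) => wv X * ‖(oc X).starProjection x‖ ^ 2) =
        fun p : (Fin n → V) × V => wv p.1 * ‖rv p.1 p.2‖ ^ 2 := by
      funext p; simp only [Function.uncurry, rv_eq]
    rw [e]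
    exact ((measurable_wv n).comp measurable_fst).mul (meas_rv.norm.pow_const 2)
  · have a1 := Measure.quasiMeasurePreserving_fst (μ := pp n ρ) (ν := τ) |>.ae (ae_wv_le hρ n)
    have a2 := Measure.quasiMeasurePreserving_snd (μ := pp n ρ) (ν := τ) |>.ae hτ.unit
    filter_upwards [a1, a2] with p h1 h2
    simp only [Function.uncurry]
    rw [norm_mul, Real.norm_eq_abs, abs_of_nonneg h1.1, norm_pow, norm_norm]
    have h3 : ‖(oc p.1).starProjection p.2‖ ≤ 1 := by
      rw [← h2]; exact Submodule.norm_starProjection_apply_le _ _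
    have h4 : ‖(oc p.1).starProjection p.2‖ ^ 2 ≤ 1 := pow_le_one₀ (norm_nonneg _) h3
    calc wv p.1 * ‖(oc p.1).starProjection p.2‖ ^ 2 ≤ 1 * 1 :=
          mul_le_mul h1.2 h4 (by positivity) zero_le_one
      _ = 1 := one_mul 1

theorem mW_smul {k : ℝ} (hk : 0 ≤ k) (n : ℕ) (ρ τ : Measure V) :
    mW n ρ (ENNReal.ofReal k • τ) = k * mW n ρ τ := by
  unfold mW
  have e : (fun X : Fin n → V => sW (ENNReal.ofReal k • τ) (oc X)) = fun X => k * sW τ (oc X) := by
    funext X
    exact sW_smul hk τ _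
  rw [e, iw_mul]
  ring

theorem iw_sW {ρ τ : Measure V} (hρ : US ρ) (hτ : US τ) (n : ℕ) :
    iw n ρ (fun X => sW τ (oc X)) = en n ρ - ∫ y, iw n ρ (fun X => ⟪y, y - rv X y⟫) ∂τ := by
  have := hρ.prob
  have := hτ.prob
  have hint := s5d_int hρ hτ n
  have hwi : Integrable (fun X : Fin n → V => wv X) (pp n ρ) := by
    refine Integrable.of_bound (C := 1) (measurable_wv n).aestronglyMeasurable ?_
    filter_upwards [ae_wv_le hρ n] with X hX
    rw [Real.norm_eq_abs, abs_of_nonneg hX.1]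
    exact hX.2
  have hae : ∀ᵐ y ∂τ, ∫ X, wv X * ‖(oc X).starProjection y‖ ^ 2 ∂(pp n ρ) =
      en n ρ - iw n ρ (fun X => ⟪y, y - rv X y⟫) := by
    filter_upwards [hτ.unit, hint.prod_left_ae] with y hy hi
    have e1 : (fun X : Fin n → V => wv X * ‖(oc X).starProjection y‖ ^ 2) =
        fun X => wv X - wv X * ⟪y, y - rv X y⟫ := by
      funext X
      rw [s5d_sq X hy]
      ring
    have e2 : (fun X : Fin n → V => wv X * ⟪y, y - rv X y⟫) =
        fun X => wv X - wv X * ‖(oc X).starProjection y‖ ^ 2 := by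
      funext X
      rw [s5d_sq X hy]
      ring
    have hi2 : Integrable (fun X : Fin n → V => wv X * ⟪y, y - rv X y⟫) (pp n ρ) := by
      rw [e2]
      exact hwi.sub hi
    rw [e1, integral_sub hwi hi2]
    rfl
  have hr : Integrable (fun y => ∫ X, wv X * ‖(oc X).starProjection y‖ ^ 2 ∂(pp n ρ)) τ :=
    hint.integral_prod_right
  have hr2 : Integrable (fun y => iw n ρ (fun X => ⟪y, y - rv X y⟫)) τ := by
    refine ((integrable_const (en n ρ)).sub hr).congr ?_
    filter_upwards [hae] with y hy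
    simp only [Pi.sub_apply]
    rw [hy]
    ring
  calc iw n ρ (fun X => sW τ (oc X)) = ∫ X, ∫ x, wv X * ‖(oc X).starProjection x‖ ^ 2 ∂τ ∂(pp n ρ) := by
        unfold iw sW
        refine integral_congr_ae (Eventually.of_forall fun X => ?_)
        simp only [integral_const_mul]
    _ = ∫ x, ∫ X, wv X * ‖(oc X).starProjection x‖ ^ 2 ∂(pp n ρ) ∂τ := integral_integral_swap hint
    _ = ∫ y, (en n ρ - iw n ρ (fun X => ⟪y, y - rv X y⟫)) ∂τ := integral_congr_ae hae
    _ = en n ρ - ∫ y, iw n ρ (fun X => ⟪y, y - rv X y⟫) ∂τ := by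
        rw [integral_sub (integrable_const _) hr2]
        simp

theorem cyc_mW {j : ℕ} (hjd : j < Module.finrank ℝ V) {ρ : Measure V} (hρ : US ρ) (hj : 0 < en j ρ)
    (hj' : 0 < en j (Nop j ρ)) (h : ∀ u, ‖u‖ = 1 → hf (Nop j (Nop j ρ)) u = hf ρ u)
    (hI : 0 < ∫ x, hf ρ x ∂(Nop j ρ)) {τ : Measure V} (hτ : US τ) :
    mW (j + 1) ρ τ = mW (j + 1) (Nop j ρ) τ := by
  have hρ1 : US (Nop j ρ) := nop_us hρ hj hjd
  obtain ⟨h1, h2, h3⟩ := cyc_en hjd hρ hj hj' h hI
  unfold mW
  rw [iw_sW hρ hτ, iw_sW hρ1 hτ, mul_sub, mul_sub, inv_mul_cancel₀ h1.ne', inv_mul_cancel₀ h2.ne',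
    ← integral_const_mul, ← integral_const_mul]
  congr 1
  refine integral_congr_ae (Eventually.of_forall fun y => ?_)
  have h4 := cyc_iw hjd hρ hj hj' h y y
  simp only
  rw [inv_mul_eq_div, inv_mul_eq_div, div_eq_div_iff h1.ne' h2.ne']
  apply mul_right_cancel₀ hj.ne'
  apply mul_right_cancel₀ hj'.ne'
  calc iw (j + 1) ρ (fun X => ⟪y, y - rv X y⟫) * en (j + 1) (Nop j ρ) * en j ρ * en j (Nop j ρ) =
        (iw (j + 1) ρ (fun X => ⟪y, y - rv X y⟫) * en j (Nop j ρ)) * (en (j + 1) (Nop j ρ) * en j ρ) := by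
        ring
    _ = (iw (j + 1) (Nop j ρ) (fun X => ⟪y, y - rv X y⟫) * en j ρ) * (en (j + 1) ρ * en j (Nop j ρ)) := by
        rw [h4, h3]
    _ = iw (j + 1) (Nop j ρ) (fun X => ⟪y, y - rv X y⟫) * en (j + 1) ρ * en j ρ * en j (Nop j ρ) := by
        ring

end Pool.Agent.PBL
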