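import Pool.Agent.PBL.E4
import Pool.Agent.PBL.B3c

/-! Module PBL-S6a (the mean of `sW τ` at the level `j`). `mean_t`: Fubini and `nop_inner`, as in `mean_s`. `sq_low`: in an orthonormal
basis the double integral is the sum of the squares of the entries of `∫ x ⊗ x dτ`, which has trace 1. -/

set_option autoImplicit false

namespace Pool.Agent.PBL
open MeasureTheory ProbabilityTheory Set Filter Topology Metric
open Pool.Agent.HP89 Pool.Agent.FI75
open scoped RealInnerProductSpace ENNReal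

variable {V : Type*} [NormedAddCommGroup V] [InnerProductSpace ℝ V] [FiniteDimensional ℝ V]
  [MeasurableSpace V] [BorelSpace V]

omit [MeasurableSpace V] [BorelSpace V] in
private theorem s6_sq_rv {n : ℕ} (X : Fin n → V) (x : V) :
    ⟪rv X x, x⟫ = ‖(oc X).starProjection x‖ ^ 2 := by
  rw [rv_eq]
  exact (oc X).re_inner_starProjection_eq_normSq x

omit [FiniteDimensional ℝ V] in
private theorem s6_int {τ : Measure V} (hτ : US τ) (u w : V) :
    Integrable (fun x : V => ⟪x, u⟫ * ⟪x, w⟫) τ := by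
  have := hτ.prob
  refine Integrable.of_bound (C := ‖u‖ * ‖w‖) ?_ ?_
  · refine Continuous.aestronglyMeasurable ?_
    fun_prop
  · filter_upwards [hτ.unit] with x hx
    rw [norm_mul]
    have h1 : ‖⟪x, u⟫‖ ≤ ‖u‖ := by
      have := norm_inner_le_norm (𝕜 := ℝ) x u
      rwa [hx, one_mul] at this
    have h2 : ‖⟪x, w⟫‖ ≤ ‖w‖ := by
      have := norm_inner_le_norm (𝕜 := ℝ) x w
      rwa [hx, one_mul] at this
    exact mul_le_mul h1 h2 (norm_nonneg _) (norm_nonneg _)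

theorem mean_t {j : ℕ} {ρ τ : Measure V} (hρ : US ρ) (hτ : US τ) (hj : 0 < en j ρ) (hjd : j < Module.finrank ℝ V) :
    mW j ρ τ = ((Module.finrank ℝ V : ℝ) - j) * ∫ x, ∫ y, ⟪x, y⟫ ^ 2 ∂(Nop j ρ) ∂τ := by
  have := hρ.prob
  have := hτ.prob
  have h1 : ∀ x : V, ((Module.finrank ℝ V : ℝ) - j) * en j ρ * ∫ y, ⟪x, y⟫ ^ 2 ∂(Nop j ρ) =
      ∫ X, wv X * ‖(oc X).starProjection x‖ ^ 2 ∂(pp j ρ) := by
    intro x
    have h := nop_inner hρ hj hjd x x
    have e : (fun y : V => ⟪x, y⟫ ^ 2) = fun y => ⟪y, x⟫ * ⟪y, x⟫ := by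
      funext y; rw [real_inner_comm]; ring
    rw [e, h]
    unfold iw
    refine integral_congr_ae (Eventually.of_forall fun X => ?_)
    simp only [s6_sq_rv]
  have hint : Integrable (Function.uncurry fun (X : Fin j → V) (x : V) => wv X * ‖(oc X).starProjection x‖ ^ 2)
      ((pp j ρ).prod τ) := by
    refine Integrable.of_bound (C := 1) ?_ ?_
    · refine Measurable.aestronglyMeasurable ?_
      have e : (Function.uncurry fun (X : Fin j → V) (x : V) => wv X * ‖(oc X).starProjection x‖ ^ 2) =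
          fun p : (Fin j → V) × V => wv p.1 * ‖rv p.1 p.2‖ ^ 2 := by
        funext p; simp only [Function.uncurry, rv_eq]
      rw [e]
      exact ((measurable_wv j).comp measurable_fst).mul (meas_rv.norm.pow_const 2)
    · have a1 := Measure.quasiMeasurePreserving_fst (μ := pp j ρ) (ν := τ) |>.ae (ae_wv_le hρ j)
      have a2 := Measure.quasiMeasurePreserving_snd (μ := pp j ρ) (ν := τ) |>.ae hτ.unit
      filter_upwards [a1, a2] with p h1 h2
      simp only [Function.uncurry]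
      rw [norm_mul, Real.norm_eq_abs, abs_of_nonneg h1.1, norm_pow, norm_norm]
      have h3 : ‖(oc p.1).starProjection p.2‖ ≤ 1 := by
        rw [← h2]; exact Submodule.norm_starProjection_apply_le _ _
      have h4 : ‖(oc p.1).starProjection p.2‖ ^ 2 ≤ 1 := pow_le_one₀ (norm_nonneg _) h3
      calc wv p.1 * ‖(oc p.1).starProjection p.2‖ ^ 2 ≤ 1 * 1 :=
            mul_le_mul h1.2 h4 (by positivity) zero_le_one
        _ = 1 := one_mul 1
  have h2 : iw j ρ (fun X => sW τ (oc X)) =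
      en j ρ * (((Module.finrank ℝ V : ℝ) - j) * ∫ x, ∫ y, ⟪x, y⟫ ^ 2 ∂(Nop j ρ) ∂τ) := by
    calc iw j ρ (fun X => sW τ (oc X)) =
          ∫ X, ∫ x, wv X * ‖(oc X).starProjection x‖ ^ 2 ∂τ ∂(pp j ρ) := by
          unfold iw sW
          refine integral_congr_ae (Eventually.of_forall fun X => ?_)
          simp only [integral_const_mul]
      _ = ∫ x, ∫ X, wv X * ‖(oc X).starProjection x‖ ^ 2 ∂(pp j ρ) ∂τ := integral_integral_swap hint
      _ = ∫ x, ((Module.finrank ℝ V : ℝ) - j) * en j ρ * ∫ y, ⟪x, y⟫ ^ 2 ∂(Nop j ρ) ∂τ := by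
          refine integral_congr_ae (Eventually.of_forall fun x => ?_)
          simp only [h1 x]
      _ = en j ρ * (((Module.finrank ℝ V : ℝ) - j) * ∫ x, ∫ y, ⟪x, y⟫ ^ 2 ∂(Nop j ρ) ∂τ) := by
          rw [integral_const_mul]; ring
  unfold mW
  rw [h2, inv_mul_cancel_left₀ hj.ne']

theorem sq_low {τ : Measure V} (hτ : US τ) (hd : 1 ≤ Module.finrank ℝ V) :
    1 ≤ (Module.finrank ℝ V : ℝ) * ∫ x, ∫ y, ⟪x, y⟫ ^ 2 ∂τ ∂τ := by
  have := hτ.prob
  let e := stdOrthonormalBasis ℝ V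
  let T : Fin (Module.finrank ℝ V) → Fin (Module.finrank ℝ V) → ℝ :=
    fun a c => ∫ x, ⟪x, e a⟫ * ⟪x, e c⟫ ∂τ
  have hT : ∑ a, T a a = 1 := by
    have h1 : ∑ a, T a a = ∫ x, ∑ a, ⟪x, e a⟫ * ⟪x, e a⟫ ∂τ :=
      (integral_finsetSum _ fun a _ => s6_int hτ (e a) (e a)).symm
    rw [h1]
    have h2 : ∫ x, ∑ a, ⟪x, e a⟫ * ⟪x, e a⟫ ∂τ = ∫ _x, (1 : ℝ) ∂τ := by
      refine integral_congr_ae ?_
      filter_upwards [hτ.unit] with x hx
      have h3 := e.sum_inner_mul_inner x x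
      rw [real_inner_self_eq_norm_sq, hx, one_pow] at h3
      rw [← h3]
      refine Finset.sum_congr rfl fun a _ => ?_
      rw [real_inner_comm x (e a)]
    rw [h2]
    simp
  have hx : ∀ x y : V, ⟪x, y⟫ ^ 2 =
      ∑ a, ∑ c, (⟪x, e a⟫ * ⟪x, e c⟫) * (⟪y, e a⟫ * ⟪y, e c⟫) := by
    intro x y
    have h3 := e.sum_inner_mul_inner x y
    rw [← h3, sq, Finset.sum_mul_sum]
    refine Finset.sum_congr rfl fun a _ => Finset.sum_congr rfl fun c _ => ?_
    rw [real_inner_comm y (e a), real_inner_comm y (e c)]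
    ring
  have h4 : ∀ x : V, ∫ y, ⟪x, y⟫ ^ 2 ∂τ = ∑ a, ∑ c, T a c * (⟪x, e a⟫ * ⟪x, e c⟫) := by
    intro x
    have h5 : (fun y : V => ⟪x, y⟫ ^ 2) =
        fun y => ∑ a, ∑ c, (⟪x, e a⟫ * ⟪x, e c⟫) * (⟪y, e a⟫ * ⟪y, e c⟫) := by
      funext y
      exact hx x y
    rw [h5, integral_finsetSum _ fun a _ => integrable_finsetSum _ fun c _ =>
      (s6_int hτ (e a) (e c)).const_mul _]
    refine Finset.sum_congr rfl fun a _ => ?_
    rw [integral_finsetSum _ fun c _ => (s6_int hτ (e a) (e c)).const_mul _]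
    refine Finset.sum_congr rfl fun c _ => ?_
    rw [integral_const_mul, mul_comm]
  have h6 : ∫ x, ∫ y, ⟪x, y⟫ ^ 2 ∂τ ∂τ = ∑ a, ∑ c, T a c * T a c := by
    have h5 : (fun x : V => ∫ y, ⟪x, y⟫ ^ 2 ∂τ) =
        fun x => ∑ a, ∑ c, T a c * (⟪x, e a⟫ * ⟪x, e c⟫) := by
      funext x
      exact h4 x
    rw [h5, integral_finsetSum _ fun a _ => integrable_finsetSum _ fun c _ =>
      (s6_int hτ (e a) (e c)).const_mul _]
    refine Finset.sum_congr rfl fun a _ => ?_
    rw [integral_finsetSum _ fun c _ => (s6_int hτ (e a) (e c)).const_mul _]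
    refine Finset.sum_congr rfl fun c _ => ?_
    rw [integral_const_mul]
  rw [h6]
  have h7 : (∑ a, T a a) ^ 2 ≤ (Module.finrank ℝ V : ℝ) * ∑ a, T a a ^ 2 := by
    have h8 := sq_sum_le_card_mul_sum_sq (s := (Finset.univ : Finset (Fin (Module.finrank ℝ V))))
      (f := fun a => T a a)
    rwa [Finset.card_univ, Fintype.card_fin] at h8
  have h9 : ∑ a, T a a ^ 2 ≤ ∑ a, ∑ c, T a c * T a c := by
    refine Finset.sum_le_sum fun a _ => ?_
    have h10 := Finset.single_le_sum (f := fun c => T a c * T a c)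
      (fun c _ => mul_self_nonneg (T a c)) (Finset.mem_univ a)
    rw [sq]
    exact h10
  calc (1 : ℝ) = (∑ a, T a a) ^ 2 := by rw [hT, one_pow]
    _ ≤ (Module.finrank ℝ V : ℝ) * ∑ a, T a a ^ 2 := h7
    _ ≤ (Module.finrank ℝ V : ℝ) * ∑ a, ∑ c, T a c * T a c :=
        mul_le_mul_of_nonneg_left h9 (Nat.cast_nonneg _)

end Pool.Agent.PBL
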