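import Pool.Agent.PBL.S4
import Pool.Agent.PBL.S5d
import Pool.Agent.PBL.S6a
import Pool.Agent.PBL.Num

/-! Module PBL-S6b: the lower bound for `vv` along a two-cycle. The levels `j` and `j + 1` are compared with `lev`. -/

set_option autoImplicit false

namespace Pool.Agent.PBL
open MeasureTheory ProbabilityTheory Set Filter Topology Metric
open Pool.Agent.HP89 Pool.Agent.FI75
open scoped RealInnerProductSpace ENNReal

variable {V : Type*} [NormedAddCommGroup V] [InnerProductSpace ℝ V] [FiniteDimensional ℝ V]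
  [MeasurableSpace V] [BorelSpace V]

theorem vv_cyc {j : ℕ} {M : ℝ} (hP : Par (Module.finrank ℝ V) j M)
    (hM : 11 * (Module.finrank ℝ V : ℝ) ≤ 10 * (M * ((Module.finrank ℝ V : ℝ) - j)))
    {ρ : Measure V} (hN : Nice j M ρ) (hj : 0 < en j ρ) (hj' : 0 < en j (Nop j ρ))
    (h : ∀ u, ‖u‖ = 1 → hf (Nop j (Nop j ρ)) u = hf ρ u) (hI : 0 < ∫ x, hf ρ x ∂(Nop j ρ)) :
    1 ≤ M * vv j ρ := by
  have hjd := hP.hjd
  have hk := hP.k_pos
  have hd := hP.d_pos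
  have hM1 := hP.one
  have hρ := hN.us
  have hρ1 : US (Nop j ρ) := nop_us hρ hj hjd
  have hρ2 : US (Nop j (Nop j ρ)) := nop_us hρ1 hj' hjd
  have hν := sub1_smul hk.le hρ hN.n1
  obtain ⟨he1, he2, -⟩ := cyc_en hjd hρ hj hj' h hI
  have l1 := lev hρ hν he1
  have l2 := lev hρ1 hν he2
  rw [mW_smul hk.le, mW_smul hk.le] at l1 l2
  rw [← cyc_mW hjd hρ hj hj' h hI hρ] at l2
  have m1 : mW j ρ ρ = vv j ρ := mean_t hρ hρ hj hjd
  have m2 : mW j (Nop j ρ) ρ =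
      ((Module.finrank ℝ V : ℝ) - j) * ∫ x, ∫ y, ⟪x, y⟫ ^ 2 ∂ρ ∂ρ := by
    rw [mean_t hρ1 hρ hj' hjd]
    congr 1
    refine integral_congr_ae (ae_of_all _ fun x => ?_)
    have h3 := T_det hρ2 hρ h x
    simp only [real_inner_comm x] at h3
    simpa only [real_inner_comm] using h3
  have hd1 : 1 ≤ Module.finrank ℝ V := by
    have := hP.hj
    omega
  have m3 := sq_low hρ hd1
  rw [m1] at l1
  rw [m2] at l2
  obtain ⟨S, hS⟩ : ∃ S, S = ∫ x, ∫ y, ⟪x, y⟫ ^ 2 ∂ρ ∂ρ := ⟨_, rfl⟩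
  rw [← hS] at l2 m3
  obtain ⟨d, hdd⟩ : ∃ d : ℝ, d = (Module.finrank ℝ V : ℝ) := ⟨_, rfl⟩
  obtain ⟨k, hkk⟩ : ∃ k : ℝ, k = (Module.finrank ℝ V : ℝ) - j := ⟨_, rfl⟩
  obtain ⟨r, hr⟩ : ∃ r : ℝ, r = √((j : ℝ) + 1) := ⟨_, rfl⟩
  have hbig := hP.big
  have hMk := hP.hM
  rw [← hdd] at hM hMk hbig hd m3 hkk l1 l2 hk
  rw [← hkk] at hM hMk l1 l2 hk
  rw [← hr] at l1 l2
  have hr0 : 0 ≤ r := hr ▸ Real.sqrt_nonneg _
  have hrd : r ≤ √d := by
    rw [hr]
    apply Real.sqrt_le_sqrt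
    rw [hdd]
    exact_mod_cast hjd
  have hdS : k ≤ d * (k * S) := by nlinarith
  have a1 := abs_le.1 l1
  have a2 := abs_le.1 l2
  -- `k vv ≥ k (k S) - 2 r`
  have b1 : k * (k * S) - 2 * r ≤ k * vv j ρ := by linarith [a1.1, a1.2, a2.1, a2.2]
  -- `20 M r ≤ k`
  have hs0 : 0 ≤ √d := Real.sqrt_nonneg _
  have hsd : √d * √d = d := Real.mul_self_sqrt hd.le
  have b2 : 20 * M * M ≤ √d := by
    refine le_trans ?_ hbig
    have h8 : M * M ≤ M ^ 10 := by
      calc M * M = M ^ 2 := by ring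
        _ ≤ M ^ 10 := pow_le_pow_right₀ hM1 (by norm_num)
    nlinarith
  have b3 : 20 * M * r ≤ k := by
    have h9 : M * (20 * M * r) ≤ M * k := by
      calc M * (20 * M * r) = (20 * M * M) * r := by ring
        _ ≤ √d * √d := mul_le_mul b2 hrd hr0 hs0
        _ = d := hsd
        _ ≤ M * k := hMk
    exact le_of_mul_le_mul_left h9 (by linarith)
  -- `M k (k S) ≥ 11 k / 10`
  have b4 : 11 * k ≤ 10 * (M * k * (k * S)) := by
    have h10 : 11 * (d * (k * S)) ≤ 10 * (M * k) * (k * S) := by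
      have hkS : 0 ≤ k * S := by
        by_contra hcon
        push Not at hcon
        nlinarith
      nlinarith
    nlinarith
  have b5 : k * 1 ≤ k * (M * vv j ρ) := by
    have h11 : M * (k * (k * S) - 2 * r) ≤ M * (k * vv j ρ) :=
      mul_le_mul_of_nonneg_left b1 (by linarith)
    nlinarith
  exact le_of_mul_le_mul_left b5 hk

end Pool.Agent.PBL
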