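import Pool.Agent.PBL.E7
import Pool.Agent.PBL.E5

/-! Module PBL-S7 (near isotropy along a two-cycle). `vv_two`: if `ρ` and `Nop j (Nop j ρ)` have the same second moments, then
`vv j (Nop j ρ) = vv j ρ` (Fubini). `iso_two`: let `e_i` be an orthonormal basis of eigenvectors of `Tv ρ` with eigenvalues `l_i ≥ 0`,
`m_i = ∫ ⟪x, e_i⟫² d(Nop j ρ)`, `θ = j k / vv j ρ`. `ni_main` for `ρ` and for `Nop j ρ` gives `|1 - k m_i - θ l_i m_i| ≤ ε` and
`|1 - k l_i - θ l_i m_i| ≤ ε`, `ε = 50 M^5/√d`; hence `k |m_i - l_i| ≤ 2 ε` and `|1 - k l_i - θ l_i²| ≤ ε (1 + 2 (θ/k) l_i)`. Subtracting two of these,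
`k |l_i - l_m| ≤ 2 ε`; the mean of the `l_i` is `1/d`, so `|d l_i - 1| ≤ 100 M^6/√d`, and `∫ ⟪x, u⟫² dρ = ∑ l_i ⟪e_i, u⟫²`. -/

set_option autoImplicit false

namespace Pool.Agent.PBL
open MeasureTheory ProbabilityTheory Set Filter Topology Metric
open Pool.Agent.HP89 Pool.Agent.FI75
open scoped RealInnerProductSpace ENNReal

variable {V : Type*} [NormedAddCommGroup V] [InnerProductSpace ℝ V] [FiniteDimensional ℝ V]
  [MeasurableSpace V] [BorelSpace V]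

private theorem integ2 {ρ : Measure V} (hρ : US ρ) (u w : V) : Integrable (fun x : V => ⟪x, u⟫ * ⟪x, w⟫) ρ := by
  have := hρ.prob
  refine Integrable.of_bound (C := ‖u‖ * ‖w‖) ?_ ?_
  · exact (Continuous.aestronglyMeasurable (by fun_prop))
  · filter_upwards [hρ.unit] with x hx
    rw [norm_mul]
    have h1 : ‖(⟪x, u⟫ : ℝ)‖ ≤ ‖u‖ := by
      simpa [hx] using norm_inner_le_norm (𝕜 := ℝ) x u
    have h2 : ‖(⟪x, w⟫ : ℝ)‖ ≤ ‖w‖ := by
      simpa [hx] using norm_inner_le_norm (𝕜 := ℝ) x w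
    exact mul_le_mul h1 h2 (norm_nonneg _) (norm_nonneg _)

private noncomputable def TL (ρ : Measure V) (hρ : US ρ) : V →ₗ[ℝ] V where
  toFun := Tv ρ
  map_add' := by
    intro u w
    refine ext_inner_left ℝ fun z => ?_
    rw [inner_add_right, inner_Tv hρ, inner_Tv hρ, inner_Tv hρ, ← integral_add (integ2 hρ _ _) (integ2 hρ _ _)]
    congr 1; ext x
    rw [inner_add_right]; ring
  map_smul' := by
    intro c u
    refine ext_inner_left ℝ fun z => ?_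
    rw [RingHom.id_apply, inner_smul_right, inner_Tv hρ, inner_Tv hρ, ← integral_const_mul]
    congr 1; ext x
    rw [inner_smul_right]; ring

private theorem spectral {ρ : Measure V} (hρ : US ρ) :
    ∃ (e : OrthonormalBasis (Fin (Module.finrank ℝ V)) ℝ V) (l : Fin (Module.finrank ℝ V) → ℝ),
      (∀ i, Tv ρ (e i) = l i • e i) ∧ (∀ i, ∫ x, ⟪x, e i⟫ ^ 2 ∂ρ = l i) ∧ (∀ i, 0 ≤ l i) ∧ ∑ i, l i = 1 ∧
      ∀ u, ∫ x, ⟪x, u⟫ ^ 2 ∂ρ = ∑ i, l i * ⟪e i, u⟫ ^ 2 := by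
  have := hρ.prob
  have hsym : (TL ρ hρ).IsSymmetric := by
    intro u w
    rw [real_inner_comm]
    show ⟪w, Tv ρ u⟫ = ⟪u, Tv ρ w⟫
    rw [inner_Tv hρ, inner_Tv hρ]; congr 1; ext x; ring
  have hT : ∀ i, Tv ρ (hsym.eigenvectorBasis rfl i) = hsym.eigenvalues rfl i • hsym.eigenvectorBasis rfl i :=
    fun i => hsym.apply_eigenvectorBasis rfl i
  generalize hsym.eigenvectorBasis rfl = e at hT
  generalize hsym.eigenvalues rfl = l at hT
  have hq : ∀ u : V, ∫ x, ⟪x, u⟫ ^ 2 ∂ρ = ⟪u, Tv ρ u⟫ := by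
    intro u
    rw [inner_Tv hρ]
    congr 1; ext x; ring
  have h1 : ∀ i, ∫ x, ⟪x, e i⟫ ^ 2 ∂ρ = l i := by
    intro i
    rw [hq, hT, inner_smul_right, real_inner_self_eq_norm_sq, e.norm_eq_one]
    ring
  refine ⟨e, l, hT, h1, ?_, ?_, ?_⟩
  · intro i
    rw [← h1]
    exact integral_nonneg fun x => sq_nonneg _
  · have h2 : ∑ i, l i = ∫ x, ∑ i, ⟪x, e i⟫ ^ 2 ∂ρ := by
      rw [integral_finsetSum]
      · exact Finset.sum_congr rfl fun i _ => (h1 i).symm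
      · intro i _
        have := integ2 hρ (e i) (e i)
        refine this.congr (Eventually.of_forall fun x => ?_)
        ring
    rw [h2]
    have h3 : (fun x : V => ∑ i, ⟪x, e i⟫ ^ 2) =ᵐ[ρ] fun _ => (1 : ℝ) := by
      filter_upwards [hρ.unit] with x hx
      have h4 := e.sum_inner_mul_inner x x
      rw [real_inner_self_eq_norm_sq, hx] at h4
      rw [show (1 : ℝ) = 1 ^ 2 by norm_num, ← h4]
      refine Finset.sum_congr rfl fun i _ => ?_
      rw [real_inner_comm x (e i)]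
      ring
    rw [integral_congr_ae h3]
    simp
  · intro u
    rw [hq, ← e.sum_inner_mul_inner u (Tv ρ u)]
    refine Finset.sum_congr rfl fun i _ => ?_
    have h5 : ⟪e i, Tv ρ u⟫ = l i * ⟪e i, u⟫ := by
      have h6 : ⟪e i, Tv ρ u⟫ = ⟪u, Tv ρ (e i)⟫ := by
        rw [inner_Tv hρ, inner_Tv hρ]; congr 1; ext x; ring
      rw [h6, hT, inner_smul_right, real_inner_comm]
    rw [h5, real_inner_comm u (e i)]
    ring

private theorem integ_sq {ρ : Measure V} (hρ : US ρ) (u : V) : Integrable (fun x : V => ⟪x, u⟫ ^ 2) ρ := by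
  refine (integ2 hρ u u).congr (Eventually.of_forall fun x => ?_)
  ring

theorem vv_two {j : ℕ} {ρ : Measure V} (hρ : US ρ) (hρ' : US (Nop j ρ))
    (hT : ∀ u : V, ∫ x, ⟪x, u⟫ ^ 2 ∂(Nop j (Nop j ρ)) = ∫ x, ⟪x, u⟫ ^ 2 ∂ρ) : vv j (Nop j ρ) = vv j ρ := by
  have hp := hρ.prob
  have hp' := hρ'.prob
  unfold vv
  congr 1
  have h1 : ∀ x : V, ∫ y, ⟪x, y⟫ ^ 2 ∂(Nop j (Nop j ρ)) = ∫ y, ⟪x, y⟫ ^ 2 ∂ρ := by
    intro x
    have h2 : ∫ y, ⟪x, y⟫ ^ 2 ∂(Nop j (Nop j ρ)) = ∫ y, ⟪y, x⟫ ^ 2 ∂(Nop j (Nop j ρ)) := by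
      congr 1; ext y; rw [real_inner_comm]
    have h3 : ∫ y, ⟪x, y⟫ ^ 2 ∂ρ = ∫ y, ⟪y, x⟫ ^ 2 ∂ρ := by
      congr 1; ext y; rw [real_inner_comm]
    rw [h2, h3, hT x]
  simp_rw [h1]
  have h4 : Integrable (Function.uncurry fun (x y : V) => ⟪x, y⟫ ^ 2) ((Nop j ρ).prod ρ) := by
    refine Integrable.of_bound (C := 1) ?_ ?_
    · exact (Continuous.aestronglyMeasurable (by fun_prop))
    · have h5 : ∀ᵐ p : V × V ∂((Nop j ρ).prod ρ), ‖p.1‖ = 1 :=
        Measure.quasiMeasurePreserving_fst.ae hρ'.unit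
      have h6 : ∀ᵐ p : V × V ∂((Nop j ρ).prod ρ), ‖p.2‖ = 1 :=
        Measure.quasiMeasurePreserving_snd.ae hρ.unit
      filter_upwards [h5, h6] with p hp1 hp2
      have h7 : |⟪p.1, p.2⟫| ≤ 1 := by
        have := abs_real_inner_le_norm p.1 p.2
        rwa [hp1, hp2, one_mul] at this
      show ‖⟪p.1, p.2⟫ ^ 2‖ ≤ 1
      rw [norm_pow, Real.norm_eq_abs]
      exact pow_le_one₀ (abs_nonneg _) h7
  rw [integral_integral_swap h4]
  refine integral_congr_ae (Eventually.of_forall fun y => ?_)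
  refine integral_congr_ae (Eventually.of_forall fun x => ?_)
  show ⟪x, y⟫ ^ 2 = ⟪y, x⟫ ^ 2
  rw [real_inner_comm]

/-- polarisation of the equality of the second moments -/
private theorem polar {ρ μ : Measure V} (hρ : US ρ) (hμ : US μ)
    (hT : ∀ u : V, ∫ x, ⟪x, u⟫ ^ 2 ∂μ = ∫ x, ⟪x, u⟫ ^ 2 ∂ρ) (u w : V) : ⟪w, Tv μ u⟫ = ⟪w, Tv ρ u⟫ := by
  rw [inner_Tv hρ, inner_Tv hμ]
  have h1 : ∀ ν : Measure V, US ν → ∫ x, ⟪x, u⟫ * ⟪x, w⟫ ∂ν =
      (∫ x, ⟪x, u + w⟫ ^ 2 ∂ν - ∫ x, ⟪x, u - w⟫ ^ 2 ∂ν) / 4 := by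
    intro ν hν
    rw [← integral_sub (integ_sq hν _) (integ_sq hν _), ← integral_div]
    congr 1; ext x
    rw [inner_add_right, inner_sub_right]; ring
  rw [h1 μ hμ, h1 ρ hρ, hT, hT]

/-- the real inequality behind `iso_two` -/
private theorem real_two {k θ ε a b ma mb : ℝ} (hk : 0 < k) (hθ : 0 ≤ θ) (ha : 0 ≤ a) (hb : 0 ≤ b)
    (ha1 : |1 - k * ma - θ * (a * ma)| ≤ ε) (ha2 : |1 - k * a - θ * (a * ma)| ≤ ε)
    (hb1 : |1 - k * mb - θ * (b * mb)| ≤ ε) (hb2 : |1 - k * b - θ * (b * mb)| ≤ ε) : k * |a - b| ≤ 2 * ε := by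
  have h1 : ∀ {a m : ℝ}, 0 ≤ a → |1 - k * m - θ * (a * m)| ≤ ε → |1 - k * a - θ * (a * m)| ≤ ε →
      |k * (1 - k * a) - k * θ * (a * a)| ≤ ε * (k + 2 * (θ * a)) := by
    intro a m ha h h'
    have h2 : |k * (m - a)| ≤ 2 * ε := by
      have h3 : k * (m - a) = (1 - k * a - θ * (a * m)) - (1 - k * m - θ * (a * m)) := by ring
      rw [h3]
      calc _ ≤ |1 - k * a - θ * (a * m)| + |1 - k * m - θ * (a * m)| := abs_sub _ _
        _ ≤ 2 * ε := by linarith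
    have h4 : k * (1 - k * a) - k * θ * (a * a) = k * (1 - k * a - θ * (a * m)) + (θ * a) * (k * (m - a)) := by ring
    rw [h4]
    have h5 : 0 ≤ θ * a := mul_nonneg hθ ha
    calc _ ≤ |k * (1 - k * a - θ * (a * m))| + |(θ * a) * (k * (m - a))| := abs_add_le _ _
      _ = k * |1 - k * a - θ * (a * m)| + (θ * a) * |k * (m - a)| := by
          rw [abs_mul, abs_of_pos hk, abs_mul (θ * a), abs_of_nonneg h5]
      _ ≤ k * ε + (θ * a) * (2 * ε) :=
          add_le_add (mul_le_mul_of_nonneg_left h' hk.le) (mul_le_mul_of_nonneg_left h2 h5)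
      _ = _ := by ring
  have h2 := h1 ha ha1 ha2
  have h3 := h1 hb hb1 hb2
  have h4 : 0 ≤ θ * (a + b) := mul_nonneg hθ (add_nonneg ha hb)
  have h5 : (k * (a - b)) * (k + θ * (a + b)) =
      (k * (1 - k * b) - k * θ * (b * b)) - (k * (1 - k * a) - k * θ * (a * a)) := by ring
  have h6 : (k * |a - b|) * (k + θ * (a + b)) ≤ (2 * ε) * (k + θ * (a + b)) := by
    rw [← abs_of_pos hk, ← abs_mul, abs_of_pos hk,
      ← abs_of_nonneg (show 0 ≤ k + θ * (a + b) by linarith), ← abs_mul,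
      abs_of_nonneg (show 0 ≤ k + θ * (a + b) by linarith), h5]
    calc _ ≤ |k * (1 - k * b) - k * θ * (b * b)| + |k * (1 - k * a) - k * θ * (a * a)| := abs_sub _ _
      _ ≤ ε * (k + 2 * (θ * b)) + ε * (k + 2 * (θ * a)) := add_le_add h3 h2
      _ = _ := by ring
  exact le_of_mul_le_mul_right h6 (by linarith)

theorem iso_two {j : ℕ} {M : ℝ} (hP : Par (Module.finrank ℝ V) j M) {ρ : Measure V} (hN : Nice j M ρ)
    (hN' : Nice j M (Nop j ρ)) (hj : 0 < en j ρ) (hj' : 0 < en j (Nop j ρ)) (hv : 1 ≤ M * vv j ρ)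
    (hT : ∀ u : V, ∫ x, ⟪x, u⟫ ^ 2 ∂(Nop j (Nop j ρ)) = ∫ x, ⟪x, u⟫ ^ 2 ∂ρ) : Iso M ρ := by
  have hρ := hN.us
  have hρ1 := hN'.us
  have hρ2 := nop_us hρ1 hj' hP.hjd
  have hpr := hρ.prob
  have hvv := vv_two hρ hρ1 hT
  have hpol := polar hρ hρ2 hT
  obtain ⟨e, l, hTe, hl, hl0, hsum, hq⟩ := spectral hρ
  have hd0 : (0 : ℝ) < (Module.finrank ℝ V : ℝ) := by
    have := hP.hjd
    have : 0 < Module.finrank ℝ V := by omega
    exact_mod_cast this
  have hk0 : 0 < (Module.finrank ℝ V : ℝ) - j := by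
    have := hP.hjd
    have : (j : ℝ) < (Module.finrank ℝ V : ℝ) := by exact_mod_cast this
    linarith
  have hM := hP.hM
  have hM1 := hP.one
  have hv0 : 0 < vv j ρ := by
    by_contra hc
    have : M * vv j ρ ≤ 0 := mul_nonpos_of_nonneg_of_nonpos (by linarith) (not_lt.mp hc)
    linarith
  have hv' : 1 ≤ M * vv j (Nop j ρ) := by rw [hvv]; exact hv
  -- the equations
  set ε : ℝ := 50 * M ^ 5 / √(Module.finrank ℝ V : ℝ) with hε
  set k : ℝ := (Module.finrank ℝ V : ℝ) - j with hk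
  set θ : ℝ := j * k / vv j ρ with hθ
  have hθ0 : 0 ≤ θ := by rw [hθ]; exact div_nonneg (mul_nonneg (Nat.cast_nonneg _) hk0.le) hv0.le
  have heq1 : ∀ i, |1 - k * ⟪e i, Tv (Nop j ρ) (e i)⟫ - θ * (l i * ⟪e i, Tv (Nop j ρ) (e i)⟫)| ≤ ε := by
    intro i
    have h1 := ni_main hP hN hj hv (e.norm_eq_one i) (e.norm_eq_one i)
    rw [hTe, real_inner_smul_left, real_inner_self_eq_norm_sq, e.norm_eq_one, one_pow] at h1
    exact h1
  have heq2 : ∀ i, |1 - k * l i - θ * (l i * ⟪e i, Tv (Nop j ρ) (e i)⟫)| ≤ ε := by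
    intro i
    have h1 := ni_main hP hN' hj' hv' (e.norm_eq_one i) (e.norm_eq_one i)
    rw [hvv, hpol, hpol, hTe, real_inner_smul_right, real_inner_smul_right, real_inner_self_eq_norm_sq, e.norm_eq_one, one_pow,
      mul_one, real_inner_comm] at h1
    exact h1
  have hdiff : ∀ i m, k * |l i - l m| ≤ 2 * ε := fun i m =>
    real_two hk0 hθ0 (hl0 i) (hl0 m) (heq1 i) (heq2 i) (heq1 m) (heq2 m)
  have hdev : ∀ i, |(Module.finrank ℝ V : ℝ) * l i - 1| ≤ dl (Module.finrank ℝ V) M := by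
    intro i
    have h1 : (Module.finrank ℝ V : ℝ) * l i - 1 = ∑ m, (l i - l m) := by
      rw [Finset.sum_sub_distrib, hsum]
      simp
    have h2 : k * |(Module.finrank ℝ V : ℝ) * l i - 1| ≤ (Module.finrank ℝ V : ℝ) * (2 * ε) := by
      rw [h1]
      calc k * |∑ m, (l i - l m)| ≤ k * ∑ m, |l i - l m| :=
            mul_le_mul_of_nonneg_left (Finset.abs_sum_le_sum_abs _ _) hk0.le
        _ = ∑ m, k * |l i - l m| := by rw [Finset.mul_sum]
        _ ≤ ∑ _m : Fin (Module.finrank ℝ V), 2 * ε := Finset.sum_le_sum fun m _ => hdiff i m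
        _ = _ := by simp
    have hsq : 0 < √(Module.finrank ℝ V : ℝ) := Real.sqrt_pos.mpr hd0
    have hε0 : 0 ≤ ε := by
      rw [hε]
      have : 0 ≤ M := by linarith
      positivity
    have h3 : k * |(Module.finrank ℝ V : ℝ) * l i - 1| ≤ k * (M * (2 * ε)) := by
      calc _ ≤ _ := h2
        _ ≤ (M * k) * (2 * ε) := mul_le_mul_of_nonneg_right hM (by linarith)
        _ = _ := by ring
    have h4 : |(Module.finrank ℝ V : ℝ) * l i - 1| ≤ M * (2 * ε) := le_of_mul_le_mul_left h3 hk0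
    refine h4.trans ?_
    unfold dl
    rw [hε]
    have h5 : M * (2 * (50 * M ^ 5 / √(Module.finrank ℝ V : ℝ))) = 100 * M ^ 6 / √(Module.finrank ℝ V : ℝ) := by
      ring
    rw [h5]
    have h6 : 0 ≤ M ^ 6 := pow_nonneg (by linarith) 6
    exact div_le_div_of_nonneg_right (by linarith) hsq.le
  intro u
  have hu : ‖u‖ ^ 2 = ∑ i, ⟪e i, u⟫ ^ 2 := by
    have h4 := e.sum_inner_mul_inner u u
    rw [real_inner_self_eq_norm_sq] at h4
    rw [← h4]
    refine Finset.sum_congr rfl fun i _ => ?_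
    rw [real_inner_comm u (e i)]
    ring
  rw [hq u, hu]
  constructor
  · rw [Finset.mul_sum, Finset.mul_sum]
    refine Finset.sum_le_sum fun i _ => ?_
    have h1 := (abs_le.mp (hdev i)).1
    have h2 : 0 ≤ ⟪e i, u⟫ ^ 2 := sq_nonneg _
    nlinarith
  · rw [Finset.mul_sum, Finset.mul_sum]
    refine Finset.sum_le_sum fun i _ => ?_
    have h1 := (abs_le.mp (hdev i)).2
    have h2 : 0 ≤ ⟪e i, u⟫ ^ 2 := sq_nonneg _
    nlinarith

end Pool.Agent.PBL
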