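import Pool.Agent.PBL.R2
import Pool.Agent.PBL.S6b
import Pool.Agent.PBL.S7

/-! Module PBL-S8 (the support functions of a two-cycle of bodies are constant on the sphere). -/

set_option autoImplicit false

namespace Pool.Agent.PBL
open MeasureTheory ProbabilityTheory Set Filter Topology Metric
open Pool.Agent.HP89 Pool.Agent.FI75
open Pool.Agent.Helper82.Proj1 (supp shadow kappa)
open scoped RealInnerProductSpace ENNReal Pointwise

variable {V : Type*} [NormedAddCommGroup V] [InnerProductSpace ℝ V] [FiniteDimensional ℝ V]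
  [MeasurableSpace V] [BorelSpace V]

private theorem hf_sm {ρ : Measure V} (hρ : US ρ) : StronglyMeasurable (hf ρ) := by
  have := hρ.prob
  have h1 : StronglyMeasurable (fun p : V × V => |⟪p.2, p.1⟫|) :=
    (continuous_abs.comp (continuous_snd.inner continuous_fst)).stronglyMeasurable
  exact h1.integral_prod_right

theorem hf_int_pos {ρ τ : Measure V} (hρ : US ρ) (hτ : US τ) (h : ∀ u, ‖u‖ = 1 → 0 < hf ρ u) :
    0 < ∫ x, hf ρ x ∂τ := by
  have hp := hρ.prob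
  have ht := hτ.prob
  have hnn : ∀ u, 0 ≤ hf ρ u := fun u => integral_nonneg fun x => abs_nonneg _
  have hb : ∀ u, ‖u‖ = 1 → hf ρ u ≤ 1 := by
    intro u hu
    have h1 : hf ρ u ≤ ∫ _, (1 : ℝ) ∂ρ := by
      refine integral_mono_of_nonneg (Eventually.of_forall fun x => abs_nonneg _) (integrable_const _) ?_
      filter_upwards [hρ.unit] with x hx
      calc |⟪x, u⟫| ≤ ‖x‖ * ‖u‖ := abs_real_inner_le_norm x u
        _ = 1 := by rw [hx, hu, mul_one]
    simpa using h1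
  have hint : Integrable (hf ρ) τ := by
    refine Integrable.mono' (integrable_const (1 : ℝ)) (hf_sm hρ).aestronglyMeasurable ?_
    filter_upwards [hτ.unit] with x hx
    rw [Real.norm_eq_abs, abs_of_nonneg (hnn x)]
    exact hb x hx
  by_contra hcon
  have h0 : ∫ x, hf ρ x ∂τ = 0 := le_antisymm (not_lt.1 hcon) (integral_nonneg fun x => hnn x)
  have h1 := (integral_eq_zero_iff_of_nonneg_ae (Eventually.of_forall hnn) hint).1 h0
  obtain ⟨x, hx1, hx2⟩ := (h1.and hτ.unit).exists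
  have := h x hx2
  rw [hx1] at this
  exact lt_irrefl _ this

theorem chain_const_two {j : ℕ} {M : ℝ} (hP : Par (Module.finrank ℝ V) j M)
    (hM : 11 * (Module.finrank ℝ V : ℝ) ≤ 10 * (M * ((Module.finrank ℝ V : ℝ) - j)))
    (D : ℕ → Set V) (hD : ∀ n, CC (D n)) (hper : ∀ n, D (n + 2) = D n)
    (s : ℕ → ℝ) (hs : ∀ n, 0 < s n) (hpb : ∀ n, IsPB j (D n) (s n • D (n + 1)))
    (hne : ∀ n, ∃ u, ‖u‖ = 1 ∧ supp (D n) u ≠ 0) (hpos : ∀ u, ‖u‖ = 1 → 0 < supp (D 1) u)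
    (n : ℕ) (u v : V) (hu : ‖u‖ = 1) (hv : ‖v‖ = 1) :
    supp (D n) u = supp (D n) v := by
  have hjd := hP.hjd
  have hd1 : 1 ≤ Module.finrank ℝ V := by omega
  obtain ⟨ρ, hc, hτ, hgen⟩ := chain_measures hP.hj hjd (by norm_num : 1 ≤ 2) D hD hper s hs hpb hne
  have hN : ∀ n, Nice j M (ρ n) := by
    intro n
    obtain ⟨τ, h1, h2, h3⟩ := hτ n
    rw [h3]
    exact nice_nop hP h1 h2
  -- equal support functions
  have hhf : ∀ n u, ‖u‖ = 1 → hf (ρ (n + 2)) u = hf (ρ n) u := by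
    intro n
    obtain ⟨c, hc0, h1⟩ := hgen n
    obtain ⟨c', hc0', h2⟩ := hgen (n + 2)
    have h3 : ∀ u, ‖u‖ = 1 → c' * hf (ρ (n + 2)) u = c * hf (ρ n) u := by
      intro u hu
      rw [← h1 u hu, ← h2 u hu, hper n]
    have h4 : c' = c := hf_det hd1 (hc.us _) (hc.us _) h3
    subst h4
    intro u hu
    exact mul_left_cancel₀ hc0.ne' (h3 u hu)
  have hT : ∀ n (u : V), ∫ x, ⟪x, u⟫ ^ 2 ∂(ρ (n + 2)) = ∫ x, ⟪x, u⟫ ^ 2 ∂(ρ n) :=
    fun n u => T_det (hc.us _) (hc.us _) (hhf n) u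
  have hU : ∀ n u, UU (ρ (n + 2)) u = UU (ρ n) u := by
    intro n u
    unfold UU
    rw [Gr_det (hc.us _) (hc.us _) (hhf n) u]
  -- positivity
  have hodd : ∀ q, D (2 * q + 1) = D 1 := by
    intro q
    induction q with
    | zero => rfl
    | succ q ih =>
      rw [show 2 * (q + 1) + 1 = 2 * q + 1 + 2 by ring, hper, ih]
  have hhpos : ∀ q u, ‖u‖ = 1 → 0 < hf (ρ (2 * q + 1)) u := by
    intro q u hu
    obtain ⟨c, hc0, h1⟩ := hgen (2 * q + 1)
    have h2 := hpos u hu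
    rw [← hodd q, h1 u hu] at h2
    exact pos_of_mul_pos_right h2 hc0.le
  have hI1 : ∀ n, 0 < ∫ x, hf (ρ n) x ∂(ρ (n + 1)) := by
    intro n
    rcases Nat.even_or_odd' n with ⟨q, rfl | rfl⟩
    · rw [hf_comm (hc.us _) (hc.us _)]
      exact hf_int_pos (hc.us _) (hc.us _) (hhpos q)
    · exact hf_int_pos (hc.us _) (hc.us _) (hhpos q)
  have hI : ∀ n, Iso M (ρ n) := by
    intro n
    have e1 : Nop j (ρ n) = ρ (n + 1) := (hc.step n).symm
    have e2 : Nop j (Nop j (ρ n)) = ρ (n + 2) := by rw [e1, ← hc.step]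
    have h1 : 1 ≤ M * vv j (ρ n) := by
      refine vv_cyc hP hM (hN n) (hc.pos n) ?_ ?_ ?_
      · rw [e1]; exact hc.pos _
      · rw [e2]; exact hhf n
      · rw [e1]; exact hI1 n
    refine iso_two hP (hN n) ?_ (hc.pos n) ?_ h1 ?_
    · rw [e1]; exact hN _
    · rw [e1]; exact hc.pos _
    · rw [e2]; exact hT n
  have h0 : ∀ u, ‖u‖ = 1 → UU (ρ n) u = 0 :=
    fun u hu => UU_zero hP (by norm_num : 1 ≤ 2) hc hN hI hU n hu
  obtain ⟨c, hc0, h1⟩ := hgen n
  rw [h1 u hu, h1 v hv, hf_const (hc.us n) h0 hu hv]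

end Pool.Agent.PBL
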