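import Pool.Agent.PBL.R4
import Pool.Agent.PBL.S8
import Pool.Agent.PBL.S9

/-! Module PBL-S10: the parameters for two-cycles, `M = 28/25 * d/(d-j)`. -/

set_option autoImplicit false

namespace Pool.Agent.PBL
open MeasureTheory ProbabilityTheory Set Filter Topology Metric
open Pool.Agent.HP89 Pool.Agent.FI75
open Pool.Agent.Helper82.Proj1 (supp shadow kappa)
open scoped RealInnerProductSpace ENNReal Pointwise

theorem par_two {d j : ℕ} (hj : 1 ≤ j) (hjd : j < d) (h : 10 ^ 41 * d ^ 19 ≤ (d - j) ^ 20) :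
    Par d j (28 / 25 * ((d : ℝ) / ((d : ℝ) - j))) ∧
      11 * (d : ℝ) ≤ 10 * (28 / 25 * ((d : ℝ) / ((d : ℝ) - j)) * ((d : ℝ) - j)) := by
  have hd0 : (0 : ℝ) < d := by
    have : 0 < d := by omega
    exact_mod_cast this
  have hk : (0 : ℝ) < (d : ℝ) - j := by
    have : (j : ℝ) < d := by exact_mod_cast hjd
    linarith
  have h1 : (d : ℝ) / ((d : ℝ) - j) * ((d : ℝ) - j) = d := div_mul_cancel₀ _ hk.ne'
  have h1' : 28 / 25 * ((d : ℝ) / ((d : ℝ) - j)) * ((d : ℝ) - j) = 28 / 25 * d := by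
    rw [mul_assoc, h1]
  have h2 : (10 : ℝ) ^ 41 * (d : ℝ) ^ 19 ≤ ((d : ℝ) - j) ^ 20 := by
    have h3 : ((10 ^ 41 * d ^ 19 : ℕ) : ℝ) ≤ (((d - j) ^ 20 : ℕ) : ℝ) := by exact_mod_cast h
    rw [Nat.cast_mul, Nat.cast_pow, Nat.cast_pow, Nat.cast_pow, Nat.cast_sub hjd.le] at h3
    exact_mod_cast h3
  have hM1 : 1 ≤ (d : ℝ) / ((d : ℝ) - j) := by
    rw [le_div_iff₀ hk]
    have : (0 : ℝ) ≤ j := Nat.cast_nonneg _
    linarith
  refine ⟨⟨hj, hjd, ?_, ?_, ?_⟩, ?_⟩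
  · linarith
  · rw [h1']
    linarith
  · apply Real.le_sqrt_of_sq_le
    have hpos : (0 : ℝ) < ((d : ℝ) - j) ^ 20 := by positivity
    have h4 : (28 / 25 : ℝ) ^ 20 ≤ 10 := by norm_num
    have h5 : (10 ^ 20 * (28 / 25 * ((d : ℝ) / ((d : ℝ) - j))) ^ 10) ^ 2 =
        (28 / 25 : ℝ) ^ 20 * ((10 : ℝ) ^ 40 * (d : ℝ) ^ 20 / ((d : ℝ) - j) ^ 20) := by
      rw [mul_pow, ← pow_mul, ← pow_mul, mul_pow, div_pow (d : ℝ)]
      ring
    rw [h5]
    have h6 : (0 : ℝ) ≤ (10 : ℝ) ^ 40 * (d : ℝ) ^ 20 / ((d : ℝ) - j) ^ 20 := by positivity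
    calc (28 / 25 : ℝ) ^ 20 * ((10 : ℝ) ^ 40 * (d : ℝ) ^ 20 / ((d : ℝ) - j) ^ 20)
        ≤ 10 * ((10 : ℝ) ^ 40 * (d : ℝ) ^ 20 / ((d : ℝ) - j) ^ 20) :=
          mul_le_mul_of_nonneg_right h4 h6
      _ = (d * ((10 : ℝ) ^ 41 * (d : ℝ) ^ 19)) / ((d : ℝ) - j) ^ 20 := by ring
      _ ≤ (d * ((d : ℝ) - j) ^ 20) / ((d : ℝ) - j) ^ 20 := by
          apply div_le_div_of_nonneg_right _ hpos.le
          exact mul_le_mul_of_nonneg_left h2 hd0.le
      _ = d := mul_div_cancel_right₀ _ hpos.ne'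
  · rw [h1']
    linarith

variable {V : Type*} [NormedAddCommGroup V] [InnerProductSpace ℝ V] [FiniteDimensional ℝ V]
  [MeasurableSpace V] [BorelSpace V]

theorem ball_two {j m : ℕ} (hj : 1 ≤ j) (hjd : j < Module.finrank ℝ V) (hm : 1 ≤ m) (hm2 : m ≤ 2)
    (h : 10 ^ 41 * Module.finrank ℝ V ^ 19 ≤ (Module.finrank ℝ V - j) ^ 20)
    (C : ℕ → Set V) (hC : ∀ i, CC (C i)) (hint : (interior (C 0)).Nonempty)
    (hpb : ∀ i < m, IsPB j (C i) (C (i + 1))) {c : ℝ} (hc : 0 < c) {x : V}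
    (hH : C m = (fun y => c • y + x) '' C 0) : ∃ (y : V) (r : ℝ), 0 < r ∧ C 0 = closedBall y r := by
  obtain ⟨hP, h11⟩ := par_two hj hjd h
  have hm' : m = 1 ∨ m = 2 := by omega
  rcases hm' with rfl | rfl
  · refine ball_of_const hj hjd le_rfl ?_ C hC hint hpb hc hH
    intro D hD hper s hs hpb' hne n u v hu hv
    exact chain_const hP le_rfl (Or.inl rfl) D hD hper s hs hpb' hne n u v hu hv
  · refine ball_of_const' hj hjd (by norm_num) ?_ C hC hint hpb hc hH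
    intro D hD hper s hs hpb' hne hpos n u v hu hv
    exact chain_const_two hP h11 D hD hper s hs hpb' hne hpos n u v hu hv

end Pool.Agent.PBL
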