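import Pool.Agent.PBL.B3b
import Pool.Agent.HP89.A1b

/-! Module PBL-S2a (isometric embeddings, and a unit vector orthogonal to the range). -/

set_option autoImplicit false

namespace Pool.Agent.PBL
open MeasureTheory ProbabilityTheory Set Filter Topology Metric
open Pool.Agent.HP89 Pool.Agent.FI75
open scoped RealInnerProductSpace ENNReal

variable {V : Type*} [NormedAddCommGroup V] [InnerProductSpace ℝ V] [FiniteDimensional ℝ V]
  [MeasurableSpace V] [BorelSpace V]
variable {W : Type*} [NormedAddCommGroup W] [InnerProductSpace ℝ W] [FiniteDimensional ℝ W]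
  [MeasurableSpace W] [BorelSpace W]

theorem nrm_map (ι : V →ₗᵢ[ℝ] W) (x : V) : nrm (ι x) = ι (nrm x) := by
  unfold nrm
  rw [ι.norm_map, map_smul]

private theorem map_nrm_map (ι : V →ₗᵢ[ℝ] W) (Z : List V) : (Z.map ι).map nrm = (Z.map nrm).map ι := by
  rw [List.map_map, List.map_map]
  exact List.map_congr_left fun x _ => nrm_map ι x

theorem wq_map (ι : V →ₗᵢ[ℝ] W) (Z : List V) : wq (Z.map ι) = wq Z := by
  unfold wq
  rw [map_nrm_map, wn_map]

theorem res_orth (ι : V →ₗᵢ[ℝ] W) {e : W} (h : ∀ x, ⟪ι x, e⟫ = 0) (Z : List V) : res (Z.map ι) e = e := by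
  induction Z with
  | nil => rfl
  | cons x Z ih =>
    rw [List.map_cons, res_cons, ih, res_map]
    unfold ort
    rw [h, zero_div, zero_smul, sub_zero]

theorem wq_cons_map (ι : V →ₗᵢ[ℝ] W) {e : W} (he : ‖e‖ = 1) (h : ∀ x, ⟪ι x, e⟫ = 0) (Z : List V) :
    wq (e :: Z.map ι) = wq Z := by
  have hn : nrm e = e := by
    unfold nrm
    rw [he, inv_one, one_smul]
  unfold wq
  rw [List.map_cons, map_nrm_map, hn, wn_cons, res_orth ι h, wn_map, he, mul_one]

private theorem ort_self (v : W) : ort v v = 0 := by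
  unfold ort
  by_cases hv : v = 0
  · simp [hv]
  · rw [real_inner_self_eq_norm_sq, div_self (by positivity), one_smul, sub_self]

theorem wq_two (e : W) (Z : List W) : wq (e :: e :: Z) = 0 := by
  unfold wq
  rw [List.map_cons, List.map_cons, wn_cons, res_cons, ort_self, norm_zero, mul_zero]

theorem qF_map (ι : V →ₗᵢ[ℝ] W) (ν : Measure V) (Z : List V) : qF (ν.map ι) (Z.map ι) = qF ν Z := by
  unfold qF
  have hc : Continuous (fun y : W => ‖res (Z.map ι) y‖ ^ 2) := (continuous_res (Z.map ι)).norm.pow 2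
  rw [integral_map ι.continuous.measurable.aemeasurable hc.aestronglyMeasurable]
  refine integral_congr_ae (ae_of_all _ fun y => ?_)
  simp only
  rw [res_map, ι.norm_map]

theorem qF_cons_map (ι : V →ₗᵢ[ℝ] W) {e : W} (h : ∀ x, ⟪ι x, e⟫ = 0) (ν : Measure V) (Z : List V) :
    qF (ν.map ι) (e :: Z.map ι) = qF ν Z := by
  unfold qF
  have hc : Continuous (fun y : W => ‖res (e :: Z.map ι) y‖ ^ 2) := (continuous_res (e :: Z.map ι)).norm.pow 2
  rw [integral_map ι.continuous.measurable.aemeasurable hc.aestronglyMeasurable]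
  refine integral_congr_ae (ae_of_all _ fun y => ?_)
  simp only
  rw [res_cons, res_orth ι h, res_map]
  unfold ort
  rw [real_inner_comm, h, zero_div, zero_smul, sub_zero, ι.norm_map]

end Pool.Agent.PBL
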