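import Pool.Agent.PBL.B3b
import Pool.Agent.PBL.S1

/-! Module PBL-S2b (images and mixtures of measures; one more dimension). -/

set_option autoImplicit false

namespace Pool.Agent.PBL
open MeasureTheory ProbabilityTheory Set Filter Topology Metric
open Pool.Agent.HP89 Pool.Agent.FI75
open scoped RealInnerProductSpace ENNReal

variable {V : Type*} [NormedAddCommGroup V] [InnerProductSpace ℝ V] [FiniteDimensional ℝ V]
  [MeasurableSpace V] [BorelSpace V]
variable {W : Type*} [NormedAddCommGroup W] [InnerProductSpace ℝ W] [FiniteDimensional ℝ W]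
  [MeasurableSpace W] [BorelSpace W]

theorem us_map (ι : V →ₗᵢ[ℝ] W) {ρ : Measure V} (hρ : US ρ) : US (ρ.map ι) := by
  have := hρ.prob
  have hm : Measurable ι := ι.continuous.measurable
  refine ⟨Measure.isProbabilityMeasure_map hm.aemeasurable, ?_⟩
  rw [ae_map_iff hm.aemeasurable (measurableSet_eq_fun measurable_norm measurable_const)]
  filter_upwards [hρ.unit] with x hx
  rw [ι.norm_map, hx]

theorem us_mixd {ρ : Measure V} (hρ : US ρ) {e : V} (he : ‖e‖ = 1) {s : ℝ} (hs : 0 ≤ s) (hs1 : s ≤ 1) :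
    US (mixd s ρ e) := by
  have := hρ.prob
  constructor
  · refine ⟨?_⟩
    unfold mixd
    rw [Measure.add_apply, Measure.smul_apply, Measure.smul_apply, measure_univ, measure_univ, smul_eq_mul,
      smul_eq_mul, mul_one, mul_one, ← ENNReal.ofReal_add (by linarith) hs]
    simp
  · unfold mixd
    rw [ae_add_measure_iff]
    refine ⟨Measure.ae_smul_measure hρ.unit _, Measure.ae_smul_measure ?_ _⟩
    rw [ae_dirac_eq]
    exact he

theorem sub1_map (ι : V →ₗᵢ[ℝ] W) {ν : Measure V} (hν : Sub1 ν) : Sub1 (ν.map ι) := by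
  have := hν.fin
  have hm : Measurable ι := ι.continuous.measurable
  refine ⟨inferInstance, ?_, fun u => ?_⟩
  · rw [integrable_map_measure (by fun_prop) hm.aemeasurable]
    refine hν.int.congr (ae_of_all _ fun y => ?_)
    simp only [Function.comp, ι.norm_map]
  · rw [integral_map hm.aemeasurable (by fun_prop)]
    have h : ∀ y : V, ⟪ι y, u⟫ = ⟪y, ContinuousLinearMap.adjoint ι.toContinuousLinearMap u⟫ := by
      intro y
      rw [ContinuousLinearMap.adjoint_inner_right]
      rfl
    simp_rw [h]
    refine (hν.le _).trans ?_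
    refine pow_le_pow_left₀ (norm_nonneg _) ?_ 2
    refine (ContinuousLinearMap.le_opNorm _ u).trans ?_
    rw [LinearIsometryEquiv.norm_map]
    exact mul_le_of_le_one_left (norm_nonneg _) ι.norm_toContinuousLinearMap_le

variable (V) in
theorem exists_ext : ∃ (ι : V →ₗᵢ[ℝ] EuclideanSpace ℝ (Fin (Module.finrank ℝ V + 1)))
    (e : EuclideanSpace ℝ (Fin (Module.finrank ℝ V + 1))), ‖e‖ = 1 ∧ ∀ x, ⟪ι x, e⟫ = 0 := by
  set d := Module.finrank ℝ V with hd
  let b := stdOrthonormalBasis ℝ V
  let f : V →ₗ[ℝ] EuclideanSpace ℝ (Fin (d + 1)) :=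
    { toFun := fun x => WithLp.toLp 2 (Fin.snoc (α := fun _ => ℝ) (fun i : Fin d => (b.repr x) i) 0)
      map_add' := by
        intro x y
        ext i
        refine Fin.lastCases ?_ (fun i => ?_) i
        · simp
        · simp
      map_smul' := by
        intro c x
        ext i
        refine Fin.lastCases ?_ (fun i => ?_) i
        · simp
        · simp }
  refine ⟨⟨f, fun x => ?_⟩, EuclideanSpace.single (Fin.last d) (1 : ℝ), by simp, fun x => ?_⟩
  · have h1 : ‖f x‖ ^ 2 = ‖x‖ ^ 2 := by
      rw [EuclideanSpace.norm_sq_eq, Fin.sum_univ_castSucc, ← b.repr.norm_map x, EuclideanSpace.norm_sq_eq]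
      simp [f]
      rfl
    exact (pow_left_inj₀ (norm_nonneg _) (norm_nonneg _) two_ne_zero).1 h1
  · show ⟪f x, _⟫ = 0
    rw [real_inner_comm, EuclideanSpace.inner_single_left]
    simp [f]

end Pool.Agent.PBL
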