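import Pool.Agent.PBL.B1a
import Pool.Agent.PBL.B0

/-! Module PBL-S3 (iterated integrals with respect to an image measure). -/

set_option autoImplicit false

namespace Pool.Agent.PBL
open MeasureTheory ProbabilityTheory Set Filter Topology Metric
open Pool.Agent.HP89 Pool.Agent.FI75
open scoped RealInnerProductSpace ENNReal

variable {α β : Type*} [MeasurableSpace α] [MeasurableSpace β]

theorem LB.map {G : List β → ℝ} (hG : LB G) {ι : α → β} (hι : Measurable ι) : LB (fun Z : List α => G (Z.map ι)) := by
  refine ⟨fun n => ?_, ?_⟩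
  · have h1 : Measurable (fun X : Fin n → α => (fun i => ι (X i) : Fin n → β)) :=
      measurable_pi_lambda _ fun i => hι.comp (measurable_pi_apply i)
    have h2 := (hG.meas n).comp h1
    have h3 : (fun X : Fin n → α => G ((List.ofFn X).map ι)) =
        (fun X : Fin n → β => G (List.ofFn X)) ∘ (fun X : Fin n → α => (fun i => ι (X i) : Fin n → β)) := by
      funext X
      simp only [Function.comp]
      rw [List.map_ofFn]
      rfl
    rw [h3]
    exact h2
  · obtain ⟨C, hC⟩ := hG.bdd
    exact ⟨C, fun Z => hC _⟩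

theorem itr_map {ι : α → β} (hι : Measurable ι) {ρ : Measure α} [IsProbabilityMeasure ρ] {G : List β → ℝ} (hG : LB G)
    (l : ℕ) (Y : List α) : itr (ρ.map ι) l G (Y.map ι) = itr ρ l (fun Z => G (Z.map ι)) Y := by
  have hp : IsProbabilityMeasure (ρ.map ι) := Measure.isProbabilityMeasure_map hι.aemeasurable
  induction l generalizing Y with
  | zero => rfl
  | succ l ih =>
    show ∫ x, itr (ρ.map ι) l G (x :: Y.map ι) ∂(ρ.map ι) = ∫ x, itr ρ l (fun Z => G (Z.map ι)) (x :: Y) ∂ρ
    rw [integral_map hι.aemeasurable ((hG.itr l).cons _).aestronglyMeasurable]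
    refine integral_congr_ae (ae_of_all _ fun x => ?_)
    exact ih (x :: Y)

theorem itr_map_cons {ι : α → β} (hι : Measurable ι) {ρ : Measure α} [IsProbabilityMeasure ρ] {G : List β → ℝ}
    (hG : LB G) (hs : Sym G) (e : β) (l : ℕ) (Y : List α) :
    itr (ρ.map ι) l G (e :: Y.map ι) = itr ρ l (fun Z => G (e :: Z.map ι)) Y := by
  have hp : IsProbabilityMeasure (ρ.map ι) := Measure.isProbabilityMeasure_map hι.aemeasurable
  induction l generalizing Y with
  | zero => rfl
  | succ l ih =>
    show ∫ x, itr (ρ.map ι) l G (x :: e :: Y.map ι) ∂(ρ.map ι) =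
      ∫ x, itr ρ l (fun Z => G (e :: Z.map ι)) (x :: Y) ∂ρ
    rw [integral_map hι.aemeasurable ((hG.itr l).cons _).aestronglyMeasurable]
    refine integral_congr_ae (ae_of_all _ fun x => ?_)
    simp only
    rw [← ih (x :: Y)]
    exact itr_sym hs l _ _ (List.Perm.swap _ _ _)

end Pool.Agent.PBL
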