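import Pool.Agent.PBL.S1
import Pool.Agent.PBL.S2a
import Pool.Agent.PBL.S2b
import Pool.Agent.PBL.S3
import Pool.Agent.PBL.B3c
import Pool.Agent.PBL.D0

/-! Module PBL-S4 (comparison of the levels `n` and `n + 1`): in `V ⊕ ℝ e` the mixture of `ρ` and the point mass at `e` has
a law which is a mixture of the two levels, with concentration. -/

set_option autoImplicit false

namespace Pool.Agent.PBL
open MeasureTheory ProbabilityTheory Set Filter Topology Metric
open Pool.Agent.HP89 Pool.Agent.FI75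
open scoped RealInnerProductSpace ENNReal

variable {V : Type*} [NormedAddCommGroup V] [InnerProductSpace ℝ V] [FiniteDimensional ℝ V]
  [MeasurableSpace V] [BorelSpace V]
variable {W : Type*} [NormedAddCommGroup W] [InnerProductSpace ℝ W] [FiniteDimensional ℝ W]
  [MeasurableSpace W] [BorelSpace W]

private theorem s4_gW_nonneg (ρ : Measure V) (E : Submodule ℝ V) : 0 ≤ gW ρ E :=
  integral_nonneg fun x => norm_nonneg _

private theorem s4_gW_le {ρ : Measure V} (hρ : US ρ) (E : Submodule ℝ V) : gW ρ E ≤ 1 := by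
  have := hρ.prob
  unfold gW
  have h1 : ∫ x, ‖E.starProjection x‖ ∂ρ ≤ ∫ _x : V, (1 : ℝ) ∂ρ := by
    refine integral_mono_of_nonneg (ae_of_all _ fun x => norm_nonneg _) (integrable_const _) ?_
    filter_upwards [hρ.unit] with x hx
    calc ‖E.starProjection x‖ ≤ ‖x‖ := E.norm_starProjection_apply_le x
      _ = 1 := hx
  simpa using h1

theorem en_pos_pred {ρ : Measure V} (hρ : US ρ) {n : ℕ} (hn : 0 < en (n + 1) ρ) : 0 < en n ρ := by
  have := hρ.prob
  have h1 : iw n ρ (fun X => gW ρ (oc X)) ≤ iw n ρ (fun _ => (1 : ℝ)) :=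
    iw_mono hρ (meas_gW ρ) measurable_const (C := 1)
      (fun X => by rw [abs_of_nonneg (s4_gW_nonneg ρ _)]; exact s4_gW_le hρ _)
      (fun X => by simp) (fun X _ _ => s4_gW_le hρ _)
  rw [iw_const, one_mul, ← en_succ hρ] at h1
  exact hn.trans_le h1

private theorem s4_key (ι : V →ₗᵢ[ℝ] W) {e : W} (he : ‖e‖ = 1) (ho : ∀ x, ⟪ι x, e⟫ = 0)
    {ρ : Measure V} (hρ : US ρ) {s : ℝ} (hs : 0 ≤ s) (hs1 : s ≤ 1) {F' : List W → ℝ} {F : List V → ℝ}
    (hF' : LB F') (hF : LB F) (hsym : Sym F') (h1 : ∀ Z : List V, F' (Z.map ι) = F Z)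
    (h2 : ∀ Z : List V, F' (e :: Z.map ι) = F Z) (n : ℕ) :
    iw (n + 1) (mixd s (ρ.map ι) e) (fun X => F' (List.ofFn X)) =
      (1 - s) ^ (n + 1) * iw (n + 1) ρ (fun X => F (List.ofFn X)) +
        ((n : ℝ) + 1) * s * (1 - s) ^ n * iw n ρ (fun X => F (List.ofFn X)) := by
  have hρι := us_map ι hρ
  have hus := us_mixd hρι he hs hs1
  have := hρ.prob
  have := hρι.prob
  have := hus.prob
  have hwq : LB (wq : List W → ℝ) := lb_wq
  have hG : LB (fun Z : List W => wq Z * F' Z) := hwq.mul hF'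
  have hGs : Sym (fun Z : List W => wq Z * F' Z) := fun Z Z' h => by
    show wq Z * F' Z = wq Z' * F' Z'
    rw [(wt_wq (ρ.map ι)).sym Z Z' h, hsym Z Z' h]
  have hG0 : ∀ Z : List W, (fun Z : List W => wq Z * F' Z) (e :: e :: Z) = 0 := fun Z => by
    show wq (e :: e :: Z) * F' (e :: e :: Z) = 0
    rw [wq_two, zero_mul]
  have hι : Measurable ι := ι.continuous.measurable
  rw [← itr_iw hus hF', itr_mix hs hs1 hG hGs hG0, ← itr_iw hρ hF, ← itr_iw hρ hF]
  have e1 := itr_map hι (ρ := ρ) hG (n + 1) []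
  have e2 := itr_map_cons hι (ρ := ρ) hG hGs e n []
  simp only [List.map_nil] at e1 e2
  rw [e1, e2]
  have e3 : (fun Z : List V => wq (Z.map ι) * F' (Z.map ι)) = fun Z => wq Z * F Z := by
    funext Z
    rw [wq_map, h1]
  have e4 : (fun Z : List V => wq (e :: Z.map ι) * F' (e :: Z.map ι)) = fun Z => wq Z * F Z := by
    funext Z
    rw [wq_cons_map ι he ho, h2]
  rw [e3, e4]

private theorem s4_lb_sq {α : Type*} [MeasurableSpace α] {F : List α → ℝ} (hF : LB F) (m : ℝ) :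
    LB (fun Z => (F Z - m) ^ 2) := by
  have h1 := (hF.sub (LB.const (α := α) m)).mul (hF.sub (LB.const (α := α) m))
  have h2 : (fun Z : List α => (F Z - m) ^ 2) = fun Z => (F Z - m) * (F Z - m) := by
    funext Z
    rw [pow_two]
  rw [h2]
  exact h1

private theorem s4_jensen {ρ : Measure V} (hρ : US ρ) {F : List V → ℝ} (hF : LB F) {n : ℕ} (hn : 0 < en n ρ)
    (c : ℝ) : en n ρ * ((en n ρ)⁻¹ * iw n ρ (fun X => F (List.ofFn X)) - c) ^ 2 ≤
      iw n ρ (fun X => (F (List.ofFn X) - c) ^ 2) := by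
  set a := en n ρ with ha
  set B := iw n ρ (fun X => F (List.ofFn X)) with hB
  set m := a⁻¹ * B with hm
  have hL : LB (fun Z : List V => 2 * (m - c) * F Z) := (LB.const (α := V) (2 * (m - c))).mul hF
  have hL2 : LB (fun Z : List V => 2 * (m - c) * F Z + ((m - c) ^ 2 - 2 * (m - c) * m)) :=
    hL.add (LB.const (α := V) _)
  obtain ⟨C1, hC1⟩ := hL.bdd
  obtain ⟨C2, hC2⟩ := hL2.bdd
  obtain ⟨C3, hC3⟩ := (s4_lb_sq hF c).bdd
  have h1 : iw n ρ (fun X => (2 * (m - c) * F (List.ofFn X) + ((m - c) ^ 2 - 2 * (m - c) * m))) ≤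
      iw n ρ (fun X => (F (List.ofFn X) - c) ^ 2) := by
    refine iw_mono hρ (hL2.meas n) ((s4_lb_sq hF c).meas n) (C := max C2 C3)
      (fun X => (hC2 _).trans (le_max_left _ _)) (fun X => (hC3 _).trans (le_max_right _ _)) ?_
    intro X _ _
    nlinarith [sq_nonneg (F (List.ofFn X) - m)]
  have h2 : iw n ρ (fun X => (2 * (m - c) * F (List.ofFn X) + ((m - c) ^ 2 - 2 * (m - c) * m))) =
      2 * (m - c) * B + ((m - c) ^ 2 - 2 * (m - c) * m) * a := by
    rw [iw_add hρ (hL.meas n) measurable_const (C := max C1 |(m - c) ^ 2 - 2 * (m - c) * m|)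
      (fun X => (hC1 _).trans (le_max_left _ _)) (fun X => le_max_right _ _), iw_const, iw_mul]
  rw [h2] at h1
  have h3 : m * a = B := by
    rw [hm, mul_comm a⁻¹ B, mul_assoc, inv_mul_cancel₀ hn.ne', mul_one]
  have h4 : 2 * (m - c) * B + ((m - c) ^ 2 - 2 * (m - c) * m) * a = a * (m - c) ^ 2 := by
    rw [← h3]
    ring
  rw [h4] at h1
  exact h1

private theorem s4_mW (ρ ν : Measure V) (n : ℕ) :
    mW n ρ ν = (en n ρ)⁻¹ * iw n ρ (fun X => qF ν (List.ofFn X)) := by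
  unfold mW
  have h : (fun X : Fin n → V => sW ν (oc X)) = fun X => qF ν (List.ofFn X) := by
    funext X
    rw [qF_eq]
  rw [h]

theorem lev {ρ ν : Measure V} (hρ : US ρ) (hν : Sub1 ν) {n : ℕ} (hn : 0 < en (n + 1) ρ) :
    |mW (n + 1) ρ ν - mW n ρ ν| ≤ √((n : ℝ) + 1) := by
  have hn0 := en_pos_pred hρ hn
  set a1 := en (n + 1) ρ with ha1
  set a0 := en n ρ with ha0
  have hN : (0 : ℝ) < (n : ℝ) + 1 := by positivity
  set s := a1 / (a1 + ((n : ℝ) + 1) * a0) with hsdef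
  have hden : 0 < a1 + ((n : ℝ) + 1) * a0 := by positivity
  have hs0 : 0 < s := by positivity
  have hs1 : s < 1 := by
    rw [hsdef, div_lt_one hden]
    have := mul_pos hN hn0
    linarith
  have hbal : (1 - s) * a1 = ((n : ℝ) + 1) * s * a0 := by
    rw [hsdef]
    field_simp
    ring
  obtain ⟨ι, e, he, ho⟩ := exists_ext V
  have hus := us_mixd (us_map ι hρ) he hs0.le hs1.le
  have hsub := sub1_map ι hν
  set A := (1 - s) ^ (n + 1) * a1 with hA
  have hA' : ((n : ℝ) + 1) * s * (1 - s) ^ n * a0 = A := by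
    rw [hA, pow_succ]
    calc ((n : ℝ) + 1) * s * (1 - s) ^ n * a0 = (1 - s) ^ n * (((n : ℝ) + 1) * s * a0) := by ring
      _ = (1 - s) ^ n * ((1 - s) * a1) := by rw [hbal]
      _ = (1 - s) ^ n * (1 - s) * a1 := by ring
  have hApos : 0 < A := mul_pos (pow_pos (by linarith) _) hn
  -- total mass
  have hen : en (n + 1) (mixd s (ρ.map ι) e) = 2 * A := by
    have h1 := s4_key ι he ho hρ hs0.le hs1.le (F' := fun _ => (1 : ℝ)) (F := fun _ => (1 : ℝ))
      (LB.const 1) (LB.const 1) (fun _ _ _ => rfl) (fun _ => rfl) (fun _ => rfl) n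
    rw [iw_const, iw_const, iw_const, one_mul, one_mul, one_mul] at h1
    rw [h1, ← ha1, ← ha0, hA']
    ring
  have henpos : 0 < en (n + 1) (mixd s (ρ.map ι) e) := by rw [hen]; linarith
  -- concentration
  set c := mW (n + 1) (mixd s (ρ.map ι) e) (ν.map ι) with hc
  have hconc := conc_var hus hsub henpos
  rw [← hc, hen] at hconc
  have hfun : (fun X : Fin (n + 1) → EuclideanSpace ℝ (Fin (Module.finrank ℝ V + 1)) =>
      (sW (ν.map ι) (oc X) - c) ^ 2) = fun X => (qF (ν.map ι) (List.ofFn X) - c) ^ 2 := by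
    funext X
    rw [qF_eq]
  rw [hfun] at hconc
  have hkey := s4_key ι he ho hρ hs0.le hs1.le (F' := fun Z => (qF (ν.map ι) Z - c) ^ 2)
    (F := fun Z => (qF ν Z - c) ^ 2) (s4_lb_sq (lb_qF hsub) c) (s4_lb_sq (lb_qF hν) c)
    (fun Z Z' h => by
      show (qF (ν.map ι) Z - c) ^ 2 = (qF (ν.map ι) Z' - c) ^ 2
      rw [sym_qF (ν.map ι) Z Z' h])
    (fun Z => by
      show (qF (ν.map ι) (Z.map ι) - c) ^ 2 = (qF ν Z - c) ^ 2
      rw [qF_map])
    (fun Z => by
      show (qF (ν.map ι) (e :: Z.map ι) - c) ^ 2 = (qF ν Z - c) ^ 2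
      rw [qF_cons_map ι ho]) n
  rw [hkey] at hconc
  have hj1 := s4_jensen hρ (lb_qF hν) hn c
  have hj0 := s4_jensen hρ (lb_qF hν) hn0 c
  rw [← s4_mW] at hj1 hj0
  rw [← ha1] at hj1
  rw [← ha0] at hj0
  have hp1 : 0 ≤ (1 - s) ^ (n + 1) := pow_nonneg (by linarith) _
  have hp0 : 0 ≤ ((n : ℝ) + 1) * s * (1 - s) ^ n :=
    mul_nonneg (mul_nonneg hN.le hs0.le) (pow_nonneg (by linarith) _)
  have h1 := mul_le_mul_of_nonneg_left hj1 hp1
  have h0 := mul_le_mul_of_nonneg_left hj0 hp0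
  have h3 : A * (mW (n + 1) ρ ν - c) ^ 2 + A * (mW n ρ ν - c) ^ 2 ≤
      A * (((n : ℝ) + 1) / 2) := by
    have e1 : (1 - s) ^ (n + 1) * (a1 * (mW (n + 1) ρ ν - c) ^ 2) = A * (mW (n + 1) ρ ν - c) ^ 2 := by
      rw [hA]; ring
    have e0 : ((n : ℝ) + 1) * s * (1 - s) ^ n * (a0 * (mW n ρ ν - c) ^ 2) = A * (mW n ρ ν - c) ^ 2 := by
      rw [← hA']; ring
    rw [e1] at h1
    rw [e0] at h0
    have e5 : ((n + 1 : ℕ) : ℝ) / 4 * (2 * A) = A * (((n : ℝ) + 1) / 2) := by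
      push_cast
      ring
    rw [e5] at hconc
    linarith
  have h4 : (mW (n + 1) ρ ν - c) ^ 2 + (mW n ρ ν - c) ^ 2 ≤ ((n : ℝ) + 1) / 2 := by
    refine le_of_mul_le_mul_left ?_ hApos
    rw [mul_add]
    exact h3
  refine Real.abs_le_sqrt ?_
  nlinarith [sq_nonneg ((mW (n + 1) ρ ν - c) + (mW n ρ ν - c))]

end Pool.Agent.PBL
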