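import Pool.Agent.PBL.D1
import Pool.Agent.PBL.D0
import Pool.Agent.PBL.C3

/-! Module PBL-S5a (the mean length of the projection as an energy of the pair `ρ, Nop j ρ`): by `en_succ`, `av_abs` and Fubini
`√(2/π) en (j+1) ρ` is a multiple of the integral of `av (oc X) (hf ρ)`, which is computed by `nop_int`. -/

set_option autoImplicit false

namespace Pool.Agent.PBL
open MeasureTheory ProbabilityTheory Set Filter Topology Metric
open Pool.Agent.HP89 Pool.Agent.FI75
open scoped RealInnerProductSpace ENNReal

variable {V : Type*} [NormedAddCommGroup V] [InnerProductSpace ℝ V] [FiniteDimensional ℝ V]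
  [MeasurableSpace V] [BorelSpace V]

private theorem s5_meas_hf {ρ : Measure V} (hρ : US ρ) : Measurable (hf ρ) := by
  have := hρ.prob
  have h1 : Measurable (Function.uncurry fun (u x : V) => |⟪x, u⟫|) := by
    unfold Function.uncurry
    fun_prop
  have h2 := h1.stronglyMeasurable.integral_prod_right (ν := ρ)
  exact h2.measurable

omit [FiniteDimensional ℝ V] [BorelSpace V] in
private theorem s5_bdd_hf {ρ : Measure V} (hρ : US ρ) (u : V) (hu : ‖u‖ ≤ 1) : |hf ρ u| ≤ 1 := by
  have := hρ.prob
  unfold hf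
  have h1 : ∀ᵐ x ∂ρ, ‖|⟪x, u⟫|‖ ≤ (1 : ℝ) := by
    filter_upwards [hρ.unit] with x hx
    rw [Real.norm_eq_abs, abs_abs]
    refine (abs_real_inner_le_norm x u).trans ?_
    rw [hx, one_mul]
    exact hu
  have h2 := norm_integral_le_of_norm_le_const h1
  rw [probReal_univ, mul_one, Real.norm_eq_abs] at h2
  exact h2

private theorem s5_av {ρ : Measure V} (hρ : US ρ) (E : Submodule ℝ V) :
    ∫ x, av E (fun y => |⟪y, x⟫|) ∂ρ = av E (hf ρ) := by
  have := hρ.prob
  unfold av hf
  have hm : Measurable (Function.uncurry fun (x g : V) => |⟪nrm (E.starProjection g), x⟫|) := by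
    have h1 : Measurable fun p : V × V => nrm (E.starProjection p.2) :=
      measurable_nrm.comp (E.starProjection.continuous.measurable.comp measurable_snd)
    have h2 : Measurable fun p : V × V => ⟪nrm (E.starProjection p.2), p.1⟫ :=
      h1.inner measurable_fst
    have h3 : Measurable fun p : V × V => |⟪nrm (E.starProjection p.2), p.1⟫| := h2.abs
    exact h3
  have hn : Integrable (fun x : V => ‖x‖) ρ := by
    refine Integrable.of_bound measurable_norm.aestronglyMeasurable 1 ?_
    filter_upwards [hρ.unit] with x hx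
    rw [norm_norm, hx]
  have hi : Integrable (Function.uncurry fun (x g : V) => |⟪nrm (E.starProjection g), x⟫|)
      (ρ.prod (stdGaussian V)) := by
    refine Integrable.mono' (hn.comp_fst _) hm.aestronglyMeasurable (ae_of_all _ fun p => ?_)
    show ‖|⟪nrm (E.starProjection p.2), p.1⟫|‖ ≤ ‖p.1‖
    rw [Real.norm_eq_abs, abs_abs]
    refine (abs_real_inner_le_norm _ _).trans ?_
    exact mul_le_of_le_one_left (norm_nonneg _) (norm_nrm_le _)
  rw [integral_integral_swap hi]
  refine integral_congr_ae (ae_of_all _ fun g => ?_)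
  refine integral_congr_ae (ae_of_all _ fun x => ?_)
  show |⟪nrm (E.starProjection g), x⟫| = |⟪x, nrm (E.starProjection g)⟫|
  rw [real_inner_comm]

theorem id_en {ρ : Measure V} (hρ : US ρ) {j : ℕ} (hj : 0 < en j ρ) (hjd : j < Module.finrank ℝ V) :
    √(2 / Real.pi) * en (j + 1) ρ = mG (Module.finrank ℝ V - j) * en j ρ * ∫ x, hf ρ x ∂(Nop j ρ) := by
  rw [mul_assoc, nop_int hρ hj (s5_meas_hf hρ) (s5_bdd_hf hρ), en_succ hρ, ← iw_mul, ← iw_mul]
  refine iw_congr hρ fun X hX _ => ?_
  have hk := finrank_oc hX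
  have hk2 : Module.finrank ℝ V - j = Module.finrank ℝ (oc X) := by omega
  have hE : 1 ≤ Module.finrank ℝ (oc X) := by omega
  rw [hk2, ← s5_av hρ, gW, ← integral_const_mul, ← integral_const_mul]
  refine integral_congr_ae (ae_of_all _ fun x => ?_)
  exact (av_abs (oc X) hE x).symm

end Pool.Agent.PBL
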