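import Pool.Agent.PBL.D1
import Pool.Agent.PBL.E2
import Pool.Agent.PBL.C3

/-! Module PBL-S5b (the mean projection to the span of `j + 1` vectors as an integral over the pair `ρ, Nop j ρ`): the
leave-one-out formula reduces the left side to means of `⟪u, x⟫ ⟪w, rv X x⟫ / ‖rv X x‖` over `ρ`, and the sign moments on the
unit sphere of `oc X` rewrite these as means of `⟪Gr ρ y, u⟫ ⟪y, w⟫` over that sphere. -/

set_option autoImplicit false

namespace Pool.Agent.PBL
open MeasureTheory ProbabilityTheory Set Filter Topology Metric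
open Pool.Agent.HP89 Pool.Agent.FI75
open scoped RealInnerProductSpace ENNReal

variable {V : Type*} [NormedAddCommGroup V] [InnerProductSpace ℝ V] [FiniteDimensional ℝ V]
  [MeasurableSpace V] [BorelSpace V]

private theorem meas_sgn : Measurable Real.sign := by
  unfold Real.sign
  exact Measurable.ite (measurableSet_lt measurable_id measurable_const) measurable_const
    (Measurable.ite (measurableSet_lt measurable_const measurable_id) measurable_const
      measurable_const)

private theorem abs_sgn_le (r : ℝ) : |Real.sign r| ≤ 1 := by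
  rcases Real.sign_apply_eq r with h | h | h
  · rw [h]; norm_num
  · rw [h]; norm_num
  · rw [h]; norm_num

private theorem gr_inner {μ : Measure V} (hμ : US μ) (w z : V) :
    ⟪Gr μ w, z⟫ = ∫ x, Real.sign ⟪x, w⟫ * ⟪x, z⟫ ∂μ := by
  haveI := hμ.prob
  have h1 : Integrable (fun x : V => Real.sign ⟪x, w⟫ • x) μ := by
    refine Integrable.of_bound ?_ 1 ?_
    · exact ((meas_sgn.comp (measurable_id.inner measurable_const)).smul
        measurable_id).aestronglyMeasurable
    · filter_upwards [hμ.unit] with x hx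
      rw [norm_smul, hx, mul_one, Real.norm_eq_abs]
      exact abs_sgn_le _
  have h2 := integral_inner (𝕜 := ℝ) h1 z
  unfold Gr
  rw [real_inner_comm, ← h2]
  refine integral_congr_ae (Filter.Eventually.of_forall fun x => ?_)
  change ⟪z, Real.sign ⟪x, w⟫ • x⟫ = Real.sign ⟪x, w⟫ * ⟪x, z⟫
  rw [real_inner_smul_right, real_inner_comm x z]

private theorem meas_gr {ρ : Measure V} (hρ : US ρ) : Measurable (Gr ρ) := by
  haveI := hρ.prob
  have h1 : Measurable (fun p : V × V => Real.sign ⟪p.2, p.1⟫ • p.2) :=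
    (meas_sgn.comp (measurable_snd.inner measurable_fst)).smul measurable_snd
  have h2 : StronglyMeasurable (fun u : V => ∫ x, Real.sign ⟪x, u⟫ • x ∂ρ) :=
    h1.stronglyMeasurable.integral_prod_right'
  exact h2.measurable

private theorem norm_gr_le {ρ : Measure V} (hρ : US ρ) (u : V) : ‖Gr ρ u‖ ≤ 1 := by
  haveI := hρ.prob
  unfold Gr
  have h1 : ∀ᵐ x ∂ρ, ‖Real.sign ⟪x, u⟫ • x‖ ≤ 1 := by
    filter_upwards [hρ.unit] with x hx
    rw [norm_smul, hx, mul_one, Real.norm_eq_abs]
    exact abs_sgn_le _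
  have h2 := norm_integral_le_of_norm_le_const h1
  simpa using h2

private theorem inner_mean {ρ : Measure V} (hρ : US ρ) (E : Submodule ℝ V) (u w : V) {k : ℕ}
    (hk : 1 ≤ k) (hE : Module.finrank ℝ E = k) :
    √(2 / Real.pi) * ∫ x, ⟪u, x⟫ * ⟪w, E.starProjection x⟫ / ‖E.starProjection x‖ ∂ρ =
      mG k * av E (fun y => ⟪Gr ρ y, u⟫ * ⟪y, w⟫) := by
  haveI := hρ.prob
  have h1 : ∀ x : V, √(2 / Real.pi) * (⟪u, x⟫ * ⟪w, E.starProjection x⟫ / ‖E.starProjection x‖) =
      mG k * ∫ g, (Real.sign ⟪nrm (E.starProjection g), x⟫ * ⟪nrm (E.starProjection g), w⟫) *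
        ⟪u, x⟫ ∂(stdGaussian V) := by
    intro x
    have h2 := av_sgn E (by omega) x w
    rw [hE] at h2
    have h3 : ∫ g, (Real.sign ⟪nrm (E.starProjection g), x⟫ * ⟪nrm (E.starProjection g), w⟫) *
        ⟪u, x⟫ ∂(stdGaussian V) = av E (fun y => Real.sign ⟪y, x⟫ * ⟪y, w⟫) * ⟪u, x⟫ := by
      rw [integral_mul_const]
      rfl
    rw [h3, ← mul_assoc, h2]
    unfold nrm
    rw [real_inner_smul_left, real_inner_comm w]
    ring
  rw [← integral_const_mul]
  simp only [h1]
  rw [integral_const_mul]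
  congr 1
  have hnm : Measurable (fun p : V × V => nrm (E.starProjection p.2)) :=
    measurable_nrm.comp ((E.starProjection.continuous.measurable).comp measurable_snd)
  have hint : Integrable (Function.uncurry fun (x g : V) =>
      (Real.sign ⟪nrm (E.starProjection g), x⟫ * ⟪nrm (E.starProjection g), w⟫) * ⟪u, x⟫)
      (ρ.prod (stdGaussian V)) := by
    refine Integrable.of_bound ?_ (‖w‖ * ‖u‖) ?_
    · refine Measurable.aestronglyMeasurable ?_
      exact ((meas_sgn.comp (hnm.inner measurable_fst)).mul (hnm.inner measurable_const)).mul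
        (measurable_const.inner measurable_fst)
    · have h3 : ∀ᵐ p ∂(ρ.prod (stdGaussian V)), ‖p.1‖ = 1 :=
        Measure.quasiMeasurePreserving_fst.ae hρ.unit
      filter_upwards [h3] with p hp
      obtain ⟨x, g⟩ := p
      simp only at hp
      simp only [Function.uncurry]
      rw [norm_mul, norm_mul, Real.norm_eq_abs, Real.norm_eq_abs, Real.norm_eq_abs]
      have e1 := abs_sgn_le ⟪nrm (E.starProjection g), x⟫
      have e2 := abs_real_inner_le_norm (nrm (E.starProjection g)) w
      have e3 := norm_nrm_le (E.starProjection g)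
      have e4 := abs_real_inner_le_norm u x
      rw [hp, mul_one] at e4
      have e5 : ‖nrm (E.starProjection g)‖ * ‖w‖ ≤ 1 * ‖w‖ :=
        mul_le_mul_of_nonneg_right e3 (norm_nonneg _)
      have e6 : |Real.sign ⟪nrm (E.starProjection g), x⟫| * |⟪nrm (E.starProjection g), w⟫| ≤
          1 * (1 * ‖w‖) := mul_le_mul e1 (e2.trans e5) (abs_nonneg _) zero_le_one
      rw [one_mul, one_mul] at e6
      exact mul_le_mul e6 e4 (abs_nonneg _) (norm_nonneg _)
  rw [integral_integral_swap hint]
  unfold av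
  refine integral_congr_ae (Filter.Eventually.of_forall fun g => ?_)
  simp only
  rw [gr_inner hρ, ← integral_mul_const]
  refine integral_congr_ae (Filter.Eventually.of_forall fun x => ?_)
  simp only
  rw [real_inner_comm x u, real_inner_comm x (nrm (E.starProjection g))]
  ring

theorem id_iw {ρ : Measure V} (hρ : US ρ) {j : ℕ} (hj : 0 < en j ρ) (hjd : j < Module.finrank ℝ V) (u w : V) :
    √(2 / Real.pi) * iw (j + 1) ρ (fun X => ⟪u, w - rv X w⟫) =
      ((j : ℝ) + 1) * mG (Module.finrank ℝ V - j) * en j ρ * ∫ y, ⟪Gr ρ y, u⟫ * ⟪y, w⟫ ∂(Nop j ρ) := by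
  haveI := hρ.prob
  have h0 := loo_sym hρ (n := j) (G := fun _ => (1 : ℝ)) measurable_const (C := 1)
    (fun _ => by rw [abs_one]) (fun _ _ _ => rfl) u w
  simp only [one_mul] at h0
  have h1 : √(2 / Real.pi) * iw j ρ (fun X => ∫ x, ⟪u, x⟫ * ⟪w, rv X x⟫ / ‖rv X x‖ ∂ρ) =
      mG (Module.finrank ℝ V - j) * iw j ρ (fun X => av (oc X) (fun y => ⟪Gr ρ y, u⟫ * ⟪y, w⟫)) := by
    rw [← iw_mul, ← iw_mul]
    refine iw_congr hρ fun X hX _ => ?_
    have h1 := finrank_oc hX
    have h2 := inner_mean hρ (oc X) u w (k := Module.finrank ℝ V - j) (by omega) (by omega)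
    simp only [rv_eq]
    exact h2
  have h2 := nop_int hρ hj (φ := fun y => ⟪Gr ρ y, u⟫ * ⟪y, w⟫)
    (((meas_gr hρ).inner measurable_const).mul (measurable_id.inner measurable_const))
    (C := ‖u‖ * ‖w‖) (by
      intro y hy
      rw [abs_mul]
      have e1 := abs_real_inner_le_norm (Gr ρ y) u
      have e2 := abs_real_inner_le_norm y w
      have e3 := norm_gr_le hρ y
      have e4 : ‖Gr ρ y‖ * ‖u‖ ≤ 1 * ‖u‖ := mul_le_mul_of_nonneg_right e3 (norm_nonneg _)
      have e5 : ‖y‖ * ‖w‖ ≤ 1 * ‖w‖ := mul_le_mul_of_nonneg_right hy (norm_nonneg _)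
      rw [one_mul] at e4 e5
      exact mul_le_mul (e1.trans e4) (e2.trans e5) (abs_nonneg _) (norm_nonneg _))
  rw [h0]
  linear_combination ((j : ℝ) + 1) * h1 - ((j : ℝ) + 1) * mG (Module.finrank ℝ V - j) * h2

end Pool.Agent.PBL
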