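import Pool.Agent.PBL.S5a
import Pool.Agent.PBL.S5b
import Pool.Agent.PBL.E6

/-! Module PBL-S5c (the exact identity for two-cycles at the level `j + 1`).

hf_comm, Gr_comm: Fubini for |⟪x, y⟫| and sign ⟪x, y⟫ * ⟪x, u⟫ * ⟪y, w⟫. cyc_en, cyc_iw: the identities id_en, id_iw for ρ and for
Nop j ρ; the integrals on the right agree by hf_comm, Gr_comm and because hf (Nop j (Nop j ρ)) = hf ρ on the unit sphere. -/

set_option autoImplicit false

namespace Pool.Agent.PBL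
open MeasureTheory ProbabilityTheory Set Filter Topology Metric
open Pool.Agent.HP89 Pool.Agent.FI75
open scoped RealInnerProductSpace ENNReal

variable {V : Type*} [NormedAddCommGroup V] [InnerProductSpace ℝ V] [FiniteDimensional ℝ V]
  [MeasurableSpace V] [BorelSpace V]

private theorem s5_meas_sign : Measurable Real.sign := by
  unfold Real.sign
  exact Measurable.ite measurableSet_Iio measurable_const
    (Measurable.ite measurableSet_Ioi measurable_const measurable_const)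

private theorem s5_abs_sign_le (t : ℝ) : |Real.sign t| ≤ 1 := by
  rcases Real.sign_apply_eq t with h | h | h <;> simp [h]

omit [InnerProductSpace ℝ V] [FiniteDimensional ℝ V] [BorelSpace V] in
private theorem s5_prod_unit {ρ τ : Measure V} (hρ : US ρ) (hτ : US τ) :
    ∀ᵐ p ∂(τ.prod ρ), ‖p.1‖ = 1 ∧ ‖p.2‖ = 1 := by
  have := hρ.prob
  have := hτ.prob
  filter_upwards [Measure.quasiMeasurePreserving_fst.ae hτ.unit,
    Measure.quasiMeasurePreserving_snd.ae hρ.unit] with p h1 h2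
  exact ⟨h1, h2⟩

private theorem s5_Gr {ρ : Measure V} (hρ : US ρ) (y u : V) :
    ⟪Gr ρ y, u⟫ = ∫ x, Real.sign ⟪x, y⟫ * ⟪x, u⟫ ∂ρ := by
  have := hρ.prob
  rw [real_inner_comm]
  unfold Gr
  rw [← integral_inner]
  · congr 1
    ext x
    rw [real_inner_smul_right, real_inner_comm u x]
  · refine Integrable.mono' (integrable_const (1 : ℝ)) ?_ ?_
    · exact ((s5_meas_sign.comp (by fun_prop : Measurable fun x : V => ⟪x, y⟫)).smul
        measurable_id).aestronglyMeasurable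
    · filter_upwards [hρ.unit] with x hx
      rw [norm_smul, hx, mul_one]
      exact s5_abs_sign_le _

theorem hf_comm {ρ τ : Measure V} (hρ : US ρ) (hτ : US τ) : ∫ x, hf ρ x ∂τ = ∫ x, hf τ x ∂ρ := by
  have := hρ.prob
  have := hτ.prob
  have h1 : ∫ x, ∫ y, |⟪y, x⟫| ∂ρ ∂τ = ∫ y, ∫ x, |⟪y, x⟫| ∂τ ∂ρ := by
    refine integral_integral_swap (f := fun x y => |⟪y, x⟫|) ?_
    refine Integrable.mono' (integrable_const (1 : ℝ)) ?_ ?_
    · exact (by fun_prop : Measurable (fun p : V × V => |⟪p.2, p.1⟫|)).aestronglyMeasurable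
    · filter_upwards [s5_prod_unit hρ hτ] with p hp
      show ‖|⟪p.2, p.1⟫|‖ ≤ 1
      rw [Real.norm_eq_abs, abs_abs]
      have h3 := abs_real_inner_le_norm p.2 p.1
      rwa [hp.1, hp.2, one_mul] at h3
  unfold hf
  rw [h1]
  congr 1
  ext y
  congr 1
  ext x
  rw [real_inner_comm]

theorem Gr_comm {ρ τ : Measure V} (hρ : US ρ) (hτ : US τ) (u w : V) :
    ∫ y, ⟪Gr ρ y, u⟫ * ⟪y, w⟫ ∂τ = ∫ x, ⟪Gr τ x, w⟫ * ⟪x, u⟫ ∂ρ := by
  have := hρ.prob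
  have := hτ.prob
  have h1 : ∫ y, ∫ x, Real.sign ⟪x, y⟫ * ⟪x, u⟫ * ⟪y, w⟫ ∂ρ ∂τ =
      ∫ x, ∫ y, Real.sign ⟪x, y⟫ * ⟪x, u⟫ * ⟪y, w⟫ ∂τ ∂ρ := by
    refine integral_integral_swap (f := fun y x => Real.sign ⟪x, y⟫ * ⟪x, u⟫ * ⟪y, w⟫) ?_
    refine Integrable.mono' (integrable_const (‖u‖ * ‖w‖)) ?_ ?_
    · exact (((s5_meas_sign.comp (by fun_prop : Measurable (fun p : V × V => ⟪p.2, p.1⟫))).mul
        (by fun_prop : Measurable (fun p : V × V => ⟪p.2, u⟫))).mul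
        (by fun_prop : Measurable (fun p : V × V => ⟪p.1, w⟫))).aestronglyMeasurable
    · filter_upwards [s5_prod_unit hρ hτ] with p hp
      show ‖Real.sign ⟪p.2, p.1⟫ * ⟪p.2, u⟫ * ⟪p.1, w⟫‖ ≤ ‖u‖ * ‖w‖
      rw [Real.norm_eq_abs, abs_mul, abs_mul]
      have h3 := abs_real_inner_le_norm p.2 u
      have h4 := abs_real_inner_le_norm p.1 w
      rw [hp.2, one_mul] at h3
      rw [hp.1, one_mul] at h4
      have h5 := s5_abs_sign_le ⟪p.2, p.1⟫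
      calc |Real.sign ⟪p.2, p.1⟫| * |⟪p.2, u⟫| * |⟪p.1, w⟫| ≤ 1 * ‖u‖ * ‖w‖ := by gcongr
        _ = ‖u‖ * ‖w‖ := by ring
  calc ∫ y, ⟪Gr ρ y, u⟫ * ⟪y, w⟫ ∂τ = ∫ y, ∫ x, Real.sign ⟪x, y⟫ * ⟪x, u⟫ * ⟪y, w⟫ ∂ρ ∂τ := by
        congr 1
        ext y
        rw [s5_Gr hρ, integral_mul_const]
    _ = ∫ x, ∫ y, Real.sign ⟪x, y⟫ * ⟪x, u⟫ * ⟪y, w⟫ ∂τ ∂ρ := h1
    _ = ∫ x, ⟪Gr τ x, w⟫ * ⟪x, u⟫ ∂ρ := by
        congr 1
        ext x
        rw [s5_Gr hτ, ← integral_mul_const]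
        congr 1
        ext y
        rw [real_inner_comm x y]
        ring

theorem cyc_en {j : ℕ} (hjd : j < Module.finrank ℝ V) {ρ : Measure V} (hρ : US ρ) (hj : 0 < en j ρ)
    (hj' : 0 < en j (Nop j ρ)) (h : ∀ u, ‖u‖ = 1 → hf (Nop j (Nop j ρ)) u = hf ρ u)
    (hI : 0 < ∫ x, hf ρ x ∂(Nop j ρ)) :
    0 < en (j + 1) ρ ∧ 0 < en (j + 1) (Nop j ρ) ∧ en (j + 1) ρ * en j (Nop j ρ) = en (j + 1) (Nop j ρ) * en j ρ := by
  have h1 := nop_us hρ hj hjd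
  have h2 := nop_us h1 hj' hjd
  have e1 := id_en hρ hj hjd
  have e2 := id_en h1 hj' hjd
  have e3 : ∫ x, hf (Nop j ρ) x ∂(Nop j (Nop j ρ)) = ∫ x, hf ρ x ∂(Nop j ρ) := by
    rw [hf_comm h1 h2]
    refine integral_congr_ae ?_
    filter_upwards [h1.unit] with x hx
    exact h x hx
  rw [e3] at e2
  have hs : (0 : ℝ) < √(2 / Real.pi) := Real.sqrt_pos.2 (div_pos two_pos Real.pi_pos)
  have hm : 0 < mG (Module.finrank ℝ V - j) := mG_pos (by omega)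
  have p1 : 0 < √(2 / Real.pi) * en (j + 1) ρ := by
    rw [e1]
    positivity
  have p2 : 0 < √(2 / Real.pi) * en (j + 1) (Nop j ρ) := by
    rw [e2]
    positivity
  refine ⟨(mul_pos_iff_of_pos_left hs).1 p1, (mul_pos_iff_of_pos_left hs).1 p2, ?_⟩
  apply mul_left_cancel₀ hs.ne'
  rw [← mul_assoc, e1, ← mul_assoc, e2]
  ring

theorem cyc_iw {j : ℕ} (hjd : j < Module.finrank ℝ V) {ρ : Measure V} (hρ : US ρ) (hj : 0 < en j ρ)
    (hj' : 0 < en j (Nop j ρ)) (h : ∀ u, ‖u‖ = 1 → hf (Nop j (Nop j ρ)) u = hf ρ u) (u w : V) :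
    iw (j + 1) ρ (fun X => ⟪u, w - rv X w⟫) * en j (Nop j ρ) =
      iw (j + 1) (Nop j ρ) (fun X => ⟪u, w - rv X w⟫) * en j ρ := by
  have h1 := nop_us hρ hj hjd
  have h2 := nop_us h1 hj' hjd
  have e1 := id_iw hρ hj hjd w u
  have e2 := id_iw h1 hj' hjd u w
  have e3 : ∫ y, ⟪Gr (Nop j ρ) y, u⟫ * ⟪y, w⟫ ∂(Nop j (Nop j ρ)) =
      ∫ x, ⟪Gr ρ x, w⟫ * ⟪x, u⟫ ∂(Nop j ρ) := by
    rw [Gr_comm h1 h2]
    congr 1
    ext x
    rw [Gr_det h2 hρ h]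
  have e4 : (fun X : Fin (j + 1) → V => ⟪w, u - rv X u⟫) = fun X => ⟪u, w - rv X w⟫ := by
    ext X
    rw [inner_sub_right, inner_sub_right, real_inner_comm w u]
    congr 1
    show ⟪w, res (List.ofFn X) u⟫ = ⟪u, res (List.ofFn X) w⟫
    rw [← inner_res, real_inner_comm]
  rw [e4] at e1
  rw [e3] at e2
  have hs : (0 : ℝ) < √(2 / Real.pi) := Real.sqrt_pos.2 (div_pos two_pos Real.pi_pos)
  apply mul_left_cancel₀ hs.ne'
  rw [← mul_assoc, e1, ← mul_assoc, e2]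
  ring

end Pool.Agent.PBL
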